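import Mathlib

set_option autoImplicit false

noncomputable section

namespace Pool.Agent.Helper72CS

section Aux

variable {A : Type} [CStarAlgebra A]

/-- powers near one -/
theorem eq_one_of_pow_near (c : unitary A) (h : ∀ k : ℕ, ‖((c ^ k : unitary A) : A) - 1‖ ≤ 1 / 5) :
    c = 1 := by
  have step : ∀ k : ℕ, 9 / 5 * ‖((c ^ k : unitary A) : A) - 1‖ ≤
      ‖((c ^ (2 * k) : unitary A) : A) - 1‖ := by
    intro k
    obtain ⟨d, hd⟩ : ∃ d : A, d = ((c ^ k : unitary A) : A) - 1 := ⟨_, rfl⟩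
    have e : ((c ^ (2 * k) : unitary A) : A) - 1 = (2 : ℝ) • d + d * d := by
      have : ((c ^ (2 * k) : unitary A) : A) = ((c ^ k : unitary A) : A) * ((c ^ k : unitary A) : A) := by
        rw [two_mul, pow_add]
        rfl
      rw [this, hd, two_smul]
      noncomm_ring
    rw [e, ← hd]
    have h1 := norm_sub_norm_le ((2 : ℝ) • d) (-(d * d))
    rw [sub_neg_eq_add, norm_neg, norm_smul, Real.norm_two] at h1
    have h2 := norm_mul_le d d
    have h3 := h k
    rw [← hd] at h3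
    nlinarith [norm_nonneg d]
  have pw : ∀ n : ℕ, (9 / 5) ^ n * ‖(c : A) - 1‖ ≤ ‖((c ^ (2 ^ n) : unitary A) : A) - 1‖ := by
    intro n
    induction n with
    | zero => simp
    | succ n ih =>
      have := step (2 ^ n)
      rw [show 2 * 2 ^ n = 2 ^ (n + 1) by ring] at this
      rw [pow_succ]
      linarith
  have h0 : ‖(c : A) - 1‖ ≤ 0 := by
    by_contra hne
    push Not at hne
    obtain ⟨n, hn⟩ := pow_unbounded_of_one_lt (1 / 5 / ‖(c : A) - 1‖) (show (1 : ℝ) < 9 / 5 by norm_num)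
    rw [div_lt_iff₀ hne] at hn
    linarith [pw n, h (2 ^ n)]
  have h1 : (c : A) - 1 = 0 := norm_le_zero_iff.mp h0
  have h2 : (c : A) = 1 := sub_eq_zero.mp h1
  exact Subtype.ext h2

theorem norm_comm_sub_one (u v : unitary A) :
    ‖((u * v * u⁻¹ * v⁻¹ : unitary A) : A) - 1‖ = ‖(u : A) * v - v * u‖ := by
  have e : ((u : A) * v - v * u) * ((u⁻¹ * v⁻¹ : unitary A) : A) =
      ((u * v * u⁻¹ * v⁻¹ : unitary A) : A) - 1 := by
    have h1 : (u : A) * v * ((u⁻¹ * v⁻¹ : unitary A) : A) = ((u * v * u⁻¹ * v⁻¹ : unitary A) : A) := by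
      have : u * v * u⁻¹ * v⁻¹ = u * v * (u⁻¹ * v⁻¹) := by group
      rw [this]
      rfl
    have h2 : (v : A) * u * ((u⁻¹ * v⁻¹ : unitary A) : A) = 1 := by
      have : v * u * (u⁻¹ * v⁻¹) = 1 := by group
      have h3 : ((v * u * (u⁻¹ * v⁻¹) : unitary A) : A) = ((1 : unitary A) : A) := by rw [this]
      exact h3
    rw [sub_mul, h1, h2]
  rw [← e, CStarRing.norm_mul_coe_unitary]

theorem small_comm {u v : unitary A} (hu : ‖(u : A) - 1‖ ≤ 1 / 10) :
    ‖((u * v * u⁻¹ * v⁻¹ : unitary A) : A) - 1‖ ≤ 1 / 5 := by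
  rw [norm_comm_sub_one]
  have e : (u : A) * v - v * u = ((u : A) - 1) * v - v * ((u : A) - 1) := by noncomm_ring
  rw [e]
  refine (norm_sub_le _ _).trans ?_
  rw [CStarRing.norm_mul_coe_unitary, CStarRing.norm_coe_unitary_mul]
  linarith

theorem smaller_comm {u v : unitary A} (hu : ‖(u : A) - 1‖ ≤ 1 / 10) (hv : ‖(v : A) - 1‖ ≤ 1 / 10) :
    ‖((u * v * u⁻¹ * v⁻¹ : unitary A) : A) - 1‖ ≤ 1 / 10 := by
  rw [norm_comm_sub_one]
  have e : (u : A) * v - v * u = ((u : A) - 1) * ((v : A) - 1) - ((v : A) - 1) * ((u : A) - 1) := by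
    noncomm_ring
  rw [e]
  refine (norm_sub_le _ _).trans ?_
  have h1 := norm_mul_le ((u : A) - 1) ((v : A) - 1)
  have h2 := norm_mul_le ((v : A) - 1) ((u : A) - 1)
  have h3 := mul_le_mul hu hv (norm_nonneg _) (by norm_num)
  nlinarith

/-- if `u` is near one and conjugation by `u` maps `w` to `c w` with `c` commuting with `w`
then `c = 1` -/
theorem commute_of {u w : unitary A} (hu : ‖(u : A) - 1‖ ≤ 1 / 10)
    (hc : Commute (u * w * u⁻¹) w) : u * w = w * u := by
  have h1 : u * w * u⁻¹ * w⁻¹ = 1 := by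
    apply eq_one_of_pow_near
    intro k
    have e : (u * w * u⁻¹ * w⁻¹) ^ k = u * w ^ k * u⁻¹ * (w ^ k)⁻¹ := by
      rw [hc.inv_right.mul_pow, conj_pow, inv_pow]
    rw [e]
    exact small_comm hu
  rw [mul_inv_eq_one, mul_inv_eq_iff_eq_mul] at h1
  exact h1

theorem main (n : ℕ) : ∀ (Γ : Subgroup (unitary A)) (N : Set (unitary A)),
    (fun H : Subgroup (unitary A) => ⁅H, H⁆)^[n] Γ = ⊥ → Subgroup.closure N = Γ →
    (∀ g ∈ Γ, ∀ n ∈ N, g * n * g⁻¹ ∈ N) → (∀ n ∈ N, ‖(n : A) - 1‖ ≤ 1 / 10) →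
    ∀ a ∈ Γ, ∀ b ∈ Γ, a * b = b * a := by
  induction n with
  | zero =>
    intro Γ N hΓ _ _ _ a ha b hb
    simp only [Function.iterate_zero, id] at hΓ
    rw [hΓ, Subgroup.mem_bot] at ha hb
    rw [ha, hb]
  | succ n ih =>
    intro Γ N hΓ hN hconj hsmall
    rw [Function.iterate_succ_apply] at hΓ
    obtain ⟨N₁, hN₁⟩ : ∃ N₁ : Set (unitary A), N₁ = {c | ∃ u ∈ N, ∃ v ∈ N, c = u * v * u⁻¹ * v⁻¹} :=
      ⟨_, rfl⟩
    have hNΓ : ∀ u ∈ N, u ∈ Γ := fun u hu => hN ▸ Subgroup.subset_closure hu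
    obtain ⟨K, hK⟩ : ∃ K, K = Subgroup.closure N₁ := ⟨_, rfl⟩
    have hKΓ' : K ≤ ⁅Γ, Γ⁆ := by
      rw [hK, Subgroup.closure_le]
      intro c hc
      rw [hN₁] at hc
      obtain ⟨u, hu, v, hv, rfl⟩ := hc
      exact Subgroup.commutator_mem_commutator (hNΓ u hu) (hNΓ v hv)
    have hKΓ : K ≤ Γ := hKΓ'.trans (Subgroup.commutator_le_self Γ)
    have hmono : ∀ m : ℕ, ∀ H H' : Subgroup (unitary A), H ≤ H' →
        (fun H : Subgroup (unitary A) => ⁅H, H⁆)^[m] H ≤
          (fun H : Subgroup (unitary A) => ⁅H, H⁆)^[m] H' := by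
      intro m
      induction m with
      | zero => intro H H' h; exact h
      | succ m ihm =>
        intro H H' h
        rw [Function.iterate_succ_apply, Function.iterate_succ_apply]
        exact ihm _ _ (Subgroup.commutator_mono h h)
    have hKbot : (fun H : Subgroup (unitary A) => ⁅H, H⁆)^[n] K = ⊥ := by
      rw [eq_bot_iff, ← hΓ]
      exact hmono n _ _ hKΓ'
    have hconj₁ : ∀ g ∈ Γ, ∀ c ∈ N₁, g * c * g⁻¹ ∈ N₁ := by
      intro g hg c hc
      rw [hN₁] at hc ⊢
      obtain ⟨u, hu, v, hv, rfl⟩ := hc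
      refine ⟨g * u * g⁻¹, hconj g hg u hu, g * v * g⁻¹, hconj g hg v hv, ?_⟩
      group
    have hsmall₁ : ∀ c ∈ N₁, ‖(c : A) - 1‖ ≤ 1 / 10 := by
      intro c hc
      rw [hN₁] at hc
      obtain ⟨u, hu, v, hv, rfl⟩ := hc
      exact smaller_comm (hsmall u hu) (hsmall v hv)
    have hKab := ih K N₁ hKbot hK.symm (fun g hg => hconj₁ g (hKΓ hg)) hsmall₁
    have hKconj : ∀ g ∈ Γ, ∀ w ∈ K, g * w * g⁻¹ ∈ K := by
      intro g hg w hw
      rw [hK] at hw ⊢
      induction hw using Subgroup.closure_induction with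
      | mem x hx => exact Subgroup.subset_closure (hconj₁ g hg x hx)
      | one => simp
      | mul x y _ _ hx hy =>
        have e : g * (x * y) * g⁻¹ = (g * x * g⁻¹) * (g * y * g⁻¹) := by group
        rw [e]
        exact mul_mem hx hy
      | inv x _ hx =>
        have e : g * x⁻¹ * g⁻¹ = (g * x * g⁻¹)⁻¹ := by group
        rw [e]
        exact inv_mem hx
    -- elements of `N` commute with elements of `K`
    have hNK : ∀ u ∈ N, ∀ w ∈ K, u * w = w * u := by
      intro u hu w hw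
      exact commute_of (hsmall u hu) (hKab _ (hKconj u (hNΓ u hu) w hw) _ hw)
    -- elements of `N` commute with each other
    have hNN : ∀ u ∈ N, ∀ v ∈ N, u * v = v * u := by
      intro u hu v hv
      apply commute_of (hsmall u hu)
      have hcK : u * v * u⁻¹ * v⁻¹ ∈ K := by
        rw [hK]
        apply Subgroup.subset_closure
        rw [hN₁]
        exact ⟨u, hu, v, hv, rfl⟩
      have h1 : v * (u * v * u⁻¹ * v⁻¹) = (u * v * u⁻¹ * v⁻¹) * v := hNK v hv _ hcK
      have h2 : u * v * u⁻¹ = (u * v * u⁻¹ * v⁻¹) * v := by group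
      rw [h2]
      exact Commute.mul_left h1.symm (Commute.refl v)
    have c1 : Γ ≤ Subgroup.centralizer N := by
      rw [← hN, Subgroup.closure_le]
      intro u hu
      rw [SetLike.mem_coe, Subgroup.mem_centralizer_iff]
      intro v hv
      exact hNN v hv u hu
    have c2 : Γ ≤ Subgroup.centralizer (Γ : Set (unitary A)) := by
      conv_lhs => rw [← hN]
      rw [Subgroup.closure_le]
      intro u hu
      rw [SetLike.mem_coe, Subgroup.mem_centralizer_iff]
      intro g hg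
      have := c1 hg
      rw [Subgroup.mem_centralizer_iff] at this
      exact (this u hu).symm
    intro a ha b hb
    have := c2 hb
    rw [Subgroup.mem_centralizer_iff] at this
    exact this a ha

end Aux

/-- TARGET -/
theorem commute_of_solvable {A : Type} [CStarAlgebra A] (Γ : Subgroup (unitary A)) [Group.IsSolvable Γ]
    (N : Set (unitary A)) (hN : Subgroup.closure N = Γ)
    (hconj : ∀ g ∈ Γ, ∀ n ∈ N, g * n * g⁻¹ ∈ N)
    (hsmall : ∀ n ∈ N, ‖(n : A) - 1‖ ≤ 1 / 10) :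
    ∀ a ∈ Γ, ∀ b ∈ Γ, a * b = b * a := by
  obtain ⟨n, hn⟩ := Group.IsSolvable.solvable (G := Γ)
  have key : ∀ m : ℕ, (derivedSeries Γ m).map Γ.subtype =
      (fun H : Subgroup (unitary A) => ⁅H, H⁆)^[m] Γ := by
    intro m
    induction m with
    | zero =>
      rw [derivedSeries_zero, ← MonoidHom.range_eq_map, Subgroup.range_subtype]
      rfl
    | succ m ih =>
      rw [derivedSeries_succ, Subgroup.map_commutator, ih, Function.iterate_succ_apply']
  refine main n Γ N ?_ hN hconj hsmall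
  rw [← key, hn, Subgroup.map_bot]

end Pool.Agent.Helper72CS
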