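import Pool.Agent.Helper72_CS.LSDefs
import Pool.Agent.Helper72_CS.SolvComm

/-!
# Weak stability, small unitaries, elementary amenable groups: definitions
-/

set_option autoImplicit false

open Set Filter Topology

noncomputable section

namespace Pool.Agent.Helper72CS

/-- Weak stability: asymptotically multiplicative, involutive, unital maps into `C*`-algebras are
asymptotically close to unitary representations. -/
def WeakStable (G : Type) [Group G] : Prop :=
  ∀ (D : ℕ → Type) [∀ j, CStarAlgebra (D j)] [∀ j, Nontrivial (D j)] (φ : ∀ j, G → D j),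
    (∀ g, ∃ C, ∀ j, ‖φ j g‖ ≤ C) →
    (∀ g h, Tendsto (fun j => ‖φ j (g * h) - φ j g * φ j h‖) atTop (𝓝 0)) →
    (∀ g, Tendsto (fun j => ‖star (φ j g) - φ j g⁻¹‖) atTop (𝓝 0)) →
    Tendsto (fun j => ‖φ j 1 - 1‖) atTop (𝓝 0) →
    ∃ ψ : ∀ j, G →* unitary (D j),
      ∀ g, Tendsto (fun j => ‖(ψ j g : D j) - φ j g‖) atTop (𝓝 0)

theorem weakStable_of_cstable {G : Type} [Group G] [Countable G] (hG : CStarStable G) :
    WeakStable G := fun _ _ _ φ h1 h2 h3 h4 => perturbW hG φ h1 h2 h3 h4

/-- In every unitary representation of every subgroup `H` of `G`, the elements of a conjugation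
invariant subset of `H` which are represented by unitaries within `1/10` of `1` commute. -/
def PS (G : Type) [Group G] : Prop :=
  ∀ (H : Subgroup G) (A : Type) [CStarAlgebra A] (φ : H →* unitary A) (N : Set H),
    (∀ g : H, ∀ n ∈ N, g * n * g⁻¹ ∈ N) → (∀ n ∈ N, ‖(φ n : A) - 1‖ ≤ 1 / 10) →
    ∀ a ∈ N, ∀ b ∈ N, φ a * φ b = φ b * φ a

/-- Elementary amenable groups: the smallest class of groups which contains the finite and the
commutative groups and is closed under extensions and directed unions. -/
inductive IsEA : (G : Type) → [Group G] → Prop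
  | finite (G : Type) [Group G] (h : Finite G) : IsEA G
  | comm (G : Type) [Group G] (h : ∀ a b : G, a * b = b * a) : IsEA G
  | ext (G : Type) [Group G] (N : Subgroup G) [N.Normal] (h1 : IsEA N) (h2 : IsEA (G ⧸ N)) : IsEA G
  | union (G : Type) [Group G] (ι : Type) (H : ι → Subgroup G)
      (hdir : ∀ i j, ∃ k, H i ≤ H k ∧ H j ≤ H k) (hcov : ∀ g : G, ∃ i, g ∈ H i)
      (h : ∀ i, IsEA (H i)) : IsEA G

/-- every finitely generated subgroup of `M` is finite -/
def LocFin {G : Type} [Group G] (M : Subgroup G) : Prop :=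
  ∀ S : Set G, S.Finite → S ⊆ M → (Subgroup.closure S : Set G).Finite

/-- representation by permutation matrices -/
def permU (K : Type) [Fintype K] [DecidableEq K] : Equiv.Perm K →* unitary (MM K ℂ) where
  toFun σ := ⟨mono σ (fun _ => 1), by
    rw [Unitary.mem_iff, star_mono, mono_mul, mono_mul]
    have h1 : (fun _ : K => (1 : ℂ) * 1) = fun _ => 1 := by funext; ring
    constructor
    · rw [inv_mul_cancel]
      simp only [star_one, mul_one]
      exact mono_one
    · rw [mul_inv_cancel]
      simp only [star_one, mul_one]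
      exact mono_one⟩
  map_one' := Subtype.ext mono_one
  map_mul' σ τ := Subtype.ext (by
    show mono (σ * τ) (fun _ => (1 : ℂ)) = mono σ (fun _ => 1) * mono τ (fun _ => 1)
    rw [mono_mul]
    simp only [mul_one])

end Pool.Agent.Helper72CS
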