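/-
HOW TO START: this file imports small modules which are on origin/main. Do
  cd /workdir/pool/outputs/live && git fetch && git checkout origin/main -- Pool/Agent/Helper72_CS Pool/Agent/Helper757/GL ; git reset -q
  mkdir -p /workdir/pool/Pool/Agent/Helper757 && cp -r Pool/Agent/Helper72_CS /workdir/pool/Pool/Agent/ && cp -r Pool/Agent/Helper757/GL /workdir/pool/Pool/Agent/Helper757/
  cd /workdir/pool && lake build Pool.Agent.Helper72_CS.Defs2 (plus the other modules the file imports)
(1-2 minutes). The definitions are in Pool/Agent/Helper72_CS/{Ind,Fam,Grp,LSDefs,Defs2}.lean (short; read them first).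
Note: inside the namespace, `continuous_pi` is another lemma; write `_root_.continuous_pi`.
-/
import Pool.Agent.Helper72_CS.Defs2

/-!
JOB ind_path: inducing paths of eventually multiplicative unitary valued maps. (Definitions: `Ind`, `lc`, `rp`, `mono`, `MM` in `Pool/Agent/Helper72_CS/Ind.lean`;
useful: `Ind_apply`, `Ind_mul_sub`, `Ind_star_sub`, `Ind_one_sub`, `norm_mono_le`, `MM.ext`.)

`Ind_mul_sub` etc. express the error of `Ind` as a `mono` of the errors of `Φ` at the finitely many pairs `lc L g (h • q)`, `lc L h q`; so the identities hold for all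
large `j` (a finite intersection over `q : G ⧸ L`, `Filter.eventually_all`). For the star: from `hmul g g⁻¹` and `hone`, `Φ j g⁻¹ t = star (Φ j g t)` eventually.
The norm bound is `1` (`norm_mono_le`, unitaries have norm one or use `Ind` of unitaries; any constant will do). Continuity entrywise (`_root_.continuous_pi`).
-/

set_option autoImplicit false

open Set Filter Topology

noncomputable section

namespace Pool.Agent.Helper72CS

theorem mono_zero_fun {Q D : Type} [Fintype Q] [DecidableEq Q] [CStarAlgebra D]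
    (σ : Equiv.Perm Q) (m : Q → D) (h : ∀ q, m q = 0) : mono σ m = 0 := by
  refine MM.ext fun p q => ?_
  rw [mono_apply, MM.zero_apply, h, ite_self]

/-- TARGET -/
theorem ind_path {G : Type} [Group G] (L : Subgroup G) [L.FiniteIndex] (K : ℕ → Type)
    [∀ j, Fintype (K j)] [∀ j, DecidableEq (K j)] [∀ j, Nonempty (K j)]
    (Φ : ∀ j, L → unitInterval → unitary (MM (K j) ℂ))
    (hc : ∀ j l, Continuous fun t => (Φ j l t : MM (K j) ℂ)) (hone : ∀ j t, Φ j 1 t = 1)
    (hmul : ∀ g h : L, ∀ᶠ j in atTop, ∀ t, Φ j (g * h) t = Φ j g t * Φ j h t) :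
    (∀ j g, Continuous fun t => Ind L (fun l => (Φ j l t : MM (K j) ℂ)) g) ∧
    (∀ g, ∃ C : ℝ, ∀ j t, ‖Ind L (fun l => (Φ j l t : MM (K j) ℂ)) g‖ ≤ C) ∧
    (∀ g h, ∀ᶠ j in atTop, ∀ t, Ind L (fun l => (Φ j l t : MM (K j) ℂ)) (g * h) =
      Ind L (fun l => (Φ j l t : MM (K j) ℂ)) g * Ind L (fun l => (Φ j l t : MM (K j) ℂ)) h) ∧
    (∀ g, ∀ᶠ j in atTop, ∀ t, star (Ind L (fun l => (Φ j l t : MM (K j) ℂ)) g) =
      Ind L (fun l => (Φ j l t : MM (K j) ℂ)) g⁻¹) ∧
    (∀ j t, Ind L (fun l => (Φ j l t : MM (K j) ℂ)) 1 = 1) := by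
  classical
  refine ⟨?_, ?_, ?_, ?_, ?_⟩
  · intro j g
    rw [continuous_iff_continuousAt]
    intro t0
    show Tendsto _ _ _
    rw [tendsto_iff_norm_sub_tendsto_zero]
    have h1 : Tendsto (fun t => ∑ q : G ⧸ L,
        ‖(Φ j (lc L g q) t : MM (K j) ℂ) - (Φ j (lc L g q) t0 : MM (K j) ℂ)‖) (𝓝 t0) (𝓝 0) := by
      have h2 : ∀ q ∈ (Finset.univ : Finset (G ⧸ L)), Tendsto (fun t =>
          ‖(Φ j (lc L g q) t : MM (K j) ℂ) - (Φ j (lc L g q) t0 : MM (K j) ℂ)‖) (𝓝 t0) (𝓝 0) := by
        intro q _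
        have h3 := (hc j (lc L g q)).tendsto t0
        rwa [tendsto_iff_norm_sub_tendsto_zero] at h3
      have := tendsto_finsetSum (Finset.univ : Finset (G ⧸ L)) h2
      simpa using this
    refine squeeze_zero (fun _ => norm_nonneg _) (fun t => ?_) h1
    rw [Ind_sub]
    exact norm_mono_le_sum _ _
  · intro g
    refine ⟨1, fun j t => ?_⟩
    unfold Ind
    exact norm_mono_le _ _ zero_le_one fun q => (CStarRing.norm_coe_unitary _).le
  · intro g h
    have h1 : ∀ᶠ j in atTop, ∀ q : G ⧸ L, ∀ t, Φ j (lc L g (h • q) * lc L h q) t =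
        Φ j (lc L g (h • q)) t * Φ j (lc L h q) t :=
      eventually_all.2 fun q => hmul _ _
    filter_upwards [h1] with j hj t
    rw [← sub_eq_zero, Ind_mul_sub]
    refine mono_zero_fun _ _ fun q => ?_
    rw [hj q t]
    simp
  · intro g
    have h0 : ∀ l : L, ∀ᶠ j in atTop, ∀ t, star (Φ j l t : MM (K j) ℂ) = Φ j l⁻¹ t := by
      intro l
      filter_upwards [hmul l l⁻¹] with j hj t
      have h2 := hj t
      rw [mul_inv_cancel, hone] at h2
      have h3 : Φ j l⁻¹ t = (Φ j l t)⁻¹ := by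
        rw [eq_comm, inv_eq_iff_mul_eq_one]
        exact h2.symm
      rw [h3]
      rfl
    have h1 : ∀ᶠ j in atTop, ∀ q : G ⧸ L, ∀ t, star (Φ j (lc L g (g⁻¹ • q)) t : MM (K j) ℂ) =
        Φ j (lc L g (g⁻¹ • q))⁻¹ t :=
      eventually_all.2 fun q => h0 _
    filter_upwards [h1] with j hj t
    rw [← sub_eq_zero, Ind_star_sub]
    refine mono_zero_fun _ _ fun q => ?_
    rw [hj q t, sub_self]
  · intro j t
    rw [← sub_eq_zero, Ind_one_sub]
    refine mono_zero_fun _ _ fun q => ?_
    rw [hone]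
    simp

end Pool.Agent.Helper72CS
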