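import Mathlib

set_option autoImplicit false

noncomputable section

namespace Pool.Agent.Helper72CS

open ComplexOrder in
lemma eq_zero_of_trace {n : Type} [Fintype n] [DecidableEq n] (A : Matrix n n ℂ)
    (h : (A.conjTranspose * A).trace = 0) : A = 0 :=
  Matrix.trace_conjTranspose_mul_self_eq_zero_iff.mp h

/-- TARGET (prove the conjunction) -/
theorem trace_rigid :
    (∀ (X n : Type) [TopologicalSpace X] [PreconnectedSpace X] [Fintype n] [DecidableEq n]
      (U : X → Matrix n n ℂ), Continuous U → (∀ x, ∃ e : ℕ, 0 < e ∧ U x ^ e = 1) →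
      ∀ x y, (U x).trace = (U y).trace) ∧
    (∀ (n : Type) [Fintype n] [DecidableEq n] (U : Matrix n n ℂ), U ∈ unitary (Matrix n n ℂ) →
      U.trace = (Fintype.card n : ℂ) → U = 1) := by
  refine ⟨?_, ?_⟩
  · intro X n _ _ _ _ U hU he x y
    have halg : ∀ x, IsAlgebraic ℚ (U x).trace := by
      intro x
      obtain ⟨e, he0, he1⟩ := he x
      rw [Matrix.trace_eq_sum_roots_charpoly]
      have hmem : ∀ z ∈ (U x).charpoly.roots, z ∈ integralClosure ℚ ℂ := by
        intro z hz
        have h1 : (U x).charpoly.IsRoot z := (Polynomial.mem_roots'.mp hz).2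
        have h2 : z ∈ spectrum ℂ (U x) := Matrix.mem_spectrum_iff_isRoot_charpoly.mpr h1
        have h3 : z ^ e ∈ spectrum ℂ ((U x) ^ e) := spectrum.pow_mem_pow (U x) e h2
        rw [he1] at h3
        have h4 : z ^ e = 1 := by
          by_contra hne
          rw [spectrum.mem_iff] at h3
          apply h3
          have h5 : (algebraMap ℂ (Matrix n n ℂ)) (z ^ e) - 1 =
              algebraMap ℂ (Matrix n n ℂ) (z ^ e - 1) := by
            rw [map_sub, map_one]
          rw [h5]
          exact (IsUnit.mk0 _ (sub_ne_zero.mpr hne)).map _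
        rw [mem_integralClosure_iff]
        have h6 : IsIntegral ℚ (z ^ e) := by rw [h4]; exact isIntegral_one
        exact h6.of_pow he0
      have := multiset_sum_mem (S := integralClosure ℚ ℂ) _ hmem
      rw [mem_integralClosure_iff] at this
      exact this.isAlgebraic
    have hc : Continuous (fun x => (U x).trace) := hU.matrix_trace
    have hcount : (Set.range (fun x => (U x).trace)).Countable := by
      refine (Algebraic.countable ℚ ℂ).mono ?_
      rintro z ⟨x, rfl⟩
      exact halg x
    have hpre : IsPreconnected (Set.range (fun x => (U x).trace)) := isPreconnected_range hc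
    have htd := hcount.isTotallyDisconnected
    exact htd _ le_rfl hpre ⟨x, rfl⟩ ⟨y, rfl⟩
  · intro n _ _ U hU htr
    rw [Unitary.mem_iff] at hU
    have h1 : ((1 - U).conjTranspose * (1 - U)).trace = 0 := by
      have h2 : (1 - U).conjTranspose * (1 - U) = 1 + 1 - U - U.conjTranspose := by
        have h3 : U.conjTranspose * U = 1 := hU.1
        rw [Matrix.conjTranspose_sub, Matrix.conjTranspose_one, sub_mul, mul_sub, mul_sub, h3]
        simp only [one_mul, mul_one]
        abel
      rw [h2, Matrix.trace_sub, Matrix.trace_sub, Matrix.trace_add, Matrix.trace_one,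
        Matrix.trace_conjTranspose, htr]
      simp
    exact (sub_eq_zero.mp (eq_zero_of_trace _ h1)).symm

end Pool.Agent.Helper72CS
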