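import Pool.Agent.Helper72_CS.PathLemma
import Pool.Agent.Helper72_CS.IndPath
import Pool.Agent.Helper72_CS.TraceRigid

/-!
# Comparison of traces of representations joined by asymptotic paths
-/

set_option autoImplicit false

open Set Filter Topology

noncomputable section

namespace Pool.Agent.Helper72CS

/-- Representations joined by an asymptotic path have the same traces on rigid elements. -/
theorem compare_traces {G : Type} [Group G] [Countable G] (hG : CStarStable G) (L : Subgroup G)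
    [L.FiniteIndex] (M : Set G)
    (hM : ∀ (n : Type) [Fintype n] [DecidableEq n] (ρ : G →* unitary (Matrix n n ℂ)),
      ∀ m ∈ M, ∃ e : ℕ, 0 < e ∧ ρ m ^ e = 1)
    (K : ℕ → Type)
    [∀ j, Fintype (K j)] [∀ j, DecidableEq (K j)] [∀ j, Nonempty (K j)]
    (Φ : ∀ j, L → unitInterval → unitary (MM (K j) ℂ))
    (hc : ∀ j l, Continuous fun t => (Φ j l t : MM (K j) ℂ)) (hone : ∀ j t, Φ j 1 t = 1)
    (hmul : ∀ g h : L, ∀ᶠ j in atTop, ∀ t, Φ j (g * h) t = Φ j g t * Φ j h t)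
    (ρ ρ' : ∀ j, G →* unitary (MM (G ⧸ L) (MM (K j) ℂ)))
    (h0 : ∀ g, Tendsto (fun j => ‖(ρ j g : MM (G ⧸ L) (MM (K j) ℂ)) -
      Ind L (fun l => (Φ j l 0 : MM (K j) ℂ)) g‖) atTop (𝓝 0))
    (h1 : ∀ g, Tendsto (fun j => ‖(ρ' j g : MM (G ⧸ L) (MM (K j) ℂ)) -
      Ind L (fun l => (Φ j l 1 : MM (K j) ℂ)) g‖) atTop (𝓝 0)) :
    ∀ᶠ j in atTop, ∀ m ∈ M, (flat (G ⧸ L) (K j) (ρ j m : MM (G ⧸ L) (MM (K j) ℂ))).trace =
      (flat (G ⧸ L) (K j) (ρ' j m : MM (G ⧸ L) (MM (K j) ℂ))).trace := by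
  obtain ⟨p1, p2, p3, p4, p5⟩ := ind_path L K Φ hc hone hmul
  have key := path_lemma hG (D := fun j => MM (G ⧸ L) (MM (K j) ℂ))
    (fun j g t => Ind L (fun l => (Φ j l t : MM (K j) ℂ)) g) p1 p2
    (fun g h ε hε => by
      filter_upwards [p3 g h] with j hj t
      rw [hj t, sub_self, norm_zero]
      exact hε.le)
    (fun g ε hε => by
      filter_upwards [p4 g] with j hj t
      rw [hj t, sub_self, norm_zero]
      exact hε.le)
    (fun ε hε => Eventually.of_forall fun j t => by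
      rw [p5 j t, sub_self, norm_zero]
      exact hε.le)
    ρ ρ' h0 h1
  filter_upwards [key] with j hj m hm
  obtain ⟨ψ, hψ, e0, e1⟩ := hj
  have := trace_rigid.1 unitInterval ((G ⧸ L) × K j)
    (fun t => flat (G ⧸ L) (K j) (ψ t m : MM (G ⧸ L) (MM (K j) ℂ)))
    (flat_continuous.comp (hψ m)) (fun t => by
      obtain ⟨e, he, he'⟩ := hM _ ((mapU (flat (G ⧸ L) (K j))).comp (ψ t)) m hm
      refine ⟨e, he, ?_⟩
      have h2 := congrArg (fun u : unitary (Matrix ((G ⧸ L) × K j) ((G ⧸ L) × K j) ℂ) =>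
        (u : Matrix ((G ⧸ L) × K j) ((G ⧸ L) × K j) ℂ)) he'
      exact h2) 0 1
  rw [← e0, ← e1]
  exact this

end Pool.Agent.Helper72CS
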