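import Mathlib

/-!
JOB exists_periodic_char: periodic characters.
-/

set_option autoImplicit false

noncomputable section

namespace Pool.Agent.Helper72CS

open LaurentPolynomial

theorem epc_add
    (hRF : ∀ (M : Type) [AddCommGroup M] [Module (LaurentPolynomial ℤ) M]
      [Module.Finite (LaurentPolynomial ℤ) M] (a : M), a ≠ 0 →
      ∃ B : Submodule (LaurentPolynomial ℤ) M, Finite (M ⧸ B) ∧ a ∉ B)
    {A : Type} [AddCommGroup A] [Module (LaurentPolynomial ℤ) A] (F : Set A) (hF : F.Finite)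
    (a₀ : A) (h : a₀ ≠ 0) :
    ∃ k : ℕ, 0 < k ∧ ∃ y : A →+ AddCircle (1 : ℚ),
      (∀ b ∈ F, ∀ i : ℤ, y ((T (i + (k : ℤ)) : LaurentPolynomial ℤ) • b) =
        y ((T i : LaurentPolynomial ℤ) • b)) ∧ y a₀ ≠ 0 := by
  set M : Submodule (LaurentPolynomial ℤ) A := Submodule.span _ (insert a₀ F) with hM
  have hfin : Module.Finite (LaurentPolynomial ℤ) M :=
    Module.Finite.span_of_finite _ (hF.insert a₀)
  have ha : a₀ ∈ M := Submodule.subset_span (Set.mem_insert _ _)
  have hb : ∀ b ∈ F, b ∈ M := fun b hb => Submodule.subset_span (Set.mem_insert_of_mem _ hb)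
  have hane : (⟨a₀, ha⟩ : M) ≠ 0 := fun h0 => h (congrArg Subtype.val h0)
  obtain ⟨B, hBf, hBa⟩ := hRF M ⟨a₀, ha⟩ hane
  -- the period
  have hper : ∃ k : ℕ, 0 < k ∧ ∀ q : M ⧸ B, (T (k : ℤ) : LaurentPolynomial ℤ) • q = q := by
    have hni : ¬ Function.Injective (fun n : ℕ => fun q : M ⧸ B =>
        (T (n : ℤ) : LaurentPolynomial ℤ) • q) := not_injective_infinite_finite _
    rw [Function.Injective] at hni
    push Not at hni
    obtain ⟨m, n, hmn, hne⟩ := hni
    have main : ∀ m n : ℕ, (fun q : M ⧸ B => (T (m : ℤ) : LaurentPolynomial ℤ) • q) =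
        (fun q : M ⧸ B => (T (n : ℤ) : LaurentPolynomial ℤ) • q) → m < n →
        ∃ k : ℕ, 0 < k ∧ ∀ q : M ⧸ B, (T (k : ℤ) : LaurentPolynomial ℤ) • q = q := by
      intro m n hmn hlt
      refine ⟨n - m, by omega, fun q => ?_⟩
      have h1 := congrFun hmn ((T (-(m : ℤ)) : LaurentPolynomial ℤ) • q)
      simp only [smul_smul, ← T_add] at h1
      rw [add_neg_cancel, T_zero, one_smul] at h1
      have h2 : ((n - m : ℕ) : ℤ) = (n : ℤ) + -(m : ℤ) := by omega
      rw [h2]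
      exact h1.symm
    rcases lt_or_gt_of_ne hne with h1 | h1
    · exact main m n hmn h1
    · exact main n m hmn.symm h1
  obtain ⟨k, hk0, hk⟩ := hper
  -- a character of the finite quotient
  have hqne : (Submodule.Quotient.mk (⟨a₀, ha⟩ : M) : M ⧸ B) ≠ 0 := by
    intro h0
    exact hBa ((Submodule.Quotient.mk_eq_zero B).mp h0)
  obtain ⟨c, hc⟩ := CharacterModule.exists_character_apply_ne_zero_of_ne_zero hqne
  -- extend to `A`
  let y1 : CharacterModule M := (c : (M ⧸ B) →+ AddCircle (1 : ℚ)).comp (B.mkQ.toAddMonoidHom)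
  obtain ⟨y, hy⟩ := CharacterModule.dual_surjective_of_injective
    (M.subtype : M →ₗ[LaurentPolynomial ℤ] A) (Submodule.injective_subtype M) y1
  obtain ⟨y', hy'⟩ : ∃ y' : A →+ AddCircle (1 : ℚ), ∀ b (hbm : b ∈ M),
      y' b = c (Submodule.Quotient.mk (⟨b, hbm⟩ : M) : M ⧸ B) := by
    refine ⟨y, ?_⟩
    intro b hbm
    have := congrArg (fun f : CharacterModule M => f ⟨b, hbm⟩) hy
    exact this
  refine ⟨k, hk0, y', ?_, ?_⟩
  · intro b hbF i
    have hbm := hb b hbF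
    rw [hy' _ (M.smul_mem _ hbm), hy' _ (M.smul_mem _ hbm)]
    congr 1
    have e1 : (Submodule.Quotient.mk (⟨(T (i + (k : ℤ)) : LaurentPolynomial ℤ) • b,
        M.smul_mem _ hbm⟩ : M) : M ⧸ B) = (T (k : ℤ) : LaurentPolynomial ℤ) •
          (Submodule.Quotient.mk (⟨(T i : LaurentPolynomial ℤ) • b, M.smul_mem _ hbm⟩ : M) :
            M ⧸ B) := by
      rw [← Submodule.Quotient.mk_smul]
      congr 1
      apply Subtype.ext
      change (T (i + (k : ℤ)) : LaurentPolynomial ℤ) • b =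
        (T (k : ℤ) : LaurentPolynomial ℤ) • ((T i : LaurentPolynomial ℤ) • b)
      rw [smul_smul, ← T_add, add_comm]
    rw [e1, hk]
  · rw [hy' a₀ ha]
    exact hc

/-- from the rational numbers to the circle -/
def epc_e0 : ℚ →+ Additive Circle where
  toFun x := Additive.ofMul (Circle.exp (2 * Real.pi * (x : ℝ)))
  map_zero' := by
    apply Additive.toMul.injective
    simp
  map_add' x y := by
    apply Additive.toMul.injective
    simp only [toMul_ofMul, toMul_add]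
    rw [← Circle.exp_add]
    congr 1
    push_cast
    ring

theorem epc_e0_ker (x : ℚ) : epc_e0 x = 0 ↔ ∃ n : ℤ, (n : ℚ) = x := by
  have h0 : epc_e0 x = 0 ↔ Circle.exp (2 * Real.pi * (x : ℝ)) = 1 := Iff.rfl
  rw [h0, Circle.exp_eq_one]
  have hpi : (2 * Real.pi) ≠ 0 := by positivity
  constructor
  · rintro ⟨n, hn⟩
    refine ⟨n, ?_⟩
    have h1 : (x : ℝ) = n := by
      apply mul_left_cancel₀ hpi
      linarith
    have h2 : ((n : ℚ) : ℝ) = (x : ℝ) := by rw [h1]; norm_cast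
    exact_mod_cast h2
  · rintro ⟨n, rfl⟩
    exact ⟨n, by push_cast; ring⟩

/-- from rational numbers modulo integers to the circle -/
def epc_e : AddCircle (1 : ℚ) →+ Additive Circle :=
  QuotientAddGroup.lift _ epc_e0 (by
      intro x hx
      rw [AddSubgroup.mem_zmultiples_iff] at hx
      obtain ⟨n, rfl⟩ := hx
      rw [AddMonoidHom.mem_ker, epc_e0_ker]
      exact ⟨n, by simp⟩)

theorem epc_e_ne {x : AddCircle (1 : ℚ)} (hx : x ≠ 0) : epc_e x ≠ 0 := by
  intro h
  apply hx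
  obtain ⟨q, rfl⟩ := QuotientAddGroup.mk_surjective x
  have h1 : epc_e0 q = 0 := h
  rw [epc_e0_ker] at h1
  obtain ⟨n, rfl⟩ := h1
  rw [QuotientAddGroup.eq_zero_iff, AddSubgroup.mem_zmultiples_iff]
  exact ⟨n, by simp⟩

theorem epc_pow (z : Circle) (hz : z ≠ 1) : ∃ l : ℕ, 1 ≤ ‖((z ^ l : Circle) : ℂ) - 1‖ := by
  by_contra hno
  push Not at hno
  have hd : ∀ w : Circle, ‖((w ^ 2 : Circle) : ℂ) - 1‖ ^ 2 =
      ‖(w : ℂ) - 1‖ ^ 2 * (4 - ‖(w : ℂ) - 1‖ ^ 2) := by
    intro w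
    have h1 : ((w ^ 2 : Circle) : ℂ) - 1 = ((w : ℂ) - 1) * ((w : ℂ) + 1) := by
      push_cast; ring
    rw [h1, norm_mul, mul_pow]
    congr 1
    have h2 := parallelogram_law_with_norm ℝ (w : ℂ) 1
    have h3 : ‖(w : ℂ)‖ = 1 := Circle.norm_coe w
    rw [h3] at h2
    simp at h2
    nlinarith
  have hgrow : ∀ i : ℕ, 3 ^ i * ‖(z : ℂ) - 1‖ ^ 2 ≤ ‖((z ^ (2 ^ i) : Circle) : ℂ) - 1‖ ^ 2 := by
    intro i
    induction i with
    | zero => simp
    | succ i ih =>
      have h1 := hd (z ^ (2 ^ i))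
      have h2 : (z ^ (2 ^ i)) ^ 2 = z ^ (2 ^ (i + 1)) := by rw [← pow_mul, ← pow_succ]
      rw [h2] at h1
      rw [h1]
      have h3 := hno (2 ^ i)
      have h4 : ‖((z ^ (2 ^ i) : Circle) : ℂ) - 1‖ ^ 2 ≤ 1 := by
        have := norm_nonneg (((z ^ (2 ^ i) : Circle) : ℂ) - 1)
        nlinarith
      have h5 := sq_nonneg ‖((z ^ (2 ^ i) : Circle) : ℂ) - 1‖
      rw [pow_succ]
      nlinarith
  have hpos : 0 < ‖(z : ℂ) - 1‖ ^ 2 := by
    have : (z : ℂ) - 1 ≠ 0 := by
      intro h0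
      apply hz
      apply Circle.ext
      rw [sub_eq_zero] at h0
      simpa using h0
    positivity
  obtain ⟨i, hi⟩ := pow_unbounded_of_one_lt (1 / ‖(z : ℂ) - 1‖ ^ 2) (by norm_num : (1 : ℝ) < 3)
  have h1 := hgrow i
  have h2 := hno (2 ^ i)
  have h3 : ‖((z ^ (2 ^ i) : Circle) : ℂ) - 1‖ ^ 2 < 1 := by
    have := norm_nonneg (((z ^ (2 ^ i) : Circle) : ℂ) - 1)
    nlinarith
  rw [div_lt_iff₀ hpos] at hi
  linarith

/-- the action of the powers of an automorphism -/
def epc_act {A : Type} [CommGroup A] (T : MulAut A) :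
    Multiplicative ℤ →* AddMonoid.End (Additive A) where
  toFun n := MonoidHom.toAdditive ((T ^ (Multiplicative.toAdd n) : MulAut A).toMonoidHom)
  map_one' := by
    ext a
    rfl
  map_mul' m n := by
    ext a
    change Additive.ofMul ((T ^ (Multiplicative.toAdd m + Multiplicative.toAdd n) : MulAut A)
      a.toMul) = Additive.ofMul ((T ^ (Multiplicative.toAdd m) : MulAut A)
        ((T ^ (Multiplicative.toAdd n) : MulAut A) a.toMul))
    rw [zpow_add, MulAut.mul_apply]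

/-- TARGET -/
theorem exists_periodic_char
    (hRF : ∀ (M : Type) [AddCommGroup M] [Module (LaurentPolynomial ℤ) M]
      [Module.Finite (LaurentPolynomial ℤ) M] (a : M), a ≠ 0 →
      ∃ B : Submodule (LaurentPolynomial ℤ) M, Finite (M ⧸ B) ∧ a ∉ B)
    {A : Type} [CommGroup A] (T : MulAut A) (F : Finset A) (a₀ : A) (h : a₀ ≠ 1) :
    ∃ k : ℕ, 0 < k ∧ ∃ y : A →* Circle,
      (∀ b ∈ F, ∀ i : ℤ, y ((T ^ (i + (k : ℤ)) : MulAut A) b) = y ((T ^ i : MulAut A) b)) ∧
        1 ≤ ‖(y a₀ : ℂ) - 1‖ := by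
  let f : LaurentPolynomial ℤ →+* AddMonoid.End (Additive A) :=
    (AddMonoidAlgebra.lift ℤ (AddMonoid.End (Additive A)) ℤ (epc_act T)).toRingHom
  let _ : Module (LaurentPolynomial ℤ) (Additive A) := Module.compHom (Additive A) f
  have hT : ∀ (i : ℤ) (b : A), (LaurentPolynomial.T i : LaurentPolynomial ℤ) •
      (Additive.ofMul b) = Additive.ofMul ((T ^ i : MulAut A) b) := by
    intro i b
    change f (LaurentPolynomial.T i) (Additive.ofMul b) = _
    have h1 : f (LaurentPolynomial.T i) = epc_act T (Multiplicative.ofAdd i) := by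
      change AddMonoidAlgebra.lift ℤ (AddMonoid.End (Additive A)) ℤ (epc_act T)
        (AddMonoidAlgebra.single i 1) = _
      rw [AddMonoidAlgebra.lift_single, one_smul]
    rw [h1]
    rfl
  obtain ⟨k, hk, y, hy1, hy2⟩ := epc_add hRF (A := Additive A)
    (Additive.ofMul '' (F : Set A)) (F.finite_toSet.image _) (Additive.ofMul a₀)
    (fun h0 => h (Additive.ofMul.injective h0))
  let z : A →* Circle := AddMonoidHom.toMultiplicative (epc_e.comp y)
  have hz : ∀ b : A, z b = (epc_e (y (Additive.ofMul b))).toMul := fun _ => rfl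
  have hz0 : z a₀ ≠ 1 := by
    rw [hz]
    intro h0
    exact epc_e_ne hy2 (Additive.toMul.injective h0)
  obtain ⟨l, hl⟩ := epc_pow (z a₀) hz0
  refine ⟨k, hk, z ^ l, ?_, ?_⟩
  · intro b hb i
    have h1 := hy1 (Additive.ofMul b) (Set.mem_image_of_mem _ hb) i
    rw [hT, hT] at h1
    rw [MonoidHom.pow_apply, MonoidHom.pow_apply, hz, hz, h1]
  · rw [MonoidHom.pow_apply]
    exact hl

end Pool.Agent.Helper72CS
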