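import Mathlib

/-!
JOB exists_finite_quotient: finitely generated modules over `ℤ[T, T⁻¹]` are residually finite.

Proof. `R = ℤ[T;T⁻¹]` is a commutative Noetherian Jacobson ring, finitely generated over `ℤ`
(a localization of `ℤ[T]`, a quotient of `MvPolynomial (Fin 2) ℤ`). Let `M` be a f.g. `R`-module and
`a ≠ 0`. Let `I = ann(a)`, a proper ideal, and let `m ⊇ I` be a maximal ideal. Then `a ∉ ⋂ n, m^n M`: by the
Artin-Rees lemma / Krull's intersection theorem (`Ideal.exists_pow_inf_eq_pow_smul`,
`Ideal.iInf_pow_smul_eq_bot...`, `Ideal.isHausdorff...`): if `a` is in all `m^n M`, then there is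
`r ∈ m` with `(1 - r) a = 0` (`Ideal.mem_iInf_smul_pow_eq_bot_iff`), so `1 - r ∈ I ⊆ m`, a contradiction. Choose `n` with
`a ∉ m^n M =: B`. `R / m` is a field which is finitely generated as a ring, so it is finite
(Jacobson ring `ℤ`: see `finite_of_finite_type_of_isJacobsonRing` and the like), `R / m^n` is then finite
(`m` is f.g., filtration by `m^i / m^(i+1)`; or `M / m^i M → ...` directly by induction: each
`m^i M / m^(i+1) M` is a f.g. module over the finite ring `R / m`), and `M / m^n M` is finite.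
-/

set_option autoImplicit false

noncomputable section

namespace Pool.Agent.Helper72CS

open LaurentPolynomial

theorem efq_jac : IsJacobsonRing ℤ := by
  rw [isJacobsonRing_iff_prime_eq]
  intro P hP
  by_cases h0 : P = ⊥
  · subst h0
    rw [eq_bot_iff]
    intro x hx
    rw [Ideal.mem_jacobson_bot] at hx
    have h1 := hx x
    rw [Int.isUnit_iff] at h1
    rw [Ideal.mem_bot]
    rcases h1 with h1 | h1
    · nlinarith
    · nlinarith [mul_self_nonneg x]
  · have := IsPrime.to_maximal_ideal h0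
    exact Ideal.jacobson_eq_self_of_isMaximal

theorem efq_finite_field (K : Type) [Field K] [Algebra.FiniteType ℤ K] : Finite K := by
  have := efq_jac
  have h1 : Module.Finite ℤ K := finite_of_finite_type_of_isJacobsonRing ℤ K
  have h2 : Algebra.IsIntegral ℤ K := inferInstance
  by_cases h3 : Function.Injective (algebraMap ℤ K)
  · exact absurd (isField_of_isIntegral_of_isField h3 (Field.toIsField K)) Int.not_isField
  · have h4 : ∃ n : ℤ, n ≠ 0 ∧ algebraMap ℤ K n = 0 := by
      rw [injective_iff_map_eq_zero] at h3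
      push Not at h3
      obtain ⟨n, hn1, hn2⟩ := h3
      exact ⟨n, hn2, hn1⟩
    obtain ⟨n, hn, hn'⟩ := h4
    refine Module.finite_of_fg_torsion K ?_
    intro x
    refine ⟨⟨n, mem_nonZeroDivisors_of_ne_zero hn⟩, ?_⟩
    show n • x = 0
    rw [Algebra.smul_def, hn', zero_mul]

/-- TARGET -/
theorem exists_finite_quotient {M : Type} [AddCommGroup M] [Module (LaurentPolynomial ℤ) M]
    [Module.Finite (LaurentPolynomial ℤ) M] (a : M) (ha : a ≠ 0) :
    ∃ B : Submodule (LaurentPolynomial ℤ) M, Finite (M ⧸ B) ∧ a ∉ B := by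
  have hN : IsNoetherianRing (LaurentPolynomial ℤ) :=
    IsLocalization.isNoetherianRing (Submonoid.powers (Polynomial.X : Polynomial ℤ)) _ inferInstance
  have hF : Algebra.FiniteType ℤ (LaurentPolynomial ℤ) :=
    inferInstanceAs (Algebra.FiniteType ℤ (AddMonoidAlgebra ℤ ℤ))
  have hI : Ideal.torsionOf (LaurentPolynomial ℤ) M a ≠ ⊤ := by
    intro h
    have h1 : (1 : LaurentPolynomial ℤ) ∈ Ideal.torsionOf (LaurentPolynomial ℤ) M a := by
      rw [h]; trivial
    rw [Ideal.mem_torsionOf_iff, one_smul] at h1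
    exact ha h1
  obtain ⟨m, hm, hIm⟩ := Ideal.exists_le_maximal _ hI
  have hex : ∃ n : ℕ, a ∉ (m ^ n • ⊤ : Submodule (LaurentPolynomial ℤ) M) := by
    by_contra hcon
    push Not at hcon
    have h1 : a ∈ (⨅ i : ℕ, m ^ i • ⊤ : Submodule (LaurentPolynomial ℤ) M) := by
      rw [Submodule.mem_iInf]
      exact hcon
    rw [Ideal.mem_iInf_smul_pow_eq_bot_iff] at h1
    obtain ⟨r, hr⟩ := h1
    have h2 : (1 - (r : LaurentPolynomial ℤ)) ∈ m := by
      apply hIm
      rw [Ideal.mem_torsionOf_iff, sub_smul, one_smul, hr, sub_self]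
    apply hm.ne_top
    rw [Ideal.eq_top_iff_one]
    have h3 := m.add_mem h2 r.2
    rwa [sub_add_cancel] at h3
  obtain ⟨n, hn⟩ := hex
  refine ⟨m ^ n • ⊤, ?_, hn⟩
  have hfin : Finite (LaurentPolynomial ℤ ⧸ m) := by
    let inst := Ideal.Quotient.field m
    refine @efq_finite_field (LaurentPolynomial ℤ ⧸ m) inst ?_
    have hF' : @Algebra.FiniteType ℤ (LaurentPolynomial ℤ) _ _ (Ring.toIntAlgebra _) := by
      have e : (Ring.toIntAlgebra (LaurentPolynomial ℤ)) =
        (inferInstance : Algebra ℤ (LaurentPolynomial ℤ)) := Subsingleton.elim _ _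
      rw [e]
      exact hF
    exact @Algebra.FiniteType.of_surjective ℤ (LaurentPolynomial ℤ) (LaurentPolynomial ℤ ⧸ m) _ _ _
      (Ring.toIntAlgebra _) (Ring.toIntAlgebra _) hF' (Ideal.Quotient.mk m).toIntAlgHom
      Ideal.Quotient.mk_surjective
  have hfinn : Finite (LaurentPolynomial ℤ ⧸ m ^ n) :=
    Ideal.finite_quotient_pow ((isNoetherianRing_iff_ideal_fg _).1 hN m) n
  have hsub : Finite (M ⧸ (⊤ : Submodule (LaurentPolynomial ℤ) M)) := by
    have : Subsingleton (M ⧸ (⊤ : Submodule (LaurentPolynomial ℤ) M)) := by simp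
    infer_instance
  exact Submodule.finite_quotient_smul (m ^ n) (Module.Finite.fg_top)

end Pool.Agent.Helper72CS
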