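/-
HOW TO START: this file imports small modules which are on origin/main. Do
  cd /workdir/pool/outputs/live && git fetch && git checkout origin/main -- Pool/Agent/Helper72_CS Pool/Agent/Helper757/GL ; git reset -q
  mkdir -p /workdir/pool/Pool/Agent/Helper757 && cp -r Pool/Agent/Helper72_CS /workdir/pool/Pool/Agent/ && cp -r Pool/Agent/Helper757/GL /workdir/pool/Pool/Agent/Helper757/
  cd /workdir/pool && lake build Pool.Agent.Helper72_CS.Defs2 (plus the other modules the file imports)
(1-2 minutes). The definitions are in Pool/Agent/Helper72_CS/{Ind,Fam,Grp,LSDefs,Defs2}.lean (short; read them first).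
Note: inside the namespace, `continuous_pi` is another lemma; write `_root_.continuous_pi`.
-/
import Pool.Agent.Helper72_CS.PerChar
import Pool.Agent.Helper72_CS.ResFin

/-!
JOB exists_periodic_char_quot: the relative version of `exists_periodic_char` (`Pool/Agent/Helper72_CS/PerChar.lean`).

Proof. Let `B` be the closure in the statement; `T` and `T⁻¹` map `B` onto `B`, so `T` induces an automorphism `T'` of `A ⧸ B` (with `T'^i (mk a) = mk (T^i a)` for `i : ℤ`).
Apply `exists_periodic_char` with its hypothesis `hRF` given by `exists_finite_quotient` (`Pool/Agent/Helper72_CS/ResFin.lean`; see how it is used in the proof of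
`exists_rep_ne` in `Pool/Agent/Helper72_CS/RepNe.lean`) to `T'`, the image of `F` and the image of `a₀`, and compose the character with `A → A ⧸ B`.
-/

set_option autoImplicit false

open Set Filter Topology

noncomputable section

namespace Pool.Agent.Helper72CS

/-- TARGET -/
theorem exists_periodic_char_quot {A : Type} [CommGroup A] (T : MulAut A) (F₀ F : Finset A)
    (a₀ : A)
    (h : a₀ ∉ Subgroup.closure {a | ∃ b ∈ F₀, ∃ i : ℤ, a = (T ^ i : MulAut A) b}) :
    ∃ k : ℕ, 0 < k ∧ ∃ y : A →* Circle,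
      (∀ b ∈ F₀, ∀ i : ℤ, y ((T ^ i : MulAut A) b) = 1) ∧
      (∀ b ∈ F, ∀ i : ℤ, y ((T ^ (i + (k : ℤ)) : MulAut A) b) = y ((T ^ i : MulAut A) b)) ∧
      1 ≤ ‖(y a₀ : ℂ) - 1‖ := by
  classical
  set B : Subgroup A := Subgroup.closure {a | ∃ b ∈ F₀, ∃ i : ℤ, a = (T ^ i : MulAut A) b} with hB
  have hmap : B.map (T : A ≃* A).toMonoidHom = B := by
    rw [hB, MonoidHom.map_closure]
    congr 1
    ext a
    constructor
    · rintro ⟨c, ⟨b, hb, i, rfl⟩, rfl⟩
      refine ⟨b, hb, 1 + i, ?_⟩
      rw [zpow_add, zpow_one]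
      rfl
    · rintro ⟨b, hb, i, rfl⟩
      refine ⟨(T ^ (i - 1) : MulAut A) b, ⟨b, hb, i - 1, rfl⟩, ?_⟩
      show (T * T ^ (i - 1) : MulAut A) b = _
      have h1 : T * T ^ (i - 1) = T ^ i := by
        rw [← zpow_one_add]
        congr 1
        ring
      rw [h1]
  let T' : MulAut (A ⧸ B) := QuotientGroup.congr B B T hmap
  have hT' : ∀ a : A, T' (QuotientGroup.mk' B a) = QuotientGroup.mk' B (T a) := fun a => rfl
  have hnat : ∀ (n : ℕ) (a : A),
      (T' ^ n : MulAut (A ⧸ B)) (QuotientGroup.mk' B a) = QuotientGroup.mk' B ((T ^ n : MulAut A) a) := by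
    intro n
    induction n with
    | zero => intro a; rfl
    | succ n ih =>
      intro a
      rw [pow_succ, pow_succ, MulAut.mul_apply, MulAut.mul_apply, hT', ih]
  have hint : ∀ (i : ℤ) (a : A),
      (T' ^ i : MulAut (A ⧸ B)) (QuotientGroup.mk' B a) = QuotientGroup.mk' B ((T ^ i : MulAut A) a) := by
    intro i a
    rcases Int.eq_nat_or_neg i with ⟨n, rfl | rfl⟩
    · rw [zpow_natCast, zpow_natCast]
      exact hnat n a
    · apply (T' ^ n : MulAut (A ⧸ B)).injective
      rw [hnat, ← MulAut.mul_apply, ← MulAut.mul_apply, ← zpow_natCast, ← zpow_natCast,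
        ← zpow_add, ← zpow_add, add_neg_cancel, zpow_zero, zpow_zero]
      rfl
  have ha : QuotientGroup.mk' B a₀ ≠ 1 := by
    intro h0
    exact h ((QuotientGroup.eq_one_iff a₀).1 h0)
  obtain ⟨k, hk, y, hy, hy0⟩ := exists_periodic_char
    (fun M _ _ _ a ha => exists_finite_quotient a ha) T' (F.image (QuotientGroup.mk' B))
    (QuotientGroup.mk' B a₀) ha
  refine ⟨k, hk, y.comp (QuotientGroup.mk' B), ?_, ?_, hy0⟩
  · intro b hb i
    have h1 : QuotientGroup.mk' B ((T ^ i : MulAut A) b) = 1 :=
      (QuotientGroup.eq_one_iff _).2 (Subgroup.subset_closure ⟨b, hb, i, rfl⟩)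
    rw [MonoidHom.comp_apply, h1, map_one]
  · intro b hb i
    have h1 := hy (QuotientGroup.mk' B b) (Finset.mem_image_of_mem _ hb) i
    rw [hint, hint] at h1
    exact h1

end Pool.Agent.Helper72CS
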