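import Pool.Agent.Helper72_CS.Fam

/-!
# Homomorphisms on subgroups and characters of normal subgroups: definitions
-/

set_option autoImplicit false

open Set Filter Topology

noncomputable section

namespace Pool.Agent.Helper72CS

variable {G : Type} [Group G]

/-- `x` is a homomorphism `K → ℝ` -/
def HomOn (K : Subgroup G) (x : G → ℝ) : Prop := ∀ a ∈ K, ∀ b ∈ K, x (a * b) = x a + x b

theorem HomOn.one {K : Subgroup G} {x : G → ℝ} (h : HomOn K x) : x 1 = 0 := by
  have := h 1 K.one_mem 1 K.one_mem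
  rw [mul_one] at this
  linarith

theorem HomOn.inv {K : Subgroup G} {x : G → ℝ} (h : HomOn K x) {a : G} (ha : a ∈ K) :
    x a⁻¹ = -x a := by
  have := h a ha a⁻¹ (K.inv_mem ha)
  rw [mul_inv_cancel, h.one] at this
  linarith

theorem HomOn.pow {K : Subgroup G} {x : G → ℝ} (h : HomOn K x) {a : G} (ha : a ∈ K) (n : ℕ) :
    x (a ^ n) = n * x a := by
  induction n with
  | zero => rw [pow_zero, h.one]; simp
  | succ n ih =>
    rw [pow_succ, h _ (K.pow_mem ha n) _ ha, ih]
    push_cast
    ring

theorem HomOn.zpow {K : Subgroup G} {x : G → ℝ} (h : HomOn K x) {a : G} (ha : a ∈ K) (n : ℤ) :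
    x (a ^ n) = n * x a := by
  obtain ⟨m, rfl | rfl⟩ := n.eq_nat_or_neg
  · rw [zpow_natCast, h.pow ha]
    simp
  · rw [zpow_neg, zpow_natCast, h.inv (K.pow_mem ha m), h.pow ha]
    simp

theorem HomOn.mono {K L : Subgroup G} {x : G → ℝ} (h : HomOn K x) (hL : L ≤ K) : HomOn L x :=
  fun a ha b hb => h a (hL ha) b (hL hb)

/-- the action of `G` on the characters of a normal subgroup: `(g y) m = y (g⁻¹ m g)` -/
def cact (N : Subgroup G) [N.Normal] (g : G) (y : N →* Circle) : N →* Circle :=
  y.comp (MulAut.conjNormal g⁻¹ : MulAut N).toMonoidHom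

theorem cact_apply (N : Subgroup G) [N.Normal] (g : G) (y : N →* Circle) (m : N) :
    cact N g y m = y (MulAut.conjNormal g⁻¹ m) := rfl

theorem cact_one (N : Subgroup G) [N.Normal] (y : N →* Circle) : cact N 1 y = y := by
  ext m
  rw [cact_apply, inv_one, map_one]
  rfl

theorem cact_mul (N : Subgroup G) [N.Normal] (g h : G) (y : N →* Circle) :
    cact N (g * h) y = cact N g (cact N h y) := by
  ext m
  rw [cact_apply, cact_apply, cact_apply, mul_inv_rev, map_mul]
  rfl

theorem cact_mem (N : Subgroup G) [N.Normal] (g : G) (hg : g ∈ N) (y : N →* Circle) :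
    cact N g y = y := by
  ext m
  have h : MulAut.conjNormal g⁻¹ m = (⟨g, hg⟩ : N)⁻¹ * m * ⟨g, hg⟩ := by
    apply Subtype.ext
    rw [MulAut.conjNormal_apply, inv_inv]
    rfl
  rw [cact_apply, h, map_mul, map_mul, map_inv, mul_comm (y ⟨g, hg⟩)⁻¹, mul_assoc,
    inv_mul_cancel, mul_one]

/-- the characters of `N` with finite `G`-orbit -/
def Per (N : Subgroup G) [N.Normal] : Set (N →* Circle) :=
  {y | (Set.range fun g : G => cact N g y).Finite}

end Pool.Agent.Helper72CS
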