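/-
HOW TO START: this file imports small modules which are on origin/main. Do
  cd /workdir/pool/outputs/live && git fetch && git checkout origin/main -- Pool/Agent/Helper72_CS Pool/Agent/Helper757/GL ; git reset -q
  mkdir -p /workdir/pool/Pool/Agent/Helper757 && cp -r Pool/Agent/Helper72_CS /workdir/pool/Pool/Agent/ && cp -r Pool/Agent/Helper757/GL /workdir/pool/Pool/Agent/Helper757/
  cd /workdir/pool && lake build Pool.Agent.Helper72_CS.LSDefs Pool.Agent.Helper72_CS.HubTop Pool.Agent.Helper72_CS.SolvComm Pool.Agent.Helper72_CS.IndexLemma Pool.Agent.Helper72_CS.OpRep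
(1-2 minutes). The definitions are in Pool/Agent/Helper72_CS/{Ind,Fam,Grp,LSDefs}.lean (short; read them first).
Note: inside the namespace, `continuous_pi` is another lemma; write `_root_.continuous_pi`.
-/
import Pool.Agent.Helper72_CS.Grp
import Pool.Agent.Helper72_CS.PerChar
import Pool.Agent.Helper72_CS.ResFin

/-!
JOB exists_rep_ne: a nontrivial finite dimensional representation.

Proof. `N` is solvable and nontrivial, so `A = Abelianization N` is nontrivial. Let `m₀ ∈ N` with nontrivial class `a₀ ∈ A`. Let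
`T : MulAut A` be induced by `m ↦ τ⁻¹ m τ` (`N` is normal; `MulEquiv.abelianizationCongr`). Enumerate `N = {n_0, n_1, ...}` (`G` is countable) and
let `F_j ⊆ A` be the finite set of the classes of `m₀, n_0, ..., n_j`. By `exists_periodic_char` (with `exists_finite_quotient`
for its hypothesis `hRF`) there are `k = k_j > 0` and `y = y_j : A →* Circle` with `y (T^(i+k) b) = y (T^i b)` for `b ∈ F_j`, `i : ℤ`, and
`‖y a₀ - 1‖ ≥ 1`. Let `K j = Fin (k j)`, `ρ₀ m = diagonal (i ↦ y (T^i [m]))` for `m ∈ N`, `S` the cyclic shift `e_i ↦ e_(i+1 mod k)`,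
`φ j (m τ^e) = ρ₀ m * S^e` (`L = N⟨τ⟩`, unique decomposition by `hL`, `hfree`). It is unitary, `φ j 1 = 1`. For `m ∈ N` with class in `F_j`,
`S (ρ₀ m) S⁻¹ = ρ₀ (τ m τ⁻¹)`, and similarly for all conjugates of `m` by powers of `τ`; so
`S^e (ρ₀ m) S^(-e) = ρ₀ (τ^e m τ^(-e))`, and `φ j (g h) = φ j g * φ j h` for every fixed `g h ∈ L` if `j` is large (`g = mτ^e`, `h = m'τ^e'`, need the class
of `m'` in `F_j`). Apply `family` (module `Fam`) with `X = Unit`, `Y = Empty` (or `PEmpty`), to get representations `ψ j` of `G` on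
`MM (G ⧸ L) (MM (K j) ℂ)` with `‖ψ j m₀ - Ind L (φ j) m₀‖ ≤ 1/4` for `j` large. Let `q` be the coset of `1` and `r = rp L q ∈ L`, `r = n τ^e`. The
entry of `Ind L (φ j) m₀` at `(q, q)` is `φ j (r⁻¹ m₀ r) = ρ₀ (r⁻¹ m₀ r)`, with diagonal entries `y (T^i [τ^(-e) m₀ τ^e]) = y (T^(i+e) a₀)`,
`i < k`; by periodicity one of them (`i ≡ -e mod k`) is `y a₀`, at distance `≥ 1` from `1`. So `‖Ind L (φ j) m₀ - 1‖ ≥ 1` (`MM.norm_apply_le`
twice) and `ψ j m₀ ≠ 1`. The required `ρ` is `mapU (flat _ _)` composed with `ψ j` (`flat_injective`).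
-/

set_option autoImplicit false

open Set Filter Topology

noncomputable section

namespace Pool.Agent.Helper72CS

/-- the action of the automorphisms on the abelianisation -/
def ern_ab (N : Type) [Group N] : MulAut N →* MulAut (Abelianization N) where
  toFun e := MulEquiv.abelianizationCongr e
  map_one' := by
    apply MulEquiv.ext
    intro x
    obtain ⟨m, rfl⟩ := QuotientGroup.mk_surjective x
    rfl
  map_mul' e f := by
    apply MulEquiv.ext
    intro x
    obtain ⟨m, rfl⟩ := QuotientGroup.mk_surjective x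
    rfl

theorem ern_ab_of {N : Type} [Group N] (e : MulAut N) (m : N) :
    ern_ab N e (Abelianization.of m) = Abelianization.of (e m) := rfl

theorem ern_pow {G : Type} [Group G] (N : Subgroup G) [N.Normal] (τ : G) (e : ℤ) (m : N) :
    ((ern_ab N (MulAut.conjNormal τ⁻¹)) ^ e : MulAut (Abelianization N)) (Abelianization.of m) =
      Abelianization.of (MulAut.conjNormal (τ ^ (-e)) m) := by
  rw [← map_zpow, ← map_zpow, ern_ab_of, inv_zpow']

/-- periodicity -/
theorem ern_per {A : Type} [CommGroup A] (T : MulAut A) (y : A →* Circle) {k : ℕ} {b : A}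
    (h : ∀ i : ℤ, y ((T ^ (i + (k : ℤ)) : MulAut A) b) = y ((T ^ i : MulAut A) b)) {i i' : ℤ}
    (hi : (i : ZMod k) = i') : y ((T ^ i : MulAut A) b) = y ((T ^ i' : MulAut A) b) := by
  rw [ZMod.intCast_eq_intCast_iff_dvd_sub] at hi
  obtain ⟨c, hc⟩ := hi
  have h1 : Function.Periodic (fun i : ℤ => y ((T ^ i : MulAut A) b)) (k : ℤ) := h
  have h2 := (h1.int_mul c) i
  have h3 : i' = i + (c : ℤ) * (k : ℤ) := by linarith
  rw [h3]
  exact h2.symm

/-- the almost representation of `L` -/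
def ern_phi {A : Type} [CommGroup A] (T : MulAut A) (k : ℕ) [NeZero k] (y : A →* Circle)
    (e : ℤ) (a : A) : MM (ZMod k) ℂ :=
  mono (Equiv.addRight (e : ZMod k)) (fun q =>
    ((y ((T ^ (((q + (e : ZMod k)).val : ℕ) : ℤ) : MulAut A) a) : Circle) : ℂ))

theorem ern_unitary {A : Type} [CommGroup A] (T : MulAut A) (k : ℕ) [NeZero k] (y : A →* Circle)
    (e : ℤ) (a : A) : ern_phi T k y e a ∈ unitary (MM (ZMod k) ℂ) := by
  have hc : ∀ z : Circle, star (z : ℂ) * z = 1 := by
    intro z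
    rw [mul_comm]
    have := Circle.coe_inv_eq_conj z
    show (z : ℂ) * (starRingEnd ℂ) z = 1
    rw [← this, ← Circle.coe_mul, mul_inv_cancel, Circle.coe_one]
  rw [Unitary.mem_iff]
  unfold ern_phi
  constructor
  · rw [star_mono, mono_mul, inv_mul_cancel, ← mono_one]
    congr 1
    funext q
    have h1 : (Equiv.addRight (e : ZMod k) : Equiv.Perm (ZMod k))⁻¹
        ((Equiv.addRight (e : ZMod k) : Equiv.Perm (ZMod k)) q) = q :=
      (Equiv.addRight (e : ZMod k)).symm_apply_apply q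
    rw [h1]
    exact hc _
  · rw [star_mono, mono_mul, mul_inv_cancel, ← mono_one]
    congr 1
    funext q
    rw [mul_comm]
    exact hc _

theorem ern_one {A : Type} [CommGroup A] (T : MulAut A) (k : ℕ) [NeZero k] (y : A →* Circle) :
    ern_phi T k y 0 1 = 1 := by
  unfold ern_phi
  rw [← mono_one]
  congr 1
  · ext q
    simp
  · funext q
    simp

theorem ern_mul {A : Type} [CommGroup A] (T : MulAut A) (k : ℕ) [NeZero k] (y : A →* Circle)
    (e e' : ℤ) (a a' : A)
    (h : ∀ i : ℤ, y ((T ^ (i + (k : ℤ)) : MulAut A) a') = y ((T ^ i : MulAut A) a')) :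
    ern_phi T k y (e + e') (a * (T ^ (-e) : MulAut A) a') =
      ern_phi T k y e a * ern_phi T k y e' a' := by
  unfold ern_phi
  rw [mono_mul]
  have h1 : (Equiv.addRight ((e + e' : ℤ) : ZMod k) : Equiv.Perm (ZMod k)) =
      Equiv.addRight (e : ZMod k) * Equiv.addRight (e' : ZMod k) := by
    ext q
    simp only [Equiv.coe_addRight, Equiv.Perm.mul_apply]
    push_cast
    ring_nf
  rw [h1]
  congr 1
  funext q
  have e1 : q + ((e + e' : ℤ) : ZMod k) = q + (e' : ZMod k) + (e : ZMod k) := by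
    push_cast
    ring
  rw [e1, map_mul, map_mul, Circle.coe_mul]
  congr 1
  rw [← MulAut.mul_apply, ← zpow_add]
  congr 1
  apply ern_per T y h
  push_cast
  rw [ZMod.natCast_val, ZMod.natCast_val, ZMod.cast_id, ZMod.cast_id]
  ring

theorem ern_entry {A : Type} [CommGroup A] (T : MulAut A) (k : ℕ) [NeZero k] (y : A →* Circle)
    (e : ℤ) (a : A)
    (h : ∀ i : ℤ, y ((T ^ (i + (k : ℤ)) : MulAut A) a) = y ((T ^ i : MulAut A) a)) :
    ern_phi T k y 0 ((T ^ e : MulAut A) a) (-(e : ZMod k)) (-(e : ZMod k)) = (y a : ℂ) := by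
  unfold ern_phi
  rw [mono_apply, if_pos (by simp), ← MulAut.mul_apply, ← zpow_add]
  have h0 := ern_per T y (i := (((-(e : ZMod k) + ((0 : ℤ) : ZMod k)).val : ℕ) : ℤ) + e) (i' := 0) h (by
    push_cast
    rw [ZMod.natCast_val, ZMod.cast_id]
    ring)
  rw [h0, zpow_zero, MulAut.one_apply]

/-- TARGET -/
theorem exists_rep_ne {G : Type} [Group G] [Countable G] (hG : CStarStable G) (N L : Subgroup G)
    [N.Normal] [L.FiniteIndex] [Group.IsSolvable N] (hNL : N ≤ L) (hne : N ≠ ⊥) (τ : G)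
    (hτ : τ ∈ L) (hL : ∀ l ∈ L, ∃ m ∈ N, ∃ e : ℤ, l = m * τ ^ e)
    (hfree : ∀ e : ℤ, τ ^ e ∈ N → e = 0) :
    ∃ (n : Type) (_ : Fintype n) (_ : DecidableEq n) (ρ : G →* unitary (Matrix n n ℂ)),
      ∃ m ∈ N, ρ m ≠ 1 := by
  classical
  -- the abelianisation
  have hNt : Nontrivial N := (Subgroup.nontrivial_iff_ne_bot N).2 hne
  have hcomm := Group.IsSolvable.commutator_lt_top_of_nontrivial N
  obtain ⟨m₀, hm₀⟩ : ∃ m₀ : N, m₀ ∉ commutator N := by
    by_contra hcon
    push Not at hcon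
    exact hcomm.ne (eq_top_iff.2 fun x _ => hcon x)
  have ha₀ : (Abelianization.of m₀ : Abelianization N) ≠ 1 := by
    intro h
    apply hm₀
    exact (QuotientGroup.eq_one_iff m₀).1 h
  set T : MulAut (Abelianization N) := ern_ab N (MulAut.conjNormal τ⁻¹) with hT
  obtain ⟨f, hf⟩ := exists_surjective_nat N
  set F : ℕ → Finset (Abelianization N) := fun j =>
    insert (Abelianization.of m₀) ((Finset.range (j + 1)).image fun i => Abelianization.of (f i)) with hF
  have hmemF : ∀ m : N, ∀ᶠ j in atTop, (Abelianization.of m : Abelianization N) ∈ F j := by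
    intro m
    obtain ⟨i, rfl⟩ := hf m
    filter_upwards [eventually_ge_atTop i] with j hj
    exact Finset.mem_insert_of_mem (Finset.mem_image.2 ⟨i, Finset.mem_range.2 (by omega), rfl⟩)
  have hex := fun j => exists_periodic_char (fun M _ _ _ a ha => exists_finite_quotient a ha) T (F j)
    (Abelianization.of m₀) ha₀
  choose k hk y hy hy0 using hex
  have : ∀ j, NeZero (k j) := fun j => ⟨(hk j).ne'⟩
  -- the decomposition
  have hdec : ∀ l : L, ∃ (m : N) (e : ℤ), (l : G) = m * τ ^ e := by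
    intro l
    obtain ⟨m, hm, e, he⟩ := hL l l.2
    exact ⟨⟨m, hm⟩, e, he⟩
  choose mm ee hme using hdec
  have huniq : ∀ (m m' : N) (e e' : ℤ), (m : G) * τ ^ e = m' * τ ^ e' → m = m' ∧ e = e' := by
    intro m m' e e' h
    have h1 : τ ^ (e' - e) = (m' : G)⁻¹ * m := by
      rw [sub_eq_add_neg, zpow_add, zpow_neg]
      have h2 : τ ^ e' = (m' : G)⁻¹ * (m * τ ^ e) := by rw [h]; group
      rw [h2]
      group
    have h3 := hfree (e' - e) (by
      rw [h1]
      exact N.mul_mem (N.inv_mem m'.2) m.2)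
    have h4 : e' = e := by omega
    subst h4
    exact ⟨Subtype.ext (mul_right_cancel h), rfl⟩
  have hu : ∀ (l : L) (m : N) (e : ℤ), (l : G) = m * τ ^ e → mm l = m ∧ ee l = e := by
    intro l m e h
    exact huniq _ _ _ _ ((hme l).symm.trans h)
  set φ : ∀ j, L → Unit → MM (ZMod (k j)) ℂ := fun j l _ =>
    ern_phi T (k j) (y j) (ee l) (Abelianization.of (mm l)) with hφ
  have hφ1 : ∀ j x, φ j 1 x = 1 := by
    intro j x
    obtain ⟨h1, h2⟩ := hu 1 1 0 (by simp)
    show ern_phi T (k j) (y j) (ee 1) (Abelianization.of (mm 1)) = 1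
    rw [h1, h2, map_one, ern_one]
  have hφm : ∀ g h : L, ∀ᶠ j in atTop, ∀ x, φ j (g * h) x = φ j g x * φ j h x := by
    intro g h
    filter_upwards [hmemF (mm h)] with j hj x
    obtain ⟨h1, h2⟩ := hu (g * h) (mm g * MulAut.conjNormal (τ ^ (ee g)) (mm h)) (ee g + ee h) (by
      rw [Subgroup.coe_mul, hme g, hme h, Subgroup.coe_mul, MulAut.conjNormal_apply, zpow_add]
      group)
    show ern_phi T (k j) (y j) (ee (g * h)) (Abelianization.of (mm (g * h))) = _
    rw [h1, h2, map_mul]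
    have h3 := ern_pow N τ (-(ee g)) (mm h)
    rw [neg_neg] at h3
    rw [← h3]
    exact ern_mul T (k j) (y j) (ee g) (ee h) _ _ (fun i => hy j _ hj i)
  obtain ⟨ψ, -, -, h3⟩ := family hG L (X := Unit) (Y := Empty) ⟨Empty.elim, continuous_of_discreteTopology⟩
    (fun j => ZMod (k j)) φ (fun j l => continuous_const) (fun j l x => ern_unitary _ _ _ _ _) hφ1
    (by
      intro g h ε hε
      filter_upwards [hφm g h] with j hj x
      rw [hj x, sub_self, norm_zero]
      exact hε.le)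
    (fun j x => x.elim) (fun j l x => x.elim)
  obtain ⟨j, hj⟩ := (h3 (m₀ : G) (1 / 2) (by norm_num)).exists
  have hj' := hj ()
  refine ⟨(G ⧸ L) × ZMod (k j), inferInstance, inferInstance, (mapU (flat (G ⧸ L) (ZMod (k j)))).comp (ψ j ()),
    m₀, m₀.2, ?_⟩
  intro hcon
  have h4 : (ψ j () (m₀ : G) : MM (G ⧸ L) (MM (ZMod (k j)) ℂ)) = 1 := by
    apply flat_injective
    have := congrArg (fun u : unitary (Matrix ((G ⧸ L) × ZMod (k j)) ((G ⧸ L) × ZMod (k j)) ℂ) =>
      (u : Matrix ((G ⧸ L) × ZMod (k j)) ((G ⧸ L) × ZMod (k j)) ℂ)) hcon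
    rw [map_one]
    exact this
  rw [h4] at hj'
  -- the entry
  set q : G ⧸ L := ((1 : G) : G ⧸ L) with hq
  have hr : rp L q ∈ L := by
    have h5 : ((1 : G) : G ⧸ L) = ((rp L q : G) : G ⧸ L) := (rp_mk L q).symm
    rw [QuotientGroup.eq, inv_one, one_mul] at h5
    exact h5
  have hmq : (m₀ : G) • q = q := by
    show (((m₀ : G) * 1 : G) : G ⧸ L) = _
    rw [mul_one, hq, QuotientGroup.eq, mul_one]
    exact L.inv_mem (hNL m₀.2)
  obtain ⟨n, e, hne'⟩ : ∃ (n : N) (e : ℤ), rp L q = n * τ ^ e := by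
    obtain ⟨m, hm, e, he⟩ := hL _ hr
    exact ⟨⟨m, hm⟩, e, he⟩
  obtain ⟨h5, h6⟩ := hu (lc L (m₀ : G) q) (MulAut.conjNormal (τ ^ (-e)) (n⁻¹ * m₀ * n)) 0 (by
    rw [coe_lc, hmq, hne', MulAut.conjNormal_apply, Subgroup.coe_mul, Subgroup.coe_mul, Subgroup.coe_inv]
    group)
  have h7 : Ind L (fun l => φ j l ()) (m₀ : G) q q = ern_phi T (k j) (y j) 0
      ((T ^ e : MulAut (Abelianization N)) (Abelianization.of m₀)) := by
    rw [Ind_apply, if_pos hmq.symm]
    show ern_phi T (k j) (y j) (ee (lc L (m₀ : G) q)) (Abelianization.of (mm (lc L (m₀ : G) q))) = _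
    have h10 : (Abelianization.of (n⁻¹ * m₀ * n) : Abelianization N) = Abelianization.of m₀ := by
      rw [map_mul, map_mul, map_inv, mul_comm, mul_inv_cancel_left]
    rw [h5, h6, ← ern_pow, h10]
  have h8 := (MM.norm_apply_le _ q q).trans hj'
  rw [MM.sub_apply, MM.one_apply, if_pos rfl, h7] at h8
  have h9 := (MM.norm_apply_le _ (-(e : ZMod (k j))) (-(e : ZMod (k j)))).trans h8
  rw [MM.sub_apply, MM.one_apply, if_pos rfl, ern_entry T (k j) (y j) e _
    (fun i => hy j _ (Finset.mem_insert_self _ _) i), norm_sub_rev] at h9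
  have h10 := hy0 j
  linarith

end Pool.Agent.Helper72CS

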