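/-
HOW TO START: this file imports small modules which are on origin/main. Do
  cd /workdir/pool/outputs/live && git fetch && git checkout origin/main -- Pool/Agent/Helper72_CS Pool/Agent/Helper757/GL ; git reset -q
  mkdir -p /workdir/pool/Pool/Agent/Helper757 && cp -r Pool/Agent/Helper72_CS /workdir/pool/Pool/Agent/ && cp -r Pool/Agent/Helper757/GL /workdir/pool/Pool/Agent/Helper757/
  cd /workdir/pool && lake build Pool.Agent.Helper72_CS.Defs2 (plus the other modules the file imports)
(1-2 minutes). The definitions are in Pool/Agent/Helper72_CS/{Ind,Fam,Grp,LSDefs,Defs2}.lean (short; read them first).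
Note: inside the namespace, `continuous_pi` is another lemma; write `_root_.continuous_pi`.
-/
import Pool.Agent.Helper72_CS.RepNe
import Pool.Agent.Helper72_CS.PerCharQ
import Pool.Agent.Helper72_CS.Compare

/-!
JOB ab_fg: the abelianization of `N` is finitely generated as a `ℤ[τ, τ⁻¹]`-module. READ FIRST the proof of `exists_rep_ne` at the end of `Pool/Agent/Helper72_CS/RepNe.lean`;
this proof is a variation of it (the same `ern_phi`, the same decomposition `mm, ee` of the elements of `L`), combined with `compare_traces`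
(`Pool/Agent/Helper72_CS/Compare.lean`) and `exists_periodic_char_quot` (`Pool/Agent/Helper72_CS/PerCharQ.lean`).

Proof. `A = Abelianization N`, `T = ern_ab N (MulAut.conjNormal τ⁻¹)`, `f : ℕ → N` surjective, `F j` the image in `A` of `f 0, ..., f j`. Suppose that no `F` works. Then for each `j` there
is `m j : N` with `a j = of (m j)` not in the closure for `F j` (the closure is a proper subgroup of `A`). By `exists_periodic_char_quot` with `F₀ = F j` and `F = insert (a j) (F s)` choose, for all `j, s`,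
`k j s > 0` and `y j s : A →* Circle`, trivial on all `T^i b` (`b ∈ F j`), `k`-periodic on `F s` and on `a j`, with `1 ≤ ‖y (a j) - 1‖`.
(1) For each fixed `j`, the maps `φ s : L → MM (ZMod (k j s)) ℂ`, `φ s l = ern_phi T (k j s) (y j s) (ee l) (of (mm l))` are unitary valued, `1` at `1`, and eventually (in `s`) multiplicative on each
pair, exactly as in `exists_rep_ne`. By `family` with `X = Unit`, `Y = Empty` (as there) there are representations `ψ s : G →* unitary (MM (G ⧸ L) (MM (ZMod (k j s)) ℂ))` with `‖ψ s g - Ind L (φ s) g‖ → 0` as `s → ∞`, for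
all `g`. Choose `s = s j` with `‖ψ s g - Ind L (φ s) g‖ ≤ 1/(j+1)` for `g` among the first `j+1` elements of an enumeration of `G`, and `‖ψ s (m j) - Ind L (φ s) (m j)‖ ≤ 1/2`. Call `K j = ZMod (k j (s j))`, `ρ j`
the representation.
(2) Let `Φ j l t = ern_phi T (k j (s j)) 1 (ee l) 1` (trivial character; independent of `t` and of `mm l`), a homomorphism in `l` (`ern_mul`, `ern_one`), and `ρ' j = IndU L _` the induced representation
(`IndU`, `coe_IndU` in `Pool/Agent/Helper72_CS/Ind.lean`). For each `g : G`, for all large `j`, `Ind L (φ_(s j)) g = ρ' j g`: the entries use the finitely many elements `lc L g q`, whose `mm` is eventually in `F j`, where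
`y` is trivial along the whole `T`-orbit. So the hypotheses of `compare_traces` hold with `M = N` (as a set), and the traces of `ρ j m` and `ρ' j m` agree for all `m ∈ N`, for all large `j`.
(3) For `m = m j ∈ N`: `ρ' j m = 1` (for `m ∈ N` the elements `lc L m q` are in `N`, so `ee = 0`), so the trace of `ρ j m` is the size of the matrix and `ρ j m = 1` by `trace_rigid.2`
(`Pool/Agent/Helper72_CS/TraceRigid.lean`, with `flat` and `flat_injective`). So `‖1 - Ind L φ (m j)‖ ≤ 1/2`, which contradicts the entry of `Ind L φ (m j)` computed at the end of the proof of `exists_rep_ne`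
(it is `y (a j)`, as `y` is periodic on `a j`; here one may copy that computation) and `1 ≤ ‖y (a j) - 1‖`.
-/

set_option autoImplicit false

open Set Filter Topology

noncomputable section

namespace Pool.Agent.Helper72CS

/-- `ern_phi` of a character which is trivial on the orbit -/
theorem abfg_phi_triv {A : Type} [CommGroup A] (T : MulAut A) (k : ℕ) [NeZero k] (y : A →* Circle)
    (e : ℤ) (a : A) (h : ∀ i : ℤ, y ((T ^ i : MulAut A) a) = 1) :
    ern_phi T k y e a = ern_phi T k 1 e 1 := by
  unfold ern_phi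
  congr 1
  funext q
  rw [h]
  simp

/-- the entry -/
theorem abfg_entry {G : Type} [Group G] (N L : Subgroup G)
    [N.Normal] [L.FiniteIndex] (hNL : N ≤ L) (τ : G)
    (hL : ∀ l ∈ L, ∃ m ∈ N, ∃ e : ℤ, l = m * τ ^ e)
    (T : MulAut (Abelianization N)) (hT : T = ern_ab N (MulAut.conjNormal τ⁻¹))
    (mm : L → N) (ee : L → ℤ)
    (hu : ∀ (l : L) (m : N) (e : ℤ), (l : G) = m * τ ^ e → mm l = m ∧ ee l = e)
    (k : ℕ) [NeZero k] (y : Abelianization N →* Circle) (m₀ : N)
    (hper : ∀ i : ℤ, y ((T ^ (i + (k : ℤ)) : MulAut (Abelianization N)) (Abelianization.of m₀)) =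
      y ((T ^ i : MulAut (Abelianization N)) (Abelianization.of m₀))) :
    ‖(y (Abelianization.of m₀) : ℂ) - 1‖ ≤ ‖(1 : MM (G ⧸ L) (MM (ZMod k) ℂ)) -
      Ind L (fun l => ern_phi T k y (ee l) (Abelianization.of (mm l))) (m₀ : G)‖ := by
  set q : G ⧸ L := ((1 : G) : G ⧸ L) with hq
  have hr : rp L q ∈ L := by
    have h5 : ((1 : G) : G ⧸ L) = ((rp L q : G) : G ⧸ L) := (rp_mk L q).symm
    rw [QuotientGroup.eq, inv_one, one_mul] at h5
    exact h5
  have hmq : (m₀ : G) • q = q := by
    show (((m₀ : G) * 1 : G) : G ⧸ L) = _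
    rw [mul_one, hq, QuotientGroup.eq, mul_one]
    exact L.inv_mem (hNL m₀.2)
  obtain ⟨n, e, hne'⟩ : ∃ (n : N) (e : ℤ), rp L q = n * τ ^ e := by
    obtain ⟨m, hm, e, he⟩ := hL _ hr
    exact ⟨⟨m, hm⟩, e, he⟩
  obtain ⟨h5, h6⟩ := hu (lc L (m₀ : G) q) (MulAut.conjNormal (τ ^ (-e)) (n⁻¹ * m₀ * n)) 0 (by
    rw [coe_lc, hmq, hne', MulAut.conjNormal_apply, Subgroup.coe_mul, Subgroup.coe_mul, Subgroup.coe_inv]
    group)
  have h7 : Ind L (fun l => ern_phi T k y (ee l) (Abelianization.of (mm l))) (m₀ : G) q q =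
      ern_phi T k y 0 ((T ^ e : MulAut (Abelianization N)) (Abelianization.of m₀)) := by
    rw [Ind_apply, if_pos hmq.symm]
    have h10 : (Abelianization.of (n⁻¹ * m₀ * n) : Abelianization N) = Abelianization.of m₀ := by
      rw [map_mul, map_mul, map_inv, mul_comm, mul_inv_cancel_left]
    rw [h5, h6, ← ern_pow, h10, hT]
  have h8 := MM.norm_apply_le ((1 : MM (G ⧸ L) (MM (ZMod k) ℂ)) -
      Ind L (fun l => ern_phi T k y (ee l) (Abelianization.of (mm l))) (m₀ : G)) q q
  rw [MM.sub_apply, MM.one_apply, if_pos rfl, h7] at h8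
  have h9 := (MM.norm_apply_le _ (-(e : ZMod k)) (-(e : ZMod k))).trans h8
  rw [MM.sub_apply, MM.one_apply, if_pos rfl, ern_entry T k y e _ hper, norm_sub_rev] at h9
  exact h9

/-- TARGET -/
theorem ab_fg {G : Type} [Group G] [Countable G] (hG : CStarStable G) (N L : Subgroup G)
    [N.Normal] [L.FiniteIndex] (hNL : N ≤ L) (τ : G)
    (hτ : τ ∈ L) (hL : ∀ l ∈ L, ∃ m ∈ N, ∃ e : ℤ, l = m * τ ^ e)
    (hfree : ∀ e : ℤ, τ ^ e ∈ N → e = 0) (hTor : Tor N) :
    ∃ F : Finset (Abelianization N), Subgroup.closure {a | ∃ b ∈ F, ∃ i : ℤ,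
      a = ((ern_ab N (MulAut.conjNormal τ⁻¹)) ^ i : MulAut (Abelianization N)) b} = ⊤ := by
  classical
  obtain ⟨T, hT⟩ : ∃ T : MulAut (Abelianization N), T = ern_ab N (MulAut.conjNormal τ⁻¹) := ⟨_, rfl⟩
  rw [← hT]
  obtain ⟨f, hf⟩ := exists_surjective_nat N
  obtain ⟨F, hF⟩ : ∃ F : ℕ → Finset (Abelianization N), F = fun j =>
    (Finset.range (j + 1)).image fun i => Abelianization.of (f i) := ⟨_, rfl⟩
  have hmemF : ∀ m : N, ∀ᶠ j in atTop, (Abelianization.of m : Abelianization N) ∈ F j := by
    intro m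
    obtain ⟨i, rfl⟩ := hf m
    filter_upwards [eventually_ge_atTop i] with j hj
    rw [hF]
    exact Finset.mem_image.2 ⟨i, Finset.mem_range.2 (by omega), rfl⟩
  by_contra hcon
  push Not at hcon
  have hex0 : ∀ j, ∃ m : N, (Abelianization.of m : Abelianization N) ∉
      Subgroup.closure {a | ∃ b ∈ F j, ∃ i : ℤ, a = (T ^ i : MulAut (Abelianization N)) b} := by
    intro j
    by_contra h
    push Not at h
    apply hcon (F j)
    rw [eq_top_iff]
    intro x _
    obtain ⟨m, rfl⟩ := QuotientGroup.mk_surjective x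
    exact h m
  choose m hm using hex0
  have hex1 := fun j s => exists_periodic_char_quot T (F j) (insert (Abelianization.of (m j)) (F s))
    (Abelianization.of (m j)) (hm j)
  choose k hk y hy0 hyp hy1 using hex1
  have hNZ : ∀ j s, NeZero (k j s) := fun j s => ⟨(hk j s).ne'⟩
  -- the decomposition
  have hdec : ∀ l : L, ∃ (m : N) (e : ℤ), (l : G) = m * τ ^ e := by
    intro l
    obtain ⟨m, hm, e, he⟩ := hL l l.2
    exact ⟨⟨m, hm⟩, e, he⟩
  choose mm ee hme using hdec
  have huniq : ∀ (m m' : N) (e e' : ℤ), (m : G) * τ ^ e = m' * τ ^ e' → m = m' ∧ e = e' := by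
    intro m m' e e' h
    have h1 : τ ^ (e' - e) = (m' : G)⁻¹ * m := by
      rw [sub_eq_add_neg, zpow_add, zpow_neg]
      have h2 : τ ^ e' = (m' : G)⁻¹ * (m * τ ^ e) := by rw [h]; group
      rw [h2]
      group
    have h3 := hfree (e' - e) (by
      rw [h1]
      exact N.mul_mem (N.inv_mem m'.2) m.2)
    have h4 : e' = e := by omega
    subst h4
    exact ⟨Subtype.ext (mul_right_cancel h), rfl⟩
  have hu : ∀ (l : L) (m : N) (e : ℤ), (l : G) = m * τ ^ e → mm l = m ∧ ee l = e := by
    intro l m e h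
    exact huniq _ _ _ _ ((hme l).symm.trans h)
  have hmul : ∀ g h : L, mm (g * h) = mm g * MulAut.conjNormal (τ ^ (ee g)) (mm h) ∧
      ee (g * h) = ee g + ee h := by
    intro g h
    exact hu (g * h) (mm g * MulAut.conjNormal (τ ^ (ee g)) (mm h)) (ee g + ee h) (by
      rw [Subgroup.coe_mul, hme g, hme h, Subgroup.coe_mul, MulAut.conjNormal_apply, zpow_add]
      group)
  have hee1 : ee 1 = 0 := (hu 1 1 0 (by simp)).2
  have hmm1 : mm 1 = 1 := (hu 1 1 0 (by simp)).1
  -- the representations for fixed `j`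
  have hfam : ∀ j, ∃ ψ : ∀ s, G →* unitary (MM (G ⧸ L) (MM (ZMod (k j s)) ℂ)),
      ∀ g : G, ∀ ε : ℝ, 0 < ε → ∀ᶠ s in atTop,
      ‖(ψ s g : MM (G ⧸ L) (MM (ZMod (k j s)) ℂ)) -
        Ind L (fun l => ern_phi T (k j s) (y j s) (ee l) (Abelianization.of (mm l))) g‖ ≤ ε := by
    intro j
    obtain ⟨ψ, -, -, h3⟩ := family hG L (X := Unit) (Y := Empty) ⟨Empty.elim, continuous_of_discreteTopology⟩
      (fun s => ZMod (k j s))
      (fun s l _ => ern_phi T (k j s) (y j s) (ee l) (Abelianization.of (mm l)))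
      (fun s l => continuous_const) (fun s l x => ern_unitary _ _ _ _ _)
      (by
        intro s x
        show ern_phi T (k j s) (y j s) (ee 1) (Abelianization.of (mm 1)) = 1
        rw [hee1, hmm1, map_one, ern_one])
      (by
        intro g h ε hε
        filter_upwards [hmemF (mm h)] with s hs x
        have h0 : ern_phi T (k j s) (y j s) (ee (g * h)) (Abelianization.of (mm (g * h))) =
            ern_phi T (k j s) (y j s) (ee g) (Abelianization.of (mm g)) *
            ern_phi T (k j s) (y j s) (ee h) (Abelianization.of (mm h)) := by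
          obtain ⟨h1, h2⟩ := hmul g h
          rw [h1, h2, map_mul]
          have h3 := ern_pow N τ (-(ee g)) (mm h)
          rw [neg_neg, ← hT] at h3
          rw [← h3]
          exact ern_mul T (k j s) (y j s) (ee g) (ee h) _ _
            (fun i => hyp j s _ (Finset.mem_insert_of_mem hs) i)
        rw [h0, sub_self, norm_zero]
        exact hε.le)
      (fun s x => x.elim) (fun s l x => x.elim)
    refine ⟨fun s => ψ s (), fun g ε hε => ?_⟩
    filter_upwards [h3 g ε hε] with s hs
    exact hs ()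
  choose ψ hψ using hfam
  obtain ⟨g, hg⟩ := exists_surjective_nat G
  have hsel : ∀ j : ℕ, ∃ s, (∀ i ∈ Finset.range (j + 1),
      ‖(ψ j s (g i) : MM (G ⧸ L) (MM (ZMod (k j s)) ℂ)) -
        Ind L (fun l => ern_phi T (k j s) (y j s) (ee l) (Abelianization.of (mm l))) (g i)‖ ≤
        1 / ((j : ℝ) + 1)) ∧
      ‖(ψ j s (m j : G) : MM (G ⧸ L) (MM (ZMod (k j s)) ℂ)) -
        Ind L (fun l => ern_phi T (k j s) (y j s) (ee l) (Abelianization.of (mm l))) (m j : G)‖ ≤
        1 / 2 := by
    intro j
    have h1 : ∀ᶠ s in atTop, ∀ i ∈ Finset.range (j + 1),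
      ‖(ψ j s (g i) : MM (G ⧸ L) (MM (ZMod (k j s)) ℂ)) -
        Ind L (fun l => ern_phi T (k j s) (y j s) (ee l) (Abelianization.of (mm l))) (g i)‖ ≤
        1 / ((j : ℝ) + 1) :=
      (Filter.eventually_all_finset _).2 fun i _ => hψ j (g i) _ (by positivity)
    exact (h1.and (hψ j (m j : G) (1 / 2) (by norm_num))).exists
  choose s hs1 hs2 using hsel
  -- the trivial characters
  let Hom : ∀ j, L →* unitary (MM (ZMod (k j (s j))) ℂ) := fun j =>
    { toFun := fun l => ⟨ern_phi T (k j (s j)) 1 (ee l) 1, ern_unitary _ _ _ _ _⟩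
      map_one' := Subtype.ext (by
        show ern_phi T (k j (s j)) 1 (ee 1) 1 = 1
        rw [hee1, ern_one])
      map_mul' := fun a b => Subtype.ext (by
        show ern_phi T (k j (s j)) 1 (ee (a * b)) 1 = ern_phi T (k j (s j)) 1 (ee a) 1 *
          ern_phi T (k j (s j)) 1 (ee b) 1
        rw [(hmul a b).2, ← ern_mul T (k j (s j)) 1 (ee a) (ee b) 1 1 (fun i => rfl), map_one,
          mul_one]) }
  have hHom : ∀ j l, (Hom j l : MM (ZMod (k j (s j))) ℂ) = ern_phi T (k j (s j)) 1 (ee l) 1 :=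
    fun j l => rfl
  have hcmp := compare_traces hG L (N : Set G) hTor (fun j => ZMod (k j (s j)))
    (fun j l _ => Hom j l) (fun j l => continuous_const) (fun j t => map_one _)
    (fun a b => Eventually.of_forall fun j t => map_mul _ _ _)
    (fun j => ψ j (s j)) (fun j => IndU L (Hom j)) ?_ ?_
  · obtain ⟨j, hj⟩ := hcmp.exists
    have h1 := hj (m j : G) (m j).2
    -- the representation `ρ'` is trivial on `N`
    have h2 : (IndU L (Hom j) (m j : G) : MM (G ⧸ L) (MM (ZMod (k j (s j))) ℂ)) = 1 := by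
      rw [coe_IndU]
      refine MM.ext fun p q => ?_
      have hmq : (m j : G) • q = q := by
        rw [← rp_mk L q]
        show (((m j : G) * rp L q : G) : G ⧸ L) = _
        rw [QuotientGroup.eq]
        have h3 : ((m j : G) * rp L q)⁻¹ * rp L q = (rp L q)⁻¹ * (m j : G)⁻¹ * rp L q := by group
        rw [h3]
        have h4 := ‹N.Normal›.conj_mem _ (N.inv_mem (m j).2) (rp L q)⁻¹
        rw [inv_inv] at h4
        exact hNL h4
      rw [Ind_apply, MM.one_apply, hmq]
      by_cases hpq : p = q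
      · rw [if_pos hpq, if_pos hpq, hHom]
        have h5 : ee (lc L (m j : G) q) = 0 := by
          have h4 := ‹N.Normal›.conj_mem _ (m j).2 (rp L q)⁻¹
          rw [inv_inv] at h4
          refine (hu (lc L (m j : G) q) ⟨(rp L q)⁻¹ * (m j : G) * rp L q, h4⟩ 0 ?_).2
          rw [coe_lc, hmq]
          simp [mul_assoc]
        rw [h5, ern_one]
      · rw [if_neg hpq, if_neg hpq]
    have h2' : (flat (G ⧸ L) (ZMod (k j (s j))) (IndU L (Hom j) (m j : G) : MM (G ⧸ L) (MM (ZMod (k j (s j))) ℂ))).trace =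
        (Fintype.card ((G ⧸ L) × ZMod (k j (s j))) : ℂ) := by
      rw [h2, map_one, Matrix.trace_one]
    have h3 : flat (G ⧸ L) (ZMod (k j (s j))) (ψ j (s j) (m j : G) : MM (G ⧸ L) (MM (ZMod (k j (s j))) ℂ)) = 1 :=
      trace_rigid.2 _ _ (mapU (flat (G ⧸ L) (ZMod (k j (s j)))) (ψ j (s j) (m j : G))).2 (h1.trans h2')
    have h4 : (ψ j (s j) (m j : G) : MM (G ⧸ L) (MM (ZMod (k j (s j))) ℂ)) = 1 := by
      apply flat_injective
      rw [h3, map_one]
    have h5 := hs2 j
    rw [h4] at h5
    have h6 := abfg_entry N L hNL τ hL T hT mm ee hu (k j (s j)) (y j (s j)) (m j)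
      (fun i => hyp j (s j) _ (Finset.mem_insert_self _ _) i)
    have h7 := hy1 j (s j)
    linarith
  · intro a
    have h1 : ∀ᶠ j in atTop, ‖(ψ j (s j) a : MM (G ⧸ L) (MM (ZMod (k j (s j))) ℂ)) -
        Ind L (fun l => (Hom j l : MM (ZMod (k j (s j))) ℂ)) a‖ ≤ 1 / ((j : ℝ) + 1) := by
      obtain ⟨i, rfl⟩ := hg a
      have h2 : ∀ᶠ j in atTop, ∀ q : G ⧸ L,
          (Abelianization.of (mm (lc L (g i) q)) : Abelianization N) ∈ F j :=
        Filter.eventually_all.2 fun q => hmemF _
      filter_upwards [h2, eventually_ge_atTop i] with j hj hij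
      have h3 : Ind L (fun l => (Hom j l : MM (ZMod (k j (s j))) ℂ)) (g i) =
          Ind L (fun l => ern_phi T (k j (s j)) (y j (s j)) (ee l) (Abelianization.of (mm l))) (g i) := by
        refine MM.ext fun p q => ?_
        rw [Ind_apply, Ind_apply]
        congr 1
        rw [hHom]
        exact (abfg_phi_triv T _ _ _ _ (fun e => hy0 j (s j) _ (hj q) e)).symm
      rw [h3]
      exact hs1 j i (Finset.mem_range.2 (by omega))
    exact squeeze_zero' (Eventually.of_forall fun j => norm_nonneg _) h1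
      tendsto_one_div_add_atTop_nhds_zero_nat
  · intro a
    have h1 : (fun j => ‖(IndU L (Hom j) a : MM (G ⧸ L) (MM (ZMod (k j (s j))) ℂ)) -
        Ind L (fun l => (Hom j l : MM (ZMod (k j (s j))) ℂ)) a‖) = fun _ => (0 : ℝ) := by
      funext j
      rw [coe_IndU, sub_self, norm_zero]
    rw [h1]
    exact tendsto_const_nhds

end Pool.Agent.Helper72CS
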