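import Pool.Agent.Helper72_CS.Grp

set_option autoImplicit false

open Set Filter Topology

noncomputable section

namespace Pool.Agent.Helper72CS

open scoped Matrix.Norms.L2Operator ComplexOrder in
theorem finite_image_aux_one {n : Type} [Fintype n] [DecidableEq n] (U : Matrix n n ℂ)
    (hU : U ∈ unitary (Matrix n n ℂ)) (h : spectrum ℂ U ⊆ {1}) : U = 1 := by
  let : CStarAlgebra (Matrix n n ℂ) := {}
  refine CFC.eq_one_of_spectrum_subset_one (R := ℂ) (p := IsStarNormal) U h ?_
  exact ⟨(Unitary.star_mul_self_of_mem hU).trans (Unitary.mul_star_self_of_mem hU).symm⟩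

open scoped ComplexOrder in
theorem finite_image_aux_dot {n : Type} [Fintype n] (w : n → ℂ) (h : star w ⬝ᵥ w = 0) : w = 0 :=
  dotProduct_star_self_eq_zero.1 h

/-- common eigenvectors -/
theorem finite_image_aux_ev {V ι : Type} [AddCommGroup V] [Module ℂ V] [FiniteDimensional ℂ V]
    (f : ι → Module.End ℂ V) (hf : ∀ i j v, f i (f j v) = f j (f i v)) :
    ∀ (d : ℕ) (E : Submodule ℂ V), Module.finrank ℂ E = d → E ≠ ⊥ →
      (∀ i, ∀ v ∈ E, f i v ∈ E) → ∃ w ∈ E, w ≠ 0 ∧ ∀ i, ∃ μ : ℂ, f i w = μ • w := by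
  intro d
  induction d using Nat.strong_induction_on with
  | _ d ih =>
  intro E hd hE hinv
  by_cases hsc : ∀ i, ∃ μ : ℂ, ∀ v ∈ E, f i v = μ • v
  · obtain ⟨w, hw, hw0⟩ := Submodule.exists_mem_ne_zero_of_ne_bot hE
    refine ⟨w, hw, hw0, fun i => ?_⟩
    obtain ⟨μ, hμ⟩ := hsc i
    exact ⟨μ, hμ w hw⟩
  · push Not at hsc
    obtain ⟨i, hi⟩ := hsc
    have : Nontrivial E := Submodule.nontrivial_iff_ne_bot.2 hE
    obtain ⟨μ, hμ⟩ := Module.End.exists_eigenvalue ((f i).restrict (hinv i))
    obtain ⟨w, hw⟩ := hμ.exists_hasEigenvector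
    have hw1 : f i w = μ • (w : V) := by
      have := hw.apply_eq_smul
      exact congrArg Subtype.val this
    have hw0 : (w : V) ≠ 0 := fun h => hw.2 (Subtype.ext h)
    obtain ⟨v, hv, hv'⟩ := hi μ
    obtain ⟨E', hE'⟩ : ∃ E' : Submodule ℂ V, E' = E ⊓ LinearMap.ker (f i - μ • (1 : Module.End ℂ V)) :=
      ⟨_, rfl⟩
    have hmem : ∀ x, x ∈ E' ↔ x ∈ E ∧ f i x = μ • x := by
      intro x
      rw [hE', Submodule.mem_inf, LinearMap.mem_ker, LinearMap.sub_apply, LinearMap.smul_apply,
        Module.End.one_apply, sub_eq_zero]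
    have hlt : E' < E := by
      refine lt_of_le_of_ne (by rw [hE']; exact inf_le_left) ?_
      intro h
      rw [← h, hmem] at hv
      exact hv' hv.2
    obtain ⟨w', h1, h2, h3⟩ := ih _ (by rw [← hd]; exact Submodule.finrank_lt_finrank_of_lt hlt)
      E' rfl (by
        intro h
        have : (w : V) ∈ E' := (hmem _).2 ⟨w.2, hw1⟩
        rw [h, Submodule.mem_bot] at this
        exact hw0 this)
      (by
        intro j x hx
        rw [hmem] at hx ⊢
        exact ⟨hinv j x hx.1, by rw [hf, hx.2, map_smul]⟩)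
    exact ⟨w', ((hmem _).1 h1).1, h2, h3⟩

variable {G : Type} [Group G]

/-- the intersection of the kernels of the periodic characters -/
def kerPer (N : Subgroup G) [N.Normal] : Subgroup G :=
  (⨅ y : Per N, (y : N →* Circle).ker).map N.subtype

theorem mem_kerPer (N : Subgroup G) [N.Normal] (m : G) :
    m ∈ kerPer N ↔ ∃ h : m ∈ N, ∀ y ∈ Per N, y ⟨m, h⟩ = 1 := by
  unfold kerPer
  simp only [Subgroup.mem_map, Subgroup.mem_iInf, MonoidHom.mem_ker, Subgroup.coe_subtype,
    Subtype.exists, exists_and_right, exists_eq_right, Subtype.forall]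

theorem kerPer_le (N : Subgroup G) [N.Normal] : kerPer N ≤ N := by
  intro m hm
  obtain ⟨h, -⟩ := (mem_kerPer N m).1 hm
  exact h

theorem cact_mem_Per (N : Subgroup G) [N.Normal] (g : G) {y : N →* Circle} (hy : y ∈ Per N) :
    cact N g y ∈ Per N := by
  refine Set.Finite.subset hy ?_
  rintro _ ⟨h, rfl⟩
  exact ⟨h * g, by simp only [cact_mul]⟩

instance kerPer_normal (N : Subgroup G) [N.Normal] : (kerPer N).Normal := by
  constructor
  intro m hm g
  rw [mem_kerPer] at hm ⊢
  obtain ⟨h, hy⟩ := hm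
  have h' : g * m * g⁻¹ ∈ N := Subgroup.Normal.conj_mem inferInstance m h g
  refine ⟨h', fun y hyP => ?_⟩
  have h1 := hy _ (cact_mem_Per N g⁻¹ hyP)
  rw [cact_apply] at h1
  have h2 : MulAut.conjNormal g⁻¹⁻¹ (⟨m, h⟩ : N) = ⟨g * m * g⁻¹, h'⟩ := by
    apply Subtype.ext
    rw [MulAut.conjNormal_apply, inv_inv]
  rw [h2] at h1
  exact h1

theorem Per_pow (N : Subgroup G) [N.Normal] {y : N →* Circle} (hy : y ∈ Per N) (k : ℕ) :
    y ^ k ∈ Per N := by
  have h1 : (fun g : G => cact N g (y ^ k)) = (fun z : N →* Circle => z ^ k) ∘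
      (fun g => cact N g y) := by
    funext g
    ext m
    rfl
  show (Set.range fun g : G => cact N g (y ^ k)).Finite
  rw [h1, Set.range_comp]
  exact Set.Finite.image _ hy

theorem finite_roots (e : ℕ) (he : 0 < e) : {z : Circle | z ^ e = 1}.Finite := by
  have h1 : {z : ℂ | z ^ e = 1}.Finite := by
    have : {z : ℂ | z ^ e = 1} = ((Polynomial.nthRootsFinset e (1 : ℂ) : Finset ℂ) : Set ℂ) := by
      ext z
      simp [Polynomial.mem_nthRootsFinset he]
    rw [this]
    exact Finset.finite_toSet _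
  refine Set.Finite.of_finite_image (h1.subset ?_) Circle.coe_injective.injOn
  rintro _ ⟨z, hz, rfl⟩
  have : z ^ e = 1 := hz
  show (z : ℂ) ^ e = 1
  rw [← Circle.coe_pow, this, Circle.coe_one]

theorem Per_ker_finiteIndex (N : Subgroup G) [N.Normal] (hP : (Per N).Finite)
    {y : N →* Circle} (hy : y ∈ Per N) : y.ker.FiniteIndex := by
  obtain ⟨a, b, hab, he⟩ : ∃ a b : ℕ, a < b ∧ y ^ a = y ^ b := by
    obtain ⟨a, -, b, -, hab, he⟩ := Set.Infinite.exists_ne_map_eq_of_mapsTo
      (s := (Set.univ : Set ℕ)) Set.infinite_univ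
      (f := fun k : ℕ => y ^ k) (t := Per N) (fun k _ => Per_pow N hy k) hP
    rcases lt_or_gt_of_ne hab with h | h
    · exact ⟨a, b, h, he⟩
    · exact ⟨b, a, h, he.symm⟩
  have h1 : ∀ m, (y m) ^ (b - a) = 1 := by
    intro m
    have h2 : y m ^ a = y m ^ b := by
      have := congrArg (fun z : N →* Circle => z m) he
      simpa using this
    have h3 : y m ^ b = y m ^ a * y m ^ (b - a) := by
      rw [← pow_add]
      congr 1
      omega
    rw [h3] at h2
    exact (mul_eq_left.1 h2.symm)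
  have : Finite y.range := by
    refine Set.Finite.to_subtype ((finite_roots (b - a) (by omega)).subset ?_)
    rintro _ ⟨m, rfl⟩
    exact h1 m
  exact Subgroup.finiteIndex_ker y

theorem kerPer_relIndex (N : Subgroup G) [N.Normal] (hP : (Per N).Finite) :
    (kerPer N).relIndex N ≠ 0 := by
  have : Finite (Per N) := hP.to_subtype
  have h1 : (⨅ y : Per N, (y : N →* Circle).ker).FiniteIndex :=
    Subgroup.finiteIndex_iInf fun y => Per_ker_finiteIndex N hP y.2
  have h2 : (kerPer N).subgroupOf N = ⨅ y : Per N, (y : N →* Circle).ker := by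
    unfold kerPer
    exact Subgroup.comap_map_eq_self_of_injective N.subtype_injective _
  show ((kerPer N).subgroupOf N).index ≠ 0
  rw [h2]
  exact h1.index_ne_zero

/-- TARGET 1 -/
theorem finite_image {G : Type} [Group G] (M : Subgroup G) [M.Normal]
    (hPer : ∀ (N : Subgroup G) [N.Normal], N ≤ M → N.relIndex M ≠ 0 → (Per N).Finite)
    {n : Type} [Fintype n] [DecidableEq n] (ρ : G →* unitary (Matrix n n ℂ))
    (L : Subgroup G) [L.Normal] [L.FiniteIndex] (hL : ∀ a ∈ L, ∀ b ∈ L, ρ (a * b) = ρ (b * a)) :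
    (ρ '' (M : Set G)).Finite := by
  classical
  obtain ⟨N, hN⟩ : ∃ N, N = L ⊓ M := ⟨_, rfl⟩
  have hNn : N.Normal := by rw [hN]; infer_instance
  have hNM : N ≤ M := by rw [hN]; exact inf_le_right
  have hNL : N ≤ L := by rw [hN]; exact inf_le_left
  have hNi : N.relIndex M ≠ 0 := by
    rw [hN, Subgroup.inf_relIndex_right]
    exact Subgroup.FiniteIndex.index_ne_zero
  have hPN := hPer N hNM hNi
  -- the operators
  let f : N → Module.End ℂ (n → ℂ) := fun m => Matrix.mulVecLin (ρ m : Matrix n n ℂ)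
  have hfa : ∀ (m : N) v, f m v = (ρ m : Matrix n n ℂ).mulVec v := fun m v => rfl
  have hfc : ∀ i j v, f i (f j v) = f j (f i v) := by
    intro i j v
    rw [hfa, hfa, hfa, hfa, Matrix.mulVec_mulVec, Matrix.mulVec_mulVec]
    have h1 := hL i (hNL i.2) j (hNL j.2)
    rw [map_mul, map_mul] at h1
    have h2 := congrArg Subtype.val h1
    simp only [Submonoid.coe_mul] at h2
    rw [h2]
  have hind : iSupIndep fun χ : N → ℂ => ⨅ i, (f i).maxGenEigenspace (χ i) := by
    apply Module.End.independent_iInf_maxGenEigenspace_of_forall_mapsTo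
    intro i j φ
    apply Module.End.mapsTo_maxGenEigenspace_of_comm
    exact LinearMap.ext fun v => hfc j i v
  have hfin := WellFoundedGT.finite_ne_bot_of_iSupIndep hind
  obtain ⟨Cs, hCs⟩ : ∃ Cs : Set (N →* Circle), Cs = {c | ∃ w : n → ℂ, w ≠ 0 ∧
      ∀ m : N, f m w = ((c m : Circle) : ℂ) • w} := ⟨_, rfl⟩
  have hCfin : Cs.Finite := by
    refine Set.Finite.of_finite_image (f := fun c : N →* Circle => fun m => ((c m : Circle) : ℂ))
      (hfin.subset ?_) ?_
    · rintro _ ⟨c, hc, rfl⟩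
      rw [hCs] at hc
      obtain ⟨w, hw0, hw⟩ := hc
      intro hbot
      apply hw0
      rw [← Submodule.mem_bot ℂ, ← hbot, Submodule.mem_iInf]
      intro m
      refine Module.End.mem_maxGenEigenspace _ _ _ |>.2 ⟨1, ?_⟩
      rw [pow_one, LinearMap.sub_apply, LinearMap.smul_apply, Module.End.one_apply, hw m, sub_self]
    · intro c _ c' _ h
      ext m
      exact congrFun h m
  have hCP : ∀ c ∈ Cs, c ∈ Per N := by
    intro c hc
    refine hCfin.subset ?_
    rintro _ ⟨g, rfl⟩
    rw [hCs] at hc ⊢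
    obtain ⟨w, hw0, hw⟩ := hc
    refine ⟨(ρ g : Matrix n n ℂ).mulVec w, ?_, ?_⟩
    · intro h0
      apply hw0
      have : ((ρ g⁻¹ : unitary (Matrix n n ℂ)) : Matrix n n ℂ).mulVec
          ((ρ g : Matrix n n ℂ).mulVec w) = w := by
        rw [Matrix.mulVec_mulVec, ← Submonoid.coe_mul, ← map_mul, inv_mul_cancel, map_one]
        simp
      rw [← this, h0, Matrix.mulVec_zero]
    · intro m
      have h1 := hw (MulAut.conjNormal g⁻¹ m)
      rw [cact_apply, ← Matrix.mulVec_smul, ← h1, hfa, hfa, Matrix.mulVec_mulVec,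
        Matrix.mulVec_mulVec, ← Submonoid.coe_mul, ← Submonoid.coe_mul, ← map_mul, ← map_mul]
      congr 3
      rw [MulAut.conjNormal_apply, inv_inv]
      group
  -- eigenvalues of unitary matrices
  have hnorm : ∀ (g : G) (w : n → ℂ) (μ : ℂ), w ≠ 0 → (ρ g : Matrix n n ℂ).mulVec w = μ • w →
      ‖μ‖ = 1 := by
    intro g w μ hw0 hw
    have h1 : star ((ρ g : Matrix n n ℂ).mulVec w) ⬝ᵥ ((ρ g : Matrix n n ℂ).mulVec w) =
        star w ⬝ᵥ w := by
      rw [Matrix.star_mulVec, Matrix.dotProduct_mulVec, Matrix.vecMul_vecMul]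
      have : (ρ g : Matrix n n ℂ).conjTranspose * (ρ g : Matrix n n ℂ) = 1 :=
        Unitary.coe_star_mul_self (ρ g)
      rw [this, Matrix.vecMul_one]
    rw [hw, star_smul, smul_dotProduct, dotProduct_smul, smul_smul] at h1
    have h2 : star w ⬝ᵥ w ≠ 0 := by
      intro h
      exact hw0 (finite_image_aux_dot w h)
    have h3 : star μ * μ = 1 := by
      have : (star μ * μ) • (star w ⬝ᵥ w) = (1 : ℂ) • (star w ⬝ᵥ w) := by rw [h1, one_smul]
      exact smul_left_injective ℂ h2 this
    have h4 : ‖μ‖ * ‖μ‖ = 1 := by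
      have := congrArg norm h3
      rwa [norm_mul, norm_star, norm_one] at this
    nlinarith [norm_nonneg μ]
  -- eigenvalues of the elements of the kernel
  have hone : ∀ m ∈ kerPer N, ρ m = 1 := by
    intro m hm
    obtain ⟨hmN, hmy⟩ := (mem_kerPer N m).1 hm
    apply Subtype.ext
    refine finite_image_aux_one _ (ρ m).2 ?_
    intro μ hμ
    have hμ' : (f ⟨m, hmN⟩).HasEigenvalue μ := by
      rw [Module.End.hasEigenvalue_iff_mem_spectrum]
      have : f ⟨m, hmN⟩ = Matrix.toLin' (ρ m : Matrix n n ℂ) := by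
        rw [Matrix.toLin'_apply']
      rw [this, Matrix.spectrum_toLin']
      exact hμ
    obtain ⟨w, hw, hw0, hwm⟩ := finite_image_aux_ev f hfc _ ((f ⟨m, hmN⟩).eigenspace μ) rfl
      hμ' (by
        intro i v hv
        rw [Module.End.mem_eigenspace_iff] at hv ⊢
        rw [hfc, hv, map_smul])
    choose c hc using hwm
    have hcn : ∀ i, ‖c i‖ = 1 := fun i => hnorm i w (c i) hw0 (hc i)
    have huniq : ∀ a b : ℂ, a • w = b • w → a = b := fun a b h => smul_left_injective ℂ hw0 h
    let C : N →* Circle :=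
      { toFun := fun i => ⟨c i, mem_sphere_zero_iff_norm.2 (hcn i)⟩
        map_one' := by
          apply Subtype.ext
          show c 1 = 1
          apply huniq
          rw [← hc, one_smul, hfa, Subgroup.coe_one, map_one]
          simp
        map_mul' := fun i j => by
          apply Subtype.ext
          show c (i * j) = c i * c j
          apply huniq
          rw [← hc, mul_comm, mul_smul, ← hc i, ← map_smul, ← hc j, hfa, hfa, hfa,
            Matrix.mulVec_mulVec, ← Submonoid.coe_mul, ← map_mul, Subgroup.coe_mul] }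
    have hC : C ∈ Cs := by
      rw [hCs]
      exact ⟨w, hw0, fun i => hc i⟩
    have h1 := hmy C (hCP C hC)
    have h2 : c ⟨m, hmN⟩ = 1 := congrArg Subtype.val h1
    rw [Module.End.mem_eigenspace_iff] at hw
    have h3 := hc ⟨m, hmN⟩
    rw [hw, h2] at h3
    exact huniq _ _ h3
  -- conclusion
  have hrel : (kerPer N).relIndex M ≠ 0 :=
    Subgroup.relIndex_ne_zero_trans (kerPer_relIndex N hPN) hNi
  have hidx : ((kerPer N).subgroupOf M).FiniteIndex := ⟨hrel⟩
  let r : M →* unitary (Matrix n n ℂ) := ρ.comp M.subtype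
  have hker : (kerPer N).subgroupOf M ≤ r.ker := by
    intro m hm
    exact hone m hm
  have hfi : r.ker.FiniteIndex := Subgroup.finiteIndex_of_le hker
  have hfr : Finite r.range := by
    have e := QuotientGroup.quotientKerEquivRange r
    have : Finite (M ⧸ r.ker) := inferInstance
    exact Finite.of_equiv _ e.toEquiv
  have : ρ '' (M : Set G) = (r.range : Set (unitary (Matrix n n ℂ))) := by
    ext x
    constructor
    · rintro ⟨m, hm, rfl⟩
      exact ⟨⟨m, hm⟩, rfl⟩
    · rintro ⟨m, rfl⟩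
      exact ⟨m, m.2, rfl⟩
  rw [this]
  exact Set.toFinite _

/-- a character of a finite group, composed with a representation, is periodic -/
theorem exists_killed_aux_per {G : Type} [Group G] (N : Subgroup G) [N.Normal]
    {U : Type} [Group U] (ρ : G →* U) [Finite (N.map ρ)] (φ : N.map ρ →* Circle) :
    φ.comp ((ρ.comp N.subtype).codRestrict (N.map ρ)
      (fun m => ⟨m, m.2, rfl⟩)) ∈ Per N := by
  classical
  set y : N →* Circle := φ.comp ((ρ.comp N.subtype).codRestrict (N.map ρ)
      (fun m => ⟨m, m.2, rfl⟩)) with hy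
  have hy' : ∀ m : N, y m = φ ⟨ρ m, m, m.2, rfl⟩ := fun m => rfl
  let T : (N.map ρ → N.map ρ) → (N → Circle) := fun k m => φ (k ⟨ρ m, m, m.2, rfl⟩)
  have hT : (Set.range T).Finite := Set.finite_range T
  refine Set.Finite.of_finite_image (f := fun c : N →* Circle => (c : N → Circle)) (hT.subset ?_)
    DFunLike.coe_injective.injOn
  rintro _ ⟨_, ⟨g, rfl⟩, rfl⟩
  refine ⟨fun u => ⟨(ρ g)⁻¹ * u * ρ g, ?_⟩, ?_⟩
  · obtain ⟨u, a, ha, rfl⟩ := u
    refine ⟨g⁻¹ * a * g, ?_, by simp⟩
    have := Subgroup.Normal.conj_mem (H := N) inferInstance a ha g⁻¹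
    rwa [inv_inv] at this
  · funext m
    show φ _ = cact N g y m
    rw [cact_apply, hy']
    congr 1
    apply Subtype.ext
    show (ρ g)⁻¹ * ρ m * ρ g = ρ (MulAut.conjNormal g⁻¹ m : N)
    rw [MulAut.conjNormal_apply, inv_inv, map_mul, map_mul, map_inv]

/-- characters separate the points of the abelianization -/
theorem exists_killed_aux_char {F : Type} [Group F] [Finite F] {u : F}
    (hu : u ∉ commutator F) : ∃ φ : F →* Circle, φ u ≠ 1 := by
  have hfin : Finite (Abelianization F) := by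
    unfold Abelianization
    infer_instance
  have hne : (Abelianization.of u) ≠ 1 := by
    intro h
    apply hu
    exact (QuotientGroup.eq_one_iff u).1 h
  have hexp : Monoid.exponent (Abelianization F) ≠ 0 :=
    Monoid.exponent_ne_zero_of_finite
  have : NeZero (Monoid.exponent (Abelianization F)) := ⟨hexp⟩
  have : NeZero ((Monoid.exponent (Abelianization F) : ℕ) : ℂ) := ⟨by exact_mod_cast hexp⟩
  obtain ⟨ψ, hψ⟩ := CommGroup.exists_apply_ne_one_of_hasEnoughRootsOfUnity
    (Abelianization F) ℂ hne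
  have hn : ∀ a, ‖((ψ a : ℂˣ) : ℂ)‖ = 1 := by
    intro a
    have h1 : a ^ orderOf a = 1 := pow_orderOf_eq_one a
    have h2 : ((ψ a : ℂˣ) : ℂ) ^ orderOf a = 1 := by
      rw [← Units.val_pow_eq_pow_val, ← map_pow, h1, map_one, Units.val_one]
    exact Complex.norm_eq_one_of_pow_eq_one h2 (orderOf_pos a).ne'
  let φ : F →* Circle :=
    { toFun := fun a => ⟨((ψ (Abelianization.of a) : ℂˣ) : ℂ), mem_sphere_zero_iff_norm.2 (hn _)⟩
      map_one' := by
        apply Subtype.ext
        show ((ψ (Abelianization.of 1) : ℂˣ) : ℂ) = 1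
        rw [map_one, map_one, Units.val_one]
      map_mul' := fun a b => by
        apply Subtype.ext
        show ((ψ (Abelianization.of (a * b)) : ℂˣ) : ℂ) = _ * _
        rw [map_mul, map_mul, Units.val_mul] }
  refine ⟨φ, fun h => hψ ?_⟩
  have := congrArg Subtype.val h
  exact Units.ext this

/-- TARGET 2 -/
theorem exists_killed {G : Type} [Group G] (M : Subgroup G) [M.Normal] [Group.IsSolvable M]
    (hPer : ∀ (N : Subgroup G) [N.Normal], N ≤ M → N.relIndex M ≠ 0 → (Per N).Finite)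
    (hfin : ∀ (n : Type) [Fintype n] [DecidableEq n] (ρ : G →* unitary (Matrix n n ℂ)),
      (ρ '' (M : Set G)).Finite) :
    ∃ N : Subgroup G, N.Normal ∧ N ≤ M ∧ N.relIndex M ≠ 0 ∧
      ∀ (n : Type) [Fintype n] [DecidableEq n] (ρ : G →* unitary (Matrix n n ℂ)),
        ∀ m ∈ N, ρ m = 1 := by
  classical
  have key : ∀ l : ℕ, ∃ N : Subgroup G, N.Normal ∧ N ≤ M ∧ N.relIndex M ≠ 0 ∧
      ∀ (n : Type) [Fintype n] [DecidableEq n] (ρ : G →* unitary (Matrix n n ℂ)),
        N.map ρ ≤ ((derivedSeries M l).map M.subtype).map ρ := by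
    intro l
    induction l with
    | zero =>
      refine ⟨M, inferInstance, le_rfl, by rw [Subgroup.relIndex_self]; exact one_ne_zero, ?_⟩
      intro n _ _ ρ
      rw [derivedSeries_zero, ← MonoidHom.range_eq_map, Subgroup.range_subtype]
    | succ l ih =>
      obtain ⟨N, hN1, hN2, hN3, hN4⟩ := ih
      have hPN := hPer N hN2 hN3
      refine ⟨kerPer N, inferInstance, (kerPer_le N).trans hN2,
        Subgroup.relIndex_ne_zero_trans (kerPer_relIndex N hPN) hN3, ?_⟩
      intro n _ _ ρ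
      have h1 : (kerPer N).map ρ ≤ ⁅N.map ρ, N.map ρ⁆ := by
        rintro _ ⟨m, hm, rfl⟩
        by_contra hcon
        have hFfin : Finite (N.map ρ) := by
          refine Set.Finite.to_subtype ((hfin n ρ).subset ?_)
          rintro _ ⟨a, ha, rfl⟩
          exact ⟨a, hN2 ha, rfl⟩
        obtain ⟨hmN, hmy⟩ := (mem_kerPer N m).1 hm
        have hu : (⟨ρ m, m, hmN, rfl⟩ : N.map ρ) ∉ commutator (N.map ρ) := by
          intro h
          apply hcon
          have h2 : (commutator (N.map ρ)).map (N.map ρ).subtype = ⁅N.map ρ, N.map ρ⁆ := by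
            rw [commutator_def, Subgroup.map_commutator, ← MonoidHom.range_eq_map,
              Subgroup.range_subtype]
          rw [← h2]
          exact ⟨_, h, rfl⟩
        obtain ⟨φ, hφ⟩ := exists_killed_aux_char hu
        exact hφ (hmy _ (exists_killed_aux_per N ρ φ))
      refine h1.trans ?_
      rw [derivedSeries_succ, Subgroup.map_commutator, Subgroup.map_commutator]
      exact Subgroup.commutator_mono (hN4 n ρ) (hN4 n ρ)
  obtain ⟨l, hl⟩ := Group.IsSolvable.solvable (G := M)
  obtain ⟨N, hN1, hN2, hN3, hN4⟩ := key l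
  refine ⟨N, hN1, hN2, hN3, ?_⟩
  intro n _ _ ρ m hm
  have h1 := hN4 n ρ ⟨m, hm, rfl⟩
  rw [hl, Subgroup.map_bot, Subgroup.map_bot, Subgroup.mem_bot] at h1
  exact h1

end Pool.Agent.Helper72CS
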