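/-
HOW TO START: this file imports small modules which are on origin/main. Do
  cd /workdir/pool/outputs/live && git fetch && git checkout origin/main -- Pool/Agent/Helper72_CS Pool/Agent/Helper757/GL ; git reset -q
  mkdir -p /workdir/pool/Pool/Agent/Helper757 && cp -r Pool/Agent/Helper72_CS /workdir/pool/Pool/Agent/ && cp -r Pool/Agent/Helper757/GL /workdir/pool/Pool/Agent/Helper757/
  cd /workdir/pool && lake build Pool.Agent.Helper72_CS.Defs2 (plus the other modules the file imports)
(1-2 minutes). The definitions are in Pool/Agent/Helper72_CS/{Ind,Fam,Grp,LSDefs,Defs2}.lean (short; read them first).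
Note: inside the namespace, `continuous_pi` is another lemma; write `_root_.continuous_pi`.
-/
import Pool.Agent.Helper72_CS.RepNe
import Pool.Agent.Helper72_CS.Killed

/-!
JOB ab_finite_of_per. (`Per`, `cact` are in `Pool/Agent/Helper72_CS/Grp.lean`; `ern_ab`, `ern_ab_of`, `ern_pow` in `Pool/Agent/Helper72_CS/RepNe.lean`;
`exists_periodic_char` in `PerChar.lean`, `exists_finite_quotient` in `ResFin.lean`, see how they are combined in `exists_rep_ne`; `Per_pow`, `finite_roots` in
`Pool/Agent/Helper72_CS/Killed.lean` may be imported.)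

Proof. Put `A = Abelianization N`, `T = ern_ab N (MulAut.conjNormal τ⁻¹)`. (1) Let `a₀ ≠ 1` in `A`. By `exists_periodic_char` (with the finite set `F`) there are `k > 0` and `y : A →* Circle` with
`y (T^(i+k) b) = y (T^i b)` for `b ∈ F`, all `i : ℤ`, and `y a₀ ≠ 1`. Two homomorphisms `y ∘ T^k` and `y` agree on the generators `T^i b`, so `y ∘ T^k = y`. Let `z = y ∘ of : N →* Circle`.
Then `cact N (τ^k) z = z` (`cact N g z m = z (g⁻¹ m g)`; `T^k (of m) = of (τ^(-k) m τ^k)`, by `ern_pow`). The `L`-orbit of `z` is `{cact N (τ^i) z : 0 ≤ i < k}` (elements of `N` act trivially, `cact_mem`;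
`l = m τ^e = τ^e (τ^(-e) m τ^e)`), and `L` has finite index, so the `G`-orbit is finite: `z ∈ Per N`. (2) `Per N` is finite and contains all powers of its elements, so every `z ∈ Per N` has finite order; hence there is `d > 0` with `z m ^ d = 1`
for all `z ∈ Per N` and `m`. (3) The map `A → (Per N → {w : Circle // w ^ d = 1})` (evaluate; a character of `N` factors through `A`) is injective by (1) and its target is finite. (Instead of mapping `A`, show that
`N → (Per N → ...)` has the same fibres as `N → A`.)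
-/

set_option autoImplicit false

open Set Filter Topology

noncomputable section

namespace Pool.Agent.Helper72CS

/-- the characters with finite orbit separate the points of the abelianization -/
theorem ab_finite_of_per_aux {G : Type} [Group G] (N L : Subgroup G) [N.Normal] [L.FiniteIndex]
    (τ : G) (hL : ∀ l ∈ L, ∃ m ∈ N, ∃ e : ℤ, l = m * τ ^ e)
    (F : Finset (Abelianization N))
    (hF : Subgroup.closure {a | ∃ b ∈ F, ∃ i : ℤ,
      a = ((ern_ab N (MulAut.conjNormal τ⁻¹)) ^ i : MulAut (Abelianization N)) b} = ⊤)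
    (m₀ : N) (hm₀ : m₀ ∉ commutator N) : ∃ z ∈ Per N, z m₀ ≠ 1 := by
  have ha₀ : (Abelianization.of m₀ : Abelianization N) ≠ 1 := by
    intro h
    apply hm₀
    exact (QuotientGroup.eq_one_iff m₀).1 h
  set T : MulAut (Abelianization N) := ern_ab N (MulAut.conjNormal τ⁻¹) with hT
  obtain ⟨k, hk, y, hy, hy0⟩ := exists_periodic_char
    (fun M _ _ _ a ha => exists_finite_quotient a ha) T F (Abelianization.of m₀) ha₀
  have hyk : y.comp (T ^ (k : ℤ) : MulAut (Abelianization N)).toMonoidHom = y := by
    refine MonoidHom.eq_of_eqOn_dense hF ?_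
    rintro _ ⟨b, hb, i, rfl⟩
    have h1 := hy b hb i
    have h2 : (T ^ (i + (k : ℤ)) : MulAut (Abelianization N)) b =
        (T ^ (k : ℤ) : MulAut (Abelianization N)) ((T ^ i : MulAut (Abelianization N)) b) := by
      rw [add_comm, zpow_add]
      rfl
    rw [h2] at h1
    exact h1
  set z : N →* Circle := y.comp Abelianization.of with hz
  have hzk : cact N (τ ^ (k : ℤ)) z = z := by
    ext m
    rw [cact_apply]
    have h1 := ern_pow N τ (k : ℤ) m
    have h2 : MulAut.conjNormal (τ ^ (k : ℤ))⁻¹ m = MulAut.conjNormal (τ ^ (-(k : ℤ))) m := by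
      rw [zpow_neg]
    have h3 := DFunLike.congr_fun hyk (Abelianization.of m)
    show ((y (Abelianization.of (MulAut.conjNormal (τ ^ (k : ℤ))⁻¹ m)) : Circle) : ℂ) =
      ((y (Abelianization.of m) : Circle) : ℂ)
    rw [h2, ← h1]
    exact congrArg _ h3
  have hzq : ∀ q : ℤ, cact N (τ ^ ((k : ℤ) * q)) z = z := by
    have hp : ∀ n : ℕ, cact N (τ ^ ((k : ℤ) * n)) z = z := by
      intro n
      induction n with
      | zero => simp [cact_one]
      | succ n ih =>
        have : (k : ℤ) * ((n + 1 : ℕ) : ℤ) = (k : ℤ) * n + k := by push_cast; ring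
        rw [this, zpow_add, cact_mul, hzk, ih]
    intro q
    obtain ⟨n, rfl | rfl⟩ := q.eq_nat_or_neg
    · exact hp n
    · conv_lhs => rw [← hp n]
      rw [← cact_mul, ← zpow_add]
      have : (k : ℤ) * -(n : ℤ) + (k : ℤ) * n = 0 := by ring
      rw [this, zpow_zero, cact_one]
  have : NeZero k := ⟨hk.ne'⟩
  have hzP : z ∈ Per N := by
    have : Finite (G ⧸ L) := inferInstance
    refine (Set.finite_range (fun p : (G ⧸ L) × Fin k =>
      cact N (p.1.out * τ ^ ((p.2 : ℕ) : ℤ)) z)).subset ?_
    rintro _ ⟨g, rfl⟩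
    have h1 : (QuotientGroup.mk g : G ⧸ L).out⁻¹ * g ∈ L := by
      rw [← QuotientGroup.eq]
      exact Quotient.out_eq _
    obtain ⟨m, hm, e, he⟩ := hL _ h1
    have hkz : (0 : ℤ) < k := by exact_mod_cast hk
    have h2 : (e % k).toNat < k := by
      have := Int.emod_lt_of_pos e hkz
      have := Int.emod_nonneg e hkz.ne'
      omega
    have h3 : (((e % k).toNat : ℕ) : ℤ) = e % k := Int.toNat_of_nonneg (Int.emod_nonneg e hkz.ne')
    refine ⟨(QuotientGroup.mk g, ⟨(e % k).toNat, h2⟩), ?_⟩
    have h4 : g = (QuotientGroup.mk g : G ⧸ L).out * (m * τ ^ e) := by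
      rw [← he]
      group
    show cact N ((QuotientGroup.mk g : G ⧸ L).out * τ ^ (((e % k).toNat : ℕ) : ℤ)) z = cact N g z
    conv_rhs => rw [h4]
    rw [h3, cact_mul, cact_mul N _ (m * τ ^ e), cact_mul N m, cact_mem N m hm]
    congr 1
    have h5 : e = e % k + (k : ℤ) * (e / k) := (Int.emod_add_mul_ediv e k).symm
    conv_rhs => rw [h5, zpow_add, cact_mul, hzq]
  refine ⟨z, hzP, ?_⟩
  intro h
  have h1 : y (Abelianization.of m₀) = 1 := h
  rw [h1, Circle.coe_one, sub_self, norm_zero] at hy0
  linarith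

/-- TARGET -/
theorem ab_finite_of_per {G : Type} [Group G] (N L : Subgroup G) [N.Normal] [L.FiniteIndex]
    (hNL : N ≤ L) (τ : G) (hτ : τ ∈ L) (hL : ∀ l ∈ L, ∃ m ∈ N, ∃ e : ℤ, l = m * τ ^ e)
    (hPer : (Per N).Finite) (F : Finset (Abelianization N))
    (hF : Subgroup.closure {a | ∃ b ∈ F, ∃ i : ℤ,
      a = ((ern_ab N (MulAut.conjNormal τ⁻¹)) ^ i : MulAut (Abelianization N)) b} = ⊤) :
    Finite (Abelianization N) := by
  have : Finite (Per N) := hPer.to_subtype
  have h1 : (⨅ y : Per N, (y : N →* Circle).ker).FiniteIndex :=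
    Subgroup.finiteIndex_iInf fun y => Per_ker_finiteIndex N hPer y.2
  have h2 : (⨅ y : Per N, (y : N →* Circle).ker) ≤ commutator N := by
    intro m hm
    by_contra hcon
    obtain ⟨z, hz, hzm⟩ := ab_finite_of_per_aux N L τ hL F hF m hcon
    rw [Subgroup.mem_iInf] at hm
    exact hzm (hm ⟨z, hz⟩)
  have h3 : (commutator N).FiniteIndex := Subgroup.finiteIndex_of_le h2
  exact Subgroup.finite_quotient_of_finiteIndex

end Pool.Agent.Helper72CS
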