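import Pool.Agent.Helper72_CS.SolvComm

/-!
Finite dimensional representations of virtually solvable groups are commutative on a normal
subgroup of finite index.
-/

set_option autoImplicit false

noncomputable section

namespace Pool.Agent.Helper72CS

section AbImageAux

variable {G A : Type} [Group G] [CStarAlgebra A]

theorem abImage_conj (ρ : G →* unitary A) (g k : G) :
    ‖((ρ (g * k * g⁻¹) : unitary A) : A) - 1‖ = ‖((ρ k : unitary A) : A) - 1‖ := by
  have e : ((ρ (g * k * g⁻¹) : unitary A) : A) - 1 =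
      ((ρ g : unitary A) : A) * (((ρ k : unitary A) : A) - 1) * (((ρ g)⁻¹ : unitary A) : A) := by
    have h1 : ((ρ g : unitary A) : A) * (((ρ g)⁻¹ : unitary A) : A) = 1 := by
      have h3 : ((ρ g * (ρ g)⁻¹ : unitary A) : A) = ((1 : unitary A) : A) := by rw [mul_inv_cancel]
      exact h3
    rw [map_mul, map_mul, map_inv, mul_sub, sub_mul, mul_one, h1]
    rfl
  rw [e, CStarRing.norm_mul_coe_unitary, CStarRing.norm_coe_unitary_mul]

theorem abImage_diff (ρ : G →* unitary A) (a b : G) :
    ‖((ρ (a⁻¹ * b) : unitary A) : A) - 1‖ = dist ((ρ a : unitary A) : A) ((ρ b : unitary A) : A) := by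
  have e : ((ρ (a⁻¹ * b) : unitary A) : A) - 1 =
      (((ρ a)⁻¹ : unitary A) : A) * (((ρ b : unitary A) : A) - ((ρ a : unitary A) : A)) := by
    have h1 : (((ρ a)⁻¹ : unitary A) : A) * ((ρ a : unitary A) : A) = 1 := by
      have h3 : (((ρ a)⁻¹ * ρ a : unitary A) : A) = ((1 : unitary A) : A) := by rw [inv_mul_cancel]
      exact h3
    rw [map_mul, map_inv, mul_sub, h1]
    rfl
  rw [e, CStarRing.norm_coe_unitary_mul, ← dist_eq_norm, dist_comm]

/-- a finite list of centres with all the values of `ρ` near one of them -/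
theorem abImage_centres [ProperSpace A] (ρ : G →* unitary A) :
    ∃ (t : Set A) (c : G → A), t.Finite ∧ (∀ g, c g ∈ t) ∧
      ∀ g, dist ((ρ g : unitary A) : A) (c g) < 1 / 20 := by
  have hc : TotallyBounded (Metric.closedBall (0 : A) ‖(1 : A)‖) :=
    (isCompact_closedBall _ _).totallyBounded
  obtain ⟨t, htf, ht⟩ := Metric.totallyBounded_iff.mp hc (1 / 20) (by norm_num)
  have hb : ∀ g : G, ∃ y ∈ t, dist ((ρ g : unitary A) : A) y < 1 / 20 := by
    intro g
    have h1 : ((ρ g : unitary A) : A) ∈ Metric.closedBall (0 : A) ‖(1 : A)‖ := by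
      rw [mem_closedBall_zero_iff]
      have := CStarRing.norm_coe_unitary_mul (ρ g) (1 : A)
      rw [mul_one] at this
      exact this.le
    have h2 := ht h1
    simp only [Set.mem_iUnion, Metric.mem_ball, exists_prop] at h2
    exact h2
  choose c hct hcd using hb
  exact ⟨t, c, htf, hct, hcd⟩

/-- subgroups containing all the elements of `K` near one have finite index in `K` -/
theorem abImage_finite [ProperSpace A] (ρ : G →* unitary A) (K L : Subgroup G)
    (hL : ∀ k ∈ K, ‖((ρ k : unitary A) : A) - 1‖ < 1 / 10 → k ∈ L) :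
    Finite (K ⧸ L.subgroupOf K) := by
  obtain ⟨t, c, htf, hct, hcd⟩ := abImage_centres ρ
  have : Finite t := htf
  refine Finite.of_injective
    (fun q : K ⧸ L.subgroupOf K => (⟨c (q.out : K), hct _⟩ : t)) ?_
  intro q q' hqq
  have hq : c (q.out : K) = c (q'.out : K) := congrArg Subtype.val hqq
  rw [← q.out_eq', ← q'.out_eq']
  change (QuotientGroup.mk q.out : K ⧸ L.subgroupOf K) = QuotientGroup.mk q'.out
  rw [QuotientGroup.eq, Subgroup.mem_subgroupOf]
  refine hL _ (q.out⁻¹ * q'.out : K).2 ?_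
  have e2 : (((q.out⁻¹ * q'.out : K) : G)) = (q.out : G)⁻¹ * (q'.out : G) := rfl
  rw [e2, abImage_diff]
  have h1 := hcd (q.out : K)
  have h2 := hcd (q'.out : K)
  rw [hq] at h1
  have h3 := dist_triangle_right ((ρ (q.out : K) : unitary A) : A) ((ρ (q'.out : K) : unitary A) : A)
    (c (q'.out : K))
  linarith

theorem abImage_aux [ProperSpace A] (K : Subgroup G)
    [K.Normal] [K.FiniteIndex] [Group.IsSolvable K] (ρ : G →* unitary A) :
    ∃ L : Subgroup G, L.Normal ∧ L.FiniteIndex ∧ L ≤ K ∧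
      ∀ a ∈ L, ∀ b ∈ L, ρ (a * b) = ρ (b * a) := by
  obtain ⟨S, hS⟩ : ∃ S : Set G, S = {k | k ∈ K ∧ ‖((ρ k : unitary A) : A) - 1‖ < 1 / 10} :=
    ⟨_, rfl⟩
  have hSconj : ∀ g : G, ∀ k ∈ S, g * k * g⁻¹ ∈ S := by
    intro g k hk
    rw [hS] at hk ⊢
    refine ⟨‹K.Normal›.conj_mem k hk.1 g, ?_⟩
    rw [abImage_conj]
    exact hk.2
  have hLK : Subgroup.closure S ≤ K := by
    rw [Subgroup.closure_le]
    intro k hk
    rw [hS] at hk
    exact hk.1
  have hLn : (Subgroup.closure S).Normal := by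
    constructor
    intro w hw g
    induction hw using Subgroup.closure_induction with
    | mem x hx => exact Subgroup.subset_closure (hSconj g x hx)
    | one => simp
    | mul x y _ _ hx hy =>
      have e : g * (x * y) * g⁻¹ = (g * x * g⁻¹) * (g * y * g⁻¹) := by group
      rw [e]
      exact mul_mem hx hy
    | inv x _ hx =>
      have e : g * x⁻¹ * g⁻¹ = (g * x * g⁻¹)⁻¹ := by group
      rw [e]
      exact inv_mem hx
  have hfin : Finite (K ⧸ (Subgroup.closure S).subgroupOf K) := by
    apply abImage_finite ρ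
    intro k hk hk'
    apply Subgroup.subset_closure
    rw [hS]
    exact ⟨hk, hk'⟩
  have hLf : (Subgroup.closure S).FiniteIndex := by
    constructor
    have h1 : (Subgroup.closure S).relIndex K ≠ 0 := by
      have : ((Subgroup.closure S).subgroupOf K).FiniteIndex :=
        Subgroup.finiteIndex_of_finite_quotient
      exact this.index_ne_zero
    have h2 : K.index ≠ 0 := Subgroup.FiniteIndex.index_ne_zero
    rw [← Subgroup.relIndex_mul_index hLK]
    exact mul_ne_zero h1 h2
  refine ⟨Subgroup.closure S, hLn, hLf, hLK, ?_⟩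
  -- commutativity
  have hsolvL : Group.IsSolvable (Subgroup.closure S) :=
    Group.isSolvable_of_isSolvable_injective (Subgroup.inclusion_injective hLK)
  have hsolv : Group.IsSolvable ((Subgroup.closure S).map ρ) :=
    Group.isSolvable_of_surjective (ρ.subgroupMap_surjective (Subgroup.closure S))
  have hcomm := commute_of_solvable ((Subgroup.closure S).map ρ) (ρ '' S)
    (by rw [MonoidHom.map_closure])
    (by
      rintro g ⟨g, -, rfl⟩ x ⟨s, hs, rfl⟩
      exact ⟨g * s * g⁻¹, hSconj g s hs, by rw [map_mul, map_mul, map_inv]⟩)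
    (by
      rintro x ⟨s, hs, rfl⟩
      rw [hS] at hs
      exact hs.2.le)
  intro a ha b hb
  rw [map_mul, map_mul]
  exact hcomm _ ⟨a, ha, rfl⟩ _ ⟨b, hb, rfl⟩

end AbImageAux

section AbImageMatrix

open scoped Matrix.Norms.L2Operator

theorem abImage_matrix {G n : Type} [Group G] [Fintype n] [DecidableEq n] (K : Subgroup G)
    [K.Normal] [K.FiniteIndex] [Group.IsSolvable K] (ρ : G →* unitary (Matrix n n ℂ)) :
    ∃ L : Subgroup G, L.Normal ∧ L.FiniteIndex ∧ L ≤ K ∧
      ∀ a ∈ L, ∀ b ∈ L, ρ (a * b) = ρ (b * a) := by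
  have : ProperSpace (Matrix n n ℂ) := FiniteDimensional.proper ℂ _
  exact abImage_aux (A := Matrix n n ℂ) K ρ

end AbImageMatrix

/-- TARGET -/
theorem exists_abelian_image {G n : Type} [Group G] [Fintype n] [DecidableEq n] (K : Subgroup G)
    [K.Normal] [K.FiniteIndex] [Group.IsSolvable K] (ρ : G →* unitary (Matrix n n ℂ)) :
    ∃ L : Subgroup G, L.Normal ∧ L.FiniteIndex ∧ L ≤ K ∧
      ∀ a ∈ L, ∀ b ∈ L, ρ (a * b) = ρ (b * a) :=
  abImage_matrix K ρ

end Pool.Agent.Helper72CS
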