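import Pool.Agent.Helper72_CS.Defs2
import Pool.Agent.Helper72_CS.AbImage

/-!
Finite dimensional representations of groups with a normal subgroup of finite index with the
property `PS` are commutative on a normal subgroup of finite index.
-/

set_option autoImplicit false

open Set Filter Topology

noncomputable section

namespace Pool.Agent.Helper72CS

theorem abImagePs_aux {G A : Type} [Group G] [CStarAlgebra A] [ProperSpace A] (K : Subgroup G)
    [K.Normal] [K.FiniteIndex] (hK : PS K) (ρ : G →* unitary A) :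
    ∃ L : Subgroup G, L.Normal ∧ L.FiniteIndex ∧ L ≤ K ∧
      ∀ a ∈ L, ∀ b ∈ L, ρ (a * b) = ρ (b * a) := by
  obtain ⟨S, hS⟩ : ∃ S : Set G, S = {k | k ∈ K ∧ ‖((ρ k : unitary A) : A) - 1‖ < 1 / 10} :=
    ⟨_, rfl⟩
  have hSconj : ∀ g : G, ∀ k ∈ S, g * k * g⁻¹ ∈ S := by
    intro g k hk
    rw [hS] at hk ⊢
    refine ⟨‹K.Normal›.conj_mem k hk.1 g, ?_⟩
    rw [abImage_conj]
    exact hk.2
  have hLK : Subgroup.closure S ≤ K := by
    rw [Subgroup.closure_le]
    intro k hk
    rw [hS] at hk
    exact hk.1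
  have hLn : (Subgroup.closure S).Normal := by
    constructor
    intro w hw g
    induction hw using Subgroup.closure_induction with
    | mem x hx => exact Subgroup.subset_closure (hSconj g x hx)
    | one => simp
    | mul x y _ _ hx hy =>
      have e : g * (x * y) * g⁻¹ = (g * x * g⁻¹) * (g * y * g⁻¹) := by group
      rw [e]
      exact mul_mem hx hy
    | inv x _ hx =>
      have e : g * x⁻¹ * g⁻¹ = (g * x * g⁻¹)⁻¹ := by group
      rw [e]
      exact inv_mem hx
  have hfin : Finite (K ⧸ (Subgroup.closure S).subgroupOf K) := by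
    apply abImage_finite ρ
    intro k hk hk'
    apply Subgroup.subset_closure
    rw [hS]
    exact ⟨hk, hk'⟩
  have hLf : (Subgroup.closure S).FiniteIndex := by
    constructor
    have h1 : (Subgroup.closure S).relIndex K ≠ 0 := by
      have : ((Subgroup.closure S).subgroupOf K).FiniteIndex :=
        Subgroup.finiteIndex_of_finite_quotient
      exact this.index_ne_zero
    have h2 : K.index ≠ 0 := Subgroup.FiniteIndex.index_ne_zero
    rw [← Subgroup.relIndex_mul_index hLK]
    exact mul_ne_zero h1 h2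
  refine ⟨Subgroup.closure S, hLn, hLf, hLK, ?_⟩
  -- commutativity
  have hc : ∀ a ∈ S, ∀ b ∈ S, ρ (a * b) = ρ (b * a) := by
    intro a ha b hb
    have haK : a ∈ K := by
      rw [hS] at ha
      exact ha.1
    have hbK : b ∈ K := by
      rw [hS] at hb
      exact hb.1
    have h1 := hK ⊤ A (ρ.comp (K.subtype.comp (⊤ : Subgroup K).subtype))
      {h : (⊤ : Subgroup K) | ((h : K) : G) ∈ S}
      (by
        intro g x hx
        have := hSconj ((g : K) : G) ((x : K) : G) hx
        exact this)
      (by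
        intro x hx
        have hx' : ((x : K) : G) ∈ S := hx
        rw [hS] at hx'
        exact hx'.2.le)
      ⟨⟨a, haK⟩, Subgroup.mem_top _⟩ ha ⟨⟨b, hbK⟩, Subgroup.mem_top _⟩ hb
    have h2 : ρ a * ρ b = ρ b * ρ a := h1
    rw [map_mul, map_mul]
    exact h2
  intro a ha b hb
  induction ha, hb using Subgroup.closure_induction₂ with
  | mem x y hx hy => exact hc x hx y hy
  | one_left x _ => rw [one_mul, mul_one]
  | one_right x _ => rw [one_mul, mul_one]
  | mul_left x y z _ _ _ h1 h2 =>
    rw [map_mul, map_mul] at h1 h2 ⊢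
    rw [map_mul, mul_assoc, h2, ← mul_assoc, h1, mul_assoc, map_mul]
  | mul_right x y z _ _ _ h1 h2 =>
    rw [map_mul, map_mul] at h1 h2 ⊢
    rw [map_mul, ← mul_assoc, h1, mul_assoc, h2, map_mul, mul_assoc]
  | inv_left x y _ _ h1 =>
    rw [map_mul, map_mul, map_inv] at *
    have h2 : Commute (ρ x) (ρ y) := h1
    exact h2.inv_left
  | inv_right x y _ _ h1 =>
    rw [map_mul, map_mul, map_inv] at *
    have h2 : Commute (ρ x) (ρ y) := h1
    exact h2.inv_right

section AbImageMatrix

open scoped Matrix.Norms.L2Operator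

theorem abImagePs_matrix {G n : Type} [Group G] [Fintype n] [DecidableEq n] (K : Subgroup G)
    [K.Normal] [K.FiniteIndex] (hK : PS K) (ρ : G →* unitary (Matrix n n ℂ)) :
    ∃ L : Subgroup G, L.Normal ∧ L.FiniteIndex ∧ L ≤ K ∧
      ∀ a ∈ L, ∀ b ∈ L, ρ (a * b) = ρ (b * a) := by
  have : ProperSpace (Matrix n n ℂ) := FiniteDimensional.proper ℂ _
  exact abImagePs_aux (A := Matrix n n ℂ) K hK ρ

end AbImageMatrix

/-- TARGET -/
theorem exists_abelian_image_ps {G n : Type} [Group G] [Fintype n] [DecidableEq n]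
    (K : Subgroup G) [K.Normal] [K.FiniteIndex] (hK : PS K) (ρ : G →* unitary (Matrix n n ℂ)) :
    ∃ L : Subgroup G, L.Normal ∧ L.FiniteIndex ∧ L ≤ K ∧
      ∀ a ∈ L, ∀ b ∈ L, ρ (a * b) = ρ (b * a) :=
  abImagePs_matrix K hK ρ

end Pool.Agent.Helper72CS
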