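import Pool.Agent.Helper72_CS.LSDefs

/-!
JOB al_mul, al_mem, al_near: estimates in a C*-algebra.
-/

set_option autoImplicit false

open Set Filter Topology

noncomputable section

namespace Pool.Agent.Helper72CS

theorem al_aux_coe {D : Type} [CStarAlgebra D] (A : selfAdjoint D) (t : ℝ) :
    (selfAdjoint.expUnitary (t • A) : D) = NormedSpace.exp (t • (Complex.I • (A : D))) := by
  rw [selfAdjoint.expUnitary_coe, selfAdjoint.val_smul, smul_comm]

theorem al_aux_deriv {D : Type} [CStarAlgebra D] (A : selfAdjoint D) (t : ℝ) :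
    HasDerivAt (fun t : ℝ => (selfAdjoint.expUnitary (t • A) : D))
      ((selfAdjoint.expUnitary (t • A) : D) * (Complex.I • (A : D))) t := by
  have h := hasDerivAt_exp_smul_const (𝕂 := ℝ) (Complex.I • (A : D)) t
  simp only [al_aux_coe]
  exact h

theorem al_aux_deriv' {D : Type} [CStarAlgebra D] (A : selfAdjoint D) (t : ℝ) :
    HasDerivAt (fun t : ℝ => (selfAdjoint.expUnitary (t • A) : D))
      ((Complex.I • (A : D)) * (selfAdjoint.expUnitary (t • A) : D)) t := by
  have h := hasDerivAt_exp_smul_const' (𝕂 := ℝ) (Complex.I • (A : D)) t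
  simp only [al_aux_coe]
  exact h

theorem al_aux_inv {D : Type} [CStarAlgebra D] (A : selfAdjoint D) :
    (selfAdjoint.expUnitary (-A) : D) * (selfAdjoint.expUnitary A : D) = 1 := by
  have h : Commute ((-A : selfAdjoint D) : D) (A : D) := by
    rw [AddSubgroup.coe_neg]
    exact (Commute.refl _).neg_left
  have h1 := h.expUnitary_add
  rw [neg_add_cancel, selfAdjoint.expUnitary_zero] at h1
  have h2 := congrArg (fun u : unitary D => (u : D)) h1
  simpa using h2.symm

theorem al_aux_comm {D : Type} [CStarAlgebra D] (A : selfAdjoint D) (B : D) :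
    ‖(selfAdjoint.expUnitary A : D) * B - B * (selfAdjoint.expUnitary A : D)‖ ≤
      ‖(A : D) * B - B * (A : D)‖ := by
  have hd : ∀ t : ℝ, HasDerivAt (fun t : ℝ => (selfAdjoint.expUnitary (t • A) : D) * B *
      (selfAdjoint.expUnitary (t • (-A)) : D))
      ((selfAdjoint.expUnitary (t • A) : D) * (Complex.I • ((A : D) * B - B * A)) *
        (selfAdjoint.expUnitary (t • (-A)) : D)) t := by
    intro t
    have h := ((al_aux_deriv A t).mul_const B).mul (al_aux_deriv' (-A) t)
    refine h.congr_deriv ?_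
    rw [AddSubgroup.coe_neg]
    simp only [mul_sub, smul_sub, sub_mul, mul_assoc, smul_mul_assoc, mul_smul_comm, smul_neg,
      neg_mul, mul_neg]
    abel
  have h := norm_image_sub_le_of_norm_deriv_le_segment_01'
    (fun x _ => (hd x).hasDerivWithinAt) (C := ‖(A : D) * B - B * (A : D)‖) (by
      intro t _
      rw [CStarRing.norm_mul_coe_unitary, CStarRing.norm_coe_unitary_mul, norm_smul,
        Complex.norm_I, one_mul])
  simp only [one_smul, zero_smul, selfAdjoint.expUnitary_zero, OneMemClass.coe_one, one_mul,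
    mul_one] at h
  have h2 : (selfAdjoint.expUnitary A : D) * B - B * (selfAdjoint.expUnitary A : D) =
      ((selfAdjoint.expUnitary A : D) * B * (selfAdjoint.expUnitary (-A) : D) - B) *
        (selfAdjoint.expUnitary A : D) := by
    rw [sub_mul, mul_assoc _ (selfAdjoint.expUnitary (-A) : D), al_aux_inv, mul_one]
  rw [h2, CStarRing.norm_mul_coe_unitary]
  exact h

theorem al_aux_norm {D : Type} [CStarAlgebra D] (U : unitary D) : ‖(U : D)‖ ≤ 1 := by
  rcases subsingleton_or_nontrivial D with h | h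
  · rw [Subsingleton.elim (U : D) 0, norm_zero]; exact zero_le_one
  · exact (CStarRing.norm_coe_unitary U).le

theorem al_aux_one {D : Type} [CStarAlgebra D] (A : selfAdjoint D) :
    ‖(selfAdjoint.expUnitary A : D) - 1‖ ≤ ‖(A : D)‖ := by
  have h := norm_image_sub_le_of_norm_deriv_le_segment_01'
    (fun x _ => (al_aux_deriv A x).hasDerivWithinAt) (C := ‖(A : D)‖) (by
      intro t _
      rw [CStarRing.norm_coe_unitary_mul, norm_smul, Complex.norm_I, one_mul])
  simpa only [one_smul, zero_smul, selfAdjoint.expUnitary_zero, OneMemClass.coe_one] using h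

theorem al_aux_scal (x : ℝ) : ‖Complex.exp ((x : ℂ) * Complex.I) - 1‖ ≤ |x| := by
  have := Real.norm_exp_I_mul_ofReal_sub_one_le (x := x)
  rwa [mul_comm, Real.norm_eq_abs] at this

theorem al_aux_scal1 (x : ℝ) : ‖Complex.exp ((x : ℂ) * Complex.I)‖ = 1 :=
  Complex.norm_exp_ofReal_mul_I x

/-- TARGET 1 -/
theorem al_mem {D : Type} [CStarAlgebra D] (X Y : selfAdjoint D) (ε r u v w : ℝ) :
    al X Y ε r u v w ∈ unitary D := by
  unfold al
  have h : (selfAdjoint.expUnitary ((r * v) • X) : D) * (selfAdjoint.expUnitary ((r * w) • Y) : D) ∈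
      unitary D := mul_mem (SetLike.coe_mem _) (SetLike.coe_mem _)
  have hμ : star (Complex.exp (((ε * u : ℝ) : ℂ) * Complex.I)) *
      Complex.exp (((ε * u : ℝ) : ℂ) * Complex.I) = 1 := by
    have := Complex.normSq_eq_conj_mul_self (z := Complex.exp (((ε * u : ℝ) : ℂ) * Complex.I))
    rw [Complex.normSq_eq_norm_sq, al_aux_scal1] at this
    rw [Complex.star_def, ← this]
    norm_num
  rw [Unitary.mem_iff] at h ⊢
  refine ⟨?_, ?_⟩
  · rw [star_smul, smul_mul_smul_comm, hμ, h.1, one_smul]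
  · rw [star_smul, smul_mul_smul_comm, mul_comm, hμ, h.2, one_smul]

/-- TARGET 2 -/
theorem al_mul {D : Type} [CStarAlgebra D] (X Y : selfAdjoint D) (ε r u v w u' v' w' : ℝ) :
    ‖al X Y ε r (u + u') (v + v') (w + w') - al X Y ε r u v w * al X Y ε r u' v' w'‖ ≤
      |r * w| * |r * v'| * ‖(X : D) * Y - Y * X‖ := by
  have hsplit : ∀ (Z : selfAdjoint D) (s t : ℝ), (selfAdjoint.expUnitary ((r * (s + t)) • Z) : D) =
      (selfAdjoint.expUnitary ((r * s) • Z) : D) * (selfAdjoint.expUnitary ((r * t) • Z) : D) := by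
    intro Z s t
    have hc : Commute (((r * s) • Z : selfAdjoint D) : D) (((r * t) • Z : selfAdjoint D) : D) := by
      rw [selfAdjoint.val_smul, selfAdjoint.val_smul]
      exact ((Commute.refl _).smul_left _).smul_right _
    have h1 := hc.expUnitary_add
    rw [← add_smul, ← mul_add] at h1
    rw [h1]
    rfl
  set V := (selfAdjoint.expUnitary ((r * v) • X)) with hV
  set V' := (selfAdjoint.expUnitary ((r * v') • X)) with hV'
  set W := (selfAdjoint.expUnitary ((r * w) • Y)) with hW
  set W' := (selfAdjoint.expUnitary ((r * w') • Y)) with hW'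
  have hμ : Complex.exp (((ε * (u + u') : ℝ) : ℂ) * Complex.I) =
      Complex.exp (((ε * u : ℝ) : ℂ) * Complex.I) * Complex.exp (((ε * u' : ℝ) : ℂ) * Complex.I) := by
    rw [← Complex.exp_add]
    congr 1
    push_cast
    ring
  have h1 : al X Y ε r (u + u') (v + v') (w + w') - al X Y ε r u v w * al X Y ε r u' v' w' =
      (Complex.exp (((ε * u : ℝ) : ℂ) * Complex.I) * Complex.exp (((ε * u' : ℝ) : ℂ) * Complex.I)) •
        ((V : D) * (((V' : D) * (W : D) - (W : D) * (V' : D)) * (W' : D))) := by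
    unfold al
    rw [hsplit X v v', hsplit Y w w', hμ, smul_mul_smul_comm, ← smul_sub]
    congr 1
    simp only [mul_sub, sub_mul, mul_assoc]
    rfl
  rw [h1, norm_smul, norm_mul, al_aux_scal1, al_aux_scal1, one_mul, one_mul,
    CStarRing.norm_coe_unitary_mul, CStarRing.norm_mul_coe_unitary]
  have h2 := al_aux_comm ((r * v') • X) (W : D)
  have h3 := al_aux_comm ((r * w) • Y) (X : D)
  have h4 : ‖(((r * v') • X : selfAdjoint D) : D) * (W : D) -
      (W : D) * (((r * v') • X : selfAdjoint D) : D)‖ =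
      |r * v'| * ‖(W : D) * (X : D) - (X : D) * (W : D)‖ := by
    rw [selfAdjoint.val_smul, smul_mul_assoc, mul_smul_comm, ← smul_sub, norm_smul,
      Real.norm_eq_abs, norm_sub_rev]
  have h5 : ‖(((r * w) • Y : selfAdjoint D) : D) * (X : D) -
      (X : D) * (((r * w) • Y : selfAdjoint D) : D)‖ =
      |r * w| * ‖(X : D) * (Y : D) - (Y : D) * (X : D)‖ := by
    rw [selfAdjoint.val_smul, smul_mul_assoc, mul_smul_comm, ← smul_sub, norm_smul,
      Real.norm_eq_abs, norm_sub_rev]
  rw [h4] at h2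
  rw [h5] at h3
  calc ‖(V' : D) * (W : D) - (W : D) * (V' : D)‖
      ≤ |r * v'| * ‖(W : D) * (X : D) - (X : D) * (W : D)‖ := h2
    _ ≤ |r * v'| * (|r * w| * ‖(X : D) * (Y : D) - (Y : D) * (X : D)‖) :=
        mul_le_mul_of_nonneg_left h3 (abs_nonneg _)
    _ = _ := by ring

/-- TARGET 3 -/
theorem al_near {D : Type} [CStarAlgebra D] (X Y : selfAdjoint D) (ε r u v w : ℝ)
    (hX : ‖X‖ ≤ 1) (hY : ‖Y‖ ≤ 1) :
    ‖al X Y ε r u v w - 1‖ ≤ |ε * u| + |r * v| + |r * w| := by
  have hb : ∀ (Z : selfAdjoint D) (s : ℝ), ‖Z‖ ≤ 1 →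
      ‖(selfAdjoint.expUnitary (s • Z) : D) - 1‖ ≤ |s| := by
    intro Z s hZ
    refine (al_aux_one (s • Z)).trans ?_
    rw [selfAdjoint.val_smul, norm_smul, Real.norm_eq_abs]
    have hZ' : ‖(Z : D)‖ ≤ 1 := hZ
    exact mul_le_of_le_one_right (abs_nonneg s) hZ'
  set V := (selfAdjoint.expUnitary ((r * v) • X)) with hV
  set W := (selfAdjoint.expUnitary ((r * w) • Y)) with hW
  set μ := Complex.exp (((ε * u : ℝ) : ℂ) * Complex.I) with hμ
  have h1 : al X Y ε r u v w - 1 =
      (μ - 1) • ((V * W : unitary D) : D) + ((V : D) * ((W : D) - 1) + ((V : D) - 1)) := by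
    have e : al X Y ε r u v w = μ • ((V : D) * (W : D)) := rfl
    rw [e, sub_smul, one_smul, mul_sub, mul_one]
    have e2 : ((V * W : unitary D) : D) = (V : D) * (W : D) := rfl
    rw [e2]
    abel
  rw [h1]
  refine (norm_add_le _ _).trans ?_
  have h2 : ‖(μ - 1) • ((V * W : unitary D) : D)‖ ≤ |ε * u| := by
    rw [norm_smul]
    have h3 := al_aux_scal (ε * u)
    have h4 := al_aux_norm (V * W)
    calc ‖μ - 1‖ * ‖((V * W : unitary D) : D)‖ ≤ |ε * u| * 1 :=
          mul_le_mul h3 h4 (norm_nonneg _) (abs_nonneg _)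
      _ = |ε * u| := mul_one _
  have h3 : ‖(V : D) * ((W : D) - 1) + ((V : D) - 1)‖ ≤ |r * w| + |r * v| := by
    refine (norm_add_le _ _).trans ?_
    rw [CStarRing.norm_coe_unitary_mul]
    exact add_le_add (hb Y _ hY) (hb X _ hX)
  linarith

end Pool.Agent.Helper72CS
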