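import Pool.Agent.Helper72_CS.Defs2

/-!
Amplification of permutation matrices from a finite subgroup `A` to a finite group `E ⊇ A`.
-/

set_option autoImplicit false

open Set Filter Topology

noncomputable section

namespace Pool.Agent.Helper72CS

theorem amp_exists_e {G : Type} [Group G] (A E : Subgroup G) [Fintype E] (hAE : A ≤ E) :
    ∃ (k : ℕ) (e : A × Fin k ≃ E), ∀ (a b : A) (j : Fin k),
      e (a * b, j) = Subgroup.inclusion hAE a * e (b, j) := by
  classical
  let B : Subgroup E := A.subgroupOf E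
  have : Finite (E ⧸ B) := inferInstance
  let f : (E ⧸ B) ≃ Fin (Nat.card (E ⧸ B)) := Finite.equivFin _
  let m : A × (E ⧸ B) → E := fun p => Subgroup.inclusion hAE p.1 * (Quotient.out p.2)⁻¹
  have hm : Function.Bijective m := by
    constructor
    · rintro ⟨a, j⟩ ⟨b, l⟩ h
      have h' : Subgroup.inclusion hAE a * (Quotient.out j)⁻¹ =
        Subgroup.inclusion hAE b * (Quotient.out l)⁻¹ := h
      have hj : j = l := by
        rw [← QuotientGroup.out_eq' j, ← QuotientGroup.out_eq' l, QuotientGroup.eq,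
          Subgroup.mem_subgroupOf]
        have h2 : (Quotient.out j)⁻¹ * Quotient.out l =
            Subgroup.inclusion hAE (a⁻¹ * b) := by
          rw [map_mul, map_inv, eq_comm, inv_mul_eq_iff_eq_mul, ← mul_assoc, h', inv_mul_cancel_right]
        rw [h2]
        exact (a⁻¹ * b).2
      subst hj
      have h3 := mul_right_cancel h'
      rw [Subgroup.inclusion_injective hAE h3]
    · intro x
      let j : E ⧸ B := QuotientGroup.mk x⁻¹
      have h1 : (x⁻¹)⁻¹ * Quotient.out j ∈ B := by
        rw [← QuotientGroup.eq, QuotientGroup.out_eq']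
      rw [inv_inv] at h1
      refine ⟨(⟨((x * Quotient.out j : E) : G), Subgroup.mem_subgroupOf.1 h1⟩, j), ?_⟩
      apply Subtype.ext
      show ((x * Quotient.out j : E) : G) * ((Quotient.out j : E) : G)⁻¹ = x
      rw [Subgroup.coe_mul, mul_inv_cancel_right]
  refine ⟨Nat.card (E ⧸ B), ((Equiv.refl A).prodCongr f.symm).trans (Equiv.ofBijective m hm), ?_⟩
  intro a b j
  show Subgroup.inclusion hAE (a * b) * (Quotient.out (f.symm j))⁻¹ =
    Subgroup.inclusion hAE a * (Subgroup.inclusion hAE b * (Quotient.out (f.symm j))⁻¹)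
  rw [map_mul, mul_assoc]

/-- the amplification of matrices -/
def ampMat {P Q J : Type} [Fintype P] [DecidableEq P] [Fintype Q] [DecidableEq Q] [Fintype J]
    [DecidableEq J] (e : P × J ≃ Q) : MM P ℂ →⋆ₐ[ℂ] MM Q ℂ where
  toFun M := fun p q => if (e.symm p).2 = (e.symm q).2 then M (e.symm p).1 (e.symm q).1 else 0
  map_one' := MM.ext fun p q => by
    show (if (e.symm p).2 = (e.symm q).2 then (1 : MM P ℂ) (e.symm p).1 (e.symm q).1 else 0) = _
    rw [MM.one_apply, MM.one_apply]
    by_cases h : p = q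
    · subst h; simp
    · rw [if_neg h]
      split_ifs with h1 h2
      · exact absurd (e.symm.injective (Prod.ext h2 h1)) h
      · rfl
      · rfl
  map_mul' M N := MM.ext fun p q => by
    show (if (e.symm p).2 = (e.symm q).2 then (M * N) (e.symm p).1 (e.symm q).1 else 0) = _
    rw [MM.mul_apply, MM.mul_apply]
    show _ = ∑ r, (if (e.symm p).2 = (e.symm r).2 then M (e.symm p).1 (e.symm r).1 else 0) *
      (if (e.symm r).2 = (e.symm q).2 then N (e.symm r).1 (e.symm q).1 else 0)
    rw [← e.sum_comp]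
    simp only [Equiv.symm_apply_apply]
    rw [Fintype.sum_prod_type]
    by_cases h : (e.symm p).2 = (e.symm q).2
    · rw [if_pos h]
      refine Finset.sum_congr rfl fun a _ => ?_
      rw [Finset.sum_eq_single (e.symm q).2]
      · rw [if_pos h, if_pos rfl]
      · intro j _ hj
        rw [if_neg hj, mul_zero]
      · intro h0
        exact absurd (Finset.mem_univ _) h0
    · rw [if_neg h]
      symm
      refine Finset.sum_eq_zero fun a _ => Finset.sum_eq_zero fun j _ => ?_
      by_cases h1 : (e.symm p).2 = j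
      · rw [if_neg (fun h2 => h (h1.trans h2)), mul_zero]
      · rw [if_neg h1, zero_mul]
  map_zero' := MM.ext fun p q => by
    show (if (e.symm p).2 = (e.symm q).2 then (0 : MM P ℂ) (e.symm p).1 (e.symm q).1 else 0) = _
    rw [MM.zero_apply, MM.zero_apply, ite_self]
  map_add' M N := MM.ext fun p q => by
    show (if (e.symm p).2 = (e.symm q).2 then (M + N) (e.symm p).1 (e.symm q).1 else 0) =
      (if (e.symm p).2 = (e.symm q).2 then M (e.symm p).1 (e.symm q).1 else 0) +
      (if (e.symm p).2 = (e.symm q).2 then N (e.symm p).1 (e.symm q).1 else 0)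
    rw [MM.add_apply]
    split_ifs
    · rfl
    · rw [add_zero]
  commutes' r := MM.ext fun p q => by
    show (if (e.symm p).2 = (e.symm q).2 then
      (algebraMap ℂ (CStarMatrix P P ℂ) r) (e.symm p).1 (e.symm q).1 else 0) =
      (algebraMap ℂ (CStarMatrix Q Q ℂ) r) p q
    rw [CStarMatrix.algebraMap_apply, CStarMatrix.algebraMap_apply]
    by_cases h : p = q
    · subst h; simp
    · rw [if_neg h]
      split_ifs with h1 h2
      · exact absurd (e.symm.injective (Prod.ext h2 h1)) h
      · rfl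
      · rfl
  map_star' M := MM.ext fun p q => by
    rw [MM.star_apply]
    show (if (e.symm p).2 = (e.symm q).2 then (star M) (e.symm p).1 (e.symm q).1 else 0) =
      star (if (e.symm q).2 = (e.symm p).2 then M (e.symm q).1 (e.symm p).1 else 0)
    rw [MM.star_apply]
    by_cases h : (e.symm p).2 = (e.symm q).2
    · rw [if_pos h, if_pos h.symm]
    · rw [if_neg h, if_neg (fun h2 => h h2.symm), star_zero]

theorem ampMat_apply {P Q J : Type} [Fintype P] [DecidableEq P] [Fintype Q] [DecidableEq Q] [Fintype J]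
    [DecidableEq J] (e : P × J ≃ Q) (M : MM P ℂ) (p q : Q) :
    ampMat e M p q = if (e.symm p).2 = (e.symm q).2 then M (e.symm p).1 (e.symm q).1 else 0 := rfl

/-- the amplification of permutations -/
def ampPerm {P Q J : Type} (e : P × J ≃ Q) : Equiv.Perm P →* Equiv.Perm Q where
  toFun τ := (e.symm.trans (Equiv.prodCongr τ (Equiv.refl J))).trans e
  map_one' := by
    ext z
    show e (Prod.map _ _ (e.symm z)) = z
    simp
  map_mul' σ τ := by
    ext z
    show e (σ (τ (e.symm z).1), (e.symm z).2) =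
      e (σ (e.symm (e (τ (e.symm z).1, (e.symm z).2))).1, (e.symm (e (τ (e.symm z).1, (e.symm z).2))).2)
    rw [e.symm_apply_apply]

theorem ampPerm_apply {P Q J : Type} (e : P × J ≃ Q) (τ : Equiv.Perm P) (z : Q) :
    ampPerm e τ z = e (τ (e.symm z).1, (e.symm z).2) := rfl

/-- TARGET -/
theorem exists_amp_group {G : Type} [Group G] (A E : Subgroup G) [Fintype A] [DecidableEq A]
    [Fintype E] [DecidableEq E] (hAE : A ≤ E) :
    ∃ (k : ℕ) (amp : Equiv.Perm A →* Equiv.Perm E) (α : MM A ℂ →⋆ₐ[ℂ] MM E ℂ),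
      0 < k ∧ Fintype.card E = Fintype.card A * k ∧
      (∀ M : MM A ℂ, (∑ p, α M p p) = (k : ℂ) * ∑ p, M p p) ∧
      (∀ τ : Equiv.Perm A, mapU α (permU A τ) = permU E (amp τ)) ∧
      (∀ (τ : Equiv.Perm A) (a b : G) (ha : a ∈ A) (hb : b ∈ A),
        (∀ z : A, τ (⟨a, ha⟩ * z) = ⟨b, hb⟩ * τ z) →
        ∀ z : E, amp τ (⟨a, hAE ha⟩ * z) = ⟨b, hAE hb⟩ * amp τ z) ∧
      (∀ (a : G) (ha : a ∈ A), amp (Equiv.mulLeft ⟨a, ha⟩) = Equiv.mulLeft ⟨a, hAE ha⟩) := by
  obtain ⟨k, e, he⟩ := amp_exists_e A E hAE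
  have hcard : Fintype.card E = Fintype.card A * k := by
    rw [← Fintype.card_congr e, Fintype.card_prod, Fintype.card_fin]
  have hsymm : ∀ (a : A) (z : E), e.symm (Subgroup.inclusion hAE a * z) =
      (a * (e.symm z).1, (e.symm z).2) := by
    intro a z
    rw [Equiv.symm_apply_eq, he]
    congr 1
    exact (e.apply_symm_apply z).symm
  refine ⟨k, ampPerm e, ampMat e, ?_, hcard, ?_, ?_, ?_, ?_⟩
  · rcases Nat.eq_zero_or_pos k with h | h
    · rw [h, mul_zero] at hcard
      exact absurd hcard Fintype.card_ne_zero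
    · exact h
  · intro M
    simp only [ampMat_apply, if_true]
    rw [← e.sum_comp]
    simp only [Equiv.symm_apply_apply]
    rw [Fintype.sum_prod_type, Finset.mul_sum]
    refine Finset.sum_congr rfl fun a _ => ?_
    simp
  · intro τ
    apply Subtype.ext
    refine MM.ext fun p q => ?_
    rw [coe_mapU, ampMat_apply]
    show (if (e.symm p).2 = (e.symm q).2 then
      (if (e.symm p).1 = τ (e.symm q).1 then (1 : ℂ) else 0) else 0) =
      if p = ampPerm e τ q then 1 else 0
    rw [ampPerm_apply]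
    by_cases h : p = e (τ (e.symm q).1, (e.symm q).2)
    · rw [if_pos h]
      have h1 : e.symm p = (τ (e.symm q).1, (e.symm q).2) := by rw [h, e.symm_apply_apply]
      rw [h1]
      simp
    · rw [if_neg h]
      split_ifs with h1 h2
      · exact absurd (by rw [← h2, ← h1]; simp) h
      · rfl
      · rfl
  · intro τ a b ha hb hτ z
    rw [ampPerm_apply, ampPerm_apply]
    have h1 := hsymm ⟨a, ha⟩ z
    have h2 : (⟨a, hAE ha⟩ : E) * z = Subgroup.inclusion hAE ⟨a, ha⟩ * z := rfl
    rw [h2, h1, hτ, he]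
    rfl
  · intro a ha
    ext z
    rw [ampPerm_apply]
    show ((e ((Equiv.mulLeft (⟨a, ha⟩ : A)) (e.symm z).1, (e.symm z).2) : E) : G) = _
    rw [Equiv.coe_mulLeft, he]
    rw [Prod.mk.eta, e.apply_symm_apply]
    rfl

end Pool.Agent.Helper72CS
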