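import Mathlib

/-!
JOB asymptotic homomorphisms on an extension by a free group.

`L` is generated by the normal subgroup `Λ` and the image of the injective hom `f : FreeGroup X → G`; every `l ∈ L` is uniquely `m * f w` with `m ∈ Λ`
(uniqueness from `hfree`: `m f w = m' f w'` gives `f (w' w⁻¹) ∈ Λ`). Put `φ n l = lam n m * FreeGroup.lift (u n) w`.
Multiplicativity: `(m f w) (m' f w') = m (f w m' (f w)⁻¹) f (w w')`, so one needs for every word `w` the CLAIM
`∀ m ∈ Λ, ∀ᶠ n, lift (u n) w * lam n m * (lift (u n) w)⁻¹ = lam n (f w * m * (f w)⁻¹)`.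
It holds for generators by `hu`, for the inverse of a word `w` for which it holds: apply it to `m' = (f w)⁻¹ m f w ∈ Λ`; for products: compose.
(`FreeGroup.induction_on`.) Then `lam n (m * m'') = lam n m * lam n m''` eventually, by `hlam`.
-/

set_option autoImplicit false

open Filter

noncomputable section

namespace Pool.Agent.Helper72CS

/-- TARGET -/
theorem exists_asymptotic_hom {G : Type} [Group G] (Λ L : Subgroup G) [Λ.Normal] (hΛL : Λ ≤ L)
    {X : Type} (f : FreeGroup X →* G) (hf : ∀ w, f w ∈ L)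
    (hdec : ∀ l ∈ L, ∃ m ∈ Λ, ∃ w, l = m * f w) (hfree : ∀ w, f w ∈ Λ → w = 1)
    (Γ : ℕ → Type) [∀ n, Group (Γ n)] (lam : ∀ n, G → Γ n) (u : ∀ n, X → Γ n)
    (hlam1 : ∀ n, lam n 1 = 1)
    (hlam : ∀ m ∈ Λ, ∀ m' ∈ Λ, ∀ᶠ n in atTop, lam n (m * m') = lam n m * lam n m')
    (hu : ∀ x, ∀ m ∈ Λ, ∀ᶠ n in atTop,
      u n x * lam n m * (u n x)⁻¹ = lam n (f (FreeGroup.of x) * m * (f (FreeGroup.of x))⁻¹)) :
    ∃ φ : ∀ n, L → Γ n, (∀ n, φ n 1 = 1) ∧
      (∀ g h : L, ∀ᶠ n in atTop, φ n (g * h) = φ n g * φ n h) ∧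
      ∀ (n : ℕ) (l : L) (m : G) (w : FreeGroup X), m ∈ Λ → (l : G) = m * f w →
        φ n l = lam n m * FreeGroup.lift (u n) w := by
  classical
  -- claim for words
  have claim : ∀ w : FreeGroup X, ∀ m ∈ Λ, ∀ᶠ n in atTop,
      FreeGroup.lift (u n) w * lam n m * (FreeGroup.lift (u n) w)⁻¹
        = lam n (f w * m * (f w)⁻¹) := by
    intro w
    induction w using FreeGroup.induction_on with
    | C1 =>
      intro m hm
      refine Filter.Eventually.of_forall (fun n => ?_)
      simp
    | of x =>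
      intro m hm
      filter_upwards [hu x m hm] with n hn
      simpa using hn
    | inv_of x ih =>
      intro m hm
      have hm' : (f (FreeGroup.of x))⁻¹ * m * f (FreeGroup.of x) ∈ Λ := by
        have := (inferInstance : Λ.Normal).conj_mem m hm ((f (FreeGroup.of x))⁻¹)
        simpa using this
      filter_upwards [ih _ hm'] with n hn
      have e : f (FreeGroup.of x) * ((f (FreeGroup.of x))⁻¹ * m * f (FreeGroup.of x)) *
          (f (FreeGroup.of x))⁻¹ = m := by group
      rw [e] at hn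
      rw [map_inv, map_inv, ← hn]
      simp only [inv_inv]
      group
    | mul v w ihv ihw =>
      intro m hm
      have hm' : f w * m * (f w)⁻¹ ∈ Λ :=
        (inferInstance : Λ.Normal).conj_mem m hm (f w)
      filter_upwards [ihw m hm, ihv _ hm'] with n h1 h2
      rw [← h1] at h2
      rw [map_mul, map_mul, mul_inv_rev, mul_inv_rev]
      have e : f v * f w * m * ((f w)⁻¹ * (f v)⁻¹) = f v * (f w * m * (f w)⁻¹) * (f v)⁻¹ := by
        group
      rw [e, ← h2]
      group
  -- uniqueness of the decomposition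
  have huniq : ∀ (m m' : G) (w w' : FreeGroup X), m ∈ Λ → m' ∈ Λ → m * f w = m' * f w' →
      m = m' ∧ w = w' := by
    intro m m' w w' hm hm' h
    have hk : f (w * w'⁻¹) = m⁻¹ * m' := by
      rw [map_mul, map_inv]
      have : f w = m⁻¹ * (m' * f w') := by rw [← h]; group
      rw [this]; group
    have h1 : w * w'⁻¹ = 1 := by
      apply hfree
      rw [hk]
      exact Λ.mul_mem (Λ.inv_mem hm) hm'
    have h2 : w = w' := mul_inv_eq_one.mp h1
    subst h2
    exact ⟨mul_right_cancel h, rfl⟩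
  choose M hM W hW using hdec
  refine ⟨fun n l => lam n (M l l.2) * FreeGroup.lift (u n) (W l l.2), ?_, ?_, ?_⟩
  · intro n
    have h := hW (((1 : L) : G)) (1 : L).2
    obtain ⟨h1, h2⟩ := huniq 1 (M _ (1 : L).2) 1 (W _ (1 : L).2) Λ.one_mem (hM _ _)
      (by rw [← h]; simp)
    show lam n (M _ (1 : L).2) * FreeGroup.lift (u n) (W _ (1 : L).2) = 1
    rw [← h1, ← h2, hlam1]
    simp
  · intro g h
    have hg := hW (g : G) g.2
    have hh := hW (h : G) h.2
    set mg := M (g : G) g.2 with hmg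
    set wg := W (g : G) g.2 with hwg
    set mh := M (h : G) h.2 with hmh
    set wh := W (h : G) h.2 with hwh
    have hmgΛ : mg ∈ Λ := hM _ _
    have hmhΛ : mh ∈ Λ := hM _ _
    have hc : f wg * mh * (f wg)⁻¹ ∈ Λ :=
      (inferInstance : Λ.Normal).conj_mem mh hmhΛ (f wg)
    have hgh := hW ((g * h : L) : G) (g * h : L).2
    obtain ⟨h1, h2⟩ := huniq (mg * (f wg * mh * (f wg)⁻¹)) (M _ (g * h : L).2) (wg * wh)
      (W _ (g * h : L).2) (Λ.mul_mem hmgΛ hc) (hM _ _) (by
        rw [← hgh, map_mul]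
        show _ = (g : G) * (h : G)
        rw [hg, hh]
        group)
    filter_upwards [claim wg mh hmhΛ, hlam mg hmgΛ _ hc] with n e1 e2
    show lam n (M _ (g * h : L).2) * FreeGroup.lift (u n) (W _ (g * h : L).2)
      = lam n mg * FreeGroup.lift (u n) wg * (lam n mh * FreeGroup.lift (u n) wh)
    rw [← h1, ← h2, e2, ← e1, map_mul]
    group
  · intro n l m w hm hl
    have hl' := hW (l : G) l.2
    obtain ⟨h1, h2⟩ := huniq m (M _ l.2) w (W _ l.2) hm (hM _ _) (by rw [← hl', ← hl])
    show lam n (M _ l.2) * FreeGroup.lift (u n) (W _ l.2) = _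
    rw [← h1, ← h2]

end Pool.Agent.Helper72CS
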