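import Pool.Agent.Helper72_CS.LSDefs

set_option autoImplicit false

open Set Filter Topology

noncomputable section

namespace Pool.Agent.Helper72CS

section expo

variable {A : Type} [NormedRing A] [NormedAlgebra ℂ A] [CompleteSpace A]

theorem hasSum_exp_tail (a : A) (k : ℕ) :
    HasSum (fun n => (((n + k).factorial : ℂ)⁻¹) • a ^ (n + k))
      (NormedSpace.exp a - ∑ i ∈ Finset.range k, ((i.factorial : ℂ)⁻¹) • a ^ i) :=
  (hasSum_nat_add_iff' k).2 (NormedSpace.exp_series_hasSum_exp' (𝕂 := ℂ) a)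

theorem exp_tail_le (a : A) (k : ℕ) (hk : 0 < k) :
    ‖NormedSpace.exp a - ∑ i ∈ Finset.range k, ((i.factorial : ℂ)⁻¹) • a ^ i‖ ≤
      ‖a‖ ^ k * Real.exp ‖a‖ := by
  have h1 : HasSum (fun n : ℕ => ‖a‖ ^ k * (‖a‖ ^ n / (n.factorial : ℝ)))
      (‖a‖ ^ k * Real.exp ‖a‖) := by
    refine HasSum.mul_left _ ?_
    have := NormedSpace.expSeries_div_hasSum_exp (𝔸 := ℝ) ‖a‖
    rwa [← Real.exp_eq_exp_ℝ] at this
  refine (hasSum_exp_tail a k).norm_le_of_bounded h1 fun n => ?_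
  rw [norm_smul, norm_inv, Complex.norm_natCast]
  have h2 : ‖a ^ (n + k)‖ ≤ ‖a‖ ^ (n + k) := norm_pow_le' a (by omega)
  have h3 : ((n.factorial : ℕ) : ℝ) ≤ (((n + k).factorial : ℕ) : ℝ) := by
    exact_mod_cast Nat.factorial_le (Nat.le_add_right n k)
  have h4 : (0 : ℝ) < ((n.factorial : ℕ) : ℝ) := by exact_mod_cast Nat.factorial_pos n
  calc (((n + k).factorial : ℝ))⁻¹ * ‖a ^ (n + k)‖
      ≤ ((n.factorial : ℝ))⁻¹ * ‖a‖ ^ (n + k) :=
        mul_le_mul (inv_anti₀ h4 h3) h2 (norm_nonneg _) (by positivity)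
    _ = ‖a‖ ^ k * (‖a‖ ^ n / (n.factorial : ℝ)) := by rw [pow_add]; ring

theorem exp_sub_one_le (a : A) : ‖NormedSpace.exp a - 1‖ ≤ ‖a‖ * Real.exp ‖a‖ := by
  have := exp_tail_le a 1 one_pos
  simpa using this

theorem exp_sub_one_sub_le (a : A) :
    ‖NormedSpace.exp a - 1 - a‖ ≤ ‖a‖ ^ 2 * Real.exp ‖a‖ := by
  have := exp_tail_le a 2 two_pos
  simpa [Finset.sum_range_succ, sub_sub] using this

end expo

section cstar

theorem norm_one_le' (D : Type) [CStarAlgebra D] : ‖(1 : D)‖ ≤ 1 := by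
  rcases subsingleton_or_nontrivial D with h | h
  · rw [Subsingleton.elim (1 : D) 0, norm_zero]; exact zero_le_one
  · rw [CStarRing.norm_one]

theorem norm_unitary_le {D : Type} [CStarAlgebra D] (U : unitary D) : ‖(U : D)‖ ≤ 1 := by
  rcases subsingleton_or_nontrivial D with h | h
  · rw [Subsingleton.elim (U : D) 0, norm_zero]; exact zero_le_one
  · rw [CStarRing.norm_coe_unitary]

/-- A polynomial is Lipschitz on the unit ball, with a constant which does not depend on the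
algebra. -/
theorem aeval_close (P : Polynomial ℂ) : ∃ K : ℝ, 0 ≤ K ∧ ∀ (D : Type) [CStarAlgebra D]
    (C C' : D), ‖C‖ ≤ 1 → ‖C'‖ ≤ 1 →
      ‖Polynomial.aeval C P - Polynomial.aeval C' P‖ ≤ K * ‖C - C'‖ := by
  induction P using Polynomial.induction_on with
  | C a => exact ⟨0, le_rfl, fun D _ C C' _ _ => by simp⟩
  | add p q hp hq =>
    obtain ⟨K, hK, h⟩ := hp
    obtain ⟨L, hL, h'⟩ := hq
    refine ⟨K + L, by positivity, fun D _ C C' hC hC' => ?_⟩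
    rw [map_add, map_add, add_sub_add_comm, add_mul]
    exact (norm_add_le _ _).trans (add_le_add (h D C C' hC hC') (h' D C C' hC hC'))
  | monomial n a ih =>
    obtain ⟨K, hK, h⟩ := ih
    refine ⟨K + ‖a‖, by positivity, fun D _ C C' hC hC' => ?_⟩
    have e : Polynomial.aeval C (Polynomial.C a * Polynomial.X ^ (n + 1)) -
        Polynomial.aeval C' (Polynomial.C a * Polynomial.X ^ (n + 1)) =
        (Polynomial.aeval C (Polynomial.C a * Polynomial.X ^ n) -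
          Polynomial.aeval C' (Polynomial.C a * Polynomial.X ^ n)) * C +
        Polynomial.aeval C' (Polynomial.C a * Polynomial.X ^ n) * (C - C') := by
      simp only [map_mul, map_pow, Polynomial.aeval_C, Polynomial.aeval_X, pow_succ]
      noncomm_ring
    rw [e, add_mul]
    refine (norm_add_le _ _).trans (add_le_add ?_ ?_)
    · refine (norm_mul_le _ _).trans ?_
      calc _ ≤ (K * ‖C - C'‖) * 1 := mul_le_mul (h D C C' hC hC') hC (norm_nonneg _)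
            (by positivity)
        _ = _ := mul_one _
    · refine (norm_mul_le _ _).trans (mul_le_mul_of_nonneg_right ?_ (norm_nonneg _))
      simp only [map_mul, map_pow, Polynomial.aeval_C, Polynomial.aeval_X]
      rw [← Algebra.smul_def, norm_smul]
      have h1 : ‖C' ^ n‖ ≤ 1 := by
        rcases Nat.eq_zero_or_pos n with rfl | hn
        · rw [pow_zero]; exact norm_one_le' D
        · exact (norm_pow_le' C' hn).trans (pow_le_one₀ (norm_nonneg _) hC')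
      calc ‖a‖ * ‖C' ^ n‖ ≤ ‖a‖ * 1 := mul_le_mul_of_nonneg_left h1 (norm_nonneg _)
        _ = _ := mul_one _

/-- the product of the two exponentials in `al` -/
def MXY {D : Type} [CStarAlgebra D] (X Y : selfAdjoint D) (r v w : ℝ) : D :=
  (selfAdjoint.expUnitary ((r * v) • X) : D) * (selfAdjoint.expUnitary ((r * w) • Y) : D)

theorem al_eq {D : Type} [CStarAlgebra D] (X Y : selfAdjoint D) (ε r u v w : ℝ) :
    al X Y ε r u v w = Complex.exp (((ε * u : ℝ) : ℂ) * Complex.I) • MXY X Y r v w := rfl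

theorem norm_MXY_le {D : Type} [CStarAlgebra D] (X Y : selfAdjoint D) (r v w : ℝ) :
    ‖MXY X Y r v w‖ ≤ 1 := by
  refine (norm_mul_le _ _).trans ?_
  exact mul_le_one₀ (norm_unitary_le _) (norm_nonneg _) (norm_unitary_le _)

theorem norm_phase (t : ℝ) : ‖Complex.exp ((t : ℂ) * Complex.I)‖ = 1 :=
  Complex.norm_exp_ofReal_mul_I t

theorem norm_al_le {D : Type} [CStarAlgebra D] (X Y : selfAdjoint D) (ε r u v w : ℝ) :
    ‖al X Y ε r u v w‖ ≤ 1 := by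
  rw [al_eq, norm_smul, norm_phase, one_mul]
  exact norm_MXY_le X Y r v w

variable {D : Type} [CStarAlgebra D]

theorem expU_eq (X : selfAdjoint D) (s : ℝ) :
    (selfAdjoint.expUnitary (s • X) : D) = NormedSpace.exp ((Complex.I * (s : ℂ)) • (X : D)) := by
  rw [selfAdjoint.expUnitary_coe, selfAdjoint.val_smul, mul_smul]
  congr 2

theorem norm_arg (X : selfAdjoint D) (hX : ‖X‖ ≤ 1) {r v κ : ℝ} (hr : 0 < r) (hv : |v| ≤ κ) :
    ‖(Complex.I * ((r * v : ℝ) : ℂ)) • (X : D)‖ ≤ r * κ := by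
  rw [norm_smul, norm_mul, Complex.norm_I, one_mul, Complex.norm_real, Real.norm_eq_abs, abs_mul,
    abs_of_pos hr]
  have h1 : ‖(X : D)‖ ≤ 1 := hX
  calc r * |v| * ‖(X : D)‖ ≤ r * |v| * 1 := mul_le_mul_of_nonneg_left h1 (by positivity)
    _ = r * |v| := mul_one _
    _ ≤ r * κ := mul_le_mul_of_nonneg_left hv hr.le

theorem expU_sub_one (X : selfAdjoint D) (hX : ‖X‖ ≤ 1) {r v κ : ℝ} (hr : 0 < r) (hr1 : r ≤ 1)
    (hv : |v| ≤ κ) :
    ‖(selfAdjoint.expUnitary ((r * v) • X) : D) - 1‖ ≤ r * (κ * Real.exp κ) := by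
  have hκ : 0 ≤ κ := (abs_nonneg v).trans hv
  rw [expU_eq]
  have h1 := norm_arg X hX hr hv
  have h2 : r * κ ≤ κ := mul_le_of_le_one_left hκ hr1
  refine (exp_sub_one_le _).trans ?_
  calc _ ≤ (r * κ) * Real.exp κ := mul_le_mul h1 (Real.exp_le_exp.2 (h1.trans h2))
        (Real.exp_pos _).le (by positivity)
    _ = _ := by ring

theorem expU_sub_one_sub (X : selfAdjoint D) (hX : ‖X‖ ≤ 1) {r v κ : ℝ} (hr : 0 < r)
    (hr1 : r ≤ 1) (hv : |v| ≤ κ) :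
    ‖(selfAdjoint.expUnitary ((r * v) • X) : D) - 1 - (Complex.I * ((r * v : ℝ) : ℂ)) • (X : D)‖ ≤
      r ^ 2 * (κ ^ 2 * Real.exp κ) := by
  have hκ : 0 ≤ κ := (abs_nonneg v).trans hv
  rw [expU_eq]
  have h1 := norm_arg X hX hr hv
  have h2 : r * κ ≤ κ := mul_le_of_le_one_left hκ hr1
  refine (exp_sub_one_sub_le _).trans ?_
  calc _ ≤ (r * κ) ^ 2 * Real.exp κ := mul_le_mul (pow_le_pow_left₀ (norm_nonneg _) h1 2)
        (Real.exp_le_exp.2 (h1.trans h2)) (Real.exp_pos _).le (by positivity)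
    _ = _ := by ring

/-- first order estimate -/
theorem MXY_sub_one (X Y : selfAdjoint D) (hX : ‖X‖ ≤ 1) (hY : ‖Y‖ ≤ 1) {r v w κ : ℝ}
    (hr : 0 < r) (hr1 : r ≤ 1) (hv : |v| ≤ κ) (hw : |w| ≤ κ) :
    ‖MXY X Y r v w - 1‖ ≤ r * (2 * (κ * Real.exp κ)) := by
  have e : MXY X Y r v w - 1 = ((selfAdjoint.expUnitary ((r * v) • X) : D) - 1) *
      (selfAdjoint.expUnitary ((r * w) • Y) : D) +
      ((selfAdjoint.expUnitary ((r * w) • Y) : D) - 1) := by
    unfold MXY; noncomm_ring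
  rw [e]
  have h1 := expU_sub_one X hX hr hr1 hv
  have h2 := expU_sub_one Y hY hr hr1 hw
  have h3 := norm_unitary_le (selfAdjoint.expUnitary ((r * w) • Y))
  have hκ : 0 ≤ κ := (abs_nonneg v).trans hv
  refine (norm_add_le _ _).trans ?_
  have h4 : ‖((selfAdjoint.expUnitary ((r * v) • X) : D) - 1) *
      (selfAdjoint.expUnitary ((r * w) • Y) : D)‖ ≤ r * (κ * Real.exp κ) * 1 :=
    (norm_mul_le _ _).trans (mul_le_mul h1 h3 (norm_nonneg _) (by positivity))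
  linarith

/-- second order estimate -/
theorem MXY_sub (X Y : selfAdjoint D) (hX : ‖X‖ ≤ 1) (hY : ‖Y‖ ≤ 1) {r v w κ : ℝ}
    (hr : 0 < r) (hr1 : r ≤ 1) (hv : |v| ≤ κ) (hw : |w| ≤ κ) :
    ‖MXY X Y r v w - 1 - (Complex.I * ((r * v : ℝ) : ℂ)) • (X : D) -
      (Complex.I * ((r * w : ℝ) : ℂ)) • (Y : D)‖ ≤
      r ^ 2 * (2 * (κ ^ 2 * Real.exp κ) + (κ * Real.exp κ) ^ 2) := by
  have e : MXY X Y r v w - 1 - (Complex.I * ((r * v : ℝ) : ℂ)) • (X : D) -
      (Complex.I * ((r * w : ℝ) : ℂ)) • (Y : D) =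
      ((selfAdjoint.expUnitary ((r * v) • X) : D) - 1 -
        (Complex.I * ((r * v : ℝ) : ℂ)) • (X : D)) +
      ((selfAdjoint.expUnitary ((r * w) • Y) : D) - 1 -
        (Complex.I * ((r * w : ℝ) : ℂ)) • (Y : D)) +
      ((selfAdjoint.expUnitary ((r * v) • X) : D) - 1) *
        ((selfAdjoint.expUnitary ((r * w) • Y) : D) - 1) := by
    unfold MXY; noncomm_ring
  rw [e]
  have hκ : 0 ≤ κ := (abs_nonneg v).trans hv
  have h1 := expU_sub_one X hX hr hr1 hv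
  have h2 := expU_sub_one Y hY hr hr1 hw
  have h3 := expU_sub_one_sub X hX hr hr1 hv
  have h4 := expU_sub_one_sub Y hY hr hr1 hw
  have h5 : ‖((selfAdjoint.expUnitary ((r * v) • X) : D) - 1) *
        ((selfAdjoint.expUnitary ((r * w) • Y) : D) - 1)‖ ≤
      (r * (κ * Real.exp κ)) * (r * (κ * Real.exp κ)) :=
    (norm_mul_le _ _).trans (mul_le_mul h1 h2 (norm_nonneg _) (by positivity))
  refine (norm_add_le _ _).trans ((add_le_add ((norm_add_le _ _).trans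
    (add_le_add h3 h4)) h5).trans ?_)
  apply le_of_eq; ring

end cstar

section main

/-- distance of `aeval (al …) P` from the value of `P` at the phase -/
theorem aeval_al_close (P : Polynomial ℂ) (v w : ℝ) : ∃ K : ℝ, 0 ≤ K ∧ ∀ (ε u r : ℝ), 0 < r →
    r ≤ 1 → ∀ (D : Type) [CStarAlgebra D] (X Y : selfAdjoint D), ‖X‖ ≤ 1 → ‖Y‖ ≤ 1 →
      ‖Polynomial.aeval (al X Y ε r u v w) P - algebraMap ℂ D
        (P.eval (Complex.exp (((ε * u : ℝ) : ℂ) * Complex.I)))‖ ≤ K * r := by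
  obtain ⟨K, hK, h⟩ := aeval_close P
  obtain ⟨κ, hκ⟩ : ∃ κ, κ = max |v| |w| := ⟨_, rfl⟩
  have hv : |v| ≤ κ := hκ ▸ le_max_left _ _
  have hw : |w| ≤ κ := hκ ▸ le_max_right _ _
  have hκ0 : 0 ≤ κ := (abs_nonneg v).trans hv
  refine ⟨K * (2 * (κ * Real.exp κ)), by positivity, fun ε u r hr hr1 D _ X Y hX hY => ?_⟩
  set μ := Complex.exp (((ε * u : ℝ) : ℂ) * Complex.I) with hμ
  have hμ1 : ‖μ‖ = 1 := norm_phase _
  have e : algebraMap ℂ D (P.eval μ) = Polynomial.aeval (algebraMap ℂ D μ) P := by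
    rw [Polynomial.aeval_algebraMap_apply, Polynomial.coe_aeval_eq_eval]
  rw [e]
  have h1 : ‖algebraMap ℂ D μ‖ ≤ 1 := by
    rw [Algebra.algebraMap_eq_smul_one, norm_smul, hμ1, one_mul]
    exact norm_one_le' D
  refine (h D _ _ (norm_al_le X Y ε r u v w) h1).trans ?_
  have h2 : al X Y ε r u v w - algebraMap ℂ D μ = μ • (MXY X Y r v w - 1) := by
    rw [al_eq, Algebra.algebraMap_eq_smul_one, smul_sub]
  rw [h2, norm_smul, hμ1, one_mul, mul_assoc]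
  refine mul_le_mul_of_nonneg_left ?_ hK
  have := MXY_sub_one X Y hX hY hr hr1 hv hw
  linarith

theorem star_phase_smul {D : Type} [CStarAlgebra D] (X Y : selfAdjoint D) (ε r u v w : ℝ) :
    star (Complex.exp (((ε * u : ℝ) : ℂ) * Complex.I)) • al X Y ε r u v w = MXY X Y r v w := by
  rw [al_eq, smul_smul]
  have h : star (Complex.exp (((ε * u : ℝ) : ℂ) * Complex.I)) *
      Complex.exp (((ε * u : ℝ) : ℂ) * Complex.I) = 1 := by
    have h1 := norm_phase (ε * u)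
    have h2 := Complex.normSq_eq_conj_mul_self (z := Complex.exp (((ε * u : ℝ) : ℂ) * Complex.I))
    rw [Complex.normSq_eq_norm_sq, h1] at h2
    simpa using h2.symm
  rw [h, one_smul]

/-- TARGET 6 -/
theorem block_stab (ε ua va wa ub vb wb uh vh wh : ℝ) (ca cb : ℂ) (P : Polynomial ℂ)
    (hP : P.eval (Complex.exp (((ε * uh : ℝ) : ℂ) * Complex.I)) = 1)
    (h1 : ca * va + cb * vb = 1) (h2 : ca * wa + cb * wb = Complex.I) (δ : ℝ) (hδ : 0 < δ) :
    ∃ r₀ : ℝ, 0 < r₀ ∧ ∀ r : ℝ, 0 < r → r < r₀ → ∀ (D : Type) [CStarAlgebra D]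
      (X Y : selfAdjoint D), ‖X‖ ≤ 1 → ‖Y‖ ≤ 1 →
      ‖FF ca cb (Complex.exp (((ε * ua : ℝ) : ℂ) * Complex.I))
          (Complex.exp (((ε * ub : ℝ) : ℂ) * Complex.I)) P (al X Y ε r ua va wa)
          (al X Y ε r ub vb wb) (al X Y ε r uh vh wh) -
        (r : ℂ) • ((X : D) + Complex.I • (Y : D))‖ ≤ δ * r := by
  obtain ⟨K, hK, hKP⟩ := aeval_al_close P vh wh
  obtain ⟨κ, hκ⟩ : ∃ κ, κ = max (max |va| |wa|) (max |vb| |wb|) := ⟨_, rfl⟩
  have hva : |va| ≤ κ := hκ ▸ (le_max_left _ _).trans (le_max_left _ _)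
  have hwa : |wa| ≤ κ := hκ ▸ (le_max_right _ _).trans (le_max_left _ _)
  have hvb : |vb| ≤ κ := hκ ▸ (le_max_left _ _).trans (le_max_right _ _)
  have hwb : |wb| ≤ κ := hκ ▸ (le_max_right _ _).trans (le_max_right _ _)
  have hκ0 : 0 ≤ κ := (abs_nonneg va).trans hva
  obtain ⟨k2, hk2⟩ : ∃ k2, k2 = 2 * (κ ^ 2 * Real.exp κ) + (κ * Real.exp κ) ^ 2 := ⟨_, rfl⟩
  have hk20 : 0 ≤ k2 := by rw [hk2]; positivity
  obtain ⟨k3, hk3⟩ : ∃ k3, k3 = (‖ca‖ + ‖cb‖) * k2 := ⟨_, rfl⟩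
  have hk30 : 0 ≤ k3 := by rw [hk3]; positivity
  obtain ⟨L, hL⟩ : ∃ L, L = k3 + (2 + k3) * K + K ^ 2 := ⟨_, rfl⟩
  have hL0 : 0 ≤ L := by rw [hL]; positivity
  refine ⟨min 1 (δ / (L + 1)), lt_min one_pos (by positivity), ?_⟩
  intro r hr hr0 D _ X Y hX hY
  have hr1 : r ≤ 1 := (hr0.trans_le (min_le_left _ _)).le
  have hr2 : r * (L + 1) ≤ δ := by
    have := (hr0.trans_le (min_le_right _ _)).le
    rwa [le_div_iff₀ (by positivity)] at this
  unfold FF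
  rw [star_phase_smul, star_phase_smul]
  obtain ⟨T, hT⟩ : ∃ T, T = Polynomial.aeval (al X Y ε r uh vh wh) P - 1 := ⟨_, rfl⟩
  have hTn : ‖T‖ ≤ K * r := by
    have := hKP ε uh r hr hr1 D X Y hX hY
    rw [hP, map_one, ← hT] at this
    exact this
  have hQ : Polynomial.aeval (al X Y ε r uh vh wh) P = 1 + T := by rw [hT]; abel
  rw [hQ]
  obtain ⟨Ra, hRa⟩ : ∃ Ra, Ra = MXY X Y r va wa - 1 -
    (Complex.I * ((r * va : ℝ) : ℂ)) • (X : D) - (Complex.I * ((r * wa : ℝ) : ℂ)) • (Y : D) :=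
    ⟨_, rfl⟩
  obtain ⟨Rb, hRb⟩ : ∃ Rb, Rb = MXY X Y r vb wb - 1 -
    (Complex.I * ((r * vb : ℝ) : ℂ)) • (X : D) - (Complex.I * ((r * wb : ℝ) : ℂ)) • (Y : D) :=
    ⟨_, rfl⟩
  have hRan : ‖Ra‖ ≤ r ^ 2 * k2 := by
    rw [hRa, hk2]; exact MXY_sub X Y hX hY hr hr1 hva hwa
  have hRbn : ‖Rb‖ ≤ r ^ 2 * k2 := by
    rw [hRb, hk2]; exact MXY_sub X Y hX hY hr hr1 hvb hwb
  have ea : MXY X Y r va wa - 1 = Ra + (Complex.I * ((r * va : ℝ) : ℂ)) • (X : D) +
      (Complex.I * ((r * wa : ℝ) : ℂ)) • (Y : D) := by rw [hRa]; abel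
  have eb : MXY X Y r vb wb - 1 = Rb + (Complex.I * ((r * vb : ℝ) : ℂ)) • (X : D) +
      (Complex.I * ((r * wb : ℝ) : ℂ)) • (Y : D) := by rw [hRb]; abel
  rw [ea, eb]
  obtain ⟨R, hR⟩ : ∃ R : D, R = (ca * -Complex.I) • Ra + (cb * -Complex.I) • Rb := ⟨_, rfl⟩
  obtain ⟨Z, hZ⟩ : ∃ Z : D, Z = (r : ℂ) • ((X : D) + Complex.I • (Y : D)) := ⟨_, rfl⟩
  have hS : (ca * -Complex.I) • (Ra + (Complex.I * ((r * va : ℝ) : ℂ)) • (X : D) +
        (Complex.I * ((r * wa : ℝ) : ℂ)) • (Y : D)) +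
      (cb * -Complex.I) • (Rb + (Complex.I * ((r * vb : ℝ) : ℂ)) • (X : D) +
        (Complex.I * ((r * wb : ℝ) : ℂ)) • (Y : D)) = R + Z := by
    rw [hR, hZ]
    simp only [smul_add, smul_smul]
    have e1 : ca * -Complex.I * (Complex.I * ((r * va : ℝ) : ℂ)) = (r : ℂ) * (ca * va) := by
      push_cast
      linear_combination (-ca * r * va) * Complex.I_sq
    have e2 : ca * -Complex.I * (Complex.I * ((r * wa : ℝ) : ℂ)) = (r : ℂ) * (ca * wa) := by
      push_cast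
      linear_combination (-ca * r * wa) * Complex.I_sq
    have e3 : cb * -Complex.I * (Complex.I * ((r * vb : ℝ) : ℂ)) = (r : ℂ) * (cb * vb) := by
      push_cast
      linear_combination (-cb * r * vb) * Complex.I_sq
    have e4 : cb * -Complex.I * (Complex.I * ((r * wb : ℝ) : ℂ)) = (r : ℂ) * (cb * wb) := by
      push_cast
      linear_combination (-cb * r * wb) * Complex.I_sq
    rw [e1, e2, e3, e4]
    have f1 : ((r : ℂ) * (ca * va)) • (X : D) + ((r : ℂ) * (cb * vb)) • (X : D) =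
        (r : ℂ) • (X : D) := by
      rw [← add_smul, ← mul_add, h1, mul_one]
    have f2 : ((r : ℂ) * (ca * wa)) • (Y : D) + ((r : ℂ) * (cb * wb)) • (Y : D) =
        ((r : ℂ) * Complex.I) • (Y : D) := by
      rw [← add_smul, ← mul_add, h2]
    rw [← f1, ← f2]
    abel
  rw [hS]
  have hRn : ‖R‖ ≤ r ^ 2 * k3 := by
    rw [hR, hk3]
    refine (norm_add_le _ _).trans ?_
    rw [norm_smul, norm_smul, norm_mul, norm_mul, norm_neg, Complex.norm_I, mul_one, mul_one]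
    have g1 := mul_le_mul_of_nonneg_left hRan (norm_nonneg ca)
    have g2 := mul_le_mul_of_nonneg_left hRbn (norm_nonneg cb)
    calc _ ≤ ‖ca‖ * (r ^ 2 * k2) + ‖cb‖ * (r ^ 2 * k2) := add_le_add g1 g2
      _ = _ := by ring
  have hZn : ‖Z‖ ≤ r * 2 := by
    rw [hZ, norm_smul, Complex.norm_real, Real.norm_eq_abs, abs_of_pos hr]
    refine mul_le_mul_of_nonneg_left ?_ hr.le
    refine (norm_add_le _ _).trans ?_
    rw [norm_smul, Complex.norm_I, one_mul]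
    have g1 : ‖(X : D)‖ ≤ 1 := hX
    have g2 : ‖(Y : D)‖ ≤ 1 := hY
    linarith
  rw [← hZ]
  have hfin : (R + Z) * (1 + T) + (1 - (1 + T)) * (1 - (1 + T)) - Z =
      R + (R + Z) * T + T * T := by noncomm_ring
  rw [hfin]
  have hr2' : r ^ 2 ≤ r := by nlinarith
  have hRZ : ‖R + Z‖ ≤ r * (2 + k3) := by
    refine (norm_add_le _ _).trans ?_
    nlinarith
  have g3 : ‖(R + Z) * T‖ ≤ (r * (2 + k3)) * (K * r) :=
    (norm_mul_le _ _).trans (mul_le_mul hRZ hTn (norm_nonneg _) (by positivity))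
  have g4 : ‖T * T‖ ≤ (K * r) * (K * r) :=
    (norm_mul_le _ _).trans (mul_le_mul hTn hTn (norm_nonneg _) (by positivity))
  calc _ ≤ ‖R‖ + ‖(R + Z) * T‖ + ‖T * T‖ := norm_add₃_le
    _ ≤ r ^ 2 * k3 + (r * (2 + k3)) * (K * r) + (K * r) * (K * r) := by linarith
    _ = r * (r * L) := by rw [hL]; ring
    _ ≤ r * δ := mul_le_mul_of_nonneg_left (by nlinarith) hr.le
    _ = δ * r := mul_comm _ _

/-- TARGET 7 (`μa μb` are arbitrary numbers of modulus `1` here) -/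
theorem block_non (ε ua va wa ub vb wb uh vh wh : ℝ) (ca cb μa μb : ℂ) (hμa : ‖μa‖ = 1)
    (hμb : ‖μb‖ = 1) (P : Polynomial ℂ)
    (hP : P.eval (Complex.exp (((ε * uh : ℝ) : ℂ) * Complex.I)) = 0) (δ : ℝ) (hδ : 0 < δ) :
    ∃ r₀ : ℝ, 0 < r₀ ∧ ∀ r : ℝ, 0 < r → r < r₀ → ∀ (D : Type) [CStarAlgebra D]
      (X Y : selfAdjoint D), ‖X‖ ≤ 1 → ‖Y‖ ≤ 1 →
      ‖FF ca cb μa μb P (al X Y ε r ua va wa) (al X Y ε r ub vb wb) (al X Y ε r uh vh wh) - 1‖ ≤
        δ := by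
  obtain ⟨K, hK, hKP⟩ := aeval_al_close P vh wh
  obtain ⟨s0, hs0⟩ : ∃ s0, s0 = 2 * (‖ca‖ + ‖cb‖) := ⟨_, rfl⟩
  have hs00 : 0 ≤ s0 := by rw [hs0]; positivity
  obtain ⟨L, hL⟩ : ∃ L, L = s0 * K + 2 * K + K ^ 2 := ⟨_, rfl⟩
  have hL0 : 0 ≤ L := by rw [hL]; positivity
  refine ⟨min 1 (δ / (L + 1)), lt_min one_pos (by positivity), ?_⟩
  intro r hr hr0 D _ X Y hX hY
  have hr1 : r ≤ 1 := (hr0.trans_le (min_le_left _ _)).le
  have hr2 : r * (L + 1) ≤ δ := by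
    have := (hr0.trans_le (min_le_right _ _)).le
    rwa [le_div_iff₀ (by positivity)] at this
  unfold FF
  obtain ⟨Q, hQ⟩ : ∃ Q, Q = Polynomial.aeval (al X Y ε r uh vh wh) P := ⟨_, rfl⟩
  have hQn : ‖Q‖ ≤ K * r := by
    have := hKP ε uh r hr hr1 D X Y hX hY
    rw [hP, map_zero, sub_zero, ← hQ] at this
    exact this
  rw [← hQ]
  obtain ⟨S, hS⟩ : ∃ S : D, S = (ca * -Complex.I) • (star μa • al X Y ε r ua va wa - 1) +
    (cb * -Complex.I) • (star μb • al X Y ε r ub vb wb - 1) := ⟨_, rfl⟩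
  rw [← hS]
  have hone := norm_one_le' D
  have key : ∀ (c μ : ℂ) (A : D), ‖μ‖ = 1 → ‖A‖ ≤ 1 →
      ‖(c * -Complex.I) • (star μ • A - 1)‖ ≤ 2 * ‖c‖ := by
    intro c μ A hμ hA
    rw [norm_smul, norm_mul, norm_neg, Complex.norm_I, mul_one]
    have g : ‖star μ • A - 1‖ ≤ 2 := by
      refine (norm_sub_le _ _).trans ?_
      rw [norm_smul, norm_star, hμ, one_mul]
      linarith
    calc ‖c‖ * ‖star μ • A - 1‖ ≤ ‖c‖ * 2 := mul_le_mul_of_nonneg_left g (norm_nonneg _)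
      _ = 2 * ‖c‖ := mul_comm _ _
  have hSn : ‖S‖ ≤ s0 := by
    rw [hS, hs0]
    refine (norm_add_le _ _).trans ?_
    have g1 := key ca μa _ hμa (norm_al_le X Y ε r ua va wa)
    have g2 := key cb μb _ hμb (norm_al_le X Y ε r ub vb wb)
    linarith
  have hfin : S * Q + (1 - Q) * (1 - Q) - 1 = S * Q - 2 * Q + Q * Q := by noncomm_ring
  rw [hfin]
  have g1 : ‖S * Q‖ ≤ s0 * (K * r) :=
    (norm_mul_le _ _).trans (mul_le_mul hSn hQn (norm_nonneg _) hs00)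
  have g2 : ‖Q * Q‖ ≤ (K * r) * (K * r) :=
    (norm_mul_le _ _).trans (mul_le_mul hQn hQn (norm_nonneg _) (by positivity))
  have g3 : ‖2 * Q‖ ≤ 2 * (K * r) := by
    rw [two_mul]
    refine (norm_add_le _ _).trans ?_
    linarith
  have g4 : ‖S * Q - 2 * Q + Q * Q‖ ≤ ‖S * Q‖ + ‖2 * Q‖ + ‖Q * Q‖ :=
    (norm_add_le _ _).trans (add_le_add (norm_sub_le _ _) le_rfl)
  refine g4.trans ?_
  have hr2' : r * r ≤ r := by nlinarith
  have g5 : (K * r) * (K * r) ≤ K ^ 2 * r := by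
    calc (K * r) * (K * r) = K ^ 2 * (r * r) := by ring
      _ ≤ K ^ 2 * r := mul_le_mul_of_nonneg_left hr2' (by positivity)
  calc ‖S * Q‖ + ‖2 * Q‖ + ‖Q * Q‖ ≤ s0 * (K * r) + 2 * (K * r) + K ^ 2 * r := by linarith
    _ = r * L := by rw [hL]; ring
    _ ≤ δ := by nlinarith

end main

end Pool.Agent.Helper72CS
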