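import Mathlib

/-!
An exhausting chain of finite subgroups of a locally finite normal subgroup.
-/

set_option autoImplicit false

noncomputable section

namespace Pool.Agent.Helper72CS

theorem exists_chain {G : Type} [Group G] [Countable G] (Λ : Subgroup G) [Λ.Normal]
    (hΛ : ∀ S : Set G, S.Finite → S ⊆ Λ → (Subgroup.closure S : Set G).Finite)
    {X : Type} (f : X → G) (c : X → ℕ) (hc : Function.Injective c) :
    ∃ E : ℕ → Subgroup G, (∀ n, Finite (E n)) ∧ (∀ n, E n ≤ E (n + 1)) ∧ (∀ n, E n ≤ Λ) ∧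
      (∀ g ∈ Λ, ∃ n, g ∈ E n) ∧
      ∀ n x, c x ≤ n → (∀ m ∈ E n, f x * m * (f x)⁻¹ ∈ E (n + 1)) ∧
        (∀ m ∈ E n, (f x)⁻¹ * m * f x ∈ E (n + 1)) := by
  classical
  obtain ⟨e, he⟩ := exists_surjective_nat Λ
  have hnor : Λ.Normal := inferInstance
  have step : ∀ (n : ℕ) (H : {H : Subgroup G // (H : Set G).Finite ∧ H ≤ Λ}),
      ∃ H' : {H : Subgroup G // (H : Set G).Finite ∧ H ≤ Λ}, H.1 ≤ H'.1 ∧ (e n : G) ∈ H'.1 ∧
        ∀ x, c x ≤ n → (∀ m ∈ H.1, f x * m * (f x)⁻¹ ∈ H'.1) ∧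
          (∀ m ∈ H.1, (f x)⁻¹ * m * f x ∈ H'.1) := by
    rintro n ⟨H, hfin, hle⟩
    let S : Set G := (H : Set G) ∪ {(e n : G)} ∪ ⋃ x ∈ {x : X | c x ≤ n},
      ((fun m => f x * m * (f x)⁻¹) '' (H : Set G) ∪ (fun m => (f x)⁻¹ * m * f x) '' (H : Set G))
    have hX : {x : X | c x ≤ n}.Finite := by
      have h1 : {x : X | c x ≤ n} = c ⁻¹' (Set.Iic n) := rfl
      rw [h1]
      exact (Set.finite_Iic n).preimage hc.injOn
    have hS : S.Finite := by
      refine (hfin.union (Set.finite_singleton _)).union ?_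
      exact hX.biUnion fun x _ => (hfin.image _).union (hfin.image _)
    have hSΛ : S ⊆ Λ := by
      intro g hg
      rcases hg with (hg | hg) | hg
      · exact hle hg
      · rw [Set.mem_singleton_iff.1 hg]
        exact (e n).2
      · rw [Set.mem_iUnion₂] at hg
        obtain ⟨x, _, hg⟩ := hg
        rcases hg with ⟨m, hm, rfl⟩ | ⟨m, hm, rfl⟩
        · exact hnor.conj_mem m (hle hm) (f x)
        · have := hnor.conj_mem m (hle hm) (f x)⁻¹
          simpa using this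
    refine ⟨⟨Subgroup.closure S, hΛ S hS hSΛ, (Subgroup.closure_le Λ).2 hSΛ⟩, ?_, ?_, ?_⟩
    · intro g hg
      exact Subgroup.subset_closure (Or.inl (Or.inl hg))
    · exact Subgroup.subset_closure (Or.inl (Or.inr rfl))
    · intro x hx
      constructor
      · intro m hm
        refine Subgroup.subset_closure (Or.inr ?_)
        exact Set.mem_iUnion₂.2 ⟨x, hx, Or.inl ⟨m, hm, rfl⟩⟩
      · intro m hm
        refine Subgroup.subset_closure (Or.inr ?_)
        exact Set.mem_iUnion₂.2 ⟨x, hx, Or.inr ⟨m, hm, rfl⟩⟩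
  choose F hF1 hF2 hF3 using step
  let E : ℕ → {H : Subgroup G // (H : Set G).Finite ∧ H ≤ Λ} := fun n =>
    Nat.rec ⟨⊥, by simp, bot_le⟩ (fun n H => F n H) n
  refine ⟨fun n => (E n).1, fun n => (E n).2.1.to_subtype, ?_, fun n => (E n).2.2, ?_, ?_⟩
  · intro n
    exact hF1 n (E n)
  · intro g hg
    obtain ⟨n, hn⟩ := he ⟨g, hg⟩
    refine ⟨n + 1, ?_⟩
    have := hF2 n (E n)
    rw [hn] at this
    exact this
  · intro n x hx
    exact hF3 n (E n) x hx

end Pool.Agent.Helper72CS
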