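import Mathlib

/-!
JOB finite_of_chars: two facts about characters of countable groups.
-/

set_option autoImplicit false

open Filter Topology

noncomputable section

namespace Pool.Agent.Helper72CS

/-- A pigeonhole principle for infinite families of characters. -/
theorem pigeon {N : Type} [Group N] {I : Type} [Infinite I] (f : I → (N →* Circle)) (T : Finset N)
    {ε : ℝ} (hε : 0 < ε) :
    ∃ J : Set I, J.Infinite ∧ ∀ i ∈ J, ∀ j ∈ J, ∀ t ∈ T, dist (f i t) (f j t) < ε := by
  let g : I → (T → Circle) := fun i t => f i t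
  obtain ⟨s, -, hs, hcov⟩ := (isCompact_univ : IsCompact (Set.univ : Set (T → Circle))).finite_cover_balls
    (half_pos hε)
  have hc : ∀ i, ∃ x ∈ s, dist (g i) x < ε / 2 := by
    intro i
    have := hcov (Set.mem_univ (g i))
    simp only [Set.mem_iUnion, Metric.mem_ball, exists_prop] at this
    exact this
  choose c hc1 hc2 using hc
  have := hs.to_subtype
  obtain ⟨y, hy⟩ := Finite.exists_infinite_fiber (fun i => (⟨c i, hc1 i⟩ : s))
  refine ⟨(fun i => (⟨c i, hc1 i⟩ : s)) ⁻¹' {y}, Set.infinite_coe_iff.1 hy, ?_⟩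
  intro i hi j hj t ht
  have hi' : c i = y.1 := congrArg Subtype.val hi
  have hj' : c j = y.1 := congrArg Subtype.val hj
  have h1 : dist (g i) (g j) < ε := by
    calc dist (g i) (g j) ≤ dist (g i) y.1 + dist (g j) y.1 := dist_triangle_right _ _ _
      _ < ε / 2 + ε / 2 := by
        have := hc2 i
        have := hc2 j
        rw [hi'] at *
        rw [hj'] at *
        linarith
      _ = ε := by ring
  exact lt_of_le_of_lt (dist_le_pi_dist (g i) (g j) ⟨t, ht⟩) h1

/-- A sequence of characters which gets close to `1` on larger and larger finite sets. -/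
theorem tendsto_of_close {N : Type} [Group N] [Countable N] (y : ℕ → N →* Circle) (e : ℕ → N)
    (he : Function.Surjective e)
    (h : ∀ j, ∀ i < j, dist (y j (e i)) 1 < 1 / ((j : ℝ) + 1)) (m : N) :
    Tendsto (fun j => ((y j m : Circle) : ℂ)) atTop (𝓝 1) := by
  obtain ⟨i, rfl⟩ := he m
  rw [tendsto_iff_dist_tendsto_zero]
  have h0 : Tendsto (fun j : ℕ => 1 / ((j : ℝ) + 1)) atTop (𝓝 0) :=
    tendsto_one_div_add_atTop_nhds_zero_nat
  refine squeeze_zero' (Eventually.of_forall fun j => dist_nonneg) ?_ h0
  filter_upwards [eventually_gt_atTop i] with j hj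
  exact (h j i hj).le

theorem dist_quot (a b : Circle) : dist (a * b⁻¹) 1 = dist a b := by
  have h : dist (a * b⁻¹ * b) (1 * b) = dist (a * b⁻¹) 1 := by
    show dist ((a * b⁻¹ * b : Circle) : ℂ) ((1 * b : Circle) : ℂ) = dist ((a * b⁻¹ : Circle) : ℂ) ((1 : Circle) : ℂ)
    rw [dist_eq_norm, dist_eq_norm, Circle.coe_mul (a * b⁻¹) b, Circle.coe_mul 1 b, ← sub_mul,
      norm_mul, Circle.norm_coe, mul_one]
  rw [← h]
  simp

/-- the map from `ℚ` to the circle -/
def ratCircle : ℚ →+ Additive Circle where
  toFun q := Additive.ofMul (Circle.exp (2 * Real.pi * q))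
  map_zero' := by simp
  map_add' p q := by
    rw [← ofMul_mul, ← Circle.exp_add]
    congr 2
    push_cast
    ring

/-- the embedding of the rational circle -/
def psi : AddCircle (1 : ℚ) →+ Additive Circle :=
  QuotientAddGroup.lift _ ratCircle (by
    intro q hq
    rw [AddSubgroup.mem_zmultiples_iff] at hq
    obtain ⟨n, rfl⟩ := hq
    show Additive.ofMul (Circle.exp (2 * Real.pi * ((n • (1 : ℚ) : ℚ) : ℝ))) = Additive.ofMul 1
    congr 1
    rw [Circle.exp_eq_one]
    exact ⟨n, by simp; ring⟩)

theorem psi_inj : Function.Injective psi := by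
  rw [injective_iff_map_eq_zero]
  intro x
  induction x using QuotientAddGroup.induction_on with | H q =>
  intro h
  have h1 : Circle.exp (2 * Real.pi * q) = 1 := h
  rw [Circle.exp_eq_one] at h1
  obtain ⟨n, hn⟩ := h1
  have h2 : (q : ℝ) = n := by
    have hpi := Real.pi_ne_zero
    have h3 : (2 * Real.pi) * (q : ℝ) = (2 * Real.pi) * n := by rw [hn]; ring
    exact mul_left_cancel₀ (by positivity) h3
  have h3 : q = n := by exact_mod_cast h2
  refine (QuotientAddGroup.eq_zero_iff q).2 ?_
  rw [AddSubgroup.mem_zmultiples_iff]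
  exact ⟨n, by simp [h3]⟩

/-- the circle valued character -/
def toC {A : Type} [CommGroup A] (c : CharacterModule (Additive A)) : A →* Circle where
  toFun a := (psi (c (Additive.ofMul a))).toMul
  map_one' := by
    have : c (Additive.ofMul (1 : A)) = 0 := map_zero c
    rw [this, map_zero]; rfl
  map_mul' a b := by
    have : c (Additive.ofMul (a * b)) = c (Additive.ofMul a) + c (Additive.ofMul b) :=
      map_add c _ _
    rw [this, map_add]; rfl

theorem inf_chars (B : Type) [AddCommGroup B] [Infinite B] : Infinite (CharacterModule B) := by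
  by_contra hfin
  rw [not_infinite_iff_finite] at hfin
  have hn : 0 < Nat.card (CharacterModule B) := Nat.card_pos
  have h1 : ∀ (c : CharacterModule B) (b : B), Nat.card (CharacterModule B) • c b = 0 := by
    intro c b
    have h2 : Nat.card (CharacterModule B) • c = 0 := card_nsmul_eq_zero'
    have h3 := congrArg (fun d : CharacterModule B => d b) h2
    exact h3
  have hf := (AddCircle.finite_torsion (1 : ℚ) hn).to_subtype
  let g : B → (CharacterModule B → {u : AddCircle (1 : ℚ) | Nat.card (CharacterModule B) • u = 0}) :=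
    fun b c => ⟨c b, h1 c b⟩
  have hg : Function.Injective g := by
    intro a b hab
    rw [← sub_eq_zero]
    apply CharacterModule.eq_zero_of_character_apply
    intro c
    have := congrArg Subtype.val (congrFun hab c)
    have h5 : c a = c b := this
    rw [map_sub, h5, sub_self]
  exact not_finite_iff_infinite.2 ‹Infinite B› (Finite.of_injective g hg)

/-- TARGET (prove the conjunction) -/
theorem chars_countable :
    (∀ (A : Type) [CommGroup A] [Countable A] (B : Subgroup A),
      (∀ χ : ℕ → A →* Circle, (∀ a, Tendsto (fun j => ((χ j a : Circle) : ℂ)) atTop (𝓝 1)) →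
        ∀ᶠ j in atTop, ∀ b ∈ B, χ j b = 1) → Finite B) ∧
    (∀ (N : Type) [Group N] [Countable N] (P : Subgroup (N →* Circle)),
      (P : Set (N →* Circle)).Infinite → ∀ F : Set (N →* Circle), F.Finite →
      ∃ y : ℕ → N →* Circle, (∀ j, y j ∈ P ∧ y j ∉ F) ∧
        ∀ m, Tendsto (fun j => ((y j m : Circle) : ℂ)) atTop (𝓝 1)) := by
  classical
  constructor
  · intro A _ _ B h
    by_contra hfin
    have hB : Infinite B := not_finite_iff_infinite.1 hfin
    have hI : Infinite (CharacterModule (Additive B)) := inf_chars _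
    let incl : Additive B →ₗ[ℤ] Additive A := (B.subtype.toAdditive).toIntLinearMap
    have hincl : Function.Injective incl := fun a b hab => Subtype.val_injective hab
    have hsurj := CharacterModule.dual_surjective_of_injective incl hincl
    choose ex hex using hsurj
    obtain ⟨e, he⟩ := exists_surjective_nat A
    have key : ∀ j : ℕ, ∃ χ : A →* Circle, (∀ i < j, dist (χ (e i)) 1 < 1 / ((j : ℝ) + 1)) ∧
        ¬ ∀ b ∈ B, χ b = 1 := by
      intro j
      obtain ⟨J, hJ, hd⟩ := pigeon (fun c => toC (ex c)) ((Finset.range j).image e)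
        (show (0 : ℝ) < 1 / ((j : ℝ) + 1) by positivity)
      obtain ⟨c, hc, c', hc', hne⟩ := hJ.nontrivial
      refine ⟨toC (ex c) * (toC (ex c'))⁻¹, ?_, ?_⟩
      · intro i hi
        have := hd c hc c' hc' (e i) (Finset.mem_image_of_mem _ (Finset.mem_range.2 hi))
        rw [MonoidHom.mul_apply, MonoidHom.inv_apply, dist_quot]
        exact this
      · intro hall
        apply hne
        rw [← hex c, ← hex c']
        ext b
        have h1 := hall (Additive.toMul b : B).1 (Additive.toMul b : B).2
        rw [MonoidHom.mul_apply, MonoidHom.inv_apply, mul_inv_eq_one] at h1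
        have h2 : psi (ex c (Additive.ofMul ((Additive.toMul b : B) : A)))
            = psi (ex c' (Additive.ofMul ((Additive.toMul b : B) : A))) := h1
        exact psi_inj h2
    choose χ h1 h2 using key
    obtain ⟨j, hj⟩ := (h χ (tendsto_of_close χ e he h1)).exists
    exact h2 j hj
  · intro N _ _ P hP F hF
    have hI : Infinite P := hP.to_subtype
    obtain ⟨e, he⟩ := exists_surjective_nat N
    have key : ∀ j : ℕ, ∃ y : N →* Circle, (y ∈ P ∧ y ∉ F) ∧
        ∀ i < j, dist (y (e i)) 1 < 1 / ((j : ℝ) + 1) := by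
      intro j
      obtain ⟨J, hJ, hd⟩ := pigeon (fun c : P => c.1) ((Finset.range j).image e)
        (show (0 : ℝ) < 1 / ((j : ℝ) + 1) by positivity)
      obtain ⟨z, hz⟩ := hJ.nonempty
      have hinj : Function.Injective (fun c : P => c.1 * z.1⁻¹) := by
        intro a b hab
        exact Subtype.ext (mul_right_cancel hab)
      have hinf : ((fun c : P => c.1 * z.1⁻¹) '' J).Infinite := hJ.image hinj.injOn
      obtain ⟨w, ⟨c, hc, rfl⟩, hw⟩ := hinf.exists_notMem_finite hF
      refine ⟨c.1 * z.1⁻¹, ⟨P.mul_mem c.2 (P.inv_mem z.2), hw⟩, ?_⟩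
      intro i hi
      have := hd c hc z hz (e i) (Finset.mem_image_of_mem _ (Finset.mem_range.2 hi))
      rw [MonoidHom.mul_apply, MonoidHom.inv_apply, dist_quot]
      exact this
    choose y h1 h2 using key
    exact ⟨y, h1, tendsto_of_close y e he h2⟩

end Pool.Agent.Helper72CS
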