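/-
HOW TO START: this file imports small modules which are on origin/main. Do
  cd /workdir/pool/outputs/live && git fetch && git checkout origin/main -- Pool/Agent/Helper72_CS Pool/Agent/Helper757/GL ; git reset -q
  mkdir -p /workdir/pool/Pool/Agent/Helper757 && cp -r Pool/Agent/Helper72_CS /workdir/pool/Pool/Agent/ && cp -r Pool/Agent/Helper757/GL /workdir/pool/Pool/Agent/Helper757/
  cd /workdir/pool && lake build Pool.Agent.Helper72_CS.LSDefs Pool.Agent.Helper72_CS.HubTop Pool.Agent.Helper72_CS.SolvComm Pool.Agent.Helper72_CS.IndexLemma Pool.Agent.Helper72_CS.OpRep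
(1-2 minutes). The definitions are in Pool/Agent/Helper72_CS/{Ind,Fam,Grp,LSDefs}.lean (short; read them first).
Note: inside the namespace, `continuous_pi` is another lemma; write `_root_.continuous_pi`.
-/
import Pool.Agent.Helper72_CS.Grp

/-!
JOB claimA: characters of a subgroup of finite index which are close to `1`.

Proof. Use `family` (module `Fam`) with `X = unitInterval`, `Y = Bool` (discrete), `i` = the two end points
(`i false = 0`, `i true = 1`), `K j = Unit`, `φ j l s = exp(i s arg (χ j l)) • 1` (scalar `1 × 1` matrices), where `arg` has values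
in `(-π, π]`: continuous in `s`, unitary, `φ j 1 s = 1`, equal to `1` at `s = 0` and to `χ j l` at `s = 1`. As
`χ j l → 1`, `arg (χ j l) → 0` and `φ j l s → 1` uniformly in `s`, for every `l`; this gives `hmul`. `ρ j false = 1`,
`ρ j true l = χ j l • 1`. For large `j` we get a continuous family `ψ s` (`s ∈ [0,1]`) of representations of `G` on
`MM (G ⧸ L) (MM Unit ℂ)`, `ψ 0 = Ind 1`, `ψ 1 = Ind (χ j)`. Let `m ∈ N`. By `Tor N` (apply it to `mapU (flat _ _)` composed with
`ψ s`) each `ψ s m` has finite order, so the trace of `flat (ψ s m)` is constant in `s` (`htr`). As `N` is normal and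
`N ≤ L`, `m • q = q` for all `q : G ⧸ L`, so `Ind 1 m = 1`, with trace `card`. So `flat (ψ 1 m)` is a unitary matrix with trace
`card`, so it is `1` (`h1`), `flat` is injective, so `Ind (χ j) m = 1`: `χ j (lc L m q) = 1` for all `q`. Take `q` the coset
of `1`: `lc L m q = r⁻¹ m r` with `r = rp L q ∈ L`, and `χ j (r⁻¹ m r) = χ j m`.
-/

set_option autoImplicit false

open Set Filter Topology

noncomputable section

namespace Pool.Agent.Helper72CS

/-- scalar matrices -/
def scU : Circle →* unitary (MM Unit ℂ) where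
  toFun z := ⟨(z : ℂ) • (1 : MM Unit ℂ), by
    have h1 : star ((z : ℂ) • (1 : MM Unit ℂ)) = (starRingEnd ℂ (z : ℂ)) • (1 : MM Unit ℂ) := by
      rw [star_smul, star_one]
      rfl
    have h2 : (starRingEnd ℂ (z : ℂ)) * (z : ℂ) = 1 := by
      rw [← Circle.coe_inv_eq_conj, ← Circle.coe_mul, inv_mul_cancel, Circle.coe_one]
    rw [Unitary.mem_iff, h1, smul_mul_smul_comm, smul_mul_smul_comm, one_mul, h2, mul_comm, h2,
      one_smul]
    exact ⟨rfl, rfl⟩⟩
  map_one' := by
    apply Subtype.ext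
    show ((1 : Circle) : ℂ) • (1 : MM Unit ℂ) = 1
    rw [Circle.coe_one, one_smul]
  map_mul' z w := by
    apply Subtype.ext
    show ((z * w : Circle) : ℂ) • (1 : MM Unit ℂ) = ((z : ℂ) • (1 : MM Unit ℂ)) * ((w : ℂ) • (1 : MM Unit ℂ))
    rw [Circle.coe_mul, smul_mul_smul_comm, one_mul]

theorem coe_scU (z : Circle) : (scU z : MM Unit ℂ) = (z : ℂ) • (1 : MM Unit ℂ) := rfl

theorem scU_eq_one {z : Circle} (h : (scU z : MM Unit ℂ) = 1) : z = 1 := by
  rw [coe_scU] at h
  have h1 := congrArg (fun M : MM Unit ℂ => M () ()) h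
  simp only [MM.smul_apply, MM.one_apply, if_true, smul_eq_mul, mul_one] at h1
  exact Circle.ext (by rw [h1, Circle.coe_one])

theorem circle_exp_sub (x y : ℝ) :
    ‖((Circle.exp x : Circle) : ℂ) - ((Circle.exp y : Circle) : ℂ)‖ ≤ |x - y| := by
  have h1 : ((Circle.exp x : Circle) : ℂ) - ((Circle.exp y : Circle) : ℂ) =
      ((Circle.exp y : Circle) : ℂ) * (Complex.exp (Complex.I * ((x - y : ℝ) : ℂ)) - 1) := by
    rw [Circle.coe_exp, Circle.coe_exp, mul_sub, mul_one, ← Complex.exp_add]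
    congr 2
    push_cast
    ring
  rw [h1, norm_mul, Circle.norm_coe, one_mul]
  exact Real.norm_exp_I_mul_ofReal_sub_one_le

/-- TARGET -/
theorem claimA
    (htr : ∀ (X n : Type) [TopologicalSpace X] [PreconnectedSpace X] [Fintype n] [DecidableEq n]
      (U : X → Matrix n n ℂ), Continuous U → (∀ x, ∃ e : ℕ, 0 < e ∧ U x ^ e = 1) →
      ∀ x y, (U x).trace = (U y).trace)
    (h1 : ∀ (n : Type) [Fintype n] [DecidableEq n] (U : Matrix n n ℂ),
      U ∈ unitary (Matrix n n ℂ) → U.trace = (Fintype.card n : ℂ) → U = 1)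
    {G : Type} [Group G] [Countable G] (hG : CStarStable G) (L : Subgroup G) [L.FiniteIndex]
    (N : Subgroup G) [N.Normal] (hNL : N ≤ L) (hN : Tor N) (χ : ℕ → L →* Circle)
    (hχ : ∀ l, Tendsto (fun j => ((χ j l : Circle) : ℂ)) atTop (𝓝 1)) :
    ∀ᶠ j in atTop, ∀ (m : G) (h : m ∈ N), χ j ⟨m, hNL h⟩ = 1 := by
  classical
  set a : ℕ → L → ℝ := fun j l => Complex.arg ((χ j l : Circle) : ℂ) with ha
  have ha0 : ∀ l, Tendsto (fun j => a j l) atTop (𝓝 0) := by
    intro l
    have h2 : ContinuousAt Complex.arg (1 : ℂ) :=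
      Complex.continuousAt_arg (by simp [Complex.slitPlane])
    have h3 := h2.tendsto.comp (hχ l)
    rw [Complex.arg_one] at h3
    exact h3
  let i : C(Bool, unitInterval) := ⟨fun b => if b then 1 else 0, continuous_of_discreteTopology⟩
  let φ : ∀ j : ℕ, L → unitInterval → MM Unit ℂ := fun j l s =>
    (scU (Circle.exp ((s : ℝ) * a j l)) : MM Unit ℂ)
  let ρ : ∀ j : ℕ, Bool → L →* unitary (MM Unit ℂ) := fun j y =>
    if y then scU.comp (χ j) else 1
  have hone : ∀ j (x : unitInterval), φ j 1 x = 1 := by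
    intro j x
    show (scU (Circle.exp ((x : ℝ) * a j 1)) : MM Unit ℂ) = 1
    have : a j 1 = 0 := by simp [a]
    rw [this, mul_zero, Circle.exp_zero, map_one]
    rfl
  have hmul : ∀ g h : L, ∀ ε : ℝ, 0 < ε → ∀ᶠ j in atTop, ∀ x,
      ‖φ j (g * h) x - φ j g x * φ j h x‖ ≤ ε := by
    intro g h ε hε
    have h2 : Tendsto (fun j => |a j (g * h) - (a j g + a j h)|) atTop (𝓝 0) := by
      have := ((ha0 (g * h)).sub ((ha0 g).add (ha0 h))).abs
      simpa using this
    filter_upwards [h2.eventually (gt_mem_nhds hε)] with j hj x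
    have h3 : φ j (g * h) x - φ j g x * φ j h x =
        (((Circle.exp ((x : ℝ) * a j (g * h)) : Circle) : ℂ) -
          ((Circle.exp ((x : ℝ) * a j g + (x : ℝ) * a j h) : Circle) : ℂ)) • (1 : MM Unit ℂ) := by
      show (scU (Circle.exp ((x : ℝ) * a j (g * h))) : MM Unit ℂ) -
        (scU (Circle.exp ((x : ℝ) * a j g)) : MM Unit ℂ) *
          (scU (Circle.exp ((x : ℝ) * a j h)) : MM Unit ℂ) = _
      rw [sub_smul, ← Submonoid.coe_mul, ← map_mul, ← Circle.exp_add, coe_scU, coe_scU]
    rw [h3, norm_smul, CStarRing.norm_one, mul_one]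
    refine (circle_exp_sub _ _).trans ?_
    have h4 : (x : ℝ) * a j (g * h) - ((x : ℝ) * a j g + (x : ℝ) * a j h) =
        (x : ℝ) * (a j (g * h) - (a j g + a j h)) := by ring
    rw [h4, abs_mul, abs_of_nonneg x.2.1]
    exact (mul_le_of_le_one_left (abs_nonneg _) x.2.2).trans hj.le
  have hρ : ∀ j l y, φ j l (i y) = ρ j y l := by
    intro j l y
    cases y with
    | false =>
      show (scU (Circle.exp (((0 : unitInterval) : ℝ) * a j l)) : MM Unit ℂ) = ((1 : unitary (MM Unit ℂ)) : MM Unit ℂ)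
      rw [Set.Icc.coe_zero, zero_mul, Circle.exp_zero, map_one]
    | true =>
      show (scU (Circle.exp (((1 : unitInterval) : ℝ) * a j l)) : MM Unit ℂ) = (scU (χ j l) : MM Unit ℂ)
      rw [Set.Icc.coe_one, one_mul, Circle.exp_arg]
  have hφc : ∀ j l, Continuous (φ j l) := by
    intro j l
    have : Continuous fun s : unitInterval =>
        (((Circle.exp ((s : ℝ) * a j l) : Circle) : ℂ) • (1 : MM Unit ℂ)) := by
      have h7 : Continuous fun s : unitInterval => ((Circle.exp ((s : ℝ) * a j l) : Circle) : ℂ) := by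
        fun_prop
      exact h7.smul (continuous_const (y := (1 : MM Unit ℂ)))
    exact this
  obtain ⟨ψ, hψc, hψe, -⟩ := family hG L i (fun _ => Unit) φ hφc
    (fun j l x => (scU (Circle.exp ((x : ℝ) * a j l))).2) hone hmul ρ hρ
  filter_upwards [hψe] with j hj m hm
  have hmq : ∀ q : G ⧸ L, m • q = q := by
    intro q
    induction q using QuotientGroup.induction_on with
    | H g =>
      show ((m * g : G) : G ⧸ L) = (g : G ⧸ L)
      rw [eq_comm, QuotientGroup.eq, ← mul_assoc]
      have h5 := (inferInstance : N.Normal).conj_mem m hm g⁻¹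
      rw [inv_inv] at h5
      exact hNL h5
  have hperm : (MulAction.toPerm m : Equiv.Perm (G ⧸ L)) = 1 := by
    ext q
    exact hmq q
  have hU0 : (ψ j (i false) m : MM (G ⧸ L) (MM Unit ℂ)) = 1 := by
    rw [hj false m]
    show mono (MulAction.toPerm m) (fun q => ((1 : L →* unitary (MM Unit ℂ)) (lc L m q) : MM Unit ℂ)) = 1
    rw [hperm]
    exact mono_one
  have hte := htr unitInterval ((G ⧸ L) × Unit)
    (fun s => flat (G ⧸ L) Unit (ψ j s m : MM (G ⧸ L) (MM Unit ℂ)))
    (flat_continuous.comp (hψc j m)) (fun s => by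
      obtain ⟨e, he, he'⟩ := hN ((G ⧸ L) × Unit) ((mapU (flat (G ⧸ L) Unit)).comp (ψ j s)) m hm
      refine ⟨e, he, ?_⟩
      have h6 := congrArg (fun u : unitary (Matrix ((G ⧸ L) × Unit) ((G ⧸ L) × Unit) ℂ) =>
        (u : Matrix ((G ⧸ L) × Unit) ((G ⧸ L) × Unit) ℂ)) he'
      simpa [coe_mapU] using h6) (i true) (i false)
  simp only [hU0, map_one, Matrix.trace_one] at hte
  have hU1 := h1 ((G ⧸ L) × Unit) (flat (G ⧸ L) Unit (ψ j (i true) m : MM (G ⧸ L) (MM Unit ℂ)))
    (mapU (flat (G ⧸ L) Unit) (ψ j (i true) m)).2 hte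
  rw [← map_one (flat (G ⧸ L) Unit)] at hU1
  have hU2 := flat_injective hU1
  rw [hj true m] at hU2
  set q : G ⧸ L := ((1 : G) : G ⧸ L) with hq
  have hU3 := congrArg (fun M : MM (G ⧸ L) (MM Unit ℂ) => M q q) hU2
  simp only [Ind_apply, MM.one_apply, hmq q, if_true] at hU3
  have hU4 : χ j (lc L m q) = 1 := scU_eq_one hU3
  have hr : rp L q ∈ L := by
    have := rp_mk L q
    rw [hq, eq_comm, QuotientGroup.eq, inv_one, one_mul] at this
    exact this
  have hlc : lc L m q = (⟨rp L q, hr⟩ : L)⁻¹ * (⟨m, hNL hm⟩ * ⟨rp L q, hr⟩) := by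
    apply Subtype.ext
    rw [coe_lc, hmq q]
    rfl
  rw [hlc, map_mul, map_mul, map_inv, mul_comm (χ j ⟨m, hNL hm⟩), inv_mul_cancel_left] at hU4
  exact hU4

end Pool.Agent.Helper72CS
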