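/-
HOW TO START: this file imports small modules which are on origin/main. Do
  cd /workdir/pool/outputs/live && git fetch && git checkout origin/main -- Pool/Agent/Helper72_CS Pool/Agent/Helper757/GL ; git reset -q
  mkdir -p /workdir/pool/Pool/Agent/Helper757 && cp -r Pool/Agent/Helper72_CS /workdir/pool/Pool/Agent/ && cp -r Pool/Agent/Helper757/GL /workdir/pool/Pool/Agent/Helper757/
  cd /workdir/pool && lake build Pool.Agent.Helper72_CS.LSDefs Pool.Agent.Helper72_CS.HubTop Pool.Agent.Helper72_CS.SolvComm Pool.Agent.Helper72_CS.IndexLemma Pool.Agent.Helper72_CS.OpRep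
(1-2 minutes). The definitions are in Pool/Agent/Helper72_CS/{Ind,Fam,Grp,LSDefs}.lean (short; read them first).
Note: inside the namespace, `continuous_pi` is another lemma; write `_root_.continuous_pi`.
-/
import Pool.Agent.Helper72_CS.Grp

/-!
JOB `cyclic_image`: the image of the homomorphism `x : K → ℝ` is cyclic.

Proof. Suppose not, for a contradiction. Fix `a₀ ∈ K` with `x a₀ ≠ 0` (`hne`). Let `Λ = {x a | a ∈ K}`, a countable subgroup of `ℝ`, contained
in `ℚ · x a₀` by `hrat`. Enumerate `K = {g_0, g_1, ...}` and let `Λ_n` be the subgroup generated by `x a₀, x g_0, ..., x g_n`. It is a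
f.g. subgroup of `ℚ · x a₀`, hence cyclic (f.g. torsion free of rank one; or contained in `ℤ · (x a₀ / N)`), generated by
some `x t_n`, `t_n ∈ K`, so `Λ_n ≠ Λ` (`Λ` is not cyclic). The circle is divisible, so there is a character of `Λ`, trivial on
`Λ_n` and nontrivial (characters separate the points of `Λ / Λ_n`); composing with `x`, we get `χ n : K →* Circle` with
`χ n a₀ = 1`, `χ n g_i = 1` for `i ≤ n`, and `χ n ≠ 1`. In particular `χ n l = 1` for `n` large, for every `l`. Also `χ n = 1` on `M`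
(`x = 0` there).
Use `family` (module `Fam`) with `L = K`, `X = unitInterval`, `Y = Bool`, `i` = the two end points, `K j = Unit`,
`φ j l s = exp(i s arg (χ j l)) • 1` (equal to `1` at `s = 0`, to `χ j l` at `s = 1`; unitary, continuous in `s`; for fixed `l` it is
identically `1` for `j` large, so `hmul` is clear). For a large `j`, fixed from now on, we get a continuous family `ψ s`
of representations of `G` on `MM (G ⧸ K) (MM Unit ℂ)` with `ψ 0 = Ind 1`, `ψ 1 = Ind (χ j)`, and
`‖ψ s a₀ - 1‖ ≤ 1/10` for all `s` (`Ind K (φ j · s) a₀` is the matrix with entries `φ j (lc K a₀ q) s` and it is `1` for `j` large, since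
`K` is normal so `a₀ • q = q`, and there are finitely many `q`, so `φ j (lc K a₀ q) s = 1` for all `q`, `s`, for `j` large).
 * For `m ∈ M`: each `ψ s m` has finite order (`Tor M`, applied to `mapU (flat _ _)` composed with `ψ s`), so
   `trace (flat (ψ s m))` is constant in `s` (`htr`), equal to `card` (`Ind 1 m = 1`, as `K` is normal), so `ψ s m = 1` (`h1`, `flat_injective`).
 * For `a b ∈ K`, `a b a⁻¹ b⁻¹ ∈ M` (`x` is a hom), so `ψ s a` and `ψ s b` commute.
 * Let `𝒜 = C(unitInterval, MM (G ⧸ K) (MM Unit ℂ))`, a C*-algebra; `U a = (s ↦ ψ s a)` is a unitary of `𝒜` for `a ∈ K`. Let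
   `Z = Unitary.argSelfAdjoint (U a₀)`, so `expUnitary Z = U a₀` (`‖U a₀ - 1‖ < 2`), and `Z` commutes with all `U a`, `a ∈ K` (it is
   in the algebra generated by `U a₀`; continuous functional calculus, `Commute.cfc...`). Let `a ∈ K`, `N x a = k x a₀`, `N > 0` (`hrat`). Then
   `a^N a₀^(-k) ∈ M`, so `(U a)^N = (U a₀)^k`, and `R = U a * exp(-i (k/N) Z)` satisfies `R^N = 1`. So the trace of `flat (R s)` is constant in
   `s`. At `s = 0`: `U a₀` and `U a` are `1` (`Ind 1`, `K` normal), so `exp(i Z(0)) = 1` with `‖Z 0‖ < π`, so `Z 0 = 0` (e.g.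
   `argSelfAdjoint_expUnitary`) and `R 0 = 1`. So `R 1 = 1` (`h1`). At `s = 1`: `ψ 1 a₀ = Ind (χ j) a₀ = 1` (`j` large), so again `Z 1 = 0`, and
   `ψ 1 a = R 1 = 1`. So `Ind (χ j) a = 1` for all `a ∈ K`, and (the diagonal entry at the coset of `1`) `χ j a = 1` for all
   `a ∈ K`, a contradiction.
 (Any other way to extract the `N`-th root is fine, e.g. `exp` and `log` by power series in the C*-algebra.)
-/

set_option autoImplicit false

open Set Filter Topology

noncomputable section

namespace Pool.Agent.Helper72CS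

/-- one-parameter groups of unitaries -/
theorem cyclic_image_exp {A : Type} [CStarAlgebra A] (Z : selfAdjoint A) (N : ℕ) (k : ℤ)
    (hN : 0 < N) :
    (selfAdjoint.expUnitary ((-((k : ℝ) / N)) • Z)) ^ N = (selfAdjoint.expUnitary Z ^ k)⁻¹ := by
  have hadd : ∀ s t : ℝ, selfAdjoint.expUnitary ((s + t) • Z) =
      selfAdjoint.expUnitary (s • Z) * selfAdjoint.expUnitary (t • Z) := by
    intro s t
    rw [add_smul]
    apply Commute.expUnitary_add
    rw [selfAdjoint.val_smul, selfAdjoint.val_smul]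
    exact ((Commute.refl (Z : A)).smul_left s).smul_right t
  let E : Multiplicative ℝ →* unitary A :=
    { toFun := fun t => selfAdjoint.expUnitary (t.toAdd • Z)
      map_one' := by
        show selfAdjoint.expUnitary ((0 : ℝ) • Z) = 1
        rw [zero_smul, selfAdjoint.expUnitary_zero]
      map_mul' := fun s t => hadd _ _ }
  have hE : ∀ t : ℝ, selfAdjoint.expUnitary (t • Z) = E (Multiplicative.ofAdd t) := fun t => rfl
  have hN0 : (N : ℝ) ≠ 0 := by
    have : (0 : ℝ) < N := by exact_mod_cast hN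
    exact this.ne'
  have h1 : selfAdjoint.expUnitary Z = E (Multiplicative.ofAdd 1) := by
    rw [← hE, one_smul]
  rw [h1, hE, ← map_pow, ← map_zpow, ← map_inv, ← ofAdd_nsmul, ← ofAdd_zsmul, ← ofAdd_neg]
  congr 2
  simp
  field_simp

/-- extraction of a root -/
theorem cyclic_image_root {A : Type} [CStarAlgebra A] (u w : unitInterval → unitary A)
    (hu : Continuous u) (hw : Continuous w) (hws : ∀ s, ‖(w s : A) - 1‖ ≤ 1 / 10)
    (hc : ∀ s, Commute (u s) (w s)) (N : ℕ) (hN : 0 < N) (k : ℤ)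
    (hk : ∀ s, u s ^ N = w s ^ k) (hw0 : w 0 = 1) (hw1 : w 1 = 1) (hu0 : u 0 = 1)
    (hrig : ∀ r : unitInterval → unitary A, Continuous r → (∀ s, r s ^ N = 1) → r 0 = 1 →
      r 1 = 1) : u 1 = 1 := by
  set Z : unitInterval → selfAdjoint A := fun s => Unitary.argSelfAdjoint (w s) with hZ
  have hZe : ∀ s, selfAdjoint.expUnitary (Z s) = w s := fun s =>
    expUnitary_argSelfAdjoint ((hws s).trans_lt (by norm_num))
  have hZc : Continuous Z := by
    apply Unitary.continuousOn_argSelfAdjoint.comp_continuous hw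
    intro s
    rw [Metric.mem_ball, Subtype.dist_eq, dist_eq_norm]
    exact (hws s).trans_lt (by norm_num)
  have hZ1 : ∀ s, w s = 1 → Z s = 0 := by
    intro s hs
    have h0 : selfAdjoint.expUnitary (0 : selfAdjoint A) = w s := by
      rw [hs, selfAdjoint.expUnitary_zero]
    have h1 := argSelfAdjoint_expUnitary (x := (0 : selfAdjoint A))
      (by rw [norm_zero]; exact Real.pi_pos)
    rw [h0] at h1
    exact h1
  have hcomm : ∀ s, Commute (u s : A) (Z s : A) := by
    intro s
    have e1 : Commute (w s : A) (u s : A) := by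
      have := congrArg (Subtype.val) (hc s).eq
      exact this.symm
    have e2 : Commute (star (w s : A)) (u s : A) := by
      have h3 : Commute (w s)⁻¹ (u s) := (hc s).symm.inv_left
      have := congrArg (Subtype.val) h3.eq
      exact this
    have := Commute.cfc e1 e2 (fun z : ℂ => ((Complex.arg z : ℝ) : ℂ))
    exact this.symm
  set t : ℝ := -((k : ℝ) / N) with ht
  have hcomm2 : ∀ s, Commute (u s) (selfAdjoint.expUnitary (t • Z s)) := by
    intro s
    apply Subtype.ext
    show (u s : A) * (selfAdjoint.expUnitary (t • Z s) : A) =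
      (selfAdjoint.expUnitary (t • Z s) : A) * (u s : A)
    rw [selfAdjoint.expUnitary_coe, selfAdjoint.val_smul]
    let +nondep : NormedAlgebra ℚ A := .restrictScalars ℚ ℂ A
    have h1 : Commute (u s : A) (Complex.I • t • (Z s : A)) :=
      ((hcomm s).smul_right t).smul_right Complex.I
    exact h1.exp_right.eq
  have key := hrig (fun s => u s * selfAdjoint.expUnitary (t • Z s)) ?_ ?_ ?_
  · have h1 : Z 1 = 0 := hZ1 1 hw1
    simp only [h1, smul_zero, selfAdjoint.expUnitary_zero, mul_one] at key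
    exact key
  · exact hu.mul (selfAdjoint.continuous_expUnitary.comp (hZc.const_smul t))
  · intro s
    rw [(hcomm2 s).mul_pow, hk, cyclic_image_exp (Z s) N k hN, hZe, mul_inv_cancel]
  · have h1 : Z 0 = 0 := hZ1 0 hw0
    simp only [h1, smul_zero, selfAdjoint.expUnitary_zero, mul_one]
    exact hu0

/-- rigidity of families of unitaries of finite order -/
theorem cyclic_image_rig
    (htr : ∀ (X n : Type) [TopologicalSpace X] [PreconnectedSpace X] [Fintype n] [DecidableEq n]
      (U : X → Matrix n n ℂ), Continuous U → (∀ x, ∃ e : ℕ, 0 < e ∧ U x ^ e = 1) →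
      ∀ x y, (U x).trace = (U y).trace)
    (h1 : ∀ (n : Type) [Fintype n] [DecidableEq n] (U : Matrix n n ℂ),
      U ∈ unitary (Matrix n n ℂ) → U.trace = (Fintype.card n : ℂ) → U = 1)
    {Q : Type} [Fintype Q] [DecidableEq Q] (r : unitInterval → unitary (MM Q (MM Unit ℂ)))
    (hr : Continuous r) (he : ∀ s, ∃ e : ℕ, 0 < e ∧ flat Q Unit (r s) ^ e = 1) (h0 : r 0 = 1) :
    ∀ s, r s = 1 := by
  intro s
  have hc : Continuous fun s => flat Q Unit (r s) :=
    flat_continuous.comp (continuous_subtype_val.comp hr)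
  have h2 := htr unitInterval (Q × Unit) (fun s => flat Q Unit (r s)) hc he s 0
  have h3 : flat Q Unit ((r 0 : unitary (MM Q (MM Unit ℂ))) : MM Q (MM Unit ℂ)) = 1 := by
    rw [h0]
    exact map_one (flat Q Unit)
  rw [h3, Matrix.trace_one] at h2
  have h4 := h1 (Q × Unit) _ (mapU (flat Q Unit) (r s)).2 h2
  apply Subtype.ext
  apply flat_injective
  rw [← coe_mapU, h4]
  exact (map_one (flat Q Unit)).symm

/-- scalars as unitaries -/
def cyclic_image_sc : Circle →* unitary (MM Unit ℂ) where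
  toFun z := ⟨(z : ℂ) • (1 : MM Unit ℂ), by
    have hz : (starRingEnd ℂ) (z : ℂ) * (z : ℂ) = 1 := by
      rw [← Complex.normSq_eq_conj_mul_self, Circle.normSq_coe]
      simp
    rw [Unitary.mem_iff, star_smul, star_one]
    constructor
    · rw [smul_mul_smul_comm, one_mul]
      have : star (z : ℂ) * (z : ℂ) = 1 := hz
      rw [this, one_smul]
    · rw [smul_mul_smul_comm, one_mul]
      have : (z : ℂ) * star (z : ℂ) = 1 := by rw [mul_comm]; exact hz
      rw [this, one_smul]⟩
  map_one' := by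
    apply Subtype.ext
    show ((1 : Circle) : ℂ) • (1 : MM Unit ℂ) = 1
    rw [Circle.coe_one, one_smul]
  map_mul' a b := by
    apply Subtype.ext
    show ((a * b : Circle) : ℂ) • (1 : MM Unit ℂ) = ((a : ℂ) • (1 : MM Unit ℂ)) * ((b : ℂ) • 1)
    rw [Circle.coe_mul, smul_mul_smul_comm, one_mul]

theorem cyclic_image_sc_coe (z : Circle) :
    ((cyclic_image_sc z : unitary (MM Unit ℂ)) : MM Unit ℂ) = (z : ℂ) • (1 : MM Unit ℂ) := rfl

theorem cyclic_image_sc_one {z : Circle}
    (h : ((cyclic_image_sc z : unitary (MM Unit ℂ)) : MM Unit ℂ) = 1) : z = 1 := by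
  rw [cyclic_image_sc_coe] at h
  have h2 := congrArg (fun M : MM Unit ℂ => M () ()) h
  simp only [MM.smul_apply, MM.one_apply, if_true, smul_eq_mul, mul_one] at h2
  exact Subtype.ext h2

theorem cyclic_image_sc_cont : Continuous fun z : Circle =>
    ((cyclic_image_sc z : unitary (MM Unit ℂ)) : MM Unit ℂ) := by
  have : (fun z : Circle => ((cyclic_image_sc z : unitary (MM Unit ℂ)) : MM Unit ℂ)) =
      fun z : Circle => (z : ℂ) • (1 : MM Unit ℂ) := rfl
  rw [this]
  exact continuous_subtype_val.smul continuous_const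

/-- elements of a normal subgroup fix the cosets -/
theorem cyclic_image_smul {G : Type} [Group G] (K : Subgroup G) [K.Normal] {a : G} (ha : a ∈ K)
    (q : G ⧸ K) : a • q = q := by
  obtain ⟨g, rfl⟩ := QuotientGroup.mk_surjective q
  show ((a * g : G) : G ⧸ K) = (g : G ⧸ K)
  rw [QuotientGroup.eq]
  have : (a * g)⁻¹ * g = g⁻¹ * a⁻¹ * g⁻¹⁻¹ := by group
  rw [this]
  exact (inferInstance : K.Normal).conj_mem _ (K.inv_mem ha) _

theorem cyclic_image_Ind {G : Type} [Group G] (K : Subgroup G) [K.Normal] [K.FiniteIndex]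
    {D : Type} [CStarAlgebra D] {a : G} (ha : a ∈ K) (φ : K → D) (h : ∀ q, φ (lc K a q) = 1) :
    Ind K φ a = 1 := by
  refine MM.ext fun p q => ?_
  rw [Ind_apply, MM.one_apply, cyclic_image_smul K ha, h]

/-- the characters -/
def cyclic_image_chi {G : Type} [Group G] (K : Subgroup G) (u : G → ℝ) (hu : HomOn K u) (c : ℝ) :
    K →* Circle where
  toFun a := Circle.exp (c * u a)
  map_one' := by
    rw [Subgroup.coe_one, hu.one, mul_zero, Circle.exp_zero]
  map_mul' a b := by
    rw [Subgroup.coe_mul, hu a a.2 b b.2, mul_add, Circle.exp_add]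

/-- values in a discrete group -/
theorem cyclic_image_final {G : Type} [Group G] (K : Subgroup G) (x : G → ℝ) (hx : HomOn K x)
    (c : ℝ) (h : ∀ a ∈ K, ∃ n : ℤ, x a = n * c) :
    ∃ τ ∈ K, ∀ a ∈ K, ∃ k : ℤ, x a = k * x τ := by
  let H : AddSubgroup ℤ :=
    { carrier := {n | ∃ a ∈ K, x a = n * c}
      zero_mem' := ⟨1, K.one_mem, by rw [hx.one]; simp⟩
      add_mem' := by
        rintro m n ⟨a, ha, h1⟩ ⟨b, hb, h2⟩
        refine ⟨a * b, K.mul_mem ha hb, ?_⟩
        rw [hx a ha b hb, h1, h2]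
        push_cast
        ring
      neg_mem' := by
        rintro m ⟨a, ha, h1⟩
        refine ⟨a⁻¹, K.inv_mem ha, ?_⟩
        rw [hx.inv ha, h1]
        push_cast
        ring }
  obtain ⟨t, ht⟩ := Int.subgroup_cyclic H
  have ht1 : t ∈ H := by
    rw [ht]
    exact AddSubgroup.subset_closure (Set.mem_singleton t)
  obtain ⟨τ, hτ, hτ1⟩ := ht1
  refine ⟨τ, hτ, fun a ha => ?_⟩
  obtain ⟨n, hn⟩ := h a ha
  have hnH : n ∈ H := ⟨a, ha, hn⟩
  rw [ht, AddSubgroup.mem_closure_singleton] at hnH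
  obtain ⟨k, hk⟩ := hnH
  refine ⟨k, ?_⟩
  rw [hn, hτ1, ← hk]
  push_cast [smul_eq_mul]
  ring

/-- TARGET -/
theorem cyclic_image
    (htr : ∀ (X n : Type) [TopologicalSpace X] [PreconnectedSpace X] [Fintype n] [DecidableEq n]
      (U : X → Matrix n n ℂ), Continuous U → (∀ x, ∃ e : ℕ, 0 < e ∧ U x ^ e = 1) →
      ∀ x y, (U x).trace = (U y).trace)
    (h1 : ∀ (n : Type) [Fintype n] [DecidableEq n] (U : Matrix n n ℂ),
      U ∈ unitary (Matrix n n ℂ) → U.trace = (Fintype.card n : ℂ) → U = 1)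
    {G : Type} [Group G] [Countable G] (hG : CStarStable G) (K : Subgroup G) [K.Normal]
    [K.FiniteIndex] (x : G → ℝ) (hx : HomOn K x)
    (M : Subgroup G) (hM : ∀ m, m ∈ M ↔ m ∈ K ∧ x m = 0) (hTor : Tor M)
    (hrat : ∀ a ∈ K, ∀ b ∈ K, x b ≠ 0 → ∃ N : ℕ, 0 < N ∧ ∃ k : ℤ, (N : ℝ) * x a = k * x b)
    (hne : ∃ b ∈ K, x b ≠ 0) :
    ∃ τ ∈ K, ∀ a ∈ K, ∃ k : ℤ, x a = k * x τ := by
  classical
  obtain ⟨a₀, ha₀, hxa₀⟩ := hne
  -- the normalized homomorphism
  set u : G → ℝ := fun g => x g / x a₀ with hu_def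
  have hu : HomOn K u := by
    intro a ha b hb
    simp only [hu_def]
    rw [hx a ha b hb, add_div]
  have hua₀ : u a₀ = 1 := div_self hxa₀
  have hxu : ∀ a, x a = u a * x a₀ := fun a => (div_mul_cancel₀ _ hxa₀).symm
  have hden : ∀ a : K, ∃ N : ℕ, 0 < N ∧ ∃ k : ℤ, (N : ℝ) * u a = k := by
    intro a
    obtain ⟨N, hN, k, hk⟩ := hrat a a.2 a₀ ha₀ hxa₀
    refine ⟨N, hN, k, ?_⟩
    simp only [hu_def]
    rw [← mul_div_assoc, hk, mul_div_assoc, div_self hxa₀, mul_one]
  choose N hN hNk using hden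
  obtain ⟨g, hg⟩ := exists_surjective_nat K
  set Dj : ℕ → ℕ := fun j => ∏ i ∈ Finset.range (j + 1), N (g i) with hDj
  have hDpos : ∀ j, 0 < Dj j := fun j => Finset.prod_pos fun i _ => hN _
  set χ : ℕ → K →* Circle := fun j => cyclic_image_chi K u hu (2 * Real.pi * Dj j) with hχ
  have hχ_apply : ∀ j a, χ j a = Circle.exp (2 * Real.pi * Dj j * u a) := fun j a => rfl
  have hχ1 : ∀ l : K, ∀ᶠ j in atTop, χ j l = 1 := by
    intro l
    obtain ⟨i, rfl⟩ := hg l
    filter_upwards [eventually_ge_atTop i] with j hj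
    obtain ⟨k, hk⟩ := hNk (g i)
    obtain ⟨c, hc⟩ := Finset.dvd_prod_of_mem (fun i => N (g i)) (Finset.mem_range.2 (by omega : i < j + 1))
    rw [hχ_apply]
    have : 2 * Real.pi * Dj j * u (g i) = ((c * k : ℤ) : ℝ) * (2 * Real.pi) := by
      have h3 : (Dj j : ℝ) = N (g i) * c := by
        rw [hDj]
        simp only
        rw [hc]
        push_cast
        ring
      rw [h3]
      push_cast
      rw [← hk]
      ring
    rw [this, Circle.exp_int_mul_two_pi]
  -- the path of maps
  set φ : ∀ _ : ℕ, K → unitInterval → MM Unit ℂ := fun j l s =>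
    ((cyclic_image_sc (Circle.exp (s * Complex.arg (χ j l))) : unitary (MM Unit ℂ)) : MM Unit ℂ)
    with hφ
  have hφ1 : ∀ j l s, χ j l = 1 → φ j l s = 1 := by
    intro j l s h
    simp only [hφ]
    rw [h, Circle.coe_one, Complex.arg_one, mul_zero, Circle.exp_zero, map_one]
    rfl
  let ι : C(Bool, unitInterval) := ⟨fun b => if b then 1 else 0, continuous_of_discreteTopology⟩
  have hιt : ι true = 1 := rfl
  have hιf : ι false = 0 := rfl
  let ρ : ∀ _ : ℕ, Bool → K →* unitary (MM Unit ℂ) := fun j b =>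
    if b then cyclic_image_sc.comp (χ j) else 1
  have hρt : ∀ j, ρ j true = cyclic_image_sc.comp (χ j) := fun j => rfl
  have hρf : ∀ j, ρ j false = 1 := fun j => rfl
  obtain ⟨ψ, hψc, hψe, hψa⟩ := family hG K ι (fun _ => Unit) φ
    (by
      intro j l
      have h2 : Continuous fun s : unitInterval => Circle.exp (s * Complex.arg (χ j l)) := by
        fun_prop
      exact cyclic_image_sc_cont.comp h2)
    (fun j l s => (cyclic_image_sc _).2)
    (fun j s => hφ1 j 1 s (map_one _))
    (by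
      intro a b ε hε
      filter_upwards [hχ1 a, hχ1 b, hχ1 (a * b)] with j e1 e2 e3 s
      rw [hφ1 j _ s e1, hφ1 j _ s e2, hφ1 j _ s e3, mul_one, sub_self, norm_zero]
      exact hε.le)
    ρ
    (by
      intro j l y
      cases y with
      | false =>
        rw [hιf, hρf]
        simp only [hφ]
        have : ((0 : unitInterval) : ℝ) = 0 := rfl
        rw [this, zero_mul, Circle.exp_zero, map_one]
        rfl
      | true =>
        rw [hιt, hρt]
        simp only [hφ]
        have : ((1 : unitInterval) : ℝ) = 1 := rfl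
        rw [this, one_mul, Circle.exp_arg]
        rfl)
  have hall : ∀ᶠ j in atTop, ∀ q : G ⧸ K, χ j (lc K a₀ q) = 1 :=
    Filter.eventually_all.2 fun q => hχ1 _
  obtain ⟨j, hje, hja, hjq⟩ := (hψe.and ((hψa a₀ (1 / 10) (by norm_num)).and hall)).exists
  -- values at the end points
  have hψ0 : ∀ a ∈ K, ψ j 0 a = 1 := by
    intro a ha
    apply Subtype.ext
    have h3 := hje false a
    rw [hιf] at h3
    rw [h3]
    exact cyclic_image_Ind K ha _ fun q => by rw [hρf]; rfl
  have hψ1 : ∀ a ∈ K, (∀ q, χ j (lc K a q) = 1) → ψ j 1 a = 1 := by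
    intro a ha hq
    apply Subtype.ext
    have h3 := hje true a
    rw [hιt] at h3
    rw [h3]
    exact cyclic_image_Ind K ha _ fun q => by
      rw [hρt, MonoidHom.comp_apply, hq, map_one]
      rfl
  have hcont : ∀ a, Continuous fun s => ψ j s a := fun a =>
    Continuous.subtype_mk (hψc j a) _
  -- the subgroup `M` acts trivially
  have hψM : ∀ m ∈ M, ∀ s, ψ j s m = 1 := by
    intro m hm
    apply cyclic_image_rig htr h1 (fun s => ψ j s m) (hcont m) _ (hψ0 m ((hM m).1 hm).1)
    intro s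
    obtain ⟨e, he, he1⟩ := hTor ((G ⧸ K) × Unit)
      ((mapU (flat (G ⧸ K) Unit)).comp (ψ j s)) m hm
    refine ⟨e, he, ?_⟩
    have := congrArg Subtype.val he1
    rw [MonoidHom.comp_apply] at this
    exact this
  have hrig : ∀ N : ℕ, 0 < N → ∀ r : unitInterval → unitary (MM (G ⧸ K) (MM Unit ℂ)),
      Continuous r → (∀ s, r s ^ N = 1) → r 0 = 1 → r 1 = 1 := by
    intro N hN r hr hrN hr0
    refine cyclic_image_rig htr h1 r hr (fun s => ⟨N, hN, ?_⟩) hr0 1
    have := congrArg (fun v : unitary (MM (G ⧸ K) (MM Unit ℂ)) => flat (G ⧸ K) Unit v) (hrN s)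
    rw [← map_pow]
    rw [← SubmonoidClass.coe_pow]
    exact this.trans (map_one (flat (G ⧸ K) Unit))
  -- closeness to the identity
  have hnear : ∀ s, ‖(ψ j s a₀ : MM (G ⧸ K) (MM Unit ℂ)) - 1‖ ≤ 1 / 10 := by
    intro s
    have h3 := hja s
    rwa [cyclic_image_Ind K ha₀ (fun l => φ j l s) fun q => hφ1 j _ s (hjq q)] at h3
  have hall1 : ∀ a ∈ K, ψ j 1 a = 1 := by
    intro a ha
    obtain ⟨n, hn, k, hk⟩ := hrat a ha a₀ ha₀ hxa₀
    refine cyclic_image_root (fun s => ψ j s a) (fun s => ψ j s a₀) (hcont a) (hcont a₀) hnear ?_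
      n hn k ?_ (hψ0 a₀ ha₀) (hψ1 a₀ ha₀ hjq) (hψ0 a ha) (hrig n hn)
    · intro s
      have hm : a * a₀ * a⁻¹ * a₀⁻¹ ∈ M := by
        rw [hM]
        have e1 : a * a₀ ∈ K := K.mul_mem ha ha₀
        have e2 : a * a₀ * a⁻¹ ∈ K := K.mul_mem e1 (K.inv_mem ha)
        refine ⟨K.mul_mem e2 (K.inv_mem ha₀), ?_⟩
        rw [hx _ e2 _ (K.inv_mem ha₀), hx _ e1 _ (K.inv_mem ha), hx _ ha _ ha₀, hx.inv ha,
          hx.inv ha₀]
        ring
      have h3 := hψM _ hm s
      rw [map_mul, map_mul, map_mul, map_inv, map_inv, mul_inv_eq_one, mul_inv_eq_iff_eq_mul] at h3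
      exact h3
    · intro s
      have hm : a ^ n * (a₀ ^ k)⁻¹ ∈ M := by
        rw [hM]
        have e1 := K.pow_mem ha n
        have e2 := K.zpow_mem ha₀ k
        refine ⟨K.mul_mem e1 (K.inv_mem e2), ?_⟩
        rw [hx _ e1 _ (K.inv_mem e2), hx.inv e2, hx.pow ha, hx.zpow ha₀, hk]
        ring
      have h3 := hψM _ hm s
      rw [map_mul, map_inv, map_pow, map_zpow, mul_inv_eq_one] at h3
      exact h3
  -- conclusion
  have hDu : ∀ a ∈ K, ∃ n : ℤ, x a = n * (x a₀ / Dj j) := by
    intro a ha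
    have h3 := hje true a
    rw [hιt, hall1 a ha] at h3
    have h4 := congrArg (fun B : MM (G ⧸ K) (MM Unit ℂ) => B ((1 : G) : G ⧸ K) ((1 : G) : G ⧸ K)) h3
    rw [Ind_apply, cyclic_image_smul K ha, if_pos rfl, hρt, MonoidHom.comp_apply] at h4
    have h5 : ((1 : unitary (MM (G ⧸ K) (MM Unit ℂ))) : MM (G ⧸ K) (MM Unit ℂ))
        ((1 : G) : G ⧸ K) ((1 : G) : G ⧸ K) = 1 := by
      rw [OneMemClass.coe_one, MM.one_apply, if_pos rfl]
    rw [h5] at h4
    have h6 := cyclic_image_sc_one h4.symm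
    rw [hχ_apply] at h6
    obtain ⟨n, hn⟩ := Circle.exp_eq_one.1 h6
    refine ⟨n, ?_⟩
    have hr : rp K ((1 : G) : G ⧸ K) ∈ K := by
      have := rp_mk K ((1 : G) : G ⧸ K)
      rw [QuotientGroup.eq, mul_one] at this
      exact (K.inv_mem_iff).1 this
    have h7 : x (lc K a ((1 : G) : G ⧸ K) : G) = x a := by
      rw [coe_lc, cyclic_image_smul K ha, hx _ (K.inv_mem hr) _ (K.mul_mem ha hr), hx _ ha _ hr,
        hx.inv hr]
      ring
    have hD0 : (Dj j : ℝ) ≠ 0 := by
      have := hDpos j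
      exact_mod_cast this.ne'
    have h8 : (Dj j : ℝ) * u (lc K a ((1 : G) : G ⧸ K) : G) = n := by
      have hpi : (2 * Real.pi) ≠ 0 := by positivity
      apply mul_left_cancel₀ hpi
      rw [← mul_assoc, hn, mul_comm]
    have h9 : u (lc K a ((1 : G) : G ⧸ K) : G) = x a / x a₀ := by
      simp only [hu_def]
      rw [h7]
    rw [h9] at h8
    field_simp at h8 ⊢
    linarith
  exact cyclic_image_final K x hx _ hDu

end Pool.Agent.Helper72CS
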