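import Mathlib

/-!
# Semiprojective C*-algebras and C*-stable groups
-/

set_option autoImplicit false

open Set Filter Topology TopologicalSpace

namespace Pool.Agent.Helper72CS

section

variable {A B C E : Type} [NonUnitalCStarAlgebra A] [NonUnitalCStarAlgebra B]
  [NonUnitalCStarAlgebra C] [NonUnitalCStarAlgebra E]

variable (A B) in
/-- The star homomorphisms `A → B` between C*-algebras (not assumed unital). -/
def SHom : Type := A →⋆ₙₐ[ℂ] B

/-- The value `f a`. -/
def SHom.ap (f : SHom A B) (a : A) : B :=
  (show A →⋆ₙₐ[ℂ] B from f) a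

/-- The kernel of `f`, a closed ideal of `A`. -/
def SHom.ker (f : SHom A B) : Set A := {a | f.ap a = 0}

/-- `f` is surjective, so that `B` is the quotient `A / ker f` and `f` the quotient map. -/
def SHom.IsQuot (f : SHom A B) : Prop := ∀ b, ∃ a, f.ap a = b

/-- `ψ : A → C = B / ker q` is a lift of `φ : A → E = B / ker qI`, where `ker q ⊆ ker qI`: the image of
`ψ a` in `E` is `φ a`, for every `a`. -/
def Lifts (q : SHom B C) (qI : SHom B E) (ψ : SHom A C) (φ : SHom A E) : Prop :=
  ∀ a b, q.ap b = ψ.ap a → qI.ap b = φ.ap a

/-- The ideals `J n = ker (q n)` of `B` increase, the ideal `J = ker qI` is the closure of their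
union, and `q n : B → B / J n` and `qI : B → B / J` are the quotient maps. -/
structure IdealSeq (C : ℕ → Type) [∀ n, NonUnitalCStarAlgebra (C n)]
    (q : ∀ n, SHom B (C n)) (qI : SHom B E) : Prop where
  quot : ∀ n, (q n).IsQuot
  quotI : qI.IsQuot
  mono : ∀ n, (q n).ker ⊆ (q (n + 1)).ker
  lim : qI.ker = closure (⋃ n, (q n).ker)

end

/-- `A` is semiprojective: for every separable C*-algebra `B` (not assumed unital), increasing
sequence of closed ideals `J n` of `B`, with `J` the closure of the union of the `J n`, and star
homomorphism `φ : A → B / J`, there are `n` and a star homomorphism `ψ : A → B / J n` which lifts `φ`.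
Here `C n = B / J n`, `E = B / J`, and `q n`, `qI` are the quotient maps. -/
def Semiprojective (A : Type) [NonUnitalCStarAlgebra A] : Prop :=
  ∀ (B : Type) [NonUnitalCStarAlgebra B] [SeparableSpace B]
    (C : ℕ → Type) [∀ n, NonUnitalCStarAlgebra (C n)] (E : Type) [NonUnitalCStarAlgebra E]
    (q : ∀ n, SHom B (C n)) (qI : SHom B E), IdealSeq C q qI →
    ∀ φ : SHom A E, ∃ n, ∃ ψ : SHom A (C n), Lifts (q n) qI ψ φ

/-- `A`, with the unitary representation `u` of the discrete group `G`, is the full group
C*-algebra `C*(G)`: the linear span of `u(G)` is dense in `A`, and every unitary representation of `G`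
in a unital C*-algebra `B` factors through `u`. -/
structure IsFullGroupAlg (G : Type) [Group G] (A : Type) [CStarAlgebra A]
    (u : G →* unitary A) : Prop where
  dense : closure (Submodule.span ℂ (Set.range fun g : G => (u g : A)) : Set A) = Set.univ
  univ : ∀ (B : Type) [CStarAlgebra B] (v : G →* unitary B),
    ∃ φ : A →⋆ₐ[ℂ] B, ∀ g : G, φ (u g) = v g

/-- The group `G` is `C*`-stable: its full group C*-algebra is semiprojective. -/
def CStarStable (G : Type) [Group G] : Prop :=
  ∃ (A : Type) (_ : CStarAlgebra A) (u : G →* unitary A),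
    IsFullGroupAlg G A u ∧ Semiprojective A

end Pool.Agent.Helper72CS
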