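import Mathlib

/-!
JOB virtually_cyclic_of_finite, finite_of_abelianizations: elementary group theory.

(1) `H = Subgroup.zpowers τ` is infinite cyclic (`hinf`), has finite index in `K` (`K = ⋃ m ∈ M, m H`, `M` finite), so in `G`.
`G` is finitely generated: `H` is, and it has finite index.
(2) The derived subgroups `K_0 = K`, `K_(i+1) = ⁅K_i, K_i⁆` are normal in `G`, contained in `K`, of finite index in `G` by induction (`h`),
and `K_l = ⊥` for some `l` (`K` is solvable). So `⊥` has finite index: `G` is finite.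
-/

set_option autoImplicit false

noncomputable section

namespace Pool.Agent.Helper72CS

/-- TARGET 1 -/
theorem virtually_cyclic_of_finite {G : Type} [Group G] (K M : Subgroup G) [K.FiniteIndex]
    (hM : Finite M) (τ : G) (hτ : τ ∈ K) (hK : ∀ a ∈ K, ∃ m ∈ M, ∃ e : ℤ, a = m * τ ^ e)
    (hinf : ∀ e : ℤ, τ ^ e = 1 → e = 0) :
    Group.FG G ∧ ∃ H : Subgroup G, H.FiniteIndex ∧ Nonempty (H ≃* Multiplicative ℤ) := by
  classical
  set H := Subgroup.zpowers τ with hH
  have hHK : H ≤ K := by
    rw [hH, Subgroup.zpowers_le]; exact hτ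
  have h1 : (H.relIndex K) ≠ 0 := by
    have hfin : Finite (K ⧸ H.subgroupOf K) := by
      let f : {m : M // (m : G) ∈ K} → K ⧸ H.subgroupOf K := fun m =>
        QuotientGroup.mk (⟨(m.1 : G), m.2⟩ : K)
      refine Finite.of_surjective f ?_
      intro q
      obtain ⟨⟨a, ha⟩, rfl⟩ := QuotientGroup.mk_surjective q
      obtain ⟨m, hm, e, he⟩ := hK a ha
      have hmK : m ∈ K := by
        have : m = a * (τ ^ e)⁻¹ := by rw [he]; group
        rw [this]
        exact K.mul_mem ha (K.inv_mem (K.zpow_mem hτ e))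
      refine ⟨⟨⟨m, hm⟩, hmK⟩, ?_⟩
      rw [QuotientGroup.eq]
      show (⟨m, hmK⟩ : K)⁻¹ * ⟨a, ha⟩ ∈ H.subgroupOf K
      rw [Subgroup.mem_subgroupOf]
      show m⁻¹ * a ∈ H
      rw [he, inv_mul_cancel_left]
      exact Subgroup.zpow_mem_zpowers τ e
    have : (H.subgroupOf K).FiniteIndex := Subgroup.finiteIndex_of_finite_quotient
    exact this.index_ne_zero
  have hfin : H.FiniteIndex := ⟨by
    rw [← Subgroup.relIndex_mul_index hHK]
    exact mul_ne_zero h1 (Subgroup.FiniteIndex.index_ne_zero)⟩
  refine ⟨?_, H, hfin, ?_⟩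
  · -- generated by `τ` and coset representatives
    have hq : Finite (G ⧸ H) := inferInstance
    let S : Set G := {τ} ∪ Set.range (fun q : G ⧸ H => Quotient.out q)
    have hS : S.Finite := (Set.finite_singleton τ).union (Set.finite_range _)
    refine ⟨⟨hS.toFinset, ?_⟩⟩
    rw [hS.coe_toFinset, eq_top_iff]
    intro g _
    have h2 : (QuotientGroup.mk (Quotient.out (QuotientGroup.mk g : G ⧸ H)) : G ⧸ H) =
        QuotientGroup.mk g := Quotient.out_eq _
    rw [QuotientGroup.eq] at h2
    have h3 : g = Quotient.out (QuotientGroup.mk g : G ⧸ H) *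
        ((Quotient.out (QuotientGroup.mk g : G ⧸ H))⁻¹ * g) := by group
    rw [h3]
    refine Subgroup.mul_mem _ (Subgroup.subset_closure (Or.inr ⟨_, rfl⟩)) ?_
    have h4 : H ≤ Subgroup.closure S := by
      rw [hH, Subgroup.zpowers_le]
      exact Subgroup.subset_closure (Or.inl rfl)
    exact h4 h2
  · have hinj : Function.Injective (zpowersHom G τ) := by
      rw [injective_iff_map_eq_one]
      intro a ha
      have := hinf (Multiplicative.toAdd a) (by simpa [zpowersHom_apply] using ha)
      exact this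
    have e1 : Multiplicative ℤ ≃* (zpowersHom G τ).range := MonoidHom.ofInjective hinj
    have e2 : (zpowersHom G τ).range = H := by
      ext x
      rw [MonoidHom.mem_range, hH, Subgroup.mem_zpowers_iff]
      constructor
      · rintro ⟨a, rfl⟩
        exact ⟨Multiplicative.toAdd a, by simp [zpowersHom_apply]⟩
      · rintro ⟨k, rfl⟩
        exact ⟨Multiplicative.ofAdd k, by simp [zpowersHom_apply]⟩
    rw [← e2]
    exact ⟨e1.symm⟩

/-- TARGET 2 -/
theorem finite_of_abelianizations {G : Type} [Group G] (K : Subgroup G) [K.Normal]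
    [K.FiniteIndex] [Group.IsSolvable K]
    (h : ∀ L : Subgroup G, L ≤ K → L.Normal → L.FiniteIndex → (⁅L, L⁆).relIndex L ≠ 0) :
    Finite G := by
  classical
  let L : ℕ → Subgroup G := fun n => (derivedSeries K n).map K.subtype
  have hsucc : ∀ n, L (n + 1) = ⁅L n, L n⁆ := by
    intro n
    show (derivedSeries K (n + 1)).map K.subtype = _
    rw [derivedSeries_succ, Subgroup.map_commutator]
  have hL : ∀ n, L n ≤ K ∧ (L n).Normal ∧ (L n).FiniteIndex := by
    intro n
    induction n with
    | zero =>
      have h0 : L 0 = K := by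
        show (derivedSeries K 0).map K.subtype = K
        rw [derivedSeries_zero, ← MonoidHom.range_eq_map, Subgroup.range_subtype]
      rw [h0]
      exact ⟨le_rfl, inferInstance, inferInstance⟩
    | succ n ih =>
      obtain ⟨h1, h2, h3⟩ := ih
      have hle : ⁅L n, L n⁆ ≤ L n := Subgroup.commutator_le_self _
      rw [hsucc]
      refine ⟨hle.trans h1, Subgroup.commutator_normal _ _, ⟨?_⟩⟩
      rw [← Subgroup.relIndex_mul_index hle]
      exact mul_ne_zero (h _ h1 h2 h3) h3.index_ne_zero
  obtain ⟨n, hn⟩ := Group.IsSolvable.solvable (G := K)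
  have hbot : L n = ⊥ := by
    show (derivedSeries K n).map K.subtype = ⊥
    rw [hn, Subgroup.map_bot]
  have := (hL n).2.2
  rw [hbot] at this
  have h5 := this.index_ne_zero
  rw [Subgroup.index_bot] at h5
  exact Nat.finite_of_card_ne_zero h5

end Pool.Agent.Helper72CS
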