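import Mathlib

/-!
JOB equivariant permutations. Two targets.

(1) `exists_block`: `A ≤ E` finite groups; `E` is, as a left `A`-set, the product of `A` and the set `J` of orbits (choose representatives of the right cosets
`A e`; `e (a, j) = a * r_j`).
(2) `exists_equiv_perm`: for `g` with `g A g⁻¹ ≤ E` there is a permutation `σ` of `E` with `σ (a * e) = (g a g⁻¹) * σ e`. Proof: apply (1) to `A ≤ E` and to
`g A g⁻¹ ≤ E` (the subgroup `A.map (MulAut.conj g).toMonoidHom`); the two orbit sets have the same number `|E| / |A|` of elements; `σ (a r_j) = (g a g⁻¹) s_j`.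
-/

set_option autoImplicit false

noncomputable section

namespace Pool.Agent.Helper72CS

/-- TARGET 1 -/
theorem exists_block {G : Type} [Group G] (A E : Subgroup G) [Finite E] (hAE : A ≤ E) :
    ∃ (J : Type) (_ : Finite J) (_ : Nonempty J) (e : A × J ≃ E),
      ∀ (a b : A) (j : J), (e (a * b, j) : G) = a * (e (b, j) : G) := by
  classical
  let S : Setoid E := QuotientGroup.rightRel (A.subgroupOf E)
  have hrel : ∀ x y : E, S x y ↔ (y : G) * (x : G)⁻¹ ∈ A := by
    intro x y
    change QuotientGroup.rightRel (A.subgroupOf E) x y ↔ _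
    rw [QuotientGroup.rightRel_apply, Subgroup.mem_subgroupOf]
    simp
  let J : Type := Quotient S
  let r : J → E := fun j => Quotient.out j
  have hr : ∀ j : J, (Quotient.mk S (r j) : J) = j := fun j => Quotient.out_eq j
  let f : A × J → E := fun p => ⟨(p.1 : G) * (r p.2 : G), E.mul_mem (hAE p.1.2) (r p.2).2⟩
  have hf : ∀ p : A × J, ((f p : E) : G) = (p.1 : G) * (r p.2 : G) := fun p => rfl
  have hmk : ∀ p : A × J, (Quotient.mk S (f p) : J) = p.2 := by
    intro p
    rw [← hr p.2]
    apply Quotient.sound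
    change S (f p) (r p.2)
    rw [hrel, hf, mul_inv_rev, mul_inv_cancel_left]
    exact A.inv_mem p.1.2
  have hinj : Function.Injective f := by
    intro p q h
    have h2 : p.2 = q.2 := by rw [← hmk p, ← hmk q, h]
    have h1 : (p.1 : G) = q.1 := by
      have := congrArg (fun x : E => (x : G)) h
      simp only [hf] at this
      rw [h2] at this
      exact mul_right_cancel this
    exact Prod.ext (Subtype.ext h1) h2
  have hsurj : Function.Surjective f := by
    intro x
    have h : S (r (Quotient.mk S x)) x := Quotient.exact (hr (Quotient.mk S x))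
    rw [hrel] at h
    refine ⟨(⟨_, h⟩, Quotient.mk S x), ?_⟩
    apply Subtype.ext
    rw [hf]
    simp
  refine ⟨J, inferInstance, ⟨Quotient.mk S 1⟩, Equiv.ofBijective f ⟨hinj, hsurj⟩, ?_⟩
  intro a b j
  change ((f (a * b, j) : E) : G) = a * ((f (b, j) : E) : G)
  rw [hf, hf]
  simp [mul_assoc]

/-- TARGET 2 -/
theorem exists_equiv_perm {G : Type} [Group G] (A E : Subgroup G) [Finite E] (hAE : A ≤ E) (g : G)
    (hg : ∀ a ∈ A, g * a * g⁻¹ ∈ E) :
    ∃ σ : Equiv.Perm E, ∀ (a : G) (ha : a ∈ A) (e : E),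
      (σ (⟨a, hAE ha⟩ * e) : G) = g * a * g⁻¹ * (σ e : G) := by
  classical
  let B : Subgroup G := A.map (MulAut.conj g).toMonoidHom
  have hBE : B ≤ E := by
    rintro x ⟨a, ha, rfl⟩
    exact hg a ha
  obtain ⟨J, hJ, hJ0, eA, hA⟩ := exists_block A E hAE
  obtain ⟨J', hJ', hJ0', eB, hB⟩ := exists_block B E hBE
  let c : A ≃* B := A.equivMapOfInjective (MulAut.conj g).toMonoidHom (MulAut.conj g).injective
  have hc : ∀ a : A, ((c a : B) : G) = g * a * g⁻¹ := fun a => rfl
  have hfA : Finite A := Finite.of_injective (fun a : A => (⟨a, hAE a.2⟩ : E)) (fun a b h => by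
    apply Subtype.ext
    exact congrArg (fun x : E => (x : G)) h)
  have hcard : Nat.card J = Nat.card J' := by
    have h1 : Nat.card A * Nat.card J = Nat.card E := by
      rw [← Nat.card_prod]; exact Nat.card_congr eA
    have h2 : Nat.card B * Nat.card J' = Nat.card E := by
      rw [← Nat.card_prod]; exact Nat.card_congr eB
    have h3 : Nat.card A = Nat.card B := Nat.card_congr c.toEquiv
    have h4 : 0 < Nat.card A := Nat.card_pos
    rw [← h3] at h2
    exact Nat.eq_of_mul_eq_mul_left h4 (h1.trans h2.symm)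
  let κ : J ≃ J' := (Finite.card_eq.1 hcard).some
  let σ : Equiv.Perm E := eA.symm.trans ((Equiv.prodCongr c.toEquiv κ).trans eB)
  have hσ : ∀ (b : A) (j : J), σ (eA (b, j)) = eB (c b, κ j) := by
    intro b j
    change eB ((Equiv.prodCongr c.toEquiv κ) (eA.symm (eA (b, j)))) = _
    rw [Equiv.symm_apply_apply]
    rfl
  refine ⟨σ, ?_⟩
  intro a ha e
  obtain ⟨⟨b, j⟩, rfl⟩ := eA.surjective e
  have h1 : (⟨a, hAE ha⟩ * eA (b, j) : E) = eA ((⟨a, ha⟩ : A) * b, j) := by
    apply Subtype.ext
    rw [hA]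
    rfl
  rw [h1, hσ, hσ, map_mul, hB, hc]

end Pool.Agent.Helper72CS
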