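import Pool.Agent.Helper72_CS.LSDefs

set_option autoImplicit false

open Set Filter Topology

noncomputable section

namespace Pool.Agent.Helper72CS

theorem commute_aeval_of {D : Type} [CStarAlgebra D] (P : Polynomial ℂ) (X C : D)
    (h : Commute X C) : Commute X (Polynomial.aeval C P) := by
  induction P using Polynomial.induction_on with
  | C a =>
    rw [Polynomial.aeval_C]
    exact Algebra.commute_algebraMap_right a X
  | add p q hp hq =>
    rw [map_add]
    exact hp.add_right hq
  | monomial n a _ =>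
    rw [map_mul, Polynomial.aeval_C, map_pow, Polynomial.aeval_X]
    exact (Algebra.commute_algebraMap_right a X).mul_right (h.pow_right _)

theorem commute_FF {D : Type} [CStarAlgebra D] (ca cb μa μb : ℂ) (P : Polynomial ℂ)
    (X A B C : D) (hA : Commute X A) (hB : Commute X B) (hC : Commute X C) :
    Commute X (FF ca cb μa μb P A B C) := by
  unfold FF
  have hP := commute_aeval_of P X C hC
  have h1 : Commute X (1 - Polynomial.aeval C P) := (Commute.one_right X).sub_right hP
  have h2 : Commute X (star μa • A - 1) := (hA.smul_right _).sub_right (Commute.one_right X)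
  have h3 : Commute X (star μb • B - 1) := (hB.smul_right _).sub_right (Commute.one_right X)
  exact (((h2.smul_right _).add_right (h3.smul_right _)).mul_right hP).add_right
    (h1.mul_right h1)

theorem commute_star_of_unitary {D : Type} [CStarAlgebra D] {A B : D} (hA : A ∈ unitary D)
    (h : A * B = B * A) : Commute (star A) B := by
  have h1 : star A * A = 1 := Unitary.star_mul_self_of_mem hA
  have h2 : A * star A = 1 := Unitary.mul_star_self_of_mem hA
  show star A * B = B * star A
  calc star A * B = star A * (B * (A * star A)) := by rw [h2, mul_one]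
    _ = star A * (B * A) * star A := by simp only [mul_assoc]
    _ = star A * (A * B) * star A := by rw [h]
    _ = (star A * A) * B * star A := by simp only [mul_assoc]
    _ = B * star A := by rw [h1, one_mul]

/-- TARGET 4 -/
theorem FF_normal {D : Type} [CStarAlgebra D] (ca cb μa μb : ℂ) (P : Polynomial ℂ) (A B C : D)
    (hA : A ∈ unitary D) (hB : B ∈ unitary D) (hC : C ∈ unitary D)
    (hAB : A * B = B * A) (hAC : A * C = C * A) (hBC : B * C = C * B) :
    star (FF ca cb μa μb P A B C) * FF ca cb μa μb P A B C =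
      FF ca cb μa μb P A B C * star (FF ca cb μa μb P A B C) := by
  have kA : Commute (star A) (FF ca cb μa μb P A B C) :=
    commute_FF ca cb μa μb P _ A B C (commute_star_of_unitary hA rfl)
      (commute_star_of_unitary hA hAB) (commute_star_of_unitary hA hAC)
  have kB : Commute (star B) (FF ca cb μa μb P A B C) :=
    commute_FF ca cb μa μb P _ A B C (commute_star_of_unitary hB hAB.symm)
      (commute_star_of_unitary hB rfl) (commute_star_of_unitary hB hBC)
  have kC : Commute (star C) (FF ca cb μa μb P A B C) :=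
    commute_FF ca cb μa μb P _ A B C (commute_star_of_unitary hC hAC.symm)
      (commute_star_of_unitary hC hBC.symm) (commute_star_of_unitary hC rfl)
  have sA : Commute (star (FF ca cb μa μb P A B C)) A := by
    have := kA.star_star
    rw [star_star] at this
    exact this.symm
  have sB : Commute (star (FF ca cb μa μb P A B C)) B := by
    have := kB.star_star
    rw [star_star] at this
    exact this.symm
  have sC : Commute (star (FF ca cb μa μb P A B C)) C := by
    have := kC.star_star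
    rw [star_star] at this
    exact this.symm
  exact commute_FF ca cb μa μb P _ A B C sA sB sC

/-- two bounded sequences at distance tending to zero -/
def Clo {D : ℕ → Type} [∀ j, CStarAlgebra (D j)] (a b : ∀ j, D j) : Prop :=
  (∃ M : ℝ, 0 ≤ M ∧ ∀ j, ‖a j‖ ≤ M ∧ ‖b j‖ ≤ M) ∧
    Tendsto (fun j => ‖a j - b j‖) atTop (𝓝 0)

theorem Clo.add {D : ℕ → Type} [∀ j, CStarAlgebra (D j)] {a b a' b' : ∀ j, D j}
    (h : Clo a b) (h' : Clo a' b') : Clo (fun j => a j + a' j) (fun j => b j + b' j) := by
  obtain ⟨⟨M, hM0, hM⟩, ht⟩ := h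
  obtain ⟨⟨M', hM0', hM'⟩, ht'⟩ := h'
  refine ⟨⟨M + M', by positivity, fun j => ⟨?_, ?_⟩⟩, ?_⟩
  · exact (norm_add_le _ _).trans (add_le_add (hM j).1 (hM' j).1)
  · exact (norm_add_le _ _).trans (add_le_add (hM j).2 (hM' j).2)
  · have h0 : Tendsto (fun j => ‖a j - b j‖ + ‖a' j - b' j‖) atTop (𝓝 0) := by
      simpa using ht.add ht'
    refine squeeze_zero (fun j => norm_nonneg _) (fun j => ?_) h0
    have : a j + a' j - (b j + b' j) = (a j - b j) + (a' j - b' j) := by abel
    rw [this]
    exact norm_add_le _ _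

theorem Clo.mul {D : ℕ → Type} [∀ j, CStarAlgebra (D j)] {a b a' b' : ∀ j, D j}
    (h : Clo a b) (h' : Clo a' b') : Clo (fun j => a j * a' j) (fun j => b j * b' j) := by
  obtain ⟨⟨M, hM0, hM⟩, ht⟩ := h
  obtain ⟨⟨M', hM0', hM'⟩, ht'⟩ := h'
  refine ⟨⟨M * M', by positivity, fun j => ⟨?_, ?_⟩⟩, ?_⟩
  · exact (norm_mul_le _ _).trans (mul_le_mul (hM j).1 (hM' j).1 (norm_nonneg _) hM0)
  · exact (norm_mul_le _ _).trans (mul_le_mul (hM j).2 (hM' j).2 (norm_nonneg _) hM0)
  · have h0 : Tendsto (fun j => ‖a j - b j‖ * M' + M * ‖a' j - b' j‖) atTop (𝓝 0) := by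
      simpa using (ht.mul_const M').add (ht'.const_mul M)
    refine squeeze_zero (fun j => norm_nonneg _) (fun j => ?_) h0
    have : a j * a' j - b j * b' j = (a j - b j) * a' j + b j * (a' j - b' j) := by
      rw [sub_mul, mul_sub]; abel
    rw [this]
    refine (norm_add_le _ _).trans (add_le_add ?_ ?_)
    · exact (norm_mul_le _ _).trans
        (mul_le_mul_of_nonneg_left (hM' j).1 (norm_nonneg _))
    · exact (norm_mul_le _ _).trans
        (mul_le_mul_of_nonneg_right (hM j).2 (norm_nonneg _))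

theorem Clo.smul {D : ℕ → Type} [∀ j, CStarAlgebra (D j)] {a b : ∀ j, D j} (c : ℂ)
    (h : Clo a b) : Clo (fun j => c • a j) (fun j => c • b j) := by
  obtain ⟨⟨M, hM0, hM⟩, ht⟩ := h
  refine ⟨⟨‖c‖ * M, by positivity, fun j => ⟨?_, ?_⟩⟩, ?_⟩
  · rw [norm_smul]; exact mul_le_mul_of_nonneg_left (hM j).1 (norm_nonneg _)
  · rw [norm_smul]; exact mul_le_mul_of_nonneg_left (hM j).2 (norm_nonneg _)
  · have h0 : Tendsto (fun j => ‖c‖ * ‖a j - b j‖) atTop (𝓝 0) := by
      simpa using ht.const_mul ‖c‖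
    refine h0.congr fun j => ?_
    rw [← smul_sub, norm_smul]

theorem norm_one_le' (D : Type) [CStarAlgebra D] : ‖(1 : D)‖ ≤ 1 := by
  rcases subsingleton_or_nontrivial D with h | h
  · have : (1 : D) = 0 := Subsingleton.elim _ _
    rw [this, norm_zero]; exact zero_le_one
  · exact le_of_eq CStarRing.norm_one

theorem Clo.one {D : ℕ → Type} [∀ j, CStarAlgebra (D j)] :
    Clo (fun j => (1 : D j)) (fun j => (1 : D j)) := by
  refine ⟨⟨1, zero_le_one, fun j => ⟨norm_one_le' _, norm_one_le' _⟩⟩, ?_⟩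
  simp

theorem Clo.sub {D : ℕ → Type} [∀ j, CStarAlgebra (D j)] {a b a' b' : ∀ j, D j}
    (h : Clo a b) (h' : Clo a' b') : Clo (fun j => a j - a' j) (fun j => b j - b' j) := by
  have := h.add (h'.smul (-1))
  simpa [sub_eq_add_neg] using this

theorem Clo.pow {D : ℕ → Type} [∀ j, CStarAlgebra (D j)] {a b : ∀ j, D j}
    (h : Clo a b) (n : ℕ) : Clo (fun j => a j ^ n) (fun j => b j ^ n) := by
  induction n with
  | zero => simpa using Clo.one (D := D)
  | succ n ih =>
    have := ih.mul h
    simpa [pow_succ] using this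

theorem Clo.aeval {D : ℕ → Type} [∀ j, CStarAlgebra (D j)] {a b : ∀ j, D j}
    (h : Clo a b) (P : Polynomial ℂ) :
    Clo (fun j => Polynomial.aeval (a j) P) (fun j => Polynomial.aeval (b j) P) := by
  induction P using Polynomial.induction_on with
  | C c =>
    have := (Clo.one (D := D)).smul c
    simpa [Polynomial.aeval_C, Algebra.algebraMap_eq_smul_one] using this
  | add p q hp hq =>
    have := hp.add hq
    simpa [map_add] using this
  | monomial n c _ =>
    have := (h.pow (n + 1)).smul c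
    simpa [Polynomial.aeval_C, map_mul, map_pow, Polynomial.aeval_X,
      Algebra.algebraMap_eq_smul_one] using this

/-- TARGET 5 -/
theorem FF_cont {D : ℕ → Type} [∀ j, CStarAlgebra (D j)] (ca cb μa μb : ℂ) (P : Polynomial ℂ)
    (A B C A' B' C' : ∀ j, D j) (hA : ∀ j, ‖A j‖ ≤ 1) (hB : ∀ j, ‖B j‖ ≤ 1) (hC : ∀ j, ‖C j‖ ≤ 1)
    (hA' : ∀ j, ‖A' j‖ ≤ 1) (hB' : ∀ j, ‖B' j‖ ≤ 1) (hC' : ∀ j, ‖C' j‖ ≤ 1)
    (h1 : Tendsto (fun j => ‖A j - A' j‖) atTop (𝓝 0))
    (h2 : Tendsto (fun j => ‖B j - B' j‖) atTop (𝓝 0))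
    (h3 : Tendsto (fun j => ‖C j - C' j‖) atTop (𝓝 0)) :
    Tendsto (fun j => ‖FF ca cb μa μb P (A j) (B j) (C j) -
      FF ca cb μa μb P (A' j) (B' j) (C' j)‖) atTop (𝓝 0) := by
  have kA : Clo A A' := ⟨⟨1, zero_le_one, fun j => ⟨hA j, hA' j⟩⟩, h1⟩
  have kB : Clo B B' := ⟨⟨1, zero_le_one, fun j => ⟨hB j, hB' j⟩⟩, h2⟩
  have kC : Clo C C' := ⟨⟨1, zero_le_one, fun j => ⟨hC j, hC' j⟩⟩, h3⟩
  have kP := kC.aeval P
  have k1 := (Clo.one (D := D)).sub kP
  have k2 := ((kA.smul (star μa)).sub (Clo.one (D := D))).smul (ca * -Complex.I)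
  have k3 := ((kB.smul (star μb)).sub (Clo.one (D := D))).smul (cb * -Complex.I)
  exact (((k2.add k3).mul kP).add (k1.mul k1)).2

end Pool.Agent.Helper72CS
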