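import Pool.Agent.Helper72_CS.Ind

/-!
# Continuous families of finite dimensional representations
-/

set_option autoImplicit false

open Set Filter Topology

noncomputable section

namespace Pool.Agent.Helper72CS

/-- a star homomorphism on unitaries -/
def mapU {A B : Type} [Ring A] [StarRing A] [Algebra ℂ A] [Ring B] [StarRing B] [Algebra ℂ B]
    (f : A →⋆ₐ[ℂ] B) : unitary A →* unitary B where
  toFun u := ⟨f (u : A), by
    rw [Unitary.mem_iff, ← map_star, ← map_mul, ← map_mul, (Unitary.mem_iff.1 u.2).1,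
      (Unitary.mem_iff.1 u.2).2, map_one]
    exact ⟨rfl, rfl⟩⟩
  map_one' := Subtype.ext (map_one f)
  map_mul' u v := Subtype.ext (map_mul f (u : A) v)

theorem coe_mapU {A B : Type} [Ring A] [StarRing A] [Algebra ℂ A] [Ring B] [StarRing B]
    [Algebra ℂ B] (f : A →⋆ₐ[ℂ] B) (u : unitary A) : (mapU f u : B) = f (u : A) := rfl

/-- evaluation at a point -/
def evS {X D : Type} [TopologicalSpace X] [CompactSpace X] [CStarAlgebra D] (x : X) :
    C(X, D) →⋆ₐ[ℂ] D where
  toFun f := f x
  map_one' := rfl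
  map_mul' _ _ := rfl
  map_zero' := rfl
  map_add' _ _ := rfl
  commutes' _ := rfl
  map_star' _ := rfl

/-- composition with a map -/
def resS {X Y D : Type} [TopologicalSpace X] [CompactSpace X] [TopologicalSpace Y]
    [CompactSpace Y] [CStarAlgebra D] (i : C(Y, X)) : C(X, D) →⋆ₐ[ℂ] C(Y, D) where
  toFun f := f.comp i
  map_one' := rfl
  map_mul' _ _ := rfl
  map_zero' := rfl
  map_add' _ _ := rfl
  commutes' _ := rfl
  map_star' _ := rfl

/-- **Families.** Let `G` be `C*`-stable, `L` a subgroup of finite index, `φ j : L → C(X, M_(K j))` unitary valued and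
asymptotically multiplicative, and multiplicative on the image of `Y`. Then the induced maps are close to
continuous families of representations of `G`, equal to the induced ones over `Y`. -/
theorem family {G : Type} [Group G] [Countable G] (hG : CStarStable G) (L : Subgroup G)
    [L.FiniteIndex] {X Y : Type} [TopologicalSpace X] [CompactSpace X] [Nonempty X]
    [TopologicalSpace Y] [CompactSpace Y] (i : C(Y, X)) (K : ℕ → Type) [∀ j, Fintype (K j)]
    [∀ j, DecidableEq (K j)] [∀ j, Nonempty (K j)]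
    (φ : ∀ j, L → X → MM (K j) ℂ) (hφc : ∀ j l, Continuous (φ j l))
    (hφu : ∀ j l x, φ j l x ∈ unitary (MM (K j) ℂ)) (hone : ∀ j x, φ j 1 x = 1)
    (hmul : ∀ g h : L, ∀ ε : ℝ, 0 < ε → ∀ᶠ j in atTop, ∀ x,
      ‖φ j (g * h) x - φ j g x * φ j h x‖ ≤ ε)
    (ρ : ∀ j, Y → L →* unitary (MM (K j) ℂ))
    (hρ : ∀ j l y, φ j l (i y) = ρ j y l) :
    ∃ ψ : ∀ j, X → G →* unitary (MM (G ⧸ L) (MM (K j) ℂ)),
      (∀ j g, Continuous fun x => (ψ j x g : MM (G ⧸ L) (MM (K j) ℂ))) ∧
      (∀ᶠ j in atTop, ∀ y g, (ψ j (i y) g : MM (G ⧸ L) (MM (K j) ℂ)) =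
        Ind L (fun l => (ρ j y l : MM (K j) ℂ)) g) ∧
      ∀ g : G, ∀ ε : ℝ, 0 < ε → ∀ᶠ j in atTop, ∀ x,
        ‖(ψ j x g : MM (G ⧸ L) (MM (K j) ℂ)) - Ind L (fun l => φ j l x) g‖ ≤ ε := by
  have hnu : ∀ j l x, ‖φ j l x‖ = 1 := fun j l x => CStarRing.norm_of_mem_unitary (hφu j l x)
  set φ' : ∀ j, L → C(X, MM (K j) ℂ) := fun j l => ⟨φ j l, hφc j l⟩ with hφ'
  have hto : ∀ F : ∀ j, C(X, MM (K j) ℂ), (∀ ε : ℝ, 0 < ε → ∀ᶠ j in atTop, ∀ x, ‖F j x‖ ≤ ε) →
      Tendsto (fun j => ‖F j‖) atTop (𝓝 0) := by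
    intro F hF
    rw [Metric.tendsto_atTop]
    intro ε hε
    obtain ⟨N, hN⟩ := eventually_atTop.1 (hF (ε / 2) (half_pos hε))
    refine ⟨N, fun n hn => ?_⟩
    rw [Real.dist_eq, sub_zero, abs_norm]
    exact ((ContinuousMap.norm_le _ (half_pos hε).le).2 (hN n hn)).trans_lt (half_lt_self hε)
  have hmul' : ∀ g h, Tendsto (fun j => ‖φ' j (g * h) - φ' j g * φ' j h‖) atTop (𝓝 0) :=
    fun g h => hto _ fun ε hε => hmul g h ε hε
  have hstar' : ∀ g, Tendsto (fun j => ‖star (φ' j g) - φ' j g⁻¹‖) atTop (𝓝 0) := by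
    intro g
    refine hto _ fun ε hε => ?_
    filter_upwards [hmul g g⁻¹ ε hε] with j hj x
    have h1 := hj x
    rw [mul_inv_cancel, hone] at h1
    have h2 : star (φ j g x) - φ j g⁻¹ x = star (φ j g x) * (1 - φ j g x * φ j g⁻¹ x) := by
      rw [mul_sub, mul_one, ← mul_assoc, (Unitary.mem_iff.1 (hφu j g x)).1, one_mul]
    show ‖star (φ j g x) - φ j g⁻¹ x‖ ≤ ε
    rw [h2]
    refine (norm_mul_le _ _).trans ?_
    rw [norm_star, hnu, one_mul]
    exact h1
  have hone' : Tendsto (fun j => ‖φ' j 1 - 1‖) atTop (𝓝 0) := by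
    refine hto _ fun ε hε => Eventually.of_forall fun j x => ?_
    show ‖φ j 1 x - 1‖ ≤ ε
    rw [hone, sub_self, norm_zero]
    exact hε.le
  let ρ' : ∀ j, L →* unitary C(Y, MM (K j) ℂ) := fun j =>
    { toFun := fun l => ⟨⟨fun y => (ρ j y l : MM (K j) ℂ), by
          have : (fun y => (ρ j y l : MM (K j) ℂ)) = φ j l ∘ i := by
            funext y
            exact (hρ j l y).symm
          rw [this]
          exact (hφc j l).comp i.continuous⟩, by
          rw [Unitary.mem_iff]
          constructor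
          · ext1 y
            exact Unitary.coe_star_mul_self (ρ j y l)
          · ext1 y
            exact Unitary.coe_mul_star_self (ρ j y l)⟩
      map_one' := by
        apply Subtype.ext
        ext1 y
        show (ρ j y 1 : MM (K j) ℂ) = 1
        rw [map_one]
        rfl
      map_mul' := fun g h => by
        apply Subtype.ext
        ext1 y
        show (ρ j y (g * h) : MM (K j) ℂ) = ρ j y g * ρ j y h
        rw [map_mul]
        rfl }
  obtain ⟨ψ, h1, h2⟩ := perturbInd hG L
    (fun j => (resS i : C(X, MM (K j) ℂ) →⋆ₐ[ℂ] C(Y, MM (K j) ℂ))) φ'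
    (fun g => ⟨1, fun j => (ContinuousMap.norm_le _ zero_le_one).2 fun x => (hnu j g x).le⟩)
    ρ' (by
      intro j g
      ext1 y
      exact hρ j g y) hmul' hstar' hone'
  let evm : ∀ j, X → MM (G ⧸ L) C(X, MM (K j) ℂ) →⋆ₐ[ℂ] MM (G ⧸ L) (MM (K j) ℂ) := fun j x =>
    mapMM (evS x)
  refine ⟨fun j x => (mapU (evm j x)).comp (ψ j),
    fun j g => ?_, ?_, fun g ε hε => ?_⟩
  · refine _root_.continuous_pi fun p => _root_.continuous_pi fun q => ?_
    exact ((ψ j g : MM (G ⧸ L) C(X, MM (K j) ℂ)) p q).continuous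
  · filter_upwards [h1] with j hj y g
    refine MM.ext fun p q => ?_
    have h3 := congrArg (fun M : MM (G ⧸ L) C(Y, MM (K j) ℂ) => M p q y) (hj g)
    have h4 : (Ind L (fun l => ((ρ' j l : C(Y, MM (K j) ℂ)))) g : MM (G ⧸ L) C(Y, MM (K j) ℂ)) p q y =
        Ind L (fun l => (ρ j y l : MM (K j) ℂ)) g p q := by
      rw [Ind_apply, Ind_apply]
      split_ifs <;> rfl
    exact h3.trans h4
  · filter_upwards [(h2 g).eventually (gt_mem_nhds hε)] with j hj x
    have h3 : evm j x (ψ j g : MM (G ⧸ L) C(X, MM (K j) ℂ)) - Ind L (fun l => φ j l x) g =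
        evm j x ((ψ j g : MM (G ⧸ L) C(X, MM (K j) ℂ)) - Ind L (φ' j) g) := by
      have h4 : Ind L (fun l => φ j l x) g = evm j x (Ind L (φ' j) g) := by
        refine MM.ext fun p q => ?_
        show _ = evS x (Ind L (φ' j) g p q)
        rw [Ind_apply, Ind_apply]
        split_ifs <;> rfl
      rw [h4, ← map_sub]
    show ‖evm j x (ψ j g : MM (G ⧸ L) C(X, MM (K j) ℂ)) - Ind L (fun l => φ j l x) g‖ ≤ ε
    rw [h3]
    exact (NonUnitalStarAlgHom.norm_apply_le (evm j x) _).trans hj.le

/-- block matrices as matrices -/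
def flat (Q K : Type) [Fintype Q] [DecidableEq Q] [Fintype K] [DecidableEq K] :
    MM Q (MM K ℂ) →⋆ₐ[ℂ] Matrix (Q × K) (Q × K) ℂ where
  toFun M := fun a b => M a.1 b.1 a.2 b.2
  map_one' := by
    ext a b
    show (1 : MM Q (MM K ℂ)) a.1 b.1 a.2 b.2 = _
    rw [MM.one_apply, Matrix.one_apply]
    by_cases h : a.1 = b.1
    · rw [if_pos h, MM.one_apply]
      by_cases h2 : a.2 = b.2
      · rw [if_pos h2, if_pos (Prod.ext h h2)]
      · rw [if_neg h2, if_neg]
        rintro rfl
        exact h2 rfl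
    · rw [if_neg h, MM.zero_apply, if_neg]
      rintro rfl
      exact h rfl
  map_mul' M N := by
    ext a b
    rw [Matrix.mul_apply, Fintype.sum_prod_type]
    show (M * N) a.1 b.1 a.2 b.2 = _
    rw [MM.mul_apply]
    have : ∀ (f : Q → MM K ℂ) (s : Finset Q) (i k : K), (∑ r ∈ s, f r) i k = ∑ r ∈ s, f r i k := by
      intro f s i k
      classical
      induction s using Finset.induction_on with
      | empty => rfl
      | insert a s ha ih => rw [Finset.sum_insert ha, Finset.sum_insert ha, MM.add_apply, ih]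
    rw [this]
    refine Finset.sum_congr rfl fun r _ => ?_
    rw [MM.mul_apply]
  map_zero' := rfl
  map_add' M N := rfl
  commutes' c := by
    ext a b
    show (algebraMap ℂ (MM Q (MM K ℂ)) c) a.1 b.1 a.2 b.2 = _
    rw [Algebra.algebraMap_eq_smul_one, Algebra.algebraMap_eq_smul_one, MM.smul_apply,
      MM.smul_apply, Matrix.smul_apply, MM.one_apply, Matrix.one_apply]
    congr 1
    by_cases h : a.1 = b.1
    · rw [if_pos h, MM.one_apply]
      by_cases h2 : a.2 = b.2
      · rw [if_pos h2, if_pos (Prod.ext h h2)]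
      · rw [if_neg h2, if_neg]
        rintro rfl
        exact h2 rfl
    · rw [if_neg h, MM.zero_apply, if_neg]
      rintro rfl
      exact h rfl
  map_star' M := rfl

theorem flat_apply {Q K : Type} [Fintype Q] [DecidableEq Q] [Fintype K] [DecidableEq K]
    (M : MM Q (MM K ℂ)) (a b : Q × K) : flat Q K M a b = M a.1 b.1 a.2 b.2 := rfl

theorem flat_injective {Q K : Type} [Fintype Q] [DecidableEq Q] [Fintype K] [DecidableEq K] :
    Function.Injective (flat Q K) := by
  intro M N h
  refine MM.ext fun p q => MM.ext fun i j => ?_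
  have := congrFun (congrFun h (p, i)) (q, j)
  exact this

theorem flat_continuous {Q K : Type} [Fintype Q] [DecidableEq Q] [Fintype K] [DecidableEq K] :
    Continuous (flat Q K) := by
  refine continuous_matrix fun a b => ?_
  have h1 : Continuous fun M : MM Q (MM K ℂ) => M a.1 b.1 :=
    (continuous_apply b.1).comp (continuous_apply a.1)
  exact ((continuous_apply b.2).comp (continuous_apply a.2)).comp h1

/-- all finite dimensional unitary representations of `G` have finite order on `M` -/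
def Tor {G : Type} [Group G] (M : Subgroup G) : Prop :=
  ∀ (n : Type) [Fintype n] [DecidableEq n] (ρ : G →* unitary (Matrix n n ℂ)),
    ∀ m ∈ M, ∃ e : ℕ, 0 < e ∧ ρ m ^ e = 1

end Pool.Agent.Helper72CS
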