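import Pool.Agent.Helper72_CS.Grp

/-!
Group theoretic consequences: `finite_ab`, `per_fixed_finite`, `per_finite`.
-/

set_option autoImplicit false

open Set Filter Topology

noncomputable section

namespace Pool.Agent.Helper72CS

/-- TARGET 1 -/
theorem finite_ab
    (hchars : ∀ (A : Type) [CommGroup A] [Countable A] (B : Subgroup A),
      (∀ χ : ℕ → A →* Circle, (∀ a, Tendsto (fun j => ((χ j a : Circle) : ℂ)) atTop (𝓝 1)) →
        ∀ᶠ j in atTop, ∀ b ∈ B, χ j b = 1) → Finite B)
    {G : Type} [Group G] [Countable G] (L N : Subgroup G) (hNL : N ≤ L)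
    (hA : ∀ χ : ℕ → L →* Circle, (∀ l, Tendsto (fun j => ((χ j l : Circle) : ℂ)) atTop (𝓝 1)) →
      ∀ᶠ j in atTop, ∀ (m : G) (h : m ∈ N), χ j ⟨m, hNL h⟩ = 1) :
    (⁅L, L⁆).relIndex N ≠ 0 := by
  let f : N →* Abelianization L := Abelianization.of.comp (Subgroup.inclusion hNL)
  have hcnt : Countable (Abelianization L) :=
    (QuotientGroup.mk'_surjective (commutator L)).countable
  have hfin : Finite f.range := by
    refine hchars (Abelianization L) f.range fun χ hχ => ?_
    have h := hA (fun j => (χ j).comp Abelianization.of) fun l => hχ _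
    filter_upwards [h] with j hj b hb
    obtain ⟨n, rfl⟩ := hb
    exact hj n.1 n.2
  have hker : f.ker = (⁅L, L⁆).subgroupOf N := by
    ext x
    have h1 : x ∈ f.ker ↔ Subgroup.inclusion hNL x ∈ (Abelianization.of (G := L)).ker := by
      rw [MonoidHom.mem_ker, MonoidHom.mem_ker]
      rfl
    rw [h1, Abelianization.ker_of, Subgroup.mem_subgroupOf, ← L.map_subtype_commutator]
    constructor
    · intro h
      exact ⟨_, h, rfl⟩
    · rintro ⟨z, hz, hz2⟩
      have : z = Subgroup.inclusion hNL x := Subtype.ext hz2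
      rw [← this]
      exact hz
  show ((⁅L, L⁆).subgroupOf N).index ≠ 0
  rw [← hker, Subgroup.index_ker]
  exact Nat.card_pos.ne'

/-- the elements which fix a character -/
def cstab {G : Type} [Group G] (N : Subgroup G) [N.Normal] (y : N →* Circle) : Subgroup G where
  carrier := {g | cact N g y = y}
  one_mem' := cact_one N y
  mul_mem' {a b} ha hb := by
    show cact N (a * b) y = y
    rw [cact_mul, show cact N b y = y from hb]
    exact ha
  inv_mem' {a} ha := by
    show cact N a⁻¹ y = y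
    have h : cact N a⁻¹ (cact N a y) = y := by
      rw [← cact_mul, inv_mul_cancel, cact_one]
    rw [show cact N a y = y from ha] at h
    exact h

theorem finite_roots (M : ℕ) (hM : 0 < M) : {z : Circle | z ^ M = 1}.Finite := by
  have h : {z : ℂ | z ^ M = 1}.Finite := by
    refine ((Polynomial.nthRoots M (1 : ℂ)).toFinset.finite_toSet).subset fun z hz => ?_
    rw [Finset.mem_coe, Multiset.mem_toFinset, Polynomial.mem_nthRoots hM]
    exact hz
  refine Set.Finite.of_finite_image (f := fun z : Circle => (z : ℂ)) (h.subset ?_)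
    (fun a _ b _ hab => Subtype.ext hab)
  rintro _ ⟨z, hz, rfl⟩
  show ((z : Circle) : ℂ) ^ M = 1
  have : z ^ M = 1 := hz
  rw [← Circle.coe_pow, this, Circle.coe_one]

theorem finite_chars {N : Type} [Group N] (K : Subgroup N) (hK : K.index ≠ 0) :
    {y : N →* Circle | K ≤ y.ker}.Finite := by
  have : K.FiniteIndex := ⟨hK⟩
  have hM : 0 < K.index.factorial := Nat.factorial_pos _
  have hS := finite_roots _ hM
  have hpi : (Set.pi Set.univ fun _ : N ⧸ K => {z : Circle | z ^ K.index.factorial = 1}).Finite :=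
    Set.Finite.pi fun _ => hS
  refine Set.Finite.of_finite_image (f := fun (y : N →* Circle) (p : N ⧸ K) => y (Quotient.out p))
    (hpi.subset ?_) ?_
  · rintro _ ⟨y, hy, rfl⟩ p -
    show (y (Quotient.out p)) ^ K.index.factorial = 1
    obtain ⟨i, hi0, hi, hmem⟩ := Subgroup.exists_pow_mem_of_index_ne_zero hK (Quotient.out p)
    obtain ⟨c, hc⟩ := Nat.dvd_factorial hi0 hi
    rw [← map_pow, hc, pow_mul, map_pow, show y (Quotient.out p ^ i) = 1 from hy hmem, one_pow]
  · intro y hy z hz h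
    ext n
    have h1 : ∀ w : N →* Circle, K ≤ w.ker → w n = w (Quotient.out (n : N ⧸ K)) := by
      intro w hw
      have h2 : (Quotient.out (n : N ⧸ K))⁻¹ * n ∈ K :=
        QuotientGroup.eq.1 (QuotientGroup.out_eq' (n : N ⧸ K))
      have h3 : w ((Quotient.out (n : N ⧸ K))⁻¹ * n) = 1 := hw h2
      rw [map_mul, map_inv, inv_mul_eq_one] at h3
      exact h3.symm
    rw [h1 y hy, h1 z hz]
    exact congrArg _ (congrFun h (n : N ⧸ K))

/-- TARGET 2 -/
theorem per_fixed_finite {G : Type} [Group G] (N L : Subgroup G) [N.Normal] (hNL : N ≤ L) (t : G)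
    (ht : t ∈ L) (hL : ∀ l ∈ L, ∃ m ∈ N, ∃ e : ℤ, l = m * t ^ e)
    (hfree : ∀ e : ℤ, t ^ e ∈ N → e = 0) (hfin : (⁅L, L⁆).relIndex N ≠ 0) :
    {y : N →* Circle | cact N t y = y}.Finite := by
  refine (finite_chars ((⁅L, L⁆).subgroupOf N) hfin).subset fun y hy => ?_
  have ht' : t ∈ cstab N y := hy
  have hinv : ∀ (e : ℤ) (m : N), y (MulAut.conjNormal (t ^ e) m) = y m := by
    intro e m
    have h : cact N (t ^ e)⁻¹ y = y := (cstab N y).inv_mem ((cstab N y).zpow_mem ht' e)
    have h2 := DFunLike.congr_fun h m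
    rw [cact_apply, inv_inv] at h2
    exact h2
  have hle : ⁅L, L⁆ ≤ y.ker.map N.subtype := by
    rw [Subgroup.commutator_le]
    intro g hg g' hg'
    obtain ⟨m, hm, e, rfl⟩ := hL g hg
    obtain ⟨m', hm', e', rfl⟩ := hL g' hg'
    refine ⟨⟨m, hm⟩ * MulAut.conjNormal (t ^ e) ⟨m', hm'⟩ *
      MulAut.conjNormal (t ^ e') (⟨m, hm⟩ : N)⁻¹ * (⟨m', hm'⟩ : N)⁻¹, ?_, ?_⟩
    · show y _ = 1
      rw [map_mul, map_mul, map_mul, hinv, hinv, map_inv, map_inv]
      rw [mul_comm (y ⟨m, hm⟩), mul_inv_cancel_right, mul_inv_cancel]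
    · show ((⟨m, hm⟩ * MulAut.conjNormal (t ^ e) ⟨m', hm'⟩ *
        MulAut.conjNormal (t ^ e') (⟨m, hm⟩ : N)⁻¹ * (⟨m', hm'⟩ : N)⁻¹ : N) : G) = _
      rw [Subgroup.coe_mul, Subgroup.coe_mul, Subgroup.coe_mul, MulAut.conjNormal_apply,
        MulAut.conjNormal_apply, Subgroup.coe_inv, Subgroup.coe_inv, commutatorElement_def]
      have hc : t ^ e' * (t ^ e)⁻¹ = (t ^ e)⁻¹ * t ^ e' := by
        rw [← zpow_neg]
        exact ((Commute.refl t).zpow_zpow e' (-e)).eq
      simp only [mul_inv_rev, mul_assoc]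
      rw [← mul_assoc (t ^ e') (t ^ e)⁻¹, hc]
      simp only [mul_assoc]
  intro x hx
  obtain ⟨z, hz, hzx⟩ := hle (Subgroup.mem_subgroupOf.1 hx)
  have : z = x := Subtype.ext hzx
  rw [← this]
  exact hz

/-- TARGET 3 -/
theorem per_finite
    (hseq0 : ∀ (N : Type) [Group N] [Countable N] (P : Subgroup (N →* Circle)),
      (P : Set (N →* Circle)).Infinite → ∀ F : Set (N →* Circle), F.Finite →
      ∃ y : ℕ → N →* Circle, (∀ j, y j ∈ P ∧ y j ∉ F) ∧
        ∀ m, Tendsto (fun j => ((y j m : Circle) : ℂ)) atTop (𝓝 1))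
    {G : Type} [Group G] [Countable G] (N : Subgroup G) [N.Normal] (τ : G) (q : ℕ)
    (hfix : ∀ i : ℕ, 0 < i → {y : N →* Circle | cact N (τ ^ i) y = y}.Finite)
    (hseq : ∀ (y : ℕ → N →* Circle) (k : ℕ → ℕ), (∀ j, q < k j) →
      (∀ j, cact N (τ ^ k j) (y j) = y j) →
      (∀ j i, 0 < i → i < k j → cact N (τ ^ i) (y j) ≠ y j) →
      (∀ m, Tendsto (fun j => ((y j m : Circle) : ℂ)) atTop (𝓝 1)) → False) :
    (Per N).Finite := by
  classical
  have hmul : ∀ (g : G) (y z : N →* Circle), cact N g (y * z) = cact N g y * cact N g z :=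
    fun _ _ _ => rfl
  have hinv : ∀ (g : G) (y : N →* Circle), cact N g y⁻¹ = (cact N g y)⁻¹ := fun _ _ => rfl
  let P : Subgroup (N →* Circle) :=
    { carrier := Per N
      one_mem' := by
        refine (Set.finite_singleton (1 : N →* Circle)).subset ?_
        rintro _ ⟨g, rfl⟩
        rfl
      mul_mem' := by
        intro a b ha hb
        refine (Set.Finite.image2 (fun u v => u * v) ha hb).subset ?_
        rintro _ ⟨g, rfl⟩
        exact ⟨_, ⟨g, rfl⟩, _, ⟨g, rfl⟩, (hmul g a b).symm⟩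
      inv_mem' := by
        intro a ha
        refine (Set.Finite.image (fun u => u⁻¹) ha).subset ?_
        rintro _ ⟨g, rfl⟩
        exact ⟨_, ⟨g, rfl⟩, (hinv g a).symm⟩ }
  by_contra hinf
  have hPinf : (P : Set (N →* Circle)).Infinite := hinf
  let F : Set (N →* Circle) := ⋃ i ∈ Finset.Icc 1 q, {y | cact N (τ ^ i) y = y}
  have hF : F.Finite := by
    refine Set.Finite.biUnion (Finset.finite_toSet _) fun i hi => hfix i ?_
    exact (Finset.mem_Icc.1 (Finset.mem_coe.1 hi)).1
  obtain ⟨y, hy, hlim⟩ := hseq0 N P hPinf F hF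
  have hex : ∀ j, ∃ i, 0 < i ∧ cact N (τ ^ i) (y j) = y j := by
    intro j
    have hfin : (Set.range fun g : G => cact N g (y j)).Finite := (hy j).1
    have hni : ¬ Set.InjOn (fun i : ℕ => cact N (τ ^ i) (y j)) Set.univ := by
      intro h
      refine Set.infinite_univ (α := ℕ) (Set.Finite.of_finite_image (hfin.subset ?_) h)
      rintro _ ⟨i, -, rfl⟩
      exact ⟨τ ^ i, rfl⟩
    have key : ∀ a b : ℕ, a < b → cact N (τ ^ a) (y j) = cact N (τ ^ b) (y j) →
        ∃ i, 0 < i ∧ cact N (τ ^ i) (y j) = y j := by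
      intro a b hab h
      refine ⟨b - a, by omega, ?_⟩
      have h2 : cact N (τ ^ a)⁻¹ (cact N (τ ^ b) (y j)) = y j := by
        rw [← h, ← cact_mul, inv_mul_cancel, cact_one]
      rw [← cact_mul] at h2
      have h3 : (τ ^ a)⁻¹ * τ ^ b = τ ^ (b - a) := by
        rw [inv_mul_eq_iff_eq_mul, ← pow_add]
        congr 1
        omega
      rwa [h3] at h2
    unfold Set.InjOn at hni
    push Not at hni
    obtain ⟨a, -, b, -, h, hne⟩ := hni
    rcases Nat.lt_or_gt_of_ne hne with h1 | h1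
    · exact key a b h1 h
    · exact key b a h1 h.symm
  refine hseq y (fun j => Nat.find (hex j)) ?_ (fun j => (Nat.find_spec (hex j)).2) ?_ hlim
  · intro j
    by_contra hle
    apply (hy j).2
    refine Set.mem_iUnion₂.2 ⟨Nat.find (hex j), ?_, (Nat.find_spec (hex j)).2⟩
    exact Finset.mem_Icc.2 ⟨(Nat.find_spec (hex j)).1, not_lt.1 hle⟩
  · intro j i hi hlt heq
    exact Nat.find_min (hex j) hlt ⟨hi, heq⟩

end Pool.Agent.Helper72CS
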