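import Mathlib

/-!
JOB path_of_finite_order: a unitary `V` of finite order is joined to `1` by a path of unitaries commuting with everything which commutes with `V`.

Proof. The spectrum of `V` is finite, so the argument is continuous on it; `H = arg V` (continuous
functional calculus) is self adjoint and `γ t = exp (i t H)`.
-/

set_option autoImplicit false

noncomputable section

namespace Pool.Agent.Helper72CS

/-- TARGET -/
theorem path_of_finite_order {A : Type} [CStarAlgebra A] (V : unitary A) (r : ℕ) (hr : 0 < r)
    (hV : V ^ r = 1) :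
    ∃ γ : unitInterval → unitary A, Continuous (fun t => (γ t : A)) ∧ γ 0 = 1 ∧ γ 1 = V ∧
      ∀ B : A, B * (V : A) = (V : A) * B → ∀ t, B * (γ t : A) = (γ t : A) * B := by
  rcases subsingleton_or_nontrivial A with hA | hA
  · exact ⟨fun _ => 1, continuous_const, rfl, Subtype.ext (Subsingleton.elim _ _),
      fun B _ t => Subsingleton.elim _ _⟩
  have hVr : (V : A) ^ r = 1 := by
    have := congrArg (fun u : unitary A => (u : A)) hV
    simpa using this
  have hfin : (spectrum ℂ (V : A)).Finite := by
    have hsub : spectrum ℂ (V : A) ⊆ {z : ℂ | z ^ r = 1} := by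
      intro z hz
      have h1 : z ^ r ∈ spectrum ℂ ((V : A) ^ r) := spectrum.pow_mem_pow (V : A) r hz
      rw [hVr, spectrum.one_eq] at h1
      exact h1
    refine Set.Finite.subset ?_ hsub
    have : {z : ℂ | z ^ r = 1} ⊆ ↑(Polynomial.nthRoots r (1 : ℂ)).toFinset := by
      intro z hz
      rw [Finset.mem_coe, Multiset.mem_toFinset, Polynomial.mem_nthRoots hr]
      exact hz
    exact (Finset.finite_toSet _).subset this
  have hcont : ContinuousOn Complex.arg (spectrum ℂ (V : A)) := hfin.continuousOn _
  have hexp : selfAdjoint.expUnitary (Unitary.argSelfAdjoint V) = V := by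
    ext
    rw [selfAdjoint.expUnitary_coe, Unitary.argSelfAdjoint_coe,
      ← CFC.exp_eq_normedSpace_exp (𝕜 := ℂ), ← cfc_comp_smul .., ← cfc_comp' ..]
    conv_rhs => rw [← cfc_id' ℂ (V : A)]
    refine cfc_congr fun y hy ↦ ?_
    have hy₁ : ‖y‖ = 1 := spectrum.norm_eq_one_of_unitary V.2 hy
    have : Complex.I * y.arg = Complex.log y :=
      Complex.ext (by simp [Complex.log_re, hy₁]) (by simp [Complex.log_im])
    have hy0 : y ≠ 0 := by
      intro h0
      rw [h0, norm_zero] at hy₁
      exact zero_ne_one hy₁
    simpa [← Complex.exp_eq_exp_ℂ, this] using Complex.exp_log hy0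
  refine ⟨fun t => selfAdjoint.expUnitaryPathToOne (Unitary.argSelfAdjoint V) t,
    continuous_subtype_val.comp (selfAdjoint.expUnitaryPathToOne (Unitary.argSelfAdjoint V)).continuous,
    Path.source _, ?_, ?_⟩
  · exact (Path.target _).trans hexp
  · intro B hB t
    have hc : Commute (V : A) B := hB.symm
    have hstar : Commute (star (V : A)) B := by
      have h1 : star (V : A) = ((star V : unitary A) : A) := rfl
      have hVs : (star (V : A)) * (V : A) = 1 := V.2.1
      have hVs' : (V : A) * (star (V : A)) = 1 := V.2.2
      change star (V : A) * B = B * star (V : A)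
      calc star (V : A) * B = star (V : A) * B * ((V : A) * star (V : A)) := by rw [hVs', mul_one]
        _ = star (V : A) * (B * (V : A)) * star (V : A) := by simp only [mul_assoc]
        _ = star (V : A) * ((V : A) * B) * star (V : A) := by rw [hB]
        _ = (star (V : A) * (V : A)) * B * star (V : A) := by simp only [mul_assoc]
        _ = B * star (V : A) := by rw [hVs, one_mul]
    have hH : Commute ((Unitary.argSelfAdjoint V : selfAdjoint A) : A) B := by
      rw [Unitary.argSelfAdjoint_coe]
      exact hc.cfc hstar _
    change B * ((selfAdjoint.expUnitary ((t : ℝ) • Unitary.argSelfAdjoint V) : unitary A) : A) =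
      ((selfAdjoint.expUnitary ((t : ℝ) • Unitary.argSelfAdjoint V) : unitary A) : A) * B
    rw [selfAdjoint.expUnitary_coe]
    have h3 : Commute B (Complex.I • (((t : ℝ) • Unitary.argSelfAdjoint V : selfAdjoint A) : A)) := by
      rw [selfAdjoint.val_smul]
      exact (hH.symm.smul_right (t : ℝ)).smul_right Complex.I
    exact h3.exp_right

end Pool.Agent.Helper72CS
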