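import Mathlib

/-!
JOB exists_generic: a generic combination and a generic element.
-/

set_option autoImplicit false

noncomputable section

namespace Pool.Agent.Helper72CS

/-- a good element for finitely many additive functions -/
theorem exists_good {G ι : Type} [Group G] (L : Subgroup G) (w : ι → G → ℝ)
    (hw : ∀ i, ∀ a ∈ L, ∀ b ∈ L, w i (a * b) = w i a + w i b) (s : Finset ι) :
    ∃ h ∈ L, ∀ i ∈ s, w i h = 0 → ∀ l ∈ L, w i l = 0 := by
  classical
  have hone : ∀ i, w i 1 = 0 := by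
    intro i
    have h1 := hw i 1 L.one_mem 1 L.one_mem
    rw [mul_one] at h1
    linarith
  have hpow : ∀ i, ∀ a ∈ L, ∀ m : ℕ, w i (a ^ m) = m * w i a := by
    intro i a ha m
    induction m with
    | zero => rw [pow_zero, hone]; simp
    | succ m ih =>
      rw [pow_succ, hw i _ (L.pow_mem ha m) _ ha, ih]
      push_cast
      ring
  induction s using Finset.induction_on with
  | empty => exact ⟨1, L.one_mem, fun i hi => by simp at hi⟩
  | insert j s hj ih =>
    obtain ⟨h, hL, hh⟩ := ih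
    by_cases hz : ∀ l ∈ L, w j l = 0
    · refine ⟨h, hL, fun i hi h0 => ?_⟩
      rcases Finset.mem_insert.1 hi with rfl | hi
      · exact hz
      · exact hh i hi h0
    · push Not at hz
      obtain ⟨h', hL', hh'⟩ := hz
      have hfin : ∀ i ∈ insert j s, (¬ ∀ l ∈ L, w i l = 0) →
          {m : ℕ | (m : ℝ) * w i h + w i h' = 0}.Finite := by
        intro i hi hne
        apply Set.Subsingleton.finite
        intro m1 h1 m2 h2
        have h1' : (m1 : ℝ) * w i h + w i h' = 0 := h1
        have h2' : (m2 : ℝ) * w i h + w i h' = 0 := h2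
        have h3 : w i h ≠ 0 := by
          rcases Finset.mem_insert.1 hi with rfl | hi
          · intro h0
            rw [h0, mul_zero, zero_add] at h1'
            exact hh' h1'
          · intro h0
            exact hne (hh i hi h0)
        have h4 : ((m1 : ℝ) - m2) * w i h = 0 := by linarith
        have h5 := (mul_eq_zero.1 h4).resolve_right h3
        have h6 : (m1 : ℝ) = m2 := by linarith
        exact_mod_cast h6
      have hU : (⋃ i ∈ (insert j s).filter (fun i => ¬ ∀ l ∈ L, w i l = 0),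
          {m : ℕ | (m : ℝ) * w i h + w i h' = 0}).Finite := by
        refine Set.Finite.biUnion (Finset.finite_toSet _) fun i hi => ?_
        rw [Finset.mem_coe, Finset.mem_filter] at hi
        exact hfin i hi.1 hi.2
      obtain ⟨m, hm⟩ := hU.exists_notMem
      refine ⟨h ^ m * h', L.mul_mem (L.pow_mem hL m) hL', fun i hi h0 => ?_⟩
      by_contra hne
      apply hm
      rw [Set.mem_iUnion₂]
      refine ⟨i, Finset.mem_filter.2 ⟨hi, hne⟩, ?_⟩
      rw [hw i _ (L.pow_mem hL m) _ hL', hpow i h hL m] at h0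
      exact h0

/-- TARGET -/
theorem exists_generic {G Q : Type} [Group G] [Finite Q] (L : Subgroup G) [L.Normal]
    (x y : G → ℝ) (hx : ∀ a ∈ L, ∀ b ∈ L, x (a * b) = x a + x b)
    (hy : ∀ a ∈ L, ∀ b ∈ L, y (a * b) = y a + y b) (r : Q → G) :
    ∃ t : ℝ, ∃ h ∈ L, ∀ g : Q,
      x ((r g)⁻¹ * h * r g) + t * y ((r g)⁻¹ * h * r g) = x h + t * y h →
      ∀ l ∈ L, x ((r g)⁻¹ * l * r g) = x l ∧ y ((r g)⁻¹ * l * r g) = y l := by
  classical
  have hconj : ∀ g : Q, ∀ l ∈ L, (r g)⁻¹ * l * r g ∈ L := by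
    intro g l hl
    have h1 := ‹L.Normal›.conj_mem l hl (r g)⁻¹
    rwa [inv_inv] at h1
  have hmul : ∀ (g : Q) (a b : G),
      (r g)⁻¹ * (a * b) * r g = ((r g)⁻¹ * a * r g) * ((r g)⁻¹ * b * r g) := by
    intro g a b
    group
  set X : Q → G → ℝ := fun g l => x ((r g)⁻¹ * l * r g) - x l with hX
  set Y : Q → G → ℝ := fun g l => y ((r g)⁻¹ * l * r g) - y l with hY
  have hXa : ∀ g, ∀ a ∈ L, ∀ b ∈ L, X g (a * b) = X g a + X g b := by
    intro g a ha b hb
    simp only [hX]
    rw [hmul, hx _ (hconj g a ha) _ (hconj g b hb), hx a ha b hb]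
    ring
  have hYa : ∀ g, ∀ a ∈ L, ∀ b ∈ L, Y g (a * b) = Y g a + Y g b := by
    intro g a ha b hb
    simp only [hY]
    rw [hmul, hy _ (hconj g a ha) _ (hconj g b hb), hy a ha b hb]
    ring
  have hfin : (⋃ g : Q, {t : ℝ | (∀ l ∈ L, X g l + t * Y g l = 0) ∧
      ¬ ∀ l ∈ L, X g l = 0 ∧ Y g l = 0}).Finite := by
    refine Set.finite_iUnion fun g => ?_
    apply Set.Subsingleton.finite
    rintro t1 ⟨h1, h1'⟩ t2 ⟨h2, _⟩
    by_contra hne
    apply h1'
    intro l hl
    have e1 := h1 l hl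
    have e2 := h2 l hl
    have e3 : (t1 - t2) * Y g l = 0 := by linarith
    have e4 := (mul_eq_zero.1 e3).resolve_left (sub_ne_zero.2 hne)
    refine ⟨?_, e4⟩
    rw [e4, mul_zero, add_zero] at e1
    exact e1
  obtain ⟨t, ht⟩ := hfin.exists_notMem
  have := Fintype.ofFinite Q
  obtain ⟨h, hL, hh⟩ := exists_good L (fun g l => X g l + t * Y g l)
    (by
      intro g a ha b hb
      rw [hXa g a ha b hb, hYa g a ha b hb]
      ring) (Finset.univ : Finset Q)
  refine ⟨t, h, hL, fun g hg l hl => ?_⟩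
  have h0 : X g h + t * Y g h = 0 := by
    simp only [hX, hY]
    linarith
  have h1 := hh g (Finset.mem_univ g) h0
  have h2 : ∀ l ∈ L, X g l = 0 ∧ Y g l = 0 := by
    by_contra hcon
    apply ht
    rw [Set.mem_iUnion]
    exact ⟨g, h1, hcon⟩
  obtain ⟨h3, h4⟩ := h2 l hl
  simp only [hX] at h3
  simp only [hY] at h4
  exact ⟨by linarith, by linarith⟩

end Pool.Agent.Helper72CS
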