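import Mathlib

/-!
# The trace of the logarithm near the unit of a Banach algebra
-/

set_option autoImplicit false

open Set Filter Topology

noncomputable section

namespace Pool.Agent.Helper72CS

variable {A : Type*} [NormedRing A] [NormedAlgebra ℂ A] [CompleteSpace A]

/-- `tl τ a = - τ (log (1 - a))` -/
def tl (τ : A →L[ℂ] ℂ) (a : A) : ℂ := ∑' n : ℕ, τ (a ^ (n + 1)) / ((n : ℂ) + 1)

omit [CompleteSpace A] in
theorem norm_term (τ : A →L[ℂ] ℂ) (a : A) (n : ℕ) :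
    ‖τ (a ^ (n + 1)) / ((n : ℂ) + 1)‖ ≤ ‖τ‖ * ‖a‖ ^ (n + 1) := by
  have h1 : ‖τ (a ^ (n + 1))‖ ≤ ‖τ‖ * ‖a‖ ^ (n + 1) :=
    (τ.le_opNorm _).trans (mul_le_mul_of_nonneg_left (norm_pow_le' a n.succ_pos) (norm_nonneg _))
  have h2 : (1 : ℝ) ≤ ‖((n : ℂ) + 1)‖ := by
    have : ((n : ℂ) + 1) = ((n + 1 : ℕ) : ℂ) := by push_cast; ring
    rw [this, Complex.norm_natCast]
    exact_mod_cast n.succ_pos
  rw [norm_div]
  exact (div_le_self (norm_nonneg _) h2).trans h1

omit [CompleteSpace A] in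
theorem summable_tl (τ : A →L[ℂ] ℂ) {a : A} (ha : ‖a‖ < 1) :
    Summable fun n : ℕ => τ (a ^ (n + 1)) / ((n : ℂ) + 1) := by
  refine Summable.of_norm_bounded (g := fun n : ℕ => ‖τ‖ * ‖a‖ ^ (n + 1)) ?_
    (norm_term τ a)
  have := (summable_geometric_of_lt_one (norm_nonneg a) ha).mul_left (‖τ‖ * ‖a‖)
  refine this.congr fun n => ?_
  rw [pow_succ]
  ring

omit [CompleteSpace A] in
theorem tl_conj (τ : A →L[ℂ] ℂ) (hτ : ∀ a b, τ (a * b) = τ (b * a)) {w w' : A} (h : w' * w = 1)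
    (a : A) : tl τ (w * a * w') = tl τ a := by
  have h1 : ∀ n : ℕ, (w * a * w') ^ (n + 1) = w * a ^ (n + 1) * w' := by
    intro n
    induction n with
    | zero => simp
    | succ n ih =>
      rw [pow_succ, ih, pow_succ a (n + 1)]
      calc w * a ^ (n + 1) * w' * (w * a * w') = w * a ^ (n + 1) * (w' * w) * a * w' := by
            simp only [mul_assoc]
        _ = w * (a ^ (n + 1) * a) * w' := by rw [h, mul_one]; simp only [mul_assoc]
  unfold tl
  congr 1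
  funext n
  rw [h1, hτ, ← mul_assoc, h, one_mul]

omit [CompleteSpace A] in
theorem tl_smul_one (τ : A →L[ℂ] ℂ) {z : ℂ} (hz : ‖1 - z‖ < 1) :
    tl τ ((1 - z) • (1 : A)) = -Complex.log z * τ 1 := by
  have h1 := Complex.hasSum_taylorSeries_neg_log hz
  rw [sub_sub_cancel] at h1
  have h2 := (hasSum_nat_add_iff' 1).2 h1
  simp only [Finset.range_one, Finset.sum_singleton, pow_zero, Nat.cast_zero, div_zero,
    sub_zero] at h2
  have h3 := (h2.mul_right (τ 1)).tsum_eq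
  rw [← h3]
  unfold tl
  congr 1
  funext n
  rw [smul_pow, one_pow, map_smul, smul_eq_mul]
  push_cast
  ring

/-- the derivative of the powers, under the trace -/
theorem hasDerivAt_pow_trace (τ : A →L[ℂ] ℂ) (hτ : ∀ a b, τ (a * b) = τ (b * a)) (A0 A1 : A)
    (z : ℂ) (n : ℕ) : ∃ D : A, HasDerivAt (fun z : ℂ => (A0 + z • A1) ^ (n + 1)) D z ∧
      ∀ C : A, (A0 + z • A1) * C = C * (A0 + z • A1) →
        τ (D * C) = ((n : ℂ) + 1) * τ (C * (A0 + z • A1) ^ n * A1) := by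
  have hA : HasDerivAt (fun z : ℂ => A0 + z • A1) A1 z := by
    have := ((hasDerivAt_id z).smul_const A1).const_add A0
    simpa using this
  induction n with
  | zero =>
    refine ⟨A1, ?_, fun C _ => ?_⟩
    · simpa using hA
    · simp [hτ A1 C]
  | succ n ih =>
    obtain ⟨D, hD, hD2⟩ := ih
    refine ⟨D * (A0 + z • A1) + (A0 + z • A1) ^ (n + 1) * A1, ?_, fun C hC => ?_⟩
    · have := hD.mul hA
      refine this.congr_of_eventuallyEq ?_
      filter_upwards with w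
      rw [pow_succ]
      rfl
    · set T := A0 + z • A1 with hT
      have hTC : T * (T * C) = T * C * T := by rw [mul_assoc, hC]
      have h1 := hD2 (T * C) hTC
      have h2 : ∀ m : ℕ, T ^ m * C = C * T ^ m := fun m => (Commute.pow_left hC m)
      rw [add_mul, map_add, mul_assoc D, h1]
      have h3 : T * C * T ^ n * A1 = C * T ^ (n + 1) * A1 := by
        rw [hC, pow_succ', mul_assoc C T]
      have h4 : τ (T ^ (n + 1) * A1 * C) = τ (C * T ^ (n + 1) * A1) := by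
        rw [hτ, mul_assoc]
      rw [h3, h4]
      push_cast
      ring

theorem hasDerivAt_term (τ : A →L[ℂ] ℂ) (hτ : ∀ a b, τ (a * b) = τ (b * a)) (A0 A1 : A)
    (z : ℂ) (n : ℕ) : HasDerivAt (fun z : ℂ => τ ((A0 + z • A1) ^ (n + 1)) / ((n : ℂ) + 1))
      (τ ((A0 + z • A1) ^ n * A1)) z := by
  obtain ⟨D, hD, hD2⟩ := hasDerivAt_pow_trace τ hτ A0 A1 z n
  have h1 := hD2 1 (by rw [mul_one, one_mul])
  rw [mul_one, one_mul] at h1
  have h2 : HasDerivAt (fun z : ℂ => τ ((A0 + z • A1) ^ (n + 1))) (τ D) z :=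
    τ.hasFDerivAt.comp_hasDerivAt z hD
  have h3 := h2.div_const ((n : ℂ) + 1)
  have h4 : τ D / ((n : ℂ) + 1) = τ ((A0 + z • A1) ^ n * A1) := by
    have : ((n : ℂ) + 1) ≠ 0 := Nat.cast_add_one_ne_zero n
    rw [h1]
    field_simp
  rwa [h4] at h3

theorem hasDerivAt_tl (τ : A →L[ℂ] ℂ) (hτ : ∀ a b, τ (a * b) = τ (b * a)) (A0 A1 : A)
    {R ρ : ℝ} (hR : ∀ z : ℂ, ‖z‖ < R → ‖A0 + z • A1‖ ≤ ρ) (hρ : ρ < 1) {z : ℂ}
    (hz : ‖z‖ < R) :
    HasDerivAt (fun z : ℂ => tl τ (A0 + z • A1)) (τ ((∑' n : ℕ, (A0 + z • A1) ^ n) * A1)) z := by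
  have hR0 : 0 < R := (norm_nonneg z).trans_lt hz
  have hρ0 : 0 ≤ ρ := (norm_nonneg _).trans (hR 0 (by simpa using hR0))
  have h0 : (0 : ℂ) ∈ Metric.ball (0 : ℂ) R := Metric.mem_ball_self hR0
  have hz' : z ∈ Metric.ball (0 : ℂ) R := by simpa using hz
  have hsum : Summable fun n : ℕ => ‖τ‖ * ‖(1 : A)‖ * ‖A1‖ * ρ ^ n :=
    (summable_geometric_of_lt_one hρ0 hρ).mul_left _
  have key := hasDerivAt_tsum_of_isPreconnected (𝕜 := ℂ) (F := ℂ)
    (g := fun (n : ℕ) (z : ℂ) => τ ((A0 + z • A1) ^ (n + 1)) / ((n : ℂ) + 1))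
    (g' := fun (n : ℕ) (z : ℂ) => τ ((A0 + z • A1) ^ n * A1))
    (t := Metric.ball (0 : ℂ) R) (y₀ := 0) (y := z) hsum Metric.isOpen_ball
    (convex_ball _ _).isPreconnected (fun n y _ => hasDerivAt_term τ hτ A0 A1 y n) ?_ h0 ?_ hz'
  · have h5 : (∑' n : ℕ, τ ((A0 + z • A1) ^ n * A1)) = τ ((∑' n : ℕ, (A0 + z • A1) ^ n) * A1) := by
      have hs : Summable fun n : ℕ => (A0 + z • A1) ^ n :=
        summable_geometric_of_norm_lt_one ((hR z hz).trans_lt hρ)
      rw [← hs.tsum_mul_right, τ.map_tsum (hs.mul_right A1)]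
    rw [h5] at key
    exact key
  · intro n y hy
    have hy' : ‖y‖ < R := by simpa using hy
    calc ‖τ ((A0 + y • A1) ^ n * A1)‖ ≤ ‖τ‖ * ‖(A0 + y • A1) ^ n * A1‖ := τ.le_opNorm _
      _ ≤ ‖τ‖ * (‖(1 : A)‖ * ρ ^ n * ‖A1‖) := by
          refine mul_le_mul_of_nonneg_left ?_ (norm_nonneg _)
          refine (norm_mul_le _ _).trans (mul_le_mul_of_nonneg_right ?_ (norm_nonneg _))
          rcases Nat.eq_zero_or_pos n with rfl | hn
          · simp
          · have h6 : ‖(A0 + y • A1) ^ n‖ ≤ ρ ^ n :=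
              (norm_pow_le' _ hn).trans (pow_le_pow_left₀ (norm_nonneg _) (hR y hy') n)
            rcases subsingleton_or_nontrivial A with hA | hA
            · rw [Subsingleton.elim ((A0 + y • A1) ^ n) 0, norm_zero]
              positivity
            · have h7 : (1 : ℝ) ≤ ‖(1 : A)‖ := one_le_norm_one A
              calc ‖(A0 + y • A1) ^ n‖ ≤ ρ ^ n := h6
                _ = 1 * ρ ^ n := (one_mul _).symm
                _ ≤ ‖(1 : A)‖ * ρ ^ n := by gcongr
      _ = ‖τ‖ * ‖(1 : A)‖ * ‖A1‖ * ρ ^ n := by ring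
  · exact summable_tl τ (by simpa using (hR 0 (by simpa using hR0)).trans_lt hρ)

theorem tl_mul [NormOneClass A] (τ : A →L[ℂ] ℂ) (hτ : ∀ a b, τ (a * b) = τ (b * a)) {X Y : A}
    (hX : ‖1 - X‖ ≤ 1 / 4) (hY : ‖1 - Y‖ ≤ 1 / 4) :
    tl τ (1 - X * Y) = tl τ (1 - X) + tl τ (1 - Y) := by
  have hXn : ‖X‖ ≤ 5 / 4 := by
    have : X = 1 - (1 - X) := by abel
    rw [this]
    refine (norm_sub_le _ _).trans ?_
    rw [norm_one]
    linarith
  set B := 1 - Y with hB
  have hR1 : ∀ z : ℂ, ‖z‖ < 2 → ‖(1 - X) + z • (X * B)‖ ≤ 7 / 8 := by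
    intro z hz
    calc ‖(1 - X) + z • (X * B)‖ ≤ ‖1 - X‖ + ‖z • (X * B)‖ := norm_add_le _ _
      _ ≤ 1 / 4 + 2 * (5 / 4 * (1 / 4)) := by
          refine add_le_add hX ?_
          rw [norm_smul]
          refine mul_le_mul hz.le ?_ (norm_nonneg _) (by norm_num)
          exact (norm_mul_le _ _).trans (mul_le_mul hXn hY (norm_nonneg _) (by norm_num))
      _ = 7 / 8 := by norm_num
  have hR2 : ∀ z : ℂ, ‖z‖ < 2 → ‖(0 : A) + z • B‖ ≤ 7 / 8 := by
    intro z hz
    rw [zero_add, norm_smul]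
    have := mul_le_mul hz.le hY (norm_nonneg _) (by norm_num)
    linarith
  have hd : ∀ z ∈ Metric.ball (0 : ℂ) 2, HasDerivAt
      (fun z : ℂ => tl τ ((1 - X) + z • (X * B)) - tl τ (0 + z • B)) 0 z := by
    intro z hz
    have hz' : ‖z‖ < 2 := by simpa using hz
    have h1 := hasDerivAt_tl τ hτ (1 - X) (X * B) hR1 (by norm_num) hz'
    have h2 := hasDerivAt_tl τ hτ 0 B hR2 (by norm_num) hz'
    have h3 := h1.sub h2
    have h4 : τ ((∑' n : ℕ, ((1 - X) + z • (X * B)) ^ n) * (X * B)) -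
        τ ((∑' n : ℕ, (0 + z • B) ^ n) * B) = 0 := by
      rw [sub_eq_zero]
      congr 1
      set S1 := ∑' n : ℕ, ((1 - X) + z • (X * B)) ^ n with hS1
      set S2 := ∑' n : ℕ, (0 + z • B) ^ n with hS2
      have e1 : S1 * (1 - ((1 - X) + z • (X * B))) = 1 :=
        geom_series_mul_neg _ ((hR1 z hz').trans_lt (by norm_num))
      have e2 : (1 - (0 + z • B)) * S2 = 1 :=
        mul_neg_geom_series _ ((hR2 z hz').trans_lt (by norm_num))
      have e3 : 1 - ((1 - X) + z • (X * B)) = X * (1 - (0 + z • B)) := by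
        rw [zero_add, mul_sub X 1 (z • B), mul_one, mul_smul_comm]
        abel
      rw [e3] at e1
      have e4 : S1 * X = S2 := by
        calc S1 * X = S1 * X * ((1 - (0 + z • B)) * S2) := by rw [e2, mul_one]
          _ = (S1 * (X * (1 - (0 + z • B)))) * S2 := by simp only [mul_assoc]
          _ = S2 := by rw [e1, one_mul]
      rw [← mul_assoc, e4]
    rw [h4] at h3
    exact h3
  have hc := Metric.isOpen_ball.is_const_of_deriv_eq_zero (x := (1 : ℂ)) (y := (0 : ℂ))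
    (convex_ball (0 : ℂ) 2).isPreconnected
    (fun z hz => (hd z hz).differentiableAt.differentiableWithinAt)
    (fun z hz => (hd z hz).deriv) (by simp) (by simp)
  simp only [one_smul, zero_smul, add_zero, zero_add] at hc
  have e5 : (1 - X) + X * B = 1 - X * Y := by
    rw [hB, mul_sub, mul_one]
    abel
  have e6 : tl τ (0 : A) = 0 := by
    unfold tl
    simp
  rw [e5, e6, sub_zero] at hc
  rw [← hc]
  ring

end Pool.Agent.Helper72CS
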