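import Pool.Agent.Helper72_CS.Sub

/-!
# Twisted regular representations
-/

set_option autoImplicit false

open Set Filter Topology
open scoped ENNReal

noncomputable section

namespace Pool.Agent.Helper72CS

/-- the Hilbert space `ℓ²(X)` -/
abbrev L2 (X : Type) : Type := lp (fun _ : X => ℂ) 2

section mono

variable {X : Type}

theorem two_pos' : 0 < (2 : ℝ≥0∞).toReal := by norm_num

/-- a weighted permutation of `ℓ²(X)` -/
def monoI (σ : X ≃ X) (p : X → ℂ) (hp : ∀ x, ‖p x‖ = 1) : L2 X →ₗᵢ[ℂ] L2 X where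
  toFun f := ⟨fun x => p x * f (σ x), (memℓp_gen_iff two_pos').2 (by
    have h := (lp.hasSum_norm two_pos' f).summable
    refine ((Equiv.summable_iff σ).2 h).congr fun x => ?_
    simp only [Function.comp_apply]
    rw [norm_mul, hp, one_mul])⟩
  map_add' f g := by
    apply lp.ext
    funext x
    exact mul_add _ _ _
  map_smul' c f := by
    apply lp.ext
    funext x
    exact mul_left_comm _ _ _
  norm_map' f := by
    have h1 := lp.norm_eq_tsum_rpow two_pos' f
    rw [h1, lp.norm_eq_tsum_rpow two_pos']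
    congr 1
    have h2 := Equiv.tsum_eq σ (fun x => ‖f x‖ ^ (2 : ℝ≥0∞).toReal)
    rw [← h2]
    refine tsum_congr fun x => ?_
    show ‖p x * f (σ x)‖ ^ _ = _
    rw [norm_mul, hp, one_mul]

theorem monoI_apply (σ : X ≃ X) (p : X → ℂ) (hp : ∀ x, ‖p x‖ = 1) (f : L2 X) (x : X) :
    monoI σ p hp f x = p x * f (σ x) := rfl

theorem monoI_surj (σ : X ≃ X) (p : X → ℂ) (hp : ∀ x, ‖p x‖ = 1) :
    Function.Surjective (monoI σ p hp) := by
  intro g
  have hp' : ∀ x, ‖(p (σ.symm x))⁻¹‖ = 1 := fun x => by rw [norm_inv, hp, inv_one]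
  refine ⟨monoI σ.symm (fun x => (p (σ.symm x))⁻¹) hp' g, ?_⟩
  apply lp.ext
  funext x
  rw [monoI_apply, monoI_apply, Equiv.symm_apply_apply, ← mul_assoc, mul_inv_cancel₀, one_mul]
  intro h
  have := hp x
  rw [h, norm_zero] at this
  exact zero_ne_one this

/-- a weighted permutation as a unitary operator -/
def monoU (σ : X ≃ X) (p : X → ℂ) (hp : ∀ x, ‖p x‖ = 1) : unitary (L2 X →L[ℂ] L2 X) :=
  Unitary.linearIsometryEquiv.symm (LinearIsometryEquiv.ofSurjective _ (monoI_surj σ p hp))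

theorem monoU_apply (σ : X ≃ X) (p : X → ℂ) (hp : ∀ x, ‖p x‖ = 1) (f : L2 X) (x : X) :
    (monoU σ p hp : L2 X →L[ℂ] L2 X) f x = p x * f (σ x) := rfl

theorem op_ext {S T : L2 X →L[ℂ] L2 X} (h : ∀ f x, S f x = T f x) : S = T := by
  refine ContinuousLinearMap.ext fun f => ?_
  apply lp.ext
  funext x
  exact h f x

end mono

section twist

variable {G : Type} [Group G] (c : G → G → ℝ) (t : ℝ)

/-- `exp (i t c(g,h))` -/
def om (g h : G) : ℂ := Complex.exp ((t * c g h : ℝ) * Complex.I)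

theorem norm_om (g h : G) : ‖om c t g h‖ = 1 := Complex.norm_exp_ofReal_mul_I _

/-- the twisted translations -/
def tw (g : G) : unitary (L2 G →L[ℂ] L2 G) :=
  monoU (Equiv.mulLeft g⁻¹) (fun x => om c t g (g⁻¹ * x)) fun _ => norm_om c t _ _

theorem tw_apply (g : G) (f : L2 G) (x : G) :
    (tw c t g : L2 G →L[ℂ] L2 G) f x = om c t g (g⁻¹ * x) * f (g⁻¹ * x) := rfl

/-- The cocycle identity. -/
def IsCocycle (c : G → G → ℝ) : Prop := ∀ g h k, c h k + c g (h * k) = c (g * h) k + c g h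

variable {c}

theorem om_cocycle (hc : IsCocycle c) (g h k : G) :
    om c t h k * om c t g (h * k) = om c t (g * h) k * om c t g h := by
  unfold om
  rw [← Complex.exp_add, ← Complex.exp_add, ← add_mul, ← add_mul, ← Complex.ofReal_add,
    ← Complex.ofReal_add, ← mul_add, ← mul_add, hc g h k]

theorem cocycle_one_left (hc : IsCocycle c) (k : G) : c 1 k = c 1 1 := by
  have := hc 1 1 k
  rw [one_mul, one_mul] at this
  linarith

theorem cocycle_inv (hc : IsCocycle c) (g : G) : c g g⁻¹ = c g⁻¹ g := by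
  have h1 := hc g g⁻¹ g
  rw [inv_mul_cancel, mul_inv_cancel] at h1
  have h2 := hc g 1 1
  rw [mul_one, mul_one] at h2
  have h3 := cocycle_one_left hc g
  linarith

theorem tw_mul (hc : IsCocycle c) (g h : G) :
    (tw c t g : L2 G →L[ℂ] L2 G) * tw c t h = om c t g h • (tw c t (g * h) : L2 G →L[ℂ] L2 G) := by
  refine op_ext fun f x => ?_
  show (tw c t g : L2 G →L[ℂ] L2 G) ((tw c t h : L2 G →L[ℂ] L2 G) f) x =
    om c t g h * (tw c t (g * h) : L2 G →L[ℂ] L2 G) f x
  rw [tw_apply, tw_apply, tw_apply]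
  have h1 := om_cocycle t hc g h (h⁻¹ * (g⁻¹ * x))
  have h2 : h * (h⁻¹ * (g⁻¹ * x)) = g⁻¹ * x := by group
  have h3 : (g * h)⁻¹ * x = h⁻¹ * (g⁻¹ * x) := by group
  rw [h2] at h1
  rw [h3]
  calc om c t g (g⁻¹ * x) * (om c t h (h⁻¹ * (g⁻¹ * x)) * f (h⁻¹ * (g⁻¹ * x)))
      = (om c t h (h⁻¹ * (g⁻¹ * x)) * om c t g (g⁻¹ * x)) * f (h⁻¹ * (g⁻¹ * x)) := by ring
    _ = _ := by rw [h1]; ring

theorem tw_one (hc : IsCocycle c) :
    (tw c t 1 : L2 G →L[ℂ] L2 G) = om c t 1 1 • (1 : L2 G →L[ℂ] L2 G) := by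
  refine op_ext fun f x => ?_
  show (tw c t 1 : L2 G →L[ℂ] L2 G) f x = om c t 1 1 * f x
  rw [tw_apply, inv_one, one_mul]
  congr 1
  unfold om
  rw [cocycle_one_left hc]

theorem tw_star (hc : IsCocycle c) (g : G) : star (tw c t g : L2 G →L[ℂ] L2 G) =
    (om c t g⁻¹ g * om c t 1 1)⁻¹ • (tw c t g⁻¹ : L2 G →L[ℂ] L2 G) := by
  have h1 : (tw c t g⁻¹ : L2 G →L[ℂ] L2 G) * tw c t g =
      (om c t g⁻¹ g * om c t 1 1) • (1 : L2 G →L[ℂ] L2 G) := by
    rw [tw_mul t hc, inv_mul_cancel, tw_one t hc, smul_smul]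
  have h2 : om c t g⁻¹ g * om c t 1 1 ≠ 0 := by
    have h3 : ‖om c t g⁻¹ g * om c t 1 1‖ = 1 := by rw [norm_mul, norm_om, norm_om, one_mul]
    intro h
    rw [h, norm_zero] at h3
    exact zero_ne_one h3
  calc star (tw c t g : L2 G →L[ℂ] L2 G)
      = ((om c t g⁻¹ g * om c t 1 1)⁻¹ • ((tw c t g⁻¹ : L2 G →L[ℂ] L2 G) * tw c t g)) *
          star (tw c t g : L2 G →L[ℂ] L2 G) := by
        rw [h1, smul_smul, inv_mul_cancel₀ h2, one_smul, one_mul]
    _ = _ := by
        rw [smul_mul_assoc, mul_assoc, Unitary.mul_star_self_of_mem (tw c t g).2, mul_one]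

open scoped Classical in
/-- the canonical trace -/
def tra : (L2 G →L[ℂ] L2 G) →L[ℂ] ℂ :=
  (innerSL ℂ (lp.single 2 (1 : G) (1 : ℂ) : L2 G)).comp
    (ContinuousLinearMap.apply ℂ (L2 G) (lp.single 2 (1 : G) (1 : ℂ) : L2 G))

open scoped Classical in
theorem tra_apply (T : L2 G →L[ℂ] L2 G) : tra T = T (lp.single 2 (1 : G) (1 : ℂ)) 1 := by
  unfold tra
  simp only [ContinuousLinearMap.comp_apply, ContinuousLinearMap.apply_apply, innerSL_apply_apply]
  rw [lp.inner_single_left]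
  simp

theorem tra_one : tra (1 : L2 G →L[ℂ] L2 G) = 1 := by
  classical
  rw [tra_apply]
  simp

theorem tra_tw (g : G) (hg : g ≠ 1) : tra (tw c t g : L2 G →L[ℂ] L2 G) = 0 := by
  classical
  rw [tra_apply, tw_apply, mul_one, lp.single_apply, Pi.single_eq_of_ne, mul_zero]
  simpa using hg

theorem tra_comm_tw (hc : IsCocycle c) (g h : G) :
    tra ((tw c t g : L2 G →L[ℂ] L2 G) * (tw c t h : L2 G →L[ℂ] L2 G)) =
      tra ((tw c t h : L2 G →L[ℂ] L2 G) * (tw c t g : L2 G →L[ℂ] L2 G)) := by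
  rw [tw_mul t hc, tw_mul t hc, map_smul, map_smul]
  by_cases hgh : g * h = 1
  · have h1 : h = g⁻¹ := (eq_inv_of_mul_eq_one_right hgh)
    subst h1
    rw [mul_inv_cancel, inv_mul_cancel]
    congr 1
    unfold om
    rw [cocycle_inv hc]
  · have h2 : h * g ≠ 1 := fun h => hgh (mul_eq_one_comm.1 h)
    rw [tra_tw t _ hgh, tra_tw t _ h2, smul_zero, smul_zero]

/-- the span of the twisted translations, as a star subalgebra -/
def twAlg (hc : IsCocycle c) : StarSubalgebra ℂ (L2 G →L[ℂ] L2 G) where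
  carrier := (Submodule.span ℂ (range fun g => (tw c t g : L2 G →L[ℂ] L2 G)) : Set _)
  mul_mem' := by
    intro a b ha hb
    have ha' : a ∈ Submodule.span ℂ (range fun g => (tw c t g : L2 G →L[ℂ] L2 G)) := ha
    have hb' : b ∈ Submodule.span ℂ (range fun g => (tw c t g : L2 G →L[ℂ] L2 G)) := hb
    show a * b ∈ Submodule.span ℂ (range fun g => (tw c t g : L2 G →L[ℂ] L2 G))
    induction ha' using Submodule.span_induction with
    | mem x hx =>
      obtain ⟨g, rfl⟩ := hx
      induction hb' using Submodule.span_induction with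
      | mem y hy =>
        obtain ⟨h, rfl⟩ := hy
        simp only
        rw [tw_mul t hc]
        exact Submodule.smul_mem _ _ (Submodule.subset_span ⟨_, rfl⟩)
      | zero => rw [mul_zero]; exact Submodule.zero_mem _
      | add y z hy hz ihy ihz => rw [mul_add]; exact Submodule.add_mem _ (ihy hy) (ihz hz)
      | smul r y hy ihy => rw [mul_smul_comm]; exact Submodule.smul_mem _ _ (ihy hy)
    | zero => rw [zero_mul]; exact Submodule.zero_mem _
    | add y z hy hz ihy ihz => rw [add_mul]; exact Submodule.add_mem _ (ihy hy) (ihz hz)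
    | smul r y hy ihy => rw [smul_mul_assoc]; exact Submodule.smul_mem _ _ (ihy hy)
  add_mem' := fun ha hb => Submodule.add_mem _ ha hb
  algebraMap_mem' := by
    intro r
    show algebraMap ℂ _ r ∈ Submodule.span ℂ (range fun g => (tw c t g : L2 G →L[ℂ] L2 G))
    rw [Algebra.algebraMap_eq_smul_one]
    refine Submodule.smul_mem _ _ ?_
    have h1 : (1 : L2 G →L[ℂ] L2 G) = (om c t 1 1)⁻¹ • (tw c t 1 : L2 G →L[ℂ] L2 G) := by
      rw [tw_one t hc, smul_smul, inv_mul_cancel₀, one_smul]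
      intro h
      have := norm_om c t (1 : G) 1
      rw [h, norm_zero] at this
      exact zero_ne_one this
    rw [h1]
    exact Submodule.smul_mem _ _ (Submodule.subset_span ⟨_, rfl⟩)
  star_mem' := by
    intro a ha
    have ha' : a ∈ Submodule.span ℂ (range fun g => (tw c t g : L2 G →L[ℂ] L2 G)) := ha
    show star a ∈ Submodule.span ℂ (range fun g => (tw c t g : L2 G →L[ℂ] L2 G))
    induction ha' using Submodule.span_induction with
    | mem x hx =>
      obtain ⟨g, rfl⟩ := hx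
      simp only
      rw [tw_star t hc]
      exact Submodule.smul_mem _ _ (Submodule.subset_span ⟨_, rfl⟩)
    | zero => rw [star_zero]; exact Submodule.zero_mem _
    | add y z hy hz ihy ihz => rw [star_add]; exact Submodule.add_mem _ (ihy hy) (ihz hz)
    | smul r y hy ihy => rw [star_smul]; exact Submodule.smul_mem _ _ (ihy hy)

theorem tra_comm_alg (hc : IsCocycle c) {a b : L2 G →L[ℂ] L2 G} (ha : a ∈ twAlg t hc)
    (hb : b ∈ twAlg t hc) : tra (a * b) = tra (b * a) := by
  have ha' : a ∈ Submodule.span ℂ (range fun g => (tw c t g : L2 G →L[ℂ] L2 G)) := ha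
  have hb' : b ∈ Submodule.span ℂ (range fun g => (tw c t g : L2 G →L[ℂ] L2 G)) := hb
  clear ha hb
  induction ha' using Submodule.span_induction with
  | mem x hx =>
    obtain ⟨g, rfl⟩ := hx
    induction hb' using Submodule.span_induction with
    | mem y hy =>
      obtain ⟨h, rfl⟩ := hy
      exact tra_comm_tw t hc g h
    | zero => rw [mul_zero, zero_mul]
    | add y z hy hz ihy ihz => rw [mul_add, add_mul, map_add, map_add, ihy, ihz]
    | smul r y hy ihy => rw [mul_smul_comm, smul_mul_assoc, map_smul, map_smul, ihy]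
  | zero => rw [mul_zero, zero_mul]
  | add y z hy hz ihy ihz => rw [mul_add, add_mul, map_add, map_add, ihy, ihz]
  | smul r y hy ihy => rw [mul_smul_comm, smul_mul_assoc, map_smul, map_smul, ihy]

/-- the generators of the twisted group C*-algebra -/
def twS (c : G → G → ℝ) (t : ℝ) : Set (L2 G →L[ℂ] L2 G) :=
  range fun g => (tw c t g : L2 G →L[ℂ] L2 G)

theorem SA_subset (hc : IsCocycle c) :
    (SA (twS c t) : Set (L2 G →L[ℂ] L2 G)) ⊆ closure (twAlg t hc : Set (L2 G →L[ℂ] L2 G)) := by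
  unfold SA
  rw [StarSubalgebra.topologicalClosure_coe]
  refine closure_mono ?_
  have : StarAlgebra.adjoin ℂ (twS c t) ≤ twAlg t hc := by
    refine StarAlgebra.adjoin_le ?_
    rintro _ ⟨g, rfl⟩
    exact Submodule.subset_span ⟨g, rfl⟩
  exact this

theorem tra_comm (hc : IsCocycle c) {a b : L2 G →L[ℂ] L2 G} (ha : a ∈ SA (twS c t))
    (hb : b ∈ SA (twS c t)) : tra (a * b) = tra (b * a) := by
  have ha' := SA_subset t hc ha
  have hb' := SA_subset t hc hb
  have hcl : IsClosed {p : (L2 G →L[ℂ] L2 G) × (L2 G →L[ℂ] L2 G) |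
      tra (p.1 * p.2) = tra (p.2 * p.1)} :=
    isClosed_eq (tra.continuous.comp (continuous_fst.mul continuous_snd))
      (tra.continuous.comp (continuous_snd.mul continuous_fst))
  have hsub : (closure ((twAlg t hc : Set (L2 G →L[ℂ] L2 G)) ×ˢ
      (twAlg t hc : Set (L2 G →L[ℂ] L2 G)))) ⊆ {p : (L2 G →L[ℂ] L2 G) × (L2 G →L[ℂ] L2 G) |
      tra (p.1 * p.2) = tra (p.2 * p.1)} := by
    refine hcl.closure_subset_iff.2 ?_
    rintro ⟨x, y⟩ ⟨hx, hy⟩
    exact tra_comm_alg t hc hx hy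
  have hmem : (a, b) ∈ closure ((twAlg t hc : Set (L2 G →L[ℂ] L2 G)) ×ˢ
      (twAlg t hc : Set (L2 G →L[ℂ] L2 G))) := by
    rw [closure_prod_eq]
    exact ⟨ha', hb'⟩
  exact hsub hmem

end twist

end Pool.Agent.Helper72CS
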