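import Pool.Agent.Helper72_CS.PerturbW
import Pool.Agent.Helper72_CS.TLog
import Pool.Agent.Helper72_CS.Twist

/-!
# The second real cohomology of a `C*`-stable group vanishes
-/

set_option autoImplicit false

open Set Filter Topology TopologicalSpace
open scoped ENNReal

noncomputable section

namespace Pool.Agent.Helper72CS

/-- a linear system over `ℝ` all of whose finite subsystems are solvable is solvable -/
theorem exists_of_finite {V I : Type} [AddCommGroup V] [Module ℝ V] (r : I → V) (c : I → ℝ)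
    (h : ∀ F : Finset I, ∃ f : V →ₗ[ℝ] ℝ, ∀ i ∈ F, f (r i) = c i) :
    ∃ f : V →ₗ[ℝ] ℝ, ∀ i, f (r i) = c i := by
  classical
  let L : (I →₀ ℝ) →ₗ[ℝ] V := Finsupp.linearCombination ℝ r
  let C : (I →₀ ℝ) →ₗ[ℝ] ℝ := Finsupp.linearCombination ℝ c
  have hC : C ∈ L.dualMap.range := by
    rw [LinearMap.range_dualMap_eq_dualAnnihilator_ker, Submodule.mem_dualAnnihilator]
    intro x hx
    obtain ⟨f, hf⟩ := h x.support
    have h1 : f (L x) = C x := by
      show f (Finsupp.linearCombination ℝ r x) = Finsupp.linearCombination ℝ c x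
      rw [Finsupp.linearCombination_apply, Finsupp.linearCombination_apply, Finsupp.sum,
        Finsupp.sum, map_sum]
      refine Finset.sum_congr rfl fun i hi => ?_
      rw [map_smul, hf i hi]
    have h2 : L x = 0 := hx
    rw [h2, map_zero] at h1
    exact h1.symm
  obtain ⟨f, hf⟩ := hC
  refine ⟨f, fun i => ?_⟩
  have h1 := congrArg (fun T : (I →₀ ℝ) →ₗ[ℝ] ℝ => T (Finsupp.single i 1)) hf
  have h2 : f (L (Finsupp.single i 1)) = C (Finsupp.single i 1) := h1
  have h3 : L (Finsupp.single i 1) = r i := by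
    show Finsupp.linearCombination ℝ r (Finsupp.single i 1) = r i
    rw [Finsupp.linearCombination_single, one_smul]
  have h4 : C (Finsupp.single i 1) = c i := by
    show Finsupp.linearCombination ℝ c (Finsupp.single i 1) = c i
    rw [Finsupp.linearCombination_single, one_smul]
  rw [h3, h4] at h2
  exact h2

section

variable {G : Type} [Group G] {c : G → G → ℝ}

/-- the twisted group C*-algebra -/
abbrev TwD (c : G → G → ℝ) (t : ℝ) : Type := SAT (twS c t)

/-- the twisted translations as elements of the twisted group C*-algebra -/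
def twE (c : G → G → ℝ) (t : ℝ) (g : G) : TwD c t :=
  (exists_incl (twS c t) ⟨g, rfl⟩ : ∃ b : TwD c t, incl _ b = (tw c t g : L2 G →L[ℂ] L2 G)).choose

theorem incl_twE (t : ℝ) (g : G) :
    incl (twS c t) (twE c t g) = (tw c t g : L2 G →L[ℂ] L2 G) :=
  (exists_incl (twS c t) ⟨g, rfl⟩ : ∃ b : TwD c t, incl _ b = (tw c t g : L2 G →L[ℂ] L2 G)).choose_spec

theorem twE_mul (hc : IsCocycle c) (t : ℝ) (g h : G) :
    twE c t g * twE c t h = om c t g h • twE c t (g * h) := by
  apply incl_injective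
  rw [map_mul, map_smul, incl_twE, incl_twE, incl_twE, tw_mul t hc]

theorem twE_one (hc : IsCocycle c) (t : ℝ) : twE c t 1 = om c t 1 1 • (1 : TwD c t) := by
  apply incl_injective
  rw [map_smul, incl_twE, tw_one t hc, map_one]

theorem twE_star (hc : IsCocycle c) (t : ℝ) (g : G) :
    star (twE c t g) = (om c t g⁻¹ g * om c t 1 1)⁻¹ • twE c t g⁻¹ := by
  apply incl_injective
  rw [map_star, map_smul, incl_twE, incl_twE, tw_star t hc]

theorem star_mul_twE (t : ℝ) (g : G) : star (twE c t g) * twE c t g = 1 := by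
  apply incl_injective
  rw [map_mul, map_star, incl_twE, map_one, Unitary.star_mul_self_of_mem (tw c t g).2]

theorem mul_star_twE (t : ℝ) (g : G) : twE c t g * star (twE c t g) = 1 := by
  apply incl_injective
  rw [map_mul, map_star, incl_twE, map_one, Unitary.mul_star_self_of_mem (tw c t g).2]

instance nontrivial_TwD (t : ℝ) : Nontrivial (TwD c t) := by
  refine ⟨0, 1, fun h => ?_⟩
  have h1 : (0 : L2 G →L[ℂ] L2 G) = 1 := by
    rw [← map_zero (incl (twS c t)), h, map_one]
  have h2 := tra_one (G := G)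
  rw [← h1, map_zero] at h2
  exact zero_ne_one h2

theorem norm_twE_le (t : ℝ) (g : G) : ‖twE c t g‖ ≤ 1 := by
  have h : twE c t g ∈ unitary (TwD c t) :=
    Unitary.mem_iff.2 ⟨star_mul_twE t g, mul_star_twE t g⟩
  exact (CStarRing.norm_of_mem_unitary h).le

/-- the trace of the twisted group C*-algebra -/
def trD (c : G → G → ℝ) (t : ℝ) : TwD c t →L[ℂ] ℂ :=
  tra.comp (⟨(incl (twS c t)).toAlgHom.toLinearMap,
    AddMonoidHomClass.continuous_of_bound (incl (twS c t)) 1 fun x => by
      rw [one_mul, norm_incl]⟩ : TwD c t →L[ℂ] (L2 G →L[ℂ] L2 G))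

theorem trD_apply (t : ℝ) (x : TwD c t) : trD c t x = tra (incl (twS c t) x) := rfl

theorem trD_comm (hc : IsCocycle c) (t : ℝ) (a b : TwD c t) :
    trD c t (a * b) = trD c t (b * a) := by
  rw [trD_apply, trD_apply, map_mul (incl (twS c t)), map_mul (incl (twS c t))]
  exact tra_comm t hc (show incl (twS c t) a ∈ SA (twS c t) from a.2)
    (show incl (twS c t) b ∈ SA (twS c t) from b.2)

theorem trD_one (t : ℝ) : trD c t 1 = 1 := by
  rw [trD_apply, map_one, tra_one]

theorem om_tendsto (x : ℝ) {t : ℕ → ℝ} (ht : Tendsto t atTop (𝓝 0)) :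
    Tendsto (fun j => Complex.exp ((t j * x : ℝ) * Complex.I)) atTop (𝓝 1) := by
  have h1 : Continuous fun s : ℝ => Complex.exp ((s * x : ℝ) * Complex.I) := by fun_prop
  have h2 := (h1.tendsto 0).comp ht
  simpa [Function.comp_def] using h2

/-- the cocycle is a coboundary on finite sets, if the twisted translations are close to a
representation -/
theorem coboundary_of_close (hc : IsCocycle c) (F : Finset (G × G)) (t : ℝ) (ht : t ≠ 0)
    (ψ : G →* unitary (TwD c t))
    (h1 : ∀ p ∈ F, ‖(ψ p.1 : TwD c t) - twE c t p.1‖ ≤ 1 / 10 ∧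
      ‖(ψ p.2 : TwD c t) - twE c t p.2‖ ≤ 1 / 10 ∧
      ‖(ψ (p.1 * p.2) : TwD c t) - twE c t (p.1 * p.2)‖ ≤ 1 / 10)
    (h2 : ∀ p ∈ F, ‖1 - om c t p.1 p.2‖ ≤ 1 / 10)
    (h3 : ∀ p ∈ F, |t * c p.1 p.2| < Real.pi) :
    ∃ b : G → ℝ, ∀ p ∈ F, c p.1 p.2 = b p.1 + b p.2 - b (p.1 * p.2) := by
  let X : G → TwD c t := fun g => star (twE c t g) * ψ g
  have hXn : ∀ g, ‖(ψ g : TwD c t) - twE c t g‖ ≤ 1 / 10 → ‖1 - X g‖ ≤ 1 / 10 := by
    intro g hg
    have e : 1 - X g = star (twE c t g) * (twE c t g - ψ g) := by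
      rw [mul_sub, star_mul_twE]
    rw [e]
    refine (norm_mul_le _ _).trans ?_
    rw [norm_star, norm_sub_rev]
    calc ‖twE c t g‖ * ‖(ψ g : TwD c t) - twE c t g‖ ≤ 1 * (1 / 10) :=
          mul_le_mul (norm_twE_le t g) hg (norm_nonneg _) zero_le_one
      _ = 1 / 10 := one_mul _
  refine ⟨fun g => (tl (trD c t) (1 - X g) / (t * Complex.I)).re, fun p hp => ?_⟩
  obtain ⟨g, h⟩ := p
  simp only
  obtain ⟨a1, a2, a3⟩ := h1 _ hp
  have b2 := h2 _ hp
  have b3 := h3 _ hp
  simp only at a1 a2 a3 b2 b3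
  have n1 := hXn _ a1
  have n2 := hXn _ a2
  have n3 := hXn _ a3
  have hτ := trD_comm hc t
  set Z := star (twE c t h) * X g * twE c t h with hZ
  have eZ : 1 - Z = star (twE c t h) * (1 - X g) * twE c t h := by
    rw [hZ, mul_sub, mul_one, sub_mul, star_mul_twE]
  have nZ : ‖1 - Z‖ ≤ 1 / 10 := by
    rw [eZ]
    refine (norm_mul_le _ _).trans ?_
    have := (norm_mul_le (star (twE c t h)) (1 - X g))
    rw [norm_star] at this
    have h4 := norm_twE_le (c := c) t h
    have h5 : ‖star (twE c t h) * (1 - X g)‖ ≤ 1 / 10 := by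
      refine this.trans ?_
      calc ‖twE c t h‖ * ‖1 - X g‖ ≤ 1 * (1 / 10) :=
            mul_le_mul h4 n1 (norm_nonneg _) zero_le_one
        _ = 1 / 10 := one_mul _
    calc ‖star (twE c t h) * (1 - X g)‖ * ‖twE c t h‖ ≤ 1 / 10 * 1 :=
          mul_le_mul h5 h4 (norm_nonneg _) (by norm_num)
      _ = 1 / 10 := mul_one _
  have rel : X (g * h) = (om c t g h • (1 : TwD c t)) * (Z * X h) := by
    have e1 : Z * X h = star (twE c t g * twE c t h) * (ψ g * ψ h) := by
      show star (twE c t h) * (star (twE c t g) * (ψ g : TwD c t)) * twE c t h *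
        (star (twE c t h) * (ψ h : TwD c t)) = _
      rw [star_mul]
      calc star (twE c t h) * (star (twE c t g) * (ψ g : TwD c t)) * twE c t h *
        (star (twE c t h) * (ψ h : TwD c t)) = star (twE c t h) * (star (twE c t g) *
          (ψ g : TwD c t)) * (twE c t h * star (twE c t h)) * (ψ h : TwD c t) := by
            simp only [mul_assoc]
        _ = _ := by rw [mul_star_twE, mul_one]; simp only [mul_assoc]
    have e2 : (ψ g * ψ h : TwD c t) = ψ (g * h) := by rw [map_mul]; rfl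
    rw [e1, e2, twE_mul hc, star_smul, smul_mul_assoc, smul_mul_assoc, one_mul, smul_smul]
    have e3 : om c t g h * star (om c t g h) = 1 := by
      rw [Complex.star_def, Complex.mul_conj, Complex.normSq_eq_norm_sq, norm_om]
      norm_num
    rw [e3, one_smul]
  have nO : ‖1 - om c t g h • (1 : TwD c t)‖ ≤ 1 / 10 := by
    have : 1 - om c t g h • (1 : TwD c t) = (1 - om c t g h) • (1 : TwD c t) := by
      rw [sub_smul, one_smul]
    rw [this, norm_smul, norm_one, mul_one]
    exact b2
  have nZX : ‖1 - Z * X h‖ ≤ 1 / 4 := by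
    have e : 1 - Z * X h = (1 - Z) + (1 - X h) - (1 - Z) * (1 - X h) := by
      simp only [mul_sub, sub_mul, mul_one, one_mul]
      abel
    rw [e]
    have e1 := norm_sub_le ((1 - Z) + (1 - X h)) ((1 - Z) * (1 - X h))
    have e2 := norm_add_le (1 - Z) (1 - X h)
    have e3 : ‖(1 - Z) * (1 - X h)‖ ≤ 1 / 10 * (1 / 10) :=
      (norm_mul_le _ _).trans (mul_le_mul nZ n2 (norm_nonneg _) (by norm_num))
    linarith
  have k1 := tl_mul (trD c t) hτ (nO.trans (by norm_num)) nZX
  have k2 := tl_mul (trD c t) hτ (nZ.trans (by norm_num)) (n2.trans (by norm_num))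
  have k3 : tl (trD c t) (1 - Z) = tl (trD c t) (1 - X g) := by
    rw [eZ]
    exact tl_conj (trD c t) hτ (mul_star_twE t h) _
  have k4 : tl (trD c t) (1 - om c t g h • (1 : TwD c t)) = -((t * c g h : ℝ) * Complex.I) := by
    have : 1 - om c t g h • (1 : TwD c t) = (1 - om c t g h) • (1 : TwD c t) := by
      rw [sub_smul, one_smul]
    rw [this, tl_smul_one _ (b2.trans_lt (by norm_num)), trD_one, mul_one]
    congr 1
    unfold om
    rw [abs_lt] at b3
    refine Complex.log_exp ?_ ?_
    · simpa using b3.1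
    · simpa using b3.2.le
  rw [← rel, k2, k3, k4] at k1
  have ht' : (t : ℂ) ≠ 0 := by exact_mod_cast ht
  have k5 : (c g h : ℂ) = tl (trD c t) (1 - X g) / (t * Complex.I) +
      tl (trD c t) (1 - X h) / (t * Complex.I) - tl (trD c t) (1 - X (g * h)) / (t * Complex.I) := by
    rw [k1]
    field_simp
    push_cast
    ring
  have k6 := congrArg Complex.re k5
  rw [Complex.ofReal_re, Complex.sub_re, Complex.add_re] at k6
  exact k6

/-- **Vanishing of the second real cohomology.** -/
theorem cocycle_isCoboundary [Countable G] (hG : CStarStable G) (hc : IsCocycle c) :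
    ∃ b : G → ℝ, ∀ g h, c g h = b g + b h - b (g * h) := by
  classical
  let t : ℕ → ℝ := fun j => 1 / ((j : ℝ) + 1)
  have ht : Tendsto t atTop (𝓝 0) := tendsto_one_div_add_atTop_nhds_zero_nat
  have ht0 : ∀ j, t j ≠ 0 := fun j => (by positivity : (0 : ℝ) < 1 / ((j : ℝ) + 1)).ne'
  have hom : ∀ g h, Tendsto (fun j => om c (t j) g h) atTop (𝓝 1) := fun g h => om_tendsto _ ht
  obtain ⟨ψ, hψ⟩ := perturbW hG (D := fun j => TwD c (t j)) (fun j g => twE c (t j) g)
    (fun g => ⟨1, fun j => norm_twE_le _ g⟩)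
    (by
      intro g h
      have h1 : Tendsto (fun j => ‖1 - om c (t j) g h‖) atTop (𝓝 0) := by
        have := ((hom g h).const_sub 1).norm
        simpa using this
      refine squeeze_zero (fun _ => norm_nonneg _) (fun j => ?_) h1
      rw [twE_mul hc]
      have : twE c (t j) (g * h) - om c (t j) g h • twE c (t j) (g * h) =
          (1 - om c (t j) g h) • twE c (t j) (g * h) := by rw [sub_smul, one_smul]
      rw [this, norm_smul]
      exact mul_le_of_le_one_right (norm_nonneg _) (norm_twE_le _ _))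
    (by
      intro g
      have h1 : Tendsto (fun j => ‖(om c (t j) g⁻¹ g * om c (t j) 1 1)⁻¹ - 1‖) atTop (𝓝 0) := by
        have h2 := (((hom g⁻¹ g).mul (hom 1 1)).inv₀ (by norm_num)).sub_const 1
        have := h2.norm
        simpa using this
      refine squeeze_zero (fun _ => norm_nonneg _) (fun j => ?_) h1
      rw [twE_star hc]
      have : (om c (t j) g⁻¹ g * om c (t j) 1 1)⁻¹ • twE c (t j) g⁻¹ - twE c (t j) g⁻¹ =
          ((om c (t j) g⁻¹ g * om c (t j) 1 1)⁻¹ - 1) • twE c (t j) g⁻¹ := by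
        rw [sub_smul, one_smul]
      rw [this, norm_smul]
      exact mul_le_of_le_one_right (norm_nonneg _) (norm_twE_le _ _))
    (by
      have h1 : Tendsto (fun j => ‖om c (t j) (1 : G) 1 - 1‖) atTop (𝓝 0) := by
        have := ((hom 1 1).sub_const 1).norm
        simpa using this
      refine squeeze_zero (fun _ => norm_nonneg _) (fun j => ?_) h1
      rw [twE_one hc]
      have : om c (t j) 1 1 • (1 : TwD c (t j)) - 1 = (om c (t j) 1 1 - 1) • (1 : TwD c (t j)) := by
        rw [sub_smul, one_smul]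
      rw [this, norm_smul, norm_one, mul_one])
  have hfin : ∀ F : Finset (G × G), ∃ f : (G →₀ ℝ) →ₗ[ℝ] ℝ, ∀ p ∈ F,
      f (Finsupp.single p.1 1 + Finsupp.single p.2 1 - Finsupp.single (p.1 * p.2) 1) =
        c p.1 p.2 := by
    intro F
    have hev : ∀ g, ∀ᶠ j in atTop, ‖(ψ j g : TwD c (t j)) - twE c (t j) g‖ ≤ 1 / 10 := by
      intro g
      filter_upwards [(hψ g).eventually (gt_mem_nhds (show (0 : ℝ) < 1 / 10 by norm_num))] with j hj
      exact le_of_lt hj
    have hall : ∀ᶠ j in atTop, ∀ p ∈ F,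
        (‖(ψ j p.1 : TwD c (t j)) - twE c (t j) p.1‖ ≤ 1 / 10 ∧
        ‖(ψ j p.2 : TwD c (t j)) - twE c (t j) p.2‖ ≤ 1 / 10 ∧
        ‖(ψ j (p.1 * p.2) : TwD c (t j)) - twE c (t j) (p.1 * p.2)‖ ≤ 1 / 10) ∧
        ‖1 - om c (t j) p.1 p.2‖ ≤ 1 / 10 ∧ |t j * c p.1 p.2| < Real.pi := by
      rw [Filter.eventually_all_finset]
      intro p _
      have e1 : ∀ᶠ j in atTop, ‖1 - om c (t j) p.1 p.2‖ ≤ 1 / 10 := by
        have h1 : Tendsto (fun j => ‖1 - om c (t j) p.1 p.2‖) atTop (𝓝 0) := by
          have := ((hom p.1 p.2).const_sub 1).norm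
          simpa using this
        filter_upwards [h1.eventually (gt_mem_nhds (show (0 : ℝ) < 1 / 10 by norm_num))] with j hj
        exact le_of_lt hj
      have e2 : ∀ᶠ j in atTop, |t j * c p.1 p.2| < Real.pi := by
        have h1 : Tendsto (fun j => |t j * c p.1 p.2|) atTop (𝓝 0) := by
          have := (ht.mul_const (c p.1 p.2)).abs
          simpa using this
        exact h1.eventually (gt_mem_nhds Real.pi_pos)
      filter_upwards [hev p.1, hev p.2, hev (p.1 * p.2), e1, e2] with j j1 j2 j3 j4 j5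
      exact ⟨⟨j1, j2, j3⟩, j4, j5⟩
    obtain ⟨j, hj⟩ := hall.exists
    obtain ⟨b, hb⟩ := coboundary_of_close hc F (t j) (ht0 j) (ψ j) (fun p hp => (hj p hp).1)
      (fun p hp => (hj p hp).2.1) (fun p hp => (hj p hp).2.2)
    refine ⟨Finsupp.linearCombination ℝ b, fun p hp => ?_⟩
    rw [map_sub, map_add, Finsupp.linearCombination_single, Finsupp.linearCombination_single,
      Finsupp.linearCombination_single, one_smul, one_smul, one_smul, hb p hp]
  obtain ⟨f, hf⟩ := exists_of_finite (fun p : G × G =>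
    (Finsupp.single p.1 1 + Finsupp.single p.2 1 - Finsupp.single (p.1 * p.2) 1 : G →₀ ℝ))
    (fun p => c p.1 p.2) hfin
  refine ⟨fun g => f (Finsupp.single g 1), fun g h => ?_⟩
  have := hf (g, h)
  rw [map_sub, map_add] at this
  exact this.symm

end

end Pool.Agent.Helper72CS
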