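import Mathlib

set_option autoImplicit false

noncomputable section

namespace Pool.Agent.Helper72CS

/-- the closed unit disc -/
abbrev Disc : Type := Metric.closedBall (0 : ℂ) 1

/-- the boundary of the disc -/
def bd (z : Circle) : Disc := ⟨(z : ℂ), by rw [mem_closedBall_zero_iff, Circle.norm_coe]⟩

theorem bd_cont : Continuous bd := Continuous.subtype_mk continuous_subtype_val _

/-- radial scaling of the disc -/
def sc (t : ℝ) (z : Disc) : Disc :=
  ⟨((Set.projIcc (0 : ℝ) 1 zero_le_one t : ℝ) : ℂ) * (z : ℂ), by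
    rw [mem_closedBall_zero_iff, norm_mul]
    have h1 := (Set.projIcc (0 : ℝ) 1 zero_le_one t).2
    have h2 : ‖(((Set.projIcc (0 : ℝ) 1 zero_le_one t : ℝ) : ℂ))‖ ≤ 1 := by
      rw [Complex.norm_real, Real.norm_eq_abs, abs_le]
      exact ⟨by linarith [h1.1], h1.2⟩
    have h3 : ‖(z : ℂ)‖ ≤ 1 := by
      have := z.2
      rwa [mem_closedBall_zero_iff] at this
    exact mul_le_one₀ h2 (norm_nonneg _) h3⟩

theorem sc_cont (t : ℝ) : Continuous (sc t) :=
  Continuous.subtype_mk (continuous_const.mul continuous_subtype_val) _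

theorem sc_zero (z : Disc) : sc 0 z = ⟨0, by simp⟩ := by
  apply Subtype.ext
  simp [sc, Set.projIcc]

theorem sc_one (z : Disc) : sc 1 z = z := by
  apply Subtype.ext
  simp [sc, Set.projIcc]

theorem sc_dist (s t : ℝ) (z : Disc) : dist (sc s z) (sc t z) ≤ |s - t| := by
  rw [Subtype.dist_eq]
  simp only [sc]
  rw [dist_eq_norm, ← sub_mul, norm_mul, ← Complex.ofReal_sub, Complex.norm_real,
    Real.norm_eq_abs]
  have h3 : ‖(z : ℂ)‖ ≤ 1 := by
    have := z.2
    rwa [mem_closedBall_zero_iff] at this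
  have h4 : |((Set.projIcc (0 : ℝ) 1 zero_le_one s : ℝ)) - (Set.projIcc (0 : ℝ) 1 zero_le_one t : ℝ)|
      ≤ |s - t| := by
    have := (LipschitzWith.projIcc (a := (0:ℝ)) (b := 1) zero_le_one).dist_le_mul s t
    simpa [Subtype.dist_eq, Real.dist_eq] using this
  calc _ ≤ |s - t| * 1 := mul_le_mul h4 h3 (norm_nonneg _) (abs_nonneg _)
    _ = |s - t| := mul_one _

/-- radial induction -/
theorem ladder {M : Type} (R : (Disc → Disc) → (Disc → M) → Prop) (U : Set (Disc × Disc))
    (hU : IsOpen U) (hdiag : ∀ a, (a, a) ∈ U) (w0 : Disc → M)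
    (h0 : R (sc 0) w0)
    (hstep : ∀ s t : ℝ, (∀ z, (sc t z, sc s z) ∈ U) → ∀ w, R (sc s) w → ∃ w', R (sc t) w') :
    ∃ w, R (sc 1) w := by
  have hUu : U ∈ uniformity Disc := by
    rw [← nhdsSet_diagonal_eq_uniformity, hU.mem_nhdsSet]
    rintro ⟨a, b⟩ hab
    have : a = b := hab
    subst this
    exact hdiag a
  obtain ⟨ε, hε, hεU⟩ := Metric.mem_uniformity_dist.1 hUu
  obtain ⟨N, hN⟩ := exists_nat_one_div_lt hε
  have key : ∀ k : ℕ, ∃ w, R (sc ((k : ℝ) / ((N : ℝ) + 1))) w := by
    intro k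
    induction k with
    | zero => exact ⟨w0, by simpa using h0⟩
    | succ k ih =>
      obtain ⟨w, hw⟩ := ih
      refine hstep _ _ ?_ w hw
      intro z
      apply hεU
      refine lt_of_le_of_lt (sc_dist _ _ z) ?_
      have hpos : (0 : ℝ) < (N : ℝ) + 1 := by positivity
      rw [← sub_div, abs_div, abs_of_pos hpos]
      have : |((k + 1 : ℕ) : ℝ) - (k : ℝ)| = 1 := by
        push_cast
        simp
      rw [this]
      exact hN
  obtain ⟨w, hw⟩ := key (N + 1)
  refine ⟨w, ?_⟩
  have hpos : ((N : ℝ) + 1) ≠ 0 := by positivity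
  have : ((N + 1 : ℕ) : ℝ) / ((N : ℝ) + 1) = 1 := by
    push_cast
    exact div_self hpos
  rwa [this] at hw

theorem exists_triv {O n : Type} [Fintype O] [Fintype n] [DecidableEq n]
    (P : O → Disc → Matrix n n ℂ) (hPc : ∀ c, Continuous (P c))
    (hPi : ∀ c z, P c z * P c z = P c z) (hP0 : ∀ c c' z, c ≠ c' → P c z * P c' z = 0)
    (hP1 : ∀ z, ∑ c, P c z = 1) :
    ∃ w : Disc → Matrix n n ℂ, Continuous w ∧ (∀ z, (w z).det ≠ 0) ∧
      ∀ c z, w z * P c ⟨0, by simp⟩ = P c z * w z := by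
  classical
  set S : Disc → Disc → Matrix n n ℂ := fun a b => ∑ c, P c a * P c b with hS
  have hSc : Continuous (fun p : Disc × Disc => S p.1 p.2) := by
    simp only [hS]
    refine continuous_finsetSum _ fun c _ => ?_
    exact ((hPc c).comp continuous_fst).matrix_mul ((hPc c).comp continuous_snd)
  have hSd : ∀ a, S a a = 1 := by
    intro a
    simp only [hS]
    rw [← hP1 a]
    exact Finset.sum_congr rfl fun c _ => hPi c a
  have hSr : ∀ a b c, S a b * P c b = P c a * P c b := by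
    intro a b c
    simp only [hS]
    rw [Finset.sum_mul, Finset.sum_eq_single c]
    · rw [mul_assoc, hPi]
    · intro c' _ hne
      rw [mul_assoc, hP0 c' c b hne, mul_zero]
    · intro h; exact absurd (Finset.mem_univ c) h
  have hSl : ∀ a b c, P c a * S a b = P c a * P c b := by
    intro a b c
    simp only [hS]
    rw [Finset.mul_sum, Finset.sum_eq_single c]
    · rw [← mul_assoc, hPi]
    · intro c' _ hne
      rw [← mul_assoc, hP0 c c' a (Ne.symm hne), zero_mul]
    · intro h; exact absurd (Finset.mem_univ c) h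
  obtain ⟨w, hw⟩ := ladder
    (fun (f : Disc → Disc) (w : Disc → Matrix n n ℂ) => Continuous w ∧ (∀ z, (w z).det ≠ 0) ∧
      ∀ c z, w z * P c ⟨0, by simp⟩ = P c (f z) * w z)
    {p | (S p.1 p.2).det ≠ 0}
    (isOpen_ne_fun hSc.matrix_det continuous_const)
    (by intro a; simp [hSd])
    (fun _ => 1)
    (by
      refine ⟨continuous_const, by simp, ?_⟩
      intro c z
      rw [sc_zero, one_mul, mul_one])
    (by
      intro s t hU w ⟨hwc, hwd, hwP⟩
      refine ⟨fun z => S (sc t z) (sc s z) * w z, ?_, ?_, ?_⟩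
      · exact (hSc.comp ((sc_cont t).prodMk (sc_cont s))).matrix_mul hwc
      · intro z
        rw [Matrix.det_mul]
        exact mul_ne_zero (hU z) (hwd z)
      · intro c z
        rw [mul_assoc, hwP, ← mul_assoc, hSr, ← hSl, mul_assoc])
  obtain ⟨h1, h2, h3⟩ := hw
  refine ⟨w, h1, h2, ?_⟩
  intro c z
  have := h3 c z
  rwa [sc_one] at this

/-- a continuous nonvanishing function on the disc has a continuous `m`-th root -/
theorem exists_root (e : Disc → ℂ) (he : Continuous e) (hne : ∀ z, e z ≠ 0) (m : ℕ) (hm : m ≠ 0) :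
    ∃ f : Disc → ℂ, Continuous f ∧ ∀ z, f z ^ m = e z := by
  have hm' : (m : ℂ) ≠ 0 := Nat.cast_ne_zero.2 hm
  obtain ⟨w, hw⟩ := ladder
    (fun (g : Disc → Disc) (w : Disc → ℂ) => Continuous w ∧ ∀ z, w z ^ m = e (g z))
    {p | e p.1 / e p.2 ∈ Complex.slitPlane}
    (Complex.isOpen_slitPlane.preimage (((he.comp continuous_fst).div (he.comp continuous_snd)
      (fun p => hne p.2))))
    (by
      intro a
      simp [div_self (hne a)])
    (fun _ => (e ⟨0, by simp⟩) ^ ((1 : ℂ) / m))
    (by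
      refine ⟨continuous_const, ?_⟩
      intro z
      rw [sc_zero, ← Complex.cpow_nat_mul]
      rw [mul_one_div_cancel hm', Complex.cpow_one])
    (by
      intro s t hU w ⟨hwc, hwe⟩
      refine ⟨fun z => (e (sc t z) / e (sc s z)) ^ ((1 : ℂ) / m) * w z, ?_, ?_⟩
      · refine Continuous.mul ?_ hwc
        refine Continuous.cpow (((he.comp (sc_cont t)).div (he.comp (sc_cont s))
          (fun z => hne _))) continuous_const ?_
        intro z
        exact hU z
      · intro z
        rw [mul_pow, hwe, ← Complex.cpow_nat_mul, mul_one_div_cancel hm', Complex.cpow_one]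
        exact div_mul_cancel₀ _ (hne _))
  obtain ⟨h1, h2⟩ := hw
  refine ⟨w, h1, ?_⟩
  intro z
  have := h2 z
  rwa [sc_one] at this

/-- the degree argument -/
theorem dvd_of_root (g : Circle → ℂ) (hg : Continuous g) (m q : ℕ) (hm : m ≠ 0)
    (h : ∀ z : Circle, g z ^ m = (z : ℂ) ^ q) : m ∣ q := by
  have hm' : (m : ℂ) ≠ 0 := Nat.cast_ne_zero.2 hm
  set k : ℝ → ℂ := fun θ => g (Circle.exp θ) * Complex.exp (-(Complex.I * q * θ / m)) with hk
  have hkc : Continuous k := by
    simp only [hk]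
    refine (hg.comp Circle.exp.continuous).mul ?_
    refine Complex.continuous_exp.comp ?_
    fun_prop
  have hkm : ∀ θ, k θ ^ m = 1 := by
    intro θ
    simp only [hk]
    rw [mul_pow, h, Circle.coe_exp, ← Complex.exp_nat_mul, ← Complex.exp_nat_mul, ← Complex.exp_add]
    have : (q : ℂ) * (θ * Complex.I) + m * -(Complex.I * q * θ / m) = 0 := by
      field_simp
      ring
    rw [this, Complex.exp_zero]
  have hfin : (Set.range k).Finite := by
    refine Set.Finite.subset (s := ((Polynomial.nthRootsFinset m (1 : ℂ) : Finset ℂ) : Set ℂ))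
      (Finset.finite_toSet _) ?_
    rintro _ ⟨θ, rfl⟩
    rw [Finset.mem_coe, Polynomial.mem_nthRootsFinset (Nat.pos_of_ne_zero hm)]
    exact hkm θ
  have hconn : (Set.range k).Subsingleton :=
    hfin.countable.isTotallyDisconnected _ subset_rfl (isPreconnected_range hkc)
  have h2 : k 0 = k (2 * Real.pi) := hconn ⟨0, rfl⟩ ⟨2 * Real.pi, rfl⟩
  have hg1 : g 1 ≠ 0 := by
    intro h0
    have := h 1
    rw [h0, zero_pow hm, Circle.coe_one, one_pow] at this
    exact zero_ne_one this
  have h3 : Complex.exp (-(Complex.I * q * ((2 * Real.pi : ℝ) : ℂ) / m)) = 1 := by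
    simp only [hk] at h2
    rw [Circle.exp_zero, Circle.exp_two_pi] at h2
    have h4 := mul_left_cancel₀ hg1 h2
    rw [← h4]
    simp
  rw [Complex.exp_eq_one_iff] at h3
  obtain ⟨j, hj⟩ := h3
  have hpi : (Real.pi : ℂ) ≠ 0 := Complex.ofReal_ne_zero.2 Real.pi_ne_zero
  have h5 : (q : ℂ) = -(j : ℂ) * m := by
    have h6 : -(Complex.I * q * ((2 * Real.pi : ℝ) : ℂ) / m) * m = (j * (2 * Real.pi * Complex.I)) * m := by
      rw [hj]
    rw [neg_mul, div_mul_cancel₀ _ hm'] at h6
    have h7 : (2 * Real.pi * Complex.I) * (q : ℂ) = (2 * Real.pi * Complex.I) * (-(j : ℂ) * m) := by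
      push_cast at h6
      linear_combination -h6
    exact mul_left_cancel₀ Complex.two_pi_I_ne_zero h7
  have h8 : (q : ℤ) = (m : ℤ) * (-j) := by
    have : ((q : ℤ) : ℂ) = (((m : ℤ) * (-j) : ℤ) : ℂ) := by
      push_cast
      rw [h5]
      ring
    exact_mod_cast this
  exact Int.natCast_dvd_natCast.1 ⟨-j, h8⟩

/-- the determinant on the image of an idempotent -/
def dt {n : Type} [Fintype n] [DecidableEq n] (E B : Matrix n n ℂ) : ℂ := (E * B * E + (1 - E)).det

theorem dt_mul {n : Type} [Fintype n] [DecidableEq n] (E A B : Matrix n n ℂ) (hE : E * E = E)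
    (hA : A * E = E * A) (hB : B * E = E * B) : dt E (A * B) = dt E A * dt E B := by
  unfold dt
  rw [← Matrix.det_mul]
  congr 1
  have h1 : E * A * E = A * E := by rw [mul_assoc, hA, ← mul_assoc, hE]
  have h2 : E * B * E = B * E := by rw [mul_assoc, hB, ← mul_assoc, hE]
  have h3 : E * (A * B) * E = A * B * E := by
    calc E * (A * B) * E = (E * A) * (B * E) := by simp only [mul_assoc]
      _ = A * (E * E) * B := by rw [← hA, hB]; simp only [mul_assoc]
      _ = A * B * E := by rw [hE, mul_assoc, ← hB, ← mul_assoc]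
  rw [h1, h2, h3]
  have h4 : A * E * (B * E) = A * B * E := by
    rw [mul_assoc, ← mul_assoc E, ← hB, mul_assoc B, hE, mul_assoc]
  have h5 : A * E * (1 - E) = 0 := by
    rw [mul_sub, mul_one, mul_assoc, hE, sub_self]
  have h6 : (1 - E) * (B * E) = 0 := by
    rw [sub_mul, one_mul, hB, ← mul_assoc, hE, sub_self]
  have h7 : (1 - E) * (1 - E) = 1 - E := by
    rw [mul_sub, mul_one, sub_mul, one_mul, hE, sub_self, sub_zero]
  rw [add_mul, mul_add, mul_add, h4, h5, h6, h7]
  simp

theorem dt_prod {O n : Type} [Fintype O] [Fintype n] [DecidableEq n] (E : O → Matrix n n ℂ)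
    (hE : ∀ c, E c * E c = E c) (h0 : ∀ c c', c ≠ c' → E c * E c' = 0) (h1 : ∑ c, E c = 1)
    (B : Matrix n n ℂ) (hB : ∀ c, B * E c = E c * B) : ∏ c, dt (E c) B = B.det := by
  classical
  have key : ∀ s : Finset O, ∏ c ∈ s, dt (E c) B = ((∑ c ∈ s, E c) * B + (1 - ∑ c ∈ s, E c)).det := by
    intro s
    induction s using Finset.induction_on with
    | empty => simp
    | insert a s ha ih =>
      rw [Finset.prod_insert ha, Finset.sum_insert ha, ih]
      unfold dt
      rw [← Matrix.det_mul]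
      congr 1
      set T := ∑ c ∈ s, E c with hT
      have h2 : E a * B * E a = E a * B := by rw [mul_assoc, hB, ← mul_assoc, hE]
      have h3 : E a * T = 0 := by
        rw [hT, Finset.mul_sum]
        exact Finset.sum_eq_zero fun c hc => h0 a c (fun h => ha (h ▸ hc))
      rw [h2, add_mul, mul_add, mul_add]
      have h4 : E a * B * (T * B) = 0 := by
        rw [← hB, mul_assoc, ← mul_assoc (E a), h3, zero_mul, mul_zero]
      have h5 : E a * B * (1 - T) = E a * B := by
        rw [mul_sub, mul_one, ← hB, mul_assoc, h3, mul_zero, sub_zero]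
      have h6 : (1 - E a) * (T * B) = T * B := by
        rw [sub_mul, one_mul, ← mul_assoc, h3, zero_mul, sub_zero]
      have h7 : (1 - E a) * (1 - T) = 1 - E a - T := by
        rw [mul_sub, mul_one, sub_mul, one_mul, h3, sub_zero]
      rw [h4, h5, h6, h7, add_mul]
      abel
  have := key Finset.univ
  rw [h1, one_mul, sub_self, add_zero] at this
  exact this

theorem dt_conj {n : Type} [Fintype n] [DecidableEq n] (E E' B R R' : Matrix n n ℂ)
    (hR : R * R' = 1) (h1 : E * R = R * E') : dt E (R * B * R') = dt E' B := by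
  have hR' : R' * R = 1 := mul_eq_one_comm.1 hR
  have h2 : R' * E = E' * R' := by
    calc R' * E = R' * E * (R * R') := by rw [hR, mul_one]
      _ = R' * (E * R) * R' := by simp only [mul_assoc]
      _ = R' * (R * E') * R' := by rw [h1]
      _ = E' * R' := by rw [← mul_assoc, hR', one_mul]
  unfold dt
  have h3 : E * (R * B * R') * E + (1 - E) = R * (E' * B * E' + (1 - E')) * R' := by
    rw [mul_add, add_mul, mul_sub, sub_mul, mul_one, hR]
    congr 1
    · calc E * (R * B * R') * E = (E * R) * B * (R' * E) := by simp only [mul_assoc]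
        _ = (R * E') * B * (E' * R') := by rw [h1, h2]
        _ = _ := by simp only [mul_assoc]
    · rw [← h1, mul_assoc, hR, mul_one]
  rw [h3, Matrix.det_mul, Matrix.det_mul, mul_right_comm, ← Matrix.det_mul, hR, Matrix.det_one,
    one_mul]

theorem inv_cont {X n : Type} [TopologicalSpace X] [Fintype n] [DecidableEq n]
    (w : X → Matrix n n ℂ) (hw : Continuous w) (hd : ∀ z, (w z).det ≠ 0) :
    Continuous (fun z => (w z)⁻¹) := by
  simp only [Matrix.inv_def, Ring.inverse_eq_inv']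
  exact (hw.matrix_det.inv₀ hd).smul hw.matrix_adjugate

/-- TARGET (the matrices are with respect to any topology/norm you like: the topology is the product
topology of `Matrix n n ℂ`) -/
theorem hub_top {G O n : Type} [Group G] [Fintype O] [Nonempty O] [MulAction G O]
    [MulAction.IsPretransitive G O] [Fintype n] [DecidableEq n]
    (P : O → Disc → Matrix n n ℂ) (hPc : ∀ c, Continuous (P c))
    (hPi : ∀ c z, P c z * P c z = P c z) (hP0 : ∀ c c' z, c ≠ c' → P c z * P c' z = 0)
    (hP1 : ∀ z, ∑ c, P c z = 1)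
    (ψ : G → Disc → Matrix n n ℂ) (hψc : ∀ g, Continuous (ψ g)) (hψ1 : ∀ z, ψ 1 z = 1)
    (hψm : ∀ g h z, ψ (g * h) z = ψ g z * ψ h z)
    (hψP : ∀ g c z, ψ g z * P c z = P (g • c) z * ψ g z)
    (D : Circle → Matrix n n ℂ) (hDc : Continuous D) (q : ℕ)
    (hDdet : ∀ z, (D z).det = (z : ℂ) ^ q)
    (hDψ : ∀ g z, ψ g (bd z) * D z = D z * ψ g (bd 1))
    (hDP : ∀ c z, P c (bd z) * D z = D z * P c (bd 1)) :
    Fintype.card O ∣ q := by
  classical
  obtain ⟨w, hwc, hwd, hwP⟩ := exists_triv P hPc hPi hP0 hP1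
  set E : O → Matrix n n ℂ := fun c => P c ⟨0, by simp⟩ with hE
  have hEi : ∀ c, E c * E c = E c := fun c => hPi c _
  have hE0 : ∀ c c', c ≠ c' → E c * E c' = 0 := fun c c' h => hP0 c c' _ h
  have hE1 : ∑ c, E c = 1 := hP1 _
  have hwE : ∀ c z, w z * E c = P c z * w z := hwP
  have hwu : ∀ z, IsUnit (w z).det := fun z => isUnit_iff_ne_zero.2 (hwd z)
  have hww : ∀ z, w z * (w z)⁻¹ = 1 := fun z => Matrix.mul_nonsing_inv _ (hwu z)
  have hww' : ∀ z, (w z)⁻¹ * w z = 1 := fun z => Matrix.nonsing_inv_mul _ (hwu z)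
  have hwi : ∀ c z, (w z)⁻¹ * P c z = E c * (w z)⁻¹ := by
    intro c z
    calc (w z)⁻¹ * P c z = (w z)⁻¹ * P c z * (w z * (w z)⁻¹) := by rw [hww, mul_one]
      _ = (w z)⁻¹ * (P c z * w z) * (w z)⁻¹ := by simp only [mul_assoc]
      _ = (w z)⁻¹ * (w z * E c) * (w z)⁻¹ := by rw [hwE]
      _ = E c * (w z)⁻¹ := by rw [← mul_assoc, hww', one_mul]
  have hwic : Continuous (fun z => (w z)⁻¹) := inv_cont w hwc hwd
  -- the transported representation
  set φ : G → Disc → Matrix n n ℂ := fun g z => (w z)⁻¹ * ψ g z * w z with hφ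
  have hφc : ∀ g, Continuous (φ g) := fun g => (hwic.matrix_mul (hψc g)).matrix_mul hwc
  have hφm : ∀ g h z, φ (g * h) z = φ g z * φ h z := by
    intro g h z
    simp only [hφ]
    calc (w z)⁻¹ * ψ (g * h) z * w z = (w z)⁻¹ * (ψ g z * ψ h z) * w z := by rw [hψm]
      _ = (w z)⁻¹ * ψ g z * 1 * ψ h z * w z := by rw [mul_one]; simp only [mul_assoc]
      _ = (w z)⁻¹ * ψ g z * (w z * (w z)⁻¹) * ψ h z * w z := by rw [hww]
      _ = _ := by simp only [mul_assoc]
  have hφ1 : ∀ z, φ 1 z = 1 := by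
    intro z
    simp only [hφ]
    rw [hψ1, mul_one, hww']
  have hφE : ∀ g c z, φ g z * E c = E (g • c) * φ g z := by
    intro g c z
    simp only [hφ]
    calc (w z)⁻¹ * ψ g z * w z * E c = (w z)⁻¹ * ψ g z * (w z * E c) := by simp only [mul_assoc]
      _ = (w z)⁻¹ * (ψ g z * P c z) * w z := by rw [hwE]; simp only [mul_assoc]
      _ = ((w z)⁻¹ * P (g • c) z) * ψ g z * w z := by rw [hψP]; simp only [mul_assoc]
      _ = E (g • c) * (w z)⁻¹ * ψ g z * w z := by rw [hwi]
      _ = _ := by simp only [mul_assoc]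
  -- the transported clutching function
  set b : Circle → Matrix n n ℂ := fun z => (w (bd z))⁻¹ * D z * w (bd 1) with hb
  have hbc : Continuous b :=
    ((hwic.comp bd_cont).matrix_mul hDc).matrix_mul continuous_const
  have hbE : ∀ c z, b z * E c = E c * b z := by
    intro c z
    simp only [hb]
    calc (w (bd z))⁻¹ * D z * w (bd 1) * E c = (w (bd z))⁻¹ * D z * (w (bd 1) * E c) := by
          simp only [mul_assoc]
      _ = (w (bd z))⁻¹ * (D z * P c (bd 1)) * w (bd 1) := by rw [hwE]; simp only [mul_assoc]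
      _ = ((w (bd z))⁻¹ * P c (bd z)) * D z * w (bd 1) := by rw [← hDP]; simp only [mul_assoc]
      _ = E c * (w (bd z))⁻¹ * D z * w (bd 1) := by rw [hwi]
      _ = _ := by simp only [mul_assoc]
  have hbφ : ∀ g z, φ g (bd z) * b z = b z * φ g (bd 1) := by
    intro g z
    simp only [hb, hφ]
    calc (w (bd z))⁻¹ * ψ g (bd z) * w (bd z) * ((w (bd z))⁻¹ * D z * w (bd 1))
        = (w (bd z))⁻¹ * ψ g (bd z) * (w (bd z) * (w (bd z))⁻¹) * D z * w (bd 1) := by
          simp only [mul_assoc]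
      _ = (w (bd z))⁻¹ * (ψ g (bd z) * D z) * w (bd 1) := by
          rw [hww, mul_one]; simp only [mul_assoc]
      _ = (w (bd z))⁻¹ * (D z * ψ g (bd 1)) * w (bd 1) := by rw [hDψ]
      _ = (w (bd z))⁻¹ * D z * 1 * ψ g (bd 1) * w (bd 1) := by rw [mul_one]; simp only [mul_assoc]
      _ = (w (bd z))⁻¹ * D z * (w (bd 1) * (w (bd 1))⁻¹) * ψ g (bd 1) * w (bd 1) := by rw [hww]
      _ = _ := by simp only [mul_assoc]
  have hbdet : ∀ z, (w (bd z)).det * (b z).det = (z : ℂ) ^ q * (w (bd 1)).det := by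
    intro z
    rw [← Matrix.det_mul]
    have : w (bd z) * b z = D z * w (bd 1) := by
      simp only [hb]
      rw [← mul_assoc, ← mul_assoc, hww, one_mul]
    rw [this, Matrix.det_mul, hDdet]
  have hφφ : ∀ g z, φ g z * φ g⁻¹ z = 1 := by
    intro g z
    rw [← hφm, mul_inv_cancel, hφ1]
  -- the comparison
  set Cg : G → Disc → Matrix n n ℂ := fun g z => φ g z * φ g⁻¹ (bd 1) with hCg
  have hCgc : ∀ g, Continuous (Cg g) := fun g => (hφc g).matrix_mul continuous_const
  have hCgE : ∀ g c z, Cg g z * E c = E c * Cg g z := by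
    intro g c z
    simp only [hCg]
    rw [mul_assoc, hφE, ← mul_assoc, hφE, smul_inv_smul, mul_assoc]
  have hcomp : ∀ g c z, dt (E (g • c)) (b z) = dt (E (g • c)) (Cg g (bd z)) * dt (E c) (b z) := by
    intro g c z
    have h1 : b z = Cg g (bd z) * (φ g (bd 1) * b z * φ g⁻¹ (bd 1)) := by
      simp only [hCg]
      have h2 : φ g⁻¹ (bd 1) * φ g (bd 1) = 1 := by
        have := hφφ g⁻¹ (bd 1)
        rwa [inv_inv] at this
      calc b z = b z * (φ g (bd 1) * φ g⁻¹ (bd 1)) := by rw [hφφ, mul_one]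
        _ = φ g (bd z) * b z * φ g⁻¹ (bd 1) := by rw [← mul_assoc, ← hbφ]
        _ = φ g (bd z) * 1 * b z * φ g⁻¹ (bd 1) := by rw [mul_one]
        _ = φ g (bd z) * (φ g⁻¹ (bd 1) * φ g (bd 1)) * b z * φ g⁻¹ (bd 1) := by rw [h2]
        _ = _ := by simp only [mul_assoc]
    have h3 : (φ g (bd 1) * b z * φ g⁻¹ (bd 1)) * E (g • c) =
        E (g • c) * (φ g (bd 1) * b z * φ g⁻¹ (bd 1)) := by
      calc (φ g (bd 1) * b z * φ g⁻¹ (bd 1)) * E (g • c)
          = φ g (bd 1) * b z * (φ g⁻¹ (bd 1) * E (g • c)) := by simp only [mul_assoc]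
        _ = φ g (bd 1) * (b z * E c) * φ g⁻¹ (bd 1) := by
            rw [hφE, inv_smul_smul]; simp only [mul_assoc]
        _ = (φ g (bd 1) * E c) * b z * φ g⁻¹ (bd 1) := by rw [hbE]; simp only [mul_assoc]
        _ = _ := by rw [hφE]; simp only [mul_assoc]
    conv_lhs => rw [h1]
    rw [dt_mul _ _ _ (hEi _) (hCgE g _ _) h3]
    congr 1
    exact dt_conj _ _ _ _ _ (hφφ g (bd 1)) (hφE g c (bd 1)).symm
  -- continuity and nonvanishing
  have hdtc : ∀ {X : Type} [TopologicalSpace X] (c : O) (B : X → Matrix n n ℂ), Continuous B →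
      Continuous (fun x => dt (E c) (B x)) := by
    intro X _ c B hB
    unfold dt
    exact (((continuous_const.matrix_mul hB).matrix_mul continuous_const).add
      continuous_const).matrix_det
  have hCgne : ∀ g c z, dt (E c) (Cg g z) ≠ 0 := by
    intro g c z
    have h1 : ∏ c, dt (E c) (Cg g z) = (Cg g z).det := dt_prod E hEi hE0 hE1 _ (fun c => hCgE g c z)
    have h2 : (Cg g z).det ≠ 0 := by
      simp only [hCg]
      have h3 : ∀ g z, (φ g z).det ≠ 0 := by
        intro g z h0
        have := congrArg Matrix.det (hφφ g z)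
        rw [Matrix.det_mul, h0, zero_mul, Matrix.det_one] at this
        exact zero_ne_one this
      rw [Matrix.det_mul]
      exact mul_ne_zero (h3 _ _) (h3 _ _)
    rw [← h1] at h2
    exact Finset.prod_ne_zero_iff.1 h2 c (Finset.mem_univ c)
  obtain ⟨c₀⟩ := ‹Nonempty O›
  have htr : ∀ c : O, ∃ g : G, g • c = c₀ := fun c => MulAction.exists_smul_eq G c c₀
  choose γ hγ using htr
  set m := Fintype.card O with hm
  have hm0 : m ≠ 0 := by
    rw [hm]
    have : Nonempty O := ⟨c₀⟩
    exact Fintype.card_ne_zero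
  set β : Circle → ℂ := fun z => dt (E c₀) (b z) with hβ
  have hβc : Continuous β := hdtc c₀ b hbc
  set e : Disc → ℂ := fun z => (w z).det * ((w (bd 1)).det)⁻¹ *
    ∏ c, (dt (E c₀) (Cg (γ c) z))⁻¹ with he
  have hec : Continuous e := by
    simp only [he]
    refine (hwc.matrix_det.mul continuous_const).mul ?_
    refine continuous_finsetProd _ fun c _ => ?_
    exact (hdtc c₀ _ (hCgc _)).inv₀ (fun z => hCgne _ _ z)
  have hene : ∀ z, e z ≠ 0 := by
    intro z
    simp only [he]
    refine mul_ne_zero (mul_ne_zero (hwd z) (inv_ne_zero (hwd _))) ?_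
    exact Finset.prod_ne_zero_iff.2 fun c _ => inv_ne_zero (hCgne _ _ z)
  have hmain : ∀ z : Circle, (z : ℂ) ^ q = β z ^ m * e (bd z) := by
    intro z
    have h1 : ∏ c, dt (E c) (b z) = (b z).det := dt_prod E hEi hE0 hE1 _ (fun c => hbE c z)
    have h2 : ∀ c, dt (E c) (b z) = β z * (dt (E c₀) (Cg (γ c) (bd z)))⁻¹ := by
      intro c
      have h3 := hcomp (γ c) c z
      rw [hγ] at h3
      simp only [hβ]
      rw [h3, mul_comm (dt (E c₀) (Cg (γ c) (bd z))), mul_assoc, mul_inv_cancel₀ (hCgne _ _ _),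
        mul_one]
    have h4 : (b z).det = β z ^ m * ∏ c, (dt (E c₀) (Cg (γ c) (bd z)))⁻¹ := by
      rw [← h1, Finset.prod_congr rfl (fun c _ => h2 c), Finset.prod_mul_distrib, Finset.prod_const,
        Finset.card_univ]
    have h5 := hbdet z
    rw [h4] at h5
    have h6 : (w (bd 1)).det ≠ 0 := hwd _
    simp only [he]
    generalize (∏ c, (dt (E c₀) (Cg (γ c) (bd z)))⁻¹) = π at h5 ⊢
    field_simp
    linear_combination -h5
  obtain ⟨f, hfc, hfm⟩ := exists_root e hec hene m hm0
  refine dvd_of_root (fun z => β z * f (bd z)) (hβc.mul (hfc.comp bd_cont)) m q hm0 ?_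
  intro z
  rw [mul_pow, hfm, ← hmain]

end Pool.Agent.Helper72CS
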