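import Pool.Agent.Helper72_CS.Grp
import Pool.Agent.Helper72_CS.HubTop

/-!
# The number of isotypic components divides the winding number
-/

set_option autoImplicit false

open Set Filter Topology

noncomputable section

namespace Pool.Agent.Helper72CS

section hubaux

variable {G : Type} [Group G] (N : Subgroup G) {n : Type} [Fintype n] [DecidableEq n]

/-- the linear extension of a representation to the group algebra of `N` -/
def hubPsi (ρ : G →* unitary (Matrix n n ℂ)) : MonoidAlgebra ℂ N →ₐ[ℂ] Matrix n n ℂ :=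
  MonoidAlgebra.lift ℂ (Matrix n n ℂ) N
    ((unitary (Matrix n n ℂ)).subtype.comp (ρ.comp N.subtype))

theorem hubPsi_of (ρ : G →* unitary (Matrix n n ℂ)) (m : N) :
    hubPsi N ρ (MonoidAlgebra.of ℂ N m) = (ρ (m : G) : Matrix n n ℂ) :=
  MonoidAlgebra.lift_of _ _

/-- the linear extension of a character to the group algebra of `N` -/
def hubEv (y : N →* Circle) : MonoidAlgebra ℂ N →ₐ[ℂ] ℂ :=
  MonoidAlgebra.lift ℂ ℂ N (Circle.coeHom.comp y)

theorem hubEv_of (y : N →* Circle) (m : N) :
    hubEv N y (MonoidAlgebra.of ℂ N m) = ((y m : Circle) : ℂ) :=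
  MonoidAlgebra.lift_of _ _

/-- adjoints in the group algebra -/
theorem hub_star (f : MonoidAlgebra ℂ N) : ∃ f' : MonoidAlgebra ℂ N,
    ∀ ρ : G →* unitary (Matrix n n ℂ), (hubPsi N ρ f).conjTranspose = hubPsi N ρ f' := by
  induction f using MonoidAlgebra.induction_on with
  | of m =>
    refine ⟨MonoidAlgebra.of ℂ N m⁻¹, fun ρ => ?_⟩
    rw [hubPsi_of, hubPsi_of, Subgroup.coe_inv, map_inv]
    rfl
  | add x y hx hy =>
    obtain ⟨x', hx⟩ := hx
    obtain ⟨y', hy⟩ := hy
    exact ⟨x' + y', fun ρ => by rw [map_add, map_add, Matrix.conjTranspose_add, hx, hy]⟩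
  | smul r x hx =>
    obtain ⟨x', hx⟩ := hx
    exact ⟨star r • x', fun ρ => by rw [map_smul, map_smul, Matrix.conjTranspose_smul, hx]⟩

theorem hub_trace (f : MonoidAlgebra ℂ N) (ρ σ : G →* unitary (Matrix n n ℂ))
    (h : ∀ m ∈ N, (ρ m : Matrix n n ℂ).trace = (σ m : Matrix n n ℂ).trace) :
    (hubPsi N ρ f).trace = (hubPsi N σ f).trace := by
  induction f using MonoidAlgebra.induction_on with
  | of m =>
    rw [hubPsi_of, hubPsi_of]
    exact h m m.2
  | add x y hx hy => rw [map_add, map_add, Matrix.trace_add, Matrix.trace_add, hx, hy]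
  | smul r x hx => rw [map_smul, map_smul, Matrix.trace_smul, Matrix.trace_smul, hx]

open ComplexOrder in
theorem hub_zero (f : MonoidAlgebra ℂ N) (ρ σ : G →* unitary (Matrix n n ℂ))
    (h : ∀ m ∈ N, (ρ m : Matrix n n ℂ).trace = (σ m : Matrix n n ℂ).trace)
    (h0 : hubPsi N ρ f = 0) : hubPsi N σ f = 0 := by
  obtain ⟨f', hf'⟩ := hub_star (n := n) N f
  rw [← Matrix.trace_conjTranspose_mul_self_eq_zero_iff, hf', ← map_mul,
    ← hub_trace N (f' * f) ρ σ h, map_mul, h0, mul_zero, Matrix.trace_zero]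

theorem hub_cont {X : Type} [TopologicalSpace X] (ψ : X → G →* unitary (Matrix n n ℂ))
    (hψ : ∀ g, Continuous fun z => (ψ z g : Matrix n n ℂ)) (f : MonoidAlgebra ℂ N) :
    Continuous fun z => hubPsi N (ψ z) f := by
  induction f using MonoidAlgebra.induction_on with
  | of m =>
    simp only [hubPsi_of]
    exact hψ m
  | add x y hx hy =>
    simp only [map_add]
    exact hx.add hy
  | smul r x hx =>
    simp only [map_smul]
    exact hx.const_smul r

theorem hub_diag (ρ : G →* unitary (Matrix n n ℂ)) (c : n → N →* Circle)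
    (hdiag : ∀ m : N, (ρ (m : G) : Matrix n n ℂ) =
      Matrix.diagonal (fun i => ((c i m : Circle) : ℂ))) (f : MonoidAlgebra ℂ N) :
    hubPsi N ρ f = Matrix.diagonal (fun i => hubEv N (c i) f) := by
  induction f using MonoidAlgebra.induction_on with
  | of m =>
    rw [hubPsi_of, hdiag]
    simp only [hubEv_of]
  | add x y hx hy =>
    rw [map_add, hx, hy, Matrix.diagonal_add]
    simp only [map_add]
  | smul r x hx =>
    rw [map_smul, hx, ← Matrix.diagonal_smul]
    simp only [map_smul]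
    rfl

theorem hub_inter (ρ σ : G →* unitary (Matrix n n ℂ)) (D : Matrix n n ℂ)
    (h : ∀ m ∈ N, (ρ m : Matrix n n ℂ) * D = D * (σ m : Matrix n n ℂ))
    (f : MonoidAlgebra ℂ N) : hubPsi N ρ f * D = D * hubPsi N σ f := by
  induction f using MonoidAlgebra.induction_on with
  | of m =>
    rw [hubPsi_of, hubPsi_of]
    exact h m m.2
  | add x y hx hy => rw [map_add, map_add, add_mul, mul_add, hx, hy]
  | smul r x hx => rw [map_smul, map_smul, smul_mul_assoc, mul_smul_comm, hx]

/-- conjugation in the group algebra of a normal subgroup -/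
theorem hub_conj [N.Normal] (g : G) (f : MonoidAlgebra ℂ N) : ∃ f' : MonoidAlgebra ℂ N,
    (∀ ρ : G →* unitary (Matrix n n ℂ),
      (ρ g : Matrix n n ℂ) * hubPsi N ρ f = hubPsi N ρ f' * (ρ g : Matrix n n ℂ)) ∧
    ∀ y : N →* Circle, hubEv N y f' = hubEv N (cact N g⁻¹ y) f := by
  induction f using MonoidAlgebra.induction_on with
  | of m =>
    refine ⟨MonoidAlgebra.of ℂ N (MulAut.conjNormal g m), fun ρ => ?_, fun y => ?_⟩
    · rw [hubPsi_of, hubPsi_of, MulAut.conjNormal_apply, ← Submonoid.coe_mul, ← Submonoid.coe_mul,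
        ← map_mul, ← map_mul]
      congr 2
      group
    · rw [hubEv_of, hubEv_of, cact_apply, inv_inv]
  | add x y hx hy =>
    obtain ⟨x', hx1, hx2⟩ := hx
    obtain ⟨y', hy1, hy2⟩ := hy
    refine ⟨x' + y', fun ρ => ?_, fun y => ?_⟩
    · rw [map_add, map_add, mul_add, add_mul, hx1, hy1]
    · rw [map_add, map_add, hx2, hy2]
  | smul r x hx =>
    obtain ⟨x', hx1, hx2⟩ := hx
    refine ⟨r • x', fun ρ => ?_, fun y => ?_⟩
    · rw [map_smul, map_smul, smul_mul_assoc, mul_smul_comm, hx1]
    · rw [map_smul, map_smul, hx2]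

/-- interpolation by elements of the group algebra -/
theorem hub_interp {O : Type} [Fintype O] [DecidableEq O] (y : O → N →* Circle)
    (hy : Function.Injective y) (o : O) :
    ∃ f : MonoidAlgebra ℂ N, ∀ o', hubEv N (y o') f = if o' = o then 1 else 0 := by
  have h1 : ∀ o', ∃ m : N, o' ≠ o → y o m ≠ y o' m := by
    intro o'
    by_cases h : o' = o
    · exact ⟨1, fun h' => absurd h h'⟩
    · by_contra hcon
      push Not at hcon
      refine h (hy ?_).symm
      ext m
      exact congrArg Subtype.val (hcon m).2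
  choose m hm using h1
  refine ⟨(((Finset.univ.erase o).toList.map (fun o' =>
    (((y o (m o') : Circle) : ℂ) - ((y o' (m o') : Circle) : ℂ))⁻¹ •
      (MonoidAlgebra.of ℂ N (m o') - algebraMap ℂ _ ((y o' (m o') : Circle) : ℂ))))).prod, ?_⟩
  intro o'
  rw [map_list_prod, List.map_map]
  have h2 : ∀ o'' : O, ((hubEv N (y o')) ∘ (fun o' =>
    (((y o (m o') : Circle) : ℂ) - ((y o' (m o') : Circle) : ℂ))⁻¹ •
      (MonoidAlgebra.of ℂ N (m o') - algebraMap ℂ _ ((y o' (m o') : Circle) : ℂ)))) o'' =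
      (((y o (m o'') : Circle) : ℂ) - ((y o'' (m o'') : Circle) : ℂ))⁻¹ *
        (((y o' (m o'') : Circle) : ℂ) - ((y o'' (m o'') : Circle) : ℂ)) := by
    intro o''
    simp only [Function.comp_apply]
    rw [map_smul, map_sub, hubEv_of, AlgHom.commutes]
    rfl
  rw [List.map_congr_left (fun o'' _ => h2 o'')]
  split_ifs with h
  · subst h
    rw [List.prod_eq_one]
    intro x hx
    rw [List.mem_map] at hx
    obtain ⟨o'', ho'', rfl⟩ := hx
    rw [Finset.mem_toList, Finset.mem_erase] at ho''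
    refine inv_mul_cancel₀ ?_
    rw [sub_ne_zero]
    intro hc
    exact hm o'' ho''.1 (Subtype.ext hc)
  · rw [List.prod_eq_zero]
    rw [List.mem_map]
    refine ⟨o', ?_, by rw [sub_self, mul_zero]⟩
    rw [Finset.mem_toList, Finset.mem_erase]
    exact ⟨h, Finset.mem_univ _⟩

end hubaux

/-- TARGET -/
theorem hub_comb
    (htr : ∀ (X n : Type) [TopologicalSpace X] [PreconnectedSpace X] [Fintype n] [DecidableEq n]
      (U : X → Matrix n n ℂ), Continuous U → (∀ x, ∃ e : ℕ, 0 < e ∧ U x ^ e = 1) →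
      ∀ x y, (U x).trace = (U y).trace)
    {G : Type} [Group G] (N : Subgroup G) [N.Normal] (hN : Tor N)
    {n : Type} [Fintype n] [DecidableEq n] [Nonempty n]
    (ψ : Disc → G →* unitary (Matrix n n ℂ)) (hψ : ∀ g, Continuous fun z => (ψ z g : Matrix n n ℂ))
    (D : Circle → unitary (Matrix n n ℂ)) (hD : Continuous fun z => (D z : Matrix n n ℂ))
    (q : ℕ) (hdet : ∀ z, (D z : Matrix n n ℂ).det = (z : ℂ) ^ q)
    (hbd : ∀ z g, ψ (bd z) g * D z = D z * ψ (bd 1) g) (c : n → N →* Circle)
    (hdiag : ∀ m : N, (ψ (bd 1) (m : G) : Matrix n n ℂ) =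
      Matrix.diagonal (fun i => ((c i m : Circle) : ℂ)))
    (htrans : ∀ i j, ∃ g, cact N g (c i) = c j) (hinv : ∀ i g, ∃ j, cact N g (c i) = c j) :
    (Set.range c).ncard ∣ q := by
  classical
  have : PreconnectedSpace Disc :=
    isPreconnected_iff_preconnectedSpace.1 (convex_closedBall (0 : ℂ) 1).isPreconnected
  have htrace : ∀ z w : Disc, ∀ m ∈ N,
      (ψ z m : Matrix n n ℂ).trace = (ψ w m : Matrix n n ℂ).trace := by
    intro z w m hm
    refine htr Disc n (fun z => (ψ z m : Matrix n n ℂ)) (hψ m) (fun x => ?_) z w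
    obtain ⟨e, he, h⟩ := hN n (ψ x) m hm
    refine ⟨e, he, ?_⟩
    have := congrArg (fun u : unitary (Matrix n n ℂ) => (u : Matrix n n ℂ)) h
    simpa using this
  -- relations extend from the base point
  have hrel : ∀ f : MonoidAlgebra ℂ N, (∀ i, hubEv N (c i) f = 0) → ∀ z, hubPsi N (ψ z) f = 0 := by
    intro f hf z
    refine hub_zero N f (ψ (bd 1)) (ψ z) (htrace _ _) ?_
    rw [hub_diag N (ψ (bd 1)) c hdiag f]
    simp only [hf]
    exact Matrix.diagonal_zero
  let O : Type := Set.range c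
  have : Fintype O := Fintype.ofFinite O
  have : Nonempty O := ⟨⟨c (Classical.arbitrary n), Set.mem_range_self _⟩⟩
  let act : MulAction G O :=
    { smul := fun g o => ⟨cact N g o.1, by
        obtain ⟨i, hi⟩ := o.2
        obtain ⟨j, hj⟩ := hinv i g
        exact ⟨j, by rw [← hi, hj]⟩⟩
      one_smul := fun o => Subtype.ext (cact_one N o.1)
      mul_smul := fun g h o => Subtype.ext (cact_mul N g h o.1) }
  have hact : ∀ (g : G) (o : O), ((g • o : O) : N →* Circle) = cact N g o.1 := fun _ _ => rfl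
  have : MulAction.IsPretransitive G O := ⟨by
    rintro ⟨_, i, rfl⟩ ⟨_, j, rfl⟩
    obtain ⟨g, hg⟩ := htrans i j
    exact ⟨g, Subtype.ext hg⟩⟩
  choose f hf using hub_interp N (fun o : O => (o : N →* Circle)) Subtype.val_injective
  have hfc : ∀ (o : O) (i : n), hubEv N (c i) (f o) =
      if (⟨c i, Set.mem_range_self i⟩ : O) = o then 1 else 0 := fun o i =>
    hf o ⟨c i, Set.mem_range_self i⟩
  have key := hub_top (G := G) (O := O) (n := n) (fun o z => hubPsi N (ψ z) (f o))
    (fun o => hub_cont N ψ hψ (f o))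
    (by
      intro o z
      rw [← map_mul, ← sub_eq_zero, ← map_sub]
      refine hrel _ (fun i => ?_) z
      rw [map_sub, map_mul, hfc]
      split_ifs <;> simp)
    (by
      intro o o' z hne
      rw [← map_mul]
      refine hrel _ (fun i => ?_) z
      rw [map_mul, hfc, hfc]
      by_cases h1 : (⟨c i, Set.mem_range_self i⟩ : O) = o
      · rw [if_neg (fun h2 => hne (h1.symm.trans h2)), mul_zero]
      · rw [if_neg h1, zero_mul])
    (by
      intro z
      rw [← map_sum, ← map_one (hubPsi N (ψ z)), ← sub_eq_zero, ← map_sub]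
      refine hrel _ (fun i => ?_) z
      rw [map_sub, map_sum, map_one]
      simp only [hfc]
      rw [Finset.sum_ite_eq]
      simp)
    (fun g z => (ψ z g : Matrix n n ℂ)) (fun g => hψ g)
    (fun z => by simp only [map_one]; rfl)
    (fun g h z => by simp only [map_mul]; rfl)
    (by
      intro g o z
      obtain ⟨f', hf1, hf2⟩ := hub_conj (n := n) N g (f o)
      rw [hf1 (ψ z)]
      congr 1
      rw [← sub_eq_zero, ← map_sub]
      refine hrel _ (fun i => ?_) z
      rw [map_sub, hf2, hfc]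
      have e1 := hf o (g⁻¹ • (⟨c i, Set.mem_range_self i⟩ : O))
      rw [hact] at e1
      rw [e1, sub_eq_zero]
      have e2 : (g⁻¹ • (⟨c i, Set.mem_range_self i⟩ : O) = o) ↔
          ((⟨c i, Set.mem_range_self i⟩ : O) = g • o) := inv_smul_eq_iff
      by_cases h : g⁻¹ • (⟨c i, Set.mem_range_self i⟩ : O) = o
      · rw [if_pos h, if_pos (e2.1 h)]
      · rw [if_neg h, if_neg (fun h' => h (e2.2 h'))])
    (fun z => (D z : Matrix n n ℂ)) hD q hdet
    (fun g z => by
      have := congrArg (fun u : unitary (Matrix n n ℂ) => (u : Matrix n n ℂ)) (hbd z g)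
      exact this)
    (fun o z => by
      refine hub_inter N (ψ (bd z)) (ψ (bd 1)) _ (fun m _ => ?_) (f o)
      have := congrArg (fun u : unitary (Matrix n n ℂ) => (u : Matrix n n ℂ)) (hbd z m)
      exact this)
  rw [← Nat.card_coe_set_eq, Nat.card_eq_fintype_card]
  exact key

end Pool.Agent.Helper72CS
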