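import Pool.Agent.Helper72_CS.Grp
import Pool.Agent.Helper72_CS.HubTop

set_option autoImplicit false

open Set Filter Topology

noncomputable section

namespace Pool.Agent.Helper72CS

section Mat

variable {Q : Type} [Fintype Q] [DecidableEq Q] {D : Type} [CStarAlgebra D]

theorem hub_family_mono_add (σ : Equiv.Perm Q) (m n : Q → D) :
    mono σ m + mono σ n = mono σ (fun q => m q + n q) := MM.ext fun p q => by
  rw [MM.add_apply]
  simp only [mono_apply]
  split_ifs <;> simp

theorem hub_family_mono_unit (σ : Equiv.Perm Q) (m : Q → D) (h : ∀ q, m q ∈ unitary D) :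
    mono σ m ∈ unitary (MM Q D) := by
  rw [Unitary.mem_iff, star_mono, mono_mul, mono_mul, inv_mul_cancel, mul_inv_cancel, ← mono_one]
  constructor
  · congr 1
    funext q
    have e : σ⁻¹ (σ q) = q := σ.symm_apply_apply q
    show star (m (σ⁻¹ (σ q))) * m q = 1
    rw [e]
    exact (Unitary.mem_iff.1 (h q)).1
  · congr 1
    funext q
    exact (Unitary.mem_iff.1 (h (σ⁻¹ q))).2

/-- diagonal unitaries -/
def hub_family_dU (Q : Type) [Fintype Q] [DecidableEq Q] : (Q → Circle) →* unitary (MM Q ℂ) where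
  toFun f := ⟨mono 1 (fun i => (f i : ℂ)), hub_family_mono_unit _ _ fun q => by
    rw [Unitary.mem_iff]
    have h1 : star (f q : ℂ) * (f q : ℂ) = 1 := by
      have := Circle.coe_inv_eq_conj (f q)
      rw [← starRingEnd_apply, ← this, ← Circle.coe_mul, inv_mul_cancel, Circle.coe_one]
    exact ⟨h1, by rw [mul_comm]; exact h1⟩⟩
  map_one' := by
    apply Subtype.ext
    show mono 1 (fun i => (((1 : Q → Circle) i : Circle) : ℂ)) = 1
    rw [← mono_one]
    rfl
  map_mul' f g := by
    apply Subtype.ext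
    show mono 1 (fun i => (((f * g) i : Circle) : ℂ)) = mono 1 _ * mono 1 _
    rw [mono_mul, mul_one]
    rfl

theorem hub_family_coe_dU (f : Q → Circle) :
    (hub_family_dU Q f : MM Q ℂ) = mono 1 (fun i => (f i : ℂ)) := rfl

end Mat

section Cyc

variable (k : ℕ) [NeZero k]

/-- the cyclic shift -/
def hub_family_T : unitary (MM (Fin k) ℂ) :=
  ⟨mono (Equiv.addRight (1 : Fin k)) (fun _ => 1), hub_family_mono_unit _ _ fun _ => one_mem _⟩

theorem hub_family_coe_T :
    (hub_family_T k : MM (Fin k) ℂ) = mono (Equiv.addRight (1 : Fin k)) (fun _ => 1) := rfl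

theorem hub_family_T_dU (f g : Fin k → Circle) (h : ∀ i, g (i + 1) = f i) :
    hub_family_T k * hub_family_dU (Fin k) f = hub_family_dU (Fin k) g * hub_family_T k := by
  apply Subtype.ext
  show mono _ _ * mono _ _ = mono _ _ * mono _ _
  rw [mono_mul, mono_mul, mul_one, one_mul]
  congr 1
  funext q
  show (1 : ℂ) * (f q : ℂ) = (g (q + 1) : ℂ) * 1
  rw [h]
  ring

/-- the rotation of the first two vectors -/
def hub_family_u0 (z : ℂ) (s : ℝ) : MM (Fin k) ℂ :=
  mono 1 (fun i : Fin k => if i = 0 then z else if i = 1 then star z else 1) +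
  mono (Equiv.swap (0 : Fin k) 1)
    (fun i : Fin k => if i = 0 then (s : ℂ) else if i = 1 then -(s : ℂ) else 0)

theorem hub_family_u0_star (h01 : (1 : Fin k) ≠ 0) (z : ℂ) (s : ℝ) :
    star (hub_family_u0 k z s) = hub_family_u0 k (star z) (-s) := by
  unfold hub_family_u0
  rw [star_add, star_mono, star_mono, inv_one, Equiv.swap_inv]
  congr 2
  · funext q
    show star (if q = 0 then z else if q = 1 then star z else 1) = _
    split_ifs <;> simp
  · funext q
    by_cases h0 : q = 0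
    · subst h0
      rw [Equiv.swap_apply_left, if_neg h01, if_pos rfl, if_pos rfl]
      simp
    · by_cases h1 : q = 1
      · subst h1
        rw [Equiv.swap_apply_right, if_pos rfl, if_neg h0, if_pos rfl]
        simp
      · rw [Equiv.swap_apply_of_ne_of_ne h0 h1, if_neg h0, if_neg h1, if_neg h0, if_neg h1,
          star_zero]

theorem hub_family_u0_mul (h01 : (1 : Fin k) ≠ 0) (z : ℂ) (s : ℝ)
    (h : z * star z + (s : ℂ) * s = 1) :
    hub_family_u0 k z s * hub_family_u0 k (star z) (-s) = 1 := by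
  unfold hub_family_u0
  rw [add_mul, mul_add, mul_add, mono_mul, mono_mul, mono_mul, mono_mul, mul_one, one_mul, mul_one,
    Equiv.swap_mul_self]
  have e1 : ∀ (a b c d : MM (Fin k) ℂ), a + b + (c + d) = (a + d) + (b + c) := by
    intro a b c d; abel
  rw [e1, hub_family_mono_add, hub_family_mono_add]
  have e2 : mono (Equiv.swap (0 : Fin k) 1) (fun _ => (0 : ℂ)) = 0 := by
    apply MM.ext
    intro p q
    rw [mono_apply, ite_self, MM.zero_apply]
  have e3 : (1 : MM (Fin k) ℂ) = mono 1 (fun _ => 1) + mono (Equiv.swap (0 : Fin k) 1) (fun _ => (0 : ℂ)) := by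
    rw [e2, add_zero, mono_one]
  rw [e3]
  congr 2
  · funext q
    simp only [Equiv.Perm.one_apply]
    by_cases h0 : q = 0
    · subst h0
      rw [Equiv.swap_apply_left]
      simp only [if_pos, if_neg h01]
      push_cast
      linear_combination h
    · by_cases h1 : q = 1
      · subst h1
        rw [Equiv.swap_apply_right]
        simp only [if_pos, if_neg h0, star_star]
        push_cast
        linear_combination h
      · rw [Equiv.swap_apply_of_ne_of_ne h0 h1]
        simp [h0, h1]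
  · funext q
    simp only [Equiv.Perm.one_apply]
    by_cases h0 : q = 0
    · subst h0
      rw [Equiv.swap_apply_left]
      simp only [if_pos, if_neg h01]
      push_cast
      ring
    · by_cases h1 : q = 1
      · subst h1
        rw [Equiv.swap_apply_right]
        simp only [if_pos, if_neg h0, star_star]
        push_cast
        ring
      · rw [Equiv.swap_apply_of_ne_of_ne h0 h1]
        simp [h0, h1]

theorem hub_family_u0_unit (h01 : (1 : Fin k) ≠ 0) (z : ℂ) (s : ℝ)
    (h : z * star z + (s : ℂ) * s = 1) : hub_family_u0 k z s ∈ unitary (MM (Fin k) ℂ) := by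
  rw [Unitary.mem_iff, hub_family_u0_star k h01]
  constructor
  · have := hub_family_u0_mul k h01 (star z) (-s) (by
      rw [star_star]
      push_cast
      linear_combination h)
    rwa [star_star, neg_neg] at this
  · exact hub_family_u0_mul k h01 z s h

theorem hub_family_s (z : Disc) :
    (z : ℂ) * star (z : ℂ) + ((√(1 - ‖(z : ℂ)‖ ^ 2) : ℝ) : ℂ) * ((√(1 - ‖(z : ℂ)‖ ^ 2) : ℝ) : ℂ) = 1 := by
  have hz : ‖(z : ℂ)‖ ≤ 1 := by
    have := z.2
    rwa [mem_closedBall_zero_iff] at this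
  have h1 : 0 ≤ 1 - ‖(z : ℂ)‖ ^ 2 := by nlinarith [norm_nonneg (z : ℂ)]
  rw [← Complex.ofReal_mul, Real.mul_self_sqrt h1, ← starRingEnd_apply, Complex.mul_conj,
    Complex.normSq_eq_norm_sq]
  push_cast
  ring

/-- the unitaries `u_z` -/
def hub_family_u (h01 : (1 : Fin k) ≠ 0) (z : Disc) : unitary (MM (Fin k) ℂ) :=
  ⟨hub_family_u0 k z (√(1 - ‖(z : ℂ)‖ ^ 2)), hub_family_u0_unit k h01 _ _ (hub_family_s z)⟩

theorem hub_family_u_cont (h01 : (1 : Fin k) ≠ 0) : Continuous (hub_family_u k h01) := by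
  refine Continuous.subtype_mk ?_ _
  refine _root_.continuous_pi fun p => _root_.continuous_pi fun q => ?_
  unfold hub_family_u0
  have h : ∀ z : Disc, (mono 1 (fun i : Fin k => if i = 0 then (z : ℂ) else if i = 1 then star (z : ℂ) else 1) +
    mono (Equiv.swap (0 : Fin k) 1)
    (fun i : Fin k => if i = 0 then ((√(1 - ‖(z : ℂ)‖ ^ 2) : ℝ) : ℂ) else if i = 1 then -((√(1 - ‖(z : ℂ)‖ ^ 2) : ℝ) : ℂ) else 0) : MM (Fin k) ℂ) p q
      = (if p = q then (if q = 0 then (z : ℂ) else if q = 1 then star (z : ℂ) else 1) else 0) +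
      (if p = Equiv.swap (0 : Fin k) 1 q then (if q = 0 then ((√(1 - ‖(z : ℂ)‖ ^ 2) : ℝ) : ℂ) else if q = 1 then -((√(1 - ‖(z : ℂ)‖ ^ 2) : ℝ) : ℂ) else 0) else 0) := by
    intro z
    rfl
  simp only [h]
  have c1 : Continuous fun z : Disc => (z : ℂ) := continuous_subtype_val
  have c2 : Continuous fun z : Disc => star (z : ℂ) := c1.star
  have c3 : Continuous fun z : Disc => ((√(1 - ‖(z : ℂ)‖ ^ 2) : ℝ) : ℂ) :=
    Complex.continuous_ofReal.comp (Real.continuous_sqrt.comp
      (continuous_const.sub (c1.norm.pow 2)))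
  refine Continuous.add ?_ ?_
  · split_ifs
    · exact c1
    · exact c2
    · exact continuous_const
    · exact continuous_const
  · split_ifs
    · exact c3
    · exact c3.neg
    · exact continuous_const
    · exact continuous_const

theorem hub_family_comm (h01 : (1 : Fin k) ≠ 0) (z : Disc) (f : Fin k → Circle) :
    ‖(hub_family_dU (Fin k) f : MM (Fin k) ℂ) * hub_family_u k h01 z -
      hub_family_u k h01 z * hub_family_dU (Fin k) f‖ ≤ ‖(f 1 : ℂ) - f 0‖ := by
  have hz : ‖(z : ℂ)‖ ≤ 1 := by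
    have := z.2
    rwa [mem_closedBall_zero_iff] at this
  set s : ℝ := √(1 - ‖(z : ℂ)‖ ^ 2) with hs
  have hs1 : ‖(s : ℂ)‖ ≤ 1 := by
    rw [Complex.norm_real, Real.norm_eq_abs, abs_of_nonneg (Real.sqrt_nonneg _)]
    have : √(1 - ‖(z : ℂ)‖ ^ 2) ≤ √1 := Real.sqrt_le_sqrt (by nlinarith [norm_nonneg (z : ℂ)])
    rwa [Real.sqrt_one] at this
  have key : (hub_family_dU (Fin k) f : MM (Fin k) ℂ) * hub_family_u k h01 z -
      hub_family_u k h01 z * hub_family_dU (Fin k) f = mono (Equiv.swap (0 : Fin k) 1)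
      (fun i : Fin k => if i = 0 then ((f 1 : ℂ) - f 0) * s
        else if i = 1 then ((f 1 : ℂ) - f 0) * s else 0) := by
    rw [hub_family_coe_dU]
    show mono 1 _ * hub_family_u0 k z s - hub_family_u0 k z s * mono 1 _ = _
    unfold hub_family_u0
    rw [mul_add, add_mul, mono_mul, mono_mul, mono_mul, mono_mul, mul_one, one_mul, mul_one]
    have e1 : ∀ (a b c d : MM (Fin k) ℂ), a + b - (c + d) = (a - c) + (b - d) := by
      intro a b c d; abel
    rw [e1, mono_sub, mono_sub]
    have e2 : mono (1 : Equiv.Perm (Fin k)) (fun _ => (0 : ℂ)) = 0 := by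
      apply MM.ext
      intro p q
      rw [mono_apply, ite_self, MM.zero_apply]
    have e3 : ∀ a : MM (Fin k) ℂ, a = mono 1 (fun _ => 0) + a := by
      intro a
      rw [e2, zero_add]
    rw [e3 (mono (Equiv.swap (0 : Fin k) 1) (fun i : Fin k => if i = 0 then ((f 1 : ℂ) - f 0) * s
        else if i = 1 then ((f 1 : ℂ) - f 0) * s else 0))]
    congr 2
    · funext q
      rw [mul_comm]
      exact sub_self _
    · funext q
      simp only [Equiv.Perm.one_apply]
      by_cases h0 : q = 0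
      · subst h0
        rw [Equiv.swap_apply_left]
        simp only [if_pos]
        ring
      · by_cases h1 : q = 1
        · subst h1
          rw [Equiv.swap_apply_right]
          simp only [if_pos, if_neg h0]
          ring
        · rw [Equiv.swap_apply_of_ne_of_ne h0 h1]
          simp [h0, h1]
  rw [key]
  have h2 : ‖((f 1 : ℂ) - f 0) * s‖ ≤ ‖(f 1 : ℂ) - f 0‖ := by
    rw [norm_mul]
    exact mul_le_of_le_one_right (norm_nonneg _) hs1
  refine norm_mono_le _ _ (norm_nonneg _) ?_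
  intro q
  split_ifs
  · exact h2
  · exact h2
  · rw [norm_zero]; exact norm_nonneg _

/-- the diagonal unitaries `D_z` -/
def hub_family_D (z : Circle) : unitary (MM (Fin k) ℂ) :=
  hub_family_dU (Fin k) (fun i => if i = 1 then z else 1)

theorem hub_family_D_one : hub_family_D k 1 = 1 := by
  unfold hub_family_D
  rw [← map_one (hub_family_dU (Fin k))]
  congr 1
  funext i
  simp

theorem hub_family_circle (h01 : (1 : Fin k) ≠ 0) (z : Circle) :
    hub_family_T k * hub_family_u k h01 (bd z) * hub_family_D k z =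
      hub_family_D k z * hub_family_T k := by
  apply Subtype.ext
  have hu : (hub_family_u k h01 (bd z) : MM (Fin k) ℂ) =
      mono 1 (fun i : Fin k => if i = 0 then (z : ℂ) else if i = 1 then star (z : ℂ) else 1) := by
    show hub_family_u0 k (z : ℂ) (√(1 - ‖(z : ℂ)‖ ^ 2)) = _
    have : √(1 - ‖(z : ℂ)‖ ^ 2) = 0 := by
      rw [Circle.norm_coe]; simp
    rw [this]
    unfold hub_family_u0
    have e2 : mono (Equiv.swap (0 : Fin k) 1)
        (fun i : Fin k => if i = 0 then ((0 : ℝ) : ℂ) else if i = 1 then -((0 : ℝ) : ℂ) else 0) = 0 := by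
      apply MM.ext
      intro p q
      rw [mono_apply, MM.zero_apply]
      simp
    rw [e2, add_zero]
  show (hub_family_T k : MM (Fin k) ℂ) * hub_family_u k h01 (bd z) * hub_family_D k z =
      hub_family_D k z * hub_family_T k
  rw [hu]
  unfold hub_family_D
  rw [hub_family_coe_T, hub_family_coe_dU, mono_mul, mono_mul, mono_mul, mul_one, mul_one, one_mul]
  congr 1
  funext q
  have hzz : star (z : ℂ) * (z : ℂ) = 1 := by
    have := Circle.coe_inv_eq_conj z
    rw [← starRingEnd_apply, ← this, ← Circle.coe_mul, inv_mul_cancel, Circle.coe_one]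
  show 1 * (if (1 : Equiv.Perm (Fin k)) q = 0 then (z : ℂ) else
    if (1 : Equiv.Perm (Fin k)) q = 1 then star (z : ℂ) else 1) * ((if q = 1 then z else 1 : Circle) : ℂ) =
    ((if q + 1 = 1 then z else 1 : Circle) : ℂ) * 1
  rw [Equiv.Perm.one_apply]
  by_cases h0 : q = 0
  · subst h0
    rw [zero_add, if_pos rfl, if_neg h01.symm, if_pos rfl]
    simp
  · have h2 : q + 1 ≠ 1 := by
      intro h
      exact h0 (by simpa using h)
    rw [if_neg h0, if_neg h2]
    by_cases h1 : q = 1
    · rw [if_pos h1, if_pos h1, one_mul, hzz]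
      simp
    · rw [if_neg h1, if_neg h1]
      simp

end Cyc

theorem hub_family_zind (P : ℤ → Prop) (h0 : P 0) (h1 : P 1) (hm : P (-1))
    (ha : ∀ a b, P a → P b → P (a + b)) (e : ℤ) : P e := by
  induction e using Int.induction_on with
  | zero => exact h0
  | succ n ih => exact ha _ _ ih h1
  | pred n ih => exact ha _ _ ih hm

section Rep

variable {G : Type} [Group G] (N : Subgroup G) [N.Normal] (τ : G) (y : N →* Circle)
  (k : ℕ) [NeZero k]

/-- the diagonal representation of `N` -/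
def hub_family_r0 : N →* unitary (MM (Fin k) ℂ) :=
  (hub_family_dU (Fin k)).comp
    { toFun := fun m i => cact N (τ ^ (i : ℕ)) y m
      map_one' := by funext i; exact map_one _
      map_mul' := fun a b => by funext i; exact map_mul _ a b }

theorem hub_family_r0_apply (m : N) :
    hub_family_r0 N τ y k m = hub_family_dU (Fin k) (fun i => cact N (τ ^ (i : ℕ)) y m) := rfl

theorem hub_family_cact_conj (g : G) (y : N →* Circle) (m : N) :
    cact N g y (MulAut.conjNormal g m) = y m := by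
  rw [cact_apply, ← MulAut.mul_apply, ← map_mul, inv_mul_cancel, map_one]
  rfl

theorem hub_family_T_r0 (hper : cact N (τ ^ k) y = y) (m : N) :
    hub_family_T k * hub_family_r0 N τ y k m =
      hub_family_r0 N τ y k (MulAut.conjNormal τ m) * hub_family_T k := by
  rw [hub_family_r0_apply, hub_family_r0_apply]
  apply hub_family_T_dU
  intro i
  have h1 : cact N (τ ^ ((i + 1 : Fin k) : ℕ)) y = cact N (τ ^ ((i : ℕ) + 1)) y := by
    have hv : ((i + 1 : Fin k) : ℕ) = ((i : ℕ) + 1) % k := by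
      rw [Fin.val_add]
      simp
    rw [hv]
    rcases Nat.lt_or_ge ((i : ℕ) + 1) k with h | h
    · rw [Nat.mod_eq_of_lt h]
    · have h2 : (i : ℕ) + 1 = k := le_antisymm i.2 h
      rw [h2, Nat.mod_self, pow_zero, cact_one, hper]
  rw [h1, pow_succ', cact_mul, hub_family_cact_conj]

theorem hub_family_T_zpow (hper : cact N (τ ^ k) y = y) (e : ℤ) (m : N) :
    hub_family_T k ^ e * hub_family_r0 N τ y k m =
      hub_family_r0 N τ y k (MulAut.conjNormal (τ ^ e) m) * hub_family_T k ^ e := by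
  refine hub_family_zind (fun e => ∀ m : N, hub_family_T k ^ e * hub_family_r0 N τ y k m =
      hub_family_r0 N τ y k (MulAut.conjNormal (τ ^ e) m) * hub_family_T k ^ e) ?_ ?_ ?_ ?_ e m
  · intro m
    simp
  · intro m
    rw [zpow_one, zpow_one, hub_family_T_r0 N τ y k hper]
  · intro m
    rw [zpow_neg_one, zpow_neg_one, inv_mul_eq_iff_eq_mul, ← mul_assoc,
      hub_family_T_r0 N τ y k hper, mul_assoc, mul_inv_cancel, mul_one, ← MulAut.mul_apply, ← map_mul, mul_inv_cancel,
      map_one]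
    rfl
  · intro a b ha hb m
    rw [zpow_add, mul_assoc, hb, ← mul_assoc, ha, mul_assoc, ← MulAut.mul_apply, ← map_mul,
      ← zpow_add]

end Rep

section Dec

variable {G : Type} [Group G] (N L : Subgroup G) [N.Normal] (τ : G)

/-- the data of the decomposition `l = m τ^e` -/
structure hub_family_dec (mm : L → N) (ee : L → ℤ) : Prop where
  eq : ∀ l : L, (l : G) = (mm l : G) * τ ^ ee l
  em : ∀ a b, ee (a * b) = ee a + ee b
  mul : ∀ a b, mm (a * b) = mm a * MulAut.conjNormal (τ ^ ee a) (mm b)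
  uniq : ∀ (l : L) (m : N) (e : ℤ), (l : G) = (m : G) * τ ^ e → mm l = m ∧ ee l = e

theorem hub_family_dec_exists
    (hL : ∀ l ∈ L, ∃ m ∈ N, ∃ e : ℤ, l = m * τ ^ e) (hfree : ∀ e : ℤ, τ ^ e ∈ N → e = 0) :
    ∃ (mm : L → N) (ee : L → ℤ), hub_family_dec N L τ mm ee := by
  have hL' : ∀ l : L, ∃ (m : N) (e : ℤ), (l : G) = (m : G) * τ ^ e := by
    intro l
    obtain ⟨m, hm, e, he⟩ := hL l l.2
    exact ⟨⟨m, hm⟩, e, he⟩
  choose mm ee hee using hL'
  refine ⟨mm, ee, ?_⟩
  have uniq : ∀ (l : L) (m : N) (e : ℤ), (l : G) = (m : G) * τ ^ e → mm l = m ∧ ee l = e := by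
    intro l m e h
    have h1 := hee l
    have h2 : τ ^ (e - ee l) = (m : G)⁻¹ * mm l := by
      rw [zpow_sub, eq_inv_mul_iff_mul_eq, ← mul_assoc, ← h, h1, mul_assoc, mul_inv_cancel, mul_one]
    have h3 : τ ^ (e - ee l) ∈ N := by
      rw [h2]
      exact N.mul_mem (N.inv_mem m.2) (mm l).2
    have h4 := hfree _ h3
    have h5 : e = ee l := by omega
    refine ⟨?_, h5.symm⟩
    apply Subtype.ext
    rw [h, h5] at h1
    exact (mul_right_cancel h1).symm
  have heq : ∀ a b : L, ((a * b : L) : G) =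
      ((mm a * MulAut.conjNormal (τ ^ ee a) (mm b) : N) : G) * τ ^ (ee a + ee b) := by
    intro a b
    rw [Subgroup.coe_mul, Subgroup.coe_mul, MulAut.conjNormal_apply, zpow_add]
    have ha := hee a
    have hb := hee b
    calc (a : G) * b = (mm a * τ ^ ee a) * (mm b * τ ^ ee b) := by
          rw [← ha, ← hb]
      _ = _ := by group
  exact ⟨hee, fun a b => (uniq _ _ _ (heq a b)).2,
    fun a b => (uniq _ _ _ (heq a b)).1, uniq⟩

end Dec

theorem hub_family_val_one (k : ℕ) [NeZero k] (hk : 2 ≤ k) : ((1 : Fin k) : ℕ) = 1 := by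
  rw [Fin.val_one', Nat.mod_eq_of_lt (by omega)]

theorem hub_family_h01 (k : ℕ) [NeZero k] (hk : 2 ≤ k) : (1 : Fin k) ≠ 0 := by
  intro h
  have := congrArg Fin.val h
  rw [hub_family_val_one k hk] at this
  simp at this

theorem hub_family_norm_unitary {k : ℕ} [NeZero k] (U : unitary (MM (Fin k) ℂ)) :
    ‖(U : MM (Fin k) ℂ)‖ ≤ 1 := by
  have : Nonempty (Fin k) := ⟨0⟩
  exact (CStarRing.norm_of_mem_unitary U.2).le

section App

variable {G : Type} [Group G] (N : Subgroup G) [N.Normal] (τ : G)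

/-- the unitaries `t_z` -/
def hub_family_t (k : ℕ) [NeZero k] (hk : 2 ≤ k) (x : Disc) : unitary (MM (Fin k) ℂ) :=
  hub_family_T k * hub_family_u k (hub_family_h01 k hk) x

theorem hub_family_t_cont (k : ℕ) [NeZero k] (hk : 2 ≤ k) : Continuous (hub_family_t k hk) :=
  continuous_const.mul (hub_family_u_cont k _)

theorem hub_family_approx (y : ℕ → N →* Circle) (k : ℕ → ℕ) [∀ j, NeZero (k j)]
    (hk : ∀ j, 2 ≤ k j) (hper : ∀ j, cact N (τ ^ k j) (y j) = y j)
    (hlim : ∀ m, Tendsto (fun j => ((y j m : Circle) : ℂ)) atTop (𝓝 1)) (e : ℤ) (m : N) (ε : ℝ)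
    (hε : 0 < ε) : ∀ᶠ j in atTop, ∀ x : Disc,
      ‖(hub_family_r0 N τ (y j) (k j) (MulAut.conjNormal (τ ^ e) m) : MM (Fin (k j)) ℂ) *
          (hub_family_t (k j) (hk j) x ^ e : unitary (MM (Fin (k j)) ℂ)) -
        (hub_family_t (k j) (hk j) x ^ e : unitary (MM (Fin (k j)) ℂ)) *
          (hub_family_r0 N τ (y j) (k j) m : MM (Fin (k j)) ℂ)‖ ≤ ε := by
  have P1 : ∀ (m : N) (ε : ℝ), 0 < ε → ∀ᶠ j in atTop, ∀ x : Disc,
      ‖(hub_family_r0 N τ (y j) (k j) (MulAut.conjNormal τ m) : MM (Fin (k j)) ℂ) *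
          (hub_family_t (k j) (hk j) x : unitary (MM (Fin (k j)) ℂ)) -
        (hub_family_t (k j) (hk j) x : unitary (MM (Fin (k j)) ℂ)) *
          (hub_family_r0 N τ (y j) (k j) m : MM (Fin (k j)) ℂ)‖ ≤ ε := by
    intro m ε hε
    have h1 := (hlim (MulAut.conjNormal τ⁻¹ m)).sub (hlim m)
    rw [sub_self] at h1
    have h2 := h1.norm
    rw [norm_zero] at h2
    filter_upwards [h2.eventually (gt_mem_nhds hε)] with j hj x
    set r := (hub_family_r0 N τ (y j) (k j) m : MM (Fin (k j)) ℂ) with hr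
    set U := (hub_family_u (k j) (hub_family_h01 (k j) (hk j)) x : MM (Fin (k j)) ℂ) with hU
    have e1 : (hub_family_r0 N τ (y j) (k j) (MulAut.conjNormal τ m) : MM (Fin (k j)) ℂ) *
        (hub_family_T (k j) : MM (Fin (k j)) ℂ) = hub_family_T (k j) * r := by
      have := hub_family_T_r0 N τ (y j) (k j) (hper j) m
      exact (congrArg (fun U : unitary (MM (Fin (k j)) ℂ) => (U : MM (Fin (k j)) ℂ)) this).symm
    have e2 : (hub_family_t (k j) (hk j) x : MM (Fin (k j)) ℂ) =
        (hub_family_T (k j) : MM (Fin (k j)) ℂ) * U := rfl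
    have e3 : (hub_family_r0 N τ (y j) (k j) (MulAut.conjNormal τ m) : MM (Fin (k j)) ℂ) *
          (hub_family_t (k j) (hk j) x : unitary (MM (Fin (k j)) ℂ)) -
        (hub_family_t (k j) (hk j) x : unitary (MM (Fin (k j)) ℂ)) * r =
        (hub_family_T (k j) : MM (Fin (k j)) ℂ) * (r * U - U * r) := by
      rw [e2, ← mul_assoc, e1, mul_sub, mul_assoc, mul_assoc]
    rw [e3]
    have e4 : ‖r * U - U * r‖ ≤ ε := by
      have := hub_family_comm (k j) (hub_family_h01 (k j) (hk j)) x
        (fun i => cact N (τ ^ (i : ℕ)) (y j) m)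
      refine this.trans (le_trans (le_of_eq ?_) hj.le)
      rw [hub_family_val_one (k j) (hk j), pow_one, cact_apply]
      congr 2
      simp [cact_one]
    calc ‖(hub_family_T (k j) : MM (Fin (k j)) ℂ) * (r * U - U * r)‖
        ≤ ‖(hub_family_T (k j) : MM (Fin (k j)) ℂ)‖ * ‖r * U - U * r‖ := norm_mul_le _ _
      _ ≤ 1 * ε := mul_le_mul (hub_family_norm_unitary _) e4 (norm_nonneg _) zero_le_one
      _ = ε := one_mul ε
  refine hub_family_zind (fun e => ∀ (m : N) (ε : ℝ), 0 < ε → ∀ᶠ j in atTop, ∀ x : Disc,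
      ‖(hub_family_r0 N τ (y j) (k j) (MulAut.conjNormal (τ ^ e) m) : MM (Fin (k j)) ℂ) *
          (hub_family_t (k j) (hk j) x ^ e : unitary (MM (Fin (k j)) ℂ)) -
        (hub_family_t (k j) (hk j) x ^ e : unitary (MM (Fin (k j)) ℂ)) *
          (hub_family_r0 N τ (y j) (k j) m : MM (Fin (k j)) ℂ)‖ ≤ ε) ?_ ?_ ?_ ?_ e m ε hε
  · intro m ε hε
    refine Eventually.of_forall fun j x => ?_
    have : (hub_family_r0 N τ (y j) (k j) (MulAut.conjNormal (τ ^ (0 : ℤ)) m) : MM (Fin (k j)) ℂ) *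
          (hub_family_t (k j) (hk j) x ^ (0 : ℤ) : unitary (MM (Fin (k j)) ℂ)) -
        (hub_family_t (k j) (hk j) x ^ (0 : ℤ) : unitary (MM (Fin (k j)) ℂ)) *
          (hub_family_r0 N τ (y j) (k j) m : MM (Fin (k j)) ℂ) = 0 := by
      simp
    rw [this, norm_zero]
    exact hε.le
  · intro m ε hε
    simpa only [zpow_one] using P1 m ε hε
  · intro m ε hε
    filter_upwards [P1 (MulAut.conjNormal (τ ^ (-1 : ℤ)) m) ε hε] with j hj x
    set t := hub_family_t (k j) (hk j) x with ht
    set m' := MulAut.conjNormal (τ ^ (-1 : ℤ)) m with hm'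
    have hmm : MulAut.conjNormal τ m' = m := by
      rw [hm', ← MulAut.mul_apply, ← map_mul, zpow_neg_one, mul_inv_cancel, map_one]
      rfl
    have hj' := hj x
    rw [hmm] at hj'
    set r := (hub_family_r0 N τ (y j) (k j) m : MM (Fin (k j)) ℂ) with hr
    set r' := (hub_family_r0 N τ (y j) (k j) m' : MM (Fin (k j)) ℂ) with hr'
    set ti := ((t ^ (-1 : ℤ) : unitary (MM (Fin (k j)) ℂ)) : MM (Fin (k j)) ℂ) with hti
    have h1 : ti * (t : MM (Fin (k j)) ℂ) = 1 := by
      have : t ^ (-1 : ℤ) * t = 1 := by rw [zpow_neg_one, inv_mul_cancel]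
      exact congrArg (fun U : unitary (MM (Fin (k j)) ℂ) => (U : MM (Fin (k j)) ℂ)) this
    have h2 : (t : MM (Fin (k j)) ℂ) * ti = 1 := by
      have : t * t ^ (-1 : ℤ) = 1 := by rw [zpow_neg_one, mul_inv_cancel]
      exact congrArg (fun U : unitary (MM (Fin (k j)) ℂ) => (U : MM (Fin (k j)) ℂ)) this
    have h3 : r' * ti - ti * r = -(ti * (r * (t : MM (Fin (k j)) ℂ) - (t : MM (Fin (k j)) ℂ) * r') * ti) := by
      rw [mul_sub, sub_mul, ← mul_assoc ti (t : MM (Fin (k j)) ℂ) r', h1, one_mul, ← mul_assoc ti r,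
        mul_assoc (ti * r), h2, mul_one, neg_sub]
    rw [h3, norm_neg]
    have n1 : ‖ti‖ ≤ 1 := hub_family_norm_unitary _
    calc ‖ti * (r * (t : MM (Fin (k j)) ℂ) - (t : MM (Fin (k j)) ℂ) * r') * ti‖
        ≤ ‖ti * (r * (t : MM (Fin (k j)) ℂ) - (t : MM (Fin (k j)) ℂ) * r')‖ * ‖ti‖ := norm_mul_le _ _
      _ ≤ (‖ti‖ * ‖r * (t : MM (Fin (k j)) ℂ) - (t : MM (Fin (k j)) ℂ) * r'‖) * ‖ti‖ := by
          gcongr
          exact norm_mul_le _ _
      _ ≤ (1 * ε) * 1 := by gcongr
      _ = ε := by ring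
  · intro a b ha hb m ε hε
    filter_upwards [ha (MulAut.conjNormal (τ ^ b) m) (ε / 2) (half_pos hε), hb m (ε / 2) (half_pos hε)]
      with j hja hjb x
    have h1 := hja x
    have h2 := hjb x
    have hmm : MulAut.conjNormal (τ ^ a) (MulAut.conjNormal (τ ^ b) m) =
        MulAut.conjNormal (τ ^ (a + b)) m := by
      rw [← MulAut.mul_apply, ← map_mul, ← zpow_add]
    rw [hmm] at h1
    set t := hub_family_t (k j) (hk j) x with ht
    set ta := ((t ^ a : unitary (MM (Fin (k j)) ℂ)) : MM (Fin (k j)) ℂ) with hta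
    set tb := ((t ^ b : unitary (MM (Fin (k j)) ℂ)) : MM (Fin (k j)) ℂ) with htb
    have hab : ((t ^ (a + b) : unitary (MM (Fin (k j)) ℂ)) : MM (Fin (k j)) ℂ) = ta * tb := by
      rw [zpow_add]
      rfl
    rw [hab]
    set r0 := (hub_family_r0 N τ (y j) (k j) m : MM (Fin (k j)) ℂ) with hr0
    set r1 := (hub_family_r0 N τ (y j) (k j) (MulAut.conjNormal (τ ^ b) m) : MM (Fin (k j)) ℂ) with hr1
    set r2 := (hub_family_r0 N τ (y j) (k j) (MulAut.conjNormal (τ ^ (a + b)) m) : MM (Fin (k j)) ℂ) with hr2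
    have h3 : r2 * (ta * tb) - ta * tb * r0 = (r2 * ta - ta * r1) * tb + ta * (r1 * tb - tb * r0) := by
      noncomm_ring
    rw [h3]
    have n1 : ‖ta‖ ≤ 1 := hub_family_norm_unitary _
    have n2 : ‖tb‖ ≤ 1 := hub_family_norm_unitary _
    calc ‖(r2 * ta - ta * r1) * tb + ta * (r1 * tb - tb * r0)‖
        ≤ ‖(r2 * ta - ta * r1) * tb‖ + ‖ta * (r1 * tb - tb * r0)‖ := norm_add_le _ _
      _ ≤ ‖r2 * ta - ta * r1‖ * ‖tb‖ + ‖ta‖ * ‖r1 * tb - tb * r0‖ :=
          add_le_add (norm_mul_le _ _) (norm_mul_le _ _)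
      _ ≤ (ε / 2) * 1 + 1 * (ε / 2) := by gcongr
      _ = ε := by ring

end App

section Fin

variable {G : Type} [Group G] (N L : Subgroup G) [N.Normal] (τ : G)

/-- the almost representation of `L` -/
def hub_family_phi (mm : L → N) (ee : L → ℤ) (y : N →* Circle) (k : ℕ) [NeZero k] (hk : 2 ≤ k)
    (l : L) (x : Disc) : unitary (MM (Fin k) ℂ) :=
  hub_family_r0 N τ y k (mm l) * hub_family_t k hk x ^ ee l

/-- the representation of `L` -/
def hub_family_rho {mm : L → N} {ee : L → ℤ} (hd : hub_family_dec N L τ mm ee) (y : N →* Circle)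
    (k : ℕ) [NeZero k] (hper : cact N (τ ^ k) y = y) : L →* unitary (MM (Fin k) ℂ) :=
  MonoidHom.mk' (fun l => hub_family_r0 N τ y k (mm l) * hub_family_T k ^ ee l) (by
    intro a b
    rw [hd.mul, hd.em, map_mul, zpow_add, mul_assoc, ← mul_assoc _ (hub_family_T k ^ ee a),
      ← hub_family_T_zpow N τ y k hper, mul_assoc, mul_assoc])

theorem hub_family_phi_bd {mm : L → N} {ee : L → ℤ} (hd : hub_family_dec N L τ mm ee)
    (y : N →* Circle) (k : ℕ) [NeZero k] (hk : 2 ≤ k) (hper : cact N (τ ^ k) y = y) (l : L)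
    (z : Circle) : hub_family_phi N L τ mm ee y k hk l (bd z) =
      hub_family_D k z * hub_family_rho N L τ hd y k hper l * (hub_family_D k z)⁻¹ := by
  have h1 : hub_family_t k hk (bd z) =
      hub_family_D k z * hub_family_T k * (hub_family_D k z)⁻¹ := by
    rw [eq_mul_inv_iff_mul_eq]
    exact hub_family_circle k _ z
  have h2 : hub_family_r0 N τ y k (mm l) =
      hub_family_D k z * hub_family_r0 N τ y k (mm l) * (hub_family_D k z)⁻¹ := by
    rw [eq_mul_inv_iff_mul_eq, hub_family_r0_apply]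
    unfold hub_family_D
    rw [← map_mul, ← map_mul, mul_comm]
  unfold hub_family_phi
  rw [h1, conj_zpow]
  conv_lhs => rw [h2]
  show _ = hub_family_D k z * (hub_family_r0 N τ y k (mm l) * hub_family_T k ^ ee l) *
    (hub_family_D k z)⁻¹
  group

end Fin

/-- TARGET -/
theorem hub_family {G : Type} [Group G] [Countable G] (hG : CStarStable G) (N L : Subgroup G)
    [N.Normal] [L.FiniteIndex] (hNL : N ≤ L) (τ : G) (hτ : τ ∈ L)
    (hL : ∀ l ∈ L, ∃ m ∈ N, ∃ e : ℤ, l = m * τ ^ e) (hfree : ∀ e : ℤ, τ ^ e ∈ N → e = 0)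
    (y : ℕ → N →* Circle) (k : ℕ → ℕ) (hk : ∀ j, L.index < k j)
    (hper : ∀ j, cact N (τ ^ k j) (y j) = y j)
    (hlim : ∀ m, Tendsto (fun j => ((y j m : Circle) : ℂ)) atTop (𝓝 1)) :
    ∃ j, ∃ ψ : Disc → G →* unitary (Matrix ((G ⧸ L) × Fin (k j)) ((G ⧸ L) × Fin (k j)) ℂ),
      (∀ g, Continuous fun z => (ψ z g : Matrix ((G ⧸ L) × Fin (k j)) ((G ⧸ L) × Fin (k j)) ℂ)) ∧
      ∃ D : Circle → unitary (Matrix ((G ⧸ L) × Fin (k j)) ((G ⧸ L) × Fin (k j)) ℂ),
        (Continuous fun z => (D z : Matrix ((G ⧸ L) × Fin (k j)) ((G ⧸ L) × Fin (k j)) ℂ)) ∧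
        (∀ z, (D z : Matrix ((G ⧸ L) × Fin (k j)) ((G ⧸ L) × Fin (k j)) ℂ).det =
          (z : ℂ) ^ L.index) ∧
        (∀ z g, ψ (bd z) g * D z = D z * ψ (bd 1) g) ∧
        ∀ m : N, (ψ (bd 1) (m : G) : Matrix ((G ⧸ L) × Fin (k j)) ((G ⧸ L) × Fin (k j)) ℂ) =
          Matrix.diagonal (fun a => ((cact N (rp L a.1 * τ ^ (a.2 : ℕ)) (y j) m : Circle) : ℂ)) := by
  have hidx : 0 < L.index := Nat.pos_of_ne_zero Subgroup.FiniteIndex.index_ne_zero
  have hk2 : ∀ j, 2 ≤ k j := fun j => by have := hk j; omega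
  have hnz : ∀ j, NeZero (k j) := fun j => ⟨by have := hk2 j; omega⟩
  have hne : ∀ j, Nonempty (Fin (k j)) := fun j => ⟨0⟩
  have : CompactSpace Disc := isCompact_iff_compactSpace.1 (isCompact_closedBall _ _)
  have : Nonempty Disc := ⟨bd 1⟩
  obtain ⟨mm, ee, hd⟩ := hub_family_dec_exists N L τ hL hfree
  have h11 : mm 1 = 1 ∧ ee 1 = 0 := hd.uniq 1 1 0 (by simp)
  obtain ⟨ψ, hψc, hψb, _⟩ := family hG L (X := Disc) (Y := Circle) ⟨bd, bd_cont⟩
    (fun j => Fin (k j))
    (fun j l x => (hub_family_phi N L τ mm ee (y j) (k j) (hk2 j) l x : MM (Fin (k j)) ℂ))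
    (fun j l => by
      refine continuous_subtype_val.comp ?_
      exact continuous_const.mul ((hub_family_t_cont (k j) (hk2 j)).zpow _))
    (fun j l x => (hub_family_phi N L τ mm ee (y j) (k j) (hk2 j) l x).2)
    (fun j x => by
      unfold hub_family_phi
      rw [h11.1, h11.2, map_one, zpow_zero, mul_one]
      rfl)
    (fun a b ε hε => by
      filter_upwards [hub_family_approx N τ y k hk2 hper hlim (ee a) (mm b) ε hε] with j hj x
      have h1 := hj x
      set t := hub_family_t (k j) (hk2 j) x with ht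
      set ta := ((t ^ ee a : unitary (MM (Fin (k j)) ℂ)) : MM (Fin (k j)) ℂ) with hta
      set tb := ((t ^ ee b : unitary (MM (Fin (k j)) ℂ)) : MM (Fin (k j)) ℂ) with htb
      set ra := (hub_family_r0 N τ (y j) (k j) (mm a) : MM (Fin (k j)) ℂ) with hra
      set rb := (hub_family_r0 N τ (y j) (k j) (mm b) : MM (Fin (k j)) ℂ) with hrb
      set rc := (hub_family_r0 N τ (y j) (k j) (MulAut.conjNormal (τ ^ ee a) (mm b)) : MM (Fin (k j)) ℂ) with hrc
      have e1 : (hub_family_phi N L τ mm ee (y j) (k j) (hk2 j) (a * b) x : MM (Fin (k j)) ℂ) =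
          ra * rc * (ta * tb) := by
        unfold hub_family_phi
        rw [hd.mul, hd.em, map_mul, zpow_add]
        rfl
      have e2 : (hub_family_phi N L τ mm ee (y j) (k j) (hk2 j) a x : MM (Fin (k j)) ℂ) *
          (hub_family_phi N L τ mm ee (y j) (k j) (hk2 j) b x : MM (Fin (k j)) ℂ) =
          ra * ta * (rb * tb) := rfl
      have e3 : ra * rc * (ta * tb) - ra * ta * (rb * tb) = ra * (rc * ta - ta * rb) * tb := by
        noncomm_ring
      show ‖(hub_family_phi N L τ mm ee (y j) (k j) (hk2 j) (a * b) x : MM (Fin (k j)) ℂ) -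
        (hub_family_phi N L τ mm ee (y j) (k j) (hk2 j) a x : MM (Fin (k j)) ℂ) *
          (hub_family_phi N L τ mm ee (y j) (k j) (hk2 j) b x : MM (Fin (k j)) ℂ)‖ ≤ ε
      rw [e1, e2, e3]
      have n1 : ‖ra‖ ≤ 1 := hub_family_norm_unitary _
      have n2 : ‖tb‖ ≤ 1 := hub_family_norm_unitary _
      calc ‖ra * (rc * ta - ta * rb) * tb‖ ≤ ‖ra * (rc * ta - ta * rb)‖ * ‖tb‖ := norm_mul_le _ _
        _ ≤ (‖ra‖ * ‖rc * ta - ta * rb‖) * ‖tb‖ := by
            gcongr
            exact norm_mul_le _ _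
        _ ≤ (1 * ε) * 1 := by gcongr
        _ = ε := by ring)
    (fun j z => (MulAut.conj (hub_family_D (k j) z)).toMonoidHom.comp
      (hub_family_rho N L τ hd (y j) (k j) (hper j)))
    (fun j l z => by
      show (hub_family_phi N L τ mm ee (y j) (k j) (hk2 j) l (bd z) : MM (Fin (k j)) ℂ) = _
      rw [hub_family_phi_bd N L τ hd (y j) (k j) (hk2 j) (hper j) l z]
      rfl)
  obtain ⟨j, hj⟩ := hψb.exists
  refine ⟨j, fun z => (mapU (flat (G ⧸ L) (Fin (k j)))).comp (ψ j z), fun g => ?_,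
    fun z => mapU (flat (G ⧸ L) (Fin (k j))) ⟨mono 1 (fun _ => (hub_family_D (k j) z : MM (Fin (k j)) ℂ)),
      hub_family_mono_unit _ _ fun _ => (hub_family_D (k j) z).2⟩, ?_, ?_, ?_, ?_⟩
  · exact flat_continuous.comp (hψc j g)
  · refine continuous_matrix fun a b => ?_
    show Continuous fun z : Circle => (mono 1 (fun _ => (hub_family_D (k j) z : MM (Fin (k j)) ℂ)) :
      MM (G ⧸ L) (MM (Fin (k j)) ℂ)) a.1 b.1 a.2 b.2
    by_cases h1 : a.1 = b.1
    · by_cases h2 : a.2 = b.2
      · have : ∀ z : Circle, (mono 1 (fun _ => (hub_family_D (k j) z : MM (Fin (k j)) ℂ)) :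
            MM (G ⧸ L) (MM (Fin (k j)) ℂ)) a.1 b.1 a.2 b.2 = ((if b.2 = 1 then z else 1 : Circle) : ℂ) := by
          intro z
          rw [mono_apply, Equiv.Perm.one_apply, if_pos h1]
          unfold hub_family_D
          rw [hub_family_coe_dU, mono_apply, Equiv.Perm.one_apply, if_pos h2]
        simp only [this]
        split_ifs
        · exact continuous_subtype_val
        · exact continuous_const
      · have : ∀ z : Circle, (mono 1 (fun _ => (hub_family_D (k j) z : MM (Fin (k j)) ℂ)) :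
            MM (G ⧸ L) (MM (Fin (k j)) ℂ)) a.1 b.1 a.2 b.2 = 0 := by
          intro z
          rw [mono_apply, Equiv.Perm.one_apply, if_pos h1]
          unfold hub_family_D
          rw [hub_family_coe_dU, mono_apply, Equiv.Perm.one_apply, if_neg h2]
        simp only [this]
        exact continuous_const
    · have : ∀ z : Circle, (mono 1 (fun _ => (hub_family_D (k j) z : MM (Fin (k j)) ℂ)) :
            MM (G ⧸ L) (MM (Fin (k j)) ℂ)) a.1 b.1 a.2 b.2 = 0 := by
        intro z
        rw [mono_apply, Equiv.Perm.one_apply, if_neg h1]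
        rfl
      simp only [this]
      exact continuous_const
  · intro z
    have h1 : (mapU (flat (G ⧸ L) (Fin (k j))) ⟨mono 1 (fun _ => (hub_family_D (k j) z : MM (Fin (k j)) ℂ)),
      hub_family_mono_unit _ _ fun _ => (hub_family_D (k j) z).2⟩ :
        Matrix ((G ⧸ L) × Fin (k j)) ((G ⧸ L) × Fin (k j)) ℂ) =
        Matrix.diagonal (fun a => ((if a.2 = 1 then z else 1 : Circle) : ℂ)) := by
      ext a b
      show (mono 1 (fun _ => (hub_family_D (k j) z : MM (Fin (k j)) ℂ)) :
        MM (G ⧸ L) (MM (Fin (k j)) ℂ)) a.1 b.1 a.2 b.2 = _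
      rw [mono_apply, Equiv.Perm.one_apply, Matrix.diagonal_apply]
      by_cases h1 : a.1 = b.1
      · rw [if_pos h1]
        unfold hub_family_D
        rw [hub_family_coe_dU, mono_apply, Equiv.Perm.one_apply]
        by_cases h2 : a.2 = b.2
        · rw [if_pos h2, if_pos (Prod.ext h1 h2), h2]
        · rw [if_neg h2, if_neg]
          rintro rfl
          exact h2 rfl
      · rw [if_neg h1, if_neg]
        · rfl
        · rintro rfl
          exact h1 rfl
    rw [h1, Matrix.det_diagonal, Fintype.prod_prod_type]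
    have h2 : ∀ q : G ⧸ L, ∏ i : Fin (k j), ((if i = 1 then z else 1 : Circle) : ℂ) = (z : ℂ) := by
      intro _
      rw [Finset.prod_eq_single (1 : Fin (k j))]
      · rw [if_pos rfl]
      · intro b _ hb
        rw [if_neg hb, Circle.coe_one]
      · intro h
        exact absurd (Finset.mem_univ _) h
    rw [Finset.prod_congr rfl (fun q _ => h2 q), Finset.prod_const, Finset.card_univ,
      Subgroup.index, Nat.card_eq_fintype_card]
  · intro z g
    apply Subtype.ext
    show (flat (G ⧸ L) (Fin (k j)) (ψ j (bd z) g : MM (G ⧸ L) (MM (Fin (k j)) ℂ))) *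
        (flat (G ⧸ L) (Fin (k j)) (mono 1 (fun _ => (hub_family_D (k j) z : MM (Fin (k j)) ℂ)))) =
      (flat (G ⧸ L) (Fin (k j)) (mono 1 (fun _ => (hub_family_D (k j) z : MM (Fin (k j)) ℂ)))) *
        (flat (G ⧸ L) (Fin (k j)) (ψ j (bd 1) g : MM (G ⧸ L) (MM (Fin (k j)) ℂ)))
    have h1 := hj z g
    have h2 := hj 1 g
    rw [← map_mul, ← map_mul]
    congr 1
    have h1' : (ψ j (bd z) g : MM (G ⧸ L) (MM (Fin (k j)) ℂ)) = _ := h1
    have h2' : (ψ j (bd 1) g : MM (G ⧸ L) (MM (Fin (k j)) ℂ)) = _ := h2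
    rw [h1', h2']
    unfold Ind
    rw [mono_mul, mono_mul, mul_one, one_mul]
    congr 1
    funext q
    have h3 : ∀ l : L, (MulAut.conj (hub_family_D (k j) z)).toMonoidHom.comp
        (hub_family_rho N L τ hd (y j) (k j) (hper j)) l * hub_family_D (k j) z =
        hub_family_D (k j) z * (MulAut.conj (hub_family_D (k j) 1)).toMonoidHom.comp
        (hub_family_rho N L τ hd (y j) (k j) (hper j)) l := by
      intro l
      show hub_family_D (k j) z * hub_family_rho N L τ hd (y j) (k j) (hper j) l *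
        (hub_family_D (k j) z)⁻¹ * hub_family_D (k j) z =
        hub_family_D (k j) z * (hub_family_D (k j) 1 *
          hub_family_rho N L τ hd (y j) (k j) (hper j) l * (hub_family_D (k j) 1)⁻¹)
      rw [hub_family_D_one]
      group
    exact congrArg (fun U : unitary (MM (Fin (k j)) ℂ) => (U : MM (Fin (k j)) ℂ)) (h3 (lc L g q))
  · intro m
    have h2 : (ψ j (bd 1) (m : G) : MM (G ⧸ L) (MM (Fin (k j)) ℂ)) = _ := hj 1 m
    ext a b
    show flat (G ⧸ L) (Fin (k j)) (ψ j (bd 1) (m : G) : MM (G ⧸ L) (MM (Fin (k j)) ℂ)) a b = _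
    rw [h2, flat_apply, Ind_apply, Matrix.diagonal_apply]
    have hmq : ∀ q : G ⧸ L, (m : G) • q = q := by
      intro q
      induction q using QuotientGroup.induction_on with
      | H r =>
        rw [MulAction.Quotient.smul_coe, QuotientGroup.eq]
        apply hNL
        have := ‹N.Normal›.conj_mem (m : G)⁻¹ (N.inv_mem m.2) r⁻¹
        simpa [mul_assoc] using this
    rw [hmq]
    by_cases h1 : a.1 = b.1
    · rw [if_pos h1]
      have hlc : mm (lc L (m : G) b.1) = MulAut.conjNormal (rp L b.1)⁻¹ m ∧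
          ee (lc L (m : G) b.1) = 0 := by
        apply hd.uniq
        rw [coe_lc, hmq, MulAut.conjNormal_apply]
        group
      have h3 : (MulAut.conj (hub_family_D (k j) 1)).toMonoidHom.comp
        (hub_family_rho N L τ hd (y j) (k j) (hper j)) (lc L (m : G) b.1) =
          hub_family_r0 N τ (y j) (k j) (MulAut.conjNormal (rp L b.1)⁻¹ m) := by
        show hub_family_D (k j) 1 * (hub_family_r0 N τ (y j) (k j) (mm (lc L (m : G) b.1)) *
          hub_family_T (k j) ^ ee (lc L (m : G) b.1)) * (hub_family_D (k j) 1)⁻¹ = _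
        rw [hub_family_D_one, hlc.1, hlc.2]
        simp
      rw [h3, hub_family_r0_apply, hub_family_coe_dU, mono_apply, Equiv.Perm.one_apply]
      by_cases h2 : a.2 = b.2
      · rw [if_pos h2, if_pos (Prod.ext h1 h2), cact_mul, ← h1, ← h2]
        rfl
      · rw [if_neg h2, if_neg]
        rintro rfl
        exact h2 rfl
    · rw [if_neg h1, if_neg]
      · rfl
      · rintro rfl
        exact h1 rfl

end Pool.Agent.Helper72CS
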