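import Pool.Agent.Helper72_CS.PerturbW

/-!
# Induction of almost representations from a subgroup of finite index
-/

set_option autoImplicit false

open Set Filter Topology

noncomputable section

namespace Pool.Agent.Helper72CS

/-- matrices with entries in a C*-algebra -/
def MM (Q D : Type) : Type := CStarMatrix Q Q D

section MM

variable {Q D : Type} [Fintype Q] [DecidableEq Q] [CStarAlgebra D]

instance instMM : CStarAlgebra (MM Q D) :=
  @CStarMatrix.instCStarAlgebra D _ (CStarAlgebra.spectralOrder D)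
    (CStarAlgebra.spectralOrderedRing D) Q _ _

theorem MM.ext {M N : MM Q D} (h : ∀ p q, M p q = N p q) : M = N := CStarMatrix.ext h

theorem MM.mul_apply (M N : MM Q D) (p q : Q) : (M * N) p q = ∑ r, M p r * N r q :=
  CStarMatrix.mul_apply

theorem MM.one_apply (p q : Q) : (1 : MM Q D) p q = if p = q then 1 else 0 :=
  CStarMatrix.one_apply

theorem MM.star_apply (M : MM Q D) (p q : Q) : (star M) p q = star (M q p) := rfl

theorem MM.sub_apply (M N : MM Q D) (p q : Q) : (M - N) p q = M p q - N p q := rfl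

theorem MM.add_apply (M N : MM Q D) (p q : Q) : (M + N) p q = M p q + N p q := rfl

theorem MM.smul_apply (c : ℂ) (M : MM Q D) (p q : Q) : (c • M) p q = c • M p q := rfl

theorem MM.zero_apply (p q : Q) : (0 : MM Q D) p q = 0 := rfl

theorem MM.norm_apply_le (M : MM Q D) (p q : Q) : ‖M p q‖ ≤ ‖M‖ :=
  @CStarMatrix.norm_entry_le_norm Q Q D _ _ (CStarAlgebra.spectralOrder D)
    (CStarAlgebra.spectralOrderedRing D) _ M p q

/-- diagonal matrices -/
def diagM (d : Q → D) : MM Q D := fun p q => if p = q then d q else 0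

theorem diagM_apply (d : Q → D) (p q : Q) : diagM d p q = if p = q then d q else 0 := rfl

/-- the diagonal matrices as a star homomorphism -/
def diagHom : (Q → D) →⋆ₐ[ℂ] MM Q D where
  toFun := diagM
  map_one' := MM.ext fun p q => by rw [diagM_apply, MM.one_apply]; rfl
  map_mul' a b := MM.ext fun p q => by
    rw [MM.mul_apply]
    simp only [diagM_apply, Pi.mul_apply]
    rw [Finset.sum_eq_single q]
    · simp only [if_true]
      split_ifs with h
      · rfl
      · simp
    · intro r _ hr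
      simp [hr]
    · intro h
      exact absurd (Finset.mem_univ _) h
  map_zero' := MM.ext fun p q => by
    rw [diagM_apply, MM.zero_apply]
    simp
  map_add' a b := MM.ext fun p q => by
    rw [MM.add_apply]
    simp only [diagM_apply, Pi.add_apply]
    split_ifs <;> simp
  commutes' r := MM.ext fun p q => by
    rw [diagM_apply]
    show _ = (algebraMap ℂ (CStarMatrix Q Q D) r) p q
    rw [CStarMatrix.algebraMap_apply]
    split_ifs with h
    · simp
    · rfl
  map_star' a := MM.ext fun p q => by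
    rw [MM.star_apply, diagM_apply, diagM_apply]
    by_cases h : p = q
    · subst h
      simp
    · rw [if_neg h, if_neg (Ne.symm h), star_zero]

theorem norm_diagM_le (d : Q → D) {C : ℝ} (hC : 0 ≤ C) (h : ∀ q, ‖d q‖ ≤ C) : ‖diagM d‖ ≤ C :=
  (NonUnitalStarAlgHom.norm_apply_le (diagHom : (Q → D) →⋆ₐ[ℂ] MM Q D) d).trans
    ((pi_norm_le_iff_of_nonneg hC).2 h)

/-- monomial matrices -/
def mono (σ : Equiv.Perm Q) (m : Q → D) : MM Q D := fun p q => if p = σ q then m q else 0

theorem mono_apply (σ : Equiv.Perm Q) (m : Q → D) (p q : Q) :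
    mono σ m p q = if p = σ q then m q else 0 := rfl

theorem mono_mul (σ τ : Equiv.Perm Q) (m n : Q → D) :
    mono σ m * mono τ n = mono (σ * τ) (fun q => m (τ q) * n q) := MM.ext fun p q => by
  rw [MM.mul_apply]
  simp only [mono_apply]
  rw [Finset.sum_eq_single (τ q)]
  · simp only [if_true, Equiv.Perm.mul_apply]
    split_ifs <;> simp
  · intro r _ hr
    simp [hr]
  · intro h
    exact absurd (Finset.mem_univ _) h

theorem star_mono (σ : Equiv.Perm Q) (m : Q → D) :
    star (mono σ m) = mono σ⁻¹ (fun q => star (m (σ⁻¹ q))) := MM.ext fun p q => by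
  rw [MM.star_apply, mono_apply, mono_apply]
  by_cases h : q = σ p
  · subst h
    simp
  · rw [if_neg h, if_neg, star_zero]
    rintro rfl
    simp at h

theorem mono_sub (σ : Equiv.Perm Q) (m n : Q → D) :
    mono σ m - mono σ n = mono σ (fun q => m q - n q) := MM.ext fun p q => by
  rw [MM.sub_apply]
  simp only [mono_apply]
  split_ifs <;> simp

theorem mono_one : mono 1 (fun _ : Q => (1 : D)) = 1 := MM.ext fun p q => by
  rw [mono_apply, MM.one_apply]
  simp

theorem mono_one_perm (m : Q → D) : mono 1 m = diagM m := MM.ext fun p q => by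
  rw [mono_apply, diagM_apply]
  rfl

theorem norm_mono_le (σ : Equiv.Perm Q) (m : Q → D) {C : ℝ} (hC : 0 ≤ C) (h : ∀ q, ‖m q‖ ≤ C) :
    ‖mono σ m‖ ≤ C := by
  have h1 : star (mono σ m) * mono σ m = diagM (fun q => star (m q) * m q) := by
    rw [star_mono, mono_mul, inv_mul_cancel, mono_one_perm]
    simp
  have h2 : ‖mono σ m‖ * ‖mono σ m‖ ≤ C * C := by
    rw [← CStarRing.norm_star_mul_self, h1]
    refine norm_diagM_le _ (mul_nonneg hC hC) fun q => ?_
    rw [CStarRing.norm_star_mul_self]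
    exact mul_le_mul (h q) (h q) (norm_nonneg _) hC
  exact abs_le_of_sq_le_sq' (by rw [sq, sq]; exact h2) hC |>.2

theorem norm_mono_le_sum (σ : Equiv.Perm Q) (m : Q → D) : ‖mono σ m‖ ≤ ∑ q, ‖m q‖ :=
  norm_mono_le σ m (Finset.sum_nonneg fun _ _ => norm_nonneg _) fun q =>
    Finset.single_le_sum (f := fun q => ‖m q‖) (fun _ _ => norm_nonneg _) (Finset.mem_univ q)

instance [Nonempty Q] [Nontrivial D] : Nontrivial (MM Q D) :=
  inferInstanceAs (Nontrivial (CStarMatrix Q Q D))

/-- a star homomorphism applied to the entries -/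
def mapMM {E : Type} [CStarAlgebra E] (f : D →⋆ₐ[ℂ] E) : MM Q D →⋆ₐ[ℂ] MM Q E where
  toFun M := fun p q => f (M p q)
  map_one' := MM.ext fun p q => by
    show f ((1 : MM Q D) p q) = _
    rw [MM.one_apply, MM.one_apply]
    split_ifs <;> simp
  map_mul' a b := MM.ext fun p q => by
    show f ((a * b) p q) = _
    rw [MM.mul_apply, MM.mul_apply, map_sum]
    simp
  map_zero' := MM.ext fun p q => by
    show f ((0 : MM Q D) p q) = _
    rw [MM.zero_apply, MM.zero_apply, map_zero]
  map_add' a b := MM.ext fun p q => by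
    show f ((a + b) p q) = _
    rw [MM.add_apply, MM.add_apply, map_add]
  commutes' r := MM.ext fun p q => by
    show f ((algebraMap ℂ (CStarMatrix Q Q D) r) p q) = (algebraMap ℂ (CStarMatrix Q Q E) r) p q
    rw [CStarMatrix.algebraMap_apply, CStarMatrix.algebraMap_apply]
    split_ifs
    · exact AlgHomClass.commutes f r
    · exact map_zero f
  map_star' a := MM.ext fun p q => by
    show f ((star a) p q) = _
    rw [MM.star_apply, MM.star_apply, map_star]

theorem mapMM_apply {E : Type} [CStarAlgebra E] (f : D →⋆ₐ[ℂ] E) (M : MM Q D) (p q : Q) :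
    mapMM f M p q = f (M p q) := rfl

theorem mapMM_mono {E : Type} [CStarAlgebra E] (f : D →⋆ₐ[ℂ] E) (σ : Equiv.Perm Q) (m : Q → D) :
    mapMM f (mono σ m) = mono σ (fun q => f (m q)) := MM.ext fun p q => by
  rw [mapMM_apply, mono_apply, mono_apply]
  split_ifs <;> simp

end MM

section Ind

variable {G : Type} [Group G] (L : Subgroup G)

/-- representatives of the cosets -/
def rp (p : G ⧸ L) : G := Quotient.out p

theorem rp_mk (p : G ⧸ L) : ((rp L p : G) : G ⧸ L) = p := QuotientGroup.out_eq' p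

/-- the cocycle with values in `L` -/
def lc (g : G) (q : G ⧸ L) : L := ⟨(rp L (g • q))⁻¹ * (g * rp L q), by
  rw [← QuotientGroup.eq, rp_mk]
  exact (@MulAction.Quotient.coe_smul_out G G _ _ _ L _ g q).symm⟩

theorem coe_lc (g : G) (q : G ⧸ L) : (lc L g q : G) = (rp L (g • q))⁻¹ * (g * rp L q) := rfl

theorem lc_mul (g h : G) (q : G ⧸ L) : lc L (g * h) q = lc L g (h • q) * lc L h q := by
  apply Subtype.ext
  rw [Subgroup.coe_mul, coe_lc, coe_lc, coe_lc, mul_smul]
  group

theorem lc_one (q : G ⧸ L) : lc L 1 q = 1 := by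
  apply Subtype.ext
  rw [coe_lc, one_smul, one_mul, inv_mul_cancel]
  rfl

theorem lc_inv (g : G) (q : G ⧸ L) : lc L g⁻¹ q = (lc L g (g⁻¹ • q))⁻¹ := by
  rw [eq_inv_iff_mul_eq_one, ← lc_one L (g⁻¹ • q), ← inv_mul_cancel g, lc_mul, smul_inv_smul]

instance decQ : DecidableEq (G ⧸ L) := Classical.decEq _

instance finQ [L.FiniteIndex] : Fintype (G ⧸ L) := Subgroup.fintypeQuotientOfFiniteIndex

variable [L.FiniteIndex] {D : Type} [CStarAlgebra D]

/-- the induced map -/
def Ind (φ : L → D) (g : G) : MM (G ⧸ L) D :=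
  mono (MulAction.toPerm g) (fun q => φ (lc L g q))

theorem Ind_apply (φ : L → D) (g : G) (p q : G ⧸ L) :
    Ind L φ g p q = if p = g • q then φ (lc L g q) else 0 := rfl

theorem Ind_mul_sub (φ : L → D) (g h : G) :
    Ind L φ (g * h) - Ind L φ g * Ind L φ h = mono (MulAction.toPerm (g * h)) (fun q =>
      φ (lc L g (h • q) * lc L h q) - φ (lc L g (h • q)) * φ (lc L h q)) := by
  unfold Ind
  rw [mono_mul]
  have : (MulAction.toPerm (g * h) : Equiv.Perm (G ⧸ L)) =
      MulAction.toPerm g * MulAction.toPerm h := by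
    ext q
    simp [mul_smul]
  rw [this, mono_sub]
  congr 1
  funext q
  rw [lc_mul]
  rfl

theorem Ind_star_sub (φ : L → D) (g : G) :
    star (Ind L φ g) - Ind L φ g⁻¹ = mono (MulAction.toPerm g⁻¹) (fun q =>
      star (φ (lc L g (g⁻¹ • q))) - φ (lc L g (g⁻¹ • q))⁻¹) := by
  unfold Ind
  rw [star_mono]
  have : (MulAction.toPerm g : Equiv.Perm (G ⧸ L))⁻¹ = MulAction.toPerm g⁻¹ := by
    ext q
    simp [Equiv.Perm.inv_def]
  rw [this, mono_sub]
  congr 1
  funext q
  rw [lc_inv]
  rfl

theorem Ind_one_sub (φ : L → D) :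
    Ind L φ 1 - 1 = mono 1 (fun _ => φ 1 - 1) := by
  have h : (MulAction.toPerm (1 : G) : Equiv.Perm (G ⧸ L)) = 1 := by
    ext q
    simp
  unfold Ind
  rw [← mono_one, h, mono_sub]
  congr 1
  funext q
  rw [lc_one]

theorem Ind_sub (φ φ' : L → D) (g : G) :
    Ind L φ g - Ind L φ' g = mono (MulAction.toPerm g) (fun q =>
      φ (lc L g q) - φ' (lc L g q)) := by
  unfold Ind
  rw [mono_sub]

/-- the induced representation -/
def IndU (ρ : L →* unitary D) : G →* unitary (MM (G ⧸ L) D) where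
  toFun g := ⟨Ind L (fun l => (ρ l : D)) g, by
    have h1 : ∀ g, star (Ind L (fun l => (ρ l : D)) g) = Ind L (fun l => (ρ l : D)) g⁻¹ := by
      intro g
      rw [← sub_eq_zero, Ind_star_sub]
      refine MM.ext fun p q => ?_
      rw [mono_apply, MM.zero_apply, map_inv]
      have : star (ρ (lc L g (g⁻¹ • q)) : D) - ((ρ (lc L g (g⁻¹ • q)))⁻¹ : unitary D) = 0 :=
        sub_eq_zero.2 rfl
      rw [this, ite_self]
    have h2 : ∀ g h, Ind L (fun l => (ρ l : D)) g * Ind L (fun l => (ρ l : D)) h =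
        Ind L (fun l => (ρ l : D)) (g * h) := by
      intro g h
      rw [eq_comm, ← sub_eq_zero, Ind_mul_sub]
      refine MM.ext fun p q => ?_
      rw [mono_apply, MM.zero_apply, map_mul, Submonoid.coe_mul, sub_self, ite_self]
    have h3 : Ind L (fun l => (ρ l : D)) 1 = 1 := by
      rw [← sub_eq_zero, Ind_one_sub, map_one]
      refine MM.ext fun p q => ?_
      rw [mono_apply, MM.zero_apply]
      simp
    rw [Unitary.mem_iff, h1, h2, h2, inv_mul_cancel, mul_inv_cancel, h3]
    exact ⟨rfl, rfl⟩⟩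
  map_one' := by
    apply Subtype.ext
    show Ind L (fun l => (ρ l : D)) 1 = 1
    rw [← sub_eq_zero, Ind_one_sub, map_one]
    refine MM.ext fun p q => ?_
    rw [mono_apply, MM.zero_apply]
    simp
  map_mul' g h := by
    apply Subtype.ext
    show Ind L (fun l => (ρ l : D)) (g * h) =
      Ind L (fun l => (ρ l : D)) g * Ind L (fun l => (ρ l : D)) h
    rw [← sub_eq_zero, Ind_mul_sub]
    refine MM.ext fun p q => ?_
    rw [mono_apply, MM.zero_apply, map_mul, Submonoid.coe_mul, sub_self, ite_self]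

theorem coe_IndU (ρ : L →* unitary D) (g : G) :
    (IndU L ρ g : MM (G ⧸ L) D) = Ind L (fun l => (ρ l : D)) g := rfl

end Ind

/-- **Perturbation of induced almost representations.** -/
theorem perturbInd {G : Type} [Group G] [Countable G] (hG : CStarStable G) (L : Subgroup G)
    [L.FiniteIndex]
    {D E : ℕ → Type} [∀ j, CStarAlgebra (D j)] [∀ j, CStarAlgebra (E j)]
    [∀ j, Nontrivial (D j)] (π : ∀ j, D j →⋆ₐ[ℂ] E j) (φ : ∀ j, L → D j)
    (hb : ∀ g, ∃ C, ∀ j, ‖φ j g‖ ≤ C) (ρ : ∀ j, L →* unitary (E j))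
    (hπ : ∀ j g, π j (φ j g) = ρ j g)
    (hmul : ∀ g h, Tendsto (fun j => ‖φ j (g * h) - φ j g * φ j h‖) atTop (𝓝 0))
    (hstar : ∀ g, Tendsto (fun j => ‖star (φ j g) - φ j g⁻¹‖) atTop (𝓝 0))
    (hone : Tendsto (fun j => ‖φ j 1 - 1‖) atTop (𝓝 0)) :
    ∃ ψ : ∀ j, G →* unitary (MM (G ⧸ L) (D j)),
      (∀ᶠ j in atTop, ∀ g, mapMM (π j) (ψ j g) = Ind L (fun l => (ρ j l : E j)) g) ∧
      ∀ g, Tendsto (fun j => ‖(ψ j g : MM (G ⧸ L) (D j)) - Ind L (φ j) g‖) atTop (𝓝 0) := by
  have key : ∀ (σ : G ⧸ L → Equiv.Perm (G ⧸ L)) (τ : Equiv.Perm (G ⧸ L))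
      (m : ∀ j, G ⧸ L → D j), (∀ q, Tendsto (fun j => ‖m j q‖) atTop (𝓝 0)) →
      Tendsto (fun j => ‖mono τ (m j)‖) atTop (𝓝 0) := by
    intro _ τ m hm
    refine squeeze_zero (fun _ => norm_nonneg _) (fun j => norm_mono_le_sum τ (m j)) ?_
    have := tendsto_finset_sum (Finset.univ : Finset (G ⧸ L)) (fun q _ => hm q)
    simpa using this
  obtain ⟨ψ, h1, h2⟩ := perturb hG (fun j => (mapMM (π j) : MM (G ⧸ L) (D j) →⋆ₐ[ℂ] MM (G ⧸ L) (E j))) (fun j => Ind L (φ j))
    (by
      intro g
      choose C hC using hb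
      refine ⟨∑ q : G ⧸ L, C (lc L g q), fun j => ?_⟩
      refine (norm_mono_le_sum _ _).trans (Finset.sum_le_sum fun q _ => hC _ j))
    (fun j => IndU L (ρ j))
    (by
      intro j g
      rw [coe_IndU]
      unfold Ind
      rw [mapMM_mono]
      congr 1
      funext q
      exact hπ j _)
    (by
      intro g h
      simp only [Ind_mul_sub]
      exact key (fun _ => 1) _ _ fun q => hmul _ _)
    (by
      intro g
      simp only [Ind_star_sub]
      exact key (fun _ => 1) _ _ fun q => hstar _)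
    (by
      simp only [Ind_one_sub]
      exact key (fun _ => 1) _ _ fun q => hone)
  refine ⟨ψ, ?_, h2⟩
  filter_upwards [h1] with j hj g
  rw [hj g]
  unfold Ind
  rw [mapMM_mono]
  congr 1
  funext q
  exact hπ j _

end Pool.Agent.Helper72CS
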