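import Mathlib

set_option autoImplicit false

noncomputable section

namespace Pool.Agent.Helper72CS

/-- `1 - K` injective with `K` of finite rank is surjective. -/
private theorem surj_of_inj_one_sub {H : Type} [NormedAddCommGroup H] [InnerProductSpace ℂ H]
    (K : H →L[ℂ] H) (hK : FiniteDimensional ℂ (LinearMap.range (K : H →ₗ[ℂ] H)))
    (hinj : Function.Injective (fun x => x - K x)) : Function.Surjective (fun x => x - K x) := by
  let E : Submodule ℂ H := LinearMap.range (K : H →ₗ[ℂ] H)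
  have : FiniteDimensional ℂ E := hK
  let T : H →ₗ[ℂ] H := LinearMap.id - (K : H →ₗ[ℂ] H)
  have hTE : ∀ x ∈ E, T x ∈ E := by
    intro x hx
    have : K x ∈ E := ⟨x, rfl⟩
    simpa [T] using E.sub_mem hx this
  let TE : E →ₗ[ℂ] E := T.restrict hTE
  have hTEinj : Function.Injective TE := by
    intro x y hxy
    have h1 : T x = T y := by
      have := congrArg Subtype.val hxy
      simpa [TE] using this
    have h2 : (x : H) - K x = (y : H) - K y := by simpa [T] using h1
    exact Subtype.ext (hinj h2)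
  have hTEsurj : Function.Surjective TE := LinearMap.injective_iff_surjective.mp hTEinj
  intro y
  obtain ⟨e, he⟩ := hTEsurj ⟨K y, ⟨y, rfl⟩⟩
  have he' : (e : H) - K e = K y := by
    have := congrArg Subtype.val he
    simpa [TE, T] using this
  refine ⟨y + e, ?_⟩
  show (y + e) - K (y + e) = y
  rw [map_add]
  have : (y + (e : H)) - (K y + K e) = y + (((e : H) - K e) - K y) := by abel
  rw [this, he', sub_self, add_zero]

/-- TARGET -/
theorem index_lemma {H : Type} [NormedAddCommGroup H] [InnerProductSpace ℂ H] [CompleteSpace H]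
    (V Λ Λ' F R N : H →L[ℂ] H) (hV : star V * V = 1) (hV' : V * star V ≠ 1)
    (hΛ : Λ * Λ' = 1) (hΛ' : Λ' * Λ = 1)
    (hF : FiniteDimensional ℂ (LinearMap.range (F : H →ₗ[ℂ] H))) (hR : ‖R‖ < 1)
    (hN : N = Λ * (V + F + R)) (hnorm : star N * N = N * star N) : False := by
  classical
  have hVapp : ∀ x, (star V) (V x) = x := fun x => by
    have := congrArg (fun T : H →L[ℂ] H => T x) hV
    simpa using this
  have hVnorm : ∀ x, ‖V x‖ = ‖x‖ := by
    intro x
    have h : inner ℂ (V x) (V x) = inner ℂ x x := by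
      have h0 := ContinuousLinearMap.adjoint_inner_right V x (V x)
      have h1 := hVapp x
      rw [ContinuousLinearMap.star_eq_adjoint] at h1
      rw [h1] at h0
      exact h0.symm
    have h2 : ‖V x‖ ^ 2 = ‖x‖ ^ 2 := by
      have := congrArg RCLike.re h
      rwa [inner_self_eq_norm_sq (𝕜 := ℂ), inner_self_eq_norm_sq (𝕜 := ℂ)] at this
    exact (sq_eq_sq₀ (norm_nonneg _) (norm_nonneg _)).mp h2
  have hVle : ‖V‖ ≤ 1 := V.opNorm_le_bound zero_le_one (fun x => by rw [hVnorm, one_mul])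
  have hsV : ‖star V‖ ≤ 1 := by rw [norm_star]; exact hVle
  have hRV : ‖-(R * star V)‖ < 1 := by
    rw [norm_neg]
    calc ‖R * star V‖ ≤ ‖R‖ * ‖star V‖ := norm_mul_le _ _
      _ ≤ ‖R‖ * 1 := by gcongr
      _ < 1 := by simpa using hR
  let A : (H →L[ℂ] H)ˣ := Units.oneSub (-(R * star V)) hRV
  have hA : (A : H →L[ℂ] H) = 1 + R * star V := by simp [A]
  let Λu : (H →L[ℂ] H)ˣ := ⟨Λ, Λ', hΛ, hΛ'⟩
  let L : (H →L[ℂ] H)ˣ := Λu * A
  let F₁ : H →L[ℂ] H := (↑A⁻¹ : H →L[ℂ] H) * F
  have hAV : (A : H →L[ℂ] H) * V = V + R := by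
    rw [hA, add_mul, one_mul, mul_assoc, hV, mul_one]
  have hAF : (A : H →L[ℂ] H) * F₁ = F := by
    simp [F₁, ← mul_assoc]
  have hNL : N = (L : H →L[ℂ] H) * (V + F₁) := by
    rw [hN]
    simp only [L, Units.val_mul, mul_assoc, mul_add, hAV, hAF]
    simp only [Λu, mul_add]
    abel
  -- finite rank facts
  have finrank_mul : ∀ (S T : H →L[ℂ] H), FiniteDimensional ℂ (LinearMap.range (T : H →ₗ[ℂ] H)) →
      FiniteDimensional ℂ (LinearMap.range ((S * T : H →L[ℂ] H) : H →ₗ[ℂ] H)) := by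
    intro S T hT
    have : LinearMap.range ((S * T : H →L[ℂ] H) : H →ₗ[ℂ] H)
        = (LinearMap.range (T : H →ₗ[ℂ] H)).map (S : H →ₗ[ℂ] H) := by
      rw [← LinearMap.range_comp]; rfl
    rw [this]
    infer_instance
  have finrank_add : ∀ (S T : H →L[ℂ] H), FiniteDimensional ℂ (LinearMap.range (S : H →ₗ[ℂ] H)) →
      FiniteDimensional ℂ (LinearMap.range (T : H →ₗ[ℂ] H)) →
      FiniteDimensional ℂ (LinearMap.range ((S + T : H →L[ℂ] H) : H →ₗ[ℂ] H)) := by
    intro S T hS hT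
    have := hS
    have := hT
    refine Submodule.finiteDimensional_of_le (S₂ := LinearMap.range (S : H →ₗ[ℂ] H) ⊔ LinearMap.range (T : H →ₗ[ℂ] H)) ?_
    rintro _ ⟨x, rfl⟩
    exact Submodule.add_mem_sup ⟨x, rfl⟩ ⟨x, rfl⟩
  have hF₁ : FiniteDimensional ℂ (LinearMap.range (F₁ : H →ₗ[ℂ] H)) := finrank_mul _ _ hF
  -- kernel of N
  have hLinj : Function.Injective (L : H →L[ℂ] H) := by
    intro x y hxy
    have := congrArg (↑L⁻¹ : H →L[ℂ] H) hxy
    have e : ∀ z, (↑L⁻¹ : H →L[ℂ] H) ((L : H →L[ℂ] H) z) = z := fun z =>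
      congrArg (fun T : H →L[ℂ] H => T z) (Units.inv_mul L)
    rwa [e, e] at this
  have hker : ∀ x, N x = 0 → V x = - F₁ x := by
    intro x hx
    rw [hNL] at hx
    have h : (L : H →L[ℂ] H) ((V + F₁) x) = (L : H →L[ℂ] H) 0 := by simpa using hx
    have := hLinj h
    have h2 : V x + F₁ x = 0 := by simpa using this
    exact eq_neg_of_add_eq_zero_left h2
  have hkerfin : FiniteDimensional ℂ (LinearMap.ker (N : H →ₗ[ℂ] H)) := by
    have := hF₁
    let g : LinearMap.ker (N : H →ₗ[ℂ] H) →ₗ[ℂ] LinearMap.range (F₁ : H →ₗ[ℂ] H) :=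
      (-(F₁ : H →ₗ[ℂ] H).rangeRestrict).comp (LinearMap.ker (N : H →ₗ[ℂ] H)).subtype
    refine FiniteDimensional.of_injective g ?_
    rw [injective_iff_map_eq_zero]
    rintro ⟨x, hx⟩ hgx
    have h1 : - F₁ x = 0 := by
      have := congrArg Subtype.val hgx
      simpa [g] using this
    have h2 := hker x (by simpa using hx)
    rw [h1] at h2
    have h3 := hVnorm x
    rw [h2, norm_zero] at h3
    exact Subtype.ext (norm_eq_zero.mp h3.symm)
  -- closed range
  have hclosed : IsClosed (LinearMap.range (N : H →ₗ[ℂ] H) : Set H) := by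
    have := hF₁
    let s : Submodule ℂ H := LinearMap.ker (F₁ : H →ₗ[ℂ] H)
    have : s.CoFG := by
      show (LinearMap.ker (F₁ : H →ₗ[ℂ] H)).CoFG
      have e := (F₁ : H →ₗ[ℂ] H).quotKerEquivRange
      have : FiniteDimensional ℂ (H ⧸ LinearMap.ker (F₁ : H →ₗ[ℂ] H)) := Module.Finite.equiv e.symm
      exact (inferInstance : Module.Finite ℂ (H ⧸ LinearMap.ker (F₁ : H →ₗ[ℂ] H)))
    refine LinearMap.isClosed_range_of_isClosed_map_of_finiteDimensional_quotient (s := s) ?_
    have hmap : (s.map (N : H →ₗ[ℂ] H) : Set H) = (L : H →L[ℂ] H) '' (V '' (s : Set H)) := by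
      ext y
      constructor
      · rintro ⟨x, hx, rfl⟩
        have hx' : F₁ x = 0 := by simpa [s] using hx
        refine ⟨V x, ⟨x, hx, rfl⟩, ?_⟩
        rw [hNL]
        simp [hx']
      · rintro ⟨_, ⟨x, hx, rfl⟩, rfl⟩
        have hx' : F₁ x = 0 := by simpa [s] using hx
        refine ⟨x, hx, ?_⟩
        rw [hNL]
        simp [hx']
    rw [hmap]
    have hscl : IsClosed (s : Set H) := F₁.isClosed_ker
    have hViso : Isometry V := AddMonoidHomClass.isometry_of_norm V hVnorm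
    have h1 : IsClosed (V '' (s : Set H)) := hViso.isClosedEmbedding.isClosedMap _ hscl
    let Le : H ≃L[ℂ] H := ContinuousLinearEquiv.unitsEquiv ℂ H L
    have h2 : IsClosed (Le '' (V '' (s : Set H))) := Le.toHomeomorph.isClosedMap _ h1
    exact h2
  have hnormal : IsStarNormal N := ⟨hnorm⟩
  have horth : (LinearMap.range (N : H →ₗ[ℂ] H))ᗮ = LinearMap.ker (N : H →ₗ[ℂ] H) :=
    ContinuousLinearMap.IsStarNormal.orthogonal_range hnormal
  have hrange : LinearMap.range (N : H →ₗ[ℂ] H) = (LinearMap.ker (N : H →ₗ[ℂ] H))ᗮ := by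
    rw [← horth]
    have : CompleteSpace (LinearMap.range (N : H →ₗ[ℂ] H)) := hclosed.completeSpace_coe
    exact (Submodule.orthogonal_orthogonal _).symm
  let kN : Submodule ℂ H := LinearMap.ker (N : H →ₗ[ℂ] H)
  let P : H →L[ℂ] H := kN.starProjection
  have hPfin : FiniteDimensional ℂ (LinearMap.range (P : H →ₗ[ℂ] H)) := by
    refine Submodule.finiteDimensional_of_le (S₂ := kN) ?_
    rintro _ ⟨x, rfl⟩
    exact Submodule.starProjection_apply_mem kN x
  have hNPinj : Function.Injective (N + P) := by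
    rw [injective_iff_map_eq_zero]
    intro x hx
    have hx' : N x + P x = 0 := by simpa using hx
    have hPx : P x ∈ kN := Submodule.starProjection_apply_mem kN x
    have hNx : N x ∈ kNᗮ := by
      rw [show kNᗮ = LinearMap.range (N : H →ₗ[ℂ] H) from hrange.symm]
      exact ⟨x, rfl⟩
    have hNx2 : N x = - P x := eq_neg_of_add_eq_zero_left hx'
    have hNx3 : N x ∈ kN := by rw [hNx2]; exact kN.neg_mem hPx
    have h0 : N x = 0 := by
      have : N x ∈ kN ⊓ kNᗮ := ⟨hNx3, hNx⟩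
      rw [Submodule.inf_orthogonal_eq_bot] at this
      simpa using this
    have hPx0 : P x = 0 := by rw [h0] at hx'; simpa using hx'
    have hxk : x ∈ kN := by simpa [kN] using h0
    have : P x = x := Submodule.starProjection_eq_self_iff.mpr hxk
    rw [← this, hPx0]
  have hNPsurj : Function.Surjective (N + P) := by
    intro y
    obtain ⟨y₁, hy₁, y₂, hy₂, rfl⟩ := kN.exists_add_mem_mem_orthogonal y
    rw [show kNᗮ = LinearMap.range (N : H →ₗ[ℂ] H) from hrange.symm] at hy₂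
    obtain ⟨z, rfl⟩ := hy₂
    obtain ⟨z₁, hz₁, z₂, hz₂, rfl⟩ := kN.exists_add_mem_mem_orthogonal z
    have e1 : N z₁ = 0 := by simpa [kN] using hz₁
    have e2 : N y₁ = 0 := by simpa [kN] using hy₁
    have e3 : P y₁ = y₁ := Submodule.starProjection_eq_self_iff.mpr hy₁
    have e4 : P z₂ = 0 := (Submodule.starProjection_apply_eq_zero_iff kN).mpr hz₂
    refine ⟨y₁ + z₂, ?_⟩
    simp [e1, e2, e3, e4]
    abel
  -- invertibility of N + P
  let NP : H ≃L[ℂ] H := ContinuousLinearEquiv.ofBijective (N + P)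
    (LinearMap.ker_eq_bot.mpr hNPinj) (LinearMap.range_eq_top.mpr hNPsurj)
  let NPu : (H →L[ℂ] H)ˣ := (ContinuousLinearEquiv.unitsEquiv ℂ H).symm NP
  have hNPu : (NPu : H →L[ℂ] H) = N + P := by
    ext x; rfl
  let W : (H →L[ℂ] H)ˣ := L⁻¹ * NPu
  let F₂ : H →L[ℂ] H := F₁ + (↑L⁻¹ : H →L[ℂ] H) * P
  have hF₂ : FiniteDimensional ℂ (LinearMap.range (F₂ : H →ₗ[ℂ] H)) :=
    finrank_add _ _ hF₁ (finrank_mul _ _ hPfin)
  have hW : (W : H →L[ℂ] H) = V + F₂ := by
    simp only [W, Units.val_mul, hNPu, mul_add, F₂]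
    rw [hNL, ← mul_assoc, Units.inv_mul, one_mul]
    abel
  let K : H →L[ℂ] H := (↑W⁻¹ : H →L[ℂ] H) * F₂
  have hK : FiniteDimensional ℂ (LinearMap.range (K : H →ₗ[ℂ] H)) := finrank_mul _ _ hF₂
  have hWV : (↑W⁻¹ : H →L[ℂ] H) * V = 1 - K := by
    have : V = (W : H →L[ℂ] H) - F₂ := by rw [hW]; abel
    conv_lhs => rw [this]
    rw [mul_sub, Units.inv_mul]
  have hWVapp : ∀ x, x - K x = (↑W⁻¹ : H →L[ℂ] H) (V x) := by
    intro x
    have := congrArg (fun T : H →L[ℂ] H => T x) hWV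
    simpa using this.symm
  have hWinv : ∀ z, (W : H →L[ℂ] H) ((↑W⁻¹ : H →L[ℂ] H) z) = z := fun z =>
    congrArg (fun T : H →L[ℂ] H => T z) (Units.mul_inv W)
  have hVinj : Function.Injective V := fun x y hxy => by
    rw [← hVapp x, ← hVapp y, hxy]
  have hinj : Function.Injective (fun x => x - K x) := by
    intro x y hxy
    simp only [hWVapp] at hxy
    have := congrArg (W : H →L[ℂ] H) hxy
    rw [hWinv, hWinv] at this
    exact hVinj this
  have hsurj := surj_of_inj_one_sub K hK hinj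
  have hVsurj : Function.Surjective V := by
    intro y
    obtain ⟨x, hx⟩ := hsurj ((↑W⁻¹ : H →L[ℂ] H) y)
    refine ⟨x, ?_⟩
    simp only [hWVapp] at hx
    have := congrArg (W : H →L[ℂ] H) hx
    rwa [hWinv, hWinv] at this
  apply hV'
  ext y
  obtain ⟨x, rfl⟩ := hVsurj y
  show V ((star V) (V x)) = V x
  rw [hVapp]

end Pool.Agent.Helper72CS
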