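import Mathlib

set_option autoImplicit false

noncomputable section

namespace Pool.Agent.Helper72CS

/-- The operator defined by a matrix of operators. -/
def repFun {Q H : Type} [Fintype Q] [NormedAddCommGroup H]
    [InnerProductSpace ℂ H] (M : Matrix Q Q (H →L[ℂ] H)) :
    PiLp 2 (fun _ : Q => H) →L[ℂ] PiLp 2 (fun _ : Q => H) :=
  (PiLp.continuousLinearEquiv 2 ℂ (fun _ : Q => H)).symm.toContinuousLinearMap.comp
    (ContinuousLinearMap.pi fun p => ∑ q, (M p q).comp (PiLp.proj 2 (fun _ : Q => H) q))

theorem repFun_apply {Q H : Type} [Fintype Q] [NormedAddCommGroup H]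
    [InnerProductSpace ℂ H] (M : Matrix Q Q (H →L[ℂ] H)) (f : PiLp 2 (fun _ : Q => H)) (p : Q) :
    repFun M f p = ∑ q, M p q (f q) := by
  change (∑ q, (M p q).comp (PiLp.proj 2 (fun _ : Q => H) q)) f = _
  rw [ContinuousLinearMap.sum_apply]
  rfl

/-- TARGET -/
theorem exists_rep (Q H : Type) [Fintype Q] [DecidableEq Q] [NormedAddCommGroup H]
    [InnerProductSpace ℂ H] [CompleteSpace H] :
    ∃ Φ : Matrix Q Q (H →L[ℂ] H) →⋆ₐ[ℂ]
      (PiLp 2 (fun _ : Q => H) →L[ℂ] PiLp 2 (fun _ : Q => H)),
      ∀ M f p, Φ M f p = ∑ q, M p q (f q) := by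
  refine ⟨{ toFun := repFun, map_one' := ?_, map_mul' := ?_, map_zero' := ?_, map_add' := ?_,
            commutes' := ?_, map_star' := ?_ }, fun M f p => repFun_apply M f p⟩
  · ext f p
    rw [repFun_apply, Finset.sum_eq_single p]
    · rw [Matrix.one_apply_eq]; rfl
    · intro q _ hq
      rw [Matrix.one_apply_ne hq.symm]; rfl
    · intro h; exact absurd (Finset.mem_univ _) h
  · intro M N
    ext f p
    rw [repFun_apply, ContinuousLinearMap.mul_apply, repFun_apply]
    simp only [repFun_apply, Matrix.mul_apply, ContinuousLinearMap.sum_apply,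
      ContinuousLinearMap.mul_apply, map_sum]
    rw [Finset.sum_comm]
  · ext f p
    rw [repFun_apply]
    simp
  · intro M N
    ext f p
    rw [repFun_apply, ContinuousLinearMap.add_apply, PiLp.add_apply, repFun_apply, repFun_apply,
      ← Finset.sum_add_distrib]
    rfl
  · intro r
    ext f p
    change repFun _ f p = _
    rw [repFun_apply, Finset.sum_eq_single p]
    · rw [Matrix.algebraMap_eq_diagonal, Matrix.diagonal_apply_eq]
      simp [Algebra.algebraMap_eq_smul_one]
    · intro q _ hq
      rw [Matrix.algebraMap_eq_diagonal, Matrix.diagonal_apply_ne _ hq.symm]; rfl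
    · intro h; exact absurd (Finset.mem_univ _) h
  · intro M
    change repFun (star M) = star (repFun M)
    rw [ContinuousLinearMap.star_eq_adjoint, ContinuousLinearMap.eq_adjoint_iff]
    intro x y
    rw [PiLp.inner_apply, PiLp.inner_apply]
    simp only [repFun_apply, Matrix.star_apply, sum_inner, inner_sum,
      ContinuousLinearMap.star_eq_adjoint, ContinuousLinearMap.adjoint_inner_left]
    rw [Finset.sum_comm]

end Pool.Agent.Helper72CS
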