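import Pool.Agent.Helper72_CS.LSDefs
import Pool.Agent.Helper72_CS.IndexLemma
import Pool.Agent.Helper72_CS.OpRep

set_option autoImplicit false

open Set Filter Topology

noncomputable section

namespace Pool.Agent.Helper72CS

/-- the star homomorphism on the C*-matrices -/
theorem exists_repMM (Q H : Type) [Fintype Q] [DecidableEq Q] [NormedAddCommGroup H]
    [InnerProductSpace ℂ H] [CompleteSpace H] :
    ∃ Φ : MM Q (H →L[ℂ] H) →⋆ₐ[ℂ]
      (PiLp 2 (fun _ : Q => H) →L[ℂ] PiLp 2 (fun _ : Q => H)),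
      ∀ M f p, Φ M f p = ∑ q, M p q (f q) := by
  obtain ⟨Φ, hΦ⟩ := exists_rep Q H
  refine ⟨{ toFun := fun M => Φ (show Matrix Q Q (H →L[ℂ] H) from M)
            map_one' := Φ.map_one'
            map_mul' := Φ.map_mul'
            map_zero' := Φ.map_zero'
            map_add' := Φ.map_add'
            commutes' := Φ.commutes'
            map_star' := Φ.map_star' }, fun M f p => hΦ _ f p⟩

/-- TARGET -/
theorem no_normal {Q H : Type} [Fintype Q] [DecidableEq Q] [NormedAddCommGroup H]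
    [InnerProductSpace ℂ H] [CompleteSpace H] (S : Q → Prop) (p₀ : Q) (hp₀ : S p₀)
    (Sh T : H →L[ℂ] H) (h1 : star Sh * Sh = 1) (h2 : Sh * star Sh ≠ 1)
    (h3 : FiniteDimensional ℂ (LinearMap.range ((T - Sh : H →L[ℂ] H) : H →ₗ[ℂ] H)))
    (r : ℝ) (hr : 0 < r) (hr1 : r ≤ 1) (N : MM Q (H →L[ℂ] H)) (hN : star N * N = N * star N)
    (d : Q → H →L[ℂ] H) (hd1 : ∀ p, S p → ‖d p - (r : ℂ) • T‖ ≤ r / 8)
    (hd2 : ∀ p, ¬ S p → ‖d p - 1‖ ≤ 1 / 8) (hNd : ‖N - diagM d‖ ≤ r / 8) : False := by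
  classical
  obtain ⟨Φ, hΦ⟩ := exists_repMM Q H
  have hcontr : ∀ M : MM Q (H →L[ℂ] H), ‖Φ M‖ ≤ ‖M‖ := fun M =>
    NonUnitalStarAlgHom.norm_apply_le Φ M
  let Ψ : (Q → (H →L[ℂ] H)) →⋆ₐ[ℂ] (PiLp 2 (fun _ : Q => H) →L[ℂ] PiLp 2 (fun _ : Q => H)) :=
    Φ.comp diagHom
  have hΨ : ∀ m : Q → (H →L[ℂ] H), Φ (diagM m) = Ψ m := fun m => rfl
  have hΨapp : ∀ (m : Q → (H →L[ℂ] H)) (f : PiLp 2 (fun _ : Q => H)) (p : Q),
      Ψ m f p = m p (f p) := by
    intro m f p
    rw [← hΨ, hΦ, Finset.sum_eq_single p]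
    · rw [diagM_apply, if_pos rfl]
    · intro q _ hq
      rw [diagM_apply, if_neg hq.symm]; rfl
    · intro h; exact absurd (Finset.mem_univ _) h
  have hr0 : (r : ℂ) ≠ 0 := by exact_mod_cast hr.ne'
  let l0 : Q → (H →L[ℂ] H) := fun p => if S p then (r : ℂ) • 1 else 1
  let l1 : Q → (H →L[ℂ] H) := fun p => if S p then (r : ℂ)⁻¹ • 1 else 1
  let v0 : Q → (H →L[ℂ] H) := fun p => if S p then Sh else 1
  let f0 : Q → (H →L[ℂ] H) := fun p => if S p then T - Sh else 0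
  have hl01 : l0 * l1 = 1 := by
    funext p
    by_cases hp : S p
    · simp only [l0, l1, Pi.mul_apply, Pi.one_apply, if_pos hp]
      rw [smul_mul_smul_comm, mul_inv_cancel₀ hr0, one_smul, one_mul]
    · simp only [l0, l1, Pi.mul_apply, Pi.one_apply, if_neg hp, one_mul]
  have hl10 : l1 * l0 = 1 := by
    funext p
    by_cases hp : S p
    · simp only [l0, l1, Pi.mul_apply, Pi.one_apply, if_pos hp]
      rw [smul_mul_smul_comm, inv_mul_cancel₀ hr0, one_smul, one_mul]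
    · simp only [l0, l1, Pi.mul_apply, Pi.one_apply, if_neg hp, one_mul]
  refine index_lemma (Ψ v0) (Ψ l0) (Ψ l1) (Ψ f0) (Ψ l1 * Φ N - Ψ v0 - Ψ f0) (Φ N) ?_ ?_ ?_ ?_ ?_
    ?_ ?_ ?_
  · rw [← map_star, ← map_mul]
    have : star v0 * v0 = 1 := by
      funext p
      by_cases hp : S p
      · simp only [v0, Pi.mul_apply, Pi.star_apply, Pi.one_apply, if_pos hp, h1]
      · simp only [v0, Pi.mul_apply, Pi.star_apply, Pi.one_apply, if_neg hp, star_one, one_mul]
    rw [this, map_one]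
  · intro hcon
    apply h2
    rw [← map_star, ← map_mul] at hcon
    ext x
    have e := congrArg (fun A : PiLp 2 (fun _ : Q => H) →L[ℂ] PiLp 2 (fun _ : Q => H) =>
      A (WithLp.toLp 2 (fun _ : Q => x)) p₀) hcon
    simp only [] at e
    rw [hΨapp] at e
    have e2 : (v0 * star v0) p₀ = Sh * star Sh := by
      simp only [v0, Pi.mul_apply, Pi.star_apply, if_pos hp₀]
    rw [e2] at e
    exact e
  · rw [← map_mul, hl01, map_one]
  · rw [← map_mul, hl10, map_one]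
  · let E : Submodule ℂ H := LinearMap.range ((T - Sh : H →L[ℂ] H) : H →ₗ[ℂ] H)
    have hE : FiniteDimensional ℂ E := h3
    let g : (Q → E) →ₗ[ℂ] PiLp 2 (fun _ : Q => H) :=
      ((WithLp.linearEquiv 2 ℂ (Q → H)).symm : (Q → H) →ₗ[ℂ] PiLp 2 (fun _ : Q => H)).comp
        (LinearMap.pi fun q => E.subtype.comp (LinearMap.proj q))
    have hg : FiniteDimensional ℂ (LinearMap.range g) := inferInstance
    refine Submodule.finiteDimensional_of_le (S₂ := LinearMap.range g) ?_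
    rintro _ ⟨x, rfl⟩
    have hmem : ∀ q : Q, (Ψ f0 x : PiLp 2 (fun _ : Q => H)) q ∈ E := by
      intro q
      rw [hΨapp]
      by_cases hp : S q
      · simp only [f0, if_pos hp]
        exact ⟨x q, rfl⟩
      · simp only [f0, if_neg hp]
        exact E.zero_mem
    refine ⟨fun q => ⟨_, hmem q⟩, ?_⟩
    ext q
    rfl
  · have hn1 : ‖(1 : H →L[ℂ] H)‖ ≤ 1 := ContinuousLinearMap.norm_id_le
    have e : Ψ l1 * Φ N - Ψ v0 - Ψ f0 =
        Φ (diagM l1 * (N - diagM d)) + Φ (diagM (l1 * d - v0 - f0)) := by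
      rw [map_mul, map_sub, hΨ, hΨ, hΨ, map_sub, map_sub, map_mul]
      rw [mul_sub]
      abel
    have hri : (0 : ℝ) < r⁻¹ := inv_pos.2 hr
    have hl1n : ‖diagM l1‖ ≤ r⁻¹ := by
      refine norm_diagM_le l1 hri.le fun q => ?_
      by_cases hp : S q
      · simp only [l1, if_pos hp]
        rw [norm_smul, norm_inv, Complex.norm_real, Real.norm_of_nonneg hr.le]
        exact mul_le_of_le_one_right hri.le hn1
      · simp only [l1, if_neg hp]
        exact hn1.trans (one_le_inv₀ hr |>.2 hr1)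
    have ha : ‖Φ (diagM l1 * (N - diagM d))‖ ≤ 1 / 8 := by
      refine (hcontr _).trans ((norm_mul_le _ _).trans ?_)
      calc ‖diagM l1‖ * ‖N - diagM d‖ ≤ r⁻¹ * (r / 8) :=
            mul_le_mul hl1n hNd (norm_nonneg _) hri.le
        _ = 1 / 8 := by field_simp
    have hb : ‖Φ (diagM (l1 * d - v0 - f0))‖ ≤ 1 / 8 := by
      refine (hcontr _).trans (norm_diagM_le _ (by norm_num) fun q => ?_)
      by_cases hp : S q
      · have e2 : (l1 * d - v0 - f0) q = (r : ℂ)⁻¹ • (d q - (r : ℂ) • T) := by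
          simp only [l1, v0, f0, Pi.sub_apply, Pi.mul_apply, if_pos hp]
          rw [smul_sub, smul_smul, inv_mul_cancel₀ hr0, one_smul, smul_mul_assoc, one_mul]
          abel
        rw [e2, norm_smul, norm_inv, Complex.norm_real, Real.norm_of_nonneg hr.le]
        calc r⁻¹ * ‖d q - (r : ℂ) • T‖ ≤ r⁻¹ * (r / 8) :=
              mul_le_mul_of_nonneg_left (hd1 q hp) hri.le
          _ = 1 / 8 := by field_simp
      · have e2 : (l1 * d - v0 - f0) q = d q - 1 := by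
          simp only [l1, v0, f0, Pi.sub_apply, Pi.mul_apply, if_neg hp, one_mul, sub_zero]
        rw [e2]
        exact hd2 q hp
    rw [e]
    calc _ ≤ ‖Φ (diagM l1 * (N - diagM d))‖ + ‖Φ (diagM (l1 * d - v0 - f0))‖ := norm_add_le _ _
      _ ≤ 1 / 8 + 1 / 8 := add_le_add ha hb
      _ < 1 := by norm_num
  · have e : Ψ v0 + Ψ f0 + (Ψ l1 * Φ N - Ψ v0 - Ψ f0) = Ψ l1 * Φ N := by abel
    rw [e, ← mul_assoc, ← map_mul, hl01, map_one, one_mul]
  · rw [← map_star, ← map_mul, ← map_mul, hN]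

end Pool.Agent.Helper72CS
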