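import Mathlib

/-!
JOB exists_shift: almost normal weighted shifts.

On `H = ℓ²(ℕ)`: `S e_n = e_(n+1)`, `T j e_n = w_j(n) e_(n+1)` with `w_j(n) = min 1 ((n+1)/(j+1))`. `T j - S` has finite rank
(`w_j(n) = 1` for `n ≥ j`), `star (T j) * T j - T j * star (T j)` is the diagonal operator with entries
`w_j(n)^2 - w_j(n-1)^2` (`w_j(-1) = 0`), of absolute value `≤ 2/(j+1)`.
-/

set_option autoImplicit false

open Filter Topology

noncomputable section

namespace Pool.Agent.Helper72CS

section Aux

variable {E : Type} [NormedAddCommGroup E] [InnerProductSpace ℂ E] [CompleteSpace E]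

theorem shf_ext (b : HilbertBasis ℕ ℂ E) {A B : E →L[ℂ] E} (h : ∀ n, A (b n) = B (b n)) :
    A = B := by
  have hd : Dense (Submodule.span ℂ (Set.range b) : Set E) := by
    rw [Submodule.dense_iff_topologicalClosure_eq_top]
    exact b.dense_span
  apply ContinuousLinearMap.ext_on hd
  rintro _ ⟨n, rfl⟩
  exact h n

theorem shf_vec (b : HilbertBasis ℕ ℂ E) {x y : E}
    (h : ∀ n, inner ℂ (b n) x = inner ℂ (b n) y) : x = y := by
  apply b.repr.injective
  apply lp.ext
  funext n
  rw [b.repr_apply_apply, b.repr_apply_apply]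
  exact h n

theorem shf_bb (b : HilbertBasis ℕ ℂ E) (m n : ℕ) :
    inner ℂ (b m) (b n) = if m = n then (1 : ℂ) else 0 :=
  orthonormal_iff_ite.mp b.orthonormal m n

theorem shf_star (b : HilbertBasis ℕ ℂ E) {A : E →L[ℂ] E} {a : ℕ → ℂ}
    (h : ∀ n, A (b n) = a n • b n) (n : ℕ) : (star A) (b n) = (starRingEnd ℂ) (a n) • b n := by
  apply shf_vec b
  intro m
  rw [ContinuousLinearMap.star_eq_adjoint, ContinuousLinearMap.adjoint_inner_right, h,
    inner_smul_left, inner_smul_right, shf_bb]
  by_cases hmn : m = n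
  · subst hmn
    rfl
  · rw [if_neg hmn, mul_zero, mul_zero]

theorem shf_norm (b : HilbertBasis ℕ ℂ E) {A : E →L[ℂ] E} {a : ℕ → ℂ}
    (h : ∀ n, A (b n) = a n • b n) {c : ℝ} (hc : 0 ≤ c) (ha : ∀ n, ‖a n‖ ≤ c) : ‖A‖ ≤ c := by
  apply ContinuousLinearMap.opNorm_le_bound A hc
  intro x
  have h1 : ∀ n, b.repr (A x) n = a n * b.repr x n := by
    intro n
    rw [b.repr_apply_apply, b.repr_apply_apply, ← ContinuousLinearMap.adjoint_inner_left,
      ← ContinuousLinearMap.star_eq_adjoint, shf_star b h, inner_smul_left]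
    simp
  have h2 : ‖b.repr (A x)‖ ≤ ‖(c : ℂ) • b.repr x‖ := by
    apply lp.norm_mono (by norm_num)
    intro n
    rw [h1, lp.coeFn_smul, Pi.smul_apply, norm_mul, norm_smul, Complex.norm_real,
      Real.norm_of_nonneg hc]
    exact mul_le_mul_of_nonneg_right (ha n) (norm_nonneg _)
  rw [norm_smul, Complex.norm_real, Real.norm_of_nonneg hc, LinearIsometryEquiv.norm_map,
    LinearIsometryEquiv.norm_map] at h2
  exact h2

/-- The weights. -/
def shf_w (j n : ℕ) : ℝ := min 1 (((n : ℝ) + 1) / ((j : ℝ) + 1))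

theorem shf_w_nn (j n : ℕ) : 0 ≤ shf_w j n := le_min zero_le_one (by positivity)

theorem shf_w_le (j n : ℕ) : shf_w j n ≤ 1 := min_le_left _ _

theorem shf_w_one {j n : ℕ} (h : j ≤ n) : shf_w j n = 1 := by
  apply min_eq_left
  rw [le_div_iff₀ (by positivity), one_mul]
  have : (j : ℝ) ≤ n := by exact_mod_cast h
  linarith

theorem shf_w_zero (j : ℕ) : shf_w j 0 ≤ 1 / ((j : ℝ) + 1) := by
  refine (min_le_right _ _).trans ?_
  simp

theorem shf_w_step (j n : ℕ) : shf_w j n ≤ shf_w j (n + 1) ∧
    shf_w j (n + 1) ≤ shf_w j n + 1 / ((j : ℝ) + 1) := by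
  have h0 : (0:ℝ) < (j : ℝ) + 1 := by positivity
  unfold shf_w
  have e : (((n + 1 : ℕ) : ℝ) + 1) / ((j : ℝ) + 1) =
      ((n : ℝ) + 1) / ((j : ℝ) + 1) + 1 / ((j : ℝ) + 1) := by
    push_cast
    field_simp
  have h1 : 0 ≤ 1 / ((j : ℝ) + 1) := by positivity
  rw [e]
  constructor
  · apply min_le_min le_rfl
    linarith
  · rw [← min_add_add_right]
    apply min_le_min _ le_rfl
    linarith

theorem shf_main (b : HilbertBasis ℕ ℂ E) : ∃ (S : E →L[ℂ] E) (T : ℕ → E →L[ℂ] E),
    star S * S = 1 ∧ S * star S ≠ 1 ∧ (∀ j, ‖T j‖ ≤ 1) ∧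
    (∀ j, FiniteDimensional ℂ (LinearMap.range ((T j - S : E →L[ℂ] E) : E →ₗ[ℂ] E))) ∧
    Tendsto (fun j => ‖star (T j) * T j - T j * star (T j)‖) atTop (𝓝 0) := by
  classical
  have hv : Orthonormal ℂ (fun n : ℕ => b (n + 1)) :=
    b.orthonormal.comp (fun n => n + 1) (fun a c h => by simpa using h)
  obtain ⟨L, hL⟩ : ∃ L : E →ₗᵢ[ℂ] E, ∀ n, L (b n) = b (n + 1) := by
    refine ⟨hv.orthogonalFamily.linearIsometry.comp b.repr.toLinearIsometry, fun n => ?_⟩
    have h1 := hv.orthogonalFamily.linearIsometry_apply_single (i := n) (1 : ℂ)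
    simp only [LinearIsometry.coe_comp, Function.comp_apply,
      LinearIsometryEquiv.coe_toLinearIsometry, b.repr_self]
    rw [h1]
    simp
  set S : E →L[ℂ] E := L.toContinuousLinearMap with hS
  have hSb : ∀ n, S (b n) = b (n + 1) := hL
  have hS1 : star S * S = 1 := by
    have := (ContinuousLinearMap.norm_map_iff_adjoint_comp_self S).mp (fun x => L.norm_map x)
    exact this
  have hSs : ∀ n, (star S) (b (n + 1)) = b n := by
    intro n
    have := congrArg (fun A : E →L[ℂ] E => A (b n)) hS1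
    simp only [ContinuousLinearMap.mul_apply, hSb, ContinuousLinearMap.one_apply] at this
    exact this
  have hS0 : (star S) (b 0) = 0 := by
    apply shf_vec b
    intro m
    rw [ContinuousLinearMap.star_eq_adjoint, ContinuousLinearMap.adjoint_inner_right, hSb, shf_bb,
      if_neg (by omega), inner_zero_right]
  set F : ℕ → E →L[ℂ] E := fun j => ∑ n ∈ Finset.range j,
    ((1 - shf_w j n : ℝ) : ℂ) • (InnerProductSpace.rankOne ℂ (b n) (b n)) with hF
  have hFx : ∀ j x, F j x = ∑ n ∈ Finset.range j,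
      (((1 - shf_w j n : ℝ) : ℂ) * inner ℂ (b n) x) • b n := by
    intro j x
    simp only [hF, ContinuousLinearMap.sum_apply, ContinuousLinearMap.smul_apply,
      InnerProductSpace.rankOne_apply, smul_smul]
  have hFb : ∀ j m, F j (b m) = ((1 - shf_w j m : ℝ) : ℂ) • b m := by
    intro j m
    rw [hFx]
    by_cases hm : m < j
    · rw [Finset.sum_eq_single m]
      · rw [shf_bb, if_pos rfl, mul_one]
      · intro n _ hn
        rw [shf_bb, if_neg hn, mul_zero, zero_smul]
      · intro h
        exact absurd (Finset.mem_range.mpr hm) h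
    · rw [Finset.sum_eq_zero]
      · rw [shf_w_one (not_lt.mp hm)]
        simp
      · intro n hn
        have : n ≠ m := by
          have := Finset.mem_range.mp hn
          omega
        rw [shf_bb, if_neg this, mul_zero, zero_smul]
  set D : ℕ → E →L[ℂ] E := fun j => 1 - F j with hD
  have hDb : ∀ j m, D j (b m) = ((shf_w j m : ℝ) : ℂ) • b m := by
    intro j m
    simp only [hD, ContinuousLinearMap.sub_apply, ContinuousLinearMap.one_apply, hFb]
    rw [Complex.ofReal_sub, Complex.ofReal_one, sub_smul, one_smul, sub_sub_cancel]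
  have hDs : ∀ j m, (star (D j)) (b m) = ((shf_w j m : ℝ) : ℂ) • b m := by
    intro j m
    rw [shf_star b (hDb j)]
    simp
  have hSn : ‖S‖ ≤ 1 := L.norm_toContinuousLinearMap_le
  have hDn : ∀ j, ‖D j‖ ≤ 1 := fun j => shf_norm b (hDb j) zero_le_one (fun n => by
    rw [Complex.norm_real, Real.norm_of_nonneg (shf_w_nn j n)]
    exact shf_w_le j n)
  refine ⟨S, fun j => S * D j, hS1, ?_, ?_, ?_, ?_⟩
  · intro h
    have := congrArg (fun A : E →L[ℂ] E => A (b 0)) h
    simp only [ContinuousLinearMap.mul_apply, hS0, map_zero, ContinuousLinearMap.one_apply] at this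
    have h1 := b.orthonormal.1 0
    rw [← this, norm_zero] at h1
    exact zero_ne_one h1
  · intro j
    calc ‖S * D j‖ ≤ ‖S‖ * ‖D j‖ := norm_mul_le _ _
      _ ≤ 1 * 1 := mul_le_mul hSn (hDn j) (norm_nonneg _) zero_le_one
      _ = 1 := one_mul 1
  · intro j
    have hfin : FiniteDimensional ℂ (Submodule.span ℂ
        (((Finset.range j).image (fun n => b (n + 1)) : Finset E) : Set E)) :=
      FiniteDimensional.span_finset ℂ _
    apply Submodule.finiteDimensional_of_le (S₂ := Submodule.span ℂ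
        (((Finset.range j).image (fun n => b (n + 1)) : Finset E) : Set E))
    rintro _ ⟨x, rfl⟩
    have h1 : ((S * D j - S : E →L[ℂ] E) : E →ₗ[ℂ] E) x = - S (F j x) := by
      simp [hD]
    rw [h1, hFx, map_sum]
    apply Submodule.neg_mem
    apply Submodule.sum_mem
    intro n hn
    rw [map_smul, hSb]
    apply Submodule.smul_mem
    apply Submodule.subset_span
    exact Finset.mem_coe.mpr (Finset.mem_image_of_mem _ hn)
  · have hb : ∀ j : ℕ, ‖star (S * D j) * (S * D j) - S * D j * star (S * D j)‖ ≤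
        2 * (1 / ((j : ℝ) + 1)) := by
      intro j
      have h0 : (0:ℝ) ≤ 1 / ((j : ℝ) + 1) := by positivity
      have h01 : 1 / ((j : ℝ) + 1) ≤ 1 := by
        rw [div_le_one (by positivity)]
        have : (0:ℝ) ≤ j := by positivity
        linarith
      have e1 : star (S * D j) * (S * D j) - S * D j * star (S * D j) =
          star (D j) * D j - S * (D j * (star (D j) * star S)) := by
        rw [star_mul]
        have : star (D j) * star S * (S * D j) = star (D j) * (star S * S) * D j := by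
          simp only [mul_assoc]
        rw [this, hS1, mul_one]
        simp only [mul_assoc]
      rw [e1]
      set a : ℕ → ℂ := fun n => Nat.casesOn n (((shf_w j 0 ^ 2 : ℝ)) : ℂ)
        (fun k => (((shf_w j (k + 1) ^ 2 - shf_w j k ^ 2 : ℝ)) : ℂ)) with ha
      have ha0 : a 0 = (((shf_w j 0 ^ 2 : ℝ)) : ℂ) := rfl
      have has : ∀ k, a (k + 1) = (((shf_w j (k + 1) ^ 2 - shf_w j k ^ 2 : ℝ)) : ℂ) := fun _ => rfl
      apply shf_norm b (a := a) _ (by positivity)
      · intro n
        cases n with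
        | zero =>
          rw [ha0, Complex.norm_real, Real.norm_of_nonneg (by positivity)]
          have h1 := shf_w_zero j
          have h2 := shf_w_nn j 0
          have h3 := shf_w_le j 0
          nlinarith
        | succ k =>
          rw [has, Complex.norm_real]
          obtain ⟨h1, h2⟩ := shf_w_step j k
          have h3 := shf_w_nn j k
          have h4 := shf_w_le j (k + 1)
          rw [Real.norm_of_nonneg (by nlinarith)]
          nlinarith
      · intro n
        cases n with
        | zero =>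
          rw [ha0]
          simp only [ContinuousLinearMap.sub_apply, ContinuousLinearMap.mul_apply, hS0, map_zero,
            hDb, map_smul, hDs, sub_zero, smul_smul]
          congr 1
          push_cast
          ring
        | succ k =>
          rw [has]
          simp only [ContinuousLinearMap.sub_apply, ContinuousLinearMap.mul_apply, hSs,
            hDb, map_smul, hDs, hSb, smul_smul, ← sub_smul]
          congr 1
          push_cast
          ring
    apply squeeze_zero (fun j => norm_nonneg _) hb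
    have := tendsto_one_div_add_atTop_nhds_zero_nat (𝕜 := ℝ)
    simpa using this.const_mul 2

end Aux

/-- TARGET -/
theorem exists_shift : ∃ (S : lp (fun _ : ℕ => ℂ) 2 →L[ℂ] lp (fun _ : ℕ => ℂ) 2)
    (T : ℕ → lp (fun _ : ℕ => ℂ) 2 →L[ℂ] lp (fun _ : ℕ => ℂ) 2),
    star S * S = 1 ∧ S * star S ≠ 1 ∧ (∀ j, ‖T j‖ ≤ 1) ∧
    (∀ j, FiniteDimensional ℂ (LinearMap.range
      ((T j - S : lp (fun _ : ℕ => ℂ) 2 →L[ℂ] lp (fun _ : ℕ => ℂ) 2) :
        lp (fun _ : ℕ => ℂ) 2 →ₗ[ℂ] lp (fun _ : ℕ => ℂ) 2))) ∧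
    Tendsto (fun j => ‖star (T j) * T j - T j * star (T j)‖) atTop (𝓝 0) :=
  shf_main (⟨LinearIsometryEquiv.refl ℂ _⟩ : HilbertBasis ℕ ℂ (lp (fun _ : ℕ => ℂ) 2))

end Pool.Agent.Helper72CS
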