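import Pool.Agent.Helper72_CS.LSDefs
import Pool.Agent.Helper72_CS.SolvComm
import Pool.Agent.Helper72_CS.Shift
import Pool.Agent.Helper72_CS.Generic
import Pool.Agent.Helper72_CS.AlEst
import Pool.Agent.Helper72_CS.FFNorm
import Pool.Agent.Helper72_CS.Block
import Pool.Agent.Helper72_CS.NoNormal

/-!
# Solvable subgroups of finite index of `C*`-stable groups have first Betti number at most one
-/

set_option autoImplicit false

open Set Filter Topology

noncomputable section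

namespace Pool.Agent.Helper72CS

theorem FF_map {D E : Type} [CStarAlgebra D] [CStarAlgebra E] (f : D →⋆ₐ[ℂ] E)
    (ca cb μa μb : ℂ) (P : Polynomial ℂ) (A B C : D) :
    f (FF ca cb μa μb P A B C) = FF ca cb μa μb P (f A) (f B) (f C) := by
  unfold FF
  have h : f (Polynomial.aeval C P) = Polynomial.aeval (f C) P := by
    exact (Polynomial.aeval_algHom_apply (f : D →ₐ[ℂ] E) C P).symm
  simp only [map_add, map_mul, map_sub, map_smul, map_one, h]

/-- evaluation of a function on a finite set -/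
def evQ {Q D : Type} [Fintype Q] [CStarAlgebra D] (q : Q) : (Q → D) →⋆ₐ[ℂ] D where
  toFun f := f q
  map_one' := rfl
  map_mul' _ _ := rfl
  map_zero' := rfl
  map_add' _ _ := rfl
  commutes' _ := rfl
  map_star' _ := rfl

theorem FF_diagM {Q D : Type} [Fintype Q] [DecidableEq Q] [CStarAlgebra D]
    (ca cb μa μb : ℂ) (P : Polynomial ℂ) (A B C : Q → D) :
    FF ca cb μa μb P (diagM A) (diagM B) (diagM C) =
      diagM (fun q => FF ca cb μa μb P (A q) (B q) (C q)) := by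
  have h1 : diagM (FF ca cb μa μb P A B C) =
      FF ca cb μa μb P (diagM A) (diagM B) (diagM C) :=
    FF_map (diagHom : (Q → D) →⋆ₐ[ℂ] MM Q D) ca cb μa μb P A B C
  rw [← h1]
  congr 1
  funext q
  exact FF_map (evQ q) ca cb μa μb P A B C

theorem smul_eq_of_mem {G : Type} [Group G] (L N : Subgroup G) [N.Normal] (hNL : N ≤ L) (l : G)
    (hl : l ∈ N) (p : G ⧸ L) : l • p = p := by
  obtain ⟨g, rfl⟩ := QuotientGroup.mk_surjective p
  show ((l * g : G) : G ⧸ L) = g
  rw [QuotientGroup.eq]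
  apply hNL
  have := (inferInstance : N.Normal).conj_mem l⁻¹ (N.inv_mem hl) g⁻¹
  rw [inv_inv] at this
  rw [mul_inv_rev]
  exact this

/-- the conjugate of an element of a normal subgroup by a representative -/
def cj {G : Type} [Group G] (L : Subgroup G) [L.Normal] (l : L) (p : G ⧸ L) : L :=
  ⟨(rp L p)⁻¹ * l * rp L p, by
    have := (inferInstance : L.Normal).conj_mem l l.2 (rp L p)⁻¹
    rwa [inv_inv] at this⟩

theorem Ind_normal {G D : Type} [Group G] [CStarAlgebra D] (L : Subgroup G) [L.Normal]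
    [L.FiniteIndex] (φ : L → D) (l : L) :
    Ind L φ l = diagM (fun p : G ⧸ L => φ (cj L l p)) := by
  refine MM.ext fun p q => ?_
  rw [Ind_apply, diagM_apply, smul_eq_of_mem L L le_rfl l l.2]
  split_ifs with h
  · congr 1
    apply Subtype.ext
    rw [coe_lc, smul_eq_of_mem L L le_rfl l l.2]
    show _ = (rp L q)⁻¹ * l * rp L q
    rw [mul_assoc]
  · rfl

theorem diagM_sub_one {Q D : Type} [Fintype Q] [DecidableEq Q] [CStarAlgebra D] (d : Q → D) :
    diagM d - 1 = diagM (fun q => d q - 1) := by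
  rw [← map_one (diagHom : (Q → D) →⋆ₐ[ℂ] MM Q D)]
  show diagHom d - diagHom 1 = diagHom (d - 1)
  rw [map_sub]

/-- real part -/
def rePart {D : Type} [CStarAlgebra D] (T : D) : selfAdjoint D :=
  ⟨(1 / 2 : ℂ) • (T + star T), by
    rw [selfAdjoint.mem_iff, star_smul, star_add, star_star, add_comm]
    congr 1
    simp⟩

/-- imaginary part -/
def imPart {D : Type} [CStarAlgebra D] (T : D) : selfAdjoint D :=
  ⟨(-Complex.I / 2 : ℂ) • (T - star T), by
    rw [selfAdjoint.mem_iff, star_smul, star_sub, star_star, ← neg_sub, smul_neg, ← neg_smul]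
    congr 1
    simp only [Complex.star_def, map_div₀, map_neg, Complex.conj_I, map_ofNat]
    ring⟩

theorem coe_rePart {D : Type} [CStarAlgebra D] (T : D) :
    (rePart T : D) = (1 / 2 : ℂ) • (T + star T) := rfl

theorem coe_imPart {D : Type} [CStarAlgebra D] (T : D) :
    (imPart T : D) = (-Complex.I / 2 : ℂ) • (T - star T) := rfl

theorem re_add_im {D : Type} [CStarAlgebra D] (T : D) :
    (rePart T : D) + Complex.I • (imPart T : D) = T := by
  rw [coe_rePart, coe_imPart, smul_smul]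
  have : Complex.I * (-Complex.I / 2) = 1 / 2 := by
    rw [mul_div_assoc', mul_neg, Complex.I_mul_I, neg_neg]
  rw [this, ← smul_add]
  have h : T + star T + (T - star T) = (2 : ℂ) • T := by
    rw [two_smul]
    abel
  rw [h, smul_smul]
  norm_num

theorem norm_rePart {D : Type} [CStarAlgebra D] (T : D) (hT : ‖T‖ ≤ 1) : ‖rePart T‖ ≤ 1 := by
  show ‖(1 / 2 : ℂ) • (T + star T)‖ ≤ 1
  rw [norm_smul]
  have h1 : ‖(1 / 2 : ℂ)‖ = 1 / 2 := by norm_num
  have h2 := norm_add_le T (star T)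
  rw [norm_star] at h2
  rw [h1]
  linarith

theorem norm_imPart {D : Type} [CStarAlgebra D] (T : D) (hT : ‖T‖ ≤ 1) : ‖imPart T‖ ≤ 1 := by
  show ‖(-Complex.I / 2 : ℂ) • (T - star T)‖ ≤ 1
  rw [norm_smul]
  have h1 : ‖(-Complex.I / 2 : ℂ)‖ = 1 / 2 := by
    rw [norm_div, norm_neg, Complex.norm_I]
    norm_num
  have h2 := norm_sub_le T (star T)
  rw [norm_star] at h2
  rw [h1]
  linarith

theorem re_im_comm {D : Type} [CStarAlgebra D] (T : D) :
    ‖(rePart T : D) * imPart T - imPart T * rePart T‖ ≤ ‖star T * T - T * star T‖ := by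
  rw [coe_rePart, coe_imPart, smul_mul_smul_comm, smul_mul_smul_comm, mul_comm (1 / 2 : ℂ),
    ← smul_sub]
  have h : (T + star T) * (T - star T) - (T - star T) * (T + star T) =
      (2 : ℂ) • (star T * T - T * star T) := by
    rw [two_smul]
    noncomm_ring
  rw [h, smul_smul, norm_smul]
  have h1 : ‖-Complex.I / 2 * (1 / 2) * 2‖ = 1 / 2 := by
    rw [norm_mul, norm_mul, norm_div, norm_neg, Complex.norm_I]
    norm_num
  rw [h1]
  have := norm_nonneg (star T * T - T * star T)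
  linarith

/-- the separating polynomial -/
theorem exists_poly (S : Finset ℂ) (μ : ℂ) (h : μ ∉ S) :
    ∃ P : Polynomial ℂ, P.eval μ = 1 ∧ ∀ l ∈ S, P.eval l = 0 := by
  refine ⟨∏ l ∈ S, (Polynomial.C (μ - l)⁻¹ * (Polynomial.X - Polynomial.C l)), ?_, fun l hl => ?_⟩
  · rw [Polynomial.eval_prod]
    refine Finset.prod_eq_one fun l hl => ?_
    have : μ - l ≠ 0 := sub_ne_zero.2 fun h' => h (h' ▸ hl)
    simp [this]
  · rw [Polynomial.eval_prod]
    refine Finset.prod_eq_zero hl ?_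
    simp

theorem exp_inj_of_small {s t : ℝ} (hs : |s| ≤ 1 / 40) (ht : |t| ≤ 1 / 40)
    (h : Complex.exp ((s : ℂ) * Complex.I) = Complex.exp ((t : ℂ) * Complex.I)) : s = t := by
  have h1 := congrArg Complex.arg h
  have e : ∀ u : ℝ, |u| ≤ 1 / 40 → Complex.arg (Complex.exp ((u : ℂ) * Complex.I)) = u := by
    intro u hu
    rw [Complex.arg_exp_mul_I, toIocMod_eq_self]
    have := Real.pi_gt_three
    rw [abs_le] at hu
    constructor <;> linarith [hu.1, hu.2]
  rwa [e s hs, e t ht] at h1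

theorem al_zero {D : Type} [CStarAlgebra D] (X Y : selfAdjoint D) (ε r : ℝ) :
    al X Y ε r 0 0 0 = 1 := by
  unfold al
  rw [mul_zero, mul_zero, zero_smul, zero_smul, selfAdjoint.expUnitary_zero, Complex.ofReal_zero,
    zero_mul, Complex.exp_zero, one_smul]
  exact one_mul _

/-- operators on `ℓ²` -/
abbrev OpD : Type := lp (fun _ : ℕ => ℂ) 2 →L[ℂ] lp (fun _ : ℕ => ℂ) 2

instance nontrivial_OpD : Nontrivial OpD := by
  refine ⟨0, 1, fun h => ?_⟩
  obtain ⟨S, T, h1, h2, -⟩ := exists_shift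
  exact h2 (by rw [← mul_one (S * star S), ← h, mul_zero])

/-- **Rank at most one.** Two real homomorphisms on a solvable normal subgroup of finite index of a
`C*`-stable group are linearly dependent. -/
theorem rank_one {G : Type} [Group G] [Countable G] (hG : CStarStable G) (L : Subgroup G)
    [L.Normal] [L.FiniteIndex] [Group.IsSolvable L] (x y : G → ℝ) (hx : HomOn L x)
    (hy : HomOn L y) (a b : G) (ha : a ∈ L) (hb : b ∈ L) : x a * y b = x b * y a := by
  classical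
  by_contra hne
  obtain ⟨Sh, T, hS1, hS2, hT1, hT2, hT3⟩ := exists_shift
  obtain ⟨t, h, hh, hgen⟩ := exists_generic (Q := G ⧸ L) L x y hx hy (rp L)
  let X : ℕ → selfAdjoint OpD := fun j => rePart (T j)
  let Y : ℕ → selfAdjoint OpD := fun j => imPart (T j)
  have hXY : ∀ j, (X j : OpD) + Complex.I • (Y j : OpD) = T j := fun j => re_add_im (T j)
  have hX : ∀ j, ‖X j‖ ≤ 1 := fun j => norm_rePart _ (hT1 j)
  have hY : ∀ j, ‖Y j‖ ≤ 1 := fun j => norm_imPart _ (hT1 j)
  have hcomm : Tendsto (fun j => ‖(X j : OpD) * Y j - Y j * X j‖) atTop (𝓝 0) :=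
    squeeze_zero (fun _ => norm_nonneg _) (fun j => re_im_comm (T j)) hT3
  -- the third homomorphism
  let u : G → ℝ := fun l => x l + t * y l
  have hu : HomOn L u := by
    intro a ha b hb
    show x (a * b) + t * y (a * b) = _
    rw [hx a ha b hb, hy a ha b hb]
    show _ = x a + t * y a + (x b + t * y b)
    ring
  -- conjugates
  let aL : L := ⟨a, ha⟩
  let bL : L := ⟨b, hb⟩
  let hL : L := ⟨h, hh⟩
  have hcj : ∀ (l : L) (p : G ⧸ L), ((cj L l p : L) : G) = (rp L p)⁻¹ * l * rp L p :=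
    fun _ _ => rfl
  let St : G ⧸ L → Prop := fun p => u (cj L hL p) = u h
  have hSt : ∀ p, St p → ∀ l : L, x (cj L l p) = x l ∧ y (cj L l p) = y l ∧ u (cj L l p) = u l := by
    intro p hp l
    have h1 := hgen p hp l l.2
    refine ⟨h1.1, h1.2, ?_⟩
    show x (cj L l p) + t * y (cj L l p) = x l + t * y l
    rw [hcj, h1.1, h1.2]
  -- the coset of one
  let p₀ : G ⧸ L := ((1 : G) : G ⧸ L)
  have hp₀ : St p₀ := by
    have h1 : rp L p₀ ∈ L := by
      have h2 : ((rp L p₀ : G) : G ⧸ L) = ((1 : G) : G ⧸ L) := rp_mk L p₀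
      rw [eq_comm, QuotientGroup.eq] at h2
      simpa using h2
    show u ((rp L p₀)⁻¹ * h * rp L p₀) = u h
    rw [hu _ (L.mul_mem (L.inv_mem h1) hh) _ h1, hu _ (L.inv_mem h1) _ hh, hu.inv h1]
    ring
  -- coefficients
  set Δ : ℝ := x a * y b - x b * y a with hΔ
  have hΔ0 : (Δ : ℂ) ≠ 0 := by
    exact_mod_cast sub_ne_zero.2 hne
  let ca : ℂ := (y b - Complex.I * x b) / Δ
  let cb : ℂ := (Complex.I * x a - y a) / Δ
  have hc1 : ca * x a + cb * x b = 1 := by
    show (y b - Complex.I * x b) / Δ * x a + (Complex.I * x a - y a) / Δ * x b = 1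
    rw [div_mul_eq_mul_div, div_mul_eq_mul_div, ← add_div, div_eq_one_iff_eq hΔ0, hΔ]
    push_cast
    ring
  have hc2 : ca * y a + cb * y b = Complex.I := by
    show (y b - Complex.I * x b) / Δ * y a + (Complex.I * x a - y a) / Δ * y b = Complex.I
    rw [div_mul_eq_mul_div, div_mul_eq_mul_div, ← add_div, div_eq_iff hΔ0, hΔ]
    push_cast
    ring
  -- the finite set of elements
  let E : Finset L := Finset.univ.biUnion fun p : G ⧸ L => {cj L aL p, cj L bL p, cj L hL p}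
  have hEa : ∀ p, cj L aL p ∈ E := fun p => Finset.mem_biUnion.2 ⟨p, Finset.mem_univ _, by simp⟩
  have hEb : ∀ p, cj L bL p ∈ E := fun p => Finset.mem_biUnion.2 ⟨p, Finset.mem_univ _, by simp⟩
  have hEh : ∀ p, cj L hL p ∈ E := fun p => Finset.mem_biUnion.2 ⟨p, Finset.mem_univ _, by simp⟩
  have hsmall : ∀ f : L → ℝ, ∃ ε : ℝ, 0 < ε ∧ ∀ r : ℝ, 0 < r → r ≤ ε → ∀ l ∈ E,
      |r * f l| ≤ 1 / 80 := by
    intro f
    refine ⟨1 / (80 * (1 + ∑ l ∈ E, |f l|)), ?_, fun r hr hr' l hl => ?_⟩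
    · have : 0 ≤ ∑ l ∈ E, |f l| := Finset.sum_nonneg fun _ _ => abs_nonneg _
      positivity
    · have h0 : 0 ≤ ∑ l ∈ E, |f l| := Finset.sum_nonneg fun _ _ => abs_nonneg _
      have h1 : |f l| ≤ ∑ l ∈ E, |f l| :=
        Finset.single_le_sum (f := fun l => |f l|) (fun _ _ => abs_nonneg _) hl
      rw [abs_mul, abs_of_pos hr]
      calc r * |f l| ≤ 1 / (80 * (1 + ∑ l ∈ E, |f l|)) * (1 + ∑ l ∈ E, |f l|) :=
            mul_le_mul hr' (by linarith) (abs_nonneg _) (by positivity)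
        _ = 1 / 80 := by
            field_simp
  obtain ⟨ε, hε, hεs⟩ := hsmall fun l => u l
  have hεE : ∀ l ∈ E, |ε * u l| ≤ 1 / 80 := fun l hl => hεs ε hε le_rfl l hl
  -- the scalars and the polynomial
  let ex : ℝ → ℂ := fun s => Complex.exp (((ε * s : ℝ) : ℂ) * Complex.I)
  have hhE : |ε * u h| ≤ 1 / 80 := by
    have := hεE _ (hEh p₀)
    rwa [(hSt p₀ hp₀ hL).2.2] at this
  let SS : Finset ℂ := (Finset.univ.filter fun p : G ⧸ L => ¬ St p).image fun p => ex (u (cj L hL p))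
  have hμ : ex (u h) ∉ SS := by
    intro hm
    obtain ⟨p, hp, hpe⟩ := Finset.mem_image.1 hm
    refine (Finset.mem_filter.1 hp).2 ?_
    have h1 := hεE _ (hEh p)
    have h2 := exp_inj_of_small (by linarith) (by linarith) hpe
    exact mul_left_cancel₀ hε.ne' h2
  obtain ⟨P, hP1, hP0⟩ := exists_poly SS _ hμ
  -- the radius
  obtain ⟨r₁, hr₁, hst⟩ := block_stab ε (u a) (x a) (y a) (u b) (x b) (y b) (u h) (x h) (y h) ca cb P
    hP1 hc1 hc2 (1 / 8) (by norm_num)
  have hnon : ∀ p : G ⧸ L, ∃ r₀ : ℝ, 0 < r₀ ∧ (¬ St p → ∀ r : ℝ, 0 < r → r < r₀ →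
      ∀ (D : Type) [CStarAlgebra D] (X Y : selfAdjoint D), ‖X‖ ≤ 1 → ‖Y‖ ≤ 1 →
      ‖FF ca cb (ex (u a)) (ex (u b)) P
        (al X Y ε r (u (cj L aL p)) (x (cj L aL p)) (y (cj L aL p)))
        (al X Y ε r (u (cj L bL p)) (x (cj L bL p)) (y (cj L bL p)))
        (al X Y ε r (u (cj L hL p)) (x (cj L hL p)) (y (cj L hL p))) - 1‖ ≤ 1 / 8) := by
    intro p
    by_cases hp : St p
    · exact ⟨1, one_pos, fun h => absurd hp h⟩
    · obtain ⟨r₀, hr₀, h1⟩ := block_non ε (u (cj L aL p)) (x (cj L aL p)) (y (cj L aL p))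
        (u (cj L bL p)) (x (cj L bL p)) (y (cj L bL p)) (u (cj L hL p)) (x (cj L hL p))
        (y (cj L hL p)) ca cb (ex (u a)) (ex (u b)) (by
          show ‖Complex.exp _‖ = 1
          exact Complex.norm_exp_ofReal_mul_I _) (by
          show ‖Complex.exp _‖ = 1
          exact Complex.norm_exp_ofReal_mul_I _) P
        (hP0 _ (Finset.mem_image.2 ⟨p, by simp [hp], rfl⟩)) (1 / 8) (by norm_num)
      exact ⟨r₀, hr₀, fun _ => h1⟩
  choose r₀ hr₀ hnon using hnon
  obtain ⟨ε₁, hε₁, hxs⟩ := hsmall fun l => x l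
  obtain ⟨ε₂, hε₂, hys⟩ := hsmall fun l => y l
  obtain ⟨r, hr, hr1, hr2, hr3, hr4, hr5⟩ : ∃ r : ℝ, 0 < r ∧ r ≤ 1 ∧ r < r₁ ∧ r ≤ ε₁ ∧ r ≤ ε₂ ∧
      ∀ p, r < r₀ p := by
    have h1 : ∀ᶠ r : ℝ in 𝓝[>] 0, 0 < r := self_mem_nhdsWithin
    have h2 : ∀ c : ℝ, 0 < c → ∀ᶠ r : ℝ in 𝓝[>] 0, r < c := fun c hc =>
      mem_nhdsWithin_of_mem_nhds (gt_mem_nhds hc)
    have h3 := (h1.and (h2 1 one_pos)).and (((h2 r₁ hr₁).and (h2 ε₁ hε₁)).and ((h2 ε₂ hε₂).and
      (Filter.eventually_all.2 fun p => h2 (r₀ p) (hr₀ p))))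
    obtain ⟨r, ⟨g1, g2⟩, ⟨g3, g4⟩, g5, g6⟩ := h3.exists
    exact ⟨r, g1, g2.le, g3, g4.le, g5.le, g6⟩
  -- the almost representations
  let φ : ℕ → L → OpD := fun j l => al (X j) (Y j) ε r (u l) (x l) (y l)
  have hφu : ∀ j l, φ j l ∈ unitary OpD := fun j l => al_mem _ _ _ _ _ _ _
  have hφn : ∀ j l, ‖φ j l‖ = 1 := fun j l => CStarRing.norm_of_mem_unitary (hφu j l)
  have hφ1 : ∀ j, φ j 1 = 1 := by
    intro j
    show al (X j) (Y j) ε r (u ((1 : L) : G)) (x ((1 : L) : G)) (y ((1 : L) : G)) = 1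
    rw [Subgroup.coe_one, hx.one, hy.one, hu.one]
    exact al_zero _ _ _ _
  have hφm : ∀ g h, Tendsto (fun j => ‖φ j (g * h) - φ j g * φ j h‖) atTop (𝓝 0) := by
    intro g h
    have h1 := hcomm.const_mul (|r * y g| * |r * x h|)
    rw [mul_zero] at h1
    refine squeeze_zero (fun _ => norm_nonneg _) (fun j => ?_) h1
    have h2 := al_mul (X j) (Y j) ε r (u g) (x g) (y g) (u h) (x h) (y h)
    show ‖al (X j) (Y j) ε r (u ((g * h : L) : G)) (x ((g * h : L) : G)) (y ((g * h : L) : G)) -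
      al (X j) (Y j) ε r (u g) (x g) (y g) * al (X j) (Y j) ε r (u h) (x h) (y h)‖ ≤ _
    rw [Subgroup.coe_mul, hx g g.2 h h.2, hy g g.2 h h.2, hu g g.2 h h.2]
    exact h2
  obtain ⟨ψ, hψ⟩ := perturbIndW hG L φ (fun g => ⟨1, fun j => (hφn j g).le⟩) hφm
    (by
      intro g
      refine squeeze_zero (fun _ => norm_nonneg _) (fun j => ?_) (hφm g g⁻¹)
      have h2 : star (φ j g) - φ j g⁻¹ = star (φ j g) * (φ j (g * g⁻¹) - φ j g * φ j g⁻¹) := by
        rw [mul_inv_cancel, hφ1, mul_sub, mul_one, ← mul_assoc, (Unitary.mem_iff.1 (hφu j g)).1,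
          one_mul]
      rw [h2]
      refine (norm_mul_le _ _).trans ?_
      rw [CStarRing.norm_of_mem_unitary (Unitary.star_mem (hφu j g)), one_mul])
    (by
      have : (fun j => ‖φ j 1 - 1‖) = fun _ => (0 : ℝ) := by
        funext j
        rw [hφ1, sub_self, norm_zero]
      rw [this]
      exact tendsto_const_nhds)
  -- the blocks
  have hIn : ∀ j (l : L), Ind L (φ j) l = diagM (fun p : G ⧸ L => φ j (cj L l p)) :=
    fun j l => Ind_normal L (φ j) l
  have hnear1 : ∀ j, ∀ l ∈ E, ‖φ j l - 1‖ ≤ 1 / 20 := by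
    intro j l hl
    refine (al_near (X j) (Y j) ε r (u l) (x l) (y l) (hX j) (hY j)).trans ?_
    have e1 := hεE l hl
    have e2 := hxs r hr hr3 l hl
    have e3 := hys r hr hr4 l hl
    linarith
  have hInear : ∀ j, ∀ l : L, (∀ p, cj L l p ∈ E) → ‖Ind L (φ j) l - 1‖ ≤ 1 / 20 := by
    intro j l hl
    rw [hIn, diagM_sub_one]
    exact norm_diagM_le _ (by norm_num) fun p => hnear1 j _ (hl p)
  have hev1 : ∀ l : L, (∀ p, cj L l p ∈ E) → ∀ᶠ j in atTop,
      ‖(ψ j l : MM (G ⧸ L) OpD) - 1‖ ≤ 1 / 10 := by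
    intro l hl
    filter_upwards [(hψ l).eventually (gt_mem_nhds (show (0 : ℝ) < 1 / 20 by norm_num))] with j hj
    have e : (ψ j l : MM (G ⧸ L) OpD) - 1 =
        ((ψ j l : MM (G ⧸ L) OpD) - Ind L (φ j) l) + (Ind L (φ j) l - 1) := by abel
    rw [e]
    refine (norm_add_le _ _).trans ?_
    have := hInear j l hl
    linarith
  -- the test elements
  have hnI : ∀ j (l : L), ‖Ind L (φ j) l‖ ≤ 1 := by
    intro j l
    rw [hIn]
    exact norm_diagM_le _ zero_le_one fun p => (hφn j _).le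
  have hnψ : ∀ j (l : L), ‖(ψ j l : MM (G ⧸ L) OpD)‖ ≤ 1 := fun j l =>
    (CStarRing.norm_of_mem_unitary (ψ j l).2).le
  have hFF := FF_cont (D := fun _ => MM (G ⧸ L) OpD) ca cb (ex (u a)) (ex (u b)) P
    (fun j => ψ j aL) (fun j => ψ j bL) (fun j => ψ j hL)
    (fun j => Ind L (φ j) aL) (fun j => Ind L (φ j) bL) (fun j => Ind L (φ j) hL)
    (fun j => hnψ j _) (fun j => hnψ j _) (fun j => hnψ j _)
    (fun j => hnI j _) (fun j => hnI j _) (fun j => hnI j _) (hψ _) (hψ _) (hψ _)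
  obtain ⟨j, ⟨ja, jb, jh⟩, jF⟩ := (((hev1 aL hEa).and ((hev1 bL hEb).and (hev1 hL hEh))).and
    (hFF.eventually (gt_mem_nhds (show (0 : ℝ) < r / 8 by positivity)))).exists
  -- the images commute
  have hcom : ∀ s ∈ ({aL, bL, hL} : Set L), ∀ s' ∈ ({aL, bL, hL} : Set L),
      ψ j s * ψ j s' = ψ j s' * ψ j s := by
    let NN : Set (unitary (MM (G ⧸ L) OpD)) :=
      {v | ∃ g : G, ∃ s ∈ ({aL, bL, hL} : Set L), v = ψ j (g * s * g⁻¹)}
    have hle : Subgroup.closure NN ≤ L.map (ψ j) := by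
      rw [Subgroup.closure_le]
      rintro v ⟨g, s, -, rfl⟩
      exact ⟨g * s * g⁻¹, (inferInstance : L.Normal).conj_mem _ s.2 g, rfl⟩
    have hsolv : Group.IsSolvable (Subgroup.closure NN) := by
      have h1 : Group.IsSolvable (L.map (ψ j)) :=
        Group.isSolvable_of_surjective ((ψ j).subgroupMap_surjective L)
      exact Group.isSolvable_of_isSolvable_injective (Subgroup.inclusion_injective hle)
    have hNs : ∀ v ∈ NN, ‖(v : MM (G ⧸ L) OpD) - 1‖ ≤ 1 / 10 := by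
      rintro v ⟨g, s, hs, rfl⟩
      have e : (ψ j (g * s * g⁻¹) : MM (G ⧸ L) OpD) - 1 =
          (ψ j g : MM (G ⧸ L) OpD) * ((ψ j s : MM (G ⧸ L) OpD) - 1) * star (ψ j g : MM (G ⧸ L) OpD) := by
        rw [map_mul, map_mul, map_inv, mul_sub, mul_one, sub_mul, Unitary.mul_star_self_of_mem (ψ j g).2]
        rfl
      rw [e, CStarRing.norm_mul_mem_unitary _ (Unitary.star_mem (ψ j g).2),
        CStarRing.norm_mem_unitary_mul _ (ψ j g).2]
      rcases hs with rfl | rfl | rfl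
      · exact ja
      · exact jb
      · exact jh
    have key := commute_of_solvable (Subgroup.closure NN) NN rfl (by
      intro v hv w hw
      obtain ⟨l, -, rfl⟩ := hle hv
      obtain ⟨g, s, hs, rfl⟩ := hw
      refine ⟨l * g, s, hs, ?_⟩
      rw [← map_mul, ← map_inv, ← map_mul]
      congr 1
      group) hNs
    have hmem : ∀ s ∈ ({aL, bL, hL} : Set L), ψ j s ∈ Subgroup.closure NN := fun s hs =>
      Subgroup.subset_closure ⟨1, s, hs, by simp⟩
    exact fun s hs s' hs' => key _ (hmem s hs) _ (hmem s' hs')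
  have hcab := congrArg (Subtype.val) (hcom aL (by simp) bL (by simp))
  have hcah := congrArg (Subtype.val) (hcom aL (by simp) hL (by simp))
  have hcbh := congrArg (Subtype.val) (hcom bL (by simp) hL (by simp))
  have hnorm := FF_normal ca cb (ex (u a)) (ex (u b)) P (ψ j aL : MM (G ⧸ L) OpD) (ψ j bL)
    (ψ j hL) (ψ j aL).2 (ψ j bL).2 (ψ j hL).2 hcab hcah hcbh
  refine no_normal (Q := G ⧸ L) St p₀ hp₀ Sh (T j) hS1 hS2 (hT2 j) r hr hr1 _ hnorm
    (fun p => FF ca cb (ex (u a)) (ex (u b)) P (φ j (cj L aL p)) (φ j (cj L bL p))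
      (φ j (cj L hL p))) ?_ ?_ ?_
  · intro p hp
    have h1 := hst r hr hr2 OpD (X j) (Y j) (hX j) (hY j)
    rw [hXY] at h1
    have e1 : φ j (cj L aL p) = al (X j) (Y j) ε r (u a) (x a) (y a) := by
      obtain ⟨q1, q2, q3⟩ := hSt p hp aL
      show al (X j) (Y j) ε r (u (cj L aL p)) (x (cj L aL p)) (y (cj L aL p)) = _
      rw [q1, q2, q3]
    have e2 : φ j (cj L bL p) = al (X j) (Y j) ε r (u b) (x b) (y b) := by
      obtain ⟨q1, q2, q3⟩ := hSt p hp bL
      show al (X j) (Y j) ε r (u (cj L bL p)) (x (cj L bL p)) (y (cj L bL p)) = _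
      rw [q1, q2, q3]
    have e3 : φ j (cj L hL p) = al (X j) (Y j) ε r (u h) (x h) (y h) := by
      obtain ⟨q1, q2, q3⟩ := hSt p hp hL
      show al (X j) (Y j) ε r (u (cj L hL p)) (x (cj L hL p)) (y (cj L hL p)) = _
      rw [q1, q2, q3]
    rw [e1, e2, e3]
    refine h1.trans ?_
    linarith
  · intro p hp
    exact hnon p hp r hr (hr5 p) OpD (X j) (Y j) (hX j) (hY j)
  · rw [← FF_diagM, ← hIn, ← hIn, ← hIn]
    exact jF.le

end Pool.Agent.Helper72CS
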