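import Pool.Agent.Helper72_CS.Grp

/-!
# Rank at most one: the almost representations and the test function
-/

set_option autoImplicit false

open Set Filter Topology

noncomputable section

namespace Pool.Agent.Helper72CS

/-- the almost representation of `ℝ³`: `exp(iεu) exp(i r v X) exp(i r w Y)` -/
def al {D : Type} [CStarAlgebra D] (X Y : selfAdjoint D) (ε r u v w : ℝ) : D :=
  Complex.exp (((ε * u : ℝ) : ℂ) * Complex.I) •
    ((selfAdjoint.expUnitary ((r * v) • X) : D) * (selfAdjoint.expUnitary ((r * w) • Y) : D))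

/-- the test function -/
def FF {D : Type} [CStarAlgebra D] (ca cb μa μb : ℂ) (P : Polynomial ℂ) (A B C : D) : D :=
  ((ca * -Complex.I) • (star μa • A - 1) + (cb * -Complex.I) • (star μb • B - 1)) *
      Polynomial.aeval C P +
    (1 - Polynomial.aeval C P) * (1 - Polynomial.aeval C P)

/-- Perturbation of induced almost representations, absolute version. -/
theorem perturbIndW {G : Type} [Group G] [Countable G] (hG : CStarStable G) (L : Subgroup G)
    [L.FiniteIndex]
    {D : ℕ → Type} [∀ j, CStarAlgebra (D j)]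
    [∀ j, Nontrivial (D j)] (φ : ∀ j, L → D j)
    (hb : ∀ g, ∃ C, ∀ j, ‖φ j g‖ ≤ C)
    (hmul : ∀ g h, Tendsto (fun j => ‖φ j (g * h) - φ j g * φ j h‖) atTop (𝓝 0))
    (hstar : ∀ g, Tendsto (fun j => ‖star (φ j g) - φ j g⁻¹‖) atTop (𝓝 0))
    (hone : Tendsto (fun j => ‖φ j 1 - 1‖) atTop (𝓝 0)) :
    ∃ ψ : ∀ j, G →* unitary (MM (G ⧸ L) (D j)),
      ∀ g, Tendsto (fun j => ‖(ψ j g : MM (G ⧸ L) (D j)) - Ind L (φ j) g‖) atTop (𝓝 0) := by
  obtain ⟨ψ, _, h⟩ := perturbInd hG L (E := fun j => Pool.Agent.Helper757.GL.Q (CI_top (D j)))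
    (fun j => mkU (CI_top (D j))) φ hb
    (fun j => 1) (fun j g => (Q_top_subsingleton (D j)).elim _ _) hmul hstar hone
  exact ⟨ψ, h⟩

end Pool.Agent.Helper72CS
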