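/-
HOW TO START: this file imports small modules which are on origin/main. Do
  cd /workdir/pool/outputs/live && git fetch && git checkout origin/main -- Pool/Agent/Helper72_CS Pool/Agent/Helper757/GL ; git reset -q
  mkdir -p /workdir/pool/Pool/Agent/Helper757 && cp -r Pool/Agent/Helper72_CS /workdir/pool/Pool/Agent/ && cp -r Pool/Agent/Helper757/GL /workdir/pool/Pool/Agent/Helper757/
  cd /workdir/pool && lake build Pool.Agent.Helper72_CS.Defs2 (plus the other modules the file imports)
(1-2 minutes). The definitions are in Pool/Agent/Helper72_CS/{Ind,Fam,Grp,LSDefs,Defs2}.lean (short; read them first).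
Note: inside the namespace, `continuous_pi` is another lemma; write `_root_.continuous_pi`.
-/
import Pool.Agent.Helper72_CS.Defs2
import Pool.Agent.Helper72_CS.AbImage

/-!
JOB near one, amplification, and traces. Three independent targets. (`MM`, `permU`, `flat` are defined in `Pool/Agent/Helper72_CS/{Ind,Fam,Defs2}.lean`; `MM Q D` is
`CStarMatrix Q Q D`.)

(1) `exists_near_one`: the algebra is finite dimensional, so bounded sets are totally bounded and among infinitely many values `ρ g`, `g ∈ Λ`, two are at distance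
`≤ 1/10`; then use `g⁻¹ * g'` (see `abImage_diff`, `abImage_centres` in `Pool/Agent/Helper72_CS/AbImage.lean`, which need `ProperSpace`; alternatively use that
`flat` is an injective linear map to matrices, or compare entries: finitely many entries, all bounded by one, pigeonhole on the entries and the bound of the norm by a constant
times the maximum of the norms of the entries).
(2) `exists_amp`: amplification `M ↦ M ⊗ 1` transported along `e`.
(3) `trace_close`: the entries of `M` are bounded by `‖M‖` (`MM.norm_apply_le`, twice).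
-/

set_option autoImplicit false

open Set Filter Topology

noncomputable section

namespace Pool.Agent.Helper72CS

/-- TARGET 1 -/
theorem exists_near_one {G Q K : Type} [Group G] [Fintype Q] [DecidableEq Q] [Fintype K]
    [DecidableEq K] (ρ : G →* unitary (MM Q (MM K ℂ))) (Λ : Subgroup G) (hΛ : Infinite Λ) :
    ∃ g ∈ Λ, g ≠ 1 ∧ ‖(ρ g : MM Q (MM K ℂ)) - 1‖ ≤ 1 / 10 := by
  have hfd : FiniteDimensional ℂ (MM Q (MM K ℂ)) :=
    Module.Finite.of_injective ((flat Q K).toAlgHom.toLinearMap) (by
      intro a b h
      exact flat_injective h)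
  have hps : ProperSpace (MM Q (MM K ℂ)) := FiniteDimensional.proper ℂ _
  obtain ⟨t, c, htf, hct, hcd⟩ := abImage_centres ρ
  have htf' : Finite t := htf
  obtain ⟨a, b, hab, hc⟩ := Finite.exists_ne_map_eq_of_infinite
    (fun g : Λ => (⟨c g, hct g⟩ : t))
  have hcab : c a = c b := congrArg Subtype.val hc
  refine ⟨(a : G)⁻¹ * b, Λ.mul_mem (Λ.inv_mem a.2) b.2, ?_, ?_⟩
  · intro h
    apply hab
    apply Subtype.ext
    exact inv_mul_eq_one.1 h
  · rw [abImage_diff]
    have h1 := hcd a
    have h2 := hcd b
    rw [hcab] at h1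
    have h3 := dist_triangle_right ((ρ (a : G) : unitary (MM Q (MM K ℂ))) : MM Q (MM K ℂ))
      ((ρ (b : G) : unitary (MM Q (MM K ℂ))) : MM Q (MM K ℂ)) (c b)
    linarith

/-- TARGET 2 -/
theorem exists_amp {A J E : Type} [Fintype A] [DecidableEq A] [Fintype J] [DecidableEq J]
    [Fintype E] [DecidableEq E] (e : A × J ≃ E) :
    ∃ α : MM A ℂ →⋆ₐ[ℂ] MM E ℂ, ∀ M p q, α M p q =
      if (e.symm p).2 = (e.symm q).2 then M (e.symm p).1 (e.symm q).1 else 0 := by
  have h1 : ∀ p q : E, (if (e.symm p).2 = (e.symm q).2 then
      (1 : MM A ℂ) (e.symm p).1 (e.symm q).1 else 0) = (1 : MM E ℂ) p q := by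
    intro p q
    rw [MM.one_apply, MM.one_apply]
    by_cases h : p = q
    · subst h
      simp
    · rw [if_neg h]
      by_cases h2 : (e.symm p).2 = (e.symm q).2
      · rw [if_pos h2, if_neg]
        intro h3
        exact h (e.symm.injective (Prod.ext h3 h2))
      · rw [if_neg h2]
  refine ⟨{
    toFun := fun M p q => if (e.symm p).2 = (e.symm q).2 then M (e.symm p).1 (e.symm q).1 else 0
    map_one' := MM.ext fun p q => h1 p q
    map_mul' := fun M N => MM.ext fun p q => ?_
    map_zero' := MM.ext fun p q => ?_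
    map_add' := fun M N => MM.ext fun p q => ?_
    commutes' := fun c => MM.ext fun p q => ?_
    map_star' := fun M => MM.ext fun p q => ?_ }, fun M p q => rfl⟩
  · rw [MM.mul_apply]
    show (if (e.symm p).2 = (e.symm q).2 then (M * N) (e.symm p).1 (e.symm q).1 else 0) =
      ∑ r, (if (e.symm p).2 = (e.symm r).2 then M (e.symm p).1 (e.symm r).1 else 0) *
        (if (e.symm r).2 = (e.symm q).2 then N (e.symm r).1 (e.symm q).1 else 0)
    rw [← e.sum_comp, Fintype.sum_prod_type, MM.mul_apply]
    simp only [Equiv.symm_apply_apply]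
    have h2 : ∀ a : A, ∑ b : J, (if (e.symm p).2 = b then M (e.symm p).1 a else 0) *
        (if b = (e.symm q).2 then N a (e.symm q).1 else 0) =
        if (e.symm p).2 = (e.symm q).2 then M (e.symm p).1 a * N a (e.symm q).1 else 0 := by
      intro a
      rw [Finset.sum_eq_single (e.symm p).2]
      · simp only [if_true]
        split_ifs <;> simp
      · intro b _ hb
        rw [if_neg (Ne.symm hb), zero_mul]
      · intro h
        exact absurd (Finset.mem_univ _) h
    rw [Finset.sum_congr rfl fun a _ => h2 a]
    by_cases h : (e.symm p).2 = (e.symm q).2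
    · simp only [if_pos h]
    · simp only [if_neg h, Finset.sum_const_zero]
  · show (if _ then (0 : MM A ℂ) _ _ else 0) = (0 : MM E ℂ) p q
    rw [MM.zero_apply, MM.zero_apply, ite_self]
  · rw [MM.add_apply]
    show (if (e.symm p).2 = (e.symm q).2 then (M + N) (e.symm p).1 (e.symm q).1 else 0) =
      (if (e.symm p).2 = (e.symm q).2 then M (e.symm p).1 (e.symm q).1 else 0) +
      (if (e.symm p).2 = (e.symm q).2 then N (e.symm p).1 (e.symm q).1 else 0)
    rw [MM.add_apply]
    split_ifs <;> simp
  · show (if (e.symm p).2 = (e.symm q).2 then (algebraMap ℂ (MM A ℂ) c) (e.symm p).1 (e.symm q).1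
      else 0) = (algebraMap ℂ (MM E ℂ) c) p q
    rw [Algebra.algebraMap_eq_smul_one, Algebra.algebraMap_eq_smul_one, MM.smul_apply,
      MM.smul_apply, ← h1 p q]
    split_ifs <;> simp
  · rw [MM.star_apply]
    show (if (e.symm p).2 = (e.symm q).2 then (star M) (e.symm p).1 (e.symm q).1 else 0) =
      star (if (e.symm q).2 = (e.symm p).2 then M (e.symm q).1 (e.symm p).1 else 0)
    rw [MM.star_apply]
    by_cases h : (e.symm p).2 = (e.symm q).2
    · rw [if_pos h, if_pos h.symm]
    · rw [if_neg h, if_neg (Ne.symm h), star_zero]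

/-- TARGET 3 -/
theorem trace_close {Q K : Type} [Fintype Q] [DecidableEq Q] [Fintype K] [DecidableEq K]
    (M N : MM Q (MM K ℂ)) :
    ‖(flat Q K M).trace - (flat Q K N).trace‖ ≤
      ‖M - N‖ * ((Fintype.card Q : ℝ) * (Fintype.card K : ℝ)) := by
  rw [← Matrix.trace_sub, ← map_sub]
  unfold Matrix.trace
  refine (norm_sum_le _ _).trans ?_
  refine (Finset.sum_le_sum (g := fun _ => ‖M - N‖) fun a _ => ?_).trans ?_
  · show ‖(M - N) a.1 a.1 a.2 a.2‖ ≤ ‖M - N‖
    exact (MM.norm_apply_le _ _ _).trans (MM.norm_apply_le _ _ _)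
  · rw [Finset.sum_const, Finset.card_univ, Fintype.card_prod, nsmul_eq_mul]
    push_cast
    rw [mul_comm]

end Pool.Agent.Helper72CS
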