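import Pool.Agent.Helper72_CS.Compare
import Pool.Agent.Helper72_CS.Chain
import Pool.Agent.Helper72_CS.EqPerm
import Pool.Agent.Helper72_CS.FinPath
import Pool.Agent.Helper72_CS.AsymHom
import Pool.Agent.Helper72_CS.NearOne
import Pool.Agent.Helper72_CS.AmpGroup

/-!
# Locally finite normal subgroups with free complements
-/

set_option autoImplicit false

open Set Filter Topology

noncomputable section

namespace Pool.Agent.Helper72CS

theorem permU_apply {K : Type} [Fintype K] [DecidableEq K] (σ : Equiv.Perm K) (p q : K) :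
    (permU K σ : MM K ℂ) p q = if p = σ q then 1 else 0 := rfl

theorem trace_flat {Q K : Type} [Fintype Q] [DecidableEq Q] [Fintype K] [DecidableEq K]
    (M : MM Q (MM K ℂ)) : (flat Q K M).trace = ∑ q, ∑ k, M q q k k := by
  rw [Matrix.trace, Fintype.sum_prod_type]
  rfl

/-- eventually multiplicative maps into unitary groups are near representations -/
theorem exists_near_rep {G : Type} [Group G] [Countable G] (hG : CStarStable G) (L : Subgroup G)
    [L.FiniteIndex] (K : ℕ → Type) [∀ j, Fintype (K j)] [∀ j, DecidableEq (K j)]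
    [∀ j, Nonempty (K j)] (φ : ∀ j, L → unitary (MM (K j) ℂ)) (hone : ∀ j, φ j 1 = 1)
    (hmul : ∀ g h : L, ∀ᶠ j in atTop, φ j (g * h) = φ j g * φ j h) :
    ∃ ψ : ∀ j, G →* unitary (MM (G ⧸ L) (MM (K j) ℂ)),
      ∀ g, Tendsto (fun j => ‖(ψ j g : MM (G ⧸ L) (MM (K j) ℂ)) -
        Ind L (fun l => (φ j l : MM (K j) ℂ)) g‖) atTop (𝓝 0) := by
  have hev : ∀ F : ℕ → ℝ, (∀ᶠ j in atTop, F j = 0) → Tendsto F atTop (𝓝 0) := fun F hF =>
    tendsto_const_nhds.congr' (hF.mono fun j hj => hj.symm)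
  refine perturbIndW hG L (fun j l => (φ j l : MM (K j) ℂ))
    (fun g => ⟨1, fun j => (CStarRing.norm_of_mem_unitary (φ j g).2).le⟩) ?_ ?_ ?_
  · intro g h
    refine hev _ ?_
    filter_upwards [hmul g h] with j hj
    rw [hj]
    show ‖(φ j g : MM (K j) ℂ) * (φ j h) - (φ j g) * (φ j h)‖ = 0
    rw [sub_self, norm_zero]
  · intro g
    refine hev _ ?_
    filter_upwards [hmul g g⁻¹] with j hj
    rw [mul_inv_cancel, hone] at hj
    have h1 : φ j g⁻¹ = (φ j g)⁻¹ := (inv_eq_of_mul_eq_one_right hj.symm).symm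
    rw [h1]
    show ‖star (φ j g : MM (K j) ℂ) - star (φ j g : MM (K j) ℂ)‖ = 0
    rw [sub_self, norm_zero]
  · refine hev _ (Eventually.of_forall fun j => ?_)
    rw [hone]
    show ‖(1 : MM (K j) ℂ) - 1‖ = 0
    rw [sub_self, norm_zero]

/-- **Locally finite normal subgroups.** Let `Λ` be a locally finite normal subgroup of the
`C*`-stable group `G`, and `L = Λ ⋊ F` a subgroup of finite index, with `F` free. Then `Λ` is finite. -/
theorem locfin_finite {G : Type} [Group G] [Countable G] (hG : CStarStable G) (Λ L : Subgroup G)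
    [Λ.Normal] [L.FiniteIndex] (hΛL : Λ ≤ L) {X : Type} [Countable X] (f : FreeGroup X →* G)
    (hf : ∀ w, f w ∈ L) (hdec : ∀ l ∈ L, ∃ m ∈ Λ, ∃ w, l = m * f w)
    (hfree : ∀ w, f w ∈ Λ → w = 1) (hΛ : LocFin Λ) : Finite Λ := by
  classical
  by_contra hinf
  rw [not_finite_iff_infinite] at hinf
  obtain ⟨c, hc⟩ : ∃ c : X → ℕ, Function.Injective c := Countable.exists_injective_nat X
  obtain ⟨E, hEf, hEm, hEΛ, hEc, hEx⟩ :=
    exists_chain Λ hΛ (fun x => f (FreeGroup.of x)) c hc
  have hft : ∀ n, Fintype (E n) := fun n => Fintype.ofFinite _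
  have hmono : Monotone E := monotone_nat_of_le_succ hEm
  have hevE : ∀ m ∈ Λ, ∀ᶠ n in atTop, m ∈ E n := by
    intro m hm
    obtain ⟨n, hn⟩ := hEc m hm
    exact eventually_atTop.2 ⟨n, fun k hk => hmono hk hn⟩
  -- equivariant permutations
  have hσ : ∀ n x, ∃ σ : Equiv.Perm (E (n + 1)), c x ≤ n → ∀ (a : G) (ha : a ∈ E n)
      (e : E (n + 1)), (σ (⟨a, hEm n ha⟩ * e) : G) =
        f (FreeGroup.of x) * a * (f (FreeGroup.of x))⁻¹ * (σ e : G) := by
    intro n x
    by_cases h : c x ≤ n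
    · obtain ⟨σ, hσ⟩ := exists_equiv_perm (E n) (E (n + 1)) (hEm n) (f (FreeGroup.of x))
        (hEx n x h).1
      exact ⟨σ, fun _ => hσ⟩
    · exact ⟨1, fun h' => absurd h' h⟩
  choose σ hσ using hσ
  let lam : ∀ n, G → Equiv.Perm (E (n + 1)) := fun n m =>
    if h : m ∈ E (n + 1) then Equiv.mulLeft ⟨m, h⟩ else 1
  have hlam : ∀ n m (h : m ∈ E (n + 1)), lam n m = Equiv.mulLeft ⟨m, h⟩ := fun n m h => by
    simp only [lam, dif_pos h]
  have hlam1 : ∀ n, lam n 1 = 1 := by
    intro n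
    rw [hlam n 1 (E (n + 1)).one_mem]
    ext z
    show ((⟨1, _⟩ * z : E (n + 1)) : G) = _
    simp
  have hlamm : ∀ n m m', m ∈ E (n + 1) → m' ∈ E (n + 1) →
      lam n (m * m') = lam n m * lam n m' := by
    intro n m m' h h'
    rw [hlam n m h, hlam n m' h', hlam n (m * m') ((E (n + 1)).mul_mem h h')]
    ext z
    show ((⟨m * m', _⟩ * z : E (n + 1)) : G) = ((⟨m, _⟩ * (⟨m', _⟩ * z) : E (n + 1)) : G)
    simp [mul_assoc]
  have hlame : ∀ m ∈ Λ, ∀ m' ∈ Λ, ∀ᶠ n in atTop, lam n (m * m') = lam n m * lam n m' := by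
    intro m hm m' hm'
    filter_upwards [hevE m hm, hevE m' hm'] with n h h'
    exact hlamm n m m' (hEm n h) (hEm n h')
  have hconjΛ : ∀ x, ∀ m ∈ Λ, f (FreeGroup.of x) * m * (f (FreeGroup.of x))⁻¹ ∈ Λ :=
    fun x m hm => (inferInstance : Λ.Normal).conj_mem m hm _
  have hσl : ∀ n x m, c x ≤ n → m ∈ E n → σ n x * lam n m =
      lam n (f (FreeGroup.of x) * m * (f (FreeGroup.of x))⁻¹) * σ n x := by
    intro n x m hcx hm
    rw [hlam n m (hEm n hm), hlam n _ ((hEx n x hcx).1 m hm)]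
    ext z
    exact hσ n x hcx m hm z
  have hσe : ∀ x, ∀ m ∈ Λ, ∀ᶠ n in atTop, σ n x * lam n m * (σ n x)⁻¹ =
      lam n (f (FreeGroup.of x) * m * (f (FreeGroup.of x))⁻¹) := by
    intro x m hm
    filter_upwards [hevE m hm, eventually_ge_atTop (c x)] with n h h'
    rw [hσl n x m h' h, mul_inv_cancel_right]
  obtain ⟨φ, hφ1, hφm, hφd⟩ := exists_asymptotic_hom Λ L hΛL f hf hdec hfree
    (fun n => Equiv.Perm (E (n + 1))) lam σ hlam1 hlame hσe
  -- the representations
  obtain ⟨ρ, hρ⟩ := exists_near_rep hG L (fun n => E (n + 1))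
    (fun n l => permU (E (n + 1)) (φ n l)) (fun n => by rw [hφ1, map_one])
    (fun g h => (hφm g h).mono fun n hn => by rw [hn, map_mul])
  have hg := fun n => exists_near_one (ρ n) Λ hinf
  choose g hgΛ hg1 hgn using hg
  have hcg : ∀ n (q : G ⧸ L), (rp L q)⁻¹ * g n * rp L q ∈ Λ := by
    intro n q
    have := (inferInstance : Λ.Normal).conj_mem (g n) (hgΛ n) (rp L q)⁻¹
    rwa [inv_inv] at this
  have hN : ∀ n, ∃ N, n ≤ N ∧ ‖(ρ N (g n) : MM (G ⧸ L) (MM (E (N + 1)) ℂ)) -
      Ind L (fun l => (permU (E (N + 1)) (φ N l) : MM (E (N + 1)) ℂ)) (g n)‖ ≤ 1 / 10 ∧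
      ∀ q : G ⧸ L, (rp L q)⁻¹ * g n * rp L q ∈ E (N + 1) := by
    intro n
    have h1 := (hρ (g n)).eventually (gt_mem_nhds (show (0 : ℝ) < 1 / 10 by norm_num))
    have h2 : ∀ᶠ N in atTop, ∀ q : G ⧸ L, (rp L q)⁻¹ * g n * rp L q ∈ E N :=
      eventually_all.2 fun q => hevE _ (hcg n q)
    obtain ⟨N, ⟨h3, h4⟩, h5⟩ := ((h1.and h2).and (eventually_ge_atTop n)).exists
    exact ⟨N, h5, h3.le, fun q => hEm N (h4 q)⟩
  choose N hNn hNρ hNE using hN
  have hle : ∀ n, E (n + 1) ≤ E (N n + 1) := fun n => hmono (Nat.succ_le_succ (hNn n))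
  -- amplifications
  have hamp := fun n => exists_amp_group (E (n + 1)) (E (N n + 1)) (hle n)
  choose k amp α hk hcard htr hαp hampe hampl using hamp
  -- the paths of commuting unitaries
  let V : ∀ n, X → Equiv.Perm (E (N n + 1)) := fun n x => (σ (N n) x)⁻¹ * amp n (σ n x)
  have hγ := fun n x => path_of_finite_order (permU (E (N n + 1)) (V n x)) (orderOf (V n x))
    (orderOf_pos _) (by rw [← map_pow, pow_orderOf_eq_one, map_one])
  choose γ hγc hγ0 hγ1 hγB using hγ
  let u : ∀ n, X → unitInterval → unitary (MM (E (N n + 1)) ℂ) := fun n x t =>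
    permU (E (N n + 1)) (σ (N n) x) * γ n x t
  have hampσ : ∀ n x m, c x ≤ n → m ∈ E n → amp n (σ n x) * lam (N n) m =
      lam (N n) (f (FreeGroup.of x) * m * (f (FreeGroup.of x))⁻¹) * amp n (σ n x) := by
    intro n x m hcx hm
    have hm1 := hEm n hm
    have hm2 := (hEx n x hcx).1 m hm
    rw [hlam (N n) m (hle n hm1), hlam (N n) _ (hle n hm2)]
    ext z
    have := hampe n (σ n x) m _ hm1 hm2 (fun z => by
      apply Subtype.ext
      exact hσ n x hcx m hm z) z
    exact congrArg Subtype.val this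
  have hVl : ∀ n x m, c x ≤ n → m ∈ E n → V n x * lam (N n) m = lam (N n) m * V n x := by
    intro n x m hcx hm
    have h1 := hampσ n x m hcx hm
    have h2 := hσl (N n) x m (hcx.trans (hNn n)) (hmono (hNn n) hm)
    show (σ (N n) x)⁻¹ * amp n (σ n x) * lam (N n) m = lam (N n) m * ((σ (N n) x)⁻¹ * amp n (σ n x))
    rw [mul_assoc, h1, ← mul_assoc, ← mul_assoc]
    congr 1
    rw [inv_mul_eq_iff_eq_mul, ← mul_assoc, h2, mul_inv_cancel_right]
  have hγl : ∀ n x m, c x ≤ n → m ∈ E n → ∀ t,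
      γ n x t * permU _ (lam (N n) m) = permU _ (lam (N n) m) * γ n x t := by
    intro n x m hcx hm t
    have h1 := hγB n x (permU _ (lam (N n) m) : MM (E (N n + 1)) ℂ) (by
      have h2 := congrArg (fun s => ((permU (E (N n + 1)) s : unitary (MM (E (N n + 1)) ℂ)) :
        MM (E (N n + 1)) ℂ))
        (hVl n x m hcx hm)
      simp only [map_mul] at h2
      exact h2.symm) t
    exact Subtype.ext h1.symm
  obtain ⟨Φ, hΦ1, hΦm, hΦd⟩ := exists_asymptotic_hom Λ L hΛL f hf hdec hfree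
    (fun n => unitInterval → unitary (MM (E (N n + 1)) ℂ))
    (fun n m _ => permU _ (lam (N n) m)) u
    (fun n => by
      funext t
      show permU _ (lam (N n) 1) = 1
      rw [hlam1, map_one])
    (fun m hm m' hm' => by
      filter_upwards [hevE m hm, hevE m' hm'] with n h h'
      funext t
      show permU _ (lam (N n) (m * m')) = permU _ (lam (N n) m) * permU _ (lam (N n) m')
      rw [hlamm (N n) m m' (hle n (hEm n h)) (hle n (hEm n h')), map_mul])
    (fun x m hm => by
      filter_upwards [hevE m hm, eventually_ge_atTop (c x)] with n h h'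
      funext t
      show permU _ (σ (N n) x) * γ n x t * permU _ (lam (N n) m) *
        (permU _ (σ (N n) x) * γ n x t)⁻¹ = permU _ (lam (N n) _)
      have h1 := hσl (N n) x m (h'.trans (hNn n)) (hmono (hNn n) h)
      have h2 : permU _ (σ (N n) x) * permU _ (lam (N n) m) = permU _ (lam (N n)
          (f (FreeGroup.of x) * m * (f (FreeGroup.of x))⁻¹)) * permU _ (σ (N n) x) := by
        rw [← map_mul, h1, map_mul]
      have h3 : ∀ a b d e : unitary (MM (E (N n + 1)) ℂ), a * b = d * a → e * b = b * e →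
          a * e * b * (a * e)⁻¹ = d := by
        intro a b d e hab heb
        have e1 : a * e * b * (a * e)⁻¹ = a * (e * b) * e⁻¹ * a⁻¹ := by group
        have e2 : a * (b * e) * e⁻¹ * a⁻¹ = a * b * a⁻¹ := by group
        rw [e1, heb, e2, hab, mul_inv_cancel_right]
      exact h3 _ _ _ _ h2 (hγl n x m h' h t))
  have hliftc : ∀ n (w : FreeGroup X), Continuous fun t =>
      ((FreeGroup.lift (u n) w : unitInterval → unitary (MM (E (N n + 1)) ℂ)) t :
        MM (E (N n + 1)) ℂ) := by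
    intro n w
    have hof : ∀ x, Continuous fun t => ((FreeGroup.lift (u n) (FreeGroup.of x) :
        unitInterval → unitary (MM (E (N n + 1)) ℂ)) t : MM (E (N n + 1)) ℂ) := by
      intro x
      rw [FreeGroup.lift_apply_of]
      exact continuous_const.mul (hγc n x)
    induction w using FreeGroup.induction_on with
    | C1 =>
      rw [map_one]
      exact continuous_const
    | of x => exact hof x
    | inv_of x _ =>
      rw [map_inv]
      exact continuous_star.comp (hof x)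
    | mul x y hx hy =>
      rw [map_mul]
      exact hx.mul hy
  have hΦc : ∀ n l, Continuous fun t => (Φ n l t : MM (E (N n + 1)) ℂ) := by
    intro n l
    obtain ⟨m, hm, w, hw⟩ := hdec l l.2
    rw [hΦd n l m w hm hw]
    exact continuous_const.mul (hliftc n w)
  have hlift0 : ∀ n (w : FreeGroup X), (FreeGroup.lift (u n) w :
      unitInterval → unitary (MM (E (N n + 1)) ℂ)) 0 =
        permU _ (FreeGroup.lift (σ (N n)) w) := by
    intro n w
    have : (Pi.evalMonoidHom (fun _ : unitInterval => unitary (MM (E (N n + 1)) ℂ)) 0).comp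
        (FreeGroup.lift (u n)) = (permU (E (N n + 1))).comp (FreeGroup.lift (σ (N n))) := by
      ext1 x
      show (FreeGroup.lift (u n) (FreeGroup.of x) : unitInterval → _) 0 =
        permU _ (FreeGroup.lift (σ (N n)) (FreeGroup.of x))
      rw [FreeGroup.lift_apply_of, FreeGroup.lift_apply_of]
      show permU _ (σ (N n) x) * γ n x 0 = _
      rw [hγ0, mul_one]
    exact DFunLike.congr_fun this w
  have hlift1 : ∀ n (w : FreeGroup X), (FreeGroup.lift (u n) w :
      unitInterval → unitary (MM (E (N n + 1)) ℂ)) 1 =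
        permU _ (amp n (FreeGroup.lift (σ n) w)) := by
    intro n w
    have : (Pi.evalMonoidHom (fun _ : unitInterval => unitary (MM (E (N n + 1)) ℂ)) 1).comp
        (FreeGroup.lift (u n)) =
          ((permU (E (N n + 1))).comp (amp n)).comp (FreeGroup.lift (σ n)) := by
      ext1 x
      show (FreeGroup.lift (u n) (FreeGroup.of x) : unitInterval → _) 1 =
        permU _ (amp n (FreeGroup.lift (σ n) (FreeGroup.of x)))
      rw [FreeGroup.lift_apply_of, FreeGroup.lift_apply_of]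
      show permU _ (σ (N n) x) * γ n x 1 = _
      rw [hγ1, ← map_mul]
      show permU _ (σ (N n) x * ((σ (N n) x)⁻¹ * amp n (σ n x))) = _
      rw [mul_inv_cancel_left]
    exact DFunLike.congr_fun this w
  have hΦ0 : ∀ n l, Φ n l 0 = permU _ (φ (N n) l) := by
    intro n l
    obtain ⟨m, hm, w, hw⟩ := hdec l l.2
    rw [hΦd n l m w hm hw, hφd (N n) l m w hm hw, map_mul, ← hlift0]
    rfl
  have hΦ1' : ∀ l, ∀ᶠ n in atTop, Φ n l 1 = mapU (α n) (permU _ (φ n l)) := by
    intro l
    obtain ⟨m, hm, w, hw⟩ := hdec l l.2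
    filter_upwards [hevE m hm] with n hn
    rw [hΦd n l m w hm hw, hφd n l m w hm hw, hαp, map_mul, map_mul, ← hlift1,
      hlam n m (hEm n hn), hampl, ← hlam (N n) m (hle n (hEm n hn))]
    rfl
  -- comparison
  have hNt : Tendsto N atTop atTop := tendsto_atTop_mono hNn tendsto_id
  let ρ' : ∀ n, G →* unitary (MM (G ⧸ L) (MM (E (N n + 1)) ℂ)) := fun n =>
    (mapU (mapMM (Q := G ⧸ L) (α n))).comp (ρ n)
  have key := compare_traces hG L (Λ : Set G) (by
      intro n _ _ r m hm
      have hfin : (Subgroup.closure {m} : Set G).Finite := hΛ {m} (Set.finite_singleton m) (by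
        rintro _ rfl
        exact hm)
      have h1 : IsOfFinOrder m := by
        have : Finite (Subgroup.zpowers m) := by
          rw [Subgroup.zpowers_eq_closure]
          exact hfin
        exact isOfFinOrder_iff_pow_eq_one.2 (by
          have h2 := isOfFinOrder_of_finite (⟨m, Subgroup.mem_zpowers m⟩ : Subgroup.zpowers m)
          obtain ⟨e, he, he'⟩ := isOfFinOrder_iff_pow_eq_one.1 h2
          exact ⟨e, he, congrArg Subtype.val he'⟩)
      obtain ⟨e, he, he'⟩ := isOfFinOrder_iff_pow_eq_one.1 h1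
      exact ⟨e, he, by rw [← map_pow, he', map_one]⟩)
    (fun n => E (N n + 1)) Φ hΦc (fun n t => congrFun (hΦ1 n) t)
    (fun a b => (hΦm a b).mono fun n hn t => congrFun hn t)
    (fun n => ρ (N n)) ρ'
    (by
      intro a
      have := (hρ a).comp hNt
      refine this.congr fun n => ?_
      simp only [Function.comp]
      congr 2
      congr 1
      funext l
      rw [hΦ0])
    (by
      intro a
      refine squeeze_zero' (Eventually.of_forall fun _ => norm_nonneg _) ?_ (hρ a)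
      have h1 : ∀ᶠ n in atTop, ∀ q : G ⧸ L, Φ n (lc L a q) 1 = mapU (α n) (permU _ (φ n (lc L a q))) :=
        eventually_all.2 fun q => hΦ1' _
      filter_upwards [h1] with n hn
      have h2 : Ind L (fun l => (Φ n l 1 : MM (E (N n + 1)) ℂ)) a =
          mapMM (α n) (Ind L (fun l => (permU _ (φ n l) : MM (E (n + 1)) ℂ)) a) := by
        unfold Ind
        rw [mapMM_mono]
        congr 1
        funext q
        show (Φ n (lc L a q) 1 : MM (E (N n + 1)) ℂ) = _
        rw [hn q]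
        rfl
      rw [h2]
      have h3 : (ρ' n a : MM (G ⧸ L) (MM (E (N n + 1)) ℂ)) =
          mapMM (α n) (ρ n a : MM (G ⧸ L) (MM (E (n + 1)) ℂ)) := rfl
      rw [h3, ← map_sub]
      exact NonUnitalStarAlgHom.norm_apply_le (mapMM (α n)) _)
  obtain ⟨n, hn⟩ := key.exists
  have hn' := hn (g n) (hgΛ n)
  -- the three traces
  set P : ℝ := (Fintype.card (G ⧸ L) : ℝ) * (Fintype.card (E (N n + 1)) : ℝ) with hP
  have hP0 : 0 < P := by
    rw [hP]
    have h1 : 0 < Fintype.card (G ⧸ L) := Fintype.card_pos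
    have h2 : 0 < Fintype.card (E (N n + 1)) := Fintype.card_pos
    positivity
  have t1 : ‖(flat (G ⧸ L) (E (N n + 1)) (ρ (N n) (g n) : MM (G ⧸ L) (MM (E (N n + 1)) ℂ))).trace‖ ≤
      1 / 10 * P := by
    have h1 := trace_close (ρ (N n) (g n) : MM (G ⧸ L) (MM (E (N n + 1)) ℂ))
      (Ind L (fun l => (permU (E (N n + 1)) (φ (N n) l) : MM (E (N n + 1)) ℂ)) (g n))
    have h2 : (flat (G ⧸ L) (E (N n + 1))
        (Ind L (fun l => (permU (E (N n + 1)) (φ (N n) l) : MM (E (N n + 1)) ℂ)) (g n))).trace = 0 := by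
      rw [trace_flat]
      refine Finset.sum_eq_zero fun q _ => Finset.sum_eq_zero fun z _ => ?_
      have h3 : q = g n • q := by
        conv_lhs => rw [← rp_mk L q]
        conv_rhs => rw [← rp_mk L q]
        show ((rp L q : G) : G ⧸ L) = ((g n * rp L q : G) : G ⧸ L)
        rw [QuotientGroup.eq, ← mul_assoc]
        exact hΛL (hcg n q)
      rw [Ind_apply, if_pos h3]
      have h4 : (lc L (g n) q : G) = ((rp L q)⁻¹ * g n * rp L q) * f 1 := by
        rw [coe_lc, ← h3, map_one, mul_one, mul_assoc]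
      rw [hφd (N n) _ _ _ (hcg n q) h4, map_one, mul_one, permU_apply, if_neg]
      rw [hlam (N n) _ (hNE n q)]
      intro h5
      have h6 : (z : G) = (rp L q)⁻¹ * g n * rp L q * z := congrArg Subtype.val h5
      have h7 : (rp L q)⁻¹ * g n * rp L q = 1 := by
        rwa [eq_comm, mul_eq_right] at h6
      apply hg1 n
      have h8 : g n = rp L q * ((rp L q)⁻¹ * g n * rp L q) * (rp L q)⁻¹ := by group
      rw [h8, h7]
      group
    rw [h2, sub_zero] at h1
    refine h1.trans ?_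
    exact mul_le_mul_of_nonneg_right (hNρ n) hP0.le
  have t2 : ‖(flat (G ⧸ L) (E (n + 1)) (ρ n (g n) : MM (G ⧸ L) (MM (E (n + 1)) ℂ))).trace -
      (Fintype.card (G ⧸ L) : ℂ) * (Fintype.card (E (n + 1)) : ℂ)‖ ≤
        1 / 10 * ((Fintype.card (G ⧸ L) : ℝ) * (Fintype.card (E (n + 1)) : ℝ)) := by
    have h1 := trace_close (ρ n (g n) : MM (G ⧸ L) (MM (E (n + 1)) ℂ)) 1
    have h2 : (flat (G ⧸ L) (E (n + 1)) 1).trace =
        (Fintype.card (G ⧸ L) : ℂ) * (Fintype.card (E (n + 1)) : ℂ) := by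
      rw [map_one, Matrix.trace_one, Fintype.card_prod]
      push_cast
      ring
    rw [h2] at h1
    refine h1.trans ?_
    exact mul_le_mul_of_nonneg_right (hgn n) (by positivity)
  have t3 : (flat (G ⧸ L) (E (N n + 1)) (ρ' n (g n) :
      MM (G ⧸ L) (MM (E (N n + 1)) ℂ))).trace = (k n : ℂ) *
        (flat (G ⧸ L) (E (n + 1)) (ρ n (g n) : MM (G ⧸ L) (MM (E (n + 1)) ℂ))).trace := by
    rw [trace_flat, trace_flat, Finset.mul_sum]
    refine Finset.sum_congr rfl fun q _ => ?_
    exact htr n _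
  rw [t3] at hn'
  rw [hn'] at t1
  have hkP : P = (k n : ℝ) * ((Fintype.card (G ⧸ L) : ℝ) * (Fintype.card (E (n + 1)) : ℝ)) := by
    rw [hP, hcard n]
    push_cast
    ring
  have hk0 : (0 : ℝ) ≤ (k n : ℝ) := Nat.cast_nonneg _
  have t4 : ‖(k n : ℂ) * (flat (G ⧸ L) (E (n + 1))
      (ρ n (g n) : MM (G ⧸ L) (MM (E (n + 1)) ℂ))).trace - (P : ℂ)‖ ≤ 1 / 10 * P := by
    have h1 : (k n : ℂ) * (flat (G ⧸ L) (E (n + 1))
        (ρ n (g n) : MM (G ⧸ L) (MM (E (n + 1)) ℂ))).trace - (P : ℂ) = (k n : ℂ) *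
          ((flat (G ⧸ L) (E (n + 1)) (ρ n (g n) : MM (G ⧸ L) (MM (E (n + 1)) ℂ))).trace -
            (Fintype.card (G ⧸ L) : ℂ) * (Fintype.card (E (n + 1)) : ℂ)) := by
      rw [hkP]
      push_cast
      ring
    rw [h1, norm_mul, Complex.norm_natCast]
    refine (mul_le_mul_of_nonneg_left t2 hk0).trans (le_of_eq ?_)
    rw [hkP]
    ring
  have t5 : ‖(P : ℂ)‖ ≤ 1 / 10 * P + 1 / 10 * P := by
    have h1 : (P : ℂ) = (k n : ℂ) * (flat (G ⧸ L) (E (n + 1))
        (ρ n (g n) : MM (G ⧸ L) (MM (E (n + 1)) ℂ))).trace - ((k n : ℂ) * (flat (G ⧸ L) (E (n + 1))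
        (ρ n (g n) : MM (G ⧸ L) (MM (E (n + 1)) ℂ))).trace - (P : ℂ)) := by ring
    rw [h1]
    exact (norm_sub_le _ _).trans (add_le_add t1 t4)
  rw [Complex.norm_real, Real.norm_of_nonneg hP0.le] at t5
  linarith

end Pool.Agent.Helper72CS
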