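-- both targets proved
import Pool.Agent.Helper72_CS.Grp

/-!
Torsion and rationality from rank one.
-/

set_option autoImplicit false

open Set Filter Topology

noncomputable section

namespace Pool.Agent.Helper72CS

/-- an element of infinite order of an abelian group is not killed by some homomorphism to `ℝ` -/
theorem exists_hom_real {A : Type} [AddCommGroup A] (t : A) (ht : ∀ e : ℕ, 0 < e → e • t ≠ 0) :
    ∃ φ : A →ₗ[ℤ] ℝ, φ t = 1 := by
  have hinj : Function.Injective (LinearMap.toSpanSingleton ℤ A t) := by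
    rw [injective_iff_map_eq_zero]
    intro n hn
    rw [LinearMap.toSpanSingleton_apply] at hn
    by_contra h
    have h1 : n.natAbs • t = 0 := by
      obtain ⟨m, hm | hm⟩ := n.eq_nat_or_neg
      · rw [hm, natCast_zsmul] at hn
        rw [hm, Int.natAbs_natCast]
        exact hn
      · rw [hm, neg_smul, natCast_zsmul, neg_eq_zero] at hn
        rw [hm, Int.natAbs_neg, Int.natAbs_natCast]
        exact hn
    exact ht _ (Int.natAbs_pos.2 h) h1
  obtain ⟨φ, hφ⟩ := (Module.Baer.of_divisible ℝ).injective.out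
    (LinearMap.toSpanSingleton ℤ A t) hinj (LinearMap.toSpanSingleton ℤ ℝ 1)
  refine ⟨φ, ?_⟩
  have h := hφ 1
  rwa [LinearMap.toSpanSingleton_apply, LinearMap.toSpanSingleton_apply, one_smul, one_smul] at h

/-- TARGET 1 -/
theorem tor_of_rank {G : Type} [Group G] (K : Subgroup G) (x : G → ℝ) (hx : HomOn K x)
    (hab : ∀ (n : Type) [Fintype n] [DecidableEq n] (ρ : G →* unitary (Matrix n n ℂ)),
      ∃ L : Subgroup G, L.Normal ∧ L.FiniteIndex ∧ L ≤ K ∧ ∀ a ∈ L, ∀ b ∈ L, ρ (a * b) = ρ (b * a))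
    (hrk : ∀ L : Subgroup G, L ≤ K → L.Normal → L.FiniteIndex → ∀ y : G → ℝ, HomOn L y →
      ∃ c : ℝ, ∀ a ∈ L, y a = c * x a)
    (M : Subgroup G) (hM : ∀ m, m ∈ M ↔ m ∈ K ∧ x m = 0) : Tor M := by
  classical
  intro n _ _ ρ m hm
  obtain ⟨L, hLn, hLf, hLK, hρ⟩ := hab n ρ
  obtain ⟨e, he0, -, heL⟩ := Subgroup.exists_pow_mem_of_index_ne_zero hLf.index_ne_zero m
  obtain ⟨hmK, hxm⟩ := (hM m).1 hm
  have hxg : x (m ^ e) = 0 := by rw [hx.pow hmK, hxm, mul_zero]
  let g : L := ⟨m ^ e, heL⟩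
  have key : ∃ e' : ℕ, 0 < e' ∧ e' • (Additive.ofMul (Abelianization.of g)) = 0 := by
    by_contra hcon
    push Not at hcon
    obtain ⟨φ, hφ⟩ := exists_hom_real (Additive.ofMul (Abelianization.of g)) hcon
    let y : G → ℝ := fun a => if h : a ∈ L then
      φ (Additive.ofMul (Abelianization.of (⟨a, h⟩ : L))) else 0
    have hy : HomOn L y := by
      intro a ha b hb
      have h1 : y a = φ (Additive.ofMul (Abelianization.of (⟨a, ha⟩ : L))) := dif_pos ha
      have h2 : y b = φ (Additive.ofMul (Abelianization.of (⟨b, hb⟩ : L))) := dif_pos hb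
      have h3 : y (a * b) = φ (Additive.ofMul (Abelianization.of (⟨a * b, L.mul_mem ha hb⟩ : L))) :=
        dif_pos (L.mul_mem ha hb)
      rw [h1, h2, h3, ← map_add, ← ofMul_mul, ← map_mul]
      rfl
    obtain ⟨c, hc⟩ := hrk L hLK hLn hLf y hy
    have h1 := hc _ heL
    rw [hxg, mul_zero] at h1
    have h2 : y (m ^ e) = φ (Additive.ofMul (Abelianization.of g)) := dif_pos heL
    rw [h2, hφ] at h1
    exact one_ne_zero h1
  obtain ⟨e', he', h1⟩ := key
  have h2 : Abelianization.of (g ^ e') = 1 := by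
    rw [map_pow]
    exact h1
  have h3 : g ^ e' ∈ commutator L := (QuotientGroup.eq_one_iff (g ^ e')).1 h2
  have h4 : commutator L ≤ (ρ.comp L.subtype).ker := by
    rw [commutator_def, Subgroup.commutator_le]
    intro a _ b _
    have h5 := hρ a a.2 b b.2
    rw [map_mul, map_mul] at h5
    simp only [MonoidHom.mem_ker, commutatorElement_def, map_mul, map_inv, MonoidHom.comp_apply,
      Subgroup.coe_subtype]
    rw [h5]
    group
  have h5 := h4 h3
  rw [MonoidHom.mem_ker] at h5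
  refine ⟨e * e', Nat.mul_pos he0 he', ?_⟩
  rw [pow_mul, ← map_pow, ← map_pow]
  exact h5

/-- TARGET 2 -/
theorem rational_of_rank {G : Type} [Group G] (K : Subgroup G) (x : G → ℝ) (hx : HomOn K x)
    (hrk : ∀ y : G → ℝ, HomOn K y → ∃ c : ℝ, ∀ a ∈ K, y a = c * x a)
    (a a₀ : G) (ha : a ∈ K) (ha₀ : a₀ ∈ K) (h0 : x a₀ ≠ 0) :
    ∃ N : ℕ, 0 < N ∧ ∃ k : ℤ, (N : ℝ) * x a = k * x a₀ := by
  by_cases h : x a ∈ Submodule.span ℚ {x a₀}
  · obtain ⟨q, hq⟩ := Submodule.mem_span_singleton.1 h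
    refine ⟨q.den, q.pos, q.num, ?_⟩
    rw [← hq, Rat.smul_def, ← mul_assoc]
    congr 1
    have h1 : (q : ℝ) * q.den = q.num := by exact_mod_cast Rat.mul_den_eq_num q
    rw [mul_comm]
    exact h1
  · exfalso
    obtain ⟨f, hf, hf2⟩ := Submodule.exists_dual_map_eq_bot_of_notMem h inferInstance
    have hf0 : f (x a₀) = 0 := by
      have h1 : f (x a₀) ∈ (Submodule.span ℚ {x a₀}).map f :=
        ⟨_, Submodule.mem_span_singleton_self _, rfl⟩
      rw [hf2] at h1
      exact (Submodule.mem_bot ℚ).1 h1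
    obtain ⟨c, hc⟩ := hrk (fun b => ((f (x b) : ℚ) : ℝ)) (by
      intro b hb d hd
      simp only [hx b hb d hd, map_add]
      push_cast
      ring)
    have h1 := hc a₀ ha₀
    simp only [hf0] at h1
    have hc0 : c = 0 := by
      have h2 : c * x a₀ = 0 := by rw [← h1]; simp
      exact (mul_eq_zero.1 h2).resolve_right h0
    have h2 := hc a ha
    rw [hc0, zero_mul] at h2
    exact hf (by exact_mod_cast h2)

end Pool.Agent.Helper72CS
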