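import Pool.Agent.Helper72_CS.LS
import Pool.Agent.Helper72_CS.AbImage
import Pool.Agent.Helper72_CS.TraceRigid
import Pool.Agent.Helper72_CS.ClaimA
import Pool.Agent.Helper72_CS.Chars
import Pool.Agent.Helper72_CS.TorRank
import Pool.Agent.Helper72_CS.CycImage
import Pool.Agent.Helper72_CS.Fin3
import Pool.Agent.Helper72_CS.Killed
import Pool.Agent.Helper72_CS.HubComb
import Pool.Agent.Helper72_CS.HubFam
import Pool.Agent.Helper72_CS.RepNe
import Pool.Agent.Helper72_CS.Elem

/-!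
# Virtually solvable `C*`-stable groups are finitely generated and virtually cyclic
-/

set_option autoImplicit false

open Set Filter Topology

noncomputable section

namespace Pool.Agent.Helper72CS

theorem Tor.mono {G : Type} [Group G] {M N : Subgroup G} (h : Tor M) (hN : N ≤ M) : Tor N :=
  fun n _ _ ρ m hm => h n ρ m (hN hm)

/-- characters near `1` are trivial on rigid normal subgroups -/
theorem claimA' {G : Type} [Group G] [Countable G] (hG : CStarStable G) (L : Subgroup G)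
    [L.FiniteIndex] (N : Subgroup G) [N.Normal] (hNL : N ≤ L) (hN : Tor N) :
    (⁅L, L⁆).relIndex N ≠ 0 :=
  finite_ab chars_countable.1 L N hNL fun χ hχ =>
    claimA trace_rigid.1 trace_rigid.2 hG L N hNL hN χ hχ

theorem mem_sup_zpowers {G : Type} [Group G] (N : Subgroup G) [N.Normal] (t l : G)
    (hl : l ∈ N ⊔ Subgroup.zpowers t) : ∃ m ∈ N, ∃ e : ℤ, l = m * t ^ e := by
  obtain ⟨m, hm, z, hz, rfl⟩ := (Subgroup.mem_sup_of_normal_left).1 hl
  obtain ⟨e, rfl⟩ := Subgroup.mem_zpowers_iff.1 hz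
  exact ⟨m, hm, e, rfl⟩

/-- `N⟨τ^k⟩` has finite index -/
theorem sup_finiteIndex {G : Type} [Group G] (K M N : Subgroup G) [K.FiniteIndex] [N.Normal]
    (hNM : N ≤ M) (hMK : M ≤ K)
    (hrel : N.relIndex M ≠ 0) (τ : G) (hτ : τ ∈ K) (hK : ∀ a ∈ K, ∃ m ∈ M, ∃ e : ℤ, a = m * τ ^ e)
    (k : ℕ) (hk : 0 < k) : (N ⊔ Subgroup.zpowers (τ ^ k)).FiniteIndex := by
  classical
  set L := N ⊔ Subgroup.zpowers (τ ^ k) with hL
  haveI : (N.subgroupOf M).FiniteIndex := ⟨hrel⟩
  have hfin : Finite (M ⧸ N.subgroupOf M) := inferInstance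
  have h1 : L.relIndex K ≠ 0 := by
    let f : (M ⧸ N.subgroupOf M) × Fin k → K ⧸ L.subgroupOf K := fun p =>
      QuotientGroup.mk ⟨((Quotient.out p.1 : M) : G) * τ ^ (p.2 : ℕ),
        K.mul_mem (hMK (Quotient.out p.1 : M).2) (K.pow_mem hτ _)⟩
    have hf : Function.Surjective f := by
      intro q
      obtain ⟨a, rfl⟩ := QuotientGroup.mk_surjective q
      obtain ⟨m, hm, e, he⟩ := hK a a.2
      have hk' : (k : ℤ) ≠ 0 := by exact_mod_cast hk.ne'
      have hlt := Int.emod_lt_of_pos e (by exact_mod_cast hk : (0 : ℤ) < k)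
      have hnn := Int.emod_nonneg e hk'
      refine ⟨(QuotientGroup.mk ⟨m, hm⟩, ⟨(e % k).toNat, by omega⟩), ?_⟩
      show (QuotientGroup.mk _ : K ⧸ L.subgroupOf K) = _
      rw [QuotientGroup.eq, Subgroup.mem_subgroupOf]
      have h2 : (Quotient.out (QuotientGroup.mk (s := N.subgroupOf M) ⟨m, hm⟩) : M)⁻¹ * ⟨m, hm⟩ ∈
          N.subgroupOf M := by
        rw [← QuotientGroup.eq]
        exact QuotientGroup.out_eq' _
      rw [Subgroup.mem_subgroupOf] at h2
      set o : M := (Quotient.out (QuotientGroup.mk (s := N.subgroupOf M) ⟨m, hm⟩) : M)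
      have h3 : ((o : G))⁻¹ * m ∈ N := h2
      show ((o : G) * τ ^ ((e % k).toNat))⁻¹ * (a : G) ∈ L
      have h4 : (τ ^ ((e % k).toNat) : G) = τ ^ (e % k) := by
        rw [← zpow_natCast, Int.toNat_of_nonneg hnn]
      have h5 : τ ^ e = τ ^ (e % k) * (τ ^ k) ^ (e / k) := by
        rw [← zpow_natCast τ k, ← zpow_mul, ← zpow_add, Int.emod_add_mul_ediv]
      rw [he, h4, h5]
      have h6 : ((o : G) * τ ^ (e % ↑k))⁻¹ * (m * (τ ^ (e % ↑k) * (τ ^ k) ^ (e / ↑k))) =
          ((τ ^ (e % ↑k))⁻¹ * ((o : G)⁻¹ * m) * ((τ ^ (e % ↑k))⁻¹)⁻¹) * (τ ^ k) ^ (e / ↑k) := by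
        group
      rw [h6]
      refine L.mul_mem (Subgroup.mem_sup_left ((inferInstance : N.Normal).conj_mem _ h3 _)) ?_
      exact Subgroup.mem_sup_right (Subgroup.zpow_mem _ (Subgroup.mem_zpowers _) _)
    have : Finite (K ⧸ L.subgroupOf K) := Finite.of_surjective f hf
    exact Subgroup.index_ne_zero_of_finite
  constructor
  have h2 : L.relIndex K * K.index ≠ 0 := mul_ne_zero h1 Subgroup.FiniteIndex.index_ne_zero
  have h3 : L.relIndex ⊤ ≠ 0 := by
    refine Subgroup.relIndex_ne_zero_trans h1 ?_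
    rw [Subgroup.relIndex_top_right]
    exact Subgroup.FiniteIndex.index_ne_zero
  rwa [Subgroup.relIndex_top_right] at h3

theorem Per_finite {G : Type} [Group G] [Countable G] (hG : CStarStable G) (K M N : Subgroup G)
    [K.FiniteIndex] [N.Normal] (hNM : N ≤ M) (hMK : M ≤ K) (hTor : Tor M)
    (hrel : N.relIndex M ≠ 0) (τ : G) (hτ : τ ∈ K) (hK : ∀ a ∈ K, ∃ m ∈ M, ∃ e : ℤ, a = m * τ ^ e)
    (hfree : ∀ e : ℤ, τ ^ e ∈ M → e = 0) : (Per N).Finite := by
  classical
  have hNt : Tor N := hTor.mono hNM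
  have hfix : ∀ i : ℕ, 0 < i → {y : N →* Circle | cact N (τ ^ i) y = y}.Finite := by
    intro i hi
    haveI := sup_finiteIndex K M N hNM hMK hrel τ hτ hK i hi
    have hle : N ≤ N ⊔ Subgroup.zpowers (τ ^ i) := le_sup_left
    refine per_fixed_finite N (N ⊔ Subgroup.zpowers (τ ^ i)) hle (τ ^ i)
      (Subgroup.mem_sup_right (Subgroup.mem_zpowers _)) (mem_sup_zpowers N (τ ^ i)) ?_
      (claimA' hG _ N hle hNt)
    intro e he
    rw [← zpow_natCast, ← zpow_mul] at he
    have h1 := hfree _ (hNM he)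
    rcases mul_eq_zero.1 h1 with h2 | h2
    · omega
    · exact h2
  set L := N ⊔ Subgroup.zpowers τ with hL
  haveI hLf : L.FiniteIndex := by
    have := sup_finiteIndex K M N hNM hMK hrel τ hτ hK 1 one_pos
    rwa [pow_one] at this
  have hNL : N ≤ L := le_sup_left
  have hτL : τ ∈ L := Subgroup.mem_sup_right (Subgroup.mem_zpowers _)
  have hLd := mem_sup_zpowers N τ
  have hfreeN : ∀ e : ℤ, τ ^ e ∈ N → e = 0 := fun e he => hfree e (hNM he)
  refine per_finite chars_countable.2 N τ L.index hfix ?_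
  intro y k hk hper hmin hlim
  obtain ⟨j, ψ, hψ, D, hD, hdet, hbd, hdiag⟩ := hub_family hG N L hNL τ hτL hLd hfreeN y k hk hper hlim
  have hkj : 0 < k j := lt_of_le_of_lt (Nat.zero_le _) (hk j)
  haveI : Nonempty (Fin (k j)) := ⟨⟨0, hkj⟩⟩
  have hperz : ∀ e : ℤ, ∃ i : Fin (k j), cact N (τ ^ e) (y j) = cact N (τ ^ (i : ℕ)) (y j) := by
    intro e
    have hk' : ((k j : ℕ) : ℤ) ≠ 0 := by exact_mod_cast hkj.ne'
    have hlt := Int.emod_lt_of_pos e (by exact_mod_cast hkj : (0 : ℤ) < k j)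
    have hnn := Int.emod_nonneg e hk'
    have hz : ∀ d : ℤ, cact N ((τ ^ k j) ^ d) (y j) = y j := by
      have hinv : cact N (τ ^ k j)⁻¹ (y j) = y j := by
        conv_lhs => rw [← hper j]
        rw [← cact_mul, inv_mul_cancel, cact_one]
      have hn : ∀ n : ℕ, cact N ((τ ^ k j) ^ n) (y j) = y j := by
        intro n
        induction n with
        | zero => rw [pow_zero, cact_one]
        | succ n ih => rw [pow_succ, cact_mul, hper, ih]
      have hn' : ∀ n : ℕ, cact N ((τ ^ k j)⁻¹ ^ n) (y j) = y j := by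
        intro n
        induction n with
        | zero => rw [pow_zero, cact_one]
        | succ n ih => rw [pow_succ, cact_mul, hinv, ih]
      intro d
      obtain ⟨m, rfl | rfl⟩ := d.eq_nat_or_neg
      · rw [zpow_natCast, hn]
      · rw [zpow_neg, zpow_natCast, ← inv_pow, hn']
    refine ⟨⟨(e % k j).toNat, by omega⟩, ?_⟩
    have h4 : (τ ^ ((e % k j).toNat) : G) = τ ^ (e % k j) := by
      rw [← zpow_natCast, Int.toNat_of_nonneg hnn]
    have h5 : τ ^ e = τ ^ (e % k j) * (τ ^ k j) ^ (e / k j) := by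
      rw [← zpow_natCast τ (k j), ← zpow_mul, ← zpow_add, Int.emod_add_mul_ediv]
    show cact N (τ ^ e) (y j) = cact N (τ ^ ((e % k j).toNat)) (y j)
    rw [h4, h5, cact_mul, hz]
  set c : (G ⧸ L) × Fin (k j) → (N →* Circle) :=
    fun a => cact N (rp L a.1 * τ ^ (a.2 : ℕ)) (y j) with hc
  have hdvd := hub_comb trace_rigid.1 N hNt ψ hψ D hD L.index hdet hbd c hdiag
    (by
      intro a b
      refine ⟨(rp L b.1 * τ ^ (b.2 : ℕ)) * (rp L a.1 * τ ^ (a.2 : ℕ))⁻¹, ?_⟩
      rw [hc]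
      simp only
      rw [← cact_mul, inv_mul_cancel_right])
    (by
      intro a g
      have h1 : (rp L (g * (rp L a.1 * τ ^ (a.2 : ℕ)) : G))⁻¹ * (g * (rp L a.1 * τ ^ (a.2 : ℕ))) ∈ L := by
        rw [← QuotientGroup.eq, rp_mk]
      set p : G ⧸ L := ((g * (rp L a.1 * τ ^ (a.2 : ℕ)) : G) : G ⧸ L) with hp
      obtain ⟨m, hm, e, he⟩ := hLd _ h1
      obtain ⟨i, hi⟩ := hperz e
      refine ⟨(p, i), ?_⟩
      rw [hc]
      simp only
      have h2 : g * (rp L a.1 * τ ^ (a.2 : ℕ)) = rp L p * τ ^ e * ((τ ^ e)⁻¹ * m * τ ^ e) := by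
        have : g * (rp L a.1 * τ ^ (a.2 : ℕ)) = rp L p * (m * τ ^ e) := by
          rw [← he, mul_inv_cancel_left]
        rw [this]
        group
      have h3 : (τ ^ e)⁻¹ * m * τ ^ e ∈ N := by
        have := (inferInstance : N.Normal).conj_mem m hm (τ ^ e)⁻¹
        rwa [inv_inv] at this
      rw [← cact_mul, h2, cact_mul, cact_mem N _ h3, cact_mul, hi, cact_mul])
  -- the number of characters
  have hinj : Function.Injective fun i : Fin (k j) => c (((1 : G) : G ⧸ L), i) := by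
    have key : ∀ a b : Fin (k j), a < b → c (((1 : G) : G ⧸ L), a) ≠ c (((1 : G) : G ⧸ L), b) := by
      intro a b hab he
      have h1 : cact N (τ ^ (a : ℕ)) (y j) = cact N (τ ^ (b : ℕ)) (y j) := by
        have h2 := congrArg (cact N (rp L ((1 : G) : G ⧸ L))⁻¹) he
        rw [hc] at h2
        simp only [← cact_mul, inv_mul_cancel_left] at h2
        exact h2
      have h3 := congrArg (cact N (τ ^ (a : ℕ))⁻¹) h1
      rw [← cact_mul, ← cact_mul, inv_mul_cancel, cact_one] at h3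
      have h4 : (τ ^ (a : ℕ))⁻¹ * τ ^ (b : ℕ) = τ ^ ((b : ℕ) - (a : ℕ)) := by
        rw [inv_mul_eq_iff_eq_mul, ← pow_add]
        congr 1
        have : (a : ℕ) < b := hab
        omega
      rw [h4] at h3
      have hab' : (a : ℕ) < b := hab
      exact hmin j _ (by omega) (by have := b.2; omega) h3.symm
    intro a b he
    rcases lt_trichotomy a b with h | h | h
    · exact absurd he (key a b h)
    · exact h
    · exact absurd he.symm (key b a h)
  have hge : k j ≤ (Set.range c).ncard := by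
    have h1 : (Set.range fun i : Fin (k j) => c (((1 : G) : G ⧸ L), i)).ncard = k j := by
      rw [← Set.image_univ, Set.ncard_image_of_injective _ hinj, Set.ncard_univ]
      simp
    refine h1.symm.le.trans ?_
    refine Set.ncard_le_ncard ?_ (Set.finite_range c)
    rintro _ ⟨i, rfl⟩
    exact ⟨_, rfl⟩
  have hle := Nat.le_of_dvd (Nat.pos_of_ne_zero Subgroup.FiniteIndex.index_ne_zero) hdvd
  have := hk j
  omega

/-- the second case: a nonzero homomorphism -/
theorem case_one {G : Type} [Group G] [Countable G] (hG : CStarStable G) (K : Subgroup G)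
    [K.Normal] [K.FiniteIndex] [Group.IsSolvable K] (x : G → ℝ) (hx : HomOn K x)
    (hne : ∃ b ∈ K, x b ≠ 0) :
    Group.FG G ∧ ∃ H : Subgroup G, H.FiniteIndex ∧ Nonempty (H ≃* Multiplicative ℤ) := by
  obtain ⟨b₀, hb₀, hxb₀⟩ := hne
  have hrk : ∀ L : Subgroup G, L ≤ K → L.Normal → L.FiniteIndex → ∀ y : G → ℝ, HomOn L y →
      ∃ c : ℝ, ∀ a ∈ L, y a = c * x a := by
    intro L hLK hLn hLf y hy
    haveI : Group.IsSolvable L :=
      Group.isSolvable_of_isSolvable_injective (Subgroup.inclusion_injective hLK)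
    obtain ⟨e, he, he'⟩ : ∃ e : ℕ, 0 < e ∧ b₀ ^ e ∈ L := by
      refine ⟨L.index, Nat.pos_of_ne_zero Subgroup.FiniteIndex.index_ne_zero, ?_⟩
      exact Subgroup.pow_index_mem L b₀
    have h1 : x (b₀ ^ e) ≠ 0 := by
      rw [hx.pow hb₀]
      exact mul_ne_zero (by exact_mod_cast he.ne') hxb₀
    refine ⟨y (b₀ ^ e) / x (b₀ ^ e), fun a ha => ?_⟩
    have h2 := rank_one hG L x y (hx.mono hLK) hy a (b₀ ^ e) ha he'
    field_simp
    linarith
  let M : Subgroup G :=
    { carrier := {m | m ∈ K ∧ x m = 0}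
      mul_mem' := by
        rintro a b ⟨ha, ha'⟩ ⟨hb, hb'⟩
        exact ⟨K.mul_mem ha hb, by rw [hx a ha b hb, ha', hb', add_zero]⟩
      one_mem' := ⟨K.one_mem, hx.one⟩
      inv_mem' := by
        rintro a ⟨ha, ha'⟩
        exact ⟨K.inv_mem ha, by rw [hx.inv ha, ha', neg_zero]⟩ }
  have hM : ∀ m, m ∈ M ↔ m ∈ K ∧ x m = 0 := fun m => Iff.rfl
  have hMK : M ≤ K := fun m hm => hm.1
  haveI hMn : M.Normal := by
    constructor
    intro m hm g
    refine ⟨(inferInstance : K.Normal).conj_mem m hm.1 g, ?_⟩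
    obtain ⟨c, hc⟩ := hrk K le_rfl inferInstance inferInstance (fun l => x (g * l * g⁻¹)) (by
      intro a ha b hb
      show x (g * (a * b) * g⁻¹) = x (g * a * g⁻¹) + x (g * b * g⁻¹)
      rw [← hx _ ((inferInstance : K.Normal).conj_mem a ha g) _
        ((inferInstance : K.Normal).conj_mem b hb g)]
      congr 1
      group)
    have h1 := hc m hm.1
    rw [hm.2, mul_zero] at h1
    exact h1
  haveI : Group.IsSolvable M :=
    Group.isSolvable_of_isSolvable_injective (Subgroup.inclusion_injective hMK)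
  have hTor : Tor M := tor_of_rank K x hx (fun n _ _ ρ => exists_abelian_image K ρ) hrk M hM
  have hrat : ∀ a ∈ K, ∀ b ∈ K, x b ≠ 0 → ∃ N : ℕ, 0 < N ∧ ∃ k : ℤ, (N : ℝ) * x a = k * x b :=
    fun a ha b hb h0 => rational_of_rank K x hx (hrk K le_rfl inferInstance inferInstance) a b ha hb h0
  obtain ⟨τ, hτ, hτx⟩ := cyclic_image trace_rigid.1 trace_rigid.2 hG K x hx M hM hTor hrat
    ⟨b₀, hb₀, hxb₀⟩
  have hτ0 : x τ ≠ 0 := by
    intro h0
    obtain ⟨k, hk⟩ := hτx b₀ hb₀
    rw [h0, mul_zero] at hk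
    exact hxb₀ hk
  have hKd : ∀ a ∈ K, ∃ m ∈ M, ∃ e : ℤ, a = m * τ ^ e := by
    intro a ha
    obtain ⟨k, hk⟩ := hτx a ha
    refine ⟨a * (τ ^ k)⁻¹, ⟨K.mul_mem ha (K.inv_mem (K.zpow_mem hτ k)), ?_⟩, k, by group⟩
    rw [hx _ ha _ (K.inv_mem (K.zpow_mem hτ k)), hx.inv (K.zpow_mem hτ k), hx.zpow hτ, hk]
    ring
  have hfree : ∀ e : ℤ, τ ^ e ∈ M → e = 0 := by
    intro e he
    have h1 := he.2
    rw [hx.zpow hτ] at h1
    rcases mul_eq_zero.1 h1 with h2 | h2
    · exact_mod_cast h2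
    · exact absurd h2 hτ0
  have hPer : ∀ (N : Subgroup G) [N.Normal], N ≤ M → N.relIndex M ≠ 0 → (Per N).Finite :=
    fun N _ hNM hrel => Per_finite hG K M N hNM hMK hTor hrel τ hτ hKd hfree
  have hfin : ∀ (n : Type) [Fintype n] [DecidableEq n] (ρ : G →* unitary (Matrix n n ℂ)),
      (ρ '' (M : Set G)).Finite := by
    intro n _ _ ρ
    obtain ⟨L, hLn, hLf, -, hLc⟩ := exists_abelian_image K ρ
    exact finite_image M hPer ρ L hLc
  obtain ⟨N, hNn, hNM, hrel, hkill⟩ := exists_killed M hPer hfin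
  have hN : N = ⊥ := by
    by_contra hne
    haveI : Group.IsSolvable N :=
      Group.isSolvable_of_isSolvable_injective (Subgroup.inclusion_injective hNM)
    haveI hLf : (N ⊔ Subgroup.zpowers τ).FiniteIndex := by
      have := sup_finiteIndex K M N hNM hMK hrel τ hτ hKd 1 one_pos
      rwa [pow_one] at this
    obtain ⟨n, i1, i2, ρ, m, hm, hρ⟩ := exists_rep_ne hG N (N ⊔ Subgroup.zpowers τ) le_sup_left hne τ
      (Subgroup.mem_sup_right (Subgroup.mem_zpowers _)) (mem_sup_zpowers N τ)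
      (fun e he => hfree e (hNM he))
    exact hρ (hkill n ρ m hm)
  have hMfin : Finite M := by
    rw [hN, Subgroup.relIndex_bot_left] at hrel
    exact Nat.finite_of_card_ne_zero hrel
  refine virtually_cyclic_of_finite K M hMfin τ hτ hKd fun e he => hfree e ?_
  rw [he]
  exact M.one_mem

/-- **Virtually solvable `C*`-stable groups** are finitely generated, and finite or virtually infinite
cyclic. -/
theorem main_solvable {G : Type} [Group G] [Countable G] (hG : CStarStable G) (K : Subgroup G)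
    [K.FiniteIndex] [Group.IsSolvable K] :
    Group.FG G ∧ ∃ H : Subgroup G, H.FiniteIndex ∧ (H = ⊥ ∨ Nonempty (H ≃* Multiplicative ℤ)) := by
  haveI : Group.IsSolvable K.normalCore :=
    Group.isSolvable_of_isSolvable_injective (Subgroup.inclusion_injective K.normalCore_le)
  by_cases hcase : ∃ L : Subgroup G, L ≤ K.normalCore ∧ L.Normal ∧ L.FiniteIndex ∧ ∃ y : G → ℝ,
      HomOn L y ∧ ∃ b ∈ L, y b ≠ 0
  · obtain ⟨L, hLK, hLn, hLf, y, hy, hne⟩ := hcase
    haveI : Group.IsSolvable L :=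
      Group.isSolvable_of_isSolvable_injective (Subgroup.inclusion_injective hLK)
    obtain ⟨h1, H, h2, h3⟩ := case_one hG L y hy hne
    exact ⟨h1, H, h2, Or.inr h3⟩
  · push_neg at hcase
    have hTor : Tor K.normalCore := tor_of_rank K.normalCore (fun _ => 0)
      (fun _ _ _ _ => by simp) (fun n _ _ ρ => exists_abelian_image K.normalCore ρ)
      (fun L hLK hLn hLf y hy => ⟨0, fun a ha => by rw [hcase L hLK hLn hLf y hy a ha]; simp⟩)
      K.normalCore (fun m => by simp)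
    have hfin : Finite G := finite_of_abelianizations K.normalCore fun L hLK hLn hLf =>
      claimA' hG L L le_rfl (hTor.mono hLK)
    exact ⟨inferInstance, ⊥, inferInstance, Or.inl rfl⟩

end Pool.Agent.Helper72CS
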