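import Pool.Agent.Helper72_CS.Defs2

/-!
JOB ps_ea: elementary amenable groups (`IsEA`, an inductive predicate in `Pool/Agent/Helper72_CS/Defs2.lean`) satisfy `PS`. The closure properties of `PS` are given
as hypotheses (they are proved in other files).
-/

set_option autoImplicit false

open Set Filter Topology

noncomputable section

namespace Pool.Agent.Helper72CS

/-- the kernel of the restriction of a homomorphism to a preimage -/
def ps_ea_ker {G Q : Type} [Group G] [Group Q] (π : G →* Q) (S : Subgroup Q) :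
    π.ker ≃* (π.subgroupComap S).ker where
  toFun g := ⟨⟨g.1, by
    rw [Subgroup.mem_comap, (MonoidHom.mem_ker).mp g.2]; exact S.one_mem⟩, by
    rw [MonoidHom.mem_ker]
    apply Subtype.ext
    exact (MonoidHom.mem_ker).mp g.2⟩
  invFun g := ⟨g.1.1, by
    rw [MonoidHom.mem_ker]
    exact congrArg Subtype.val ((MonoidHom.mem_ker).mp g.2)⟩
  left_inv g := rfl
  right_inv g := rfl
  map_mul' a b := rfl

/-- extensions with quotient `Q` preserve `PS` -/
def PsGood (Q : Type) [Group Q] : Prop :=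
  ∀ (G : Type) [Group G] (π : G →* Q), Function.Surjective π → PS π.ker → PS G

theorem psGood_comap
    (h5 : ∀ (G H : Type) [Group G] [Group H], (G ≃* H) → PS G → PS H)
    {G Q : Type} [Group G] [Group Q] (π : G →* Q) (hπ : Function.Surjective π)
    (hker : PS π.ker) (S : Subgroup Q) (hS : PsGood S) : PS (S.comap π) := by
  refine hS (S.comap π) (π.subgroupComap S) ?_ (h5 _ _ (ps_ea_ker π S) hker)
  intro y
  obtain ⟨x, hx⟩ := hπ y.1
  refine ⟨⟨x, ?_⟩, Subtype.ext hx⟩
  rw [Subgroup.mem_comap, hx]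
  exact y.2

theorem psGood_ea
    (h1 : ∀ (G : Type) [Group G] (N : Subgroup G) [N.Normal], Finite (G ⧸ N) → PS N → PS G)
    (h2 : ∀ (G : Type) [Group G] (N : Subgroup G) [N.Normal],
      (∀ a b : G, a * b * a⁻¹ * b⁻¹ ∈ N) → PS N → PS G)
    (h3 : ∀ (G : Type) [Group G] (ι : Type) (H : ι → Subgroup G),
      (∀ i j, ∃ k, H i ≤ H k ∧ H j ≤ H k) → (∀ g : G, ∃ i, g ∈ H i) → (∀ i, PS (H i)) → PS G)
    (h5 : ∀ (G H : Type) [Group G] [Group H], (G ≃* H) → PS G → PS H)
    {Q : Type} [Group Q] (hQ : IsEA Q) : PsGood Q := by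
  induction hQ with
  | finite Q h =>
    intro G _ π hπ hker
    have : Finite (G ⧸ π.ker) :=
      Finite.of_equiv Q (QuotientGroup.quotientKerEquivOfSurjective π hπ).symm.toEquiv
    exact h1 G π.ker this hker
  | comm Q h =>
    intro G _ π hπ hker
    refine h2 G π.ker (fun a b => ?_) hker
    rw [MonoidHom.mem_ker]
    simp only [map_mul, map_inv]
    rw [h (π a) (π b)]
    group
  | ext Q M _ _ ih1 ih2 =>
    intro G _ π hπ hker
    have hM := psGood_comap h5 π hπ hker M ih1
    refine ih2 G ((QuotientGroup.mk' M).comp π)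
      ((QuotientGroup.mk'_surjective M).comp hπ) ?_
    have : ((QuotientGroup.mk' M).comp π).ker = M.comap π := by
      rw [← MonoidHom.comap_ker, QuotientGroup.ker_mk']
    rw [this]
    exact hM
  | union Q ι H hdir hcov _ ih =>
    intro G _ π hπ hker
    refine h3 G ι (fun i => (H i).comap π) (fun i j => ?_) (fun g => ?_)
      (fun i => psGood_comap h5 π hπ hker (H i) (ih i))
    · obtain ⟨k, hk1, hk2⟩ := hdir i j
      exact ⟨k, Subgroup.comap_mono hk1, Subgroup.comap_mono hk2⟩
    · obtain ⟨i, hi⟩ := hcov (π g)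
      exact ⟨i, hi⟩

/-- TARGET -/
theorem ps_ea
    (h1 : ∀ (G : Type) [Group G] (N : Subgroup G) [N.Normal], Finite (G ⧸ N) → PS N → PS G)
    (h2 : ∀ (G : Type) [Group G] (N : Subgroup G) [N.Normal],
      (∀ a b : G, a * b * a⁻¹ * b⁻¹ ∈ N) → PS N → PS G)
    (h3 : ∀ (G : Type) [Group G] (ι : Type) (H : ι → Subgroup G),
      (∀ i j, ∃ k, H i ≤ H k ∧ H j ≤ H k) → (∀ g : G, ∃ i, g ∈ H i) → (∀ i, PS (H i)) → PS G)
    (h4 : ∀ (G : Type) [Group G], Subsingleton G → PS G)
    (h5 : ∀ (G H : Type) [Group G] [Group H], (G ≃* H) → PS G → PS H)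
    {G : Type} [Group G] (hG : IsEA G) : PS G := by
  refine psGood_ea h1 h2 h3 h5 hG G (MonoidHom.id G) Function.surjective_id ?_
  apply h4
  refine ⟨fun a b => Subtype.ext ?_⟩
  have ha := (MonoidHom.mem_ker).mp a.2
  have hb := (MonoidHom.mem_ker).mp b.2
  exact ha.trans hb.symm

end Pool.Agent.Helper72CS
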