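import Pool.Agent.Helper72_CS.Defs2

/-!
A finite extension of a group with the property `PS` has the property `PS`.
-/

set_option autoImplicit false

open Set Filter Topology

noncomputable section

namespace Pool.Agent.Helper72CS

section PsFE

variable {A : Type} [CStarAlgebra A]

theorem psfe_conj_norm (u w : unitary A) :
    ‖((u * w * u⁻¹ : unitary A) : A) - 1‖ = ‖(w : A) - 1‖ := by
  have e : ((u * w * u⁻¹ : unitary A) : A) - 1 = (u : A) * ((w : A) - 1) * ((u⁻¹ : unitary A) : A) := by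
    have h1 : (u : A) * ((u⁻¹ : unitary A) : A) = 1 := by
      have : u * u⁻¹ = 1 := by group
      have h3 : ((u * u⁻¹ : unitary A) : A) = ((1 : unitary A) : A) := by rw [this]
      exact h3
    have h2 : ((u * w * u⁻¹ : unitary A) : A) = (u : A) * (w : A) * ((u⁻¹ : unitary A) : A) := rfl
    rw [h2, mul_sub, sub_mul, mul_one, h1]
  rw [e, CStarRing.norm_mul_coe_unitary, CStarRing.norm_coe_unitary_mul]

theorem psfe_inv_mul_norm (u w : unitary A) :
    ‖((u⁻¹ * w : unitary A) : A) - 1‖ = ‖(w : A) - u‖ := by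
  have e : ((u⁻¹ * w : unitary A) : A) - 1 = ((u⁻¹ : unitary A) : A) * ((w : A) - u) := by
    have h1 : ((u⁻¹ : unitary A) : A) * (u : A) = 1 := by
      have : u⁻¹ * u = 1 := by group
      have h3 : ((u⁻¹ * u : unitary A) : A) = ((1 : unitary A) : A) := by rw [this]
      exact h3
    have h2 : ((u⁻¹ * w : unitary A) : A) = ((u⁻¹ : unitary A) : A) * (w : A) := rfl
    rw [h2, mul_sub, h1]
  rw [e, CStarRing.norm_coe_unitary_mul]

theorem psfe_comm_le (u v : unitary A) :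
    ‖((u * v * u⁻¹ * v⁻¹ : unitary A) : A) - 1‖ ≤ 2 * ‖(u : A) - 1‖ * ‖(v : A) - 1‖ := by
  rw [norm_comm_sub_one]
  have e : (u : A) * v - v * u = ((u : A) - 1) * ((v : A) - 1) - ((v : A) - 1) * ((u : A) - 1) := by
    noncomm_ring
  rw [e]
  refine (norm_sub_le _ _).trans ?_
  have h1 := norm_mul_le ((u : A) - 1) ((v : A) - 1)
  have h2 := norm_mul_le ((v : A) - 1) ((u : A) - 1)
  nlinarith

/-- descent step -/
theorem psfe_descent (U w : unitary A) (hw : ‖(w : A) - 1‖ ≤ 1 / 10)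
    (hc : U * (U * w * U⁻¹ * w⁻¹) = (U * w * U⁻¹ * w⁻¹) * U) : U * w * U⁻¹ * w⁻¹ = 1 := by
  obtain ⟨C, hC⟩ : ∃ C, C = U * w * U⁻¹ * w⁻¹ := ⟨_, rfl⟩
  rw [← hC] at hc ⊢
  have hcomm : Commute U C := hc
  have key : ∀ n : ℕ, U ^ n * w * (U ^ n)⁻¹ * w⁻¹ = C ^ n := by
    intro n
    induction n with
    | zero => simp
    | succ n ih =>
      have e : U ^ (n + 1) * w * (U ^ (n + 1))⁻¹ * w⁻¹ =
          U * (U ^ n * w * (U ^ n)⁻¹ * w⁻¹) * (w * U⁻¹ * w⁻¹) := by
        rw [pow_succ']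
        group
      rw [e, ih, (hcomm.pow_right n).eq, pow_succ]
      have e2 : C ^ n * U * (w * U⁻¹ * w⁻¹) = C ^ n * (U * w * U⁻¹ * w⁻¹) := by
        simp only [mul_assoc]
      rw [e2, ← hC]
  have h1 : C⁻¹ = 1 := by
    apply eq_one_of_pow_near
    intro n
    have e : C⁻¹ ^ n = w * U ^ n * w⁻¹ * (U ^ n)⁻¹ := by
      rw [inv_pow, ← key n]
      group
    rw [e]
    exact small_comm hw
  exact inv_eq_one.mp h1

end PsFE

/-- TARGET -/
theorem ps_finite_ext {G : Type} [Group G] (N : Subgroup G) [N.Normal] [Finite (G ⧸ N)]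
    (hN : PS N) : PS G := by
  intro H A _ φ S hS hsm u hu v hv
  obtain ⟨T, hT⟩ : ∃ T : Set H, T = {g : H | (g : G) ∈ N ∧ ‖(φ g : A) - 1‖ ≤ 1 / 10} := ⟨_, rfl⟩
  have hTc : ∀ g : H, ∀ t ∈ T, g * t * g⁻¹ ∈ T := by
    intro g t ht
    rw [hT] at ht ⊢
    obtain ⟨h1, h2⟩ := ht
    refine ⟨?_, ?_⟩
    · show ((g * t * g⁻¹ : H) : G) ∈ N
      have : ((g * t * g⁻¹ : H) : G) = (g : G) * t * (g : G)⁻¹ := rfl
      rw [this]
      exact (inferInstance : N.Normal).conj_mem _ h1 _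
    · show ‖(φ (g * t * g⁻¹) : A) - 1‖ ≤ 1 / 10
      rw [map_mul, map_mul, map_inv, psfe_conj_norm]
      exact h2
  -- the elements of `φ T` commute
  have hTT : ∀ a ∈ T, ∀ b ∈ T, φ a * φ b = φ b * φ a := by
    let ψ : (H.subgroupOf N) →* H :=
      { toFun := fun x => ⟨((x : N) : G), x.2⟩
        map_one' := rfl
        map_mul' := fun _ _ => rfl }
    have h := hN (H.subgroupOf N) A (φ.comp ψ) (ψ ⁻¹' T) (by
      intro g n hn
      show ψ (g * n * g⁻¹) ∈ T
      rw [map_mul, map_mul, map_inv]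
      exact hTc _ _ hn) (by
      intro n hn
      have : ψ n ∈ T := hn
      rw [hT] at this
      exact this.2)
    intro a ha b hb
    have ha' := ha
    have hb' := hb
    rw [hT] at ha' hb'
    have := h ⟨⟨(a : G), ha'.1⟩, a.2⟩ ha ⟨⟨(b : G), hb'.1⟩, b.2⟩ hb
    exact this
  obtain ⟨B, hB⟩ : ∃ B, B = Subgroup.closure T := ⟨_, rfl⟩
  have hTB : ∀ t ∈ T, t ∈ B := fun t ht => hB ▸ Subgroup.subset_closure ht
  have hBT : ∀ b ∈ B, ∀ t ∈ T, Commute (φ b) (φ t) := by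
    intro b hb t ht
    rw [hB] at hb
    induction hb using Subgroup.closure_induction with
    | mem x hx => exact hTT x hx t ht
    | one => rw [map_one]; exact Commute.one_left _
    | mul x y _ _ hx hy => rw [map_mul]; exact hx.mul_left hy
    | inv x _ hx => rw [map_inv]; exact hx.inv_left
  have hBB : ∀ b ∈ B, ∀ b' ∈ B, Commute (φ b) (φ b') := by
    intro b hb b' hb'
    rw [hB] at hb'
    induction hb' using Subgroup.closure_induction with
    | mem x hx => exact hBT b hb x hx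
    | one => rw [map_one]; exact Commute.one_right _
    | mul x y _ _ hx hy => rw [map_mul]; exact hx.mul_right hy
    | inv x _ hx => rw [map_inv]; exact hx.inv_right
  have hBconj : ∀ g : H, ∀ b ∈ B, g * b * g⁻¹ ∈ B := by
    intro g b hb
    rw [hB] at hb ⊢
    induction hb using Subgroup.closure_induction with
    | mem x hx => exact Subgroup.subset_closure (hTc g x hx)
    | one => simp
    | mul x y _ _ hx hy =>
      have e : g * (x * y) * g⁻¹ = (g * x * g⁻¹) * (g * y * g⁻¹) := by group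
      rw [e]
      exact mul_mem hx hy
    | inv x _ hx =>
      have e : g * x⁻¹ * g⁻¹ = (g * x * g⁻¹)⁻¹ := by group
      rw [e]
      exact inv_mem hx
  -- (1)
  have hSB : ∀ s ∈ S, ∀ b ∈ B, Commute (φ s) (φ b) := by
    intro s hs b hb
    apply commute_of (hsm s hs)
    have := hBB _ (hBconj s b hb) b hb
    rw [map_mul, map_mul, map_inv] at this
    exact this
  -- (2)
  obtain ⟨c, hc0, hcs⟩ : ∃ c : ℕ → H, c 0 = v ∧ ∀ i, c (i + 1) = u * c i * u⁻¹ * (c i)⁻¹ :=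
    ⟨fun n => Nat.rec v (fun _ x => u * x * u⁻¹ * x⁻¹) n, rfl, fun _ => rfl⟩
  have hφc : ∀ i, φ (c (i + 1)) = φ u * φ (c i) * (φ u)⁻¹ * (φ (c i))⁻¹ := by
    intro i
    rw [hcs, map_mul, map_mul, map_mul, map_inv, map_inv]
  have hdec : ∀ i, ‖(φ (c (i + 1)) : A) - 1‖ ≤ 1 / 5 * ‖(φ (c i) : A) - 1‖ := by
    intro i
    rw [hφc]
    refine (psfe_comm_le _ _).trans ?_
    have h1 := hsm u hu
    have h2 := norm_nonneg ((φ (c i) : A) - 1)
    nlinarith
  have hsmall : ∀ i, ‖(φ (c i) : A) - 1‖ ≤ 1 / 10 := by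
    intro i
    induction i with
    | zero => rw [hc0]; exact hsm v hv
    | succ i ih => linarith [hdec i, norm_nonneg ((φ (c i) : A) - 1)]
  have hsmall1 : ∀ i, ‖(φ (c (i + 1)) : A) - 1‖ ≤ 1 / 50 := by
    intro i
    linarith [hdec i, hsmall i]
  have hdecm : ∀ i m, ‖(φ (c (i + m)) : A) - 1‖ ≤ ‖(φ (c i) : A) - 1‖ := by
    intro i m
    induction m with
    | zero => exact le_rfl
    | succ m ih =>
      have := hdec (i + m)
      have h2 := norm_nonneg ((φ (c (i + m)) : A) - 1)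
      rw [← add_assoc]
      linarith
  obtain ⟨i, j, hij, hq⟩ : ∃ i j : ℕ, i < j ∧ (QuotientGroup.mk (c (i + 1) : G) : G ⧸ N) =
      QuotientGroup.mk (c (j + 1) : G) := by
    obtain ⟨i, j, hne, he⟩ := Finite.exists_ne_map_eq_of_infinite
      (fun i : ℕ => (QuotientGroup.mk (c (i + 1) : G) : G ⧸ N))
    rcases lt_or_gt_of_ne hne with h | h
    · exact ⟨i, j, h, he⟩
    · exact ⟨j, i, h, he.symm⟩
  rw [QuotientGroup.eq] at hq
  have hbT : (c (i + 1))⁻¹ * c (j + 1) ∈ T := by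
    rw [hT]
    refine ⟨hq, ?_⟩
    show ‖(φ ((c (i + 1))⁻¹ * c (j + 1)) : A) - 1‖ ≤ 1 / 10
    rw [map_mul, map_inv, psfe_inv_mul_norm]
    have e : (φ (c (j + 1)) : A) - φ (c (i + 1)) = ((φ (c (j + 1)) : A) - 1) - ((φ (c (i + 1)) : A) - 1) := by
      abel
    rw [e]
    refine (norm_sub_le _ _).trans ?_
    linarith [hsmall1 i, hsmall1 j]
  have hub := hSB u hu _ (hTB _ hbT)
  obtain ⟨b, hb⟩ : ∃ b, b = (c (i + 1))⁻¹ * c (j + 1) := ⟨_, rfl⟩
  rw [← hb] at hub
  have hcj : c (j + 1) = c (i + 1) * b := by rw [hb]; group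
  have heq : φ (c (j + 1 + 1)) = φ (c (i + 1 + 1)) := by
    rw [hφc (j + 1), hφc (i + 1), hcj, map_mul]
    have h1 : φ b * (φ u)⁻¹ * (φ b)⁻¹ = (φ u)⁻¹ := by
      rw [(hub.inv_left.eq).symm, mul_assoc, mul_inv_cancel, mul_one]
    calc φ u * (φ (c (i + 1)) * φ b) * (φ u)⁻¹ * (φ (c (i + 1)) * φ b)⁻¹
        = φ u * φ (c (i + 1)) * (φ b * (φ u)⁻¹ * (φ b)⁻¹) * (φ (c (i + 1)))⁻¹ := by
          rw [mul_inv_rev]; simp only [mul_assoc]
      _ = φ u * φ (c (i + 1)) * (φ u)⁻¹ * (φ (c (i + 1)))⁻¹ := by rw [h1]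
  have hone : φ (c (i + 1 + 1)) = 1 := by
    have h1 := hdecm (i + 1 + 1) (j - i - 1)
    have h2 : i + 1 + 1 + (j - i - 1) = j + 1 := by omega
    rw [h2] at h1
    have h3 := hdec (j + 1)
    rw [heq] at h3
    have h4 : ‖(φ (c (i + 1 + 1)) : A) - 1‖ ≤ 0 := by
      linarith [norm_nonneg ((φ (c (i + 1 + 1)) : A) - 1)]
    have h5 : (φ (c (i + 1 + 1)) : A) - 1 = 0 := norm_le_zero_iff.mp h4
    exact Subtype.ext (sub_eq_zero.mp h5)
  -- (3)
  have hdesc : ∀ m, φ (c (m + 1)) = 1 → φ (c 1) = 1 := by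
    intro m
    induction m with
    | zero => exact id
    | succ m ih =>
      intro h
      apply ih
      rw [hφc m]
      apply psfe_descent _ _ (hsmall m)
      rw [← hφc m]
      rw [hφc (m + 1), mul_inv_eq_one, mul_inv_eq_iff_eq_mul] at h
      exact h
  have hfin := hdesc (i + 1) hone
  have h0 := hφc 0
  rw [zero_add, hfin, hc0] at h0
  have h1 := h0.symm
  rw [mul_inv_eq_one, mul_inv_eq_iff_eq_mul] at h1
  exact h1

end Pool.Agent.Helper72CS
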