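import Pool.Agent.Helper72_CS.Defs2

set_option autoImplicit false

open Set Filter Topology

noncomputable section

namespace Pool.Agent.Helper72CS

/-- TARGET 1 -/
theorem ps_locfin
    (h1 : ∀ (G : Type) [Group G] (N : Subgroup G) [N.Normal], Finite (G ⧸ N) → PS N → PS G)
    (h3 : ∀ (G : Type) [Group G] (ι : Type) (H : ι → Subgroup G),
      (∀ i j, ∃ k, H i ≤ H k ∧ H j ≤ H k) → (∀ g : G, ∃ i, g ∈ H i) → (∀ i, PS (H i)) → PS G)
    (h4 : ∀ (G : Type) [Group G], Subsingleton G → PS G)
    {G : Type} [Group G] (M : Subgroup G) (hM : LocFin M) : PS M := by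
  have key : ∀ S : Set M, S.Finite → (Subgroup.closure S : Set M).Finite := by
    intro S hS
    have h := hM (M.subtype '' S) (hS.image _) (by
      rintro _ ⟨x, _, rfl⟩
      exact x.2)
    rw [← MonoidHom.map_closure] at h
    rw [Subgroup.coe_map] at h
    exact Set.Finite.of_finite_image h (M.subtype_injective.injOn)
  refine h3 M {F : Subgroup M // (F : Set M).Finite} (fun F => F.1) ?_ ?_ ?_
  · intro F F'
    refine ⟨⟨Subgroup.closure ((F.1 : Set M) ∪ (F'.1 : Set M)), key _ (F.2.union F'.2)⟩, ?_, ?_⟩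
    · intro x hx
      exact Subgroup.subset_closure (Or.inl hx)
    · intro x hx
      exact Subgroup.subset_closure (Or.inr hx)
  · intro g
    exact ⟨⟨Subgroup.closure {g}, key _ (Set.finite_singleton g)⟩,
      Subgroup.subset_closure rfl⟩
  · intro F
    have : Finite F.1 := F.2
    refine h1 F.1 ⊥ inferInstance ?_
    exact h4 _ inferInstance

/-- TARGET 2 -/
theorem ps_solv
    (h2 : ∀ (G : Type) [Group G] (N : Subgroup G) [N.Normal],
      (∀ a b : G, a * b * a⁻¹ * b⁻¹ ∈ N) → PS N → PS G)
    (h5 : ∀ (G H : Type) [Group G] [Group H], (G ≃* H) → PS G → PS H)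
    {G : Type} [Group G] (N : Subgroup G) [N.Normal] [Group.IsSolvable (G ⧸ N)] (hN : PS N) :
    PS G := by
  obtain ⟨n, hn⟩ := Group.IsSolvable.solvable (G := G ⧸ N)
  let K : ℕ → Subgroup G := fun i => (derivedSeries (G ⧸ N) i).comap (QuotientGroup.mk' N)
  have hKn : K n = N := by
    show (derivedSeries (G ⧸ N) n).comap (QuotientGroup.mk' N) = N
    rw [hn]
    ext x
    simp
  have hK0 : K 0 = ⊤ := by
    show (derivedSeries (G ⧸ N) 0).comap (QuotientGroup.mk' N) = ⊤
    rw [derivedSeries_zero]
    rfl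
  have hnorm : ∀ i, (K i).Normal := fun i => by
    have := derivedSeries_normal (G ⧸ N) i
    exact Subgroup.Normal.comap inferInstance _
  have hle : ∀ i, K (i + 1) ≤ K i := fun i =>
    Subgroup.comap_mono (by
      rw [derivedSeries_succ]
      have := derivedSeries_normal (G ⧸ N) i
      exact Subgroup.commutator_le_left _ _)
  have step : ∀ i, PS (K (i + 1)) → PS (K i) := by
    intro i hi
    have := hnorm (i + 1)
    refine h2 (K i) ((K (i + 1)).subgroupOf (K i)) ?_ ?_
    · intro a b
      rw [Subgroup.mem_subgroupOf]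
      show QuotientGroup.mk' N ((a * b * a⁻¹ * b⁻¹ : K i) : G) ∈ derivedSeries (G ⧸ N) (i + 1)
      rw [derivedSeries_succ]
      have ha : QuotientGroup.mk' N (a : G) ∈ derivedSeries (G ⧸ N) i := a.2
      have hb : QuotientGroup.mk' N (b : G) ∈ derivedSeries (G ⧸ N) i := b.2
      have := Subgroup.commutator_mem_commutator ha hb
      rw [commutatorElement_def] at this
      simpa only [Subgroup.coe_mul, Subgroup.coe_inv, map_mul, map_inv] using this
    · exact h5 _ _ (Subgroup.subgroupOfEquivOfLe (hle i)).symm hi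
  have fin : ∀ k, k ≤ n → PS (K (n - k)) := by
    intro k
    induction k with
    | zero => intro _; rw [Nat.sub_zero, hKn]; exact hN
    | succ k ih =>
      intro hk
      have := ih (by omega)
      have e : n - k = (n - (k + 1)) + 1 := by omega
      rw [e] at this
      exact step _ this
  have h0 := fin n le_rfl
  rw [Nat.sub_self, hK0] at h0
  exact h5 _ _ Subgroup.topEquiv h0

end Pool.Agent.Helper72CS
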