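/-
HOW TO START: this file imports small modules which are on origin/main. Do
  cd /workdir/pool/outputs/live && git fetch && git checkout origin/main -- Pool/Agent/Helper72_CS Pool/Agent/Helper757/GL ; git reset -q
  mkdir -p /workdir/pool/Pool/Agent/Helper757 && cp -r Pool/Agent/Helper72_CS /workdir/pool/Pool/Agent/ && cp -r Pool/Agent/Helper757/GL /workdir/pool/Pool/Agent/Helper757/
  cd /workdir/pool && lake build Pool.Agent.Helper72_CS.LSDefs Pool.Agent.Helper72_CS.HubTop Pool.Agent.Helper72_CS.SolvComm Pool.Agent.Helper72_CS.IndexLemma Pool.Agent.Helper72_CS.OpRep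
(1-2 minutes). The definitions are in Pool/Agent/Helper72_CS/{Ind,Fam,Grp,LSDefs}.lean (short; read them first).
Note: inside the namespace, `continuous_pi` is another lemma; write `_root_.continuous_pi`.
-/
import Pool.Agent.Helper72_CS.Defs2

/-!
JOB elementary closure properties of `PS` (defined in `Pool/Agent/Helper72_CS/Defs2.lean`). Four targets.

(1) `ps_sub`: subgroups. A subgroup `H` of `K` is, via `H.map K.subtype`, a subgroup of `G`; transport `φ` along the isomorphism `H ≃* H.map K.subtype`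
(`Subgroup.equivMapOfInjective`).
(2) `ps_equiv`: isomorphic groups, similarly.
(3) `ps_union`: given `K ≤ G`, `φ : K → U(A)`, `S ⊆ K`, `a, b ∈ S`: choose `i` with `a, b ∈ H i`; use `PS (H i)` for the subgroup `K.subgroupOf (H i)` with the
obvious hom to `K` and the preimage of `S`.
(4) `ps_subsingleton`.
-/

set_option autoImplicit false

open Set Filter Topology

noncomputable section

namespace Pool.Agent.Helper72CS

theorem ps_aux_inj {G : Type} [Group G] (hG : PS G) {K : Type} [Group K] (f : K →* G)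
    (hf : Function.Injective f) (A : Type) [CStarAlgebra A] (φ : K →* unitary A) (N : Set K)
    (h1 : ∀ g : K, ∀ n ∈ N, g * n * g⁻¹ ∈ N) (h2 : ∀ n ∈ N, ‖(φ n : A) - 1‖ ≤ 1 / 10)
    (a : K) (ha : a ∈ N) (b : K) (hb : b ∈ N) : φ a * φ b = φ b * φ a := by
  let e : K ≃* f.range := MonoidHom.ofInjective hf
  have key := hG f.range A (φ.comp e.symm.toMonoidHom) (e.symm ⁻¹' N) (by
    intro g n hn
    show e.symm (g * n * g⁻¹) ∈ N
    rw [map_mul, map_mul, map_inv]
    exact h1 _ _ hn) (by
    intro n hn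
    exact h2 _ hn) (e a) (by
    show e.symm (e a) ∈ N
    rw [e.symm_apply_apply]; exact ha) (e b) (by
    show e.symm (e b) ∈ N
    rw [e.symm_apply_apply]; exact hb)
  have ea : (φ.comp e.symm.toMonoidHom) (e a) = φ a := by
    show φ (e.symm (e a)) = φ a
    rw [e.symm_apply_apply]
  have eb : (φ.comp e.symm.toMonoidHom) (e b) = φ b := by
    show φ (e.symm (e b)) = φ b
    rw [e.symm_apply_apply]
  rw [ea, eb] at key
  exact key

/-- TARGET 1 -/
theorem ps_sub {G : Type} [Group G] (hG : PS G) (K : Subgroup G) : PS K := by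
  intro H A _ φ N h1 h2 a ha b hb
  exact ps_aux_inj hG (K.subtype.comp H.subtype)
    (fun x y hxy => Subtype.ext (Subtype.ext hxy)) A φ N h1 h2 a ha b hb

/-- TARGET 2 -/
theorem ps_equiv {G H : Type} [Group G] [Group H] (e : G ≃* H) (hG : PS G) : PS H := by
  intro K A _ φ N h1 h2 a ha b hb
  exact ps_aux_inj hG (e.symm.toMonoidHom.comp K.subtype)
    (fun x y hxy => Subtype.ext (e.symm.injective hxy)) A φ N h1 h2 a ha b hb

/-- TARGET 3 -/
theorem ps_union {G : Type} [Group G] {ι : Type} (H : ι → Subgroup G)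
    (hdir : ∀ i j, ∃ k, H i ≤ H k ∧ H j ≤ H k) (hcov : ∀ g : G, ∃ i, g ∈ H i)
    (h : ∀ i, PS (H i)) : PS G := by
  intro K A _ φ N h1 h2 a ha b hb
  obtain ⟨i, hi⟩ := hcov (a : G)
  obtain ⟨j, hj⟩ := hcov (b : G)
  obtain ⟨k, hik, hjk⟩ := hdir i j
  let θ : K.subgroupOf (H k) →* K :=
    { toFun := fun x => ⟨((x : H k) : G), x.2⟩
      map_one' := rfl
      map_mul' := fun _ _ => rfl }
  let a' : K.subgroupOf (H k) := ⟨⟨(a : G), hik hi⟩, a.2⟩
  let b' : K.subgroupOf (H k) := ⟨⟨(b : G), hjk hj⟩, b.2⟩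
  have key := h k (K.subgroupOf (H k)) A (φ.comp θ) (θ ⁻¹' N) (by
    intro g n hn
    show θ (g * n * g⁻¹) ∈ N
    rw [map_mul, map_mul, map_inv]
    exact h1 _ _ hn) (by
    intro n hn
    exact h2 _ hn) a' ha b' hb
  exact key

/-- TARGET 4 -/
theorem ps_subsingleton {G : Type} [Group G] [Subsingleton G] : PS G := by
  intro K A _ φ N h1 h2 a ha b hb
  have hab : a = b := Subtype.ext (Subsingleton.elim _ _)
  rw [hab]

end Pool.Agent.Helper72CS
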