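import Pool.Agent.Helper72_CS.LS
import Pool.Agent.Helper72_CS.Defs2

/-!
# Rank at most one for subgroups with commuting small unitaries
-/

set_option autoImplicit false

open Set Filter Topology

noncomputable section

namespace Pool.Agent.Helper72CS

/-- a generic element of a subgroup -/
theorem exists_generic_sub {G Q : Type} [Group G] [Finite Q] (L S : Subgroup G) [L.Normal]
    (hSL : S ≤ L)
    (x y : G → ℝ) (hx : ∀ a ∈ L, ∀ b ∈ L, x (a * b) = x a + x b)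
    (hy : ∀ a ∈ L, ∀ b ∈ L, y (a * b) = y a + y b) (r : Q → G) :
    ∃ t : ℝ, ∃ h ∈ S, ∀ g : Q,
      x ((r g)⁻¹ * h * r g) + t * y ((r g)⁻¹ * h * r g) = x h + t * y h →
      ∀ l ∈ S, x ((r g)⁻¹ * l * r g) = x l ∧ y ((r g)⁻¹ * l * r g) = y l := by
  classical
  have hconj : ∀ g : Q, ∀ l ∈ L, (r g)⁻¹ * l * r g ∈ L := by
    intro g l hl
    have h1 := ‹L.Normal›.conj_mem l hl (r g)⁻¹
    rwa [inv_inv] at h1
  have hmul : ∀ (g : Q) (a b : G),
      (r g)⁻¹ * (a * b) * r g = ((r g)⁻¹ * a * r g) * ((r g)⁻¹ * b * r g) := by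
    intro g a b
    group
  set X : Q → G → ℝ := fun g l => x ((r g)⁻¹ * l * r g) - x l with hX
  set Y : Q → G → ℝ := fun g l => y ((r g)⁻¹ * l * r g) - y l with hY
  have hXa : ∀ g, ∀ a ∈ S, ∀ b ∈ S, X g (a * b) = X g a + X g b := by
    intro g a ha b hb
    simp only [hX]
    rw [hmul, hx _ (hconj g a (hSL ha)) _ (hconj g b (hSL hb)), hx a (hSL ha) b (hSL hb)]
    ring
  have hYa : ∀ g, ∀ a ∈ S, ∀ b ∈ S, Y g (a * b) = Y g a + Y g b := by
    intro g a ha b hb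
    simp only [hY]
    rw [hmul, hy _ (hconj g a (hSL ha)) _ (hconj g b (hSL hb)), hy a (hSL ha) b (hSL hb)]
    ring
  have hfin : (⋃ g : Q, {t : ℝ | (∀ l ∈ S, X g l + t * Y g l = 0) ∧
      ¬ ∀ l ∈ S, X g l = 0 ∧ Y g l = 0}).Finite := by
    refine Set.finite_iUnion fun g => ?_
    apply Set.Subsingleton.finite
    rintro t1 ⟨h1, h1'⟩ t2 ⟨h2, _⟩
    by_contra hne
    apply h1'
    intro l hl
    have e1 := h1 l hl
    have e2 := h2 l hl
    have e3 : (t1 - t2) * Y g l = 0 := by linarith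
    have e4 := (mul_eq_zero.1 e3).resolve_left (sub_ne_zero.2 hne)
    refine ⟨?_, e4⟩
    rw [e4, mul_zero, add_zero] at e1
    exact e1
  obtain ⟨t, ht⟩ := hfin.exists_notMem
  have := Fintype.ofFinite Q
  obtain ⟨h, hL, hh⟩ := exists_good S (fun g l => X g l + t * Y g l)
    (by
      intro g a ha b hb
      rw [hXa g a ha b hb, hYa g a ha b hb]
      ring) (Finset.univ : Finset Q)
  refine ⟨t, h, hL, fun g hg l hl => ?_⟩
  have h0 : X g h + t * Y g h = 0 := by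
    simp only [hX, hY]
    linarith
  have h1 := hh g (Finset.mem_univ g) h0
  have h2 : ∀ l ∈ S, X g l = 0 ∧ Y g l = 0 := by
    by_contra hcon
    apply ht
    rw [Set.mem_iUnion]
    exact ⟨g, h1, hcon⟩
  obtain ⟨h3, h4⟩ := h2 l hl
  simp only [hX] at h3
  simp only [hY] at h4
  exact ⟨by linarith, by linarith⟩

/-- Perturbation of induced almost representations, from weak stability. -/
theorem weakInd {G : Type} [Group G] (hG : WeakStable G) (L : Subgroup G)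
    [L.FiniteIndex]
    {D : ℕ → Type} [∀ j, CStarAlgebra (D j)]
    [∀ j, Nontrivial (D j)] (φ : ∀ j, L → D j)
    (hb : ∀ g, ∃ C, ∀ j, ‖φ j g‖ ≤ C)
    (hmul : ∀ g h, Tendsto (fun j => ‖φ j (g * h) - φ j g * φ j h‖) atTop (𝓝 0))
    (hstar : ∀ g, Tendsto (fun j => ‖star (φ j g) - φ j g⁻¹‖) atTop (𝓝 0))
    (hone : Tendsto (fun j => ‖φ j 1 - 1‖) atTop (𝓝 0)) :
    ∃ ψ : ∀ j, G →* unitary (MM (G ⧸ L) (D j)),
      ∀ g, Tendsto (fun j => ‖(ψ j g : MM (G ⧸ L) (D j)) - Ind L (φ j) g‖) atTop (𝓝 0) := by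
  have key : ∀ (τ : Equiv.Perm (G ⧸ L))
      (m : ∀ j, G ⧸ L → D j), (∀ q, Tendsto (fun j => ‖m j q‖) atTop (𝓝 0)) →
      Tendsto (fun j => ‖mono τ (m j)‖) atTop (𝓝 0) := by
    intro τ m hm
    refine squeeze_zero (fun _ => norm_nonneg _) (fun j => norm_mono_le_sum τ (m j)) ?_
    have := tendsto_finsetSum (Finset.univ : Finset (G ⧸ L)) (fun q _ => hm q)
    simpa using this
  refine hG _ (fun j => Ind L (φ j)) ?_ ?_ ?_ ?_
  · intro g
    choose C hC using hb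
    refine ⟨∑ q : G ⧸ L, C (lc L g q), fun j => ?_⟩
    refine (norm_mono_le_sum _ _).trans (Finset.sum_le_sum fun q _ => hC _ j)
  · intro g h
    simp only [Ind_mul_sub]
    exact key _ _ fun q => hmul _ _
  · intro g
    simp only [Ind_star_sub]
    exact key _ _ fun q => hstar _
  · simp only [Ind_one_sub]
    exact key _ _ fun q => hone

/-- **Rank at most one.** Two real homomorphisms on a normal subgroup of finite index of a
weakly stable group are linearly dependent on subgroups with the property `PS`. -/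
theorem rank_one_ps {G : Type} [Group G] (hG : WeakStable G) (L S : Subgroup G)
    [L.Normal] [L.FiniteIndex] (hSL : S ≤ L) (hPS : PS S) (x y : G → ℝ) (hx : HomOn L x)
    (hy : HomOn L y) (a b : G) (haS : a ∈ S) (hbS : b ∈ S) : x a * y b = x b * y a := by
  classical
  by_contra hne
  have ha : a ∈ L := hSL haS
  have hb : b ∈ L := hSL hbS
  obtain ⟨Sh, T, hS1, hS2, hT1, hT2, hT3⟩ := exists_shift
  obtain ⟨t, h, hhS, hgen⟩ := exists_generic_sub (Q := G ⧸ L) L S hSL x y hx hy (rp L)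
  have hh : h ∈ L := hSL hhS
  let X : ℕ → selfAdjoint OpD := fun j => rePart (T j)
  let Y : ℕ → selfAdjoint OpD := fun j => imPart (T j)
  have hXY : ∀ j, (X j : OpD) + Complex.I • (Y j : OpD) = T j := fun j => re_add_im (T j)
  have hX : ∀ j, ‖X j‖ ≤ 1 := fun j => norm_rePart _ (hT1 j)
  have hY : ∀ j, ‖Y j‖ ≤ 1 := fun j => norm_imPart _ (hT1 j)
  have hcomm : Tendsto (fun j => ‖(X j : OpD) * Y j - Y j * X j‖) atTop (𝓝 0) :=
    squeeze_zero (fun _ => norm_nonneg _) (fun j => re_im_comm (T j)) hT3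
  -- the third homomorphism
  let u : G → ℝ := fun l => x l + t * y l
  have hu : HomOn L u := by
    intro a ha b hb
    show x (a * b) + t * y (a * b) = _
    rw [hx a ha b hb, hy a ha b hb]
    show _ = x a + t * y a + (x b + t * y b)
    ring
  -- conjugates
  let aL : L := ⟨a, ha⟩
  let bL : L := ⟨b, hb⟩
  let hL : L := ⟨h, hh⟩
  have hcj : ∀ (l : L) (p : G ⧸ L), ((cj L l p : L) : G) = (rp L p)⁻¹ * l * rp L p :=
    fun _ _ => rfl
  let St : G ⧸ L → Prop := fun p => u (cj L hL p) = u h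
  have hSt : ∀ p, St p → ∀ l : L, (l : G) ∈ S →
      x (cj L l p) = x l ∧ y (cj L l p) = y l ∧ u (cj L l p) = u l := by
    intro p hp l hlS
    have h1 := hgen p hp l hlS
    refine ⟨h1.1, h1.2, ?_⟩
    show x (cj L l p) + t * y (cj L l p) = x l + t * y l
    rw [hcj, h1.1, h1.2]
  -- the coset of one
  let p₀ : G ⧸ L := ((1 : G) : G ⧸ L)
  have hp₀ : St p₀ := by
    have h1 : rp L p₀ ∈ L := by
      have h2 : ((rp L p₀ : G) : G ⧸ L) = ((1 : G) : G ⧸ L) := rp_mk L p₀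
      rw [eq_comm, QuotientGroup.eq] at h2
      simpa using h2
    show u ((rp L p₀)⁻¹ * h * rp L p₀) = u h
    rw [hu _ (L.mul_mem (L.inv_mem h1) hh) _ h1, hu _ (L.inv_mem h1) _ hh, hu.inv h1]
    ring
  -- coefficients
  set Δ : ℝ := x a * y b - x b * y a with hΔ
  have hΔ0 : (Δ : ℂ) ≠ 0 := by
    exact_mod_cast sub_ne_zero.2 hne
  let ca : ℂ := (y b - Complex.I * x b) / Δ
  let cb : ℂ := (Complex.I * x a - y a) / Δ
  have hc1 : ca * x a + cb * x b = 1 := by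
    show (y b - Complex.I * x b) / Δ * x a + (Complex.I * x a - y a) / Δ * x b = 1
    rw [div_mul_eq_mul_div, div_mul_eq_mul_div, ← add_div, div_eq_one_iff_eq hΔ0, hΔ]
    push_cast
    ring
  have hc2 : ca * y a + cb * y b = Complex.I := by
    show (y b - Complex.I * x b) / Δ * y a + (Complex.I * x a - y a) / Δ * y b = Complex.I
    rw [div_mul_eq_mul_div, div_mul_eq_mul_div, ← add_div, div_eq_iff hΔ0, hΔ]
    push_cast
    ring
  -- the finite set of elements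
  let E : Finset L := Finset.univ.biUnion fun p : G ⧸ L => {cj L aL p, cj L bL p, cj L hL p}
  have hEa : ∀ p, cj L aL p ∈ E := fun p => Finset.mem_biUnion.2 ⟨p, Finset.mem_univ _, by simp⟩
  have hEb : ∀ p, cj L bL p ∈ E := fun p => Finset.mem_biUnion.2 ⟨p, Finset.mem_univ _, by simp⟩
  have hEh : ∀ p, cj L hL p ∈ E := fun p => Finset.mem_biUnion.2 ⟨p, Finset.mem_univ _, by simp⟩
  have hsmall : ∀ f : L → ℝ, ∃ ε : ℝ, 0 < ε ∧ ∀ r : ℝ, 0 < r → r ≤ ε → ∀ l ∈ E,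
      |r * f l| ≤ 1 / 80 := by
    intro f
    refine ⟨1 / (80 * (1 + ∑ l ∈ E, |f l|)), ?_, fun r hr hr' l hl => ?_⟩
    · have : 0 ≤ ∑ l ∈ E, |f l| := Finset.sum_nonneg fun _ _ => abs_nonneg _
      positivity
    · have h0 : 0 ≤ ∑ l ∈ E, |f l| := Finset.sum_nonneg fun _ _ => abs_nonneg _
      have h1 : |f l| ≤ ∑ l ∈ E, |f l| :=
        Finset.single_le_sum (f := fun l => |f l|) (fun _ _ => abs_nonneg _) hl
      rw [abs_mul, abs_of_pos hr]
      calc r * |f l| ≤ 1 / (80 * (1 + ∑ l ∈ E, |f l|)) * (1 + ∑ l ∈ E, |f l|) :=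
            mul_le_mul hr' (by linarith) (abs_nonneg _) (by positivity)
        _ = 1 / 80 := by
            field_simp
  obtain ⟨ε, hε, hεs⟩ := hsmall fun l => u l
  have hεE : ∀ l ∈ E, |ε * u l| ≤ 1 / 80 := fun l hl => hεs ε hε le_rfl l hl
  -- the scalars and the polynomial
  let ex : ℝ → ℂ := fun s => Complex.exp (((ε * s : ℝ) : ℂ) * Complex.I)
  have hhE : |ε * u h| ≤ 1 / 80 := by
    have := hεE _ (hEh p₀)
    rwa [(hSt p₀ hp₀ hL hhS).2.2] at this
  let SS : Finset ℂ := (Finset.univ.filter fun p : G ⧸ L => ¬ St p).image fun p => ex (u (cj L hL p))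
  have hμ : ex (u h) ∉ SS := by
    intro hm
    obtain ⟨p, hp, hpe⟩ := Finset.mem_image.1 hm
    refine (Finset.mem_filter.1 hp).2 ?_
    have h1 := hεE _ (hEh p)
    have h2 := exp_inj_of_small (by linarith) (by linarith) hpe
    exact mul_left_cancel₀ hε.ne' h2
  obtain ⟨P, hP1, hP0⟩ := exists_poly SS _ hμ
  -- the radius
  obtain ⟨r₁, hr₁, hst⟩ := block_stab ε (u a) (x a) (y a) (u b) (x b) (y b) (u h) (x h) (y h) ca cb P
    hP1 hc1 hc2 (1 / 8) (by norm_num)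
  have hnon : ∀ p : G ⧸ L, ∃ r₀ : ℝ, 0 < r₀ ∧ (¬ St p → ∀ r : ℝ, 0 < r → r < r₀ →
      ∀ (D : Type) [CStarAlgebra D] (X Y : selfAdjoint D), ‖X‖ ≤ 1 → ‖Y‖ ≤ 1 →
      ‖FF ca cb (ex (u a)) (ex (u b)) P
        (al X Y ε r (u (cj L aL p)) (x (cj L aL p)) (y (cj L aL p)))
        (al X Y ε r (u (cj L bL p)) (x (cj L bL p)) (y (cj L bL p)))
        (al X Y ε r (u (cj L hL p)) (x (cj L hL p)) (y (cj L hL p))) - 1‖ ≤ 1 / 8) := by
    intro p
    by_cases hp : St p
    · exact ⟨1, one_pos, fun h => absurd hp h⟩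
    · obtain ⟨r₀, hr₀, h1⟩ := block_non ε (u (cj L aL p)) (x (cj L aL p)) (y (cj L aL p))
        (u (cj L bL p)) (x (cj L bL p)) (y (cj L bL p)) (u (cj L hL p)) (x (cj L hL p))
        (y (cj L hL p)) ca cb (ex (u a)) (ex (u b)) (by
          show ‖Complex.exp _‖ = 1
          exact Complex.norm_exp_ofReal_mul_I _) (by
          show ‖Complex.exp _‖ = 1
          exact Complex.norm_exp_ofReal_mul_I _) P
        (hP0 _ (Finset.mem_image.2 ⟨p, by simp [hp], rfl⟩)) (1 / 8) (by norm_num)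
      exact ⟨r₀, hr₀, fun _ => h1⟩
  choose r₀ hr₀ hnon using hnon
  obtain ⟨ε₁, hε₁, hxs⟩ := hsmall fun l => x l
  obtain ⟨ε₂, hε₂, hys⟩ := hsmall fun l => y l
  obtain ⟨r, hr, hr1, hr2, hr3, hr4, hr5⟩ : ∃ r : ℝ, 0 < r ∧ r ≤ 1 ∧ r < r₁ ∧ r ≤ ε₁ ∧ r ≤ ε₂ ∧
      ∀ p, r < r₀ p := by
    have h1 : ∀ᶠ r : ℝ in 𝓝[>] 0, 0 < r := self_mem_nhdsWithin
    have h2 : ∀ c : ℝ, 0 < c → ∀ᶠ r : ℝ in 𝓝[>] 0, r < c := fun c hc =>
      mem_nhdsWithin_of_mem_nhds (gt_mem_nhds hc)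
    have h3 := (h1.and (h2 1 one_pos)).and (((h2 r₁ hr₁).and (h2 ε₁ hε₁)).and ((h2 ε₂ hε₂).and
      (Filter.eventually_all.2 fun p => h2 (r₀ p) (hr₀ p))))
    obtain ⟨r, ⟨g1, g2⟩, ⟨g3, g4⟩, g5, g6⟩ := h3.exists
    exact ⟨r, g1, g2.le, g3, g4.le, g5.le, g6⟩
  -- the almost representations
  let φ : ℕ → L → OpD := fun j l => al (X j) (Y j) ε r (u l) (x l) (y l)
  have hφu : ∀ j l, φ j l ∈ unitary OpD := fun j l => al_mem _ _ _ _ _ _ _
  have hφn : ∀ j l, ‖φ j l‖ = 1 := fun j l => CStarRing.norm_of_mem_unitary (hφu j l)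
  have hφ1 : ∀ j, φ j 1 = 1 := by
    intro j
    show al (X j) (Y j) ε r (u ((1 : L) : G)) (x ((1 : L) : G)) (y ((1 : L) : G)) = 1
    rw [Subgroup.coe_one, hx.one, hy.one, hu.one]
    exact al_zero _ _ _ _
  have hφm : ∀ g h, Tendsto (fun j => ‖φ j (g * h) - φ j g * φ j h‖) atTop (𝓝 0) := by
    intro g h
    have h1 := hcomm.const_mul (|r * y g| * |r * x h|)
    rw [mul_zero] at h1
    refine squeeze_zero (fun _ => norm_nonneg _) (fun j => ?_) h1
    have h2 := al_mul (X j) (Y j) ε r (u g) (x g) (y g) (u h) (x h) (y h)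
    show ‖al (X j) (Y j) ε r (u ((g * h : L) : G)) (x ((g * h : L) : G)) (y ((g * h : L) : G)) -
      al (X j) (Y j) ε r (u g) (x g) (y g) * al (X j) (Y j) ε r (u h) (x h) (y h)‖ ≤ _
    rw [Subgroup.coe_mul, hx g g.2 h h.2, hy g g.2 h h.2, hu g g.2 h h.2]
    exact h2
  obtain ⟨ψ, hψ⟩ := weakInd hG L φ (fun g => ⟨1, fun j => (hφn j g).le⟩) hφm
    (by
      intro g
      refine squeeze_zero (fun _ => norm_nonneg _) (fun j => ?_) (hφm g g⁻¹)
      have h2 : star (φ j g) - φ j g⁻¹ = star (φ j g) * (φ j (g * g⁻¹) - φ j g * φ j g⁻¹) := by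
        rw [mul_inv_cancel, hφ1, mul_sub, mul_one, ← mul_assoc, (Unitary.mem_iff.1 (hφu j g)).1,
          one_mul]
      rw [h2]
      refine (norm_mul_le _ _).trans ?_
      rw [CStarRing.norm_of_mem_unitary (Unitary.star_mem (hφu j g)), one_mul])
    (by
      have : (fun j => ‖φ j 1 - 1‖) = fun _ => (0 : ℝ) := by
        funext j
        rw [hφ1, sub_self, norm_zero]
      rw [this]
      exact tendsto_const_nhds)
  -- the blocks
  have hIn : ∀ j (l : L), Ind L (φ j) l = diagM (fun p : G ⧸ L => φ j (cj L l p)) :=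
    fun j l => Ind_normal L (φ j) l
  have hnear1 : ∀ j, ∀ l ∈ E, ‖φ j l - 1‖ ≤ 1 / 20 := by
    intro j l hl
    refine (al_near (X j) (Y j) ε r (u l) (x l) (y l) (hX j) (hY j)).trans ?_
    have e1 := hεE l hl
    have e2 := hxs r hr hr3 l hl
    have e3 := hys r hr hr4 l hl
    linarith
  have hInear : ∀ j, ∀ l : L, (∀ p, cj L l p ∈ E) → ‖Ind L (φ j) l - 1‖ ≤ 1 / 20 := by
    intro j l hl
    rw [hIn, diagM_sub_one]
    exact norm_diagM_le _ (by norm_num) fun p => hnear1 j _ (hl p)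
  have hev1 : ∀ l : L, (∀ p, cj L l p ∈ E) → ∀ᶠ j in atTop,
      ‖(ψ j l : MM (G ⧸ L) OpD) - 1‖ ≤ 1 / 10 := by
    intro l hl
    filter_upwards [(hψ l).eventually (gt_mem_nhds (show (0 : ℝ) < 1 / 20 by norm_num))] with j hj
    have e : (ψ j l : MM (G ⧸ L) OpD) - 1 =
        ((ψ j l : MM (G ⧸ L) OpD) - Ind L (φ j) l) + (Ind L (φ j) l - 1) := by abel
    rw [e]
    refine (norm_add_le _ _).trans ?_
    have := hInear j l hl
    linarith
  -- the test elements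
  have hnI : ∀ j (l : L), ‖Ind L (φ j) l‖ ≤ 1 := by
    intro j l
    rw [hIn]
    exact norm_diagM_le _ zero_le_one fun p => (hφn j _).le
  have hnψ : ∀ j (l : L), ‖(ψ j l : MM (G ⧸ L) OpD)‖ ≤ 1 := fun j l =>
    (CStarRing.norm_of_mem_unitary (ψ j l).2).le
  have hFF := FF_cont (D := fun _ => MM (G ⧸ L) OpD) ca cb (ex (u a)) (ex (u b)) P
    (fun j => ψ j aL) (fun j => ψ j bL) (fun j => ψ j hL)
    (fun j => Ind L (φ j) aL) (fun j => Ind L (φ j) bL) (fun j => Ind L (φ j) hL)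
    (fun j => hnψ j _) (fun j => hnψ j _) (fun j => hnψ j _)
    (fun j => hnI j _) (fun j => hnI j _) (fun j => hnI j _) (hψ _) (hψ _) (hψ _)
  obtain ⟨j, ⟨ja, jb, jh⟩, jF⟩ := (((hev1 aL hEa).and ((hev1 bL hEb).and (hev1 hL hEh))).and
    (hFF.eventually (gt_mem_nhds (show (0 : ℝ) < r / 8 by positivity)))).exists
  -- the images commute
  have hcom : ∀ s ∈ ({aL, bL, hL} : Set L), ∀ s' ∈ ({aL, bL, hL} : Set L),
      ψ j s * ψ j s' = ψ j s' * ψ j s := by
    have hmemS : ∀ s ∈ ({aL, bL, hL} : Set L), (s : G) ∈ S := by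
      rintro s (rfl | rfl | rfl)
      · exact haS
      · exact hbS
      · exact hhS
    let T : Set (⊤ : Subgroup S) :=
      {v | ∃ g ∈ S, ∃ s ∈ ({aL, bL, hL} : Set L), ((v : S) : G) = g * s * g⁻¹}
    have key := hPS ⊤ (MM (G ⧸ L) OpD) ((ψ j).comp (S.subtype.comp (⊤ : Subgroup S).subtype)) T
      (by
        rintro g v ⟨g', hg', s, hs, hv⟩
        refine ⟨(g : S) * g', S.mul_mem (g : S).2 hg', s, hs, ?_⟩
        show ((g : S) : G) * ((v : S) : G) * ((g : S) : G)⁻¹ = _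
        rw [hv]
        group)
      (by
        rintro v ⟨g, hg, s, hs, hv⟩
        show ‖(ψ j ((v : S) : G) : MM (G ⧸ L) OpD) - 1‖ ≤ 1 / 10
        rw [hv]
        have e : (ψ j (g * s * g⁻¹) : MM (G ⧸ L) OpD) - 1 =
            (ψ j g : MM (G ⧸ L) OpD) * ((ψ j s : MM (G ⧸ L) OpD) - 1) *
              star (ψ j g : MM (G ⧸ L) OpD) := by
          rw [map_mul, map_mul, map_inv, mul_sub, mul_one, sub_mul,
            Unitary.mul_star_self_of_mem (ψ j g).2]
          rfl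
        rw [e, CStarRing.norm_mul_mem_unitary _ (Unitary.star_mem (ψ j g).2),
          CStarRing.norm_mem_unitary_mul _ (ψ j g).2]
        rcases hs with rfl | rfl | rfl
        · exact ja
        · exact jb
        · exact jh)
    intro s hs s' hs'
    exact key ⟨⟨s, hmemS s hs⟩, Subgroup.mem_top _⟩ ⟨1, S.one_mem, s, hs, by simp⟩
      ⟨⟨s', hmemS s' hs'⟩, Subgroup.mem_top _⟩ ⟨1, S.one_mem, s', hs', by simp⟩
  have hcab := congrArg (Subtype.val) (hcom aL (by simp) bL (by simp))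
  have hcah := congrArg (Subtype.val) (hcom aL (by simp) hL (by simp))
  have hcbh := congrArg (Subtype.val) (hcom bL (by simp) hL (by simp))
  have hnorm := FF_normal ca cb (ex (u a)) (ex (u b)) P (ψ j aL : MM (G ⧸ L) OpD) (ψ j bL)
    (ψ j hL) (ψ j aL).2 (ψ j bL).2 (ψ j hL).2 hcab hcah hcbh
  refine no_normal (Q := G ⧸ L) St p₀ hp₀ Sh (T j) hS1 hS2 (hT2 j) r hr hr1 _ hnorm
    (fun p => FF ca cb (ex (u a)) (ex (u b)) P (φ j (cj L aL p)) (φ j (cj L bL p))
      (φ j (cj L hL p))) ?_ ?_ ?_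
  · intro p hp
    have h1 := hst r hr hr2 OpD (X j) (Y j) (hX j) (hY j)
    rw [hXY] at h1
    have e1 : φ j (cj L aL p) = al (X j) (Y j) ε r (u a) (x a) (y a) := by
      obtain ⟨q1, q2, q3⟩ := hSt p hp aL haS
      show al (X j) (Y j) ε r (u (cj L aL p)) (x (cj L aL p)) (y (cj L aL p)) = _
      rw [q1, q2, q3]
    have e2 : φ j (cj L bL p) = al (X j) (Y j) ε r (u b) (x b) (y b) := by
      obtain ⟨q1, q2, q3⟩ := hSt p hp bL hbS
      show al (X j) (Y j) ε r (u (cj L bL p)) (x (cj L bL p)) (y (cj L bL p)) = _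
      rw [q1, q2, q3]
    have e3 : φ j (cj L hL p) = al (X j) (Y j) ε r (u h) (x h) (y h) := by
      obtain ⟨q1, q2, q3⟩ := hSt p hp hL hhS
      show al (X j) (Y j) ε r (u (cj L hL p)) (x (cj L hL p)) (y (cj L hL p)) = _
      rw [q1, q2, q3]
    rw [e1, e2, e3]
    refine h1.trans ?_
    linarith
  · intro p hp
    exact hnon p hp r hr (hr5 p) OpD (X j) (Y j) (hX j) (hY j)
  · rw [← FF_diagM, ← hIn, ← hIn, ← hIn]
    exact jF.le

end Pool.Agent.Helper72CS
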