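import Pool.Agent.Helper72_CS.PsAb
import Pool.Agent.Helper72_CS.PsFin
import Pool.Agent.Helper72_CS.PsSub
import Pool.Agent.Helper72_CS.PsEA
import Pool.Agent.Helper72_CS.PsLoc
import Pool.Agent.Helper72_CS.RankPS

/-!
# The property `PS` for elementary amenable groups
-/

set_option autoImplicit false

open Set Filter Topology

noncomputable section

namespace Pool.Agent.Helper72CS

theorem IsEA.ps {G : Type} [Group G] (hG : IsEA G) : PS G :=
  ps_ea (fun _ _ N _ _ h => ps_finite_ext N h) (fun _ _ N _ hab h => ps_ab_ext N hab h)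
    (fun _ _ _ H h1 h2 h3 => ps_union H h1 h2 h3) (fun _ _ _ => ps_subsingleton)
    (fun _ _ _ _ e h => ps_equiv e h) hG

theorem LocFin.ps {G : Type} [Group G] (M : Subgroup G) (hM : LocFin M) : PS M :=
  ps_locfin (fun _ _ N _ _ h => ps_finite_ext N h)
    (fun _ _ _ H h1 h2 h3 => ps_union H h1 h2 h3) (fun _ _ _ => ps_subsingleton) M hM

theorem ps_solvable_quotient {G : Type} [Group G] (N : Subgroup G) [N.Normal]
    [Group.IsSolvable (G ⧸ N)] (hN : PS N) : PS G :=
  ps_solv (fun _ _ N _ hab h => ps_ab_ext N hab h) (fun _ _ _ _ e h => ps_equiv e h) N hN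

/-- **Rank at most one on elementary amenable subgroups.** -/
theorem rank_one_ea {G : Type} [Group G] (hG : WeakStable G) (L S : Subgroup G)
    [L.FiniteIndex] (hSL : S ≤ L) (hS : IsEA S) (x y : L →* Multiplicative ℝ) (a b : L)
    (ha : (a : G) ∈ S) (hb : (b : G) ∈ S) :
    (x a).toAdd * (y b).toAdd = (x b).toAdd * (y a).toAdd := by
  classical
  -- real functions on `G`
  let ext : (L →* Multiplicative ℝ) → G → ℝ := fun z g => if h : g ∈ L then (z ⟨g, h⟩).toAdd else 0
  have hext : ∀ (z : L →* Multiplicative ℝ) (l : L), ext z l = (z l).toAdd := fun z l => by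
    simp only [ext, dif_pos l.2]
  have hHom : ∀ z, HomOn L (ext z) := by
    intro z c hc d hd
    have h1 := hext z (⟨c, hc⟩ * ⟨d, hd⟩)
    rw [map_mul, toAdd_mul, ← hext z ⟨c, hc⟩, ← hext z ⟨d, hd⟩] at h1
    exact h1
  set C := L.normalCore with hC
  haveI : C.FiniteIndex := by rw [hC]; infer_instance
  set S' : Subgroup G := S ⊓ C with hS'
  have hPS : PS S' := by
    have h1 : PS S := hS.ps
    have h2 : PS (S'.subgroupOf S) := ps_sub h1 _
    exact ps_equiv (Subgroup.subgroupOfEquivOfLe inf_le_left) h2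
  set n := C.index with hn
  have hn0 : (n : ℝ) ≠ 0 := by
    exact_mod_cast (Subgroup.FiniteIndex.index_ne_zero : C.index ≠ 0)
  have hpow : ∀ g ∈ S, g ^ n ∈ S' := fun g hg => ⟨S.pow_mem hg n, C.pow_index_mem g⟩
  have key := rank_one_ps hG C S' inf_le_right hPS (ext x) (ext y)
    ((hHom x).mono L.normalCore_le) ((hHom y).mono L.normalCore_le) _ _ (hpow a ha) (hpow b hb)
  rw [(hHom x).pow a.2, (hHom y).pow b.2, (hHom x).pow b.2, (hHom y).pow a.2, hext, hext, hext,
    hext] at key
  have h2 : (n : ℝ) * n ≠ 0 := mul_ne_zero hn0 hn0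
  have h3 : (n : ℝ) * n * ((x a).toAdd * (y b).toAdd) = n * n * ((x b).toAdd * (y a).toAdd) := by
    linarith
  exact mul_left_cancel₀ h2 h3

end Pool.Agent.Helper72CS
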