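import Pool.Agent.Helper72_CS.Main
import Pool.Agent.Helper72_CS.PSAll
import Pool.Agent.Helper72_CS.AbImagePS
import Pool.Agent.Helper72_CS.LocFinCore
import Pool.Agent.Helper72_CS.AbFg
import Pool.Agent.Helper72_CS.AbFinPer

/-!
# `C*`-stable groups with a locally finite normal subgroup
-/

set_option autoImplicit false

open Set Filter Topology

noncomputable section

namespace Pool.Agent.Helper72CS

variable {G : Type} [Group G]

theorem LocFin.mono' {M N : Subgroup G} (h : LocFin M) (hN : N ≤ M) : LocFin N :=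
  fun S hS hSN => h S hS (hSN.trans hN)

/-- iterated commutator subgroups -/
def dser (H : Subgroup G) (n : ℕ) : Subgroup G := (fun H : Subgroup G => ⁅H, H⁆)^[n] H

theorem dser_succ (H : Subgroup G) (n : ℕ) : dser H (n + 1) = ⁅dser H n, dser H n⁆ := by
  unfold dser
  rw [Function.iterate_succ_apply']

theorem dser_mono {H K : Subgroup G} (h : H ≤ K) (n : ℕ) : dser H n ≤ dser K n := by
  induction n with
  | zero => exact h
  | succ n ih =>
    rw [dser_succ, dser_succ]
    exact Subgroup.commutator_mono ih ih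

theorem dser_le (H : Subgroup G) (n : ℕ) : dser H n ≤ H := by
  induction n with
  | zero => exact le_rfl
  | succ n ih =>
    rw [dser_succ]
    exact (Subgroup.commutator_le_self _).trans ih

theorem dser_map {G' : Type} [Group G'] (π : G →* G') (H : Subgroup G) (n : ℕ) :
    (dser H n).map π = dser (H.map π) n := by
  induction n with
  | zero => rfl
  | succ n ih => rw [dser_succ, dser_succ, Subgroup.map_commutator, ih]

theorem dser_eq (H : Subgroup G) (n : ℕ) : (derivedSeries H n).map H.subtype = dser H n := by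
  induction n with
  | zero =>
    rw [derivedSeries_zero, ← MonoidHom.range_eq_map, Subgroup.range_subtype]
    rfl
  | succ n ih => rw [derivedSeries_succ, Subgroup.map_commutator, ih, dser_succ]

theorem dser_bot (H : Subgroup G) (hH : Group.IsSolvable H) : ∃ n, dser H n = ⊥ := by
  obtain ⟨n, hn⟩ := hH.solvable
  exact ⟨n, by rw [← dser_eq, hn, Subgroup.map_bot]⟩

theorem dser_normal (H : Subgroup G) [H.Normal] (n : ℕ) : (dser H n).Normal := by
  induction n with
  | zero => exact ‹H.Normal›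
  | succ n ih =>
    rw [dser_succ]
    infer_instance

/-- subgroups of the derived series inside a normal subgroup with solvable quotient -/
theorem exists_dser_le (Λ : Subgroup G) [Λ.Normal] (K M : Subgroup G) (hMK : M ≤ K)
    (hK : Group.IsSolvable (K.map (QuotientGroup.mk' Λ))) : ∃ n, dser M n ≤ Λ := by
  obtain ⟨n, hn⟩ := dser_bot _ hK
  refine ⟨n, ?_⟩
  have h1 : (dser M n).map (QuotientGroup.mk' Λ) = ⊥ := by
    rw [dser_map, eq_bot_iff, ← hn]
    exact dser_mono (Subgroup.map_mono hMK) n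
  rw [Subgroup.map_eq_bot_iff, QuotientGroup.ker_mk'] at h1
  exact h1

theorem solv_mono (Λ : Subgroup G) [Λ.Normal] (K M : Subgroup G) (hMK : M ≤ K)
    (hK : Group.IsSolvable (K.map (QuotientGroup.mk' Λ))) :
    Group.IsSolvable (M.map (QuotientGroup.mk' Λ)) :=
  Group.isSolvable_of_isSolvable_injective
    (Subgroup.inclusion_injective (Subgroup.map_mono (f := QuotientGroup.mk' Λ) hMK))

theorem ps_of_map (Λ : Subgroup G) [Λ.Normal] (hΛ : LocFin Λ) (K : Subgroup G)
    (hK : Group.IsSolvable (K.map (QuotientGroup.mk' Λ))) : PS K := by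
  have h1 : PS ((Λ ⊓ K).subgroupOf K) :=
    ps_equiv (Subgroup.subgroupOfEquivOfLe inf_le_right).symm
      (LocFin.ps _ (hΛ.mono' inf_le_left))
  rw [Subgroup.inf_subgroupOf_right] at h1
  have h2 : Group.IsSolvable (K ⧸ Λ.subgroupOf K) := by
    let φ : K →* K.map (QuotientGroup.mk' Λ) := (QuotientGroup.mk' Λ).subgroupMap K
    have hker : ∀ x : K, x ∈ Λ.subgroupOf K → φ x = 1 := by
      intro x hx
      apply Subtype.ext
      show ((x : G) : G ⧸ Λ) = 1
      exact (QuotientGroup.eq_one_iff _).2 hx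
    let ψ : K ⧸ Λ.subgroupOf K →* K.map (QuotientGroup.mk' Λ) := QuotientGroup.lift _ φ hker
    refine Group.isSolvable_of_isSolvable_injective (f := ψ) ?_
    rw [injective_iff_map_eq_one]
    intro q hq
    obtain ⟨x, rfl⟩ := QuotientGroup.mk_surjective q
    rw [QuotientGroup.eq_one_iff]
    have h3 : φ x = 1 := hq
    exact (QuotientGroup.eq_one_iff (x : G)).1 (congrArg Subtype.val h3)
  exact ps_solvable_quotient _ h1

theorem finite_of_fi {H : Type} [Group H] (N : Subgroup H) [N.FiniteIndex] (hN : Finite N) :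
    Finite H := by
  refine Nat.finite_of_card_ne_zero ?_
  rw [← N.index_mul_card]
  exact mul_ne_zero Subgroup.FiniteIndex.index_ne_zero Nat.card_pos.ne'

theorem finite_of_relIndex {M N : Subgroup G} (hN : Finite N)
    (hrel : N.relIndex M ≠ 0) : Finite M := by
  have h1 : (N.subgroupOf M).FiniteIndex := ⟨hrel⟩
  have h2 : Finite (N.subgroupOf M) := by
    refine Finite.of_injective (fun x => (⟨((x : M) : G), x.2⟩ : N)) ?_
    intro x y hxy
    exact Subtype.ext (Subtype.ext (Subtype.mk.inj hxy))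
  exact finite_of_fi (N.subgroupOf M) h2

theorem relIndex_commutator (D : Subgroup G) (h : Finite (Abelianization D)) :
    (⁅D, D⁆).relIndex D ≠ 0 := by
  have h1 : (⁅D, D⁆).subgroupOf D = commutator D := by
    rw [commutator_def, ← Subgroup.comap_map_eq_self_of_injective D.subtype_injective ⁅⊤, ⊤⁆,
      Subgroup.map_commutator, ← MonoidHom.range_eq_map, Subgroup.range_subtype]
    rfl
  rw [Subgroup.relIndex, h1]
  haveI : Finite (D ⧸ commutator D) := h
  exact Subgroup.index_ne_zero_of_finite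

/-- a nonzero homomorphism on a subgroup of finite index -/
theorem case_one_lf [Countable G] (hG : CStarStable G) (Λ : Subgroup G) [Λ.Normal]
    (hΛ : LocFin Λ) (K : Subgroup G)
    [K.Normal] [K.FiniteIndex] (hK : Group.IsSolvable (K.map (QuotientGroup.mk' Λ)))
    (x : G → ℝ) (hx : HomOn K x) (hne : ∃ b ∈ K, x b ≠ 0) :
    Group.FG G ∧ ∃ H : Subgroup G, H.FiniteIndex ∧ Nonempty (H ≃* Multiplicative ℤ) := by
  obtain ⟨b₀, hb₀, hxb₀⟩ := hne
  have hW := weakStable_of_cstable hG
  have hPS : ∀ L : Subgroup G, L ≤ K → PS L := fun L hL =>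
    ps_of_map Λ hΛ L (solv_mono Λ K L hL hK)
  have hrk : ∀ L : Subgroup G, L ≤ K → L.Normal → L.FiniteIndex → ∀ y : G → ℝ, HomOn L y →
      ∃ c : ℝ, ∀ a ∈ L, y a = c * x a := by
    intro L hLK hLn hLf y hy
    obtain ⟨e, he, he'⟩ : ∃ e : ℕ, 0 < e ∧ b₀ ^ e ∈ L := by
      refine ⟨L.index, Nat.pos_of_ne_zero Subgroup.FiniteIndex.index_ne_zero, ?_⟩
      exact Subgroup.pow_index_mem L b₀
    have h1 : x (b₀ ^ e) ≠ 0 := by
      rw [hx.pow hb₀]
      exact mul_ne_zero (by exact_mod_cast he.ne') hxb₀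
    refine ⟨y (b₀ ^ e) / x (b₀ ^ e), fun a ha => ?_⟩
    have h2 := rank_one_ps hW L L le_rfl (hPS L hLK) x y (hx.mono hLK) hy a (b₀ ^ e) ha he'
    field_simp
    linarith
  let M : Subgroup G :=
    { carrier := {m | m ∈ K ∧ x m = 0}
      mul_mem' := by
        rintro a b ⟨ha, ha'⟩ ⟨hb, hb'⟩
        exact ⟨K.mul_mem ha hb, by rw [hx a ha b hb, ha', hb', add_zero]⟩
      one_mem' := ⟨K.one_mem, hx.one⟩
      inv_mem' := by
        rintro a ⟨ha, ha'⟩
        exact ⟨K.inv_mem ha, by rw [hx.inv ha, ha', neg_zero]⟩ }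
  have hM : ∀ m, m ∈ M ↔ m ∈ K ∧ x m = 0 := fun m => Iff.rfl
  have hMK : M ≤ K := fun m hm => hm.1
  haveI hMn : M.Normal := by
    constructor
    intro m hm g
    refine ⟨(inferInstance : K.Normal).conj_mem m hm.1 g, ?_⟩
    obtain ⟨c, hc⟩ := hrk K le_rfl inferInstance inferInstance (fun l => x (g * l * g⁻¹)) (by
      intro a ha b hb
      show x (g * (a * b) * g⁻¹) = x (g * a * g⁻¹) + x (g * b * g⁻¹)
      rw [← hx _ ((inferInstance : K.Normal).conj_mem a ha g) _
        ((inferInstance : K.Normal).conj_mem b hb g)]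
      congr 1
      group)
    have h1 := hc m hm.1
    rw [hm.2, mul_zero] at h1
    exact h1
  have hTor : Tor M := tor_of_rank K x hx
    (fun n _ _ ρ => exists_abelian_image_ps K (hPS K le_rfl) ρ) hrk M hM
  have hrat : ∀ a ∈ K, ∀ b ∈ K, x b ≠ 0 → ∃ N : ℕ, 0 < N ∧ ∃ k : ℤ, (N : ℝ) * x a = k * x b :=
    fun a ha b hb h0 => rational_of_rank K x hx (hrk K le_rfl inferInstance inferInstance) a b ha hb h0
  obtain ⟨τ, hτ, hτx⟩ := cyclic_image trace_rigid.1 trace_rigid.2 hG K x hx M hM hTor hrat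
    ⟨b₀, hb₀, hxb₀⟩
  have hτ0 : x τ ≠ 0 := by
    intro h0
    obtain ⟨k, hk⟩ := hτx b₀ hb₀
    rw [h0, mul_zero] at hk
    exact hxb₀ hk
  have hKd : ∀ a ∈ K, ∃ m ∈ M, ∃ e : ℤ, a = m * τ ^ e := by
    intro a ha
    obtain ⟨k, hk⟩ := hτx a ha
    refine ⟨a * (τ ^ k)⁻¹, ⟨K.mul_mem ha (K.inv_mem (K.zpow_mem hτ k)), ?_⟩, k, by group⟩
    rw [hx _ ha _ (K.inv_mem (K.zpow_mem hτ k)), hx.inv (K.zpow_mem hτ k), hx.zpow hτ, hk]
    ring
  have hfree : ∀ e : ℤ, τ ^ e ∈ M → e = 0 := by
    intro e he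
    have h1 := he.2
    rw [hx.zpow hτ] at h1
    rcases mul_eq_zero.1 h1 with h2 | h2
    · exact_mod_cast h2
    · exact absurd h2 hτ0
  have hLf : ∀ (N : Subgroup G) [N.Normal], N ≤ M → N.relIndex M ≠ 0 →
      (N ⊔ Subgroup.zpowers τ).FiniteIndex := by
    intro N _ hNM hrel
    have := sup_finiteIndex K M N hNM hMK hrel τ hτ hKd 1 one_pos
    rwa [pow_one] at this
  have hab : ∀ (N : Subgroup G) [N.Normal], N ≤ M → N.relIndex M ≠ 0 →
      Finite (Abelianization N) := by
    intro N _ hNM hrel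
    have hP : (Per N).Finite := Per_finite hG K M N hNM hMK hTor hrel τ hτ hKd hfree
    haveI := hLf N hNM hrel
    obtain ⟨F, hF⟩ := ab_fg hG N (N ⊔ Subgroup.zpowers τ) le_sup_left τ
      (Subgroup.mem_sup_right (Subgroup.mem_zpowers _)) (mem_sup_zpowers N τ)
      (fun e he => hfree e (hNM he)) (hTor.mono hNM)
    exact ab_finite_of_per N (N ⊔ Subgroup.zpowers τ) le_sup_left τ
      (Subgroup.mem_sup_right (Subgroup.mem_zpowers _)) (mem_sup_zpowers N τ) hP F hF
  have hds : ∀ n, (dser M n).relIndex M ≠ 0 := by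
    intro n
    induction n with
    | zero =>
      show M.relIndex M ≠ 0
      rw [Subgroup.relIndex_self]
      exact one_ne_zero
    | succ n ih =>
      haveI := dser_normal M n
      rw [dser_succ]
      exact Subgroup.relIndex_ne_zero_trans
        (relIndex_commutator _ (hab (dser M n) (dser_le M n) ih)) ih
  obtain ⟨n, hn⟩ := exists_dser_le Λ K M hMK hK
  haveI := dser_normal M n
  haveI := hLf (dser M n) (dser_le M n) (hds n)
  set N := dser M n with hN
  have hNfin : Finite N := by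
    let f : FreeGroup Unit →* G := FreeGroup.lift fun _ => τ
    have hfof : ∀ e : ℤ, f (FreeGroup.of () ^ e) = τ ^ e := by
      intro e
      rw [map_zpow]
      congr 1
      exact FreeGroup.lift_apply_of
    have hw : ∀ w : FreeGroup Unit, ∃ e : ℤ, w = FreeGroup.of () ^ e := by
      intro w
      refine ⟨FreeGroup.freeGroupUnitEquivInt w, ?_⟩
      have := FreeGroup.freeGroupUnitEquivInt.symm_apply_apply w
      exact this.symm
    refine locfin_finite hG N (N ⊔ Subgroup.zpowers τ) le_sup_left f ?_ ?_ ?_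
      (hΛ.mono' hn)
    · intro w
      obtain ⟨e, rfl⟩ := hw w
      rw [hfof]
      exact Subgroup.mem_sup_right (Subgroup.zpow_mem _ (Subgroup.mem_zpowers _) _)
    · intro l hl
      obtain ⟨m, hm, e, he⟩ := mem_sup_zpowers N τ l hl
      exact ⟨m, hm, FreeGroup.of () ^ e, by rw [hfof]; exact he⟩
    · intro w hwN
      obtain ⟨e, rfl⟩ := hw w
      rw [hfof] at hwN
      rw [hfree e (dser_le M n hwN), zpow_zero]
  have hMfin : Finite M := finite_of_relIndex hNfin (hds n)
  refine virtually_cyclic_of_finite K M hMfin τ hτ hKd fun e he => hfree e ?_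
  rw [he]
  exact M.one_mem

/-- **(Locally finite)-by-(virtually solvable) `C*`-stable groups** are finitely generated, and finite or
virtually infinite cyclic. -/
theorem main_lf_solvable [Countable G] (hG : CStarStable G) (Λ : Subgroup G) [Λ.Normal]
    (hΛ : LocFin Λ) (K : Subgroup (G ⧸ Λ)) [K.FiniteIndex] (hK : Group.IsSolvable K) :
    Group.FG G ∧ ∃ H : Subgroup G, H.FiniteIndex ∧ (H = ⊥ ∨ Nonempty (H ≃* Multiplicative ℤ)) := by
  set K₀ : Subgroup G := (K.comap (QuotientGroup.mk' Λ)).normalCore with hK₀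
  haveI : (K.comap (QuotientGroup.mk' Λ)).FiniteIndex := by
    constructor
    rw [Subgroup.index_comap_of_surjective _ (QuotientGroup.mk'_surjective Λ)]
    exact Subgroup.FiniteIndex.index_ne_zero
  haveI : K₀.FiniteIndex := by rw [hK₀]; infer_instance
  have hle : K₀.map (QuotientGroup.mk' Λ) ≤ K := by
    rw [Subgroup.map_le_iff_le_comap]
    exact Subgroup.normalCore_le _
  have hS : Group.IsSolvable (K₀.map (QuotientGroup.mk' Λ)) :=
    Group.isSolvable_of_isSolvable_injective (Subgroup.inclusion_injective hle)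
  by_cases hcase : ∃ L : Subgroup G, L ≤ K₀ ∧ L.Normal ∧ L.FiniteIndex ∧ ∃ y : G → ℝ,
      HomOn L y ∧ ∃ b ∈ L, y b ≠ 0
  · obtain ⟨L, hLK, hLn, hLf, y, hy, hne⟩ := hcase
    obtain ⟨h1, H, h2, h3⟩ := case_one_lf hG Λ hΛ L (solv_mono Λ K₀ L hLK hS) y hy hne
    exact ⟨h1, H, h2, Or.inr h3⟩
  · push_neg at hcase
    have hTor : Tor K₀ := tor_of_rank K₀ (fun _ => 0)
      (fun _ _ _ _ => by simp)
      (fun n _ _ ρ => exists_abelian_image_ps K₀ (ps_of_map Λ hΛ K₀ hS) ρ)
      (fun L hLK hLn hLf y hy => ⟨0, fun a ha => by rw [hcase L hLK hLn hLf y hy a ha]; simp⟩)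
      K₀ (fun m => by simp)
    have hds : ∀ n, (dser K₀ n).FiniteIndex := by
      intro n
      induction n with
      | zero => exact ‹K₀.FiniteIndex›
      | succ n ih =>
        haveI := dser_normal K₀ n
        have h1 := claimA' hG (dser K₀ n) (dser K₀ n) le_rfl (hTor.mono (dser_le K₀ n))
        rw [dser_succ]
        constructor
        have h2 := Subgroup.relIndex_ne_zero_trans h1
          (show (dser K₀ n).relIndex ⊤ ≠ 0 by
            rw [Subgroup.relIndex_top_right]; exact ih.index_ne_zero)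
        rwa [Subgroup.relIndex_top_right] at h2
    obtain ⟨n, hn⟩ := exists_dser_le Λ K₀ K₀ le_rfl hS
    haveI := dser_normal K₀ n
    haveI := hds n
    have hNfin : Finite (dser K₀ n) := by
      refine locfin_finite hG (dser K₀ n) (dser K₀ n) le_rfl (X := Empty) 1
        (fun w => Subgroup.one_mem _) (fun l hl => ⟨l, hl, 1, by simp⟩)
        (fun w _ => Subsingleton.elim _ _) (hΛ.mono' hn)
    have hfin : Finite G := finite_of_fi (dser K₀ n) hNfin
    exact ⟨inferInstance, ⊥, inferInstance, Or.inl rfl⟩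

end Pool.Agent.Helper72CS
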