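import Pool.Agent.Helper72_CS.LocFinCore

/-!
# `C*`-stable groups with a locally finite normal subgroup and virtually free quotient
-/

set_option autoImplicit false

open Set Filter Topology

noncomputable section

namespace Pool.Agent.Helper72CS

variable {G : Type} [Group G]

/-- **(Locally finite)-by-(virtually free) `C*`-stable groups** are virtually free. -/
theorem main_lf_free [Countable G] (hG : CStarStable G) (Λ : Subgroup G) [Λ.Normal]
    (hΛ : LocFin Λ) (K : Subgroup (G ⧸ Λ)) [K.FiniteIndex] [IsFreeGroup K] :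
    Finite Λ ∧ ∃ H : Subgroup G, H.FiniteIndex ∧ IsFreeGroup H := by
  classical
  set π := QuotientGroup.mk' Λ with hπ
  have hπs : Function.Surjective π := QuotientGroup.mk'_surjective Λ
  have hπ1 : ∀ g : G, π g = 1 ↔ g ∈ Λ := fun g => QuotientGroup.eq_one_iff g
  set L : Subgroup G := K.comap π with hL
  have hLf : L.FiniteIndex := by
    constructor
    rw [Subgroup.index_comap_of_surjective _ hπs]
    exact Subgroup.FiniteIndex.index_ne_zero
  have hΛL : Λ ≤ L := by
    intro g hg
    show π g ∈ K
    rw [(hπ1 g).2 hg]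
    exact K.one_mem
  let e : K ≃* FreeGroup (IsFreeGroup.Generators K) := IsFreeGroup.toFreeGroup K
  have hcK : Countable K := by
    have h1 : Countable (G ⧸ Λ) := Function.Surjective.countable hπs
    exact Function.Injective.countable K.subtype_injective
  have hX : Countable (IsFreeGroup.Generators K) :=
    Function.Injective.countable (f := fun x => e.symm (FreeGroup.of x))
      (e.symm.injective.comp FreeGroup.of_injective)
  have hsec : ∀ x : IsFreeGroup.Generators K, ∃ g : G, π g = (e.symm (FreeGroup.of x) : K) :=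
    fun x => hπs _
  choose s hs using hsec
  let f : FreeGroup (IsFreeGroup.Generators K) →* G := FreeGroup.lift s
  have hf : ∀ w, π (f w) = (e.symm w : K) := by
    have : π.comp f = K.subtype.comp e.symm.toMonoidHom := by
      ext1 x
      show π (FreeGroup.lift s (FreeGroup.of x)) = _
      rw [FreeGroup.lift_apply_of, hs]
      rfl
    exact fun w => DFunLike.congr_fun this w
  have hfL : ∀ w, f w ∈ L := fun w => by
    show π (f w) ∈ K
    rw [hf]
    exact (e.symm w).2
  have hfree : ∀ w, f w ∈ Λ → w = 1 := by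
    intro w hw
    have h1 : π (f w) = 1 := (hπ1 _).2 hw
    rw [hf] at h1
    have h2 : e.symm w = 1 := Subtype.ext h1
    rwa [map_eq_one_iff _ e.symm.injective] at h2
  have hdec : ∀ l ∈ L, ∃ m ∈ Λ, ∃ w, l = m * f w := by
    intro l hl
    refine ⟨l * (f (e ⟨π l, hl⟩))⁻¹, ?_, e ⟨π l, hl⟩, by group⟩
    rw [← hπ1, map_mul, map_inv, hf, e.symm_apply_apply]
    exact mul_inv_cancel _
  have hfin : Finite Λ := locfin_finite hG Λ L hΛL f hfL hdec hfree hΛ
  refine ⟨hfin, f.range, ?_, ?_⟩
  · have hle : f.range ≤ L := by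
      rintro _ ⟨w, rfl⟩
      exact hfL w
    have h1 : f.range.relIndex L ≠ 0 := by
      let q : Λ → L ⧸ f.range.subgroupOf L := fun m => QuotientGroup.mk (⟨m, hΛL m.2⟩)⁻¹
      have hq : Function.Surjective q := by
        intro c
        obtain ⟨l, rfl⟩ := QuotientGroup.mk_surjective c
        -- `l⁻¹ = m f w`, so `l = (f w)⁻¹ m⁻¹ = (conjugate of m⁻¹) (f w)⁻¹`
        obtain ⟨m, hm, w, hw⟩ := hdec l l.2
        refine ⟨⟨m⁻¹, Λ.inv_mem hm⟩, ?_⟩
        show (QuotientGroup.mk _ : L ⧸ f.range.subgroupOf L) = QuotientGroup.mk l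
        rw [QuotientGroup.eq, Subgroup.mem_subgroupOf]
        show ((m⁻¹)⁻¹)⁻¹ * (l : G) ∈ f.range
        rw [hw, inv_inv, inv_mul_cancel_left]
        exact ⟨w, rfl⟩
      have : Finite (L ⧸ f.range.subgroupOf L) := Finite.of_surjective q hq
      exact Subgroup.index_ne_zero_of_finite
    constructor
    rw [← Subgroup.relIndex_mul_index hle]
    exact mul_ne_zero h1 hLf.index_ne_zero
  · have hinj : Function.Injective f := by
      rw [injective_iff_map_eq_one]
      intro w hw
      exact hfree w (by rw [hw]; exact Λ.one_mem)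
    exact IsFreeGroup.ofMulEquiv (MonoidHom.ofInjective hinj)

end Pool.Agent.Helper72CS
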