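/-
HOW TO START: this file imports small modules which are on origin/main. Do
  cd /workdir/pool/outputs/live && git fetch && git checkout origin/main -- Pool/Agent/Helper72_CS Pool/Agent/Helper757/GL ; git reset -q
  mkdir -p /workdir/pool/Pool/Agent/Helper757 && cp -r Pool/Agent/Helper72_CS /workdir/pool/Pool/Agent/ && cp -r Pool/Agent/Helper757/GL /workdir/pool/Pool/Agent/Helper757/
  cd /workdir/pool && lake build Pool.Agent.Helper72_CS.Defs2 (plus the other modules the file imports)
(1-2 minutes). The definitions are in Pool/Agent/Helper72_CS/{Ind,Fam,Grp,LSDefs,Defs2}.lean (short; read them first).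
Note: inside the namespace, `continuous_pi` is another lemma; write `_root_.continuous_pi`.
-/
import Pool.Agent.Helper72_CS.Defs2

/-!
JOB path_lemma: asymptotic paths between representations of a `C*`-stable group are close to paths of representations.

Proof. Use `perturb` (`Pool/Agent/Helper72_CS/Perturb.lean`) with the `C*`-algebras `C(unitInterval, D j)`, `E j = C(Bool, D j)` and the star homomorphism `resS i`
(`Pool/Agent/Helper72_CS/Fam.lean`) of restriction along `i : Bool → unitInterval` with `i false = 0`, `i true = 1`.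
The almost representation to which it is applied is `Ψ j g` corrected at the end points:
`φ j g t = Ψ j g t + (1 - t) • (ρ j g - Ψ j g 0) + t • (ρ' j g - Ψ j g 1)`, so that `φ j g 0 = ρ j g`, `φ j g 1 = ρ' j g` and
`‖φ j g - Ψ j g‖ ≤ ‖ρ j g - Ψ j g 0‖ + ‖ρ' j g - Ψ j g 1‖ → 0`. See the proof of `family` in `Fam.lean` for a very similar argument (in particular for how
to build the representation into `unitary C(Bool, D j)` and how to evaluate the result at points with `mapU (evS t)`).
The conclusion of `perturb` gives, for large `j`, equality at both end points for all `g`.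
-/

set_option autoImplicit false

open Set Filter Topology

noncomputable section

namespace Pool.Agent.Helper72CS

/-- TARGET -/
theorem path_lemma {G : Type} [Group G] [Countable G] (hG : CStarStable G)
    {D : ℕ → Type} [∀ j, CStarAlgebra (D j)] [∀ j, Nontrivial (D j)]
    (Ψ : ∀ j, G → unitInterval → D j) (hc : ∀ j g, Continuous (Ψ j g))
    (hb : ∀ g, ∃ C : ℝ, ∀ j t, ‖Ψ j g t‖ ≤ C)
    (hmul : ∀ g h, ∀ ε : ℝ, 0 < ε → ∀ᶠ j in atTop, ∀ t, ‖Ψ j (g * h) t - Ψ j g t * Ψ j h t‖ ≤ ε)
    (hstar : ∀ g, ∀ ε : ℝ, 0 < ε → ∀ᶠ j in atTop, ∀ t, ‖star (Ψ j g t) - Ψ j g⁻¹ t‖ ≤ ε)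
    (hone : ∀ ε : ℝ, 0 < ε → ∀ᶠ j in atTop, ∀ t, ‖Ψ j 1 t - 1‖ ≤ ε)
    (ρ ρ' : ∀ j, G →* unitary (D j))
    (h0 : ∀ g, Tendsto (fun j => ‖(ρ j g : D j) - Ψ j g 0‖) atTop (𝓝 0))
    (h1 : ∀ g, Tendsto (fun j => ‖(ρ' j g : D j) - Ψ j g 1‖) atTop (𝓝 0)) :
    ∀ᶠ j in atTop, ∃ ψ : unitInterval → G →* unitary (D j),
      (∀ g, Continuous fun t => (ψ t g : D j)) ∧ ψ 0 = ρ j ∧ ψ 1 = ρ' j := by
  classical
  choose C hC using hb
  -- the maps into the continuous functions
  let Pc : ∀ j, G → C(unitInterval, D j) := fun j g => ⟨Ψ j g, hc j g⟩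
  have hcR : Continuous fun t : unitInterval => ((t : ℝ) : ℂ) :=
    Complex.continuous_ofReal.comp continuous_subtype_val
  let Rc : ∀ j, G → C(unitInterval, D j) := fun j g =>
    ⟨fun t => (1 - ((t : ℝ) : ℂ)) • ((ρ j g : D j) - Ψ j g 0) +
      ((t : ℝ) : ℂ) • ((ρ' j g : D j) - Ψ j g 1),
      ((continuous_const.sub hcR).smul continuous_const).add (hcR.smul continuous_const)⟩
  let F : ∀ j, G → C(unitInterval, D j) := fun j g => Pc j g + Rc j g
  have hto : ∀ H : ∀ j, C(unitInterval, D j),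
      (∀ ε : ℝ, 0 < ε → ∀ᶠ j in atTop, ∀ x, ‖H j x‖ ≤ ε) →
      Tendsto (fun j => ‖H j‖) atTop (𝓝 0) := by
    intro H hH
    rw [Metric.tendsto_atTop]
    intro ε hε
    obtain ⟨N, hN⟩ := eventually_atTop.1 (hH (ε / 2) (half_pos hε))
    refine ⟨N, fun n hn => ?_⟩
    rw [Real.dist_eq, sub_zero, abs_norm]
    exact ((ContinuousMap.norm_le _ (half_pos hε).le).2 (hN n hn)).trans_lt (half_lt_self hε)
  have hRn : ∀ j g, ‖Rc j g‖ ≤ ‖(ρ j g : D j) - Ψ j g 0‖ + ‖(ρ' j g : D j) - Ψ j g 1‖ := by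
    intro j g
    refine (ContinuousMap.norm_le _ (by positivity)).2 fun t => ?_
    show ‖(1 - ((t : ℝ) : ℂ)) • ((ρ j g : D j) - Ψ j g 0) +
      ((t : ℝ) : ℂ) • ((ρ' j g : D j) - Ψ j g 1)‖ ≤ _
    refine (norm_add_le _ _).trans (add_le_add ?_ ?_)
    · rw [norm_smul]
      have h : ‖(1 - ((t : ℝ) : ℂ))‖ ≤ 1 := by
        rw [show (1 - ((t : ℝ) : ℂ)) = ((1 - (t : ℝ) : ℝ) : ℂ) by push_cast; rfl,
          Complex.norm_real, Real.norm_eq_abs, abs_of_nonneg (by linarith [t.2.2])]
        linarith [t.2.1]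
      calc _ ≤ 1 * ‖(ρ j g : D j) - Ψ j g 0‖ := by gcongr
        _ = _ := one_mul _
    · rw [norm_smul]
      have h : ‖((t : ℝ) : ℂ)‖ ≤ 1 := by
        rw [Complex.norm_real, Real.norm_eq_abs, abs_of_nonneg t.2.1]
        exact t.2.2
      calc _ ≤ 1 * ‖(ρ' j g : D j) - Ψ j g 1‖ := by gcongr
        _ = _ := one_mul _
  have hR0 : ∀ g, Tendsto (fun j => ‖Rc j g‖) atTop (𝓝 0) := by
    intro g
    have h := (h0 g).add (h1 g)
    rw [add_zero] at h
    exact squeeze_zero (fun _ => norm_nonneg _) (fun j => hRn j g) h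
  have hCn : ∀ g, 0 ≤ C g := fun g => (norm_nonneg _).trans (hC g 0 0)
  have hPn : ∀ j g, ‖Pc j g‖ ≤ C g := fun j g =>
    (ContinuousMap.norm_le _ (hCn g)).2 fun t => hC g j t
  have hun : ∀ (j : ℕ) (w : unitary (D j)), ‖(w : D j)‖ = 1 := fun j w =>
    CStarRing.norm_of_mem_unitary w.2
  have hFn : ∀ j g, ‖F j g‖ ≤ C g + ((1 + C g) + (1 + C g)) := by
    intro j g
    refine (norm_add_le _ _).trans (add_le_add (hPn j g) ((hRn j g).trans (add_le_add ?_ ?_)))
    · refine (norm_sub_le _ _).trans (add_le_add (hun j _).le (hC g j 0))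
    · refine (norm_sub_le _ _).trans (add_le_add (hun j _).le (hC g j 1))
  have hmul' : ∀ g h, Tendsto (fun j => ‖Pc j (g * h) - Pc j g * Pc j h‖) atTop (𝓝 0) :=
    fun g h => hto _ fun ε hε => hmul g h ε hε
  have hstar' : ∀ g, Tendsto (fun j => ‖star (Pc j g) - Pc j g⁻¹‖) atTop (𝓝 0) :=
    fun g => hto _ fun ε hε => hstar g ε hε
  have hone' : Tendsto (fun j => ‖Pc j 1 - 1‖) atTop (𝓝 0) := hto _ fun ε hε => hone ε hε
  -- the same for `F`
  have fmul : ∀ g h, Tendsto (fun j => ‖F j (g * h) - F j g * F j h‖) atTop (𝓝 0) := by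
    intro g h
    have hl := (((hR0 (g * h)).add (hmul' g h)).add ((hR0 h).const_mul (C g))).add
      ((hR0 g).mul_const (C h + ((1 + C h) + (1 + C h))))
    simp only [add_zero, mul_zero, zero_mul] at hl
    refine squeeze_zero (fun _ => norm_nonneg _) (fun j => ?_) hl
    have e : F j (g * h) - F j g * F j h = Rc j (g * h) + (Pc j (g * h) - Pc j g * Pc j h)
        - Pc j g * Rc j h - Rc j g * F j h := by
      show (Pc j (g * h) + Rc j (g * h)) - (Pc j g + Rc j g) * (Pc j h + Rc j h) = _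
      show _ = Rc j (g * h) + (Pc j (g * h) - Pc j g * Pc j h)
        - Pc j g * Rc j h - Rc j g * (Pc j h + Rc j h)
      noncomm_ring
    rw [e]
    refine (norm_sub_le _ _).trans (add_le_add ((norm_sub_le _ _).trans
      (add_le_add (norm_add_le _ _) ?_)) ?_)
    · exact (norm_mul_le _ _).trans (mul_le_mul_of_nonneg_right (hPn j g) (norm_nonneg _))
    · exact (norm_mul_le _ _).trans (mul_le_mul_of_nonneg_left (hFn j h) (norm_nonneg _))
  have fstar : ∀ g, Tendsto (fun j => ‖star (F j g) - F j g⁻¹‖) atTop (𝓝 0) := by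
    intro g
    have hl := ((hR0 g).add (hstar' g)).add (hR0 g⁻¹)
    simp only [add_zero] at hl
    refine squeeze_zero (fun _ => norm_nonneg _) (fun j => ?_) hl
    have e : star (F j g) - F j g⁻¹ = star (Rc j g) + (star (Pc j g) - Pc j g⁻¹) - Rc j g⁻¹ := by
      show star (Pc j g + Rc j g) - (Pc j g⁻¹ + Rc j g⁻¹) = _
      rw [star_add]
      abel
    rw [e]
    have e2 : ‖star (Rc j g)‖ = ‖Rc j g‖ := norm_star (Rc j g)
    refine (norm_sub_le _ _).trans (add_le_add ((norm_add_le _ _).trans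
      (add_le_add e2.le le_rfl)) le_rfl)
  have fone : Tendsto (fun j => ‖F j 1 - 1‖) atTop (𝓝 0) := by
    have hl := (hR0 1).add hone'
    simp only [add_zero] at hl
    refine squeeze_zero (fun _ => norm_nonneg _) (fun j => ?_) hl
    have e : F j 1 - 1 = Rc j 1 + (Pc j 1 - 1) := by
      show (Pc j 1 + Rc j 1) - 1 = _
      abel
    rw [e]
    exact norm_add_le _ _
  -- the end points
  let i : C(Bool, unitInterval) := ⟨fun b => cond b 1 0, continuous_of_discreteTopology⟩
  have F0 : ∀ j g, F j g 0 = ρ j g := by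
    intro j g
    show Ψ j g 0 + ((1 - (((0 : unitInterval) : ℝ) : ℂ)) • ((ρ j g : D j) - Ψ j g 0) +
      (((0 : unitInterval) : ℝ) : ℂ) • ((ρ' j g : D j) - Ψ j g 1)) = _
    simp
  have F1 : ∀ j g, F j g 1 = ρ' j g := by
    intro j g
    show Ψ j g 1 + ((1 - (((1 : unitInterval) : ℝ) : ℂ)) • ((ρ j g : D j) - Ψ j g 0) +
      (((1 : unitInterval) : ℝ) : ℂ) • ((ρ' j g : D j) - Ψ j g 1)) = _
    simp
  let σ : ∀ j, Bool → G →* unitary (D j) := fun j b => cond b (ρ' j) (ρ j)
  let ρE : ∀ j, G →* unitary C(Bool, D j) := fun j =>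
    { toFun := fun g => ⟨⟨fun b => (σ j b g : D j), continuous_of_discreteTopology⟩, by
          rw [Unitary.mem_iff]
          constructor
          · ext1 y
            exact Unitary.coe_star_mul_self (σ j y g)
          · ext1 y
            exact Unitary.coe_mul_star_self (σ j y g)⟩
      map_one' := by
        apply Subtype.ext
        ext1 y
        show (σ j y 1 : D j) = 1
        rw [map_one]
        rfl
      map_mul' := fun g h => by
        apply Subtype.ext
        ext1 y
        show (σ j y (g * h) : D j) = σ j y g * σ j y h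
        rw [map_mul]
        rfl }
  obtain ⟨ψ, e1, -⟩ := perturb hG (D := fun j => C(unitInterval, D j))
    (E := fun j => C(Bool, D j))
    (fun j => (resS i : C(unitInterval, D j) →⋆ₐ[ℂ] C(Bool, D j))) F
    (fun g => ⟨_, fun j => hFn j g⟩) ρE (by
      intro j g
      ext1 b
      cases b
      · exact F0 j g
      · exact F1 j g) fmul fstar fone
  filter_upwards [e1] with j hj
  refine ⟨fun t => (mapU (evS t)).comp (ψ j),
    fun g => (ψ j g : C(unitInterval, D j)).continuous, ?_, ?_⟩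
  · ext1 g
    apply Subtype.ext
    have h3 := congrArg (fun f : C(Bool, D j) => f false) (hj g)
    exact h3.trans (F0 j g)
  · ext1 g
    apply Subtype.ext
    have h3 := congrArg (fun f : C(Bool, D j) => f true) (hj g)
    exact h3.trans (F1 j g)

end Pool.Agent.Helper72CS
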