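import Mathlib

/-!
# Closed star subalgebras generated by countable sets
-/

set_option autoImplicit false

open Set Filter Topology TopologicalSpace

noncomputable section

namespace Pool.Agent.Helper72CS

variable {P : Type} [CStarAlgebra P]

theorem sep_closure {T : Set P} (hT : IsSeparable T) :
    IsSeparable (Submonoid.closure T : Set P) := by
  have h1 : (Submonoid.closure T : Set P) ⊆ ⋃ n : ℕ,
      (fun v : Fin n → P => (List.ofFn v).prod) '' (Set.univ.pi fun _ => T) := by
    intro x hx
    obtain ⟨l, hl, rfl⟩ := Submonoid.exists_list_of_mem_closure hx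
    refine Set.mem_iUnion.2 ⟨l.length, l.get, ?_, ?_⟩
    · intro i _
      exact hl _ (List.get_mem l i)
    · simp
  refine IsSeparable.mono (IsSeparable.iUnion fun n => ?_) h1
  refine IsSeparable.image (IsSeparable.univ_pi fun _ => hT) ?_
  have h2 : (fun v : Fin n → P => (List.ofFn v).prod) =
      fun v => ((List.finRange n).map v).prod := by
    funext v
    rw [List.ofFn_eq_map]
  rw [h2]
  exact continuous_list_prod _ fun i _ => continuous_apply i

/-- the C*-subalgebra generated by `S` -/
def SA (S : Set P) : StarSubalgebra ℂ P := (StarAlgebra.adjoin ℂ S).topologicalClosure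

instance (S : Set P) : IsClosed (SA S : Set P) := StarSubalgebra.isClosed_topologicalClosure _

/-- the C*-subalgebra generated by `S`, as a type -/
def SAT (S : Set P) : Type := SA S

instance (S : Set P) : CStarAlgebra (SAT S) := by
  exact (inferInstance : CStarAlgebra (SA S))

/-- the inclusion -/
def incl (S : Set P) : SAT S →⋆ₐ[ℂ] P := (SA S).subtype

theorem incl_injective (S : Set P) : Function.Injective (incl S) := Subtype.val_injective

theorem norm_incl (S : Set P) (x : SAT S) : ‖incl S x‖ = ‖x‖ := rfl

theorem exists_incl (S : Set P) {x : P} (hx : x ∈ S) : ∃ b : SAT S, incl S b = x :=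
  ⟨(⟨x, StarSubalgebra.le_topologicalClosure _ (StarAlgebra.subset_adjoin ℂ S hx)⟩ : SA S), rfl⟩

theorem isSeparable_SA {S : Set P} (hS : S.Countable) : IsSeparable (SA S : Set P) := by
  have hT : IsSeparable (S ∪ star S) := by
    refine hS.isSeparable.union ?_
    have : star S = star '' S := by
      ext x
      simp
    rw [this]
    exact hS.isSeparable.image continuous_star
  have h1 : IsSeparable (StarAlgebra.adjoin ℂ S : Set P) := by
    have h2 : (StarAlgebra.adjoin ℂ S : Set P) =
        (Submodule.span ℂ (Submonoid.closure (S ∪ star S) : Set P) : Set P) := by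
      rw [← Algebra.adjoin_eq_span, ← StarAlgebra.adjoin_toSubalgebra]
      rfl
    rw [h2]
    exact (sep_closure hT).span
  unfold SA
  rw [StarSubalgebra.topologicalClosure_coe]
  exact h1.closure

theorem separable_SAT {S : Set P} (hS : S.Countable) : SeparableSpace (SAT S) :=
  (isSeparable_SA hS).separableSpace

end Pool.Agent.Helper72CS
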