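import Pool.Agent.Helper72_CS.Defs
import Pool.Agent.Helper72_CS.Sub
import Pool.Agent.Helper757.GL.Quot

/-!
# Almost representations of `C*`-stable groups are close to representations
-/

set_option autoImplicit false

open Set Filter Topology TopologicalSpace
open scoped ENNReal
open Pool.Agent.Helper757.GL

noncomputable section

namespace Pool.Agent.Helper72CS

section Prod

variable {D E : ℕ → Type} [∀ j, CStarAlgebra (D j)] [∀ j, CStarAlgebra (E j)]
  [∀ j, Nontrivial (D j)]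

instance instPD : CStarAlgebra (lp D ∞) where

/-- a bounded sequence, as an element of the product -/
def seq (x : ∀ j, D j) (hx : ∃ C, ∀ j, ‖x j‖ ≤ C) : lp D ∞ :=
  ⟨x, memℓp_infty (by
    obtain ⟨C, hC⟩ := hx
    exact ⟨C, by rintro _ ⟨j, rfl⟩; exact hC j⟩)⟩

theorem norm_apply_le (x : lp D ∞) (j : ℕ) : ‖x j‖ ≤ ‖x‖ := lp.norm_apply_le_norm (by simp) x j

theorem norm_le_of (x : lp D ∞) {C : ℝ} (hC : 0 ≤ C) (h : ∀ j, ‖x j‖ ≤ C) : ‖x‖ ≤ C :=
  lp.norm_le_of_forall_le hC h

/-- the cutoff projections -/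
def cutP (n : ℕ) : lp D ∞ := seq (fun j => if j < n then 1 else 0) ⟨1, fun j => by
  split_ifs <;> simp⟩

variable (π : ∀ j, D j →⋆ₐ[ℂ] E j) (S : Set (lp D ∞))

/-- the evaluation at `j` -/
def ev (j : ℕ) (b : SAT S) : D j := incl S b j

variable {S}

theorem ev_add (j : ℕ) (a b : SAT S) : ev S j (a + b) = ev S j a + ev S j b := by
  unfold ev
  rw [map_add]
  rfl

theorem ev_sub (j : ℕ) (a b : SAT S) : ev S j (a - b) = ev S j a - ev S j b := by
  unfold ev
  rw [map_sub]
  rfl

theorem ev_zero (j : ℕ) : ev S j 0 = 0 := by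
  unfold ev
  rw [map_zero]
  rfl

theorem ev_smul (j : ℕ) (c : ℂ) (a : SAT S) : ev S j (c • a) = c • ev S j a := by
  unfold ev
  rw [map_smul]
  rfl

theorem ev_mul (j : ℕ) (a b : SAT S) : ev S j (a * b) = ev S j a * ev S j b := by
  unfold ev
  rw [map_mul]
  rfl

theorem ev_one (j : ℕ) : ev S j 1 = 1 := by
  unfold ev
  rw [map_one]
  rfl

theorem ev_star (j : ℕ) (a : SAT S) : ev S j (star a) = star (ev S j a) := by
  unfold ev
  rw [map_star]
  rfl

theorem norm_ev_le (j : ℕ) (a : SAT S) : ‖ev S j a‖ ≤ ‖a‖ := by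
  unfold ev
  exact (norm_apply_le _ _).trans_eq (norm_incl S a)

theorem continuous_ev (j : ℕ) : Continuous (ev S j) := by
  refine continuous_iff_continuousAt.2 fun a => ?_
  rw [ContinuousAt, tendsto_iff_norm_sub_tendsto_zero]
  have h : Tendsto (fun b => ‖b - a‖) (𝓝 a) (𝓝 0) := tendsto_iff_norm_sub_tendsto_zero.1 tendsto_id
  refine squeeze_zero (fun _ => norm_nonneg _) (fun b => ?_) h
  rw [← ev_sub]
  exact norm_ev_le _ _

variable (S)

/-- the ideals `J n` -/
def Jn (n : ℕ) : Submodule ℂ (SAT S) where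
  carrier := {b | (∀ j, π j (ev S j b) = 0) ∧ ∀ j, n ≤ j → ev S j b = 0}
  add_mem' := by
    rintro a b ⟨ha, ha'⟩ ⟨hb, hb'⟩
    refine ⟨fun j => ?_, fun j hj => ?_⟩
    · rw [ev_add, map_add, ha, hb, add_zero]
    · rw [ev_add, ha' j hj, hb' j hj, add_zero]
  zero_mem' := ⟨fun j => by rw [ev_zero, map_zero], fun j _ => ev_zero j⟩
  smul_mem' := by
    rintro c b ⟨hb, hb'⟩
    refine ⟨fun j => ?_, fun j hj => ?_⟩
    · rw [ev_smul, map_smul, hb, smul_zero]
    · rw [ev_smul, hb' j hj, smul_zero]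

/-- the ideal `J` -/
def JI : Submodule ℂ (SAT S) where
  carrier := {b | (∀ j, π j (ev S j b) = 0) ∧ Tendsto (fun j => ‖ev S j b‖) atTop (𝓝 0)}
  add_mem' := by
    rintro a b ⟨ha, ha'⟩ ⟨hb, hb'⟩
    refine ⟨fun j => ?_, ?_⟩
    · rw [ev_add, map_add, ha, hb, add_zero]
    · have h := ha'.add hb'
      rw [add_zero] at h
      refine squeeze_zero (fun _ => norm_nonneg _) (fun j => ?_) h
      rw [ev_add]
      exact norm_add_le _ _
  zero_mem' := ⟨fun j => by rw [ev_zero, map_zero], by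
    have : (fun j => ‖ev S j 0‖) = fun _ => (0 : ℝ) := by
      funext j
      rw [ev_zero, norm_zero]
    rw [this]
    exact tendsto_const_nhds⟩
  smul_mem' := by
    rintro c b ⟨hb, hb'⟩
    refine ⟨fun j => ?_, ?_⟩
    · rw [ev_smul, map_smul, hb, smul_zero]
    · have h := hb'.const_mul ‖c‖
      rw [mul_zero] at h
      refine h.congr fun j => ?_
      rw [ev_smul, norm_smul]

theorem continuous_pi (j : ℕ) : Continuous (π j) :=
  AddMonoidHomClass.continuous_of_bound (π j) 1 fun x => by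
    rw [one_mul]
    exact NonUnitalStarAlgHom.norm_apply_le (π j) x

theorem CI_Jn (n : ℕ) : CI (Jn π S n) where
  closed := by
    have h : (Jn π S n : Set (SAT S)) = (⋂ j, {b | π j (ev S j b) = 0}) ∩
        ⋂ j, ⋂ _ : n ≤ j, {b | ev S j b = 0} := by
      ext b
      simp only [mem_inter_iff, mem_iInter, mem_setOf_eq]
      rfl
    rw [h]
    refine IsClosed.inter (isClosed_iInter fun j => ?_)
      (isClosed_iInter fun j => isClosed_iInter fun _ => ?_)
    · exact isClosed_eq ((continuous_pi π j).comp (continuous_ev j)) continuous_const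
    · exact isClosed_eq (continuous_ev j) continuous_const
  hl := by
    rintro a x ⟨hx, hx'⟩
    refine ⟨fun j => ?_, fun j hj => ?_⟩
    · rw [ev_mul, map_mul, hx, mul_zero]
    · rw [ev_mul, hx' j hj, mul_zero]
  hr := by
    rintro a x ⟨hx, hx'⟩
    refine ⟨fun j => ?_, fun j hj => ?_⟩
    · rw [ev_mul, map_mul, hx, zero_mul]
    · rw [ev_mul, hx' j hj, zero_mul]

theorem CI_JI : CI (JI π S) where
  closed := by
    refine isClosed_of_closure_subset fun b hb => ?_
    refine ⟨fun j => ?_, ?_⟩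
    · have hc : IsClosed {b | π j (ev S j b) = 0} :=
        isClosed_eq ((continuous_pi π j).comp (continuous_ev j)) continuous_const
      exact hc.closure_subset_iff.2 (fun x hx => hx.1 j) hb
    · rw [Metric.tendsto_atTop]
      intro ε hε
      obtain ⟨c, hc, hbc⟩ := Metric.mem_closure_iff.1 hb (ε / 2) (half_pos hε)
      obtain ⟨N, hN⟩ := Metric.tendsto_atTop.1 hc.2 (ε / 2) (half_pos hε)
      refine ⟨N, fun n hn => ?_⟩
      have h1 := hN n hn
      rw [Real.dist_eq, sub_zero, abs_norm] at h1 ⊢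
      have h2 : ‖ev S n (b - c)‖ < ε / 2 := (norm_ev_le n _).trans_lt (by rwa [← dist_eq_norm])
      rw [ev_sub] at h2
      have h3 := norm_add_le (ev S n b - ev S n c) (ev S n c)
      rw [sub_add_cancel] at h3
      linarith
  hl := by
    rintro a x ⟨hx, hx'⟩
    refine ⟨fun j => ?_, ?_⟩
    · rw [ev_mul, map_mul, hx, mul_zero]
    · have h := hx'.const_mul ‖a‖
      rw [mul_zero] at h
      refine squeeze_zero (fun _ => norm_nonneg _) (fun j => ?_) h
      rw [ev_mul]
      exact (norm_mul_le _ _).trans (mul_le_mul_of_nonneg_right (norm_ev_le _ _) (norm_nonneg _))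
  hr := by
    rintro a x ⟨hx, hx'⟩
    refine ⟨fun j => ?_, ?_⟩
    · rw [ev_mul, map_mul, hx, zero_mul]
    · have h := hx'.mul_const ‖a‖
      rw [zero_mul] at h
      refine squeeze_zero (fun _ => norm_nonneg _) (fun j => ?_) h
      rw [ev_mul]
      exact (norm_mul_le _ _).trans (mul_le_mul_of_nonneg_left (norm_ev_le _ _) (norm_nonneg _))

theorem mem_JI_iff (hS : ∀ n, cutP n ∈ S) (b : SAT S) :
    b ∈ JI π S ↔ b ∈ closure (⋃ n, (Jn π S n : Set (SAT S))) := by
  constructor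
  · intro hb
    rw [Metric.mem_closure_iff]
    intro ε hε
    obtain ⟨N, hN⟩ := Metric.tendsto_atTop.1 hb.2 (ε / 2) (half_pos hε)
    obtain ⟨p, hp⟩ := exists_incl S (hS N)
    have hev : ∀ j, ev S j p = if j < N then 1 else 0 := by
      intro j
      unfold ev
      rw [hp]
      rfl
    refine ⟨p * b, mem_iUnion.2 ⟨N, fun j => ?_, fun j hj => ?_⟩, ?_⟩
    · rw [ev_mul, map_mul, hb.1, mul_zero]
    · rw [ev_mul, hev, if_neg (not_lt.2 hj), zero_mul]
    · rw [dist_eq_norm, ← norm_incl S]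
      refine (norm_le_of _ (half_pos hε).le fun j => ?_).trans_lt (half_lt_self hε)
      show ‖ev S j (b - p * b)‖ ≤ ε / 2
      rw [ev_sub, ev_mul, hev]
      split_ifs with h
      · rw [one_mul, sub_self, norm_zero]
        exact (half_pos hε).le
      · rw [zero_mul, sub_zero]
        have h1 := hN j (not_lt.1 h)
        rw [Real.dist_eq, sub_zero, abs_norm] at h1
        exact h1.le
  · intro hb
    have h1 : closure (⋃ n, (Jn π S n : Set (SAT S))) ⊆ (JI π S : Set (SAT S)) := by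
      refine (CI_JI π S).closed.closure_subset_iff.2 (iUnion_subset fun n b hb => ?_)
      refine ⟨hb.1, ?_⟩
      refine tendsto_const_nhds.congr' ?_
      filter_upwards [eventually_ge_atTop n] with j hj
      rw [hb.2 j hj, norm_zero]
    exact h1 hb

end Prod

/-- the quotient map as a nonunital star homomorphism -/
def mkS {A : Type} [CStarAlgebra A] {I : Submodule ℂ A} (H : CI I) : A →⋆ₙₐ[ℂ] Q H where
  toFun := mk H
  map_smul' c x := mk_smul H c x
  map_zero' := mk_zero H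
  map_add' := mk_add H
  map_mul' := mk_mul H
  map_star' := mk_star H

theorem mkS_eq {A : Type} [CStarAlgebra A] {I : Submodule ℂ A} (H : CI I) (a b : A) :
    mkS H a = mkS H b ↔ a - b ∈ I := mk_eq H a b

theorem mkS_zero {A : Type} [CStarAlgebra A] {I : Submodule ℂ A} (H : CI I) (a : A) :
    mkS H a = 0 ↔ a ∈ I := by
  have := mkS_eq H a 0
  rwa [map_zero, sub_zero] at this

theorem eq_one_of_proj {A : Type} [CStarAlgebra A] {p : A} (h1 : p * p = p) (h2 : star p = p)
    (h3 : ‖p - 1‖ < 1) : p = 1 := by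
  have h4 : star (p - 1) * (p - 1) = -(p - 1) := by
    rw [star_sub, star_one, h2, sub_mul, mul_sub, h1]
    simp
  have h5 : ‖p - 1‖ * ‖p - 1‖ = ‖p - 1‖ := by
    rw [← CStarRing.norm_star_mul_self, h4, norm_neg]
  have h6 : ‖p - 1‖ = 0 := by
    by_contra h
    have := mul_right_cancel₀ h (h5.trans (one_mul _).symm)
    linarith
  exact sub_eq_zero.1 (norm_eq_zero.1 h6)

/-- **Perturbation of almost representations.** Let `G` be `C*`-stable and let `φ j : G → D j` be
asymptotically multiplicative, involutive and unital, with `π j ∘ φ j` a representation. Then there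
are representations `ψ j` with `π j ∘ ψ j = π j ∘ φ j` for large `j` and `ψ j - φ j → 0` pointwise. -/
theorem perturb {G : Type} [Group G] [Countable G] (hG : CStarStable G)
    {D E : ℕ → Type} [∀ j, CStarAlgebra (D j)] [∀ j, CStarAlgebra (E j)]
    [∀ j, Nontrivial (D j)] (π : ∀ j, D j →⋆ₐ[ℂ] E j) (φ : ∀ j, G → D j)
    (hb : ∀ g, ∃ C, ∀ j, ‖φ j g‖ ≤ C) (ρ : ∀ j, G →* unitary (E j))
    (hπ : ∀ j g, π j (φ j g) = ρ j g)
    (hmul : ∀ g h, Tendsto (fun j => ‖φ j (g * h) - φ j g * φ j h‖) atTop (𝓝 0))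
    (hstar : ∀ g, Tendsto (fun j => ‖star (φ j g) - φ j g⁻¹‖) atTop (𝓝 0))
    (hone : Tendsto (fun j => ‖φ j 1 - 1‖) atTop (𝓝 0)) :
    ∃ ψ : ∀ j, G →* unitary (D j), (∀ᶠ j in atTop, ∀ g, π j (ψ j g) = π j (φ j g)) ∧
      ∀ g, Tendsto (fun j => ‖(ψ j g : D j) - φ j g‖) atTop (𝓝 0) := by
  classical
  obtain ⟨A, instA, u, hu, hA⟩ := hG
  set S : Set (lp D ∞) := range (fun g => seq (fun j => φ j g) (hb g)) ∪ range cutP with hSdef
  have hSc : S.Countable := (countable_range _).union (countable_range _)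
  have hcut : ∀ n, cutP n ∈ S := fun n => Or.inr ⟨n, rfl⟩
  have hsep : SeparableSpace (SAT S) := separable_SAT hSc
  have hex : ∀ g, ∃ b : SAT S, ∀ j, ev S j b = φ j g := by
    intro g
    obtain ⟨b, hb'⟩ := exists_incl S (Or.inl ⟨g, rfl⟩ : seq (fun j => φ j g) (hb g) ∈ S)
    refine ⟨b, fun j => ?_⟩
    unfold ev
    rw [hb']
    rfl
  choose Φ hΦ using hex
  -- the representation in the quotient
  have H1 : mkS (CI_JI π S) (Φ 1) = 1 := by
    have : (1 : Q (CI_JI π S)) = mkS (CI_JI π S) 1 := rfl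
    rw [this, mkS_eq]
    refine ⟨fun j => ?_, ?_⟩
    · rw [ev_sub, hΦ, ev_one, map_sub, hπ, map_one, map_one]
      simp
    · refine hone.congr fun j => ?_
      rw [ev_sub, hΦ, ev_one]
  have H2 : ∀ g h, mkS (CI_JI π S) (Φ (g * h)) = mkS (CI_JI π S) (Φ g) * mkS (CI_JI π S) (Φ h) := by
    intro g h
    rw [← map_mul, mkS_eq]
    refine ⟨fun j => ?_, ?_⟩
    · rw [ev_sub, ev_mul, hΦ, hΦ, hΦ, map_sub, map_mul, hπ, hπ, hπ, map_mul]
      simp
    · refine (hmul g h).congr fun j => ?_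
      rw [ev_sub, ev_mul, hΦ, hΦ, hΦ]
  have H3 : ∀ g, star (mkS (CI_JI π S) (Φ g)) = mkS (CI_JI π S) (Φ g⁻¹) := by
    intro g
    rw [← map_star, mkS_eq]
    refine ⟨fun j => ?_, ?_⟩
    · rw [ev_sub, ev_star, hΦ, hΦ, map_sub, map_star, hπ, hπ, map_inv]
      rw [sub_eq_zero]
      rfl
    · refine (hstar g).congr fun j => ?_
      rw [ev_sub, ev_star, hΦ, hΦ]
  let v : G →* unitary (Q (CI_JI π S)) :=
    { toFun := fun g => ⟨mkS (CI_JI π S) (Φ g), by
        rw [Unitary.mem_iff]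
        constructor
        · rw [H3, ← H2, inv_mul_cancel, H1]
        · rw [H3, ← H2, mul_inv_cancel, H1]⟩
      map_one' := Subtype.ext H1
      map_mul' := fun g h => Subtype.ext (H2 g h) }
  obtain ⟨θ, hθ⟩ := hu.univ (Q (CI_JI π S)) v
  obtain ⟨n, ψ', hψ'⟩ := hA (SAT S) (fun n => Q (CI_Jn π S n)) (Q (CI_JI π S))
    (fun n => (mkS (CI_Jn π S n) : SAT S →⋆ₙₐ[ℂ] Q (CI_Jn π S n)))
    (mkS (CI_JI π S) : SAT S →⋆ₙₐ[ℂ] Q (CI_JI π S))
    { quot := fun n => mk_surj _
      quotI := mk_surj _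
      mono := by
        intro n b hb
        have hb' : mkS (CI_Jn π S n) b = 0 := hb
        show mkS (CI_Jn π S (n + 1)) b = 0
        rw [mkS_zero] at hb' ⊢
        exact ⟨hb'.1, fun j hj => hb'.2 j (by omega)⟩
      lim := by
        ext b
        show mkS (CI_JI π S) b = 0 ↔ _
        rw [mkS_zero, mem_JI_iff π S hcut]
        have : (⋃ n, SHom.ker (mkS (CI_Jn π S n) : SAT S →⋆ₙₐ[ℂ] Q (CI_Jn π S n))) =
            ⋃ n, (Jn π S n : Set (SAT S)) := by
          refine iUnion_congr fun n => ?_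
          ext x
          exact mkS_zero _ _
        rw [this] }
    (θ : A →⋆ₙₐ[ℂ] Q (CI_JI π S))
  let ψ : A →⋆ₙₐ[ℂ] Q (CI_Jn π S n) := ψ'
  have hψ : ∀ a b, mkS (CI_Jn π S n) b = ψ a → mkS (CI_JI π S) b = θ a := hψ'
  have hlift : ∀ a : A, ∃ b : SAT S, mkS (CI_Jn π S n) b = ψ a := fun a => mk_surj _ _
  choose β hβ using hlift
  have hβI : ∀ a, mkS (CI_JI π S) (β a) = θ a := fun a => hψ a (β a) (hβ a)
  have hβm : ∀ a b j, n ≤ j → ev S j (β (a * b)) = ev S j (β a) * ev S j (β b) := by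
    intro a b j hj
    have h : mkS (CI_Jn π S n) (β (a * b)) = mkS (CI_Jn π S n) (β a * β b) := by
      rw [hβ, map_mul, map_mul, hβ, hβ]
    rw [mkS_eq] at h
    have h' := h.2 j hj
    rwa [ev_sub, ev_mul, sub_eq_zero] at h'
  have hβs : ∀ a j, n ≤ j → ev S j (β (star a)) = star (ev S j (β a)) := by
    intro a j hj
    have h : mkS (CI_Jn π S n) (β (star a)) = mkS (CI_Jn π S n) (star (β a)) := by
      rw [hβ, map_star, map_star, hβ]
    rw [mkS_eq] at h
    have h' := h.2 j hj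
    rwa [ev_sub, ev_star, sub_eq_zero] at h'
  have hclose : ∀ g, β (u g : A) - Φ g ∈ JI π S := by
    intro g
    rw [← mkS_eq (CI_JI π S), hβI, hθ]
    rfl
  have hp1 : β 1 - 1 ∈ JI π S := by
    rw [← mkS_eq (CI_JI π S), hβI, map_one]
    rfl
  have hev1 : ∀ᶠ j in atTop, ev S j (β 1) = 1 := by
    obtain ⟨N, hN⟩ := Metric.tendsto_atTop.1 hp1.2 1 one_pos
    filter_upwards [eventually_ge_atTop N, eventually_ge_atTop n] with j hj hj'
    have h1 := hN j hj
    rw [Real.dist_eq, sub_zero, abs_norm, ev_sub, ev_one] at h1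
    refine eq_one_of_proj ?_ ?_ h1
    · rw [← hβm _ _ j hj', one_mul]
    · rw [← hβs _ j hj', star_one]
  obtain ⟨N, hN⟩ := eventually_atTop.1 (hev1.and (eventually_ge_atTop n))
  have key : ∀ j, N ≤ j → ∃ w : G →* unitary (D j), ∀ g, (w g : D j) = ev S j (β (u g : A)) := by
    intro j hj
    obtain ⟨h1, h2⟩ := hN j hj
    refine ⟨{ toFun := fun g => ⟨ev S j (β (u g : A)), ?_⟩, map_one' := ?_, map_mul' := ?_ },
      fun g => rfl⟩
    · rw [Unitary.mem_iff]
      constructor
      · rw [← hβs _ j h2, ← hβm _ _ j h2, Unitary.coe_star_mul_self, h1]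
      · rw [← hβs _ j h2, ← hβm _ _ j h2, Unitary.mul_star_self_of_mem (u g).2, h1]
    · refine Subtype.ext ?_
      show ev S j (β (u 1 : A)) = 1
      rw [map_one]
      exact h1
    · intro g h
      refine Subtype.ext ?_
      show ev S j (β (u (g * h) : A)) = ev S j (β (u g : A)) * ev S j (β (u h : A))
      rw [map_mul]
      exact hβm _ _ j h2
  refine ⟨fun j => if h : N ≤ j then (key j h).choose else 1, ?_, fun g => ?_⟩
  · filter_upwards [eventually_ge_atTop N] with j hj g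
    rw [dif_pos hj, (key j hj).choose_spec g]
    have h := (hclose g).1 j
    rwa [ev_sub, hΦ, map_sub, sub_eq_zero] at h
  · refine (hclose g).2.congr' ?_
    filter_upwards [eventually_ge_atTop N] with j hj
    rw [dif_pos hj, (key j hj).choose_spec g, ev_sub, hΦ]

end Pool.Agent.Helper72CS
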