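import Pool.Agent.Helper72_CS.Perturb

/-!
# Weak stability of `C*`-stable groups
-/

set_option autoImplicit false

open Set Filter Topology TopologicalSpace
open scoped ENNReal
open Pool.Agent.Helper757.GL

noncomputable section

namespace Pool.Agent.Helper72CS

/-- the quotient map as a unital star homomorphism -/
def mkU {A : Type} [CStarAlgebra A] {I : Submodule ℂ A} (H : CI I) : A →⋆ₐ[ℂ] Q H where
  toFun := mk H
  map_one' := mk_one H
  map_zero' := mk_zero H
  map_add' := mk_add H
  map_mul' := mk_mul H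
  commutes' := (mkHom H).commutes'
  map_star' := mk_star H

theorem CI_top (A : Type) [CStarAlgebra A] : CI (⊤ : Submodule ℂ A) where
  closed := isClosed_univ
  hl := fun _ _ _ => trivial
  hr := fun _ _ _ => trivial

theorem Q_top_subsingleton (A : Type) [CStarAlgebra A] : Subsingleton (Q (CI_top A)) := by
  refine ⟨fun x y => ?_⟩
  obtain ⟨a, rfl⟩ := mk_surj _ x
  obtain ⟨b, rfl⟩ := mk_surj _ y
  rw [mk_eq]
  trivial

/-- **Weak stability.** Let `G` be `C*`-stable and let `φ j : G → D j` be asymptotically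
multiplicative, involutive and unital. Then `φ j` is asymptotically close to representations. -/
theorem perturbW {G : Type} [Group G] [Countable G] (hG : CStarStable G)
    {D : ℕ → Type} [∀ j, CStarAlgebra (D j)]
    [∀ j, Nontrivial (D j)] (φ : ∀ j, G → D j)
    (hb : ∀ g, ∃ C, ∀ j, ‖φ j g‖ ≤ C)
    (hmul : ∀ g h, Tendsto (fun j => ‖φ j (g * h) - φ j g * φ j h‖) atTop (𝓝 0))
    (hstar : ∀ g, Tendsto (fun j => ‖star (φ j g) - φ j g⁻¹‖) atTop (𝓝 0))
    (hone : Tendsto (fun j => ‖φ j 1 - 1‖) atTop (𝓝 0)) :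
    ∃ ψ : ∀ j, G →* unitary (D j),
      ∀ g, Tendsto (fun j => ‖(ψ j g : D j) - φ j g‖) atTop (𝓝 0) := by
  obtain ⟨ψ, _, h⟩ := perturb hG (E := fun j => Q (CI_top (D j))) (fun j => mkU (CI_top (D j))) φ hb
    (fun j => 1) (fun j g => (Q_top_subsingleton (D j)).elim _ _) hmul hstar hone
  exact ⟨ψ, h⟩

end Pool.Agent.Helper72CS
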