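/-
HOW TO START: this file imports small modules which are on origin/main. Do
  cd /workdir/pool/outputs/live && git fetch && git checkout origin/main -- Pool/Agent/Helper72_CS Pool/Agent/Helper757/GL ; git reset -q
  mkdir -p /workdir/pool/Pool/Agent/Helper757 && cp -r Pool/Agent/Helper72_CS /workdir/pool/Pool/Agent/ && cp -r Pool/Agent/Helper757/GL /workdir/pool/Pool/Agent/Helper757/
  cd /workdir/pool && lake build Pool.Agent.Helper72_CS.LSDefs Pool.Agent.Helper72_CS.HubTop Pool.Agent.Helper72_CS.SolvComm Pool.Agent.Helper72_CS.IndexLemma Pool.Agent.Helper72_CS.OpRep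
(1-2 minutes). The definitions are in Pool/Agent/Helper72_CS/{Ind,Fam,Grp,LSDefs}.lean (short; read them first).
Note: inside the namespace, `continuous_pi` is another lemma; write `_root_.continuous_pi`.
-/
import Pool.Agent.Helper72_CS.Defs2

/-!
JOB ps_ab_ext. (`PS` is defined in `Pool/Agent/Helper72_CS/Defs2.lean`; useful lemmas are in `Pool/Agent/Helper72_CS/SolvComm.lean`:
`eq_one_of_pow_near`, `small_comm`, `smaller_comm`, `commute_of`; the proof is a copy of one step of the theorem `main` in that file.)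

Proof. Let `H ≤ G`, `φ : H → U(A)`, `S ⊆ H` conjugation invariant with `‖φ s - 1‖ ≤ 1/10`. Let `N₁ = {u v u⁻¹ v⁻¹ : u, v ∈ S} ⊆ H ∩ N` (by `hab`). It is
invariant under conjugation by `H` and `‖φ c - 1‖ ≤ 1/10` on `N₁` (`smaller_comm`). By `PS N` (applied to the subgroup `H.subgroupOf N` of `N`) the elements of
`φ N₁` commute pairwise; let `K` be the subgroup of `H` generated by `N₁`: `φ K` is commutative, `K` is normalised by `H`. For `s ∈ S`, `w ∈ K`: `φ s`
commutes with `φ w` by `commute_of` (`u = φ s`, conjugate of `w` in `K`). For `u, v ∈ S`: `c = u v u⁻¹ v⁻¹ ∈ K`, `φ v` commutes with `φ c`, so `u v u⁻¹ = c v` commutes with `v`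
after `φ`, and `commute_of` gives that `φ u`, `φ v` commute.
-/

set_option autoImplicit false

open Set Filter Topology

noncomputable section

namespace Pool.Agent.Helper72CS

theorem pse_closure_comm {U : Type} [Group U] (T : Set U) (h : ∀ x ∈ T, ∀ y ∈ T, x * y = y * x) :
    ∀ x ∈ Subgroup.closure T, ∀ y ∈ Subgroup.closure T, x * y = y * x := by
  have c1 : Subgroup.closure T ≤ Subgroup.centralizer T := by
    rw [Subgroup.closure_le]
    intro u hu
    rw [SetLike.mem_coe, Subgroup.mem_centralizer_iff]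
    intro v hv
    exact h v hv u hu
  have c2 : Subgroup.closure T ≤ Subgroup.centralizer (Subgroup.closure T : Set U) := by
    conv_lhs => rw [Subgroup.closure_eq_of_le _ Subgroup.subset_closure le_rfl]
    rw [Subgroup.closure_le]
    intro u hu
    rw [SetLike.mem_coe, Subgroup.mem_centralizer_iff]
    intro g hg
    have := c1 hg
    rw [Subgroup.mem_centralizer_iff] at this
    exact (this u hu).symm
  intro a ha b hb
  have := c2 hb
  rw [Subgroup.mem_centralizer_iff] at this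
  exact this a ha

/-- TARGET -/
theorem ps_ab_ext {G : Type} [Group G] (N : Subgroup G) [N.Normal]
    (hab : ∀ a b : G, a * b * a⁻¹ * b⁻¹ ∈ N) (hN : PS N) : PS G := by
  intro H A _ φ S hconj hsmall
  obtain ⟨N₁, hN₁⟩ : ∃ N₁ : Set H, N₁ = {c | ∃ u ∈ S, ∃ v ∈ S, c = u * v * u⁻¹ * v⁻¹} := ⟨_, rfl⟩
  have hN₁N : ∀ c ∈ N₁, (c : G) ∈ N := by
    intro c hc
    rw [hN₁] at hc
    obtain ⟨u, -, v, -, rfl⟩ := hc
    exact hab u v
  have hconj₁ : ∀ g : H, ∀ c ∈ N₁, g * c * g⁻¹ ∈ N₁ := by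
    intro g c hc
    rw [hN₁] at hc ⊢
    obtain ⟨u, hu, v, hv, rfl⟩ := hc
    refine ⟨g * u * g⁻¹, hconj g u hu, g * v * g⁻¹, hconj g v hv, ?_⟩
    group
  have hsmall₁ : ∀ c ∈ N₁, ‖(φ c : A) - 1‖ ≤ 1 / 10 := by
    intro c hc
    rw [hN₁] at hc
    obtain ⟨u, hu, v, hv, rfl⟩ := hc
    rw [map_mul, map_mul, map_mul, map_inv, map_inv]
    exact smaller_comm (hsmall u hu) (hsmall v hv)
  let ι : (H.subgroupOf N) →* H :=
    { toFun := fun x => ⟨x.1.1, x.2⟩
      map_one' := rfl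
      map_mul' := fun x y => rfl }
  have h1 := hN (H.subgroupOf N) A (φ.comp ι) (ι ⁻¹' N₁)
    (fun g n hn => by
      show ι (g * n * g⁻¹) ∈ N₁
      rw [map_mul, map_mul, map_inv]
      exact hconj₁ (ι g) (ι n) hn)
    (fun n hn => hsmall₁ (ι n) hn)
  have hcomm₁ : ∀ c ∈ N₁, ∀ c' ∈ N₁, φ c * φ c' = φ c' * φ c := by
    intro c hc c' hc'
    exact h1 ⟨⟨(c : G), hN₁N c hc⟩, c.2⟩ hc ⟨⟨(c' : G), hN₁N c' hc'⟩, c'.2⟩ hc'
  obtain ⟨K, hK⟩ : ∃ K, K = Subgroup.closure (φ '' N₁) := ⟨_, rfl⟩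
  have hKab : ∀ x ∈ K, ∀ y ∈ K, x * y = y * x := by
    rw [hK]
    apply pse_closure_comm
    rintro _ ⟨c, hc, rfl⟩ _ ⟨c', hc', rfl⟩
    exact hcomm₁ c hc c' hc'
  have hKconj : ∀ g : H, ∀ w ∈ K, φ g * w * (φ g)⁻¹ ∈ K := by
    intro g w hw
    rw [hK] at hw ⊢
    induction hw using Subgroup.closure_induction with
    | mem x hx =>
      obtain ⟨c, hc, rfl⟩ := hx
      refine Subgroup.subset_closure ⟨g * c * g⁻¹, hconj₁ g c hc, ?_⟩
      rw [map_mul, map_mul, map_inv]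
    | one => simp
    | mul x y _ _ hx hy =>
      have e : φ g * (x * y) * (φ g)⁻¹ = (φ g * x * (φ g)⁻¹) * (φ g * y * (φ g)⁻¹) := by group
      rw [e]
      exact mul_mem hx hy
    | inv x _ hx =>
      have e : φ g * x⁻¹ * (φ g)⁻¹ = (φ g * x * (φ g)⁻¹)⁻¹ := by group
      rw [e]
      exact inv_mem hx
  have hNK : ∀ u ∈ S, ∀ w ∈ K, φ u * w = w * φ u := by
    intro u hu w hw
    exact commute_of (hsmall u hu) (hKab _ (hKconj u w hw) _ hw)
  intro u hu v hv
  apply commute_of (hsmall u hu)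
  have hcN : u * v * u⁻¹ * v⁻¹ ∈ N₁ := by
    rw [hN₁]
    exact ⟨u, hu, v, hv, rfl⟩
  have hcK : φ (u * v * u⁻¹ * v⁻¹) ∈ K := by
    rw [hK]
    exact Subgroup.subset_closure ⟨_, hcN, rfl⟩
  have h2 : φ v * φ (u * v * u⁻¹ * v⁻¹) = φ (u * v * u⁻¹ * v⁻¹) * φ v := hNK v hv _ hcK
  have h3 : φ u * φ v * (φ u)⁻¹ = φ (u * v * u⁻¹ * v⁻¹) * φ v := by
    rw [map_mul, map_mul, map_mul, map_inv, map_inv]
    group
  rw [h3]
  exact Commute.mul_left h2.symm (Commute.refl _)

end Pool.Agent.Helper72CS
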